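import Mathlib

/-!
Abstract counting set-up in a finite group `G`: the sets of tuples which describe the
homomorphisms from a Fuchsian group to `G`, and the list of facts about `G` (`IFace`) from which the
proportion of generating tuples is estimated.
-/

namespace Pool.Agent.Helper669_gp

open Finset

section defs

variable (G : Type) [Group G] [Fintype G] [DecidableEq G]

/-- The solutions of `x ^ m = 1`. -/
def tor (m : ℕ) : Finset G := univ.filter fun x => x ^ m = 1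

/-- Tuples `(x_1, …, x_k)` with `x_i ^ m_i = 1`, as lists. -/
def XS : List ℕ → Finset (List G)
  | [] => {[]}
  | m :: ms => Finset.image₂ List.cons (tor G m) (XS ms)

/-- Homomorphisms from the free product of cyclic groups of orders `m_i` and a free group of
rank `r`. -/
def FPset (r : ℕ) (ms : List ℕ) : Finset (List G × (Fin r → G)) := XS G ms ×ˢ univ

/-- `x_1 ⋯ x_k = 1`. -/
def O0set (ms : List ℕ) : Finset (List G) := (XS G ms).filter fun l => l.prod = 1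

/-- `x_1 ⋯ x_k [a, b] = 1`. -/
def O1set (ms : List ℕ) : Finset (List G × G × G) :=
  (XS G ms ×ˢ univ).filter fun t => t.1.prod * (t.2.1 * t.2.2 * t.2.1⁻¹ * t.2.2⁻¹) = 1

/-- `x_1 ⋯ x_k a ^ 2 = 1`. -/
def N1set (ms : List ℕ) : Finset (List G × G) :=
  (XS G ms ×ˢ univ).filter fun t => t.1.prod * t.2 ^ 2 = 1

/-- `x_1 ⋯ x_k a ^ 2 b ^ 2 = 1`. -/
def N2set (ms : List ℕ) : Finset (List G × G × G) :=
  (XS G ms ×ˢ univ).filter fun t => t.1.prod * (t.2.1 ^ 2 * t.2.2 ^ 2) = 1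

/-- number of tuples with `x_1 ⋯ x_k = z` -/
def cntA (ms : List ℕ) (z : G) : ℕ := ((XS G ms).filter fun l => l.prod = z).card

end defs

variable {G : Type} [Group G]

/-- The tuple generates `G`. -/
def FPgen {r : ℕ} (t : List G × (Fin r → G)) : Prop :=
  Subgroup.closure ({x | x ∈ t.1} ∪ Set.range t.2) = ⊤

/-- The tuple generates `G`. -/
def O0gen (t : List G) : Prop := Subgroup.closure {x | x ∈ t} = ⊤

/-- The tuple generates `G`. -/
def N1gen (t : List G × G) : Prop := Subgroup.closure ({x | x ∈ t.1} ∪ {t.2}) = ⊤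

/-- The tuple generates `G`. -/
def O1gen (t : List G × G × G) : Prop :=
  Subgroup.closure ({x | x ∈ t.1} ∪ {t.2.1, t.2.2}) = ⊤

open scoped Classical in
/-- The facts about the finite group `G` (in the application `G = PSL_2(q)` and `r` is the square
root of `q`) used for the estimates, for the exponents in the finite set `P`. -/
structure IFace (G : Type) [Group G] [Fintype G] [DecidableEq G] (P : Finset ℕ) (r C : ℝ) :
    Prop where
  one_le_r : 1 ≤ r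
  one_le_C : 1 ≤ C
  card_le : (Fintype.card G : ℝ) ≤ C * r ^ 6
  le_card : r ^ 6 ≤ C * (Fintype.card G : ℝ)
  tor_le : ∀ m ∈ P, ((tor G m).card : ℝ) ≤ C * r ^ 4
  le_tor : ∀ m ∈ P, ¬ Nat.Coprime m (Fintype.card G) → r ^ 4 ≤ C * ((tor G m).card : ℝ)
  two_le : ∀ m ∈ P, ∀ n ∈ P, ∀ z : G, z ≠ 1 →
    (((tor G m).filter fun x => x⁻¹ * z ∈ tor G n).card : ℝ) ≤ C * r ^ 2
  exc : ∃ B : Finset G, 1 ∈ B ∧ (∀ z ∈ B, z⁻¹ ∈ B) ∧
    (∀ m ∈ P, ∀ z : G, z ≠ 1 →
      (((tor G m).filter fun x => x⁻¹ * z ∈ B).card : ℝ) ≤ C * r ^ 2) ∧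
    (∀ m ∈ P, ∀ n ∈ P, ¬ Nat.Coprime m (Fintype.card G) → ¬ Nat.Coprime n (Fintype.card G) →
      ∀ z : G, z ∉ B →
        r ^ 2 ≤ C * (((tor G m).filter fun x => x⁻¹ * z ∈ tor G n).card : ℝ)) ∧
    (((univ : Finset (G × G)).filter
      fun t => t.1 * t.2 * t.1⁻¹ * t.2⁻¹ ∈ B).card : ℝ) ≤ C * r ^ 10 ∧
    (((univ : Finset G).filter fun a => a ^ 2 ∈ B).card : ℝ) ≤ C * r ^ 4 ∧
    (((univ : Finset (G × G)).filter fun t => t.1 ^ 2 * t.2 ^ 2 ∈ B).card : ℝ) ≤ C * r ^ 10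
  conj_le : ∀ y y' : G, y ≠ 1 →
    (((univ : Finset G).filter fun b => b * y * b⁻¹ = y').card : ℝ) ≤ C * r ^ 2
  sqrt_le : ∀ z : G, z ≠ 1 → (((univ : Finset G).filter fun a => a ^ 2 = z).card : ℝ) ≤ C
  invol_le : (((univ : Finset G).filter fun a => a ^ 2 = 1).card : ℝ) ≤ C * r ^ 4
  gen2 : ∀ m ∈ P, ∀ n ∈ P, (((tor G m ×ˢ tor G n).filter fun t =>
    Subgroup.closure {t.1, t.2} ≠ ⊤ ∧ ¬ (t.1 ^ 2 = 1 ∧ t.2 ^ 2 = 1)).card : ℝ) ≤ C * r ^ 7
  gen1 : ∀ m ∈ P, (((tor G m ×ˢ (univ : Finset G)).filter fun t =>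
    Subgroup.closure {t.1, t.2} ≠ ⊤).card : ℝ) ≤ C * r ^ 9
  gen0 : (((univ : Finset (G × G)).filter fun t =>
    Subgroup.closure {t.1, t.2} ≠ ⊤).card : ℝ) ≤ C * r ^ 11
  n2_le : ∀ x : G, x ≠ 1 → r ^ 6 ≤ C *
    (((univ : Finset (G × G)).filter fun t => x * (t.1 ^ 2 * t.2 ^ 2) = 1).card : ℝ)

end Pool.Agent.Helper669_gp
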