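import Mathlib

/-!
Arithmetic of the orbit equation.
-/

namespace Pool.Agent.Helper669_gp

/-- two remaining orbits, first index two, one of the others at most three -/
lemma ar_one (g m n₂ e₂ n₃ e₃ : ℕ) (hg : g = 2 * m) (hm : 1 ≤ m) (h₂ : n₂ * e₂ = g)
    (h₃ : n₃ * e₃ = g) (he₂ : 2 ≤ e₂) (he₃ : 2 ≤ e₃) (hs : n₂ + n₃ = m + 2) (h3 : e₂ ≤ 3) :
    n₂ = 2 ∨ n₃ = 2 ∨ g = 12 ∨ g = 24 ∨ g = 60 := by
  interval_cases e₂
  · omega
  · by_cases h6 : 6 ≤ e₃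
    · have : n₃ * 6 ≤ g := by rw [← h₃]; exact Nat.mul_le_mul_left _ h6
      omega
    · push Not at h6
      interval_cases e₃ <;> omega

lemma ar_two (g m n₂ e₂ n₃ e₃ : ℕ) (hg : g = 2 * m) (hm : 1 ≤ m) (h₂ : n₂ * e₂ = g)
    (h₃ : n₃ * e₃ = g) (he₂ : 2 ≤ e₂) (he₃ : 2 ≤ e₃) (hs : n₂ + n₃ = m + 2) :
    n₂ = 2 ∨ n₃ = 2 ∨ g = 12 ∨ g = 24 ∨ g = 60 := by
  by_cases h2 : e₂ ≤ 3
  · exact ar_one g m n₂ e₂ n₃ e₃ hg hm h₂ h₃ he₂ he₃ hs h2
  · by_cases h3 : e₃ ≤ 3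
    · have := ar_one g m n₃ e₃ n₂ e₂ hg hm h₃ h₂ he₃ he₂ (by omega) h3
      omega
    · exfalso
      push Not at h2 h3
      have h4 : n₂ * 4 ≤ g := by rw [← h₂]; exact Nat.mul_le_mul_left _ h2
      have h5 : n₃ * 4 ≤ g := by rw [← h₃]; exact Nat.mul_le_mul_left _ h3
      omega

/-- three orbits -/
lemma ar_three (g n₁ e₁ n₂ e₂ n₃ e₃ : ℕ) (hg : 1 ≤ g) (h₁ : n₁ * e₁ = g) (h₂ : n₂ * e₂ = g)
    (h₃ : n₃ * e₃ = g) (he₁ : 2 ≤ e₁) (he₂ : 2 ≤ e₂) (he₃ : 2 ≤ e₃)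
    (hs : n₁ + n₂ + n₃ = g + 2) :
    n₁ = 2 ∨ n₂ = 2 ∨ n₃ = 2 ∨ g = 12 ∨ g = 24 ∨ g = 60 := by
  by_cases h2 : e₁ = 2
  · subst h2
    have := ar_two g n₁ n₂ e₂ n₃ e₃ (by omega) (by omega) h₂ h₃ he₂ he₃ (by omega)
    omega
  by_cases h2' : e₂ = 2
  · subst h2'
    have := ar_two g n₂ n₁ e₁ n₃ e₃ (by omega) (by omega) h₁ h₃ he₁ he₃ (by omega)
    omega
  by_cases h2'' : e₃ = 2
  · subst h2''
    have := ar_two g n₃ n₁ e₁ n₂ e₂ (by omega) (by omega) h₁ h₂ he₁ he₂ (by omega)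
    omega
  exfalso
  have h4 : n₁ * 3 ≤ g := by rw [← h₁]; exact Nat.mul_le_mul_left _ (by omega)
  have h5 : n₂ * 3 ≤ g := by rw [← h₂]; exact Nat.mul_le_mul_left _ (by omega)
  have h6 : n₃ * 3 ≤ g := by rw [← h₃]; exact Nat.mul_le_mul_left _ (by omega)
  omega

/-- one wild orbit and one tame orbit -/
lemma ar_wild (g n v e n' e' : ℕ) (hv : 2 ≤ v) (he : 1 ≤ e) (hn : 1 ≤ n)
    (h₁ : n * v * e = g) (h₂ : n' * e' = g) (hd : v ∣ n - 1) (hde : e ∣ v - 1)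
    (hs : n' = n * (v - 2) + 2) :
    n = 1 ∨ n' = 2 ∨ g = 12 ∨ g = 24 ∨ g = 60 ∨
      (4 ≤ v ∧ n = v + 1 ∧ g = v * (v + 1) * e ∧ v - 1 ∣ 2 * e) := by
  obtain ⟨f, hf⟩ := hd
  by_cases hf0 : f = 0
  · left; rw [hf0] at hf; omega
  right
  have hn' : n = 1 + f * v := by
    have : n = 1 + v * f := by omega
    rw [this]; ring
  obtain ⟨u, hu⟩ : ∃ u, v = u + 2 := ⟨v - 2, by omega⟩
  have hvu : v - 2 = u := by omega
  rw [hvu] at hs
  -- `n' = v (1 + f u)`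
  have h3 : n' = v * (1 + f * u) := by rw [hs, hn', hu]; ring
  have h4 : (1 + f * u) ∣ (1 + f * v) * e := by
    have h5 : v * (1 + f * u) * e' = v * ((1 + f * v) * e) := by
      rw [← h3, h₂, ← h₁, hn']; ring
    have h6 : (1 + f * u) * e' = (1 + f * v) * e := by
      apply Nat.eq_of_mul_eq_mul_left (show 0 < v by omega)
      rw [← h5]; ring
    exact ⟨e', h6.symm⟩
  have h7 : (1 + f * u) ∣ 2 * e := by
    have h8 : (1 + f * v) * e = (1 + f * u) * e + f * (2 * e) := by rw [hu]; ring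
    rw [h8] at h4
    have h9 : (1 + f * u) ∣ f * (2 * e) := (Nat.dvd_add_right (Dvd.intro _ rfl)).mp h4
    have h10 : Nat.Coprime (1 + f * u) f := by
      rw [Nat.coprime_add_mul_left_left]
      exact Nat.coprime_one_left f
    exact h10.dvd_of_dvd_mul_left h9
  have h8 : e ≤ v - 1 := Nat.le_of_dvd (by omega) hde
  by_cases hu0 : u = 0
  · left
    rw [hs, hu0]; simp
  right
  by_cases hu1 : u = 1
  · -- v = 3
    have hv3 : v = 3 := by omega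
    subst hv3
    subst hu1
    have hf3 : 1 + f ≤ 2 * e := by
      have := Nat.le_of_dvd (by omega) h7
      omega
    have he2 : e ≤ 2 := by omega
    have hf4 : f ≤ 3 := by omega
    have hf1 : 1 ≤ f := by omega
    interval_cases e <;> interval_cases f <;> omega
  -- v ≥ 4
  have hf1 : f = 1 := by
    by_contra hne
    have hf2 : 2 ≤ f := by omega
    have hle := Nat.le_of_dvd (by omega) h7
    by_cases hf3 : 3 ≤ f
    · have : 3 * u ≤ f * u := Nat.mul_le_mul_right _ hf3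
      omega
    · have hf22 : f = 2 := by omega
      subst hf22
      obtain ⟨t, ht⟩ := h7
      have ht1 : t = 1 := by
        by_contra htn
        by_cases ht0 : t = 0
        · rw [ht0] at ht; omega
        · have : (1 + 2 * u) * 2 ≤ (1 + 2 * u) * t := Nat.mul_le_mul_left _ (by omega)
          omega
      rw [ht1] at ht
      omega
  subst hf1
  right; right; right
  refine ⟨by omega, by omega, ?_, ?_⟩
  · rw [← h₁, hn']; ring
  · have : v - 1 = 1 + 1 * u := by omega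
    rw [this]; exact h7

/-- the size of the subfield -/
lemma ar_dvd (p k f e : ℕ) (hp : 2 ≤ p) (hk : 1 ≤ k) (hf : 1 ≤ f) (he : 1 ≤ e)
    (h₁ : e ∣ p ^ k - 1) (h₂ : e ∣ p ^ f - 1) (h₃ : p ^ k - 1 ∣ 2 * e) : k ∣ f := by
  have h4 : e ∣ p ^ Nat.gcd k f - 1 := by
    rw [← Nat.pow_sub_one_gcd_pow_sub_one]
    exact Nat.dvd_gcd h₁ h₂
  set d := Nat.gcd k f with hd
  have hdk : d ∣ k := Nat.gcd_dvd_left k f
  have hd1 : 1 ≤ d := Nat.gcd_pos_of_pos_left _ hk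
  obtain ⟨c, hc⟩ := hdk
  have hpd : 2 ≤ p ^ d := by
    calc 2 ≤ p := hp
      _ = p ^ 1 := (pow_one p).symm
      _ ≤ p ^ d := Nat.pow_le_pow_right (by omega) hd1
  by_cases hc1 : c = 1
  · rw [hc, hc1, mul_one, hd]; exact Nat.gcd_dvd_right k f
  exfalso
  have hc2 : 2 ≤ c := by
    rcases Nat.eq_zero_or_pos c with h | h
    · rw [h] at hc; omega
    · omega
  have h5 : p ^ d * p ^ d ≤ p ^ k := by
    rw [hc, ← pow_add]
    apply Nat.pow_le_pow_right (by omega)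
    nlinarith
  have h6 := Nat.le_of_dvd (by omega) h₃
  have h7 := Nat.le_of_dvd (by omega) h4
  have h8 : p ^ d * 2 ≤ p ^ d * p ^ d := Nat.mul_le_mul_left _ hpd
  omega

end Pool.Agent.Helper669_gp
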