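import Mathlib

/-!
Fuchsian groups by their standard presentations, the probability `P_Γ(G)`, good pairs, and the
arithmetic criterion for the groups `PSL_2(q)`.
-/

namespace Pool.Agent.Helper669_gp

/-- Generators of a Fuchsian group of genus `g` with `d` periods and `s` parabolic generators:
`a_k` for `k < g`, in the oriented case also `b_k` for `k < g`, `x_i` for `i < d` and `y_j` for
`j < s`. -/
inductive Gen (oriented : Bool) (g d s : ℕ) : Type
  | a (k : Fin g) : Gen oriented g d s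
  | b (h : oriented = true) (k : Fin g) : Gen oriented g d s
  | x (i : Fin d) : Gen oriented g d s
  | y (j : Fin s) : Gen oriented g d s

open FreeGroup in
/-- The relators of a Fuchsian group: `x_i ^ m_i` for all `i`, and the product of
`x_1 ⋯ x_d`, of `y_1 ⋯ y_s`, and of `[a_1, b_1] ⋯ [a_g, b_g]` in the oriented case, of
`a_1 ^ 2 ⋯ a_g ^ 2` in the non-oriented case. -/
def rels (oriented : Bool) (g : ℕ) {d : ℕ} (m : Fin d → ℕ) (s : ℕ) :
    Set (FreeGroup (Gen oriented g d s)) :=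
  Set.range (fun i : Fin d => of (Gen.x i) ^ m i) ∪
    {(List.ofFn fun i : Fin d => of (Gen.x i)).prod * (List.ofFn fun j : Fin s => of (Gen.y j)).prod *
      (List.ofFn fun k : Fin g => if h : oriented = true then
        of (Gen.a k) * of (Gen.b h k) * (of (Gen.a k))⁻¹ * (of (Gen.b h k))⁻¹
        else of (Gen.a k) ^ 2).prod}

/-- The Fuchsian group with periods `m_i` (`i < d`) and `s` parabolic generators, oriented or
non-oriented of genus `g`. -/
abbrev FuchsianGroup (oriented : Bool) (g : ℕ) {d : ℕ} (m : Fin d → ℕ) (s : ℕ) : Type :=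
  PresentedGroup (rels oriented g m s)

/-- The proportion `P_Γ(G)` of surjective homomorphisms among all homomorphisms `Γ → G`. -/
noncomputable def epiProb (Γ G : Type) [Group Γ] [Group G] : ℝ :=
  (Nat.card {φ : Γ →* G // Function.Surjective φ} : ℝ) / (Nat.card (Γ →* G) : ℝ)

/-- The pair `(Γ, S)` is good: for every `ε > 0`, `P_Γ(G) > 1 - ε` for all but finitely many
`G` in `S`. -/
def IsGood (Γ : Type) [Group Γ] (S : Set GrpCat.{0}) : Prop :=
  ∀ ε : ℝ, 0 < ε → {G ∈ S | ¬ (1 - ε < epiProb Γ G)}.Finite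

/-- The periods which are not coprime to `n`, in their order. -/
def eff {d : ℕ} (m : Fin d → ℕ) (n : ℕ) : List ℕ :=
  (List.ofFn m).filter (fun k => ¬ Nat.Coprime k n)

/-- The arithmetic condition for three periods `a`, `b`, `c` and a prime power `q`. -/
structure TriCond (q a b c : ℕ) : Prop where
  /-- At most one of the periods is even. -/
  odd : (Odd a ∨ Odd b) ∧ (Odd a ∨ Odd c) ∧ (Odd b ∨ Odd c)
  /-- Some period is coprime to the greatest common divisor of `30` and `q (q ^ 2 - 1)`. -/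
  thirty : Nat.Coprime a (Nat.gcd 30 (q * (q ^ 2 - 1))) ∨
    Nat.Coprime b (Nat.gcd 30 (q * (q ^ 2 - 1))) ∨ Nat.Coprime c (Nat.gcd 30 (q * (q ^ 2 - 1)))
  /-- At most one of the three numbers `gcd (a, b, q - 1)`, `gcd (a, c, q - 1)`,
  `gcd (b, c, q - 1)` is different from `1`. -/
  torus : (Nat.Coprime (Nat.gcd a b) (q - 1) ∧ Nat.Coprime (Nat.gcd a c) (q - 1)) ∨
    (Nat.Coprime (Nat.gcd a b) (q - 1) ∧ Nat.Coprime (Nat.gcd b c) (q - 1)) ∨
    (Nat.Coprime (Nat.gcd a c) (q - 1) ∧ Nat.Coprime (Nat.gcd b c) (q - 1))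
  /-- If `q` is a proper power of `v` (so that the field with `q` elements has a proper subfield
  with `v` elements) then some period is coprime to `v (v ^ 2 - 1)`. -/
  subfield : ∀ v j : ℕ, 1 < j → q = v ^ j →
    Nat.Coprime a (v * (v ^ 2 - 1)) ∨ Nat.Coprime b (v * (v ^ 2 - 1)) ∨
      Nat.Coprime c (v * (v ^ 2 - 1))

/-- The arithmetic criterion for the Fuchsian group of genus `g` with `s` parabolic generators
and the group `PSL_2(q)`; here `ms` is the list of the periods which are not coprime to the order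
of `PSL_2(q)`. -/
def Crit (oriented : Bool) (g s q : ℕ) (ms : List ℕ) : Prop :=
  (oriented = true ∧ g = 0 ∧ s = 0 ∧ (5 ≤ ms.length ∨ (ms.length = 4 ∧ ∃ n ∈ ms, Odd n) ∨
    ∃ a b c : ℕ, ms = [a, b, c] ∧ TriCond q a b c)) ∨
  (oriented = true ∧ g = 0 ∧ s = 1 ∧ (3 ≤ ms.length ∨ (ms.length = 2 ∧ ∃ n ∈ ms, Odd n))) ∨
  (oriented = true ∧ g = 0 ∧ s = 2 ∧ 1 ≤ ms.length) ∨
  (oriented = true ∧ g = 0 ∧ 3 ≤ s) ∨
  (oriented = true ∧ g = 1 ∧ s = 0 ∧
    (2 ≤ ms.length ∨ (ms.length = 1 ∧ ∀ n ∈ ms, Nat.Coprime n q))) ∨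
  (oriented = true ∧ g = 1 ∧ 1 ≤ s) ∨
  (oriented = false ∧ g = 1 ∧ s = 0 ∧ (3 ≤ ms.length ∨ (ms.length = 2 ∧ ∃ n ∈ ms, Odd n))) ∨
  (oriented = false ∧ g = 1 ∧ s = 1 ∧ 1 ≤ ms.length) ∨
  (oriented = false ∧ g = 1 ∧ 2 ≤ s) ∨
  (oriented = false ∧ g = 2 ∧ s = 0 ∧ 1 ≤ ms.length) ∨
  (oriented = false ∧ g = 2 ∧ 1 ≤ s)

end Pool.Agent.Helper669_gp
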