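import Mathlib

/-!
Traces in `SL_2(F)`: elementary facts.
-/

namespace Pool.Agent.Helper669_gp

open scoped MatrixGroups
open Finset

section field

variable {F : Type} [Field F]

/-- trace -/
def tr (A : SL(2, F)) : F := A 0 0 + A 1 1

lemma det_eq (A : SL(2, F)) : A 0 0 * A 1 1 - A 0 1 * A 1 0 = 1 := by
  have := A.det_coe
  rwa [Matrix.det_fin_two] at this

lemma sl_ext {A B : SL(2, F)} (h00 : A 0 0 = B 0 0) (h01 : A 0 1 = B 0 1) (h10 : A 1 0 = B 1 0)
    (h11 : A 1 1 = B 1 1) : A = B := by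
  ext i j
  fin_cases i <;> fin_cases j <;> assumption

@[simp] lemma mul00 (A B : SL(2, F)) : (A * B) 0 0 = A 0 0 * B 0 0 + A 0 1 * B 1 0 := by
  simp [Matrix.mul_apply]
@[simp] lemma mul01 (A B : SL(2, F)) : (A * B) 0 1 = A 0 0 * B 0 1 + A 0 1 * B 1 1 := by
  simp [Matrix.mul_apply]
@[simp] lemma mul10 (A B : SL(2, F)) : (A * B) 1 0 = A 1 0 * B 0 0 + A 1 1 * B 1 0 := by
  simp [Matrix.mul_apply]
@[simp] lemma mul11 (A B : SL(2, F)) : (A * B) 1 1 = A 1 0 * B 0 1 + A 1 1 * B 1 1 := by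
  simp [Matrix.mul_apply]
@[simp] lemma inv00 (A : SL(2, F)) : (A⁻¹) 0 0 = A 1 1 := by
  rw [Matrix.SpecialLinearGroup.SL2_inv_expl]; simp
@[simp] lemma inv01 (A : SL(2, F)) : (A⁻¹) 0 1 = - A 0 1 := by
  rw [Matrix.SpecialLinearGroup.SL2_inv_expl]; simp
@[simp] lemma inv10 (A : SL(2, F)) : (A⁻¹) 1 0 = - A 1 0 := by
  rw [Matrix.SpecialLinearGroup.SL2_inv_expl]; simp
@[simp] lemma inv11 (A : SL(2, F)) : (A⁻¹) 1 1 = A 0 0 := by
  rw [Matrix.SpecialLinearGroup.SL2_inv_expl]; simp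
@[simp] lemma one00 : (1 : SL(2, F)) 0 0 = 1 := by simp
@[simp] lemma one01 : (1 : SL(2, F)) 0 1 = 0 := by simp
@[simp] lemma one10 : (1 : SL(2, F)) 1 0 = 0 := by simp
@[simp] lemma one11 : (1 : SL(2, F)) 1 1 = 1 := by simp
@[simp] lemma neg00 (A : SL(2, F)) : (-A) 0 0 = - A 0 0 := by simp
@[simp] lemma neg01 (A : SL(2, F)) : (-A) 0 1 = - A 0 1 := by simp
@[simp] lemma neg10 (A : SL(2, F)) : (-A) 1 0 = - A 1 0 := by simp
@[simp] lemma neg11 (A : SL(2, F)) : (-A) 1 1 = - A 1 1 := by simp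

lemma tr_one : tr (1 : SL(2, F)) = 2 := by simp [tr]; norm_num
lemma tr_neg (A : SL(2, F)) : tr (-A) = - tr A := by simp [tr]; ring
lemma tr_inv (A : SL(2, F)) : tr A⁻¹ = tr A := by simp [tr]; ring
lemma tr_mul_comm (A B : SL(2, F)) : tr (A * B) = tr (B * A) := by simp [tr]; ring
lemma tr_conj (A B : SL(2, F)) : tr (B * A * B⁻¹) = tr A := by
  rw [tr_mul_comm, ← mul_assoc, inv_mul_cancel, one_mul]
lemma tr_inv_mul (A B : SL(2, F)) : tr (A⁻¹ * B) = tr A * tr B - tr (A * B) := by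
  simp [tr]; ring

/-- The form `S`. -/
def S3 (a b c : F) : F := a ^ 2 + b ^ 2 + c ^ 2 - a * b * c - 4

lemma fricke (A B : SL(2, F)) :
    tr (A * B * A⁻¹ * B⁻¹) - 2 = S3 (tr A) (tr B) (tr (A * B)) := by
  have hA := det_eq A
  have hB := det_eq B
  simp only [tr, S3, mul00, mul01, mul10, mul11, inv00, inv01, inv10, inv11]
  linear_combination ((B 0 0 + B 1 1) ^ 2 - 2 * (B 0 0 * B 1 1 - B 0 1 * B 1 0)) * hA +
    ((A 0 0 + A 1 1) ^ 2 - 2) * hB

/-- central elements -/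
def Cen (A : SL(2, F)) : Prop := A = 1 ∨ A = -1

lemma cen_iff (A : SL(2, F)) : Cen A ↔ A 0 1 = 0 ∧ A 1 0 = 0 ∧ A 0 0 = A 1 1 := by
  constructor
  · rintro (rfl | rfl) <;> simp
  · rintro ⟨h1, h2, h3⟩
    have h := det_eq A
    rw [h1, h2, h3] at h
    have h' : (A 1 1 - 1) * (A 1 1 + 1) = 0 := by linear_combination h
    rcases mul_eq_zero.mp h' with h' | h'
    · left
      have : A 1 1 = 1 := by linear_combination h'
      exact sl_ext (by rw [h3, this]; simp) (by rw [h1]; simp) (by rw [h2]; simp)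
        (by rw [this]; simp)
    · right
      have : A 1 1 = -1 := by linear_combination h'
      exact sl_ext (by rw [h3, this]; simp) (by rw [h1]; simp) (by rw [h2]; simp)
        (by rw [this]; simp)

lemma mem_center_iff' (A : SL(2, F)) : A ∈ Subgroup.center SL(2, F) ↔ Cen A := by
  rw [Matrix.SpecialLinearGroup.mem_center_iff]
  constructor
  · rintro ⟨r, -, hr⟩
    rw [cen_iff]
    have h01 := congrFun (congrFun hr 0) 1
    have h10 := congrFun (congrFun hr 1) 0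
    have h00 := congrFun (congrFun hr 0) 0
    have h11 := congrFun (congrFun hr 1) 1
    simp at h01 h10 h00 h11
    exact ⟨h01.symm, h10.symm, by rw [← h00, ← h11]⟩
  · rintro (rfl | rfl)
    · exact ⟨1, by simp, by simp⟩
    · exact ⟨-1, by simp, by ext i j; fin_cases i <;> fin_cases j <;> simp⟩

/-- conjugation by an element of `GL_2` -/
def cj (P : GL (Fin 2) F) : SL(2, F) ≃* SL(2, F) where
  toFun A := ⟨(P⁻¹ : GL (Fin 2) F).1 * A.1 * P.1, by
    have h : (P⁻¹ : GL (Fin 2) F).1.det * P.1.det = 1 := by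
      rw [← Matrix.det_mul, ← Units.val_mul]; simp
    rw [Matrix.det_mul, Matrix.det_mul, A.det_coe, mul_one, h]⟩
  invFun A := ⟨P.1 * A.1 * (P⁻¹ : GL (Fin 2) F).1, by
    have h : P.1.det * (P⁻¹ : GL (Fin 2) F).1.det = 1 := by
      rw [← Matrix.det_mul, ← Units.val_mul]; simp
    rw [Matrix.det_mul, Matrix.det_mul, A.det_coe, mul_one, h]⟩
  left_inv A := by
    apply Subtype.ext
    show P.1 * ((P⁻¹ : GL (Fin 2) F).1 * A.1 * P.1) * (P⁻¹ : GL (Fin 2) F).1 = A.1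
    have h : P.1 * (P⁻¹ : GL (Fin 2) F).1 = 1 := by rw [← Units.val_mul]; simp
    calc _ = (P.1 * (P⁻¹ : GL (Fin 2) F).1) * A.1 * (P.1 * (P⁻¹ : GL (Fin 2) F).1) := by
          simp only [mul_assoc]
      _ = A.1 := by rw [h]; simp
  right_inv A := by
    apply Subtype.ext
    show (P⁻¹ : GL (Fin 2) F).1 * (P.1 * A.1 * (P⁻¹ : GL (Fin 2) F).1) * P.1 = A.1
    have h : (P⁻¹ : GL (Fin 2) F).1 * P.1 = 1 := by rw [← Units.val_mul]; simp
    calc _ = ((P⁻¹ : GL (Fin 2) F).1 * P.1) * A.1 * ((P⁻¹ : GL (Fin 2) F).1 * P.1) := by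
          simp only [mul_assoc]
      _ = A.1 := by rw [h]; simp
  map_mul' A B := by
    apply Subtype.ext
    show (P⁻¹ : GL (Fin 2) F).1 * (A.1 * B.1) * P.1 =
      ((P⁻¹ : GL (Fin 2) F).1 * A.1 * P.1) * ((P⁻¹ : GL (Fin 2) F).1 * B.1 * P.1)
    have h : P.1 * (P⁻¹ : GL (Fin 2) F).1 = 1 := by rw [← Units.val_mul]; simp
    calc _ = (P⁻¹ : GL (Fin 2) F).1 * A.1 * 1 * B.1 * P.1 := by simp [mul_assoc]
      _ = _ := by rw [← h]; simp only [mul_assoc]

lemma cj_coe (P : GL (Fin 2) F) (A : SL(2, F)) :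
    (cj P A).1 = (P⁻¹ : GL (Fin 2) F).1 * A.1 * P.1 := rfl

lemma tr_eq_trace (A : SL(2, F)) : tr A = A.1.trace := by
  rw [Matrix.trace_fin_two]; rfl

lemma tr_cj (P : GL (Fin 2) F) (A : SL(2, F)) : tr (cj P A) = tr A := by
  rw [tr_eq_trace, tr_eq_trace, cj_coe, Matrix.trace_mul_comm, ← mul_assoc]
  have h : P.1 * (P⁻¹ : GL (Fin 2) F).1 = 1 := by rw [← Units.val_mul]; simp
  rw [h, one_mul]

lemma cj_neg (P : GL (Fin 2) F) (A : SL(2, F)) : cj P (-A) = - cj P A := by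
  apply Subtype.ext
  show (P⁻¹ : GL (Fin 2) F).1 * (-A.1) * P.1 = -((P⁻¹ : GL (Fin 2) F).1 * A.1 * P.1)
  simp

lemma cen_cj (P : GL (Fin 2) F) (A : SL(2, F)) : Cen (cj P A) ↔ Cen A := by
  unfold Cen
  constructor
  · rintro (h | h)
    · left; exact (cj P).injective (by rw [h, map_one])
    · right; exact (cj P).injective (by rw [h, cj_neg, map_one])
  · rintro (rfl | rfl)
    · left; simp
    · right; rw [cj_neg]; simp

/-- companion matrix -/
def comp (t : F) : SL(2, F) := ⟨!![0, -1; 1, t], by simp [Matrix.det_fin_two]⟩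

@[simp] lemma comp00 (t : F) : comp t 0 0 = 0 := rfl
@[simp] lemma comp01 (t : F) : comp t 0 1 = -1 := rfl
@[simp] lemma comp10 (t : F) : comp t 1 0 = 1 := rfl
@[simp] lemma comp11 (t : F) : comp t 1 1 = t := rfl
lemma tr_comp (t : F) : tr (comp t) = t := by simp [tr]
lemma comp_not_cen (t : F) : ¬ Cen (comp t) := by
  rw [cen_iff]; simp

/-- A non-central element is conjugate to a companion matrix. -/
lemma exists_cj (A : SL(2, F)) (hA : ¬ Cen A) : ∃ P : GL (Fin 2) F, cj P A = comp (tr A) := by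
  -- a vector `(p, r)` which is not an eigenvector
  have hv : ∃ p r : F, p * (A 1 0 * p + A 1 1 * r) - r * (A 0 0 * p + A 0 1 * r) ≠ 0 := by
    by_contra h
    push Not at h
    apply hA
    rw [cen_iff]
    have h1 := h 1 0
    have h2 := h 0 1
    have h3 := h 1 1
    refine ⟨by linear_combination -h2, by linear_combination h1, by
      linear_combination h1 + h2 - h3⟩
  obtain ⟨p, r, hpr⟩ := hv
  set δ := p * (A 1 0 * p + A 1 1 * r) - r * (A 0 0 * p + A 0 1 * r) with hδ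
  let M : Matrix (Fin 2) (Fin 2) F :=
    !![p, A 0 0 * p + A 0 1 * r; r, A 1 0 * p + A 1 1 * r]
  have hM : M.det ≠ 0 := by
    rw [Matrix.det_fin_two]
    simp only [M, Matrix.of_apply, Matrix.cons_val', Matrix.cons_val_zero, Matrix.cons_val_one,
      Matrix.cons_val_fin_one]
    intro h
    apply hpr
    rw [hδ]
    linear_combination h
  let P : GL (Fin 2) F := Matrix.GeneralLinearGroup.mkOfDetNeZero M hM
  refine ⟨P, ?_⟩
  apply Subtype.ext
  rw [cj_coe]
  have key : A.1 * P.1 = P.1 * (comp (tr A)).1 := by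
    have hd := det_eq A
    ext i j
    fin_cases i <;> fin_cases j <;>
      simp [P, M, comp, tr, Matrix.mul_apply, Matrix.GeneralLinearGroup.mkOfDetNeZero]
    · linear_combination (-p) * hd
    · linear_combination (-r) * hd
  have h : (P⁻¹ : GL (Fin 2) F).1 * P.1 = 1 := by rw [← Units.val_mul]; simp
  rw [mul_assoc, key, ← mul_assoc, h, one_mul]

end field

end Pool.Agent.Helper669_gp
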