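import Mathlib
import Pool.Agent.Helper669_gp.Tr

/-!
Counting elements and pairs with given traces in `SL_2(F)`, `F` finite: upper bounds.
-/

namespace Pool.Agent.Helper669_gp

open scoped MatrixGroups
open Finset

variable {F : Type} [Field F] [Fintype F] [DecidableEq F]

instance (A : SL(2, F)) : Decidable (Cen A) := inferInstanceAs (Decidable (_ ∨ _))

set_option linter.unusedSectionVars false
set_option linter.unusedSimpArgs false

lemma quad_card (b c : F) : (univ.filter fun y : F => y ^ 2 + b * y + c = 0).card ≤ 2 := by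
  by_contra h
  push Not at h
  obtain ⟨x, hx, y, hy, z, hz, hxy, hxz, hyz⟩ := Finset.two_lt_card.mp h
  simp only [mem_filter, mem_univ, true_and] at hx hy hz
  have h1 : (x - y) * (x + y + b) = 0 := by linear_combination hx - hy
  have h2 : (x - z) * (x + z + b) = 0 := by linear_combination hx - hz
  have h1' := (mul_eq_zero.mp h1).resolve_left (sub_ne_zero.mpr hxy)
  have h2' := (mul_eq_zero.mp h2).resolve_left (sub_ne_zero.mpr hxz)
  exact hyz (by linear_combination h1' - h2')

/-- bound of a finset by fibres over the values of a function to `F` -/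
lemma card_le_fib {α : Type} [DecidableEq α] (S : Finset α) (f : α → F) (n : ℕ)
    (h : ∀ w : F, (S.filter fun a => f a = w).card ≤ n) : S.card ≤ n * Fintype.card F := by
  rw [Finset.card_eq_sum_card_fiberwise (f := f) (t := univ) (fun _ _ => mem_univ _)]
  calc ∑ b : F, (S.filter fun a => f a = b).card ≤ ∑ _b : F, n := Finset.sum_le_sum fun b _ => h b
    _ = n * Fintype.card F := by rw [Finset.sum_const, smul_eq_mul, mul_comm, card_univ]

/-- (1.3) for companion matrices. -/
lemma card_two_comp (t₀ t u : F) :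
    (univ.filter fun B : SL(2, F) => tr B = t ∧ tr (comp t₀ * B) = u).card ≤
      2 * Fintype.card F := by
  apply card_le_fib _ (fun B : SL(2, F) => B 1 1)
  intro w
  refine le_trans ?_ (quad_card (t₀ * w - u) (1 - (t - w) * w))
  apply Finset.card_le_card_of_injOn (fun B : SL(2, F) => B 0 1)
  · intro B hB
    simp only [coe_filter, Set.mem_ofPred_eq, mem_filter, mem_univ, true_and] at hB ⊢
    obtain ⟨⟨h1, h2⟩, h3⟩ := hB
    have hd := det_eq B
    simp only [tr, mul00, mul11, comp00, comp01, comp10, comp11] at h1 h2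
    have h00 : B 0 0 = t - w := by rw [← h1, ← h3]; ring
    have h10 : B 1 0 = B 0 1 + t₀ * w - u := by rw [← h2, ← h3]; ring
    rw [h00, h10, h3] at hd
    linear_combination -hd
  · intro B hB B' hB' h
    simp only [coe_filter, Set.mem_ofPred_eq, mem_filter, mem_univ, true_and] at hB hB' h
    obtain ⟨⟨h1, h2⟩, h3⟩ := hB
    obtain ⟨⟨h1', h2'⟩, h3'⟩ := hB'
    simp only [tr, mul00, mul11, comp00, comp01, comp10, comp11] at h1 h2 h1' h2'
    have e11 : B 1 1 = B' 1 1 := by rw [h3, h3']
    have e00 : B 0 0 = B' 0 0 := by linear_combination h1 - h1' - e11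
    refine sl_ext e00 h ?_ e11
    linear_combination h2' - h2 + h + t₀ * e11

/-- (1.3) -/
lemma card_two (A : SL(2, F)) (hA : ¬ Cen A) (t u : F) :
    (univ.filter fun B : SL(2, F) => tr B = t ∧ tr (A * B) = u).card ≤ 2 * Fintype.card F := by
  obtain ⟨P, hP⟩ := exists_cj A hA
  refine le_trans ?_ (card_two_comp (tr A) t u)
  apply Finset.card_le_card_of_injOn (fun B => cj P B)
  · intro B hB
    simp only [coe_filter, Set.mem_ofPred_eq, mem_univ, true_and] at hB ⊢
    rw [← hP, ← map_mul, tr_cj, tr_cj]
    exact hB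
  · intro B _ B' _ h
    exact (cj P).injective h

/-- (1.2), upper bound -/
lemma card_tr_le (t : F) :
    (univ.filter fun B : SL(2, F) => tr B = t).card ≤ 2 * Fintype.card F * Fintype.card F := by
  apply card_le_fib _ (fun B : SL(2, F) => tr (comp 0 * B))
  intro w
  rw [Finset.filter_filter]
  exact card_two_comp 0 t w

/-- (1.2), lower bound -/
lemma card_tr_ge (t : F) :
    Fintype.card F * (Fintype.card F - 1) ≤
      (univ.filter fun B : SL(2, F) => tr B = t ∧ ¬ Cen B).card := by
  classical
  have : Fintype.card F * (Fintype.card F - 1) =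
      ((univ : Finset F) ×ˢ (univ.filter fun b : F => b ≠ 0)).card := by
    rw [card_product, card_univ, Finset.filter_ne' univ (0 : F), Finset.card_erase_of_mem (mem_univ _),
      card_univ]
  rw [this]
  let f : F × F → SL(2, F) := fun p =>
    if h : p.2 ≠ 0 then ⟨!![p.1, p.2; (p.1 * (t - p.1) - 1) / p.2, t - p.1], by
      rw [Matrix.det_fin_two_of]; field_simp; ring⟩ else (1 : SL(2, F))
  have hf00 : ∀ p : F × F, p.2 ≠ 0 → f p 0 0 = p.1 := fun p h => by
    have e : f p = ⟨!![p.1, p.2; (p.1 * (t - p.1) - 1) / p.2, t - p.1], by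
      rw [Matrix.det_fin_two_of]; field_simp; ring⟩ := dif_pos h
    rw [e]; rfl
  have hf01 : ∀ p : F × F, p.2 ≠ 0 → f p 0 1 = p.2 := fun p h => by
    have e : f p = ⟨!![p.1, p.2; (p.1 * (t - p.1) - 1) / p.2, t - p.1], by
      rw [Matrix.det_fin_two_of]; field_simp; ring⟩ := dif_pos h
    rw [e]; rfl
  have hf11 : ∀ p : F × F, p.2 ≠ 0 → f p 1 1 = t - p.1 := fun p h => by
    have e : f p = ⟨!![p.1, p.2; (p.1 * (t - p.1) - 1) / p.2, t - p.1], by
      rw [Matrix.det_fin_two_of]; field_simp; ring⟩ := dif_pos h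
    rw [e]; rfl
  apply Finset.card_le_card_of_injOn f
  · intro p hp
    simp only [coe_product, Set.mem_prod, coe_univ, Set.mem_univ, coe_filter, mem_univ, true_and,
      Set.mem_ofPred_eq] at hp ⊢
    constructor
    · rw [tr, hf00 p hp, hf11 p hp]; ring
    · rw [cen_iff, hf01 p hp]
      simp [hp]
  · intro p hp p' hp' h
    simp only [coe_product, Set.mem_prod, coe_univ, Set.mem_univ, coe_filter, mem_univ, true_and,
      Set.mem_ofPred_eq] at hp hp'
    have h0 := congrArg (fun A : SL(2, F) => A 0 0) h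
    have h1 := congrArg (fun A : SL(2, F) => A 0 1) h
    simp only [hf00 p hp, hf00 p' hp', hf01 p hp, hf01 p' hp'] at h0 h1
    exact Prod.ext h0 h1

/-- Bound on the order of `SL_2(F)`. -/
lemma card_sl_le : Fintype.card SL(2, F) ≤ 2 * Fintype.card F ^ 3 := by
  have h := card_le_fib (univ : Finset SL(2, F)) tr (2 * Fintype.card F * Fintype.card F)
    (fun w => card_tr_le w)
  rw [card_univ] at h
  calc _ ≤ _ := h
    _ = _ := by ring

/-- (1.5) upper bound: conjugators -/
lemma card_conj_le (A A' : SL(2, F)) (hA : ¬ Cen A) :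
    (univ.filter fun B : SL(2, F) => B * A * B⁻¹ = A').card ≤ 2 * Fintype.card F := by
  classical
  -- centraliser of the companion matrix
  have hc : (univ.filter fun B : SL(2, F) => B * comp (tr A) * B⁻¹ = comp (tr A)).card ≤
      2 * Fintype.card F := by
    apply card_le_fib _ (fun B : SL(2, F) => B 1 0)
    intro w
    refine le_trans ?_ (quad_card (tr A * w) (w ^ 2 - 1))
    apply Finset.card_le_card_of_injOn (fun B : SL(2, F) => B 0 0)
    · intro B hB
      simp only [coe_filter, Set.mem_ofPred_eq, mem_filter, mem_univ, true_and] at hB ⊢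
      obtain ⟨h1, h3⟩ := hB
      rw [mul_inv_eq_iff_eq_mul] at h1
      have hd := det_eq B
      have e00 := congrArg (fun A : SL(2, F) => A 0 0) h1
      have e10 := congrArg (fun A : SL(2, F) => A 1 0) h1
      simp only [mul00, mul10, mul01, mul11, comp00, comp01, comp10, comp11] at e00 e10
      -- B01 = -B10, B11 = B00 + t B10
      have h01 : B 0 1 = - w := by rw [← h3]; linear_combination e00
      have h11 : B 1 1 = B 0 0 + tr A * w := by rw [← h3]; linear_combination e10
      rw [h01, h11, h3] at hd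
      linear_combination hd
    · intro B hB B' hB' h
      simp only [coe_filter, Set.mem_ofPred_eq, mem_filter, mem_univ, true_and] at hB hB' h
      obtain ⟨h1, h3⟩ := hB
      obtain ⟨h1', h3'⟩ := hB'
      rw [mul_inv_eq_iff_eq_mul] at h1 h1'
      have e00 := congrArg (fun A : SL(2, F) => A 0 0) h1
      have e10 := congrArg (fun A : SL(2, F) => A 1 0) h1
      have e00' := congrArg (fun A : SL(2, F) => A 0 0) h1'
      have e10' := congrArg (fun A : SL(2, F) => A 1 0) h1'
      simp only [mul00, mul10, mul01, mul11, comp00, comp01, comp10, comp11] at e00 e10 e00' e10'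
      have e : B 1 0 = B' 1 0 := by rw [h3, h3']
      refine sl_ext h ?_ e ?_
      · linear_combination e00 - e00' - e
      · linear_combination e10 - e10' + h + tr A * e
  -- centraliser of `A`
  obtain ⟨P, hP⟩ := exists_cj A hA
  have hcA : (univ.filter fun B : SL(2, F) => B * A * B⁻¹ = A).card ≤ 2 * Fintype.card F := by
    refine le_trans ?_ hc
    apply Finset.card_le_card_of_injOn (fun B => cj P B)
    · intro B hB
      simp only [coe_filter, Set.mem_ofPred_eq, mem_univ, true_and] at hB ⊢
      rw [← hP, ← map_inv, ← map_mul, ← map_mul, hB]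
    · intro B _ B' _ h
      exact (cj P).injective h
  -- a coset
  by_cases hne : (univ.filter fun B : SL(2, F) => B * A * B⁻¹ = A').Nonempty
  · obtain ⟨B₀, hB₀⟩ := hne
    simp only [mem_filter, mem_univ, true_and] at hB₀
    refine le_trans ?_ hcA
    apply Finset.card_le_card_of_injOn (fun B => B₀⁻¹ * B)
    · intro B hB
      simp only [coe_filter, Set.mem_ofPred_eq, mem_univ, true_and] at hB ⊢
      calc B₀⁻¹ * B * A * (B₀⁻¹ * B)⁻¹ = B₀⁻¹ * (B * A * B⁻¹) * B₀ := by group
        _ = B₀⁻¹ * (B₀ * A * B₀⁻¹) * B₀ := by rw [hB, hB₀]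
        _ = A := by group
    · intro B _ B' _ h
      exact mul_left_cancel h
  · rw [Finset.not_nonempty_iff_eq_empty.mp hne]; simp

/-- (1.6) -/
lemma card_sqrt_le (Y : SL(2, F)) (hY : ¬ Cen Y) :
    (univ.filter fun B : SL(2, F) => B ^ 2 = Y).card ≤ 2 := by
  refine le_trans ?_ (quad_card 0 (-(tr Y + 2)))
  have key : ∀ B : SL(2, F), B ^ 2 = Y → Y 0 0 = tr B * B 0 0 - 1 ∧ Y 0 1 = tr B * B 0 1 ∧
      Y 1 0 = tr B * B 1 0 ∧ Y 1 1 = tr B * B 1 1 - 1 := by
    intro B hB
    rw [pow_two] at hB
    have hd := det_eq B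
    rw [← hB]
    simp only [mul00, mul01, mul10, mul11, tr]
    refine ⟨?_, ?_, ?_, ?_⟩
    · linear_combination -hd
    · ring
    · ring
    · linear_combination -hd
  apply Finset.card_le_card_of_injOn (fun B : SL(2, F) => tr B)
  · intro B hB
    simp only [coe_filter, Set.mem_ofPred_eq, mem_univ, true_and] at hB ⊢
    obtain ⟨h1, h2, h3, h4⟩ := key B hB
    have : tr Y = tr B * (B 0 0 + B 1 1) - 2 := by rw [tr, h1, h4]; ring
    rw [this]
    simp only [tr]
    ring
  · intro B hB B' hB' h
    simp only [coe_filter, Set.mem_ofPred_eq, mem_univ, true_and] at hB hB' h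
    obtain ⟨h1, h2, h3, h4⟩ := key B hB
    obtain ⟨h1', h2', h3', h4'⟩ := key B' hB'
    have ht : tr B ≠ 0 := by
      intro h0
      apply hY
      rw [cen_iff, h1, h2, h3, h4, h0]
      simp
    rw [← h] at h1' h2' h3' h4'
    refine sl_ext ?_ ?_ ?_ ?_
    · exact mul_left_cancel₀ ht (by linear_combination h1' - h1)
    · exact mul_left_cancel₀ ht (by linear_combination h2' - h2)
    · exact mul_left_cancel₀ ht (by linear_combination h3' - h3)
    · exact mul_left_cancel₀ ht (by linear_combination h4' - h4)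

end Pool.Agent.Helper669_gp
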