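import Mathlib
import Pool.Agent.Helper669_gp.Base

/-!
Fuchsian groups by their standard presentations, the probability `P_Γ(G)`, good pairs, and the
arithmetic condition of the classification for the groups `PSL_2(q)`.
-/

namespace Pool.Agent.Helper669_gp

/-- Generators of an oriented Fuchsian group of genus `g` with `d` periods and `s` parabolic
generators: `a_k, b_k` (`k < g`), `x_i` (`i < d`), `y_j` (`j < s`). -/
inductive OGen (g d s : ℕ) : Type
  | a (k : Fin g) : OGen g d s
  | b (k : Fin g) : OGen g d s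
  | x (i : Fin d) : OGen g d s
  | y (j : Fin s) : OGen g d s

/-- Generators of a non-oriented Fuchsian group of genus `g`: `a_k` (`k < g`), `x_i`, `y_j`. -/
inductive NGen (g d s : ℕ) : Type
  | a (k : Fin g) : NGen g d s
  | x (i : Fin d) : NGen g d s
  | y (j : Fin s) : NGen g d s

open FreeGroup in
/-- The relators in the oriented case: `x_i ^ m_i` for all `i`, and
`x_1 ⋯ x_d y_1 ⋯ y_s [a_1, b_1] ⋯ [a_g, b_g]`. -/
def oRels (g : ℕ) {d : ℕ} (m : Fin d → ℕ) (s : ℕ) : Set (FreeGroup (OGen g d s)) :=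
  Set.range (fun i : Fin d => of (OGen.x i) ^ m i) ∪
    {(List.ofFn fun i : Fin d => of (OGen.x (g := g) (s := s) i)).prod *
      (List.ofFn fun j : Fin s => of (OGen.y (g := g) (d := d) j)).prod *
      (List.ofFn fun k : Fin g => of (OGen.a (d := d) (s := s) k) * of (OGen.b k) *
        (of (OGen.a k))⁻¹ * (of (OGen.b k))⁻¹).prod}

open FreeGroup in
/-- The relators in the non-oriented case: `x_i ^ m_i` for all `i`, and
`x_1 ⋯ x_d y_1 ⋯ y_s a_1 ^ 2 ⋯ a_g ^ 2`. -/
def nRels (g : ℕ) {d : ℕ} (m : Fin d → ℕ) (s : ℕ) : Set (FreeGroup (NGen g d s)) :=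
  Set.range (fun i : Fin d => of (NGen.x i) ^ m i) ∪
    {(List.ofFn fun i : Fin d => of (NGen.x (g := g) (s := s) i)).prod *
      (List.ofFn fun j : Fin s => of (NGen.y (g := g) (d := d) j)).prod *
      (List.ofFn fun k : Fin g => of (NGen.a (d := d) (s := s) k) ^ 2).prod}

/-- Oriented or non-oriented. -/
inductive Kind : Type
  | oriented : Kind
  | nonoriented : Kind

/-- The data of a Fuchsian group: its kind, genus, periods `m_1, …, m_d` and the number `s` of
parabolic generators. -/
structure Signature : Type where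
  kind : Kind
  genus : ℕ
  d : ℕ
  m : Fin d → ℕ
  s : ℕ

/-- The group given by the standard presentation. -/
def Signature.Grp (σ : Signature) : Type :=
  match σ.kind with
  | Kind.oriented => PresentedGroup (oRels σ.genus σ.m σ.s)
  | Kind.nonoriented => PresentedGroup (nRels σ.genus σ.m σ.s)

noncomputable instance (σ : Signature) : Group σ.Grp :=
  match σ with
  | ⟨Kind.oriented, g, _, m, s⟩ => inferInstanceAs (Group (PresentedGroup (oRels g m s)))
  | ⟨Kind.nonoriented, g, _, m, s⟩ => inferInstanceAs (Group (PresentedGroup (nRels g m s)))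

/-- The periods of `σ` which are not coprime to `n`, in their order. -/
def Signature.eff (σ : Signature) (n : ℕ) : List ℕ :=
  (List.ofFn σ.m).filter (fun k => ¬ Nat.Coprime k n)

/-- The condition of the classification, for the group `PSL_2(q)`; here `ms` is the list of the
periods which are not coprime to the order of `PSL_2(q)`. -/
def Cond (kind : Kind) (genus s q : ℕ) (ms : List ℕ) : Prop :=
  match kind, genus, s with
  | Kind.oriented, 0, 0 => 5 ≤ ms.length ∨ (ms.length = 4 ∧ ∃ n ∈ ms, Odd n) ∨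
      ∃ a b c : ℕ, ms = [a, b, c] ∧ TriCond q a b c
  | Kind.oriented, 0, 1 => 3 ≤ ms.length ∨ (ms.length = 2 ∧ ∃ n ∈ ms, Odd n)
  | Kind.oriented, 0, 2 => 1 ≤ ms.length
  | Kind.oriented, 0, _ => True
  | Kind.oriented, 1, 0 => 2 ≤ ms.length ∨ (ms.length = 1 ∧ ∀ n ∈ ms, Nat.Coprime n q)
  | Kind.oriented, 1, _ => True
  | Kind.nonoriented, 1, 0 => 3 ≤ ms.length ∨ (ms.length = 2 ∧ ∃ n ∈ ms, Odd n)
  | Kind.nonoriented, 1, 1 => 1 ≤ ms.length
  | Kind.nonoriented, 1, _ => True
  | Kind.nonoriented, 2, 0 => 1 ≤ ms.length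
  | Kind.nonoriented, 2, _ => True
  | _, _, _ => True

end Pool.Agent.Helper669_gp
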