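import Mathlib
import Pool.Agent.Helper669_gp.Cnt

/-!
Existence of elements of `SL_2(F)` with given traces, and lower bounds for their number.
-/

namespace Pool.Agent.Helper669_gp

open scoped MatrixGroups
open Finset

variable {F : Type} [Field F] [Fintype F] [DecidableEq F]

set_option linter.unusedSectionVars false
set_option linter.unusedSimpArgs false

lemma exists_sq_char_two (h2 : (2 : F) = 0) (c : F) : ∃ x : F, x ^ 2 = c := by
  have hinj : Function.Injective (fun x : F => x ^ 2) := by
    intro x y hxy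
    have h : (x - y) ^ 2 = 0 := by
      have hxy' : x ^ 2 = y ^ 2 := hxy
      linear_combination hxy' + (y ^ 2 - x * y) * h2
    exact sub_eq_zero.mp (pow_eq_zero_iff (two_ne_zero)|>.mp h)
  exact (Finite.surjective_of_injective hinj) c

lemma odd_card_of_two_ne (h2 : (2 : F) ≠ 0) : Fintype.card F % 2 = 1 := by
  apply FiniteField.odd_card_of_char_ne_two
  intro h
  apply h2
  have : ((ringChar F : ℕ) : F) = 0 := ringChar.Nat.cast_ringChar
  rw [h] at this
  exact_mod_cast this

lemma exists_quad_point (a b u : F) (h : S3 a b u ≠ 0) :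
    ∃ x y : F, x ^ 2 - u * x * y + y ^ 2 - a * x + b * y + 1 = 0 := by
  by_cases h2 : (2 : F) = 0
  · by_cases hu : u = 0
    · subst hu
      have hab : a - b ≠ 0 := by
        intro hab
        apply h
        have : a = b := sub_eq_zero.mp hab
        rw [S3, this]
        linear_combination (b ^ 2 - 2) * h2
      refine ⟨(a - b)⁻¹, (a - b)⁻¹, ?_⟩
      field_simp
      linear_combination h2
    · obtain ⟨x, hx⟩ := exists_sq_char_two h2 (-((a / u) ^ 2 + b * (a / u) + 1))
      refine ⟨x, a / u, ?_⟩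
      rw [hx]
      field_simp
      linear_combination (-(x * a * u ^ 2)) * h2
  · by_cases hD : u ^ 2 - 4 = 0
    · have hne : 2 * u * a - 4 * b ≠ 0 := by
        intro h0
        apply h
        have h0' : u * a = 2 * b := by
          have : (2 : F) * (u * a - 2 * b) = 0 := by linear_combination h0
          exact sub_eq_zero.mp ((mul_eq_zero.mp this).resolve_left h2)
        have h4 : (4 : F) * S3 a b u = 0 := by
          rw [S3]
          linear_combination (-(2 * b + u * a) + 2 * a * u) * h0' + (4 - a ^ 2) * hD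
        have h4' : (4 : F) ≠ 0 := by
          have : (4 : F) = 2 * 2 := by norm_num
          rw [this]; exact mul_ne_zero h2 h2
        exact (mul_eq_zero.mp h4).resolve_left h4'
      set y := -(a ^ 2 - 4) / (2 * u * a - 4 * b) with hy
      have hy' : (2 * u * a - 4 * b) * y = -(a ^ 2 - 4) := by
        rw [hy]; field_simp
      refine ⟨(u * y + a) / 2, y, ?_⟩
      field_simp
      linear_combination (-1) * hy' - y ^ 2 * hD
    · set κ := (u * a - 2 * b) ^ 2 - (u ^ 2 - 4) * (a ^ 2 - 4) with hκ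
      obtain ⟨X, Y, hXY⟩ := FiniteField.exists_root_sum_quadratic
        (f := Polynomial.C (u ^ 2 - 4) * Polynomial.X ^ 2) (g := Polynomial.C (-1 : F) * Polynomial.X ^ 2
          + Polynomial.C κ) (Polynomial.degree_C_mul_X_pow 2 hD) (by
            rw [Polynomial.degree_add_eq_left_of_degree_lt]
            · exact Polynomial.degree_C_mul_X_pow 2 (by simp)
            · rw [Polynomial.degree_C_mul_X_pow 2 (by simp : (-1 : F) ≠ 0)]
              exact lt_of_le_of_lt Polynomial.degree_C_le (by norm_num)) (odd_card_of_two_ne h2)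
      simp only [Polynomial.eval_mul, Polynomial.eval_C, Polynomial.eval_pow, Polynomial.eval_X,
        Polynomial.eval_add] at hXY
      set y := (Y - (u * a - 2 * b)) / (u ^ 2 - 4) with hy
      have hy' : (u ^ 2 - 4) * y = Y - (u * a - 2 * b) := by
        rw [hy]; field_simp
      refine ⟨(X + u * y + a) / 2, y, ?_⟩
      have h4' : (4 : F) ≠ 0 := by
        have : (4 : F) = 2 * 2 := by norm_num
        rw [this]; exact mul_ne_zero h2 h2
      have h4D : (4 : F) * (u ^ 2 - 4) ≠ 0 := mul_ne_zero h4' hD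
      refine (mul_eq_zero.mp (?_ : (4 : F) * (u ^ 2 - 4) * _ = 0)).resolve_left h4D
      have hYe : Y = (u ^ 2 - 4) * y + (u * a - 2 * b) := by linear_combination -hy'
      rw [hYe, hκ] at hXY
      have h22 : (4 : F) * (((X + u * y + a) / 2) ^ 2 - u * ((X + u * y + a) / 2) * y + y ^ 2 -
          a * ((X + u * y + a) / 2) + b * y + 1) =
          (X + u * y + a) ^ 2 - 2 * u * (X + u * y + a) * y + 4 * y ^ 2 - 2 * a * (X + u * y + a)
            + 4 * b * y + 4 := by
        field_simp
        ring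
      calc (4 : F) * (u ^ 2 - 4) * (((X + u * y + a) / 2) ^ 2 - u * ((X + u * y + a) / 2) * y +
          y ^ 2 - a * ((X + u * y + a) / 2) + b * y + 1)
          = (u ^ 2 - 4) * ((4 : F) * (((X + u * y + a) / 2) ^ 2 - u * ((X + u * y + a) / 2) * y +
            y ^ 2 - a * ((X + u * y + a) / 2) + b * y + 1)) := by ring
        _ = 0 := by rw [h22]; linear_combination hXY

/-- existence -/
lemma exists_pair (z : SL(2, F)) (hz : ¬ Cen z) (a b : F) (h : S3 a b (tr z) ≠ 0) :
    ∃ X : SL(2, F), tr X = a ∧ tr (X⁻¹ * z) = b := by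
  obtain ⟨P, hP⟩ := exists_cj z hz
  obtain ⟨x, y, hxy⟩ := exists_quad_point a b (tr z) h
  let X : SL(2, F) := ⟨!![x, y; b + y - tr z * x, a - x], by
    rw [Matrix.det_fin_two_of]; linear_combination -hxy⟩
  have hX00 : X 0 0 = x := rfl
  have hX01 : X 0 1 = y := rfl
  have hX10 : X 1 0 = b + y - tr z * x := rfl
  have hX11 : X 1 1 = a - x := rfl
  refine ⟨(cj P).symm X, ?_, ?_⟩
  · rw [← tr_cj P, MulEquiv.apply_symm_apply, tr, hX00, hX11]; ring
  · rw [← tr_cj P, map_mul, map_inv, MulEquiv.apply_symm_apply, hP, tr]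
    simp only [mul00, mul11, inv00, inv01, inv10, inv11, comp00, comp01, comp10, comp11, hX00,
      hX01, hX10, hX11]
    ring

lemma S3_ne_of (z X : SL(2, F)) (a b : F) (h : S3 a b (tr z) ≠ 0) (h1 : tr X = a)
    (h2 : tr (X⁻¹ * z) = b) : X * z ≠ z * X := by
  intro hc
  apply h
  have hf := fricke X z
  have h3 : X * z * X⁻¹ * z⁻¹ = 1 := by rw [hc]; group
  rw [h3, tr_one] at hf
  have h4 : tr (X * z) = a * tr z - b := by
    have := tr_inv_mul X z
    rw [h1, h2] at this
    linear_combination this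
  rw [h4, h1] at hf
  rw [S3] at hf ⊢
  linear_combination -hf

lemma not_cen_of (z X : SL(2, F)) (h : X * z ≠ z * X) : ¬ Cen X ∧ ¬ Cen z := by
  constructor
  · rintro (rfl | rfl)
    · simp at h
    · simp at h
  · rintro (rfl | rfl)
    · simp at h
    · simp at h

/-- (1.4) -/
lemma card_pair_ge (z : SL(2, F)) (hz : ¬ Cen z) (a b : F) (h : S3 a b (tr z) ≠ 0) :
    Fintype.card F - 2 ≤ (univ.filter fun X : SL(2, F) => tr X = a ∧ tr (X⁻¹ * z) = b).card := by
  classical
  obtain ⟨X₀, hX₀, hX₀'⟩ := exists_pair z hz a b h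
  have hnc := S3_ne_of z X₀ a b h hX₀ hX₀'
  -- the parameters
  have hcard : Fintype.card F - 2 ≤ (univ.filter fun s : F => s ^ 2 + tr z * s + 1 ≠ 0).card := by
    have h1 := quad_card (tr z) (1 : F)
    have h2 := Finset.card_filter_add_card_filter_not (s := (univ : Finset F))
      (fun s : F => s ^ 2 + tr z * s + 1 = 0)
    rw [card_univ] at h2
    simp only [ne_eq]
    omega
  refine le_trans hcard ?_
  have hdet : ∀ s : F, (s • (1 : Matrix (Fin 2) (Fin 2) F) + z.1).det = s ^ 2 + tr z * s + 1 := by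
    intro s
    have hd := det_eq z
    rw [Matrix.det_fin_two]
    simp only [Matrix.add_apply, Matrix.smul_apply, Matrix.one_apply_eq, smul_eq_mul, mul_one,
      Matrix.one_apply_ne (show (0 : Fin 2) ≠ 1 by decide),
      Matrix.one_apply_ne (show (1 : Fin 2) ≠ 0 by decide), mul_zero, zero_add, tr]
    linear_combination hd
  let Q : F → GL (Fin 2) F := fun s => if hs : s ^ 2 + tr z * s + 1 ≠ 0 then
    Matrix.GeneralLinearGroup.mkOfDetNeZero (s • (1 : Matrix (Fin 2) (Fin 2) F) + z.1)
      (by rw [hdet]; exact hs) else 1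
  have hQ : ∀ s : F, s ^ 2 + tr z * s + 1 ≠ 0 →
      (Q s).1 = s • (1 : Matrix (Fin 2) (Fin 2) F) + z.1 := by
    intro s hs
    have e : Q s = Matrix.GeneralLinearGroup.mkOfDetNeZero
      (s • (1 : Matrix (Fin 2) (Fin 2) F) + z.1) (by rw [hdet]; exact hs) := dif_pos hs
    rw [e]; rfl
  have hinv : ∀ P : GL (Fin 2) F, (P⁻¹ : GL (Fin 2) F).1 * P.1 = 1 := fun P => by
    rw [← Units.val_mul]; simp
  have hinv' : ∀ P : GL (Fin 2) F, P.1 * (P⁻¹ : GL (Fin 2) F).1 = 1 := fun P => by
    rw [← Units.val_mul]; simp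
  apply Finset.card_le_card_of_injOn (fun s => cj (Q s) X₀)
  · intro s hs
    simp only [coe_filter, Set.mem_ofPred_eq, mem_univ, true_and] at hs ⊢
    refine ⟨by rw [tr_cj, hX₀], ?_⟩
    have hz' : cj (Q s) z = z := by
      apply Subtype.ext
      rw [cj_coe]
      have : z.1 * (Q s).1 = (Q s).1 * z.1 := by
        rw [hQ s hs]; simp [mul_add, add_mul]
      rw [mul_assoc, this, ← mul_assoc, hinv, one_mul]
    conv_lhs => rw [← hz']
    rw [← map_inv, ← map_mul, tr_cj, hX₀']
  · intro s hs t ht hst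
    simp only [coe_filter, Set.mem_ofPred_eq, mem_univ, true_and] at hs ht
    have e := congrArg Subtype.val hst
    simp only [cj_coe] at e
    -- multiply
    have hcomm : (Q s).1 * (Q t).1 = (Q t).1 * (Q s).1 := by
      rw [hQ s hs, hQ t ht]
      simp only [mul_add, add_mul, smul_mul_assoc, mul_smul_comm, one_mul, mul_one, smul_smul,
        smul_add]
      rw [mul_comm t s]
      abel
    have e2 : (Q t).1 * X₀.1 * (Q s).1 = (Q s).1 * X₀.1 * (Q t).1 := by
      calc (Q t).1 * X₀.1 * (Q s).1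
          = (Q t).1 * ((Q s).1 * ((Q s)⁻¹ : GL (Fin 2) F).1) * X₀.1 * (Q s).1 := by
            rw [hinv', mul_one]
        _ = ((Q t).1 * (Q s).1) * (((Q s)⁻¹ : GL (Fin 2) F).1 * X₀.1 * (Q s).1) := by
            simp only [mul_assoc]
        _ = ((Q s).1 * (Q t).1) * (((Q t)⁻¹ : GL (Fin 2) F).1 * X₀.1 * (Q t).1) := by
            rw [e, hcomm]
        _ = (Q s).1 * ((Q t).1 * ((Q t)⁻¹ : GL (Fin 2) F).1) * X₀.1 * (Q t).1 := by
            simp only [mul_assoc]
        _ = _ := by rw [hinv', mul_one]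
    rw [hQ s hs, hQ t ht] at e2
    have e3 : (t - s) • (X₀.1 * z.1 - z.1 * X₀.1) = 0 := by
      have : (t • (1 : Matrix (Fin 2) (Fin 2) F) + z.1) * X₀.1 * (s • (1 : Matrix (Fin 2) (Fin 2) F) + z.1)
          - (s • (1 : Matrix (Fin 2) (Fin 2) F) + z.1) * X₀.1 * (t • (1 : Matrix (Fin 2) (Fin 2) F) + z.1)
          = (t - s) • (X₀.1 * z.1 - z.1 * X₀.1) := by
        simp only [mul_add, add_mul, smul_mul_assoc, mul_smul_comm, one_mul, mul_one, smul_add,
          smul_sub, sub_smul, smul_smul]
        rw [mul_comm t s]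
        abel
      rw [← this, e2, sub_self]
    rcases smul_eq_zero.mp e3 with h0 | h0
    · exact (sub_eq_zero.mp h0).symm
    · exfalso
      apply hnc
      apply Subtype.ext
      exact sub_eq_zero.mp h0

end Pool.Agent.Helper669_gp
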