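import Mathlib
import Pool.Agent.Helper669_gp.Low

/-!
Conjugating elements in `SL_2(F)` (lower bounds), order of `SL_2(F)`.
-/

namespace Pool.Agent.Helper669_gp

open scoped MatrixGroups
open Finset

variable {F : Type} [Field F] [Fintype F] [DecidableEq F]

set_option linter.unusedSectionVars false
set_option linter.unusedSimpArgs false

/-- norm form represents everything -/
lemma exists_norm (t δ : F) (ht : t ^ 2 ≠ 4) : ∃ x y : F, x ^ 2 + t * x * y + y ^ 2 = δ := by
  by_cases h2 : (2 : F) = 0
  · obtain ⟨x, hx⟩ := exists_sq_char_two h2 δ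
    exact ⟨x, 0, by rw [hx]; ring⟩
  · have hD : 4 - t ^ 2 ≠ 0 := sub_ne_zero.mpr (Ne.symm ht)
    obtain ⟨X, Y, hXY⟩ := FiniteField.exists_root_sum_quadratic
        (f := Polynomial.X ^ 2) (g := Polynomial.C (4 - t ^ 2) * Polynomial.X ^ 2
          + Polynomial.C (-4 * δ)) (Polynomial.degree_X_pow 2) (by
            rw [Polynomial.degree_add_eq_left_of_degree_lt]
            · exact Polynomial.degree_C_mul_X_pow 2 hD
            · rw [Polynomial.degree_C_mul_X_pow 2 hD]
              exact lt_of_le_of_lt Polynomial.degree_C_le (by norm_num)) (odd_card_of_two_ne h2)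
    simp only [Polynomial.eval_mul, Polynomial.eval_C, Polynomial.eval_pow, Polynomial.eval_X,
        Polynomial.eval_add] at hXY
    refine ⟨(X - t * Y) / 2, Y, ?_⟩
    have h4' : (4 : F) ≠ 0 := by
      have : (4 : F) = 2 * 2 := by norm_num
      rw [this]; exact mul_ne_zero h2 h2
    apply mul_left_cancel₀ h4'
    have : (4 : F) * (((X - t * Y) / 2) ^ 2 + t * ((X - t * Y) / 2) * Y + Y ^ 2) =
        (X - t * Y) ^ 2 + 2 * t * (X - t * Y) * Y + 4 * Y ^ 2 := by
      field_simp
      ring
    rw [this]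
    linear_combination hXY

/-- elements `x + y A` of the centraliser of `A` -/
def lin (A : SL(2, F)) (x y : F) (h : x ^ 2 + tr A * x * y + y ^ 2 = 1) : SL(2, F) :=
  ⟨!![x + y * A 0 0, y * A 0 1; y * A 1 0, x + y * A 1 1], by
    have hd := det_eq A
    have h' := h
    rw [tr] at h'
    rw [Matrix.det_fin_two_of]
    linear_combination h' + (y ^ 2) * hd⟩

lemma lin00 (A : SL(2, F)) (x y : F) (h : x ^ 2 + tr A * x * y + y ^ 2 = 1) :
    (lin A x y h) 0 0 = x + y * A 0 0 := rfl
lemma lin01 (A : SL(2, F)) (x y : F) (h : x ^ 2 + tr A * x * y + y ^ 2 = 1) :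
    (lin A x y h) 0 1 = y * A 0 1 := rfl
lemma lin10 (A : SL(2, F)) (x y : F) (h : x ^ 2 + tr A * x * y + y ^ 2 = 1) :
    (lin A x y h) 1 0 = y * A 1 0 := rfl
lemma lin11 (A : SL(2, F)) (x y : F) (h : x ^ 2 + tr A * x * y + y ^ 2 = 1) :
    (lin A x y h) 1 1 = x + y * A 1 1 := rfl

lemma card_cent_ge (A : SL(2, F)) (ht : (tr A) ^ 2 ≠ 4) :
    Fintype.card F - 2 ≤ (univ.filter fun B : SL(2, F) => B * A = A * B).card := by
  classical
  have hA : ¬ Cen A := by
    rintro (rfl | rfl)
    · apply ht; rw [tr_one]; norm_num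
    · apply ht; rw [tr_neg, tr_one]; norm_num
  have hcard : Fintype.card F - 2 ≤ (univ.filter fun s : F => s ^ 2 + tr A * s + 1 ≠ 0).card := by
    have h1 := quad_card (tr A) (1 : F)
    have h2 := Finset.card_filter_add_card_filter_not (s := (univ : Finset F))
      (fun s : F => s ^ 2 + tr A * s + 1 = 0)
    rw [card_univ] at h2
    simp only [ne_eq]
    omega
  refine le_trans hcard ?_
  let Y : F → F := fun s => -(2 * s + tr A) / (s ^ 2 + tr A * s + 1)
  have hY : ∀ s : F, s ^ 2 + tr A * s + 1 ≠ 0 → Y s * (s ^ 2 + tr A * s + 1) = -(2 * s + tr A) := by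
    intro s hs
    exact div_mul_cancel₀ _ hs
  have hN : ∀ s : F, s ^ 2 + tr A * s + 1 ≠ 0 →
      (1 + s * Y s) ^ 2 + tr A * (1 + s * Y s) * Y s + (Y s) ^ 2 = 1 := by
    intro s hs
    linear_combination Y s * hY s hs
  let f : F → SL(2, F) := fun s => if hs : s ^ 2 + tr A * s + 1 ≠ 0 then
    lin A (1 + s * Y s) (Y s) (hN s hs) else 1
  have hf : ∀ s (hs : s ^ 2 + tr A * s + 1 ≠ 0), f s = lin A (1 + s * Y s) (Y s) (hN s hs) :=
    fun s hs => dif_pos hs
  apply Finset.card_le_card_of_injOn f
  · intro s hs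
    simp only [coe_filter, Set.mem_ofPred_eq, mem_univ, true_and] at hs ⊢
    rw [hf s hs]
    refine sl_ext ?_ ?_ ?_ ?_ <;>
      simp only [mul00, mul01, mul10, mul11, lin00, lin01, lin10, lin11] <;> ring
  · intro s hs t ht' hst
    simp only [coe_filter, Set.mem_ofPred_eq, mem_univ, true_and] at hs ht'
    rw [hf s hs, hf t ht'] at hst
    have e00 := congrArg (fun A : SL(2, F) => A 0 0) hst
    have e01 := congrArg (fun A : SL(2, F) => A 0 1) hst
    have e10 := congrArg (fun A : SL(2, F) => A 1 0) hst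
    have e11 := congrArg (fun A : SL(2, F) => A 1 1) hst
    simp only [lin00, lin01, lin10, lin11] at e00 e01 e10 e11
    -- `Y s = Y t`
    have hYY : Y s = Y t := by
      by_contra hne
      have hne' := sub_ne_zero.mpr hne
      apply hA
      rw [cen_iff]
      refine ⟨mul_left_cancel₀ hne' (by linear_combination e01),
        mul_left_cancel₀ hne' (by linear_combination e10),
        mul_left_cancel₀ hne' (by linear_combination e00 - e11)⟩
    have hX : s * Y s = t * Y t := by
      rw [hYY] at e00 ⊢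
      linear_combination e00
    by_cases hy : Y s = 0
    · -- then `2 s + t = 0`
      have h1 := hY s hs
      have h2' := hY t ht'
      rw [← hYY] at h2'
      rw [hy, zero_mul] at h1 h2'
      have h22 : (2 : F) * (s - t) = 0 := by linear_combination h1 - h2'
      rcases mul_eq_zero.mp h22 with h | h
      · exfalso
        apply ht
        have : tr A = 0 := by linear_combination h1 - s * h
        rw [this]
        linear_combination (-2 : F) * h
      · exact sub_eq_zero.mp h
    · rw [← hYY] at hX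
      exact mul_right_cancel₀ hy hX

/-- conjugators between elements with the same trace -/
lemma card_conj_ge (A A' : SL(2, F)) (ht : (tr A) ^ 2 ≠ 4) (h : tr A' = tr A) :
    Fintype.card F - 2 ≤ (univ.filter fun B : SL(2, F) => B * A * B⁻¹ = A').card := by
  classical
  have hcen : ∀ B : SL(2, F), (tr B) ^ 2 ≠ 4 → ¬ Cen B := by
    rintro B hB (rfl | rfl)
    · apply hB; rw [tr_one]; norm_num
    · apply hB; rw [tr_neg, tr_one]; norm_num
  obtain ⟨P, hP⟩ := exists_cj A (hcen A ht)
  obtain ⟨P', hP'⟩ := exists_cj A' (hcen A' (by rw [h]; exact ht))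
  -- `A' = g A g⁻¹`
  let g : GL (Fin 2) F := P' * P⁻¹
  have hgd : g.1.det ≠ 0 := by
    have := g.det.ne_zero
    exact this
  obtain ⟨x, y, hxy⟩ := exists_norm (tr A) (g.1.det)⁻¹ ht
  have hg : g.1 * A.1 = A'.1 * g.1 := by
    have h1 := congrArg Subtype.val hP
    have h2 := congrArg Subtype.val hP'
    rw [cj_coe] at h1 h2
    rw [h, ← h1] at h2
    have i1 : ∀ Q : GL (Fin 2) F, Q.1 * (Q⁻¹ : GL (Fin 2) F).1 = 1 := fun Q => by
      rw [← Units.val_mul]; simp
    have i2 : ∀ Q : GL (Fin 2) F, (Q⁻¹ : GL (Fin 2) F).1 * Q.1 = 1 := fun Q => by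
      rw [← Units.val_mul]; simp
    have hgv : g.1 = P'.1 * (P⁻¹ : GL (Fin 2) F).1 := rfl
    rw [hgv]
    calc P'.1 * (P⁻¹ : GL (Fin 2) F).1 * A.1
        = P'.1 * ((P⁻¹ : GL (Fin 2) F).1 * A.1 * P.1) * (P⁻¹ : GL (Fin 2) F).1 := by
          simp only [mul_assoc, i1, mul_one]
      _ = P'.1 * ((P'⁻¹ : GL (Fin 2) F).1 * A'.1 * P'.1) * (P⁻¹ : GL (Fin 2) F).1 := by rw [h2]
      _ = A'.1 * (P'.1 * (P⁻¹ : GL (Fin 2) F).1) := by
          simp only [← mul_assoc, i1, one_mul]
  let M : Matrix (Fin 2) (Fin 2) F := x • 1 + y • A.1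
  have hMd : M.det = (g.1.det)⁻¹ := by
    have hd := det_eq A
    rw [← hxy, Matrix.det_fin_two]
    simp only [M, Matrix.add_apply, Matrix.smul_apply, Matrix.one_apply_eq, smul_eq_mul, mul_one,
      Matrix.one_apply_ne (show (0 : Fin 2) ≠ 1 by decide),
      Matrix.one_apply_ne (show (1 : Fin 2) ≠ 0 by decide), mul_zero, zero_add, tr]
    linear_combination (y ^ 2) * hd
  let B₀ : SL(2, F) := ⟨g.1 * M, by rw [Matrix.det_mul, hMd, mul_inv_cancel₀ hgd]⟩
  have hB₀ : B₀ * A * B₀⁻¹ = A' := by
    rw [mul_inv_eq_iff_eq_mul]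
    apply Subtype.ext
    show g.1 * M * A.1 = A'.1 * (g.1 * M)
    have hMA : M * A.1 = A.1 * M := by simp [M, add_mul, mul_add]
    rw [mul_assoc, hMA, ← mul_assoc, hg, mul_assoc]
  refine le_trans (card_cent_ge A ht) ?_
  apply Finset.card_le_card_of_injOn (fun C => B₀ * C)
  · intro C hC
    simp only [coe_filter, Set.mem_ofPred_eq, mem_univ, true_and] at hC ⊢
    calc B₀ * C * A * (B₀ * C)⁻¹ = B₀ * (C * A * C⁻¹) * B₀⁻¹ := by group
      _ = B₀ * A * B₀⁻¹ := by rw [hC]; simp [mul_assoc]
      _ = A' := hB₀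
  · intro B _ B' _ h
    exact mul_left_cancel h

/-- upper bound for the order -/
lemma card_sl_le' : Fintype.card SL(2, F) ≤ Fintype.card F * (Fintype.card F ^ 2 - 1) := by
  classical
  have hT : ((univ : Finset (F × F)).erase (0, 0)).card = Fintype.card F ^ 2 - 1 := by
    rw [Finset.card_erase_of_mem (mem_univ _), card_univ, Fintype.card_prod, pow_two]
  rw [← hT, ← card_univ]
  apply Finset.card_le_mul_card_image_of_maps_to (f := fun A : SL(2, F) => (A 0 0, A 1 0))
  · intro A _
    rw [Finset.mem_erase]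
    refine ⟨?_, mem_univ _⟩
    intro h
    have h1 := congrArg Prod.fst h
    have h2 := congrArg Prod.snd h
    simp only at h1 h2
    have hd := det_eq A
    rw [h1, h2] at hd
    simp at hd
  · rintro ⟨a, c⟩ _
    rw [← card_univ (α := F)]
    apply Finset.card_le_card_of_injOn (fun A : SL(2, F) => if a ≠ 0 then A 0 1 else A 1 1)
    · intro _ _; simp
    · intro A hA B hB hAB
      simp only [coe_filter, Set.mem_ofPred_eq, mem_univ, true_and, Prod.mk.injEq] at hA hB hAB
      obtain ⟨a1, c1⟩ := hA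
      obtain ⟨a2, c2⟩ := hB
      have dA := det_eq A
      have dB := det_eq B
      rw [a1, c1] at dA
      rw [a2, c2] at dB
      by_cases ha : a ≠ 0
      · rw [if_pos ha, if_pos ha] at hAB
        refine sl_ext (by rw [a1, a2]) hAB (by rw [c1, c2]) ?_
        apply mul_left_cancel₀ ha
        linear_combination dA - dB + c * hAB
      · rw [if_neg ha, if_neg ha] at hAB
        push Not at ha
        have hc : c ≠ 0 := by
          rintro rfl
          rw [ha] at dA
          simp at dA
        refine sl_ext (by rw [a1, a2]) ?_ (by rw [c1, c2]) hAB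
        apply mul_right_cancel₀ hc
        linear_combination dB - dA + a * hAB

/-- lower bound for the order -/
lemma card_sl_ge : Fintype.card F * (Fintype.card F * (Fintype.card F - 1)) ≤
    Fintype.card SL(2, F) := by
  classical
  rw [← card_univ (α := SL(2, F)),
    Finset.card_eq_sum_card_fiberwise (f := tr) (t := univ) (fun _ _ => mem_univ _)]
  calc Fintype.card F * (Fintype.card F * (Fintype.card F - 1))
      = ∑ _b : F, Fintype.card F * (Fintype.card F - 1) := by
        rw [Finset.sum_const, smul_eq_mul, card_univ]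
    _ ≤ _ := by
      apply Finset.sum_le_sum
      intro b _
      refine le_trans (card_tr_ge b) (Finset.card_le_card ?_)
      intro B hB
      simp only [mem_filter, mem_univ, true_and] at hB ⊢
      exact hB.1

end Pool.Agent.Helper669_gp
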