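import Mathlib
import Pool.Agent.Helper669_gp.Tr

/-!
The action of `SL_2(F)` on the projective line over an extension field `K`.
-/

namespace Pool.Agent.Helper669_gp

open scoped MatrixGroups OnePoint
open Finset

set_option linter.unusedSectionVars false

variable {F : Type} [Field F] (K : Type) [Field K] [DecidableEq K] [Algebra F K]

/-- the homomorphism to `GL_2(K)` -/
def toK : SL(2, F) →* GL (Fin 2) K :=
  (Matrix.SpecialLinearGroup.toGL).comp (Matrix.SpecialLinearGroup.map (algebraMap F K))

lemma toK_apply (A : SL(2, F)) (i j : Fin 2) : (toK K A) i j = algebraMap F K (A i j) := rfl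

/-- the action on the projective line -/
def act (A : SL(2, F)) (x : OnePoint K) : OnePoint K := toK K A • x

lemma act_one (x : OnePoint K) : act K (1 : SL(2, F)) x = x := by simp [act]
lemma act_mul (A B : SL(2, F)) (x : OnePoint K) : act K (A * B) x = act K A (act K B x) := by
  simp [act, mul_smul]
lemma act_inv_eq (A : SL(2, F)) (x y : OnePoint K) : act K A⁻¹ x = y ↔ x = act K A y := by
  constructor
  · rintro rfl; rw [← act_mul, mul_inv_cancel, act_one]
  · rintro rfl; rw [← act_mul, inv_mul_cancel, act_one]

lemma act_infty (A : SL(2, F)) : act K A ∞ = ∞ ↔ A 1 0 = 0 := by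
  rw [act, OnePoint.smul_infty_eq_self_iff, toK_apply]
  exact map_eq_zero _

lemma act_coe (A : SL(2, F)) (k : K) : act K A (k : OnePoint K) = k ↔
    algebraMap F K (A 1 0) * k ^ 2 + (algebraMap F K (A 1 1) - algebraMap F K (A 0 0)) * k -
      algebraMap F K (A 0 1) = 0 := by
  rw [act, OnePoint.smul_some_eq_ite, toK_apply, toK_apply, toK_apply, toK_apply]
  have hd := congrArg (algebraMap F K) (det_eq A)
  simp only [map_sub, map_mul, map_one] at hd
  split_ifs with h
  · constructor
    · intro h'; exact absurd h' (OnePoint.infty_ne_coe k)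
    · intro h'
      exfalso
      have : (1 : K) = 0 := by
        have h1 : algebraMap F K (A 0 0) * k + algebraMap F K (A 0 1) = 0 := by
          linear_combination k * h - h'
        linear_combination -hd + algebraMap F K (A 0 0) * h - algebraMap F K (A 1 0) * h1
      exact one_ne_zero this
  · rw [OnePoint.coe_eq_coe, div_eq_iff h]
    constructor
    · intro h'; linear_combination -h'
    · intro h'; linear_combination -h'

/-- eigenvalue at a fixed point -/
def ev (A : SL(2, F)) (x : OnePoint K) : K :=
  x.elim (algebraMap F K (A 0 0)) (fun k => algebraMap F K (A 1 0) * k + algebraMap F K (A 1 1))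

lemma ev_infty (A : SL(2, F)) : ev K A ∞ = algebraMap F K (A 0 0) := rfl
lemma ev_coe (A : SL(2, F)) (k : K) :
    ev K A (k : OnePoint K) = algebraMap F K (A 1 0) * k + algebraMap F K (A 1 1) := rfl

lemma ev_mul (A B : SL(2, F)) (x : OnePoint K) (hA : act K A x = x) (hB : act K B x = x) :
    ev K (A * B) x = ev K A x * ev K B x := by
  induction x using OnePoint.rec with
  | infty =>
    rw [act_infty] at hB
    rw [ev_infty, ev_infty, ev_infty, mul00, hB]; simp
  | coe k =>
    rw [act_coe] at hB
    simp only [ev_coe, mul10, mul11, map_add, map_mul]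
    linear_combination (-algebraMap F K (A 1 0)) * hB

lemma ev_one (x : OnePoint K) : ev K (1 : SL(2, F)) x = 1 := by
  induction x using OnePoint.rec with
  | infty => rw [ev_infty, one00, map_one]
  | coe k => rw [ev_coe, one10, one11, map_one, map_zero]; ring

lemma ev_neg_one (x : OnePoint K) : ev K (-1 : SL(2, F)) x = -1 := by
  induction x using OnePoint.rec with
  | infty => rw [ev_infty, neg00, one00, map_neg, map_one]
  | coe k => rw [ev_coe, neg10, neg11, one10, one11, map_neg, map_neg, map_one, map_zero]; ring

/-- characteristic equation -/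
lemma ev_char (A : SL(2, F)) (x : OnePoint K) (hA : act K A x = x) :
    (ev K A x) ^ 2 - algebraMap F K (tr A) * ev K A x + 1 = 0 := by
  have hd := congrArg (algebraMap F K) (det_eq A)
  simp only [map_sub, map_mul, map_one] at hd
  induction x using OnePoint.rec with
  | infty =>
    rw [act_infty] at hA
    rw [hA, map_zero] at hd
    rw [ev_infty, tr, map_add]
    linear_combination -hd
  | coe k =>
    rw [act_coe] at hA
    rw [ev_coe, tr, map_add]
    linear_combination algebraMap F K (A 1 0) * hA - hd

lemma ev_ne_zero (A : SL(2, F)) (x : OnePoint K) (hA : act K A x = x) : ev K A x ≠ 0 := by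
  intro h
  have := ev_char K A x hA
  rw [h] at this
  simp at this

/-- the square of the eigenvalue is one iff the square of the trace is four -/
lemma ev_sq_iff (A : SL(2, F)) (x : OnePoint K) (hA : act K A x = x) :
    (ev K A x) ^ 2 = 1 ↔ (tr A) ^ 2 = 4 := by
  have h := ev_char K A x hA
  have hne := ev_ne_zero K A x hA
  constructor
  · intro h1
    have h2 : algebraMap F K (tr A) * ev K A x = 2 := by linear_combination h1 - h
    apply (algebraMap F K).injective
    rw [map_pow]
    have : (algebraMap F K) 4 = 4 := map_ofNat _ 4
    rw [this]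
    have h3 : (algebraMap F K (tr A)) ^ 2 * (ev K A x) ^ 2 = 4 := by
      rw [← mul_pow, h2]; norm_num
    rwa [h1, mul_one] at h3
  · intro h1
    have h2 : (algebraMap F K (tr A)) ^ 2 = 4 := by
      rw [← map_pow, h1, map_ofNat]
    -- (λ² + 1)² = t² λ² = 4 λ²
    have h3 : ((ev K A x) ^ 2 - 1) ^ 2 = 0 := by
      have h4 : (ev K A x) ^ 2 + 1 = algebraMap F K (tr A) * ev K A x := by linear_combination h
      have h5 : ((ev K A x) ^ 2 + 1) ^ 2 = 4 * (ev K A x) ^ 2 := by
        rw [h4, mul_pow, h2]
      linear_combination h5
    exact sub_eq_zero.mp (pow_eq_zero_iff two_ne_zero |>.mp h3)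

/-- the trace squared in terms of the eigenvalue -/
lemma tr_sq_eq (A : SL(2, F)) (x : OnePoint K) (hA : act K A x = x) :
    algebraMap F K ((tr A) ^ 2) = (ev K A x) ^ 2 + 2 + ((ev K A x) ^ 2)⁻¹ := by
  have h := ev_char K A x hA
  have hne := ev_ne_zero K A x hA
  have h1 : algebraMap F K (tr A) = ev K A x + (ev K A x)⁻¹ := by
    field_simp
    linear_combination -h
  rw [map_pow, h1]
  field_simp
  ring

/-- an element with `tr = 2` fixing `x` is determined up to ... : eigenvalue one -/
lemma ev_eq_one_iff (A : SL(2, F)) (x : OnePoint K) (hA : act K A x = x) :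
    ev K A x = 1 ↔ tr A = 2 := by
  have h := ev_char K A x hA
  constructor
  · intro h1
    rw [h1] at h
    apply (algebraMap F K).injective
    rw [map_ofNat]
    linear_combination -h
  · intro h1
    rw [h1, map_ofNat] at h
    have h3 : (ev K A x - 1) ^ 2 = 0 := by linear_combination h
    exact sub_eq_zero.mp (pow_eq_zero_iff two_ne_zero |>.mp h3)

/-- fixed points of a non-central element with `tr ^ 2 = 4`: exactly one, and rational. -/
lemma fix_unip [IsAlgClosed K] (A : SL(2, F)) (hA : ¬ Cen A) (ht : (tr A) ^ 2 = 4) :
    ∃ x : OnePoint K, ∀ y, act K A y = y ↔ y = x := by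
  have hd := congrArg (algebraMap F K) (det_eq A)
  simp only [map_sub, map_mul, map_one] at hd
  have ht' : (algebraMap F K (A 0 0) + algebraMap F K (A 1 1)) ^ 2 = 4 := by
    rw [← map_add, ← map_pow]
    have : (A 0 0 + A 1 1) ^ 2 = 4 := ht
    rw [this, map_ofNat]
  set a := algebraMap F K (A 0 0) with ha
  set b := algebraMap F K (A 0 1) with hb
  set c := algebraMap F K (A 1 0) with hc
  set d := algebraMap F K (A 1 1) with hdd
  by_cases hc0 : A 1 0 = 0
  · refine ⟨∞, ?_⟩
    intro y
    induction y using OnePoint.rec with
    | infty => simp [act_infty, hc0]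
    | coe k =>
      have hc0' : c = 0 := by rw [hc, hc0, map_zero]
      have had : d - a = 0 := by
        have : (d - a) ^ 2 = 0 := by
          rw [hc0'] at hd
          linear_combination ht' - 4 * hd
        exact (pow_eq_zero_iff two_ne_zero).mp this
      have hb0 : b ≠ 0 := by
        intro hb0
        apply hA
        rw [cen_iff]
        refine ⟨(map_eq_zero (algebraMap F K)).mp hb0, hc0, ?_⟩
        apply (algebraMap F K).injective
        linear_combination -had
      constructor
      · intro h
        rw [act_coe] at h
        exfalso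
        apply hb0
        rw [← ha, ← hb, ← hc, ← hdd, hc0', had] at h
        linear_combination -h
      · intro h; exact absurd h (OnePoint.coe_ne_infty k)
  · have hc0' : c ≠ 0 := by rw [hc]; exact (map_ne_zero _).mpr hc0
    obtain ⟨r, hr⟩ := IsAlgClosed.exists_root
      (Polynomial.C c * Polynomial.X ^ 2 + Polynomial.C (d - a) * Polynomial.X +
        Polynomial.C (-b)) (by rw [Polynomial.degree_quadratic hc0']; norm_num)
    simp only [Polynomial.IsRoot, Polynomial.eval_add, Polynomial.eval_mul, Polynomial.eval_C,
      Polynomial.eval_pow, Polynomial.eval_X] at hr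
    -- double root: `2 c r = a - d`
    have h2 : 2 * c * r + (d - a) = 0 := by
      have : (2 * c * r + (d - a)) ^ 2 = 0 := by
        linear_combination 4 * c * hr + ht' - 4 * hd
      exact (pow_eq_zero_iff two_ne_zero).mp this
    refine ⟨(r : OnePoint K), ?_⟩
    intro y
    induction y using OnePoint.rec with
    | infty =>
      rw [act_infty]
      constructor
      · intro h; exact absurd h hc0
      · intro h; exact absurd h (OnePoint.infty_ne_coe r)
    | coe k =>
      rw [act_coe, OnePoint.coe_eq_coe, ← ha, ← hb, ← hc, ← hdd]
      constructor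
      · intro h
        have h3 : c * (k - r) ^ 2 = 0 := by
          linear_combination h - hr + (r - k) * h2
        have h4 := (mul_eq_zero.mp h3).resolve_left hc0'
        exact sub_eq_zero.mp ((pow_eq_zero_iff two_ne_zero).mp h4)
      · rintro rfl; linear_combination hr

/-- fixed points of an element with `tr ^ 2 ≠ 4`: exactly two. -/
lemma fix_semi [IsAlgClosed K] (A : SL(2, F)) (ht : (tr A) ^ 2 ≠ 4) :
    ∃ x x' : OnePoint K, x ≠ x' ∧ ∀ y, act K A y = y ↔ (y = x ∨ y = x') := by
  have hd := congrArg (algebraMap F K) (det_eq A)
  simp only [map_sub, map_mul, map_one] at hd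
  have ht' : (algebraMap F K (A 0 0) + algebraMap F K (A 1 1)) ^ 2 ≠ 4 := by
    rw [← map_add, ← map_pow]
    intro h
    apply ht
    apply (algebraMap F K).injective
    rw [map_ofNat]
    exact h
  set a := algebraMap F K (A 0 0) with ha
  set b := algebraMap F K (A 0 1) with hb
  set c := algebraMap F K (A 1 0) with hc
  set d := algebraMap F K (A 1 1) with hdd
  by_cases hc0 : A 1 0 = 0
  · have hc0' : c = 0 := by rw [hc, hc0, map_zero]
    have had : d - a ≠ 0 := by
      intro had
      apply ht'
      have had' : a = d := (sub_eq_zero.mp had).symm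
      rw [hc0', had'] at hd
      rw [had']
      linear_combination 4 * hd
    refine ⟨∞, ((b / (d - a) : K) : OnePoint K), OnePoint.infty_ne_coe _, ?_⟩
    intro y
    induction y using OnePoint.rec with
    | infty => simp [act_infty, hc0]
    | coe k =>
      rw [act_coe, ← ha, ← hb, ← hc, ← hdd, hc0', OnePoint.coe_eq_coe, eq_div_iff had]
      constructor
      · intro h; right; linear_combination h
      · rintro (h | h)
        · exact absurd h (OnePoint.coe_ne_infty k)
        · linear_combination h
  · have hc0' : c ≠ 0 := by rw [hc]; exact (map_ne_zero _).mpr hc0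
    obtain ⟨r, hr⟩ := IsAlgClosed.exists_root
      (Polynomial.C c * Polynomial.X ^ 2 + Polynomial.C (d - a) * Polynomial.X +
        Polynomial.C (-b)) (by rw [Polynomial.degree_quadratic hc0']; norm_num)
    simp only [Polynomial.IsRoot, Polynomial.eval_add, Polynomial.eval_mul, Polynomial.eval_C,
      Polynomial.eval_pow, Polynomial.eval_X] at hr
    set r' := (a - d) / c - r with hr'
    have hr'' : c * (r + r') = a - d := by rw [hr']; field_simp; ring
    refine ⟨(r : OnePoint K), (r' : OnePoint K), ?_, ?_⟩
    · intro h
      rw [OnePoint.coe_eq_coe] at h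
      apply ht'
      rw [← h] at hr''
      have h5 : a - d = 2 * c * r := by linear_combination -hr''
      linear_combination 4 * hd - 4 * c * hr + (a - d - 2 * c * r) * h5
    · intro y
      induction y using OnePoint.rec with
      | infty =>
        rw [act_infty]
        constructor
        · intro h; exact absurd h hc0
        · rintro (h | h)
          · exact absurd h (OnePoint.infty_ne_coe r)
          · exact absurd h (OnePoint.infty_ne_coe r')
      | coe k =>
        rw [act_coe, OnePoint.coe_eq_coe, OnePoint.coe_eq_coe, ← ha, ← hb, ← hc, ← hdd]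
        constructor
        · intro h
          have h3 : c * ((k - r) * (k - r')) = 0 := by
            linear_combination h - hr - (k - r) * hr''
          rcases mul_eq_zero.mp ((mul_eq_zero.mp h3).resolve_left hc0') with h4 | h4
          · left; exact sub_eq_zero.mp h4
          · right; exact sub_eq_zero.mp h4
        · rintro (rfl | rfl)
          · linear_combination hr
          · linear_combination hr + (r' - r) * hr''

end Pool.Agent.Helper669_gp
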