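import Mathlib
import Pool.Agent.Helper669_gp.Pts
import Pool.Agent.Helper669_gp.Low2

/-!
Double counting of fixed points for a subgroup of `SL_2(F)`.
-/

namespace Pool.Agent.Helper669_gp

open scoped MatrixGroups OnePoint
open Finset

set_option linter.unusedSectionVars false

/-- divisibility for an action with stabilisers of constant order -/
lemma dvd_of_act {G α : Type} [Group G] [Finite G] (Γ : Subgroup G) (f : G → α → α)
    (f1 : ∀ y, f 1 y = y) (fm : ∀ a b y, f (a * b) y = f a (f b y)) (Y : Finset α)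
    (hY : ∀ a ∈ Γ, ∀ y ∈ Y, f a y ∈ Y) (k : ℕ)
    (hk : ∀ y ∈ Y, Nat.card {a : Γ // f a y = y} = k) : Nat.card Γ ∣ k * Y.card := by
  classical
  let _ : MulAction Γ {y // y ∈ Y} :=
    { smul := fun a y => ⟨f a y, hY a a.2 y y.2⟩
      one_smul := fun y => Subtype.ext (f1 y)
      mul_smul := fun a b y => Subtype.ext (fm a b y) }
  have hs : ∀ y : {y // y ∈ Y}, Nat.card (MulAction.stabilizer Γ y) = k := by
    intro y
    rw [← hk y y.2]
    apply Nat.card_congr
    apply Equiv.subtypeEquivRight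
    intro a
    rw [MulAction.mem_stabilizer_iff]
    exact Subtype.ext_iff
  have e := Nat.card_congr (MulAction.selfEquivSigmaOrbitsQuotientStabilizer Γ {y // y ∈ Y})
  have hYc : Nat.card {y // y ∈ Y} = Y.card := by
    rw [Nat.card_eq_fintype_card, Fintype.card_coe]
  rw [hYc] at e
  rw [e]
  have : Finite (MulAction.orbitRel.Quotient Γ {y // y ∈ Y}) := Quotient.finite _
  let _ : Fintype (MulAction.orbitRel.Quotient Γ {y // y ∈ Y}) := Fintype.ofFinite _
  rw [Nat.card_sigma, Finset.mul_sum]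
  apply Finset.dvd_sum
  intro ω _
  have h1 := Subgroup.card_eq_card_quotient_mul_card_subgroup
    (MulAction.stabilizer Γ (Quotient.out ω))
  rw [hs] at h1
  exact ⟨1, by rw [h1]; ring⟩

variable {F : Type} [Field F] [Fintype F] [DecidableEq F] (K : Type) [Field K] [DecidableEq K]
  [Algebra F K] [IsAlgClosed K]

noncomputable local instance : DecidableEq (OnePoint K) := Classical.decEq _

/-- weight of an element -/
def wt (A : SL(2, F)) : ℕ := if (tr A) ^ 2 = 4 then 2 else 1

lemma fp_exists (A : SL(2, F)) (hA : ¬ Cen A) :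
    ∃ s : Finset (OnePoint K), (∀ y, y ∈ s ↔ act K A y = y) ∧ s.card * wt A = 2 := by
  by_cases ht : (tr A) ^ 2 = 4
  · obtain ⟨x, hx⟩ := fix_unip K A hA ht
    exact ⟨{x}, fun y => by rw [mem_singleton, hx], by rw [wt, if_pos ht]; simp⟩
  · obtain ⟨x, x', hne, hx⟩ := fix_semi K A ht
    exact ⟨{x, x'}, fun y => by rw [mem_insert, mem_singleton, hx],
      by rw [wt, if_neg ht, card_pair hne]⟩

open scoped Classical in
/-- finset of fixed points -/
noncomputable def fpF (A : SL(2, F)) : Finset (OnePoint K) :=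
  if h : ¬ Cen A then (fp_exists K A h).choose else ∅

lemma mem_fpF (A : SL(2, F)) (h : ¬ Cen A) (y : OnePoint K) : y ∈ fpF K A ↔ act K A y = y := by
  rw [fpF, dif_pos h]; exact (fp_exists K A h).choose_spec.1 y

lemma card_fpF (A : SL(2, F)) (h : ¬ Cen A) : (fpF K A).card * wt A = 2 := by
  rw [fpF, dif_pos h]; exact (fp_exists K A h).choose_spec.2

variable (H : Subgroup SL(2, F))

open scoped Classical in
/-- the elements of `H` -/
noncomputable def Hs : Finset SL(2, F) := univ.filter fun A => A ∈ H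

open scoped Classical in
/-- the non-central elements of `H` -/
noncomputable def NC : Finset SL(2, F) := (Hs H).filter fun A => ¬ Cen A

open scoped Classical in
/-- the stabiliser -/
noncomputable def Hx (x : OnePoint K) : Finset SL(2, F) := (Hs H).filter fun A => act K A x = x

open scoped Classical in
/-- the unipotent part of the stabiliser -/
noncomputable def Vx (x : OnePoint K) : Finset SL(2, F) := (Hx K H x).filter fun A => tr A = 2

open scoped Classical in
/-- points with non-trivial stabiliser -/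
noncomputable def Xs : Finset (OnePoint K) := (NC H).biUnion (fpF K)

open scoped Classical in
/-- weight of a point -/
noncomputable def w (x : OnePoint K) : ℕ := ∑ A ∈ (NC H).filter (fun A => act K A x = x), wt A

open scoped Classical in
/-- orbit -/
noncomputable def orb (x : OnePoint K) : Finset (OnePoint K) := (Hs H).image fun A => act K A x

lemma mem_Hs (A : SL(2, F)) : A ∈ Hs H ↔ A ∈ H := by simp [Hs]
lemma mem_NC (A : SL(2, F)) : A ∈ NC H ↔ A ∈ H ∧ ¬ Cen A := by simp [NC, mem_Hs]
lemma mem_Hx (x : OnePoint K) (A : SL(2, F)) : A ∈ Hx K H x ↔ A ∈ H ∧ act K A x = x := by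
  simp [Hx, mem_Hs]
lemma mem_Vx (x : OnePoint K) (A : SL(2, F)) :
    A ∈ Vx K H x ↔ (A ∈ H ∧ act K A x = x) ∧ tr A = 2 := by
  simp [Vx, mem_Hx]
lemma mem_Xs (x : OnePoint K) : x ∈ Xs K H ↔ ∃ A ∈ H, ¬ Cen A ∧ act K A x = x := by
  rw [Xs, mem_biUnion]
  constructor
  · rintro ⟨A, hA, hx⟩
    rw [mem_NC] at hA
    exact ⟨A, hA.1, hA.2, (mem_fpF K A hA.2 x).mp hx⟩
  · rintro ⟨A, h1, h2, h3⟩
    exact ⟨A, (mem_NC H A).mpr ⟨h1, h2⟩, (mem_fpF K A h2 x).mpr h3⟩

/-- total weight -/
lemma sum_w : ∑ x ∈ Xs K H, w K H x = 2 * (NC H).card := by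
  classical
  have h1 : ∀ x ∈ Xs K H, w K H x = ∑ A ∈ NC H, if act K A x = x then wt A else 0 := by
    intro x _
    rw [w, Finset.sum_filter]
  rw [Finset.sum_congr rfl h1, Finset.sum_comm]
  have h2 : ∀ A ∈ NC H, (∑ x ∈ Xs K H, if act K A x = x then wt A else 0) = 2 := by
    intro A hA
    have hA' := (mem_NC H A).mp hA
    rw [← Finset.sum_filter, Finset.sum_const, smul_eq_mul, ← card_fpF K A hA'.2]
    congr 2
    ext x
    rw [mem_filter, mem_fpF K A hA'.2, mem_Xs]
    constructor
    · rintro ⟨_, h⟩; exact h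
    · intro h; exact ⟨⟨A, hA'.1, hA'.2, h⟩, h⟩
  rw [Finset.sum_congr rfl h2, Finset.sum_const, smul_eq_mul, mul_comm]

/-- number of central elements -/
noncomputable def zz (F : Type) [Field F] [DecidableEq F] : ℕ := if (2 : F) = 0 then 1 else 2

lemma neg_one_eq (h2 : (2 : F) = 0) : (-1 : SL(2, F)) = 1 := by
  have h : (-1 : F) = 1 := by linear_combination (-1 : F) * h2
  exact sl_ext (by rw [neg00, one00, h]) (by rw [neg01, one01, neg_zero])
    (by rw [neg10, one10, neg_zero]) (by rw [neg11, one11, h])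

lemma neg_one_ne (h2 : (2 : F) ≠ 0) : (-1 : SL(2, F)) ≠ 1 := by
  intro h
  apply h2
  have := congrArg (fun A : SL(2, F) => A 0 0) h
  simp only [neg00, one00] at this
  linear_combination (-1 : F) * this

lemma card_cen (hH : (-1 : SL(2, F)) ∈ H) : ((Hs H).filter fun A => Cen A).card = zz F := by
  classical
  have : ((Hs H).filter fun A => Cen A) = {1, -1} := by
    ext A
    rw [mem_filter, mem_Hs, mem_insert, mem_singleton]
    constructor
    · rintro ⟨_, h⟩; exact h
    · rintro (rfl | rfl)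
      · exact ⟨H.one_mem, Or.inl rfl⟩
      · exact ⟨hH, Or.inr rfl⟩
  rw [this, zz]
  split_ifs with h2
  · rw [neg_one_eq h2]; simp
  · rw [card_pair (Ne.symm (neg_one_ne h2))]

lemma act_neg (A : SL(2, F)) (x : OnePoint K) : act K (-A) x = act K A x := by
  have h : (-A : SL(2, F)) = (-1 : SL(2, F)) * A := by simp
  rw [h, act_mul]
  generalize act K A x = y
  induction y using OnePoint.rec with
  | infty => rw [act_infty]; simp
  | coe k => rw [act_coe]; simp

lemma card_NC (hH : (-1 : SL(2, F)) ∈ H) : (NC H).card + zz F = (Hs H).card := by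
  classical
  have h := Finset.card_filter_add_card_filter_not (s := Hs H) (fun A => Cen A)
  rw [card_cen H hH] at h
  rw [NC]
  rw [← h, add_comm]

lemma neg_mem' (hH : (-1 : SL(2, F)) ∈ H) {A : SL(2, F)} (hA : A ∈ H) : -A ∈ H := by
  have h : (-A : SL(2, F)) = (-1 : SL(2, F)) * A := by simp
  rw [h]; exact H.mul_mem hH hA

lemma card_U (hH : (-1 : SL(2, F)) ∈ H) (x : OnePoint K) :
    ((Hx K H x).filter fun A => (tr A) ^ 2 = 4).card = zz F * (Vx K H x).card := by
  classical
  by_cases h2 : (2 : F) = 0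
  · rw [zz, if_pos h2, one_mul, Vx]
    congr 1
    apply Finset.filter_congr
    intro A _
    constructor
    · intro h
      have : (tr A) ^ 2 = 0 := by rw [h]; linear_combination (2 : F) * h2
      rw [(pow_eq_zero_iff two_ne_zero).mp this, h2]
    · intro h; rw [h]; norm_num
  · have h4 : ∀ A : SL(2, F), (tr A) ^ 2 = 4 ↔ tr A = 2 ∨ tr A = -2 := by
      intro A
      constructor
      · intro h
        have : (tr A - 2) * (tr A + 2) = 0 := by linear_combination h
        rcases mul_eq_zero.mp this with h | h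
        · left; linear_combination h
        · right; linear_combination h
      · rintro (h | h) <;> rw [h] <;> norm_num
    have h5 : ((Hx K H x).filter fun A => (tr A) ^ 2 = 4) =
        (Vx K H x) ∪ (Vx K H x).image (fun A => -A) := by
      ext A
      rw [mem_filter, mem_Hx, mem_union, mem_Vx, mem_image, h4]
      constructor
      · rintro ⟨⟨hA, hx⟩, h | h⟩
        · left; exact ⟨⟨hA, hx⟩, h⟩
        · right
          refine ⟨-A, ?_, by simp⟩
          rw [mem_Vx]
          exact ⟨⟨neg_mem' H hH hA, by rw [act_neg]; exact hx⟩, by rw [tr_neg, h]; ring⟩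
      · rintro (⟨h, h'⟩ | ⟨B, hB, rfl⟩)
        · exact ⟨h, Or.inl h'⟩
        · rw [mem_Vx] at hB
          exact ⟨⟨neg_mem' H hH hB.1.1, by rw [act_neg]; exact hB.1.2⟩,
            Or.inr (by rw [tr_neg, hB.2])⟩
    rw [h5, Finset.card_union_of_disjoint, Finset.card_image_of_injective, zz, if_neg h2]
    · ring
    · intro A B h; simpa using h
    · rw [Finset.disjoint_left]
      intro A hA hA'
      rw [mem_Vx] at hA
      rw [mem_image] at hA'
      obtain ⟨B, hB, rfl⟩ := hA'
      rw [mem_Vx] at hB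
      have h6 := hA.2
      rw [tr_neg, hB.2] at h6
      apply h2
      have h7 : (2 : F) * 2 = 0 := by linear_combination -h6
      exact (mul_self_eq_zero).mp h7

/-- the weight of a point in terms of the stabiliser -/
lemma w_eq (hH : (-1 : SL(2, F)) ∈ H) (x : OnePoint K) :
    w K H x + 2 * zz F = (Hx K H x).card + zz F * (Vx K H x).card := by
  classical
  have h1 : w K H x = ((NC H).filter (fun A => act K A x = x)).card +
      ((NC H).filter (fun A => act K A x = x ∧ (tr A) ^ 2 = 4)).card := by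
    have hw : ∀ A : SL(2, F), wt A = 1 + if (tr A) ^ 2 = 4 then 1 else 0 := by
      intro A; rw [wt]; split_ifs <;> rfl
    rw [w, Finset.sum_congr rfl (fun A _ => hw A), Finset.sum_add_distrib, Finset.sum_const,
      smul_eq_mul, mul_one, ← Finset.card_filter, Finset.filter_filter]
  have hfix : ∀ A : SL(2, F), Cen A → act K A x = x := by
    rintro A (rfl | rfl)
    · exact act_one K x
    · rw [act_neg, act_one]
  have hcen4 : ∀ A : SL(2, F), Cen A → (tr A) ^ 2 = 4 := by
    rintro A (rfl | rfl)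
    · rw [tr_one]; norm_num
    · rw [tr_neg, tr_one]; norm_num
  have h2 : ((NC H).filter (fun A => act K A x = x)).card + zz F = (Hx K H x).card := by
    have h := Finset.card_filter_add_card_filter_not (s := Hx K H x) (fun A => Cen A)
    rw [← h, add_comm, ← card_cen H hH]
    congr 2
    · ext A; rw [mem_filter, mem_filter, mem_Hs, mem_Hx]
      constructor
      · rintro ⟨h1, h2⟩; exact ⟨⟨h1, hfix A h2⟩, h2⟩
      · rintro ⟨h1, h2⟩; exact ⟨h1.1, h2⟩
    · ext A; rw [mem_filter, mem_filter, mem_NC, mem_Hx]; tauto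
  have h3 : ((NC H).filter (fun A => act K A x = x ∧ (tr A) ^ 2 = 4)).card + zz F =
      ((Hx K H x).filter fun A => (tr A) ^ 2 = 4).card := by
    have h := Finset.card_filter_add_card_filter_not
      (s := (Hx K H x).filter fun A => (tr A) ^ 2 = 4) (fun A => Cen A)
    rw [← h, add_comm, ← card_cen H hH]
    congr 2
    · ext A; rw [mem_filter, mem_filter, mem_filter, mem_Hs, mem_Hx]
      constructor
      · rintro ⟨h1, h2⟩; exact ⟨⟨⟨h1, hfix A h2⟩, hcen4 A h2⟩, h2⟩
      · rintro ⟨h1, h2⟩; exact ⟨h1.1.1, h2⟩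
    · ext A; rw [mem_filter, mem_filter, mem_filter, mem_NC, mem_Hx]; tauto
  rw [card_U K H hH x] at h3
  omega

/-- orbit-stabiliser -/
lemma orb_card (x : OnePoint K) : (orb K H x).card * (Hx K H x).card = (Hs H).card := by
  classical
  rw [Finset.card_eq_sum_card_fiberwise (f := fun A => act K A x) (t := orb K H x)
    (s := Hs H) (fun A hA => by
      rw [Finset.mem_coe, orb]; exact Finset.mem_image_of_mem _ hA)]
  rw [← smul_eq_mul, ← Finset.sum_const]
  apply Finset.sum_congr rfl
  intro y hy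
  rw [orb, mem_image] at hy
  obtain ⟨B, hB, rfl⟩ := hy
  rw [mem_Hs] at hB
  apply Finset.card_nbij' (fun A => B * A) (fun A => B⁻¹ * A)
  · intro A hA
    simp only [Finset.mem_coe, mem_Hx, mem_filter, mem_Hs] at hA ⊢
    exact ⟨H.mul_mem hB hA.1, by rw [act_mul, hA.2]⟩
  · intro A hA
    simp only [Finset.mem_coe, mem_Hx, mem_filter, mem_Hs] at hA ⊢
    exact ⟨H.mul_mem (H.inv_mem hB) hA.1, by rw [act_mul, hA.2, ← act_mul, inv_mul_cancel,
      act_one]⟩
  · intro A _; simp
  · intro A _; simp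

lemma mem_orb (x y : OnePoint K) : y ∈ orb K H x ↔ ∃ A ∈ H, act K A x = y := by
  classical
  rw [orb, mem_image]
  constructor
  · rintro ⟨A, hA, h⟩; exact ⟨A, (mem_Hs H A).mp hA, h⟩
  · rintro ⟨A, hA, h⟩; exact ⟨A, (mem_Hs H A).mpr hA, h⟩

lemma mem_orb_self (x : OnePoint K) : x ∈ orb K H x :=
  (mem_orb K H x x).mpr ⟨1, H.one_mem, act_one K x⟩

/-- orbits partition -/
lemma orb_eq_of_mem (x y : OnePoint K) (h : y ∈ orb K H x) : orb K H y = orb K H x := by
  obtain ⟨B, hB, rfl⟩ := (mem_orb K H x y).mp h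
  ext z
  rw [mem_orb, mem_orb]
  constructor
  · rintro ⟨A, hA, rfl⟩; exact ⟨A * B, H.mul_mem hA hB, act_mul K A B x⟩
  · rintro ⟨A, hA, rfl⟩
    exact ⟨A * B⁻¹, H.mul_mem hA (H.inv_mem hB), by
      rw [← act_mul, inv_mul_cancel_right]⟩

lemma Hx_conj (x : OnePoint K) (B : SL(2, F)) (hB : B ∈ H) :
    (Hx K H (act K B x)).card = (Hx K H x).card := by
  classical
  apply Finset.card_nbij' (fun A => B⁻¹ * A * B) (fun A => B * A * B⁻¹)
  · intro A hA
    simp only [Finset.mem_coe, mem_Hx] at hA ⊢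
    refine ⟨H.mul_mem (H.mul_mem (H.inv_mem hB) hA.1) hB, ?_⟩
    rw [act_mul, act_mul, hA.2, ← act_mul, inv_mul_cancel, act_one]
  · intro A hA
    simp only [Finset.mem_coe, mem_Hx] at hA ⊢
    refine ⟨H.mul_mem (H.mul_mem hB hA.1) (H.inv_mem hB), ?_⟩
    rw [← act_mul, inv_mul_cancel_right, act_mul, hA.2]
  · intro A _; simp [mul_assoc]
  · intro A _; simp [mul_assoc]

lemma Vx_conj (x : OnePoint K) (B : SL(2, F)) (hB : B ∈ H) :
    (Vx K H (act K B x)).card = (Vx K H x).card := by
  classical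
  have ht : ∀ A : SL(2, F), tr (B⁻¹ * A * B) = tr A := by
    intro A
    have := tr_conj A B⁻¹
    rwa [inv_inv] at this
  apply Finset.card_nbij' (fun A => B⁻¹ * A * B) (fun A => B * A * B⁻¹)
  · intro A hA
    simp only [Finset.mem_coe, mem_Vx] at hA ⊢
    refine ⟨⟨H.mul_mem (H.mul_mem (H.inv_mem hB) hA.1.1) hB, ?_⟩, by rw [ht, hA.2]⟩
    rw [act_mul, act_mul, hA.1.2, ← act_mul, inv_mul_cancel, act_one]
  · intro A hA
    simp only [Finset.mem_coe, mem_Vx] at hA ⊢
    refine ⟨⟨H.mul_mem (H.mul_mem hB hA.1.1) (H.inv_mem hB), ?_⟩, by rw [tr_conj, hA.2]⟩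
    rw [← act_mul, inv_mul_cancel_right, act_mul, hA.1.2]
  · intro A _; simp [mul_assoc]
  · intro A _; simp [mul_assoc]

lemma w_conj (hH : (-1 : SL(2, F)) ∈ H) (x : OnePoint K) (B : SL(2, F)) (hB : B ∈ H) :
    w K H (act K B x) = w K H x := by
  have h1 := w_eq K H hH x
  have h2 := w_eq K H hH (act K B x)
  rw [Hx_conj K H x B hB, Vx_conj K H x B hB] at h2
  omega

lemma orb_subset_Xs (x : OnePoint K) (hx : x ∈ Xs K H) : orb K H x ⊆ Xs K H := by
  intro y hy
  obtain ⟨B, hB, rfl⟩ := (mem_orb K H x y).mp hy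
  obtain ⟨A, hA, hA', hAx⟩ := (mem_Xs K H x).mp hx
  rw [mem_Xs]
  refine ⟨B * A * B⁻¹, H.mul_mem (H.mul_mem hB hA) (H.inv_mem hB), ?_, ?_⟩
  · rintro (h | h)
    · apply hA'
      left
      have : A = B⁻¹ * (B * A * B⁻¹) * B := by group
      rw [this, h]; group
    · apply hA'
      right
      have : A = B⁻¹ * (B * A * B⁻¹) * B := by group
      rw [this, h]; simp
  · rw [← act_mul, inv_mul_cancel_right, act_mul, hAx]

lemma sum_orb (hH : (-1 : SL(2, F)) ∈ H) (x : OnePoint K) :
    ∑ y ∈ orb K H x, w K H y = (orb K H x).card * w K H x := by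
  rw [← smul_eq_mul, ← Finset.sum_const]
  apply Finset.sum_congr rfl
  intro y hy
  obtain ⟨B, hB, rfl⟩ := (mem_orb K H x y).mp hy
  exact w_conj K H hH x B hB

end Pool.Agent.Helper669_gp
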