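import Mathlib
import Pool.Agent.Helper669_gp.Dick1
import Pool.Agent.Helper669_gp.Ar

/-!
Stabilisers of points and their unipotent parts.
-/

namespace Pool.Agent.Helper669_gp

open scoped MatrixGroups OnePoint
open Finset

set_option linter.unusedSectionVars false

variable {F : Type} [Field F] [Fintype F] [DecidableEq F] (K : Type) [Field K] [DecidableEq K]
  [Algebra F K] [IsAlgClosed K]

noncomputable local instance : DecidableEq (OnePoint K) := Classical.decEq _

variable (H : Subgroup SL(2, F))

/-- the stabiliser as a subgroup -/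
def stS (x : OnePoint K) : Subgroup SL(2, F) where
  carrier := {A | A ∈ H ∧ act K A x = x}
  one_mem' := ⟨H.one_mem, act_one K x⟩
  mul_mem' := fun {A B} hA hB => ⟨H.mul_mem hA.1 hB.1, by rw [act_mul, hB.2, hA.2]⟩
  inv_mem' := fun {A} hA => ⟨H.inv_mem hA.1, by rw [act_inv_eq, hA.2]⟩

lemma mem_stS (x : OnePoint K) (A : SL(2, F)) : A ∈ stS K H x ↔ A ∈ H ∧ act K A x = x := Iff.rfl

/-- the square of the eigenvalue as a homomorphism -/
noncomputable def evH (x : OnePoint K) : stS K H x →* Kˣ where
  toFun A := Units.mk0 ((ev K A.1 x) ^ 2) (pow_ne_zero 2 (ev_ne_zero K A.1 x A.2.2))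
  map_one' := by
    ext
    simp [ev_one]
  map_mul' A B := by
    ext
    simp only [Units.val_mk0, Units.val_mul, Subgroup.coe_mul]
    rw [ev_mul K A.1 B.1 x A.2.2 B.2.2]; ring

lemma evH_apply (x : OnePoint K) (A : stS K H x) : ((evH K H x A : Kˣ) : K) = (ev K A.1 x) ^ 2 :=
  rfl

lemma evH_ker (x : OnePoint K) (A : stS K H x) : A ∈ (evH K H x).ker ↔ (tr A.1) ^ 2 = 4 := by
  rw [MonoidHom.mem_ker, ← ev_sq_iff K A.1 x A.2.2, ← evH_apply]
  exact Units.ext_iff

/-- the unipotent part as a subgroup -/
def vS (x : OnePoint K) : Subgroup SL(2, F) where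
  carrier := {A | (A ∈ H ∧ act K A x = x) ∧ tr A = 2}
  one_mem' := ⟨⟨H.one_mem, act_one K x⟩, tr_one⟩
  mul_mem' := fun {A B} hA hB => by
    have h1 := (ev_eq_one_iff K A x hA.1.2).mpr hA.2
    have h2 := (ev_eq_one_iff K B x hB.1.2).mpr hB.2
    have h3 : act K (A * B) x = x := by rw [act_mul, hB.1.2, hA.1.2]
    refine ⟨⟨H.mul_mem hA.1.1 hB.1.1, h3⟩, ?_⟩
    rw [← ev_eq_one_iff K (A * B) x h3, ev_mul K A B x hA.1.2 hB.1.2, h1, h2, mul_one]
  inv_mem' := fun {A} hA => ⟨⟨H.inv_mem hA.1.1, by rw [act_inv_eq, hA.1.2]⟩, by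
    rw [tr_inv]; exact hA.2⟩

lemma mem_vS (x : OnePoint K) (A : SL(2, F)) :
    A ∈ vS K H x ↔ (A ∈ H ∧ act K A x = x) ∧ tr A = 2 := Iff.rfl

lemma card_stS (x : OnePoint K) : Nat.card (stS K H x) = (Hx K H x).card := by
  classical
  rw [← Fintype.card_coe, ← Nat.card_eq_fintype_card]
  apply Nat.card_congr
  apply Equiv.subtypeEquivRight
  intro A
  rw [mem_Hx]; exact Iff.rfl

lemma card_vS (x : OnePoint K) : Nat.card (vS K H x) = (Vx K H x).card := by
  classical
  rw [← Fintype.card_coe, ← Nat.card_eq_fintype_card]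
  apply Nat.card_congr
  apply Equiv.subtypeEquivRight
  intro A
  rw [mem_Vx]; exact Iff.rfl

lemma card_H : Nat.card H = (Hs H).card := by
  classical
  rw [← Fintype.card_coe, ← Nat.card_eq_fintype_card]
  apply Nat.card_congr
  apply Equiv.subtypeEquivRight
  intro A
  rw [mem_Hs]

lemma card_ker (hH : (-1 : SL(2, F)) ∈ H) (x : OnePoint K) :
    Nat.card (evH K H x).ker = zz F * (Vx K H x).card := by
  classical
  rw [← card_U K H hH x, ← Fintype.card_coe, ← Nat.card_eq_fintype_card]
  refine Nat.card_congr ⟨fun A => ⟨A.1.1, ?_⟩, fun A => ⟨⟨A.1, ?_⟩, ?_⟩, fun A => rfl,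
    fun A => rfl⟩
  · have h1 := A.2
    rw [evH_ker] at h1
    rw [mem_filter, mem_Hx]
    exact ⟨A.1.2, h1⟩
  · have h1 := A.2
    rw [mem_filter, mem_Hx] at h1
    exact h1.1
  · have h1 := A.2
    rw [mem_filter, mem_Hx] at h1
    rw [evH_ker]
    exact h1.2

lemma zz_pos : 1 ≤ zz F := by rw [zz]; split_ifs <;> omega
lemma zz_le : zz F ≤ 2 := by rw [zz]; split_ifs <;> omega
lemma vx_pos (x : OnePoint K) : 1 ≤ (Vx K H x).card :=
  Finset.card_pos.mpr ⟨1, by rw [mem_Vx]; exact ⟨⟨H.one_mem, act_one K x⟩, tr_one⟩⟩
lemma hx_pos (x : OnePoint K) : 1 ≤ (Hx K H x).card :=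
  Finset.card_pos.mpr ⟨1, by rw [mem_Hx]; exact ⟨H.one_mem, act_one K x⟩⟩

/-- the order of the image of the stabiliser in the torus -/
noncomputable def ex (x : OnePoint K) : ℕ := Nat.card (evH K H x).range

lemma hx_eq (hH : (-1 : SL(2, F)) ∈ H) (x : OnePoint K) :
    (Hx K H x).card = zz F * (Vx K H x).card * ex K H x := by
  rw [← card_stS, ← card_ker K H hH x, ex]
  have h1 := Subgroup.card_eq_card_quotient_mul_card_subgroup (evH K H x).ker
  rw [h1, Nat.card_congr (QuotientGroup.quotientKerEquivRange (evH K H x)).toEquiv, mul_comm]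

lemma ex_pos (x : OnePoint K) : 1 ≤ ex K H x := by
  have : Finite (evH K H x).range := by
    exact Finite.of_surjective (evH K H x).rangeRestrict (evH K H x).rangeRestrict_surjective
  exact Nat.card_pos

lemma ev_pow_ex (x : OnePoint K) (A : SL(2, F)) (hA : A ∈ H) (hx : act K A x = x) :
    ((ev K A x) ^ 2) ^ (ex K H x) = 1 := by
  have h1 : (⟨evH K H x ⟨A, hA, hx⟩, ⟨_, rfl⟩⟩ : (evH K H x).range) ^ (ex K H x) = 1 :=
    pow_card_eq_one'
  have h2 := congrArg (fun u : (evH K H x).range => ((u : Kˣ) : K)) h1
  simpa [evH_apply] using h2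

/-- conjugation by the stabiliser acts on non-trivial unipotents with stabilisers of order
`z v` -/
lemma comm_iff (x : OnePoint K) (u B : SL(2, F)) (hu : act K u x = x) (htu : tr u = 2)
    (hu1 : u ≠ 1) (hB : act K B x = x) : B * u * B⁻¹ = u ↔ (tr B) ^ 2 = 4 := by
  have hi := (algebraMap F K).injective
  have hcomm : B * u * B⁻¹ = u ↔ B * u = u * B := by
    constructor
    · intro h; nth_rewrite 2 [← h]; group
    · intro h; rw [h]; group
  rw [hcomm, ← ev_sq_iff K B x hB]
  have hev := (ev_eq_one_iff K u x hu).mpr htu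
  have hdu := congrArg (algebraMap F K) (det_eq u)
  have hdB := congrArg (algebraMap F K) (det_eq B)
  have htu' := congrArg (algebraMap F K) htu
  simp only [map_sub, map_mul, map_one] at hdu hdB
  rw [tr, map_add, map_ofNat] at htu'
  have hext : B * u = u * B ↔
      (algebraMap F K (u 1 0) * algebraMap F K (B 0 1) =
        algebraMap F K (u 0 1) * algebraMap F K (B 1 0) ∧
      algebraMap F K (u 0 1) * (algebraMap F K (B 0 0) - algebraMap F K (B 1 1)) =
        algebraMap F K (B 0 1) * (algebraMap F K (u 0 0) - algebraMap F K (u 1 1)) ∧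
      algebraMap F K (u 1 0) * (algebraMap F K (B 0 0) - algebraMap F K (B 1 1)) =
        algebraMap F K (B 1 0) * (algebraMap F K (u 0 0) - algebraMap F K (u 1 1))) := by
    constructor
    · intro h
      have h00 := congrArg (fun M : SL(2, F) => algebraMap F K (M 0 0)) h
      have h01 := congrArg (fun M : SL(2, F) => algebraMap F K (M 0 1)) h
      have h10 := congrArg (fun M : SL(2, F) => algebraMap F K (M 1 0)) h
      simp only [mul00, mul01, mul10, map_add, map_mul] at h00 h01 h10
      refine ⟨?_, ?_, ?_⟩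
      · linear_combination h00
      · linear_combination h01
      · linear_combination -h10
    · rintro ⟨h1, h2, h3⟩
      apply sl_ext <;> apply hi <;> simp only [mul00, mul01, mul10, mul11, map_add, map_mul]
      · linear_combination h1
      · linear_combination h2
      · linear_combination -h3
      · linear_combination -h1
  rw [hext]
  have hne : algebraMap F K (u 0 1) ≠ 0 ∨ algebraMap F K (u 1 0) ≠ 0 := by
    by_contra hcon
    push Not at hcon
    apply hu1
    have e1 := hcon.1
    have e2 := hcon.2
    induction x using OnePoint.rec with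
    | infty =>
      rw [ev_infty] at hev
      have h11 : algebraMap F K (u 1 1) = 1 := by linear_combination htu' - hev
      exact sl_ext (hi (by rw [hev, one00, map_one])) (hi (by rw [e1, one01, map_zero]))
        (hi (by rw [e2, one10, map_zero])) (hi (by rw [h11, one11, map_one]))
    | coe k =>
      rw [ev_coe, e2] at hev
      have h11 : algebraMap F K (u 1 1) = 1 := by linear_combination hev
      have h00 : algebraMap F K (u 0 0) = 1 := by linear_combination htu' - h11
      exact sl_ext (hi (by rw [h00, one00, map_one])) (hi (by rw [e1, one01, map_zero]))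
        (hi (by rw [e2, one10, map_zero])) (hi (by rw [h11, one11, map_one]))
  induction x using OnePoint.rec with
  | infty =>
    rw [act_infty] at hu hB
    rw [ev_infty] at hev ⊢
    rw [hu, map_zero] at hne hdu
    rw [hB, map_zero] at hdB
    rw [hu, hB, map_zero]
    have h11 : algebraMap F K (u 1 1) = 1 := by linear_combination htu' - hev
    rw [hev, h11]
    have hne' : algebraMap F K (u 0 1) ≠ 0 := by
      rcases hne with h | h
      · exact h
      · exact absurd rfl h
    constructor
    · rintro ⟨-, h2, -⟩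
      have h3 : algebraMap F K (B 0 0) - algebraMap F K (B 1 1) = 0 := by
        have h4 : algebraMap F K (u 0 1) *
            (algebraMap F K (B 0 0) - algebraMap F K (B 1 1)) = 0 := by
          rw [h2]; ring
        exact (mul_eq_zero.mp h4).resolve_left hne'
      linear_combination hdB + algebraMap F K (B 0 0) * h3
    · intro h
      have hb0 : algebraMap F K (B 0 0) ≠ 0 := by
        intro h0; rw [h0] at h; norm_num at h
      have h3 : algebraMap F K (B 0 0) - algebraMap F K (B 1 1) = 0 := by
        have h4 : algebraMap F K (B 0 0) *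
            (algebraMap F K (B 0 0) - algebraMap F K (B 1 1)) = 0 := by
          linear_combination h - hdB
        exact (mul_eq_zero.mp h4).resolve_left hb0
      refine ⟨by ring, ?_, by ring⟩
      rw [h3]; ring
  | coe k =>
    rw [act_coe] at hu hB
    rw [ev_coe] at hev ⊢
    set ua := algebraMap F K (u 0 0)
    set ub := algebraMap F K (u 0 1)
    set uc := algebraMap F K (u 1 0)
    set ud := algebraMap F K (u 1 1)
    set a := algebraMap F K (B 0 0)
    set b := algebraMap F K (B 0 1)
    set c := algebraMap F K (B 1 0)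
    set d := algebraMap F K (B 1 1)
    have hud : ud = 1 - uc * k := by linear_combination hev
    have hua : ua = 1 + uc * k := by linear_combination htu' - hev
    have hub : ub = -uc * k ^ 2 := by
      rw [hud, hua] at hu
      linear_combination -hu
    have huc : uc ≠ 0 := by
      intro h0
      rw [hub, h0] at hne
      simp at hne
    rw [hub, hua, hud]
    -- `b = c k ^ 2 + (d - a) k`
    have hb : b = c * k ^ 2 + (d - a) * k := by linear_combination -hB
    constructor
    · rintro ⟨h1, h2, h3⟩
      have h4 : a - d = 2 * c * k := by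
        have : uc * (a - d - 2 * c * k) = 0 := by linear_combination h3
        have := (mul_eq_zero.mp this).resolve_left huc
        linear_combination this
      linear_combination hdB + (c * k + d) * (-h4) + c * hb + (c * k) * (-h4) + c * k * h4 
    · intro h
      have h5 : c * k + d ≠ 0 := by
        intro h0; rw [h0] at h; norm_num at h
      have h4 : a - d = 2 * c * k := by
        have h6 : (c * k + d) * (a - d - 2 * c * k) = 0 := by
          rw [hb] at hdB
          linear_combination hdB - h
        have := (mul_eq_zero.mp h6).resolve_left h5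
        linear_combination this
      have hb' : b = - c * k ^ 2 := by
        rw [hb]; linear_combination (-k) * h4
      refine ⟨?_, ?_, ?_⟩
      · rw [hb']; ring
      · rw [hb', h4]; ring
      · rw [h4]; ring

/-- counting an invariant set of unipotents -/
lemma conj_dvd (hH : (-1 : SL(2, F)) ∈ H) (x : OnePoint K) (Y : Finset SL(2, F))
    (hY : ∀ u ∈ Y, act K u x = x ∧ tr u = 2 ∧ u ≠ 1)
    (hc : ∀ B ∈ H, act K B x = x → ∀ u ∈ Y, B * u * B⁻¹ ∈ Y) :
    ex K H x ∣ Y.card := by
  classical
  have h1 := dvd_of_act (stS K H x) (fun B u => B * u * B⁻¹) (fun y => by simp)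
    (fun a b y => by simp [mul_assoc]) Y (fun B hB u hu => hc B hB.1 hB.2 u hu)
    (zz F * (Vx K H x).card) (by
      intro u hu
      obtain ⟨h1, h2, h3⟩ := hY u hu
      rw [← card_ker K H hH x]
      apply Nat.card_congr
      apply Equiv.subtypeEquivRight
      intro B
      rw [comm_iff K x u B.1 h1 h2 h3 B.2.2, evH_ker])
  rw [card_stS, hx_eq K H hH x] at h1
  exact Nat.dvd_of_mul_dvd_mul_left (Nat.mul_pos zz_pos (vx_pos K H x)) h1

lemma ex_dvd (hH : (-1 : SL(2, F)) ∈ H) (x : OnePoint K) : ex K H x ∣ (Vx K H x).card - 1 := by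
  classical
  have h1 : ((Vx K H x).erase 1).card = (Vx K H x).card - 1 :=
    Finset.card_erase_of_mem (by rw [mem_Vx]; exact ⟨⟨H.one_mem, act_one K x⟩, tr_one⟩)
  rw [← h1]
  apply conj_dvd K H hH x
  · intro u hu
    rw [Finset.mem_erase, mem_Vx] at hu
    exact ⟨hu.2.1.2, hu.2.2, hu.1⟩
  · intro B hB hBx u hu
    rw [Finset.mem_erase, mem_Vx] at hu ⊢
    refine ⟨?_, ⟨H.mul_mem (H.mul_mem hB hu.2.1.1) (H.inv_mem hB), ?_⟩, ?_⟩
    · intro h
      apply hu.1
      have : u = B⁻¹ * (B * u * B⁻¹) * B := by group
      rw [this, h]; group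
    · rw [act_mul, act_mul, (act_inv_eq K B x x).mpr hBx.symm, hu.2.1.2, hBx]
    · rw [tr_conj, hu.2.2]

/-- the unipotent part acts freely on the rest of the orbit -/
lemma vx_dvd (x : OnePoint K) : (Vx K H x).card ∣ (orb K H x).card - 1 := by
  classical
  have h0 : ((orb K H x).erase x).card = (orb K H x).card - 1 :=
    Finset.card_erase_of_mem (mem_orb_self K H x)
  have h1 := dvd_of_act (vS K H x) (fun B y => act K B y) (fun y => act_one K y)
    (fun a b y => act_mul K a b y) ((orb K H x).erase x) (by
      intro A hA y hy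
      rw [mem_vS] at hA
      rw [Finset.mem_erase] at hy ⊢
      refine ⟨?_, ?_⟩
      · intro h
        apply hy.1
        have h2 := (act_inv_eq K A x y).mpr h.symm
        rw [(act_inv_eq K A x x).mpr hA.1.2.symm] at h2
        exact h2.symm
      · rw [mem_orb] at hy ⊢
        obtain ⟨C, hC, hCy⟩ := hy.2
        exact ⟨A * C, H.mul_mem hA.1.1 hC, by rw [act_mul, hCy]⟩)
    1 (by
      intro y hy
      rw [Finset.mem_erase] at hy
      rw [Nat.card_eq_one_iff_unique]
      refine ⟨⟨?_⟩, ⟨⟨1, act_one K y⟩⟩⟩
      have key : ∀ A : {a : vS K H x // act K a.1 y = y}, A.1.1 = 1 := by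
        intro A
        by_contra hne
        have hA := A.1.2
        rw [mem_vS] at hA
        have hnc : ¬ Cen A.1.1 := by
          rintro (h | h)
          · exact hne h
          · apply hne
            rw [h, tr_neg, tr_one] at hA
            have h4 : (2 : F) * 2 = 0 := by linear_combination -hA.2
            rw [h]
            exact neg_one_eq (mul_self_eq_zero.mp h4)
        have ht : (tr A.1.1) ^ 2 = 4 := by rw [hA.2]; norm_num
        obtain ⟨x', hx'⟩ := fix_unip K A.1.1 hnc ht
        have h5 := (hx' x).mp hA.1.2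
        have h6 := (hx' y).mp A.2
        exact hy.1 (h6.trans h5.symm)
      intro A B
      exact Subtype.ext (Subtype.ext ((key A).trans (key B).symm)))
  rw [card_vS, one_mul, h0] at h1
  exact h1

end Pool.Agent.Helper669_gp
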