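import Mathlib
import Pool.Agent.Helper669_gp.Dick2

/-!
The orbit equation of a subgroup of `SL_2(F)` on the points with non-trivial stabiliser.
-/

namespace Pool.Agent.Helper669_gp

open scoped MatrixGroups OnePoint
open Finset

set_option linter.unusedSectionVars false

variable {F : Type} [Field F] [Fintype F] [DecidableEq F] (K : Type) [Field K] [DecidableEq K]
  [Algebra F K] [IsAlgClosed K]

noncomputable local instance : DecidableEq (OnePoint K) := Classical.decEq _

variable (H : Subgroup SL(2, F))

/-- the order of `H` modulo the centre -/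
lemma exists_g (hH : (-1 : SL(2, F)) ∈ H) : ∃ g : ℕ, 1 ≤ g ∧ (Hs H).card = zz F * g ∧
    ∀ x, (orb K H x).card * (Vx K H x).card * ex K H x = g := by
  have h1 := fun x => orb_card K H x
  have h2 : zz F ∣ (Hs H).card := by
    rw [← h1 ∞, hx_eq K H hH ∞]
    exact ⟨(orb K H ∞).card * ((Vx K H ∞).card * ex K H ∞), by ring⟩
  obtain ⟨g, hg⟩ := h2
  refine ⟨g, ?_, hg, ?_⟩
  · rcases Nat.eq_zero_or_pos g with h | h
    · rw [h, mul_zero] at hg
      have : 1 ∈ Hs H := (mem_Hs H 1).mpr H.one_mem
      rw [Finset.card_eq_zero] at hg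
      rw [hg] at this
      exact absurd this (Finset.notMem_empty _)
    · exact h
  · intro x
    apply Nat.eq_of_mul_eq_mul_left (show 0 < zz F from zz_pos)
    rw [← hg, ← h1 x, hx_eq K H hH x]
    ring

/-- contribution of an orbit -/
lemma cost (hH : (-1 : SL(2, F)) ∈ H) (g : ℕ) (x : OnePoint K)
    (hx : (orb K H x).card * (Vx K H x).card * ex K H x = g) :
    ∃ c : ℕ, ∑ y ∈ orb K H x, w K H y = zz F * c ∧
      c + 2 * (orb K H x).card = g + (orb K H x).card * (Vx K H x).card := by
  rw [sum_orb K H hH x]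
  have h1 := w_eq K H hH x
  rw [hx_eq K H hH x] at h1
  set n := (orb K H x).card
  set v := (Vx K H x).card with hv
  set e := ex K H x with he
  have hv1 : 1 ≤ v := vx_pos K H x
  have he1 : 1 ≤ e := ex_pos K H x
  have h2 : 2 * n ≤ g + n * v := by
    rw [← hx]
    have h3 : n * 1 ≤ n * v := Nat.mul_le_mul_left _ hv1
    have h4 : n * v * 1 ≤ n * v * e := Nat.mul_le_mul_left _ he1
    omega
  refine ⟨g + n * v - 2 * n, ?_, by omega⟩
  have h5 : n * (w K H x + 2 * zz F) = n * (zz F * v * e + zz F * v) := by rw [h1]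
  have h6 : n * (zz F * v * e + zz F * v) = zz F * (g + n * v) := by rw [← hx]; ring
  have h7 : zz F * (g + n * v - 2 * n) + zz F * (2 * n) = zz F * (g + n * v) := by
    rw [← mul_add, Nat.sub_add_cancel h2]
  have h8 : n * (w K H x + 2 * zz F) = n * w K H x + zz F * (2 * n) := by ring
  omega

/-- unions of orbits -/
def Stb (S : Finset (OnePoint K)) : Prop := S ⊆ Xs K H ∧ ∀ x ∈ S, orb K H x ⊆ S

lemma stb_Xs : Stb K H (Xs K H) := ⟨Finset.Subset.refl _, fun x hx => orb_subset_Xs K H x hx⟩

lemma stb_sdiff (S : Finset (OnePoint K)) (hS : Stb K H S) (x : OnePoint K) (_hx : x ∈ S) :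
    Stb K H (S \ orb K H x) := by
  refine ⟨fun y hy => hS.1 (Finset.mem_sdiff.mp hy).1, ?_⟩
  intro y hy z hz
  rw [Finset.mem_sdiff] at hy ⊢
  refine ⟨hS.2 y hy.1 hz, ?_⟩
  intro hzx
  apply hy.2
  have h1 := orb_eq_of_mem K H y z hz
  have h2 := orb_eq_of_mem K H x z hzx
  rw [← h2, h1]
  exact mem_orb_self K H y

lemma peel (S : Finset (OnePoint K)) (hS : Stb K H S) (x : OnePoint K) (hx : x ∈ S) :
    ∑ y ∈ S, w K H y = ∑ y ∈ orb K H x, w K H y + ∑ y ∈ S \ orb K H x, w K H y := by
  rw [add_comm, Finset.sum_sdiff (hS.2 x hx)]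

/-- a point of `Xs` has a stabiliser bigger than the centre -/
lemma ve_ge (hH : (-1 : SL(2, F)) ∈ H) (x : OnePoint K) (hx : x ∈ Xs K H) :
    2 ≤ (Vx K H x).card * ex K H x := by
  classical
  obtain ⟨A, hA, hAc, hAx⟩ := (mem_Xs K H x).mp hx
  have h1 := card_cen H hH
  have h2 : ((Hs H).filter fun A => Cen A) ⊂ Hx K H x := by
    rw [Finset.ssubset_iff_of_subset]
    · refine ⟨A, ?_, ?_⟩
      · rw [mem_Hx]; exact ⟨hA, hAx⟩
      · rw [mem_filter]; exact fun h => hAc h.2
    · intro B hB
      rw [mem_filter, mem_Hs] at hB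
      rw [mem_Hx]
      refine ⟨hB.1, ?_⟩
      rcases hB.2 with rfl | rfl
      · exact act_one K x
      · rw [act_neg, act_one]
  have h3 := Finset.card_lt_card h2
  rw [h1, hx_eq K H hH x] at h3
  by_contra hcon
  have h4 : (Vx K H x).card * ex K H x ≤ 1 := by omega
  have h5 : zz F * (Vx K H x).card * ex K H x ≤ zz F * 1 := by
    rw [mul_assoc]; exact Nat.mul_le_mul_left _ h4
  omega

/-- the trichotomy -/
lemma orbits (hH : (-1 : SL(2, F)) ∈ H) (g : ℕ) (hg1 : 1 ≤ g) (hg : (Hs H).card = zz F * g)
    (hx : ∀ x, (orb K H x).card * (Vx K H x).card * ex K H x = g) :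
    -- all elements central
    (Hs H).card = zz F ∨
    -- fixed point
    (∃ x, (orb K H x).card = 1) ∨
    -- orbit of length two
    (∃ x, (orb K H x).card = 2) ∨
    -- small
    (g = 12 ∨ g = 24 ∨ g = 60) ∨
    -- one wild orbit and one tame orbit
    (∃ x y, 4 ≤ (Vx K H x).card ∧ (orb K H x).card = (Vx K H x).card + 1 ∧
      g = (Vx K H x).card * ((Vx K H x).card + 1) * ex K H x ∧
      (Vx K H x).card - 1 ∣ 2 * ex K H x ∧ (Vx K H y).card = 1 ∧
      (orb K H y).card = (orb K H x).card * ((Vx K H x).card - 2) + 2 ∧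
      Xs K H ⊆ orb K H x ∪ orb K H y) := by
  classical
  have hz : 1 ≤ zz F := zz_pos
  have hW : ∑ x ∈ Xs K H, w K H x + 2 * zz F = zz F * (2 * g) := by
    have h1 := sum_w K H
    have h2 := card_NC H hH
    rw [h1]
    have : 2 * (NC H).card + 2 * zz F = 2 * ((NC H).card + zz F) := by ring
    rw [this, h2, hg]; ring
  -- numerical form of `cost`
  have hc : ∀ x, ∃ c : ℕ, ∑ y ∈ orb K H x, w K H y = zz F * c ∧
      c + 2 * (orb K H x).card = g + (orb K H x).card * (Vx K H x).card :=
    fun x => cost K H hH g x (hx x)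
  have hn1 : ∀ x, 1 ≤ (orb K H x).card := fun x =>
    Finset.card_pos.mpr ⟨x, mem_orb_self K H x⟩
  -- every orbit in `Xs` costs at least `g / 2`
  have hhalf : ∀ x ∈ Xs K H, ∀ c, c + 2 * (orb K H x).card =
      g + (orb K H x).card * (Vx K H x).card → g ≤ 2 * c := by
    intro x hxX c hcx
    have h1 := ve_ge K H hH x hxX
    have h2 := hx x
    have hv := vx_pos K H x
    rcases Nat.lt_or_ge (Vx K H x).card 2 with h3 | h3
    · have h4 : (Vx K H x).card = 1 := by omega
      rw [h4] at h1 h2 hcx
      have h5 : (orb K H x).card * 1 * 2 ≤ (orb K H x).card * 1 * ex K H x :=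
        Nat.mul_le_mul_left _ (by omega)
      omega
    · have h5 : (orb K H x).card * 2 ≤ (orb K H x).card * (Vx K H x).card :=
        Nat.mul_le_mul_left _ h3
      omega
  have hbig : ∀ x c, c + 2 * (orb K H x).card =
      g + (orb K H x).card * (Vx K H x).card → 2 ≤ (Vx K H x).card → g ≤ c := by
    intro x c hcx h3
    have h5 : (orb K H x).card * 2 ≤ (orb K H x).card * (Vx K H x).card :=
      Nat.mul_le_mul_left _ h3
    omega
  have cancel : ∀ a b : ℕ, zz F * a + 2 * zz F = zz F * b → a + 2 = b := by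
    intro a b hab
    apply Nat.eq_of_mul_eq_mul_left (show 0 < zz F from zz_pos)
    rw [← hab]; ring
  by_cases hwild : ∃ x ∈ Xs K H, 2 ≤ (Vx K H x).card
  · obtain ⟨x, hxX, hv⟩ := hwild
    obtain ⟨c, hc1, hc2⟩ := hc x
    have hp1 := peel K H (Xs K H) (stb_Xs K H) x hxX
    have hst1 := stb_sdiff K H (Xs K H) (stb_Xs K H) x hxX
    set S1 := Xs K H \ orb K H x with hS1
    by_cases hS1e : S1 = ∅
    · -- one orbit
      rw [hS1e, Finset.sum_empty, add_zero, hc1] at hp1
      rw [hp1] at hW
      have h3 := cancel _ _ hW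
      right; left
      refine ⟨x, ?_⟩
      have h4 := hx x
      have he := ex_pos K H x
      have h5 := hn1 x
      set n := (orb K H x).card
      set v := (Vx K H x).card
      set e := ex K H x
      -- c = 2 g - 2, c + 2 n = g + n v, n v e = g
      have h6 : n * v * 1 ≤ n * v * e := Nat.mul_le_mul_left _ he
      have h7 : g + 2 * n = n * v + 2 := by omega
      have h8 : 2 * n ≤ 2 := by omega
      omega
    · obtain ⟨y, hy⟩ := Finset.nonempty_iff_ne_empty.mpr hS1e
      have hyX := hst1.1 hy
      obtain ⟨c', hc1', hc2'⟩ := hc y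
      have hp2 := peel K H S1 hst1 y hy
      have hst2 := stb_sdiff K H S1 hst1 y hy
      set S2 := S1 \ orb K H y with hS2
      have hgc : g ≤ c := hbig x c hc2 hv
      have hS2e : S2 = ∅ := by
        by_contra hne
        obtain ⟨y', hy'⟩ := Finset.nonempty_iff_ne_empty.mpr hne
        have hyX' := hst2.1 hy'
        obtain ⟨c'', hc1'', hc2''⟩ := hc y'
        have hp3 := peel K H S2 hst2 y' hy'
        have h1 := hhalf y hyX c' hc2'
        have h2 := hhalf y' hyX' c'' hc2''
        have h3 : zz F * (c + c' + c'') ≤ ∑ x ∈ Xs K H, w K H x := by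
          rw [hp1, hp2, hp3, hc1, hc1', hc1'']
          have : zz F * (c + c' + c'') = zz F * c + (zz F * c' + zz F * c'') := by ring
          omega
        have h4 : zz F * (c + c' + c'') < zz F * (2 * g) := by omega
        have h5 := Nat.lt_of_mul_lt_mul_left h4
        omega
      rw [hS2e, Finset.sum_empty, add_zero, hc1'] at hp2
      rw [hp1, hp2, hc1] at hW
      have h3 := cancel (c + c') (2 * g) (by rw [← hW]; ring)
      have hv' : (Vx K H y).card = 1 := by
        by_contra hne
        have := vx_pos K H y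
        have := hbig y c' hc2' (by omega)
        omega
      rw [hv'] at hc2'
      have hne := hx x
      have hne' := hx y
      rw [hv'] at hne'
      have he := ex_pos K H x
      have hn := hn1 x
      have hdv := vx_dvd K H x
      have hde := ex_dvd K H hH x
      have hmul : (orb K H x).card * (Vx K H x).card =
          (orb K H x).card * ((Vx K H x).card - 2) + 2 * (orb K H x).card := by
        obtain ⟨u, hu⟩ : ∃ u, (Vx K H x).card = u + 2 := ⟨(Vx K H x).card - 2, by omega⟩
        rw [hu, Nat.add_sub_cancel]; ring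
      have hn' : (orb K H y).card = (orb K H x).card * ((Vx K H x).card - 2) + 2 := by omega
      rcases ar_wild g (orb K H x).card (Vx K H x).card (ex K H x) (orb K H y).card (ex K H y)
        hv he hn hne (by rw [← hne']; ring) hdv hde hn' with h | h | h | h | h | h
      · right; left; exact ⟨x, h⟩
      · right; right; left; exact ⟨y, h⟩
      · right; right; right; left; exact Or.inl h
      · right; right; right; left; exact Or.inr (Or.inl h)
      · right; right; right; left; exact Or.inr (Or.inr h)
      · right; right; right; right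
        refine ⟨x, y, h.1, h.2.1, h.2.2.1, h.2.2.2, hv', hn', ?_⟩
        intro t ht
        rw [Finset.mem_union]
        by_contra hcon
        push Not at hcon
        have : t ∈ S2 := by
          rw [hS2, Finset.mem_sdiff, hS1, Finset.mem_sdiff]
          exact ⟨⟨ht, hcon.1⟩, hcon.2⟩
        rw [hS2e] at this
        exact absurd this (Finset.notMem_empty _)
  · -- only tame orbits
    push Not at hwild
    have hv1 : ∀ x ∈ Xs K H, (Vx K H x).card = 1 := by
      intro x hxX
      have := hwild x hxX
      have := vx_pos K H x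
      omega
    by_cases hS0 : Xs K H = ∅
    · left
      rw [hS0, Finset.sum_empty] at hW
      rw [hg]
      have h1 := cancel 0 (2 * g) (by omega)
      have : g = 1 := by omega
      rw [this, mul_one]
    obtain ⟨x, hxX⟩ := Finset.nonempty_iff_ne_empty.mpr hS0
    obtain ⟨c, hc1, hc2⟩ := hc x
    have hp1 := peel K H (Xs K H) (stb_Xs K H) x hxX
    have hst1 := stb_sdiff K H (Xs K H) (stb_Xs K H) x hxX
    have hvx := hv1 x hxX
    have hex := ve_ge K H hH x hxX
    have hnx := hx x
    have hn := hn1 x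
    have hhx := hhalf x hxX c hc2
    rw [hvx] at hc2 hex hnx
    set S1 := Xs K H \ orb K H x with hS1
    by_cases hS1e : S1 = ∅
    · exfalso
      rw [hS1e, Finset.sum_empty, add_zero, hc1] at hp1
      rw [hp1] at hW
      have h3 := cancel _ _ hW
      have h4 : (orb K H x).card * 1 * 2 ≤ (orb K H x).card * 1 * ex K H x :=
        Nat.mul_le_mul_left _ (by omega)
      omega
    obtain ⟨y, hy⟩ := Finset.nonempty_iff_ne_empty.mpr hS1e
    have hyX := hst1.1 hy
    obtain ⟨c', hc1', hc2'⟩ := hc y
    have hp2 := peel K H S1 hst1 y hy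
    have hst2 := stb_sdiff K H S1 hst1 y hy
    have hvy := hv1 y hyX
    have hey := ve_ge K H hH y hyX
    have hny := hx y
    have hn' := hn1 y
    have hhy := hhalf y hyX c' hc2'
    rw [hvy] at hc2' hey hny
    set S2 := S1 \ orb K H y with hS2
    by_cases hS2e : S2 = ∅
    · rw [hS2e, Finset.sum_empty, add_zero, hc1'] at hp2
      rw [hp1, hp2, hc1] at hW
      have h3 := cancel (c + c') (2 * g) (by rw [← hW]; ring)
      right; left
      exact ⟨x, by omega⟩
    obtain ⟨t, ht⟩ := Finset.nonempty_iff_ne_empty.mpr hS2e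
    have htX := hst2.1 ht
    obtain ⟨c'', hc1'', hc2''⟩ := hc t
    have hp3 := peel K H S2 hst2 t ht
    have hst3 := stb_sdiff K H S2 hst2 t ht
    have hvt := hv1 t htX
    have het := ve_ge K H hH t htX
    have hnt := hx t
    have hn'' := hn1 t
    have hht := hhalf t htX c'' hc2''
    rw [hvt] at hc2'' het hnt
    set S3' := S2 \ orb K H t with hS3
    have hS3e : S3' = ∅ := by
      by_contra hne
      obtain ⟨r, hr⟩ := Finset.nonempty_iff_ne_empty.mpr hne
      have hrX := hst3.1 hr
      obtain ⟨c3, hc13, hc23⟩ := hc r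
      have hp4 := peel K H S3' hst3 r hr
      have h1 := hhalf r hrX c3 hc23
      have h3 : zz F * (c + c' + c'' + c3) ≤ ∑ x ∈ Xs K H, w K H x := by
        rw [hp1, hp2, hp3, hp4, hc1, hc1', hc1'', hc13]
        have : zz F * (c + c' + c'' + c3) =
          zz F * c + (zz F * c' + (zz F * c'' + zz F * c3)) := by ring
        omega
      have h4 : zz F * (c + c' + c'' + c3) < zz F * (2 * g) := by omega
      have h5 := Nat.lt_of_mul_lt_mul_left h4
      omega
    rw [hS3e, Finset.sum_empty, add_zero, hc1''] at hp3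
    rw [hp1, hp2, hp3, hc1, hc1'] at hW
    have h3 := cancel (c + c' + c'') (2 * g) (by rw [← hW]; ring)
    rcases ar_three g (orb K H x).card (ex K H x) (orb K H y).card (ex K H y)
      (orb K H t).card (ex K H t) hg1 (by rw [← hnx]; ring) (by rw [← hny]; ring)
      (by rw [← hnt]; ring) (by omega) (by omega) (by omega) (by omega) with h | h | h | h
    · right; right; left; exact ⟨x, h⟩
    · right; right; left; exact ⟨y, h⟩
    · right; right; left; exact ⟨t, h⟩
    · right; right; right; left; exact h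

end Pool.Agent.Helper669_gp
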