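import Mathlib
import Pool.Agent.Helper669_gp.Dick3

/-!
A coarse form of Dickson's classification of the subgroups of `SL_2(F)` containing `-1`.
-/

namespace Pool.Agent.Helper669_gp

open scoped MatrixGroups OnePoint
open Finset

set_option linter.unusedSectionVars false

variable {F : Type} [Field F] [Fintype F] [DecidableEq F] (K : Type) [Field K] [DecidableEq K]
  [Algebra F K] [IsAlgClosed K]

noncomputable local instance : DecidableEq (OnePoint K) := Classical.decEq _

variable (H : Subgroup SL(2, F))

/-- the upper unipotent matrices -/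
def upp (s : F) : SL(2, F) := ⟨!![1, s; 0, 1], by simp [Matrix.det_fin_two]⟩

/-- the unipotent matrices fixing `k` -/
def unp (k s : F) : SL(2, F) :=
  ⟨!![1 + s * k, - s * k ^ 2; s, 1 - s * k], by rw [Matrix.det_fin_two_of]; ring⟩

lemma upp00 (s : F) : upp s 0 0 = 1 := rfl
lemma upp01 (s : F) : upp s 0 1 = s := rfl
lemma upp10 (s : F) : upp s 1 0 = 0 := rfl
lemma upp11 (s : F) : upp s 1 1 = 1 := rfl
lemma unp00 (k s : F) : unp k s 0 0 = 1 + s * k := rfl
lemma unp01 (k s : F) : unp k s 0 1 = - s * k ^ 2 := rfl
lemma unp10 (k s : F) : unp k s 1 0 = s := rfl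
lemma unp11 (k s : F) : unp k s 1 1 = 1 - s * k := rfl

/-- a point fixed by a non-trivial unipotent is rational, and is fixed by `q` unipotents -/
lemma card_Vtop (x : OnePoint K) (hx : 2 ≤ (Vx K H x).card) :
    (Vx K (⊤ : Subgroup SL(2, F)) x).card = Fintype.card F := by
  classical
  obtain ⟨u, hu, hu1⟩ : ∃ u ∈ Vx K H x, u ≠ 1 := by
    by_contra hcon
    push Not at hcon
    have : (Vx K H x).card ≤ 1 := Finset.card_le_one.mpr
      (fun a ha b hb => by rw [hcon a ha, hcon b hb])
    omega
  rw [mem_Vx] at hu
  obtain ⟨⟨_, hux⟩, htu⟩ := hu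
  have hi := (algebraMap F K).injective
  have hev := (ev_eq_one_iff K u x hux).mpr htu
  induction x using OnePoint.rec with
  | infty =>
    rw [← Finset.card_univ]
    apply Finset.card_nbij' (fun A : SL(2, F) => A 0 1) (fun s => upp s)
    · intro A _; exact Finset.mem_coe.mpr (Finset.mem_univ _)
    · intro s _
      rw [Finset.mem_coe, mem_Vx, act_infty, upp10, tr, upp00, upp11]
      exact ⟨⟨Subgroup.mem_top _, rfl⟩, by norm_num⟩
    · intro A hA
      rw [Finset.mem_coe, mem_Vx] at hA
      have h1 := (ev_eq_one_iff K A ∞ hA.1.2).mpr hA.2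
      rw [ev_infty] at h1
      have h2 : A 0 0 = 1 := hi (by rw [h1, map_one])
      have h3 := hA.2
      rw [tr] at h3
      have h4 := (act_infty K A).mp hA.1.2
      exact sl_ext (by rw [upp00, h2]) (by rw [upp01]) (by rw [upp10, h4])
        (by rw [upp11]; linear_combination h2 - h3)
    · intro s _; exact upp01 s
  | coe k =>
    -- `k` is rational
    rw [ev_coe] at hev
    have hc : u 1 0 ≠ 0 := by
      intro h0
      apply hu1
      rw [act_coe, h0, map_zero] at hux
      rw [h0, map_zero] at hev
      have h11 : u 1 1 = 1 := hi (by rw [map_one]; linear_combination hev)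
      have h00 : u 0 0 = 1 := by rw [tr] at htu; linear_combination htu - h11
      rw [h11, h00] at hux
      have h01 : u 0 1 = 0 := hi (by rw [map_zero]; linear_combination -hux)
      exact sl_ext (by rw [h00, one00]) (by rw [h01, one01]) (by rw [h0, one10])
        (by rw [h11, one11])
    have hk : k = algebraMap F K ((1 - u 1 1) / u 1 0) := by
      have hc' : algebraMap F K (u 1 0) ≠ 0 := (map_ne_zero _).mpr hc
      rw [map_div₀, map_sub, map_one, eq_div_iff hc']
      linear_combination hev
    set k₀ := (1 - u 1 1) / u 1 0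
    rw [hk, ← Finset.card_univ]
    apply Finset.card_nbij' (fun A : SL(2, F) => A 1 0) (fun s => unp k₀ s)
    · intro A _; exact Finset.mem_coe.mpr (Finset.mem_univ _)
    · intro s _
      rw [Finset.mem_coe, mem_Vx, act_coe, unp10, tr, unp00, unp11, unp01]
      refine ⟨⟨Subgroup.mem_top _, ?_⟩, by ring⟩
      rw [← map_sub, ← map_pow, ← map_mul, ← map_mul, ← map_add, ← map_sub]
      have : s * k₀ ^ 2 + (1 - s * k₀ - (1 + s * k₀)) * k₀ - -s * k₀ ^ 2 = 0 := by ring
      rw [this, map_zero]
    · intro A hA
      rw [Finset.mem_coe, mem_Vx] at hA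
      have h1 := (ev_eq_one_iff K A _ hA.1.2).mpr hA.2
      rw [ev_coe, ← map_mul, ← map_add, ← map_one (algebraMap F K)] at h1
      have h2 : A 1 0 * k₀ + A 1 1 = 1 := hi h1
      have h3 := hA.2
      rw [tr] at h3
      have h4 := (act_coe K A _).mp hA.1.2
      rw [← map_sub, ← map_pow, ← map_mul, ← map_mul, ← map_add, ← map_sub,
        ← map_zero (algebraMap F K)] at h4
      have h5 := hi h4
      have h11 : A 1 1 = 1 - A 1 0 * k₀ := by linear_combination h2
      have h00 : A 0 0 = 1 + A 1 0 * k₀ := by linear_combination h3 - h2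
      rw [h11, h00] at h5
      exact sl_ext (by rw [unp00, h00]) (by rw [unp01]; linear_combination h5) (by rw [unp10])
        (by rw [unp11, h11])
    · intro s _; exact unp10 k₀ s

lemma ex_dvd' (hH : (-1 : SL(2, F)) ∈ H) (x : OnePoint K) (hx : 2 ≤ (Vx K H x).card) :
    ex K H x ∣ Fintype.card F - 1 := by
  classical
  have h1 : ((Vx K (⊤ : Subgroup SL(2, F)) x).erase 1).card = Fintype.card F - 1 := by
    rw [Finset.card_erase_of_mem (by
      rw [mem_Vx]; exact ⟨⟨Subgroup.mem_top _, act_one K x⟩, tr_one⟩), card_Vtop K H x hx]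
  rw [← h1]
  apply conj_dvd K H hH x
  · intro u hu
    rw [Finset.mem_erase, mem_Vx] at hu
    exact ⟨hu.2.1.2, hu.2.2, hu.1⟩
  · intro B _ hBx u hu
    rw [Finset.mem_erase, mem_Vx] at hu ⊢
    refine ⟨?_, ⟨Subgroup.mem_top _, ?_⟩, ?_⟩
    · intro h
      apply hu.1
      have : u = B⁻¹ * (B * u * B⁻¹) * B := by group
      rw [this, h]; group
    · rw [act_mul, act_mul, (act_inv_eq K B x x).mpr hBx.symm, hu.2.1.2, hBx]
    · rw [tr_conj, hu.2.2]

/-- the power of a unipotent -/
lemma unip_pow (u : SL(2, F)) (hu : tr u = 2) (n : ℕ) :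
    (u ^ n) 0 0 = 1 + n * (u 0 0 - 1) ∧ (u ^ n) 0 1 = n * u 0 1 ∧ (u ^ n) 1 0 = n * u 1 0 ∧
      (u ^ n) 1 1 = 1 + n * (u 1 1 - 1) := by
  have hd := det_eq u
  rw [tr] at hu
  have h11 : u 1 1 = 2 - u 0 0 := by linear_combination hu
  rw [h11] at hd
  induction n with
  | zero => simp
  | succ n ih =>
    obtain ⟨h1, h2, h3, h4⟩ := ih
    rw [pow_succ, mul00, mul01, mul10, mul11, h1, h2, h3, h4, h11]
    push_cast
    refine ⟨?_, ?_, ?_, ?_⟩
    · linear_combination (-(n : F)) * hd
    · ring
    · ring
    · linear_combination (-(n : F)) * hd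

lemma unip_pow_char (p : ℕ) [CharP F p] (u : SL(2, F)) (hu : tr u = 2) : u ^ p = 1 := by
  obtain ⟨h1, h2, h3, h4⟩ := unip_pow u hu p
  have hp : (p : F) = 0 := CharP.cast_eq_zero F p
  rw [hp] at h1 h2 h3 h4
  exact sl_ext (by rw [h1, one00]; ring) (by rw [h2, one01]; ring) (by rw [h3, one10]; ring)
    (by rw [h4, one11]; ring)

lemma vx_pow (p : ℕ) [CharP F p] (hp : p.Prime) (x : OnePoint K) :
    ∃ k, (Vx K H x).card = p ^ k := by
  have : Fact p.Prime := ⟨hp⟩
  rw [← card_vS]
  have h : IsPGroup p (vS K H x) := by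
    intro u
    refine ⟨1, ?_⟩
    rw [pow_one]
    exact Subtype.ext (unip_pow_char p u.1 u.2.2)
  exact IsPGroup.iff_card.mp h

/-- **Coarse form of Dickson's theorem.** -/
theorem dickson (F : Type) [Field F] [Fintype F] [DecidableEq F] (K : Type) [Field K]
    [DecidableEq K] [Algebra F K] [IsAlgClosed K] (H : Subgroup SL(2, F)) (hH : -1 ∈ H) :
    (∃ x : OnePoint K, ∀ A ∈ H, act K A x = x) ∨
    (∃ x y : OnePoint K, x ≠ y ∧ ∀ A ∈ H, (act K A x = x ∧ act K A y = y) ∨
      (act K A x = y ∧ act K A y = x)) ∨
    Nat.card H ∣ 240 ∨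
    (∃ v j e : ℕ, 4 ≤ v ∧ 1 < j ∧ Fintype.card F = v ^ j ∧ e ∣ v - 1 ∧
      (Nat.card H = v * (v + 1) * e ∨ Nat.card H = 2 * (v * (v + 1) * e)) ∧
      ∀ A ∈ H, ((tr A) ^ 2) ^ v = (tr A) ^ 2) ∨
    H = ⊤ := by
  classical
  obtain ⟨g, hg1, hg, hx⟩ := exists_g K H hH
  have hz : 1 ≤ zz F := zz_pos
  have hz2 : zz F ≤ 2 := zz_le
  rcases orbits K H hH g hg1 hg hx with h | ⟨x, h⟩ | ⟨x, h⟩ | h | ⟨x, y, hv4, hn, hgv, hdiv, hvy,
    hny, hX⟩
  · -- central
    left
    refine ⟨∞, ?_⟩
    have h1 : NC H = ∅ := by
      rw [← Finset.card_eq_zero]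
      have := card_NC H hH
      omega
    intro A hA
    by_cases hAc : Cen A
    · rcases hAc with rfl | rfl
      · exact act_one K _
      · rw [act_neg, act_one]
    · have : A ∈ NC H := (mem_NC H A).mpr ⟨hA, hAc⟩
      rw [h1] at this
      exact absurd this (Finset.notMem_empty _)
  · left
    refine ⟨x, ?_⟩
    obtain ⟨a, ha⟩ := Finset.card_eq_one.mp h
    intro A hA
    have h1 : act K A x ∈ orb K H x := (mem_orb K H x _).mpr ⟨A, hA, rfl⟩
    have h2 := mem_orb_self K H x
    rw [ha, Finset.mem_singleton] at h1 h2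
    rw [h1, h2]
  · right; left
    obtain ⟨a, b, hab, hs⟩ := Finset.card_eq_two.mp h
    refine ⟨a, b, hab, ?_⟩
    have horb : ∀ A ∈ H, ∀ t ∈ orb K H x, act K A t ∈ orb K H x := by
      intro A hA t ht
      obtain ⟨B, hB, rfl⟩ := (mem_orb K H x t).mp ht
      exact (mem_orb K H x _).mpr ⟨A * B, H.mul_mem hA hB, act_mul K A B x⟩
    intro A hA
    have h1 := horb A hA a (by rw [hs]; simp)
    have h2 := horb A hA b (by rw [hs]; simp)
    rw [hs, Finset.mem_insert, Finset.mem_singleton] at h1 h2
    have hinj : act K A a ≠ act K A b := by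
      intro h3
      apply hab
      have h4 := congrArg (act K A⁻¹) h3
      rwa [← act_mul, ← act_mul, inv_mul_cancel, act_one, act_one] at h4
    rcases h1 with h1 | h1 <;> rcases h2 with h2 | h2
    · exact absurd (h1.trans h2.symm) hinj
    · left; exact ⟨h1, h2⟩
    · right; exact ⟨h1, h2⟩
    · exact absurd (h1.trans h2.symm) hinj
  · right; right; left
    rw [card_H, hg]
    have : zz F = 1 ∨ zz F = 2 := by omega
    rcases this with h1 | h1 <;> rcases h with h2 | h2 | h2 <;> rw [h1, h2] <;> decide
  · -- the wild case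
    obtain ⟨p, hpc⟩ := CharP.exists F
    obtain ⟨f, hp, hq⟩ := FiniteField.card F p
    obtain ⟨k, hk⟩ := vx_pow K H p hp x
    set v := (Vx K H x).card with hvdef
    set e := ex K H x with hedef
    have he1 : 1 ≤ e := ex_pos K H x
    have hev : e ∣ v - 1 := ex_dvd K H hH x
    have heq : e ∣ Fintype.card F - 1 := ex_dvd' K H hH x (by omega)
    have hk1 : 1 ≤ k := by
      rcases Nat.eq_zero_or_pos k with h | h
      · rw [h, pow_zero] at hk; omega
      · exact h
    have hkf : k ∣ f := by
      apply ar_dvd p k f e hp.two_le hk1 f.2 he1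
      · rw [← hk]; exact hev
      · rw [← hq]; exact heq
      · rw [← hk]; exact hdiv
    obtain ⟨j, hj⟩ := hkf
    have hqv : Fintype.card F = v ^ j := by rw [hq, hj, pow_mul, hk]
    have hj1 : 1 ≤ j := by
      rcases Nat.eq_zero_or_pos j with h | h
      · rw [h, mul_zero] at hj
        exact absurd hj f.2.ne'
      · exact h
    have hcard : Nat.card H = zz F * (v * (v + 1) * e) := by rw [card_H, hg, hgv]
    -- `2 e` is `v - 1` or `2 (v - 1)`
    have h2e : 2 * e = v - 1 ∨ e = v - 1 := by
      obtain ⟨s, hs⟩ := hev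
      obtain ⟨r, hr⟩ := hdiv
      have hs1 : 1 ≤ s := by
        rcases Nat.eq_zero_or_pos s with h | h
        · rw [h] at hs; omega
        · exact h
      have hr1 : 1 ≤ r := by
        rcases Nat.eq_zero_or_pos r with h | h
        · rw [h] at hr; omega
        · exact h
      -- 2 e = e s r
      have h3 : e * (s * r) = e * 2 := by
        rw [← mul_assoc, ← hs, ← hr]; ring
      have h4 : s * r = 2 := Nat.eq_of_mul_eq_mul_left (by omega) h3
      have h5 : s ≤ 2 := by
        have : s * 1 ≤ s * r := Nat.mul_le_mul_left _ hr1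
        omega
      interval_cases s
      · right; omega
      · left; omega
    rcases Nat.lt_or_ge 1 j with hj2 | hj2
    · right; right; right; left
      refine ⟨v, j, e, hv4, hj2, hqv, hev, ?_, ?_⟩
      · have : zz F = 1 ∨ zz F = 2 := by omega
        rcases this with h1 | h1
        · left; rw [hcard, h1, one_mul]
        · right; rw [hcard, h1]
      · -- traces
        have : Fact p.Prime := ⟨hp⟩
        have : CharP K p := charP_of_injective_algebraMap (algebraMap F K).injective p
        have : ExpChar K p := ExpChar.prime hp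
        have : ExpChar F p := ExpChar.prime hp
        have hfour : ∀ A : SL(2, F), (tr A) ^ 2 = 4 → ((tr A) ^ 2) ^ v = (tr A) ^ 2 := by
          intro A h4
          rw [h4, hk, ← iterateFrobenius_def (R := F) p k 4]
          exact map_ofNat (iterateFrobenius F p k) 4
        have hpow : ∀ μ : K, μ ≠ 0 → (μ ^ v = μ ∨ μ ^ v = μ⁻¹) →
            (μ + 2 + μ⁻¹) ^ v = μ + 2 + μ⁻¹ := by
          intro μ hμ h
          have h1 : (μ + 2 + μ⁻¹) ^ v = μ ^ v + 2 + (μ ^ v)⁻¹ := by
            rw [hk, ← iterateFrobenius_def (R := K) p k, ← iterateFrobenius_def (R := K) p k,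
              map_add, map_add, map_ofNat, map_inv₀]
          rw [h1]
          rcases h with h | h
          · rw [h]
          · rw [h, inv_inv]; ring
        intro A hA
        by_cases hAc : Cen A
        · apply hfour
          rcases hAc with rfl | rfl
          · rw [tr_one]; norm_num
          · rw [tr_neg, tr_one]; norm_num
        by_cases h4 : (tr A) ^ 2 = 4
        · exact hfour A h4
        obtain ⟨t, _, _, ht⟩ := fix_semi K A h4
        have hAt : act K A t = t := (ht t).mpr (Or.inl rfl)
        have htX : t ∈ Xs K H := (mem_Xs K H t).mpr ⟨A, hA, hAc, hAt⟩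
        have hpe := ev_pow_ex K H t A hA hAt
        have hne : (ev K A t) ^ 2 ≠ 0 := pow_ne_zero 2 (ev_ne_zero K A t hAt)
        apply (algebraMap F K).injective
        rw [map_pow, tr_sq_eq K A t hAt]
        apply hpow _ hne
        have hgt := hx t
        -- the stabiliser data are constant on orbits
        have hconst : ∀ r, t ∈ orb K H r → (orb K H t).card = (orb K H r).card ∧
            (Vx K H t).card = (Vx K H r).card := by
          intro r hr
          refine ⟨by rw [orb_eq_of_mem K H r t hr], ?_⟩
          obtain ⟨B, hB, rfl⟩ := (mem_orb K H r t).mp hr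
          exact Vx_conj K H r B hB
        rcases Finset.mem_union.mp (hX htX) with hr | hr
        · obtain ⟨h5, h6⟩ := hconst x hr
          left
          have h7 : ex K H t = e := by
            rw [h5, h6] at hgt
            have h8 := hx x
            have h9 : 0 < (orb K H x).card * v := by rw [hn]; positivity
            exact Nat.eq_of_mul_eq_mul_left h9 (hgt.trans h8.symm)
          obtain ⟨s, hs⟩ := hev
          have h10 : v = e * s + 1 := by omega
          rw [h10, pow_succ, pow_mul, ← h7, hpe, one_pow, one_mul]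
        · obtain ⟨h5, h6⟩ := hconst y hr
          right
          rw [h5, h6, hvy, hny, hn, hgv, mul_one] at hgt
          -- `v (v - 1) e' = v (v + 1) e`
          have h7 : ex K H t ∣ v + 1 := by
            obtain ⟨u, hu⟩ : ∃ u, v = u + 2 := ⟨v - 2, by omega⟩
            rw [hu] at hgt h2e ⊢
            rw [Nat.add_sub_cancel] at hgt
            have h8 : (u + 2) * ((u + 1) * ex K H t) = (u + 2) * ((u + 3) * e) := by
              calc (u + 2) * ((u + 1) * ex K H t)
                  = ((u + 2 + 1) * u + 2) * ex K H t := by ring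
                _ = (u + 2) * (u + 2 + 1) * e := hgt
                _ = (u + 2) * ((u + 3) * e) := by ring
            have h9 := Nat.eq_of_mul_eq_mul_left (by omega) h8
            have h2e' : 2 * e = u + 1 ∨ e = u + 1 := by omega
            rcases h2e' with h10 | h10
            · -- 2 e = u + 1
              refine ⟨2, ?_⟩
              have h11 : (u + 1) * (ex K H t * 2) = (u + 1) * (u + 3) := by
                calc (u + 1) * (ex K H t * 2) = 2 * ((u + 1) * ex K H t) := by ring
                  _ = (u + 3) * (2 * e) := by rw [h9]; ring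
                  _ = (u + 1) * (u + 3) := by rw [h10]; ring
              have h12 := Nat.eq_of_mul_eq_mul_left (by omega) h11
              omega
            · refine ⟨1, ?_⟩
              have h11 : (u + 1) * (ex K H t) = (u + 1) * (u + 3) := by
                rw [h9, h10]; ring
              have h12 := Nat.eq_of_mul_eq_mul_left (by omega) h11
              omega
          obtain ⟨s, hs⟩ := h7
          have h8 : ((ev K A t) ^ 2) ^ (v + 1) = 1 := by
            rw [hs, pow_mul, hpe, one_pow]
          rw [pow_succ] at h8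
          exact eq_inv_of_mul_eq_one_left h8
    · right; right; right; right
      have hj3 : j = 1 := by omega
      rw [hj3, pow_one] at hqv
      have hle := card_sl_le' (F := F)
      have hge : Fintype.card F * (Fintype.card F ^ 2 - 1) ≤ Nat.card H := by
        rw [hcard, hqv]
        have h5 : v ^ 2 - 1 = (v + 1) * (v - 1) := by
          have := Nat.sq_sub_sq v 1
          simpa using this
        rw [h5]
        rw [zz]
        split_ifs with h2
        · -- characteristic two
          have h6 : e = v - 1 := by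
            rcases h2e with h7 | h7
            · exfalso
              have hp2 : p = 2 := by
                have : (p : ℕ) ∣ 2 := (CharP.cast_eq_zero_iff F p 2).mp (by exact_mod_cast h2)
                rcases (Nat.dvd_prime Nat.prime_two).mp this with h | h
                · exact absurd h hp.one_lt.ne'
                · exact h
              have : 2 ∣ v := by rw [hk, hp2]; exact dvd_pow_self 2 (by omega)
              omega
            · exact h7
          rw [h6]
          apply le_of_eq; ring
        · have h6 : v - 1 ≤ 2 * e := by omega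
          calc v * ((v + 1) * (v - 1)) ≤ v * ((v + 1) * (2 * e)) := by gcongr
            _ = 2 * (v * (v + 1) * e) := by ring
      have h7 : Nat.card SL(2, F) ≤ Nat.card H := by
        rw [Nat.card_eq_fintype_card]; omega
      exact Subgroup.eq_top_of_le_card H h7

end Pool.Agent.Helper669_gp
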