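import Mathlib
import Pool.Agent.Helper669_gp.Defs
import Pool.Agent.Helper669_gp.Abs

/-!
The families of tuple sets which describe the homomorphisms from the Fuchsian groups of genus
`0, 1` (oriented) and `1, 2` (non-oriented).
-/

namespace Pool.Agent.Helper669_gp

open Finset

/-- total number of tuples -/
def totC (kind : Kind) (genus s : ℕ) (G : Type) [Group G] [Fintype G] [DecidableEq G]
    (ms : List ℕ) : ℕ :=
  match kind, genus, s with
  | Kind.oriented, 0, 0 => (O0set G ms).card
  | Kind.oriented, 0, s + 1 => (FPset G s ms).card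
  | Kind.oriented, 1, 0 => (O1set G ms).card
  | Kind.oriented, 1, s + 1 => (FPset G (s + 2) ms).card
  | Kind.nonoriented, 1, 0 => (N1set G ms).card
  | Kind.nonoriented, 1, s + 1 => (FPset G (s + 1) ms).card
  | Kind.nonoriented, 2, 0 => (N2set G ms).card
  | Kind.nonoriented, 2, s + 1 => (FPset G (s + 2) ms).card
  | _, _, _ => 0

open scoped Classical in
/-- number of tuples which do not generate -/
noncomputable def badC (kind : Kind) (genus s : ℕ) (G : Type) [Group G] [Fintype G] [DecidableEq G]
    (ms : List ℕ) : ℕ :=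
  match kind, genus, s with
  | Kind.oriented, 0, 0 => ((O0set G ms).filter fun t => ¬ O0gen t).card
  | Kind.oriented, 0, s + 1 => ((FPset G s ms).filter fun t => ¬ FPgen t).card
  | Kind.oriented, 1, 0 => ((O1set G ms).filter fun t => ¬ O1gen t).card
  | Kind.oriented, 1, s + 1 => ((FPset G (s + 2) ms).filter fun t => ¬ FPgen t).card
  | Kind.nonoriented, 1, 0 => ((N1set G ms).filter fun t => ¬ N1gen t).card
  | Kind.nonoriented, 1, s + 1 => ((FPset G (s + 1) ms).filter fun t => ¬ FPgen t).card
  | Kind.nonoriented, 2, 0 => ((N2set G ms).filter fun t => ¬ O1gen t).card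
  | Kind.nonoriented, 2, s + 1 => ((FPset G (s + 2) ms).filter fun t => ¬ FPgen t).card
  | _, _, _ => 0

/-- the kinds and genera of the problem -/
def InRange (kind : Kind) (genus : ℕ) : Prop :=
  (kind = Kind.oriented ∧ (genus = 0 ∨ genus = 1)) ∨
    (kind = Kind.nonoriented ∧ (genus = 1 ∨ genus = 2))

end Pool.Agent.Helper669_gp
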