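import Mathlib
import Pool.Agent.Helper669_gp.Low2
import Pool.Agent.Helper669_gp.Pts

namespace Pool.Agent.Helper669_gp.K01

open scoped MatrixGroups

open Finset

lemma K01_pow {F : Type} [Field F] (K : Type) [Field K] [DecidableEq K] [Algebra F K]
    (A : SL(2, F)) (x : OnePoint K) (hA : act K A x = x) (k : ℕ) :
    act K (A ^ k) x = x ∧ ev K (A ^ k) x = ev K A x ^ k := by
  induction k with
  | zero => exact ⟨by rw [pow_zero, act_one], by rw [pow_zero, pow_zero, ev_one]⟩
  | succ k ih =>
    refine ⟨?_, ?_⟩
    · rw [pow_succ, act_mul, hA, ih.1]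
    · rw [pow_succ, ev_mul K _ _ _ ih.1 hA, ih.2, pow_succ]

lemma K01_fix {F : Type} [Field F] (K : Type) [Field K] [DecidableEq K] [Algebra F K]
    [IsAlgClosed K] (A : SL(2, F)) : ∃ x : OnePoint K, act K A x = x := by
  by_cases hA : Cen A
  · refine ⟨OnePoint.infty, ?_⟩
    rw [act_infty]
    exact ((cen_iff A).1 hA).2.1
  · by_cases ht : (tr A) ^ 2 = 4
    · obtain ⟨x, hx⟩ := fix_unip K A hA ht
      exact ⟨x, (hx x).2 rfl⟩
    · obtain ⟨x, x', _, hx⟩ := fix_semi K A ht
      exact ⟨x, (hx x).2 (Or.inl rfl)⟩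

open scoped Classical in

theorem tset_card (F : Type) [Field F] [Fintype F] [DecidableEq F] (m : ℕ) (hm : 0 < m) :
    (univ.filter fun t : F => ∃ X : SL(2, F), tr X = t ∧ Cen (X ^ m)).card ≤ 2 * m := by
  classical
  set K := AlgebraicClosure F with hK
  have key : ∀ t : F, (∃ X : SL(2, F), tr X = t ∧ Cen (X ^ m)) →
      ∃ l : K, l ^ (2 * m) = 1 ∧ l ^ 2 - algebraMap F K t * l + 1 = 0 := by
    rintro t ⟨X, hX, hc⟩
    obtain ⟨x, hx⟩ := K01_fix K X
    refine ⟨ev K X x, ?_, ?_⟩
    · have h1 := (K01_pow K X x hx m).2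
      rw [mul_comm, pow_mul, ← h1]
      rcases hc with h | h
      · rw [h, ev_one, one_pow]
      · rw [h, ev_neg_one]; ring
    · rw [← hX]
      exact ev_char K X x hx
  choose! l hl1 hl2 using key
  calc (univ.filter fun t : F => ∃ X : SL(2, F), tr X = t ∧ Cen (X ^ m)).card
      ≤ (Polynomial.nthRoots (2 * m) (1 : K)).toFinset.card := by
        apply Finset.card_le_card_of_injOn l
        · intro t ht
          have ht' := (Finset.mem_filter.1 (Finset.mem_coe.1 ht)).2
          rw [Finset.mem_coe, Multiset.mem_toFinset, Polynomial.mem_nthRoots (by omega)]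
          exact hl1 t ht'
        · intro t ht u hu htu
          have ht' := (Finset.mem_filter.1 (Finset.mem_coe.1 ht)).2
          have hu' := (Finset.mem_filter.1 (Finset.mem_coe.1 hu)).2
          have h1 := hl2 t ht'
          have h2 := hl2 u hu'
          have hne : l t ≠ 0 := by
            intro h0
            rw [h0] at h1
            simp at h1
          rw [← htu] at h2
          apply (algebraMap F K).injective
          have h3 : (algebraMap F K t - algebraMap F K u) * l t = 0 := by
            linear_combination h2 - h1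
          exact sub_eq_zero.1 ((mul_eq_zero.1 h3).resolve_right hne)
    _ ≤ Multiset.card (Polynomial.nthRoots (2 * m) (1 : K)) := Multiset.toFinset_card_le _
    _ ≤ 2 * m := Polynomial.card_nthRoots _ _

end Pool.Agent.Helper669_gp.K01
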