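import Mathlib
import Pool.Agent.Helper669_gp.Low2
import Pool.Agent.Helper669_gp.Pts
import Pool.Agent.Helper669_gp.Abs
import Pool.Agent.Helper669_gp.K01

namespace Pool.Agent.Helper669_gp.K05

open Pool.Agent.Helper669_gp.K01

open scoped MatrixGroups

open Finset

section K05

variable {F : Type} [Field F] [Fintype F] [DecidableEq F]

noncomputable def K05_pi : SL(2, F) →* PSL(2, F) := QuotientGroup.mk' _

omit [Fintype F] [DecidableEq F] in
lemma K05_surj : Function.Surjective (K05_pi (F := F)) := QuotientGroup.mk'_surjective _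

omit [Fintype F] [DecidableEq F] in
lemma K05_one_iff (X : SL(2, F)) : K05_pi X = 1 ↔ Cen X := by
  rw [← mem_center_iff']
  exact QuotientGroup.eq_one_iff X

omit [Fintype F] [DecidableEq F] in
lemma K05_eq_iff (X Y : SL(2, F)) : K05_pi X = K05_pi Y ↔ (X = Y ∨ X = -Y) := by
  rw [← inv_mul_eq_one, ← map_inv, ← map_mul, K05_one_iff]
  unfold Cen
  constructor
  · rintro (h | h)
    · left
      exact inv_mul_eq_one.1 h
    · right
      have h2 : Y = X * (-1) := by rw [← h, mul_inv_cancel_left]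
      rw [h2]
      simp
  · rintro (rfl | rfl)
    · left; simp
    · right
      have : (-Y)⁻¹ = -(Y⁻¹) := by
        rw [inv_eq_iff_mul_eq_one]
        simp
      rw [this]
      simp

lemma K05_le [Fintype PSL(2, F)] [DecidableEq PSL(2, F)] (p : PSL(2, F) → Prop) [DecidablePred p]
    (P : SL(2, F) → Prop) [DecidablePred P] (h : ∀ X, p (K05_pi X) → P X) :
    ((univ : Finset PSL(2, F)).filter p).card ≤ ((univ : Finset SL(2, F)).filter P).card := by
  refine le_trans (Finset.card_le_card ?_) (Finset.card_image_le (f := K05_pi (F := F)))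
  intro x hx
  rw [mem_filter] at hx
  obtain ⟨X, rfl⟩ := K05_surj x
  exact mem_image.2 ⟨X, by simpa using h X hx.2, rfl⟩

lemma K05_ge [Fintype PSL(2, F)] [DecidableEq PSL(2, F)] (p : PSL(2, F) → Prop) [DecidablePred p]
    (P : SL(2, F) → Prop) [DecidablePred P] (h : ∀ X, P X → p (K05_pi X)) :
    ((univ : Finset SL(2, F)).filter P).card ≤ 2 * ((univ : Finset PSL(2, F)).filter p).card := by
  apply Finset.card_le_mul_card_image_of_maps_to (f := K05_pi (F := F))
  · intro X hX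
    rw [mem_filter] at hX ⊢
    exact ⟨mem_univ _, h X hX.2⟩
  · intro y _
    obtain ⟨Y, rfl⟩ := K05_surj y
    refine le_trans (Finset.card_le_card (t := {Y, -Y}) ?_) Finset.card_le_two
    intro X hX
    rw [mem_filter] at hX
    rw [mem_insert, mem_singleton]
    exact (K05_eq_iff X Y).1 hX.2

open scoped Classical in

noncomputable def K05_T (F : Type) [Field F] [Fintype F] [DecidableEq F] (m : ℕ) : Finset F :=
  univ.filter fun t : F => ∃ X : SL(2, F), tr X = t ∧ Cen (X ^ m)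

lemma K05_T_card (m : ℕ) (hm : 0 < m) : (K05_T F m).card ≤ 2 * m := tset_card F m hm

lemma K05_mem_T (m : ℕ) (X : SL(2, F)) (h : Cen (X ^ m)) : tr X ∈ K05_T F m := by
  unfold K05_T
  rw [mem_filter]
  exact ⟨mem_univ _, X, rfl, h⟩

lemma K05_tor_le [Fintype PSL(2, F)] [DecidableEq PSL(2, F)] (m : ℕ) (hm : 0 < m) :
    ((univ : Finset PSL(2, F)).filter fun x => x ^ m = 1).card ≤
      (2 * m) * (2 * Fintype.card F * Fintype.card F) := by
  refine le_trans (K05_le _ (fun X : SL(2, F) => tr X ∈ K05_T F m) ?_) ?_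
  · intro X hX
    apply K05_mem_T
    rw [← K05_one_iff, map_pow]
    exact hX
  · rw [Finset.card_eq_sum_card_fiberwise (f := tr) (t := K05_T F m)
      (fun X hX => by simpa using hX)]
    refine le_trans (Finset.sum_le_sum (g := fun _ => 2 * Fintype.card F * Fintype.card F) ?_) ?_
    · intro t _
      refine le_trans (Finset.card_le_card ?_) (card_tr_le t)
      intro X hX
      rw [mem_filter] at hX
      rw [mem_filter]
      exact ⟨mem_univ _, hX.2⟩
    · rw [Finset.sum_const, smul_eq_mul]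
      exact Nat.mul_le_mul_right _ (K05_T_card m hm)

omit [Fintype F] [DecidableEq F] in
lemma K05_pow_cen {X : SL(2, F)} {m : ℕ} (h : Cen X) : Cen (X ^ m) := by
  rw [← K05_one_iff] at h ⊢
  rw [map_pow, h, one_pow]

omit [Fintype F] [DecidableEq F] in

lemma K05_same {X X' : SL(2, F)} (hX : ¬ Cen X) (hX' : ¬ Cen X') (ht : tr X' = tr X) {m : ℕ}
    (h : Cen (X ^ m)) : Cen (X' ^ m) := by
  obtain ⟨P, hP⟩ := exists_cj X hX
  obtain ⟨P', hP'⟩ := exists_cj X' hX'
  rw [ht] at hP'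
  rw [← cen_cj P', map_pow, hP', ← hP, ← map_pow, cen_cj]
  exact h

lemma K05_le_tor [Fintype PSL(2, F)] [DecidableEq PSL(2, F)] (m : ℕ)
    (h : ¬ Nat.Coprime m (Fintype.card PSL(2, F))) :
    Fintype.card F * (Fintype.card F - 1) ≤
      2 * ((univ : Finset PSL(2, F)).filter fun x => x ^ m = 1).card := by
  obtain ⟨r, hr, hrm, hrc⟩ := Nat.Prime.not_coprime_iff_dvd.1 h
  have : Fact r.Prime := ⟨hr⟩
  obtain ⟨x, hx⟩ := exists_prime_orderOf_dvd_card r hrc
  obtain ⟨X, rfl⟩ := K05_surj x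
  have hX : ¬ Cen X := by
    intro hc
    rw [← K05_one_iff] at hc
    rw [hc, orderOf_one] at hx
    exact hr.one_lt.ne hx
  have hXm : Cen (X ^ m) := by
    rw [← K05_one_iff, map_pow]
    exact orderOf_dvd_iff_pow_eq_one.1 (hx ▸ hrm)
  refine le_trans (card_tr_ge (tr X)) (K05_ge _ _ ?_)
  rintro X' ⟨h1, h2⟩
  rw [← map_pow, K05_one_iff]
  exact K05_same hX h2 h1 hXm

omit [Fintype F] [DecidableEq F] in
lemma K05_inv_cen {X : SL(2, F)} (h : Cen X⁻¹) : Cen X := by
  rw [← K05_one_iff] at h ⊢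
  rw [map_inv, inv_eq_one] at h
  exact h

lemma K05_two_le [Fintype PSL(2, F)] [DecidableEq PSL(2, F)] (m n : ℕ) (hm : 0 < m) (hn : 0 < n)
    (z : PSL(2, F)) (hz : z ≠ 1) :
    ((univ : Finset PSL(2, F)).filter fun x => x ^ m = 1 ∧ (x⁻¹ * z) ^ n = 1).card ≤
      (2 * m) * (2 * n) * (2 * Fintype.card F) := by
  obtain ⟨Z, rfl⟩ := K05_surj z
  have hZ : ¬ Cen Z := fun h => hz ((K05_one_iff Z).2 h)
  refine le_trans (K05_le _ (fun X : SL(2, F) => tr X ∈ K05_T F m ∧ tr (Z⁻¹ * X) ∈ K05_T F n) ?_) ?_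
  · rintro X ⟨h1, h2⟩
    constructor
    · apply K05_mem_T
      rw [← K05_one_iff, map_pow]
      exact h1
    · have h3 : tr (Z⁻¹ * X) = tr (X⁻¹ * Z) := by
        rw [← tr_inv (X⁻¹ * Z)]
        simp
      rw [h3]
      apply K05_mem_T
      rw [← K05_one_iff, map_pow, map_mul, map_inv]
      exact h2
  · rw [Finset.card_eq_sum_card_fiberwise (f := fun X : SL(2, F) => (tr X, tr (Z⁻¹ * X)))
      (t := K05_T F m ×ˢ K05_T F n) (fun X hX => by simpa using hX)]
    refine le_trans (Finset.sum_le_sum (g := fun _ => 2 * Fintype.card F) ?_) ?_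
    · rintro ⟨t, u⟩ _
      refine le_trans (Finset.card_le_card ?_) (card_two Z⁻¹ (fun h => hZ (K05_inv_cen h)) t u)
      intro X hX
      rw [mem_filter] at hX
      rw [mem_filter]
      have := hX.2
      rw [Prod.mk.injEq] at this
      exact ⟨mem_univ _, this⟩
    · rw [Finset.sum_const, smul_eq_mul, card_product]
      exact Nat.mul_le_mul_right _ (Nat.mul_le_mul (K05_T_card m hm) (K05_T_card n hn))

lemma K05_conj_le [Fintype PSL(2, F)] [DecidableEq PSL(2, F)] (y y' : PSL(2, F)) (hy : y ≠ 1) :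
    ((univ : Finset PSL(2, F)).filter fun b => b * y * b⁻¹ = y').card ≤ 4 * Fintype.card F := by
  obtain ⟨Y, rfl⟩ := K05_surj y
  obtain ⟨Y', rfl⟩ := K05_surj y'
  have hY : ¬ Cen Y := fun h => hy ((K05_one_iff Y).2 h)
  refine le_trans (K05_le _ (fun B : SL(2, F) => B * Y * B⁻¹ = Y' ∨ B * Y * B⁻¹ = -Y') ?_) ?_
  · intro B hB
    rw [← map_inv, ← map_mul, ← map_mul, K05_eq_iff] at hB
    exact hB
  · rw [Finset.filter_or]
    refine le_trans (Finset.card_union_le _ _) ?_
    have h1 := card_conj_le Y Y' hY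
    have h2 := card_conj_le Y (-Y') hY
    omega

lemma K05_sqrt_le [Fintype PSL(2, F)] [DecidableEq PSL(2, F)] (z : PSL(2, F)) (hz : z ≠ 1) :
    ((univ : Finset PSL(2, F)).filter fun a => a ^ 2 = z).card ≤ 4 := by
  obtain ⟨Z, rfl⟩ := K05_surj z
  have hZ : ¬ Cen Z := fun h => hz ((K05_one_iff Z).2 h)
  have hZ' : ¬ Cen (-Z) := by
    intro h
    apply hZ
    rcases h with h | h
    · right; rw [← h, neg_neg]
    · left; exact neg_injective h
  refine le_trans (K05_le _ (fun B : SL(2, F) => B ^ 2 = Z ∨ B ^ 2 = -Z) ?_) ?_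
  · intro B hB
    rw [← map_pow, K05_eq_iff] at hB
    exact hB
  · rw [Finset.filter_or]
    refine le_trans (Finset.card_union_le _ _) ?_
    have h1 := card_sqrt_le Z hZ
    have h2 := card_sqrt_le (-Z) hZ'
    omega

lemma K05_card_le [Fintype PSL(2, F)] [DecidableEq PSL(2, F)] :
    Fintype.card PSL(2, F) ≤ 2 * Fintype.card F ^ 3 := by
  have h := K05_le (F := F) (fun _ => True) (fun _ => True) (fun _ _ => trivial)
  simp only [Finset.filter_true, card_univ] at h
  exact h.trans card_sl_le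

lemma K05_card_ge [Fintype PSL(2, F)] [DecidableEq PSL(2, F)] :
    Fintype.card F * (Fintype.card F * (Fintype.card F - 1)) ≤ 2 * Fintype.card PSL(2, F) := by
  have h := K05_ge (F := F) (fun _ => True) (fun _ => True) (fun _ _ => trivial)
  simp only [Finset.filter_true, card_univ] at h
  exact card_sl_ge.trans h

end K05

theorem psl_basic (P : Finset ℕ) (hP : ∀ m ∈ P, 0 < m) : ∃ C : ℝ, 1 ≤ C ∧
    ∀ (F : Type) [Field F] [Fintype F] [DecidableEq F] [Fintype PSL(2, F)] [DecidableEq PSL(2, F)],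
      4 ≤ Fintype.card F →
      (Fintype.card PSL(2, F) : ℝ) ≤ C * (Fintype.card F : ℝ) ^ 3 ∧
      (Fintype.card F : ℝ) ^ 3 ≤ C * (Fintype.card PSL(2, F) : ℝ) ∧
      (∀ m ∈ P, ((tor PSL(2, F) m).card : ℝ) ≤ C * (Fintype.card F : ℝ) ^ 2) ∧
      (∀ m ∈ P, ¬ Nat.Coprime m (Fintype.card PSL(2, F)) →
        (Fintype.card F : ℝ) ^ 2 ≤ C * ((tor PSL(2, F) m).card : ℝ)) ∧
      (∀ m ∈ P, ∀ n ∈ P, ∀ z : PSL(2, F), z ≠ 1 →
        (((tor PSL(2, F) m).filter fun x => x⁻¹ * z ∈ tor PSL(2, F) n).card : ℝ) ≤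
          C * (Fintype.card F : ℝ)) ∧
      (∀ y y' : PSL(2, F), y ≠ 1 →
        (((univ : Finset PSL(2, F)).filter fun b => b * y * b⁻¹ = y').card : ℝ) ≤
          C * (Fintype.card F : ℝ)) ∧
      (∀ z : PSL(2, F), z ≠ 1 →
        (((univ : Finset PSL(2, F)).filter fun a => a ^ 2 = z).card : ℝ) ≤ C) ∧
      (((univ : Finset PSL(2, F)).filter fun a => a ^ 2 = 1).card : ℝ) ≤
        C * (Fintype.card F : ℝ) ^ 2 := by
  set M : ℕ := P.sup id + 1 with hM
  have hM1 : (1 : ℝ) ≤ M := by rw [hM]; push_cast; linarith [Nat.cast_nonneg (α := ℝ) (P.sup id)]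
  have hMP : ∀ m ∈ P, (m : ℝ) ≤ M := by
    intro m hm
    have h1 : m ≤ P.sup id := Finset.le_sup (f := id) hm
    have h2 : m ≤ M := by omega
    exact_mod_cast h2
  have hMM : (1 : ℝ) ≤ (M : ℝ) ^ 2 := one_le_pow₀ hM1
  refine ⟨8 * (M : ℝ) ^ 2, by linarith, ?_⟩
  intro F _ _ _ _ _ hF
  have hq : (4 : ℝ) ≤ Fintype.card F := by exact_mod_cast hF
  set q : ℝ := (Fintype.card F : ℝ) with hqdef
  have hq0 : 0 < q := by linarith
  have hsub : ((Fintype.card F - 1 : ℕ) : ℝ) = q - 1 := by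
    rw [Nat.cast_sub (by omega)]
    simp [hqdef]
  have hhalf : q / 2 ≤ q - 1 := by linarith
  refine ⟨?_, ?_, ?_, ?_, ?_, ?_, ?_, ?_⟩
  · have h : (Fintype.card PSL(2, F) : ℝ) ≤ 2 * q ^ 3 := by
      rw [hqdef]
      exact_mod_cast K05_card_le (F := F)
    have h3 : 0 < q ^ 3 := by positivity
    nlinarith
  · have h : q * (q * (q - 1)) ≤ 2 * (Fintype.card PSL(2, F) : ℝ) := by
      rw [← hsub, hqdef]
      exact_mod_cast K05_card_ge (F := F)
    have h2 : q * (q * (q / 2)) ≤ q * (q * (q - 1)) := by gcongr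
    have h3 : (0 : ℝ) ≤ (Fintype.card PSL(2, F) : ℝ) := Nat.cast_nonneg _
    have h4 : q ^ 3 = 2 * (q * (q * (q / 2))) := by ring
    rw [h4]
    nlinarith
  · intro m hm
    have h : ((tor PSL(2, F) m).card : ℝ) ≤ (2 * m) * (2 * q * q) := by
      rw [hqdef]
      unfold tor
      exact_mod_cast K05_tor_le (F := F) m (hP m hm)
    have h1 := hMP m hm
    have h2 : (m : ℝ) ≤ (M : ℝ) ^ 2 := by nlinarith
    have h3 : 0 < q ^ 2 := by positivity
    calc ((tor PSL(2, F) m).card : ℝ) ≤ (2 * m) * (2 * q * q) := h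
      _ = 4 * (m : ℝ) * q ^ 2 := by ring
      _ ≤ 8 * (M : ℝ) ^ 2 * q ^ 2 := by
        apply mul_le_mul_of_nonneg_right _ h3.le
        linarith
  · intro m _ hc
    have h : q * (q - 1) ≤ 2 * ((tor PSL(2, F) m).card : ℝ) := by
      rw [← hsub, hqdef]
      unfold tor
      exact_mod_cast K05_le_tor (F := F) m hc
    have h2 : q * (q / 2) ≤ q * (q - 1) := by gcongr
    have h3 : (0 : ℝ) ≤ ((tor PSL(2, F) m).card : ℝ) := Nat.cast_nonneg _
    have h4 : q ^ 2 = 2 * (q * (q / 2)) := by ring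
    rw [h4]
    nlinarith
  · intro m hm n hn z hz
    have h : (((tor PSL(2, F) m).filter fun x => x⁻¹ * z ∈ tor PSL(2, F) n).card : ℝ)
        ≤ (2 * m) * (2 * n) * (2 * q) := by
      have h1 := K05_two_le (F := F) m n (hP m hm) (hP n hn) z hz
      have h2 : ((tor PSL(2, F) m).filter fun x => x⁻¹ * z ∈ tor PSL(2, F) n)
          = ((univ : Finset PSL(2, F)).filter fun x => x ^ m = 1 ∧ (x⁻¹ * z) ^ n = 1) := by
        ext x
        simp [tor]
      rw [h2, hqdef]
      exact_mod_cast h1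
    have h1 := hMP m hm
    have h2 := hMP n hn
    have h3 : (m : ℝ) * n ≤ (M : ℝ) ^ 2 := by
      rw [pow_two]
      exact mul_le_mul h1 h2 (Nat.cast_nonneg _) (Nat.cast_nonneg _)
    calc (((tor PSL(2, F) m).filter fun x => x⁻¹ * z ∈ tor PSL(2, F) n).card : ℝ)
        ≤ (2 * m) * (2 * n) * (2 * q) := h
      _ = 8 * ((m : ℝ) * n) * q := by ring
      _ ≤ 8 * (M : ℝ) ^ 2 * q := by
        apply mul_le_mul_of_nonneg_right _ hq0.le
        linarith
  · intro y y' hy
    have h : (((univ : Finset PSL(2, F)).filter fun b => b * y * b⁻¹ = y').card : ℝ) ≤ 4 * q := by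
      rw [hqdef]
      exact_mod_cast K05_conj_le y y' hy
    nlinarith
  · intro z hz
    have h : (((univ : Finset PSL(2, F)).filter fun a => a ^ 2 = z).card : ℝ) ≤ 4 := by
      exact_mod_cast K05_sqrt_le z hz
    linarith
  · have h : (((univ : Finset PSL(2, F)).filter fun a => a ^ 2 = 1).card : ℝ)
        ≤ (2 * 2) * (2 * q * q) := by
      rw [hqdef]
      exact_mod_cast K05_tor_le (F := F) 2 (by norm_num)
    have h3 : 0 < q ^ 2 := by positivity
    nlinarith

end Pool.Agent.Helper669_gp.K05
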