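import Mathlib
import Pool.Agent.Helper669_gp.Low2
import Pool.Agent.Helper669_gp.Pts
import Pool.Agent.Helper669_gp.Abs
import Pool.Agent.Helper669_gp.K01

namespace Pool.Agent.Helper669_gp.K06

open Pool.Agent.Helper669_gp.K01

open scoped MatrixGroups

open Finset

section K06

set_option linter.unusedSectionVars false

variable {F : Type} [Field F] [Fintype F] [DecidableEq F]

def K06_pi (F : Type) [Field F] : SL(2, F) →* PSL(2, F) :=
  QuotientGroup.mk' (Subgroup.center SL(2, F))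

omit [Fintype F] [DecidableEq F] in
lemma K06_surj (z : PSL(2, F)) : ∃ Z, K06_pi F Z = z := QuotientGroup.mk'_surjective _ z

omit [Fintype F] [DecidableEq F] in
lemma K06_one_iff (A : SL(2, F)) : K06_pi F A = 1 ↔ Cen A := by
  rw [← mem_center_iff']
  exact QuotientGroup.eq_one_iff A

omit [Fintype F] [DecidableEq F] in
lemma K06_eq (A B : SL(2, F)) (h : K06_pi F A = K06_pi F B) : B = A ∨ B = -A := by
  have h1 : K06_pi F (A⁻¹ * B) = 1 := by rw [map_mul, map_inv, h, inv_mul_cancel]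
  rcases (K06_one_iff _).1 h1 with h2 | h2
  · left
    rw [inv_mul_eq_one] at h2
    exact h2.symm
  · right
    rw [inv_mul_eq_iff_eq_mul] at h2
    rw [h2]
    simp

lemma K06_card_le [DecidableEq PSL(2, F)] (S : Finset PSL(2, F)) (T : Finset SL(2, F))
    (h : ∀ X, K06_pi F X ∈ S → X ∈ T) : S.card ≤ T.card := by
  have : S ⊆ T.image (K06_pi F) := by
    intro z hz
    obtain ⟨Z, rfl⟩ := K06_surj z
    exact mem_image_of_mem _ (h Z hz)
  exact (card_le_card this).trans card_image_le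

lemma K06_card_ge [DecidableEq PSL(2, F)] (S : Finset PSL(2, F)) (T : Finset SL(2, F))
    (h : ∀ X ∈ T, K06_pi F X ∈ S) : T.card ≤ 2 * S.card := by
  apply Finset.card_le_mul_card_image_of_maps_to (f := K06_pi F) h
  intro z _
  obtain ⟨Z, rfl⟩ := K06_surj z
  refine le_trans (card_le_card (t := {Z, -Z}) ?_) card_le_two
  intro X hX
  rw [mem_filter] at hX
  rcases K06_eq Z X hX.2.symm with h | h
  · rw [h]; simp
  · rw [h]; simp

lemma K06_L1 (Z : SL(2, F)) (hZ : ¬ Cen Z) (T D : Finset F) :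
    (univ.filter fun X : SL(2, F) => tr X ∈ T ∧ tr (X⁻¹ * Z) ∈ D).card ≤
      T.card * D.card * (2 * Fintype.card F) := by
  have hZ' : ¬ Cen Z⁻¹ := by
    rintro (h | h)
    · exact hZ (Or.inl (inv_eq_one.1 h))
    · refine hZ (Or.inr ?_)
      rw [← inv_inv Z, h]
      refine sl_ext ?_ ?_ ?_ ?_ <;> simp
  rw [← card_product]
  refine le_trans (card_le_card (t := (T ×ˢ D).biUnion fun p =>
    univ.filter fun X : SL(2, F) => tr X = p.1 ∧ tr (Z⁻¹ * X) = p.2) ?_)
    (card_biUnion_le_card_mul _ _ _ fun p _ => card_two _ hZ' _ _)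
  intro X hX
  simp only [mem_filter, mem_univ, true_and] at hX
  simp only [mem_biUnion, mem_product, mem_filter, mem_univ, true_and]
  refine ⟨(tr X, tr (X⁻¹ * Z)), hX, rfl, ?_⟩
  rw [← tr_inv (Z⁻¹ * X), mul_inv_rev, inv_inv]

lemma K06_L2 (m : ℕ) (X₀ X : SL(2, F)) (h₀ : ¬ Cen X₀) (h : ¬ Cen X) (ht : tr X = tr X₀)
    (hm : Cen (X₀ ^ m)) : Cen (X ^ m) := by
  obtain ⟨P, hP⟩ := exists_cj X h
  obtain ⟨Q, hQ⟩ := exists_cj X₀ h₀
  rw [← cen_cj P, map_pow, hP, ht, ← hQ, ← map_pow, cen_cj]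
  exact hm

lemma K06_L3 (A : SL(2, F)) (hA : ¬ Cen A) (D : Finset F) :
    (univ.filter fun B : SL(2, F) => tr (A * B * A⁻¹ * B⁻¹) ∈ D).card ≤
      D.card * (2 * Fintype.card F) * (2 * Fintype.card F) := by
  have hA' : ¬ Cen A⁻¹ := by
    rintro (h | h)
    · exact hA (Or.inl (inv_eq_one.1 h))
    · refine hA (Or.inr ?_)
      rw [← inv_inv A, h]
      refine sl_ext ?_ ?_ ?_ ?_ <;> simp
  have h1 : (univ.filter fun Y : SL(2, F) => tr Y = tr A ∧ tr (A * Y) ∈ D).card ≤
      D.card * (2 * Fintype.card F) := by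
    refine le_trans (card_le_card (t := D.biUnion fun d =>
      univ.filter fun Y : SL(2, F) => tr Y = tr A ∧ tr (A * Y) = d) ?_)
      (card_biUnion_le_card_mul _ _ _ fun p _ => card_two _ hA _ _)
    intro X hX
    simp only [mem_filter, mem_univ, true_and] at hX
    simp only [mem_biUnion, mem_filter, mem_univ, true_and]
    exact ⟨_, hX.2, hX.1, rfl⟩
  refine le_trans (card_le_card (t := (univ.filter fun Y : SL(2, F) =>
    tr Y = tr A ∧ tr (A * Y) ∈ D).biUnion fun Y =>
      univ.filter fun B : SL(2, F) => B * A⁻¹ * B⁻¹ = Y) ?_)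
    (le_trans (card_biUnion_le_card_mul _ _ _ fun p _ => card_conj_le _ _ hA')
      (Nat.mul_le_mul_right _ h1))
  intro B hB
  simp only [mem_filter, mem_univ, true_and] at hB
  simp only [mem_biUnion, mem_filter, mem_univ, true_and]
  refine ⟨B * A⁻¹ * B⁻¹, ⟨?_, ?_⟩, rfl⟩
  · rw [tr_conj, tr_inv]
  · rw [← mul_assoc, ← mul_assoc]
    exact hB

lemma K06_tr_sq (A : SL(2, F)) : tr (A * A) = (tr A) ^ 2 - 2 := by
  have hd := det_eq A
  simp only [tr, mul00, mul11]
  linear_combination (-2) * hd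

lemma K06_L4 (D : Finset F) :
    (univ.filter fun A : SL(2, F) => tr (A * A) ∈ D).card ≤
      D.card * 2 * (2 * Fintype.card F * Fintype.card F) := by
  have h1 : (univ.filter fun x : F => x ^ 2 - 2 ∈ D).card ≤ D.card * 2 := by
    refine le_trans (card_le_card (t := D.biUnion fun d =>
      univ.filter fun x : F => x ^ 2 + 0 * x + (-2 - d) = 0) ?_)
      (card_biUnion_le_card_mul _ _ _ fun p _ => quad_card _ _)
    intro x hx
    simp only [mem_filter, mem_univ, true_and] at hx
    simp only [mem_biUnion, mem_filter, mem_univ, true_and]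
    exact ⟨_, hx, by ring⟩
  refine le_trans (card_le_card (t := (univ.filter fun x : F => x ^ 2 - 2 ∈ D).biUnion fun x =>
      univ.filter fun A : SL(2, F) => tr A = x) ?_)
    (le_trans (card_biUnion_le_card_mul _ _ _ fun p _ => card_tr_le _)
      (Nat.mul_le_mul_right _ h1))
  intro A hA
  simp only [mem_filter, mem_univ, true_and] at hA
  simp only [mem_biUnion, mem_filter, mem_univ, true_and]
  exact ⟨tr A, by rw [← K06_tr_sq]; exact hA, rfl⟩

lemma K06_tr_mul_sq (Y B : SL(2, F)) : tr (Y * (B * B)) = tr B * tr (Y * B) - tr Y := by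
  have hd := det_eq B
  simp only [tr, mul00, mul01, mul10, mul11]
  linear_combination (-(Y 0 0 + Y 1 1)) * hd

lemma K06_L5 (Y : SL(2, F)) (hY : ¬ Cen Y) (D : Finset F) :
    (univ.filter fun B : SL(2, F) => tr (Y * (B * B)) ∈ D).card ≤
      Fintype.card F * D.card * (2 * Fintype.card F) + 2 * Fintype.card F * Fintype.card F := by
  refine le_trans (card_le_card (t := ((univ ×ˢ D).biUnion fun p : F × F =>
    univ.filter fun B : SL(2, F) => tr B = p.1 ∧ tr (Y * B) = (p.2 + tr Y) / p.1) ∪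
      univ.filter fun B : SL(2, F) => tr B = 0) ?_) (le_trans (card_union_le _ _)
        (Nat.add_le_add ?_ (card_tr_le _)))
  · intro B hB
    simp only [mem_filter, mem_univ, true_and] at hB
    simp only [mem_union, mem_biUnion, mem_product, mem_filter, mem_univ, true_and]
    by_cases h0 : tr B = 0
    · exact Or.inr h0
    · left
      refine ⟨(tr B, tr (Y * (B * B))), hB, rfl, ?_⟩
      rw [K06_tr_mul_sq]
      field_simp
      ring
  · refine le_trans (card_biUnion_le_card_mul _ _ _ fun p _ => card_two _ hY _ _) ?_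
    rw [card_product, card_univ]

open scoped Classical in

noncomputable def K06_T (F : Type) [Field F] [Fintype F] [DecidableEq F] (P : Finset ℕ) :
    Finset F :=
  P.biUnion fun m => univ.filter fun t : F => ∃ X : SL(2, F), tr X = t ∧ Cen (X ^ m)

lemma K06_T_card (P : Finset ℕ) (hP : ∀ m ∈ P, 0 < m) : (K06_T F P).card ≤ ∑ m ∈ P, 2 * m := by
  classical
  unfold K06_T
  refine le_trans card_biUnion_le (Finset.sum_le_sum fun m hm => ?_)
  exact tset_card F m (hP m hm)

lemma K06_mem_T {P : Finset ℕ} {m : ℕ} (hm : m ∈ P) {X : SL(2, F)} (h : Cen (X ^ m)) :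
    tr X ∈ K06_T F P := by
  classical
  unfold K06_T
  simp only [mem_biUnion, mem_filter, mem_univ, true_and]
  exact ⟨m, hm, X, rfl, h⟩

def K06_D (T : Finset F) : Finset F :=
  univ.filter fun w => w ^ 2 = 4 ∨ ∃ u ∈ T, ∃ v ∈ T, S3 u v w = 0 ∨ S3 u v (-w) = 0

lemma K06_D_neg {T : Finset F} {w : F} (h : w ∈ K06_D T) : -w ∈ K06_D T := by
  unfold K06_D at h ⊢
  simp only [mem_filter, mem_univ, true_and] at h ⊢
  rcases h with h | ⟨u, hu, v, hv, h⟩
  · left; rw [neg_sq, h]
  · exact Or.inr ⟨u, hu, v, hv, by rw [neg_neg]; exact h.symm⟩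

lemma K06_D_card (T : Finset F) : (K06_D T).card ≤ 2 + T.card * T.card * 4 := by
  refine le_trans (card_le_card (t := (univ.filter fun w : F => w ^ 2 + 0 * w + (-4) = 0) ∪
    (T ×ˢ T).biUnion fun p => (univ.filter fun w : F =>
      w ^ 2 + (-(p.1 * p.2)) * w + (p.1 ^ 2 + p.2 ^ 2 - 4) = 0) ∪ (univ.filter fun w : F =>
      w ^ 2 + (p.1 * p.2) * w + (p.1 ^ 2 + p.2 ^ 2 - 4) = 0)) ?_) ?_
  · intro w hw
    unfold K06_D at hw
    simp only [mem_filter, mem_univ, true_and] at hw
    simp only [mem_union, mem_biUnion, mem_product, mem_filter, mem_univ, true_and]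
    rcases hw with h | ⟨u, hu, v, hv, h | h⟩
    · left; linear_combination h
    · right
      refine ⟨(u, v), ⟨hu, hv⟩, Or.inl ?_⟩
      unfold S3 at h
      linear_combination h
    · right
      refine ⟨(u, v), ⟨hu, hv⟩, Or.inr ?_⟩
      unfold S3 at h
      linear_combination h
  · refine le_trans (card_union_le _ _) (Nat.add_le_add (quad_card _ _) ?_)
    rw [← card_product]
    exact card_biUnion_le_card_mul _ _ _ fun p _ => le_trans (card_union_le _ _)
      (Nat.add_le_add (quad_card _ _) (quad_card _ _))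

end K06

open scoped Classical in

theorem psl_exc (P : Finset ℕ) (hP : ∀ m ∈ P, 0 < m) : ∃ C : ℝ, 1 ≤ C ∧
    ∀ (F : Type) [Field F] [Fintype F] [DecidableEq F] [Fintype PSL(2, F)] [DecidableEq PSL(2, F)],
      4 ≤ Fintype.card F → ∃ B : Finset PSL(2, F), 1 ∈ B ∧ (∀ z ∈ B, z⁻¹ ∈ B) ∧
    (∀ m ∈ P, ∀ z : PSL(2, F), z ≠ 1 →
      (((tor PSL(2, F) m).filter fun x => x⁻¹ * z ∈ B).card : ℝ) ≤ C * (Fintype.card F : ℝ)) ∧
    (∀ m ∈ P, ∀ n ∈ P, ¬ Nat.Coprime m (Fintype.card PSL(2, F)) →
      ¬ Nat.Coprime n (Fintype.card PSL(2, F)) → ∀ z : PSL(2, F), z ∉ B →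
        (Fintype.card F : ℝ) ≤
          C * (((tor PSL(2, F) m).filter fun x => x⁻¹ * z ∈ tor PSL(2, F) n).card : ℝ)) ∧
    (((univ : Finset (PSL(2, F) × PSL(2, F))).filter
      fun t => t.1 * t.2 * t.1⁻¹ * t.2⁻¹ ∈ B).card : ℝ) ≤ C * (Fintype.card F : ℝ) ^ 5 ∧
    (((univ : Finset PSL(2, F)).filter fun a => a ^ 2 ∈ B).card : ℝ) ≤
      C * (Fintype.card F : ℝ) ^ 2 ∧
    (((univ : Finset (PSL(2, F) × PSL(2, F))).filter fun t => t.1 ^ 2 * t.2 ^ 2 ∈ B).card : ℝ) ≤
      C * (Fintype.card F : ℝ) ^ 5 := by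
  set M : ℕ := ∑ m ∈ P, 2 * m with hM
  set b : ℕ := 2 + M * M * 4 with hb
  set K : ℕ := M * b * 2 + 12 * b + 8 with hK
  refine ⟨(K : ℝ), by exact_mod_cast (by omega : 1 ≤ K), ?_⟩
  intro F _ _ _ _ _ hq
  set q := Fintype.card F with hqdef
  set T := K06_T F P with hT
  have hTc : T.card ≤ M := K06_T_card P hP
  set D := K06_D T with hD
  have hDc : D.card ≤ b := by
    refine le_trans (K06_D_card T) ?_
    rw [hb]
    exact Nat.add_le_add_left (Nat.mul_le_mul_right _ (Nat.mul_le_mul hTc hTc)) _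
  set B : Finset PSL(2, F) := univ.filter fun z => ∃ Z, K06_pi F Z = z ∧ tr Z ∈ D with hB
  have hmem : ∀ Z, K06_pi F Z ∈ B → tr Z ∈ D := by
    intro Z hZ
    rw [hB, mem_filter] at hZ
    obtain ⟨-, Z', h1, h2⟩ := hZ
    rcases K06_eq Z' Z h1 with h | h
    · rw [h]; exact h2
    · rw [h, tr_neg]; exact K06_D_neg h2
  have hmem' : ∀ Z, tr Z ∈ D → K06_pi F Z ∈ B := by
    intro Z hZ
    rw [hB, mem_filter]
    exact ⟨mem_univ _, Z, rfl, hZ⟩
  have h1B : (1 : PSL(2, F)) ∈ B := by
    rw [← map_one (K06_pi F)]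
    apply hmem'
    rw [hD, K06_D, mem_filter]
    refine ⟨mem_univ _, Or.inl ?_⟩
    rw [tr_one]; norm_num
  have hPSL : Fintype.card PSL(2, F) ≤ 2 * q ^ 3 := by
    refine le_trans ?_ (card_sl_le (F := F))
    exact Fintype.card_le_of_surjective (K06_pi F) K06_surj

  have hsq : ((univ : Finset PSL(2, F)).filter fun a => a ^ 2 ∈ B).card ≤ 4 * b * q ^ 2 := by
    refine le_trans (K06_card_le _ (univ.filter fun A : SL(2, F) => tr (A * A) ∈ D) ?_) ?_
    · intro X hX
      rw [mem_filter] at hX ⊢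
      refine ⟨mem_univ _, hmem _ ?_⟩
      rw [map_mul, ← pow_two]
      exact hX.2
    · refine le_trans (K06_L4 D) ?_
      calc D.card * 2 * (2 * q * q) ≤ b * 2 * (2 * q * q) :=
            Nat.mul_le_mul_right _ (Nat.mul_le_mul_right _ hDc)
        _ = 4 * b * q ^ 2 := by ring
  refine ⟨B, h1B, ?_, ?_, ?_, ?_, ?_, ?_⟩
  · intro z hz
    obtain ⟨Z, rfl⟩ := K06_surj z
    rw [← map_inv]
    apply hmem'
    rw [tr_inv]
    exact hmem Z hz
  ·
    intro m hm z hz
    obtain ⟨Z, rfl⟩ := K06_surj z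
    have hZ : ¬ Cen Z := fun h => hz ((K06_one_iff Z).2 h)
    have h1 : ((tor PSL(2, F) m).filter fun x => x⁻¹ * K06_pi F Z ∈ B).card ≤ M * b * 2 * q := by
      refine le_trans (K06_card_le _ (univ.filter fun X : SL(2, F) => tr X ∈ T ∧
        tr (X⁻¹ * Z) ∈ D) ?_) ?_
      · intro X hX
        rw [mem_filter, tor, mem_filter] at hX
        rw [mem_filter]
        refine ⟨mem_univ _, K06_mem_T hm ?_, hmem _ ?_⟩
        · rw [← K06_one_iff, map_pow]
          exact hX.1.2
        · rw [map_mul, map_inv]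
          exact hX.2
      · refine le_trans (K06_L1 Z hZ T D) ?_
        calc T.card * D.card * (2 * q) ≤ M * b * (2 * q) :=
              Nat.mul_le_mul_right _ (Nat.mul_le_mul hTc hDc)
          _ = M * b * 2 * q := by ring
    have h2 : M * b * 2 * q ≤ K * q := Nat.mul_le_mul_right _ (by omega)
    exact_mod_cast h1.trans h2
  ·
    intro m hm n hn hmc hnc z hz
    obtain ⟨Z, rfl⟩ := K06_surj z
    have hZD : tr Z ∉ D := fun h => hz (hmem' _ h)
    rw [hD, K06_D, mem_filter] at hZD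
    push Not at hZD
    obtain ⟨hZ4, hZS⟩ := hZD (mem_univ _)
    have hZ : ¬ Cen Z := by
      rintro (rfl | rfl)
      · apply hZ4; rw [tr_one]; norm_num
      · apply hZ4; rw [tr_neg, tr_one]; norm_num
    have hex : ∀ k : ℕ, ¬ Nat.Coprime k (Fintype.card PSL(2, F)) →
        ∃ X₀ : SL(2, F), ¬ Cen X₀ ∧ Cen (X₀ ^ k) := by
      intro k hk
      obtain ⟨r, hr, hrk, hrG⟩ := Nat.Prime.not_coprime_iff_dvd.1 hk
      have : Fact r.Prime := ⟨hr⟩
      obtain ⟨g, hg⟩ := exists_prime_orderOf_dvd_card r hrG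
      obtain ⟨X, rfl⟩ := K06_surj g
      refine ⟨X, ?_, ?_⟩
      · rw [← K06_one_iff]
        intro h
        rw [h, orderOf_one] at hg
        exact hr.one_lt.ne hg
      · rw [← K06_one_iff, map_pow]
        exact orderOf_dvd_iff_pow_eq_one.1 (hg ▸ hrk)
    obtain ⟨X₁, h1, h1'⟩ := hex m hmc
    obtain ⟨X₂, h2, h2'⟩ := hex n hnc
    have hS : S3 (tr X₁) (tr X₂) (tr Z) ≠ 0 :=
      (hZS _ (K06_mem_T hm h1') _ (K06_mem_T hn h2')).1
    have h3 := card_pair_ge Z hZ (tr X₁) (tr X₂) hS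
    have h4 := K06_card_ge ((tor PSL(2, F) m).filter fun x =>
      x⁻¹ * K06_pi F Z ∈ tor PSL(2, F) n)
      (univ.filter fun X : SL(2, F) => tr X = tr X₁ ∧ tr (X⁻¹ * Z) = tr X₂) (by
        intro X hX
        rw [mem_filter] at hX
        obtain ⟨-, hXa, hXb⟩ := hX
        have hne := S3_ne_of Z X _ _ hS hXa hXb
        have hX1 := (not_cen_of Z X hne).1
        have hX2 : ¬ Cen (X⁻¹ * Z) := by
          rintro (h | h)
          · apply hne
            rw [inv_mul_eq_one] at h
            rw [h]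
          · apply hne
            rw [inv_mul_eq_iff_eq_mul] at h
            rw [h]
            simp
        rw [mem_filter, tor, tor, mem_filter, mem_filter]
        refine ⟨⟨mem_univ _, ?_⟩, mem_univ _, ?_⟩
        · rw [← map_pow, K06_one_iff]
          exact K06_L2 m X₁ X h1 hX1 hXa h1'
        · rw [← map_inv, ← map_mul, ← map_pow, K06_one_iff]
          exact K06_L2 n X₂ _ h2 hX2 hXb h2')
    set N := ((tor PSL(2, F) m).filter fun x => x⁻¹ * K06_pi F Z ∈ tor PSL(2, F) n).card with hN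
    have h5 : q ≤ 4 * N := by
      have h6 := h3.trans h4
      rw [← hqdef] at h6
      omega
    have h7 : q ≤ K * N := h5.trans (Nat.mul_le_mul_right _ (by omega))
    exact_mod_cast h7
  ·
    have h1 : ((univ : Finset (PSL(2, F) × PSL(2, F))).filter
        fun t => t.1 * t.2 * t.1⁻¹ * t.2⁻¹ ∈ B).card ≤ 2 * q ^ 3 + 2 * q ^ 3 * (4 * b * q ^ 2) := by
      refine le_trans (card_le_card (t := (univ : Finset PSL(2, F)).image (fun y => (1, y)) ∪
        ((univ : Finset PSL(2, F)).filter fun a => a ≠ 1).biUnion fun a =>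
          ((univ : Finset PSL(2, F)).filter fun c => a * c * a⁻¹ * c⁻¹ ∈ B).image
            fun c => (a, c)) ?_) (le_trans (card_union_le _ _) (Nat.add_le_add ?_ ?_))
      · rintro ⟨x, y⟩ hxy
        rw [mem_filter] at hxy
        rw [mem_union]
        by_cases hx : x = 1
        · left
          rw [hx]
          exact mem_image_of_mem _ (mem_univ _)
        · right
          rw [mem_biUnion]
          refine ⟨x, by rw [mem_filter]; exact ⟨mem_univ _, hx⟩, mem_image_of_mem _ ?_⟩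
          rw [mem_filter]
          exact ⟨mem_univ _, hxy.2⟩
      · refine le_trans card_image_le ?_
        rw [card_univ]
        exact hPSL
      · refine le_trans (card_biUnion_le_card_mul _ _ (4 * b * q ^ 2) ?_)
          (Nat.mul_le_mul_right _ (le_trans (card_filter_le _ _) (by rw [card_univ]; exact hPSL)))
        intro x hx
        rw [mem_filter] at hx
        refine le_trans card_image_le ?_
        obtain ⟨A, rfl⟩ := K06_surj x
        have hA : ¬ Cen A := fun h => hx.2 ((K06_one_iff A).2 h)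
        refine le_trans (K06_card_le _ (univ.filter fun Y : SL(2, F) =>
          tr (A * Y * A⁻¹ * Y⁻¹) ∈ D) ?_) ?_
        · intro X hX
          rw [mem_filter] at hX ⊢
          refine ⟨mem_univ _, hmem _ ?_⟩
          rw [map_mul, map_mul, map_mul, map_inv, map_inv]
          exact hX.2
        · refine le_trans (K06_L3 A hA D) ?_
          calc D.card * (2 * q) * (2 * q) ≤ b * (2 * q) * (2 * q) :=
                Nat.mul_le_mul_right _ (Nat.mul_le_mul_right _ hDc)
            _ = 4 * b * q ^ 2 := by ring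
    have h2 : 2 * q ^ 3 + 2 * q ^ 3 * (4 * b * q ^ 2) ≤ K * q ^ 5 := by
      have hq3 : q ^ 3 ≤ q ^ 5 := Nat.pow_le_pow_right (by omega) (by omega)
      calc 2 * q ^ 3 + 2 * q ^ 3 * (4 * b * q ^ 2) = 2 * q ^ 3 + 8 * b * q ^ 5 := by ring
        _ ≤ 2 * q ^ 5 + 8 * b * q ^ 5 := by omega
        _ = (8 * b + 2) * q ^ 5 := by ring
        _ ≤ K * q ^ 5 := Nat.mul_le_mul_right _ (by omega)
    exact_mod_cast h1.trans h2
  ·
    have h2 : 4 * b * q ^ 2 ≤ K * q ^ 2 := Nat.mul_le_mul_right _ (by omega)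
    exact_mod_cast hsq.trans h2
  ·
    have h1 : ((univ : Finset (PSL(2, F) × PSL(2, F))).filter
        fun t => t.1 ^ 2 * t.2 ^ 2 ∈ B).card ≤
        4 * b * q ^ 2 * (2 * q ^ 3) + 2 * q ^ 3 * ((2 * b + 2) * q ^ 2) := by
      refine le_trans (card_le_card (t :=
        ((univ : Finset PSL(2, F)).filter fun a => a ^ 2 ∈ B) ×ˢ (univ : Finset PSL(2, F)) ∪
        ((univ : Finset PSL(2, F)).filter fun a => a ^ 2 ∉ B).biUnion fun a =>
          ((univ : Finset PSL(2, F)).filter fun c => a ^ 2 * c ^ 2 ∈ B).image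
            fun c => (a, c)) ?_) (le_trans (card_union_le _ _) (Nat.add_le_add ?_ ?_))
      · rintro ⟨x, y⟩ hxy
        rw [mem_filter] at hxy
        rw [mem_union]
        by_cases hx : x ^ 2 ∈ B
        · left
          rw [mem_product, mem_filter]
          exact ⟨⟨mem_univ _, hx⟩, mem_univ _⟩
        · right
          rw [mem_biUnion]
          refine ⟨x, by rw [mem_filter]; exact ⟨mem_univ _, hx⟩, mem_image_of_mem _ ?_⟩
          rw [mem_filter]
          exact ⟨mem_univ _, hxy.2⟩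
      · rw [card_product, card_univ]
        exact Nat.mul_le_mul hsq hPSL
      · refine le_trans (card_biUnion_le_card_mul _ _ ((2 * b + 2) * q ^ 2) ?_)
          (Nat.mul_le_mul_right _ (le_trans (card_filter_le _ _) (by rw [card_univ]; exact hPSL)))
        intro x hx
        rw [mem_filter] at hx
        refine le_trans card_image_le ?_
        obtain ⟨A, rfl⟩ := K06_surj x
        have hA : ¬ Cen (A * A) := fun h => hx.2 (by
          have := (K06_one_iff (A * A)).2 h
          rw [map_mul, ← pow_two] at this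
          rw [this]
          exact h1B)
        refine le_trans (K06_card_le _ (univ.filter fun Y : SL(2, F) =>
          tr ((A * A) * (Y * Y)) ∈ D) ?_) ?_
        · intro X hX
          rw [mem_filter] at hX ⊢
          refine ⟨mem_univ _, hmem _ ?_⟩
          rw [map_mul, map_mul, map_mul, ← pow_two, ← pow_two]
          exact hX.2
        · refine le_trans (K06_L5 (A * A) hA D) ?_
          calc q * D.card * (2 * q) + 2 * q * q ≤ q * b * (2 * q) + 2 * q * q :=
                Nat.add_le_add_right (Nat.mul_le_mul_right _ (Nat.mul_le_mul_left _ hDc)) _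
            _ = (2 * b + 2) * q ^ 2 := by ring
    have h2 : 4 * b * q ^ 2 * (2 * q ^ 3) + 2 * q ^ 3 * ((2 * b + 2) * q ^ 2) ≤ K * q ^ 5 := by
      calc 4 * b * q ^ 2 * (2 * q ^ 3) + 2 * q ^ 3 * ((2 * b + 2) * q ^ 2)
          = (12 * b + 4) * q ^ 5 := by ring
        _ ≤ K * q ^ 5 := Nat.mul_le_mul_right _ (by omega)
    exact_mod_cast h1.trans h2

end Pool.Agent.Helper669_gp.K06
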