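import Mathlib
import Pool.Agent.Helper669_gp.Tr

/-!
Exceptional traces.
-/

namespace Pool.Agent.Helper669_gp

open scoped MatrixGroups

/-- Exceptional traces: zero, traces of elements of order dividing `240` modulo the centre, and
elements whose square lies in a proper subfield. -/
def IsXi (F : Type) [Field F] [Fintype F] (t : F) : Prop :=
  t = 0 ∨ (∃ X : SL(2, F), tr X = t ∧ Cen (X ^ 240)) ∨
    ∃ v j : ℕ, 1 < j ∧ Fintype.card F = v ^ j ∧ (t ^ 2) ^ v = t ^ 2

end Pool.Agent.Helper669_gp
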