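import Mathlib
import Pool.Agent.Helper669_gp.Low2
import Pool.Agent.Helper669_gp.Xi
import Pool.Agent.Helper669_gp.K01

namespace Pool.Agent.Helper669_gp.K02

open Pool.Agent.Helper669_gp.K01

open scoped MatrixGroups

open Finset

open scoped Classical in

lemma K02_roots (F : Type) [Field F] [Fintype F] [DecidableEq F] (v : ℕ) (hv : 2 ≤ v) :
    (univ.filter fun t : F => (t ^ 2) ^ v = t ^ 2).card ≤ 2 * v := by
  set P : Polynomial F := Polynomial.X ^ (2 * v) - Polynomial.X ^ 2 with hP
  have hdeg : P.natDegree = 2 * v := by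
    rw [hP]
    rw [Polynomial.natDegree_sub_eq_left_of_natDegree_lt]
    · simp
    · simp only [Polynomial.natDegree_X_pow]
      omega
  have hne : P ≠ 0 := by
    intro h0
    rw [h0, Polynomial.natDegree_zero] at hdeg
    omega
  have hsub : (univ.filter fun t : F => (t ^ 2) ^ v = t ^ 2) ⊆ P.roots.toFinset := by
    intro t ht
    rw [Finset.mem_filter] at ht
    rw [Multiset.mem_toFinset, Polynomial.mem_roots hne, Polynomial.IsRoot.def, hP]
    simp only [Polynomial.eval_sub, Polynomial.eval_pow, Polynomial.eval_X]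
    rw [pow_mul, ht.2, sub_self]
  calc _ ≤ P.roots.toFinset.card := Finset.card_le_card hsub
    _ ≤ Multiset.card P.roots := Multiset.toFinset_card_le _
    _ ≤ P.natDegree := Polynomial.card_roots' P
    _ = _ := hdeg

lemma K02_geom (p : ℕ) (hp : 2 ≤ p) (n : ℕ) : ∑ k ∈ Finset.Icc 1 n, p ^ k ≤ 2 * p ^ n := by
  induction n with
  | zero => simp
  | succ n ih =>
    rw [Finset.sum_Icc_succ_top (by omega)]
    have h1 : 2 * p ^ n ≤ p ^ (n + 1) := by
      rw [pow_succ, mul_comm]
      exact Nat.mul_le_mul_left _ hp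
    omega

open scoped Classical in

theorem xi_card (F : Type) [Field F] [Fintype F] [DecidableEq F] :
    ((univ.filter fun t : F => IsXi F t).card : ℝ) ≤ 481 + 4 * Real.sqrt (Fintype.card F) := by
  obtain ⟨p, -, n, hp, hcard⟩ := FiniteField.card' F
  set f : ℕ := (n : ℕ) with hf
  have hp2 : 2 ≤ p := hp.two_le
  have hsub : (univ.filter fun t : F => IsXi F t) ⊆
      ({0} ∪ (univ.filter fun t : F => ∃ X : SL(2, F), tr X = t ∧ Cen (X ^ 240))) ∪
        (Finset.Icc 1 (f / 2)).biUnion fun k => (univ.filter fun t : F => (t ^ 2) ^ (p ^ k) = t ^ 2) := by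
    intro t ht
    rw [Finset.mem_filter] at ht
    rw [Finset.mem_union, Finset.mem_union]
    rcases ht.2 with h | h | ⟨v, j, hj, hv, ht2⟩
    · left; left
      rw [h]
      exact Finset.mem_singleton_self _
    · left; right
      rw [Finset.mem_filter]
      exact ⟨Finset.mem_univ _, h⟩
    · right
      rw [hcard] at hv
      have hdvd : v ∣ p ^ f := by
        rw [hv]
        exact dvd_pow_self v (by omega)
      obtain ⟨k, hk, rfl⟩ := (Nat.dvd_prime_pow hp).1 hdvd
      rw [← pow_mul] at hv
      have hkj : f = k * j := Nat.pow_right_injective hp2 hv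
      rw [Finset.mem_biUnion]
      refine ⟨k, ?_, ?_⟩
      · rw [Finset.mem_Icc]
        have hfpos : 0 < f := n.pos
        constructor
        · rcases Nat.eq_zero_or_pos k with h0 | h0
          · rw [h0, zero_mul] at hkj
            omega
          · exact h0
        · rw [Nat.le_div_iff_mul_le (by norm_num)]
          rw [hkj]
          exact Nat.mul_le_mul_left _ (by omega)
      · rw [Finset.mem_filter]
        exact ⟨Finset.mem_univ _, ht2⟩
  have h1 := tset_card F 240 (by norm_num)
  have h2 : ((Finset.Icc 1 (f / 2)).biUnion fun k => (univ.filter fun t : F => (t ^ 2) ^ (p ^ k) = t ^ 2)).card ≤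
      4 * p ^ (f / 2) := by
    refine Finset.card_biUnion_le.trans ?_
    have h3 : ∀ k ∈ Finset.Icc 1 (f / 2), (univ.filter fun t : F => (t ^ 2) ^ (p ^ k) = t ^ 2).card ≤ 2 * p ^ k := by
      intro k hk
      rw [Finset.mem_Icc] at hk
      apply K02_roots
      calc 2 ≤ p := hp2
        _ = p ^ 1 := (pow_one p).symm
        _ ≤ p ^ k := Nat.pow_le_pow_right (by omega) hk.1
    refine (Finset.sum_le_sum h3).trans ?_
    rw [← Finset.mul_sum]
    have := K02_geom p hp2 (f / 2)
    omega
  have h4 : (univ.filter fun t : F => IsXi F t).card ≤ 481 + 4 * p ^ (f / 2) := by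
    have e1 := Finset.card_le_card hsub
    have e2 := Finset.card_union_le ({0} ∪ (univ.filter fun t : F => ∃ X : SL(2, F), tr X = t ∧ Cen (X ^ 240)))
      ((Finset.Icc 1 (f / 2)).biUnion fun k => (univ.filter fun t : F => (t ^ 2) ^ (p ^ k) = t ^ 2))
    have e3 := Finset.card_union_le {0} (univ.filter fun t : F => ∃ X : SL(2, F), tr X = t ∧ Cen (X ^ 240))
    have e4 : ({0} : Finset F).card = 1 := Finset.card_singleton 0
    omega
  have h5 : ((p : ℝ) ^ (f / 2)) ≤ Real.sqrt (Fintype.card F) := by
    apply Real.le_sqrt_of_sq_le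
    rw [hcard]
    push_cast
    rw [← pow_mul]
    apply pow_le_pow_right₀
    · exact_mod_cast hp.one_le
    · omega
  have h6 : ((univ.filter fun t : F => IsXi F t).card : ℝ) ≤ 481 + 4 * (p : ℝ) ^ (f / 2) := by
    exact_mod_cast h4
  linarith

end Pool.Agent.Helper669_gp.K02
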