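import Mathlib
import Pool.Agent.Helper669_gp.Low2
import Pool.Agent.Helper669_gp.Pts
import Pool.Agent.Helper669_gp.Xi
import Pool.Agent.Helper669_gp.Dick4

namespace Pool.Agent.Helper669_gp.K03

open scoped MatrixGroups

open Finset

open scoped OnePoint in

theorem K03_fix {F : Type} [Field F] (K : Type) [Field K] [DecidableEq K] [Algebra F K]
    (A B : SL(2, F)) (x : OnePoint K) (hA : act K A x = x) (hB : act K B x = x) :
    S3 (tr A) (tr B) (tr (A * B)) = 0 := by
  have hA' : act K A⁻¹ x = x := (act_inv_eq K A x x).mpr hA.symm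
  have hB' : act K B⁻¹ x = x := (act_inv_eq K B x x).mpr hB.symm
  have hAB : act K (A * B) x = x := by rw [act_mul, hB, hA]
  have hABA : act K (A * B * A⁻¹) x = x := by rw [act_mul, hA', hAB]
  have hC : act K (A * B * A⁻¹ * B⁻¹) x = x := by rw [act_mul, hB', hABA]
  have e1 : ev K A x * ev K A⁻¹ x = 1 := by
    rw [← ev_mul K A A⁻¹ x hA hA', mul_inv_cancel, ev_one]
  have e2 : ev K B x * ev K B⁻¹ x = 1 := by
    rw [← ev_mul K B B⁻¹ x hB hB', mul_inv_cancel, ev_one]
  have e3 : ev K (A * B * A⁻¹ * B⁻¹) x = 1 := by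
    rw [ev_mul K _ _ x hABA hB', ev_mul K _ _ x hAB hA', ev_mul K _ _ x hA hB]
    linear_combination (ev K B x * ev K B⁻¹ x) * e1 + e2
  have h2 := (ev_eq_one_iff K _ x hC).mp e3
  rw [← fricke, h2, sub_self]

open scoped OnePoint in

theorem K03_swap {F : Type} [Field F] (K : Type) [Field K] [DecidableEq K] [Algebra F K]
    (X : SL(2, F)) (x y : OnePoint K) (hxy : x ≠ y) (h1 : act K X x = y) (h2 : act K X y = x) :
    tr X = 0 := by

  have hinf : ∀ k : K, act K X ∞ = (k : OnePoint K) → act K X (k : OnePoint K) = ∞ → tr X = 0 := by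
    intro k h1 h2
    rw [act, OnePoint.smul_infty_eq_ite, toK_apply, toK_apply] at h1
    rw [act, OnePoint.smul_some_eq_ite, toK_apply, toK_apply, toK_apply, toK_apply] at h2
    split_ifs at h1 with h3
    · exact absurd h1 (OnePoint.infty_ne_coe k)
    · split_ifs at h2 with h4
      · rw [OnePoint.coe_eq_coe, div_eq_iff h3] at h1
        apply (algebraMap F K).injective
        rw [tr, map_add, map_zero]
        linear_combination h1 + h4
      · exact absurd h2 (OnePoint.coe_ne_infty _)
  induction x using OnePoint.rec with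
  | infty =>
    induction y using OnePoint.rec with
    | infty => exact absurd rfl hxy
    | coe k => exact hinf k h1 h2
  | coe k =>
    induction y using OnePoint.rec with
    | infty => exact hinf k h2 h1
    | coe l =>
      rw [act, OnePoint.smul_some_eq_ite, toK_apply, toK_apply, toK_apply, toK_apply] at h1 h2
      split_ifs at h1 with h3
      · exact absurd h1 (OnePoint.infty_ne_coe _)
      · split_ifs at h2 with h4
        · exact absurd h2 (OnePoint.infty_ne_coe _)
        · rw [OnePoint.coe_eq_coe, div_eq_iff h3] at h1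
          rw [OnePoint.coe_eq_coe, div_eq_iff h4] at h2
          have hkl : k - l ≠ 0 := fun h => hxy (by rw [sub_eq_zero.mp h])
          apply (algebraMap F K).injective
          rw [tr, map_add, map_zero]
          apply mul_left_cancel₀ hkl
          linear_combination h1 - h2

theorem gen_crit (F : Type) [Field F] [Fintype F] [DecidableEq F] (A B : SL(2, F))
    (hne : Subgroup.closure {A, B, -1} ≠ ⊤) :
    S3 (tr A) (tr B) (tr (A * B)) = 0 ∨
    ((tr A = 0 ∧ tr B = 0) ∨ (tr A = 0 ∧ tr (A * B) = 0) ∨ (tr B = 0 ∧ tr (A * B) = 0)) ∨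
    (∀ X ∈ Subgroup.closure {A, B, -1}, IsXi F (tr X)) := by
  classical
  let K := AlgebraicClosure F
  have hmA : A ∈ Subgroup.closure ({A, B, -1} : Set SL(2, F)) :=
    Subgroup.subset_closure (by simp)
  have hmB : B ∈ Subgroup.closure ({A, B, -1} : Set SL(2, F)) :=
    Subgroup.subset_closure (by simp)
  have hm1 : -1 ∈ Subgroup.closure ({A, B, -1} : Set SL(2, F)) :=
    Subgroup.subset_closure (by simp)
  rcases dickson F K (Subgroup.closure {A, B, -1}) hm1 with h | h | h | h | h
  · obtain ⟨x, hx⟩ := h
    left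
    exact K03_fix K A B x (hx A hmA) (hx B hmB)
  · obtain ⟨x, y, hxy, h⟩ := h
    rcases h A hmA with hA | hA
    · rcases h B hmB with hB | hB
      · left
        exact K03_fix K A B x hA.1 hB.1
      · right; left; right; right
        refine ⟨K03_swap K B x y hxy hB.1 hB.2, K03_swap K (A * B) x y hxy ?_ ?_⟩
        · rw [act_mul, hB.1, hA.2]
        · rw [act_mul, hB.2, hA.1]
    · rcases h B hmB with hB | hB
      · right; left; right; left
        refine ⟨K03_swap K A x y hxy hA.1 hA.2, K03_swap K (A * B) x y hxy ?_ ?_⟩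
        · rw [act_mul, hB.1, hA.1]
        · rw [act_mul, hB.2, hA.2]
      · right; left; left
        exact ⟨K03_swap K A x y hxy hA.1 hA.2, K03_swap K B x y hxy hB.1 hB.2⟩
  · right; right
    intro X hX
    right; left
    refine ⟨X, rfl, Or.inl ?_⟩
    obtain ⟨c, hc⟩ := h
    have h3 : (⟨X, hX⟩ : Subgroup.closure ({A, B, -1} : Set SL(2, F))) ^
        Nat.card (Subgroup.closure ({A, B, -1} : Set SL(2, F))) = 1 := pow_card_eq_one'
    have h4 : X ^ Nat.card (Subgroup.closure ({A, B, -1} : Set SL(2, F))) = 1 :=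
      congrArg Subtype.val h3
    rw [hc, pow_mul, h4, one_pow]
  · obtain ⟨v, j, e, _, hj, hc, _, _, ht⟩ := h
    right; right
    intro X hX
    right; right
    exact ⟨v, j, hj, hc, ht X hX⟩
  · exact absurd h hne

end Pool.Agent.Helper669_gp.K03
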