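import Mathlib
import Pool.Agent.Helper669_gp.Low2
import Pool.Agent.Helper669_gp.Xi
import Pool.Agent.Helper669_gp.K02
import Pool.Agent.Helper669_gp.K03

namespace Pool.Agent.Helper669_gp.K04

open Pool.Agent.Helper669_gp.K02 Pool.Agent.Helper669_gp.K03

open scoped MatrixGroups

open Finset

open scoped Classical in

theorem bad_pairs (F : Type) [Field F] [Fintype F] [DecidableEq F] (a b : F)
    (hab : ¬ (a = 0 ∧ b = 0)) :
    ((univ.filter fun t : SL(2, F) × SL(2, F) => tr t.1 = a ∧ tr t.2 = b ∧ ¬ Cen t.1 ∧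
      Subgroup.closure {t.1, t.2, -1} ≠ ⊤).card : ℝ) ≤
      5000 * (Fintype.card F : ℝ) ^ 3 * Real.sqrt (Fintype.card F) := by
  classical
  set q : ℕ := Fintype.card F with hq
  set U : Finset F := ((univ.filter fun u : F => u ^ 2 + (-(a * b)) * u + (a ^ 2 + b ^ 2 - 4) = 0) ∪
    {0}) ∪ (univ.filter fun t : F => IsXi F t) with hU
  have hUcard : (U.card : ℝ) ≤ 484 + 4 * Real.sqrt q := by
    have h1 : U.card ≤ 2 + 1 + (univ.filter fun t : F => IsXi F t).card := by
      refine (card_union_le _ _).trans (Nat.add_le_add_right ((card_union_le _ _).trans ?_) _)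
      exact Nat.add_le_add (quad_card _ _) (le_of_eq (card_singleton _))
    have h2 := xi_card F
    have h3 : (U.card : ℝ) ≤ 2 + 1 + ((univ.filter fun t : F => IsXi F t).card : ℝ) := by
      exact_mod_cast h1
    linarith
  set S := (univ.filter fun A : SL(2, F) => tr A = a ∧ ¬ Cen A) with hS
  have hScard : S.card ≤ 2 * q * q := by
    refine le_trans (card_le_card ?_) (card_tr_le (F := F) a)
    intro A hA
    simp only [hS, mem_filter, mem_univ, true_and] at hA ⊢
    exact hA.1
  have hsub : (univ.filter fun t : SL(2, F) × SL(2, F) => tr t.1 = a ∧ tr t.2 = b ∧ ¬ Cen t.1 ∧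
      Subgroup.closure {t.1, t.2, -1} ≠ ⊤) ⊆ (S ×ˢ U).biUnion (fun p =>
        (univ.filter fun B : SL(2, F) => tr B = b ∧ tr (p.1 * B) = p.2).image
          (fun B => (p.1, B))) := by
    rintro ⟨A, B⟩ ht
    simp only [mem_filter, mem_univ, true_and] at ht
    obtain ⟨hA, hB, hC, hne⟩ := ht
    simp only [mem_biUnion, mem_image, mem_filter, mem_univ, true_and, mem_product]
    refine ⟨(A, tr (A * B)), ⟨?_, ?_⟩, B, ⟨hB, rfl⟩, rfl⟩
    · simp only [hS, mem_filter, mem_univ, true_and]
      exact ⟨hA, hC⟩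
    · simp only [hU, mem_union, mem_filter, mem_univ, true_and, mem_singleton]
      rcases gen_crit F A B hne with h | h | h
      · left; left
        rw [hA, hB] at h
        unfold S3 at h
        linear_combination h
      · left; right
        rw [hA, hB] at h
        rcases h with h | h | h
        · exact absurd h hab
        · exact h.2
        · exact h.2
      · right
        exact h _ (Subgroup.mul_mem _ (Subgroup.subset_closure (by simp))
          (Subgroup.subset_closure (by simp)))
  have hcard : (univ.filter fun t : SL(2, F) × SL(2, F) => tr t.1 = a ∧ tr t.2 = b ∧ ¬ Cen t.1 ∧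
      Subgroup.closure {t.1, t.2, -1} ≠ ⊤).card ≤ (2 * q * q) * U.card * (2 * q) := by
    refine (card_le_card hsub).trans (card_biUnion_le.trans ?_)
    calc _ ≤ ∑ _p ∈ S ×ˢ U, 2 * q := by
          refine sum_le_sum (fun p hp => ?_)
          refine card_image_le.trans (card_two p.1 ?_ b p.2)
          have := (mem_product.mp hp).1
          simp only [hS, mem_filter, mem_univ, true_and] at this
          exact this.2
      _ = S.card * U.card * (2 * q) := by rw [sum_const, card_product, smul_eq_mul]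
      _ ≤ _ := by gcongr
  have hq1 : (1 : ℝ) ≤ q := by
    rw [hq]; exact_mod_cast Fintype.card_pos
  have hs1 : (1 : ℝ) ≤ Real.sqrt q := Real.one_le_sqrt.mpr hq1
  have hq3 : (0 : ℝ) ≤ (q : ℝ) ^ 3 := by positivity
  calc ((univ.filter fun t : SL(2, F) × SL(2, F) => tr t.1 = a ∧ tr t.2 = b ∧ ¬ Cen t.1 ∧
      Subgroup.closure {t.1, t.2, -1} ≠ ⊤).card : ℝ) ≤ (2 * q * q) * U.card * (2 * q) := by
        exact_mod_cast hcard
    _ = 4 * (q : ℝ) ^ 3 * U.card := by ring
    _ ≤ 4 * (q : ℝ) ^ 3 * (484 + 4 * Real.sqrt q) := by gcongr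
    _ ≤ 4 * (q : ℝ) ^ 3 * (1250 * Real.sqrt q) := by
        apply mul_le_mul_of_nonneg_left _ (by positivity)
        linarith
    _ = _ := by ring

end Pool.Agent.Helper669_gp.K04
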