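import Mathlib
import Pool.Agent.Helper669_gp.Low2
import Pool.Agent.Helper669_gp.Pts
import Pool.Agent.Helper669_gp.Abs
import Pool.Agent.Helper669_gp.K01
import Pool.Agent.Helper669_gp.K04

namespace Pool.Agent.Helper669_gp.K07

open Pool.Agent.Helper669_gp.K01 Pool.Agent.Helper669_gp.K04

open scoped MatrixGroups

open Finset

section K07

variable {F : Type} [Field F]

lemma K07_mk_neg_one : (QuotientGroup.mk (-1 : SL(2, F)) : PSL(2, F)) = 1 := by
  rw [QuotientGroup.eq_one_iff]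
  rw [mem_center_iff']
  exact Or.inr rfl

lemma K07_closure (A B : SL(2, F)) (h : Subgroup.closure {A, B, -1} = ⊤) :
    Subgroup.closure {(QuotientGroup.mk A : PSL(2, F)), (QuotientGroup.mk B : PSL(2, F))} = ⊤ := by
  rw [eq_top_iff]
  rintro x -
  obtain ⟨X, rfl⟩ := QuotientGroup.mk_surjective x
  have hX : X ∈ Subgroup.closure {A, B, -1} := by rw [h]; trivial
  have h2 : QuotientGroup.mk' (Subgroup.center SL(2, F)) X ∈
      (Subgroup.closure {A, B, -1}).map (QuotientGroup.mk' (Subgroup.center SL(2, F))) :=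
    ⟨X, hX, rfl⟩
  rw [MonoidHom.map_closure] at h2
  refine (Subgroup.closure_le _).2 ?_ h2
  rintro y ⟨z, hz, rfl⟩
  rcases hz with rfl | rfl | rfl
  · exact Subgroup.subset_closure (Or.inl rfl)
  · exact Subgroup.subset_closure (Or.inr rfl)
  · have : QuotientGroup.mk' (Subgroup.center SL(2, F)) (-1) = 1 := K07_mk_neg_one
    rw [this]
    exact Subgroup.one_mem _

lemma K07_pow (A : SL(2, F)) (m : ℕ) (h : (QuotientGroup.mk A : PSL(2, F)) ^ m = 1) :
    Cen (A ^ m) := by
  rw [← mem_center_iff', ← QuotientGroup.eq_one_iff]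
  exact h

lemma K07_sq (A : SL(2, F)) (h : tr A = 0) : (QuotientGroup.mk A : PSL(2, F)) ^ 2 = 1 := by
  have h1 : A ^ 2 = -1 := by
    have hd := det_eq A
    have ht : A 1 1 = - A 0 0 := by unfold tr at h; linear_combination h
    rw [pow_two]
    apply sl_ext
    · rw [mul00, neg00, one00]; rw [ht] at hd; linear_combination -hd
    · rw [mul01, neg01, one01, ht]; ring
    · rw [mul10, neg10, one10, ht]; ring
    · rw [mul11, neg11, one11, ht]; rw [ht] at hd; linear_combination -hd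
  have h2 : (QuotientGroup.mk A : PSL(2, F)) ^ 2 = QuotientGroup.mk (A ^ 2) := rfl
  rw [h2, h1]
  exact K07_mk_neg_one

open scoped Classical in
lemma K07_lift [Fintype F] [Fintype PSL(2, F)] (S : Finset (PSL(2, F) × PSL(2, F)))
    (T : Finset (SL(2, F) × SL(2, F)))
    (h : ∀ t ∈ S, ∀ A B : SL(2, F), (QuotientGroup.mk A : PSL(2, F)) = t.1 →
      (QuotientGroup.mk B : PSL(2, F)) = t.2 → (A, B) ∈ T) : S.card ≤ T.card := by
  apply Finset.card_le_card_of_injOn (fun t => (t.1.out, t.2.out))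
  · intro t ht
    exact h t ht _ _ (QuotientGroup.out_eq' t.1) (QuotientGroup.out_eq' t.2)
  · intro t _ u _ htu
    simp only [Prod.mk.injEq] at htu
    have h1 := congrArg (fun x : SL(2, F) => (QuotientGroup.mk x : PSL(2, F))) htu.1
    have h2 := congrArg (fun x : SL(2, F) => (QuotientGroup.mk x : PSL(2, F))) htu.2
    simp only [QuotientGroup.out_eq'] at h1 h2
    exact Prod.ext h1 h2

variable [Fintype F] [DecidableEq F]

open scoped Classical in

lemma K07_main (S1 S2 : Finset F) :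
    ((univ.filter fun t : SL(2, F) × SL(2, F) => tr t.1 ∈ S1 ∧ tr t.2 ∈ S2 ∧ ¬ Cen t.1 ∧
      Subgroup.closure {t.1, t.2, -1} ≠ ⊤ ∧ ¬ (tr t.1 = 0 ∧ tr t.2 = 0)).card : ℝ) ≤
      (S1.card : ℝ) * S2.card * (5000 * (Fintype.card F : ℝ) ^ 3 * Real.sqrt (Fintype.card F)) := by
  set B : ℝ := 5000 * (Fintype.card F : ℝ) ^ 3 * Real.sqrt (Fintype.card F) with hB
  have hB0 : 0 ≤ B := by positivity
  set W := univ.filter fun t : SL(2, F) × SL(2, F) => tr t.1 ∈ S1 ∧ tr t.2 ∈ S2 ∧ ¬ Cen t.1 ∧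
      Subgroup.closure {t.1, t.2, -1} ≠ ⊤ ∧ ¬ (tr t.1 = 0 ∧ tr t.2 = 0) with hW
  have h1 : W.card = ∑ ab ∈ S1 ×ˢ S2, (W.filter fun t => (tr t.1, tr t.2) = ab).card := by
    apply Finset.card_eq_sum_card_fiberwise
    intro t ht
    rw [hW] at ht
    simp only [coe_filter, mem_univ, true_and, Set.mem_ofPred_eq] at ht
    simp only [coe_product, Set.mem_prod, mem_coe]
    exact ⟨ht.1, ht.2.1⟩
  rw [h1, Nat.cast_sum]
  calc ∑ ab ∈ S1 ×ˢ S2, ((W.filter fun t => (tr t.1, tr t.2) = ab).card : ℝ)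
      ≤ ∑ _ab ∈ S1 ×ˢ S2, B := by
        refine Finset.sum_le_sum ?_
        rintro ⟨a, b⟩ _
        by_cases hab : a = 0 ∧ b = 0
        · have : (W.filter fun t => (tr t.1, tr t.2) = (a, b)) = ∅ := by
            rw [Finset.filter_eq_empty_iff]
            intro t ht
            rw [hW, mem_filter] at ht
            intro hc
            rw [Prod.mk.injEq] at hc
            apply ht.2.2.2.2.2
            rw [hc.1, hc.2]
            exact hab
          rw [this]
          simpa using hB0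
        · refine le_trans ?_ (bad_pairs F a b hab)
          have : (W.filter fun t => (tr t.1, tr t.2) = (a, b)) ⊆
              (univ.filter fun t : SL(2, F) × SL(2, F) => tr t.1 = a ∧ tr t.2 = b ∧ ¬ Cen t.1 ∧
                Subgroup.closure {t.1, t.2, -1} ≠ ⊤) := by
            intro t ht
            rw [mem_filter, hW, mem_filter, Prod.mk.injEq] at ht
            rw [mem_filter]
            exact ⟨mem_univ _, ht.2.1, ht.2.2, ht.1.2.2.2.1, ht.1.2.2.2.2.1⟩
          exact_mod_cast Finset.card_le_card this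
    _ = (S1.card : ℝ) * S2.card * B := by
        rw [Finset.sum_const, nsmul_eq_mul, Finset.card_product]
        push_cast
        ring

open scoped Classical in
lemma K07_trset (S2 : Finset F) :
    (univ.filter fun B : SL(2, F) => tr B ∈ S2).card ≤
      S2.card * (2 * Fintype.card F * Fintype.card F) := by
  have h1 : (univ.filter fun B : SL(2, F) => tr B ∈ S2).card =
      ∑ b ∈ S2, ((univ.filter fun B : SL(2, F) => tr B ∈ S2).filter fun B => tr B = b).card := by
    apply Finset.card_eq_sum_card_fiberwise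
    intro t ht
    simpa using ht
  rw [h1]
  calc _ ≤ ∑ _b ∈ S2, 2 * Fintype.card F * Fintype.card F := by
        refine Finset.sum_le_sum ?_
        intro b _
        refine le_trans (Finset.card_le_card ?_) (card_tr_le b)
        intro B hB
        rw [mem_filter] at hB
        rw [mem_filter]
        exact ⟨mem_univ _, hB.2⟩
    _ = _ := by rw [Finset.sum_const, smul_eq_mul]

open scoped Classical in
lemma K07_cen (S2 : Finset F) :
    (univ.filter fun t : SL(2, F) × SL(2, F) => Cen t.1 ∧ tr t.2 ∈ S2).card ≤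
      2 * (S2.card * (2 * Fintype.card F * Fintype.card F)) := by
  have h1 : (univ.filter fun t : SL(2, F) × SL(2, F) => Cen t.1 ∧ tr t.2 ∈ S2) ⊆
      ({1, -1} : Finset SL(2, F)) ×ˢ (univ.filter fun B : SL(2, F) => tr B ∈ S2) := by
    intro t ht
    rw [mem_filter] at ht
    rw [mem_product, mem_filter]
    refine ⟨?_, mem_univ _, ht.2.2⟩
    rw [mem_insert, mem_singleton]
    exact ht.2.1
  refine (Finset.card_le_card h1).trans ?_
  rw [Finset.card_product]
  exact Nat.mul_le_mul (Finset.card_le_two) (K07_trset S2)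

open scoped Classical in
lemma K07_zero :
    (univ.filter fun t : SL(2, F) × SL(2, F) => tr t.1 = 0 ∧ tr t.2 = 0).card ≤
      (2 * Fintype.card F * Fintype.card F) * (2 * Fintype.card F * Fintype.card F) := by
  have h1 : (univ.filter fun t : SL(2, F) × SL(2, F) => tr t.1 = 0 ∧ tr t.2 = 0) ⊆
      (univ.filter fun B : SL(2, F) => tr B = 0) ×ˢ (univ.filter fun B : SL(2, F) => tr B = 0) := by
    intro t ht
    rw [mem_filter] at ht
    rw [mem_product, mem_filter, mem_filter]
    exact ⟨⟨mem_univ _, ht.2.1⟩, mem_univ _, ht.2.2⟩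
  refine (Finset.card_le_card h1).trans ?_
  rw [Finset.card_product]
  exact Nat.mul_le_mul (card_tr_le 0) (card_tr_le 0)

open scoped Classical in

lemma K07_gen (S1 S2 : Finset F) [Fintype PSL(2, F)] (S : Finset (PSL(2, F) × PSL(2, F)))
    (b : Bool)
    (h1 : ∀ t ∈ S, ∀ A : SL(2, F), (QuotientGroup.mk A : PSL(2, F)) = t.1 → tr A ∈ S1)
    (h2 : ∀ t ∈ S, ∀ B : SL(2, F), (QuotientGroup.mk B : PSL(2, F)) = t.2 → tr B ∈ S2)
    (h3 : ∀ t ∈ S, Subgroup.closure {t.1, t.2} ≠ ⊤)
    (h4 : b = false → ∀ t ∈ S, ¬ (t.1 ^ 2 = 1 ∧ t.2 ^ 2 = 1)) :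
    (S.card : ℝ) ≤ (S1.card : ℝ) * S2.card *
        (5000 * (Fintype.card F : ℝ) ^ 3 * Real.sqrt (Fintype.card F)) +
      4 * S2.card * (Fintype.card F : ℝ) ^ 2 +
      (if b then 4 * (Fintype.card F : ℝ) ^ 4 else 0) := by
  set T1 := univ.filter fun t : SL(2, F) × SL(2, F) => tr t.1 ∈ S1 ∧ tr t.2 ∈ S2 ∧ ¬ Cen t.1 ∧
      Subgroup.closure {t.1, t.2, -1} ≠ ⊤ ∧ ¬ (tr t.1 = 0 ∧ tr t.2 = 0) with hT1
  set T2 := univ.filter fun t : SL(2, F) × SL(2, F) => Cen t.1 ∧ tr t.2 ∈ S2 with hT2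
  set T3 := univ.filter fun t : SL(2, F) × SL(2, F) => tr t.1 = 0 ∧ tr t.2 = 0 with hT3
  have hcard : S.card ≤ (T1 ∪ T2 ∪ (if b then T3 else ∅)).card := by
    apply K07_lift
    intro t ht A B hA hB
    have hcl : Subgroup.closure {A, B, -1} ≠ ⊤ := by
      intro hc
      apply h3 t ht
      have := K07_closure A B hc
      rwa [hA, hB] at this
    rw [mem_union, mem_union]
    by_cases hc : Cen A
    · left; right
      rw [hT2, mem_filter]
      exact ⟨mem_univ _, hc, h2 t ht B hB⟩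
    · by_cases hz : tr A = 0 ∧ tr B = 0
      · right
        cases b
        · exfalso
          apply h4 rfl t ht
          rw [← hA, ← hB]
          exact ⟨K07_sq A hz.1, K07_sq B hz.2⟩
        · simp only [if_true]
          rw [hT3, mem_filter]
          exact ⟨mem_univ _, hz⟩
      · left; left
        rw [hT1, mem_filter]
        exact ⟨mem_univ _, h1 t ht A hA, h2 t ht B hB, hc, hcl, hz⟩
  have hc2 : (T1 ∪ T2 ∪ (if b then T3 else ∅)).card ≤ T1.card + T2.card +
      (if b then T3 else ∅ : Finset (SL(2, F) × SL(2, F))).card :=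
    (Finset.card_union_le _ _).trans (by gcongr; exact Finset.card_union_le _ _)
  have e1 := K07_main S1 S2
  have e2 : (T2.card : ℝ) ≤ 4 * S2.card * (Fintype.card F : ℝ) ^ 2 := by
    have := K07_cen S2
    have h5 : (T2.card : ℝ) ≤ ((2 * (S2.card * (2 * Fintype.card F * Fintype.card F)) : ℕ) : ℝ) := by
      exact_mod_cast this
    refine h5.trans (le_of_eq ?_)
    push_cast
    ring
  have e3 : ((if b then T3 else ∅ : Finset (SL(2, F) × SL(2, F))).card : ℝ) ≤
      (if b then 4 * (Fintype.card F : ℝ) ^ 4 else 0) := by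
    cases b
    · simp
    · simp only [if_true]
      have h5 : (T3.card : ℝ) ≤ (((2 * Fintype.card F * Fintype.card F) *
          (2 * Fintype.card F * Fintype.card F) : ℕ) : ℝ) := by
        exact_mod_cast (K07_zero (F := F))
      refine h5.trans (le_of_eq ?_)
      push_cast
      ring
  have hS : (S.card : ℝ) ≤ (T1.card : ℝ) + T2.card +
      (if b then T3 else ∅ : Finset (SL(2, F) × SL(2, F))).card := by
    exact_mod_cast hcard.trans hc2
  linarith

end K07

open scoped Classical in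

theorem psl_gen (P : Finset ℕ) (hP : ∀ m ∈ P, 0 < m) : ∃ C : ℝ, 1 ≤ C ∧
    ∀ (F : Type) [Field F] [Fintype F] [DecidableEq F] [Fintype PSL(2, F)] [DecidableEq PSL(2, F)],
      4 ≤ Fintype.card F →
      (∀ m ∈ P, ∀ n ∈ P, (((tor PSL(2, F) m ×ˢ tor PSL(2, F) n).filter fun t =>
        Subgroup.closure {t.1, t.2} ≠ ⊤ ∧ ¬ (t.1 ^ 2 = 1 ∧ t.2 ^ 2 = 1)).card : ℝ) ≤
          C * Real.sqrt (Fintype.card F) ^ 7) ∧
      (∀ m ∈ P, (((tor PSL(2, F) m ×ˢ (univ : Finset PSL(2, F))).filter fun t =>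
        Subgroup.closure {t.1, t.2} ≠ ⊤).card : ℝ) ≤ C * Real.sqrt (Fintype.card F) ^ 9) ∧
      (((univ : Finset (PSL(2, F) × PSL(2, F))).filter fun t =>
        Subgroup.closure {t.1, t.2} ≠ ⊤).card : ℝ) ≤ C * Real.sqrt (Fintype.card F) ^ 11 := by
  set M : ℝ := ∑ m ∈ P, (m : ℝ) with hM
  have hM0 : 0 ≤ M := Finset.sum_nonneg (fun _ _ => Nat.cast_nonneg _)
  have hmM : ∀ m ∈ P, (m : ℝ) ≤ M := fun m hm =>
    Finset.single_le_sum (f := fun m : ℕ => (m : ℝ)) (fun _ _ => Nat.cast_nonneg _) hm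
  refine ⟨20000 * M ^ 2 + 10008 * M + 5008 + 8, by nlinarith, ?_⟩
  intro F _ _ _ _ _ hq
  set r : ℝ := Real.sqrt (Fintype.card F) with hr
  have hq' : (4:ℝ) ≤ (Fintype.card F : ℝ) := by exact_mod_cast hq
  have hr2 : (Fintype.card F : ℝ) = r ^ 2 := by
    rw [hr, Real.sq_sqrt (by linarith)]
  have hr1 : 1 ≤ r := by
    rw [hr, Real.one_le_sqrt]; linarith
  have hr0 : 0 < r := by linarith
  have hT : ∀ m ∈ P, ((univ.filter fun t : F => ∃ X : SL(2, F), tr X = t ∧ Cen (X ^ m)).card : ℝ)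
      ≤ 2 * M := by
    intro m hm
    have h1 := tset_card F m (hP m hm)
    have h2 : ((univ.filter fun t : F => ∃ X : SL(2, F), tr X = t ∧ Cen (X ^ m)).card : ℝ)
        ≤ ((2 * m : ℕ) : ℝ) := by exact_mod_cast h1
    refine h2.trans ?_
    push_cast
    have := hmM m hm
    linarith
  have htor : ∀ m : ℕ, ∀ x : PSL(2, F), x ∈ tor PSL(2, F) m → ∀ A : SL(2, F),
      (QuotientGroup.mk A : PSL(2, F)) = x →
      tr A ∈ (univ.filter fun t : F => ∃ X : SL(2, F), tr X = t ∧ Cen (X ^ m)) := by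
    intro m x hx A hA
    unfold tor at hx
    rw [mem_filter] at hx
    rw [mem_filter]
    refine ⟨mem_univ _, A, rfl, ?_⟩
    apply K07_pow
    rw [hA]
    exact hx.2
  have p4 : r ^ 4 ≤ r ^ 7 := pow_le_pow_right₀ hr1 (by norm_num)
  have p6 : r ^ 6 ≤ r ^ 9 := pow_le_pow_right₀ hr1 (by norm_num)
  have p8 : r ^ 8 ≤ r ^ 9 := pow_le_pow_right₀ hr1 (by norm_num)
  have p6' : r ^ 6 ≤ r ^ 11 := pow_le_pow_right₀ hr1 (by norm_num)
  have p8' : r ^ 8 ≤ r ^ 11 := pow_le_pow_right₀ hr1 (by norm_num)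
  have q7 : 0 < r ^ 7 := by positivity
  have q9 : 0 < r ^ 9 := by positivity
  have q11 : 0 < r ^ 11 := by positivity
  have huniv : ((univ : Finset F).card : ℝ) = r ^ 2 := by rw [card_univ, hr2]
  refine ⟨?_, ?_, ?_⟩
  · intro m hm n hn
    have h := K07_gen (univ.filter fun t : F => ∃ X : SL(2, F), tr X = t ∧ Cen (X ^ m))
      (univ.filter fun t : F => ∃ X : SL(2, F), tr X = t ∧ Cen (X ^ n))
      ((tor PSL(2, F) m ×ˢ tor PSL(2, F) n).filter fun t =>
        Subgroup.closure {t.1, t.2} ≠ ⊤ ∧ ¬ (t.1 ^ 2 = 1 ∧ t.2 ^ 2 = 1)) false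
      (by
        intro t ht A hA
        rw [mem_filter, mem_product] at ht
        exact htor m t.1 ht.1.1 A hA)
      (by
        intro t ht A hA
        rw [mem_filter, mem_product] at ht
        exact htor n t.2 ht.1.2 A hA)
      (by
        intro t ht
        rw [mem_filter] at ht
        exact ht.2.1)
      (by
        intro _ t ht
        rw [mem_filter] at ht
        exact ht.2.2)
    refine h.trans ?_
    rw [hr2, ← hr2, ← hr, hr2]
    have h1 := hT m hm
    have h2 := hT n hn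
    set c1 := ((univ.filter fun t : F => ∃ X : SL(2, F), tr X = t ∧ Cen (X ^ m)).card : ℝ)
    set c2 := ((univ.filter fun t : F => ∃ X : SL(2, F), tr X = t ∧ Cen (X ^ n)).card : ℝ)
    have hc1 : 0 ≤ c1 := Nat.cast_nonneg _
    have hc2 : 0 ≤ c2 := Nat.cast_nonneg _
    have h3 : c1 * c2 ≤ (2 * M) * (2 * M) := mul_le_mul h1 h2 hc2 (by linarith)
    simp only [Bool.false_eq_true, if_false, add_zero]
    calc c1 * c2 * (5000 * (r ^ 2) ^ 3 * r) + 4 * c2 * (r ^ 2) ^ 2
        = 5000 * (c1 * c2) * r ^ 7 + 4 * c2 * r ^ 4 := by ring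
      _ ≤ 5000 * ((2 * M) * (2 * M)) * r ^ 7 + 4 * (2 * M) * r ^ 7 := by gcongr
      _ ≤ (20000 * M ^ 2 + 10008 * M + 5008 + 8) * r ^ 7 := by nlinarith
  · intro m hm
    have h := K07_gen (univ.filter fun t : F => ∃ X : SL(2, F), tr X = t ∧ Cen (X ^ m))
      (univ : Finset F)
      ((tor PSL(2, F) m ×ˢ (univ : Finset PSL(2, F))).filter fun t =>
        Subgroup.closure {t.1, t.2} ≠ ⊤) true
      (by
        intro t ht A hA
        rw [mem_filter, mem_product] at ht
        exact htor m t.1 ht.1.1 A hA)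
      (by
        intro t ht A hA
        exact mem_univ _)
      (by
        intro t ht
        rw [mem_filter] at ht
        exact ht.2)
      (by
        intro hb
        exact absurd hb (by decide))
    refine h.trans ?_
    rw [huniv, ← hr, hr2]
    have h1 := hT m hm
    set c1 := ((univ.filter fun t : F => ∃ X : SL(2, F), tr X = t ∧ Cen (X ^ m)).card : ℝ)
    have hc1 : 0 ≤ c1 := Nat.cast_nonneg _
    simp only [if_true]
    calc c1 * r ^ 2 * (5000 * (r ^ 2) ^ 3 * r) + 4 * r ^ 2 * (r ^ 2) ^ 2 + 4 * (r ^ 2) ^ 4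
        = 5000 * c1 * r ^ 9 + 4 * r ^ 6 + 4 * r ^ 8 := by ring
      _ ≤ 5000 * (2 * M) * r ^ 9 + 4 * r ^ 9 + 4 * r ^ 9 := by gcongr
      _ ≤ (20000 * M ^ 2 + 10008 * M + 5008 + 8) * r ^ 9 := by nlinarith
  · have h := K07_gen (univ : Finset F) (univ : Finset F)
      ((univ : Finset (PSL(2, F) × PSL(2, F))).filter fun t =>
        Subgroup.closure {t.1, t.2} ≠ ⊤) true
      (by
        intro t ht A hA
        exact mem_univ _)
      (by
        intro t ht A hA
        exact mem_univ _)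
      (by
        intro t ht
        rw [mem_filter] at ht
        exact ht.2)
      (by
        intro hb
        exact absurd hb (by decide))
    refine h.trans ?_
    rw [huniv, ← hr, hr2]
    simp only [if_true]
    calc r ^ 2 * r ^ 2 * (5000 * (r ^ 2) ^ 3 * r) + 4 * r ^ 2 * (r ^ 2) ^ 2 + 4 * (r ^ 2) ^ 4
        = 5000 * r ^ 11 + 4 * r ^ 6 + 4 * r ^ 8 := by ring
      _ ≤ 5000 * r ^ 11 + 4 * r ^ 11 + 4 * r ^ 11 := by gcongr
      _ ≤ (20000 * M ^ 2 + 10008 * M + 5008 + 8) * r ^ 11 := by nlinarith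

end Pool.Agent.Helper669_gp.K07
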