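import Mathlib
import Pool.Agent.Helper669_gp.Low2
import Pool.Agent.Helper669_gp.Abs

namespace Pool.Agent.Helper669_gp.K08

open scoped MatrixGroups

open Finset

lemma K08_sqrt {F : Type} [Field F] (Y : SL(2, F)) (w : F) (hw : w ≠ 0) (h : tr Y + 2 = w ^ 2) :
    ∃ B : SL(2, F), B ^ 2 = Y := by
  have hd := det_eq Y
  have ht : Y 0 0 + Y 1 1 + 2 = w ^ 2 := h
  let B : SL(2, F) := ⟨!![(Y 0 0 + 1) / w, Y 0 1 / w; Y 1 0 / w, (Y 1 1 + 1) / w], by
    rw [Matrix.det_fin_two_of]
    field_simp
    linear_combination hd + ht⟩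
  have h00 : B 0 0 = (Y 0 0 + 1) / w := rfl
  have h01 : B 0 1 = Y 0 1 / w := rfl
  have h10 : B 1 0 = Y 1 0 / w := rfl
  have h11 : B 1 1 = (Y 1 1 + 1) / w := rfl
  refine ⟨B, ?_⟩
  rw [pow_two]
  refine sl_ext ?_ ?_ ?_ ?_
  · rw [mul00, h00, h01, h10]
    field_simp
    linear_combination (-1) * hd + Y 0 0 * ht
  · rw [mul01, h00, h01, h11]
    field_simp
    linear_combination Y 0 1 * ht
  · rw [mul10, h10, h00, h11]
    field_simp
    linear_combination Y 1 0 * ht
  · rw [mul11, h01, h10, h11]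
    field_simp
    linear_combination (-1) * hd + Y 1 1 * ht

lemma K08_trace {F : Type} [Field F] (X A : SL(2, F)) :
    tr (X * A ^ 2) = tr A * tr (X * A) - tr X := by
  have hd := det_eq A
  rw [pow_two]
  simp only [tr, mul00, mul01, mul10, mul11]
  linear_combination (-(X 0 0 + X 1 1)) * hd

lemma K08_good {F : Type} [Field F] [Fintype F] [DecidableEq F] (t : F) :
    Fintype.card F ^ 2 ≤ (univ.filter fun p : F × F => p.1 ≠ 0 ∧ p.2 ≠ 0 ∧
      S3 p.1 ((p.2 ^ 2 + t - 2) / p.1) t ≠ 0).card + 6 * Fintype.card F := by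
  classical
  have h1 : (univ : Finset (F × F)) ⊆ ((univ.filter fun p : F × F => p.1 ≠ 0 ∧ p.2 ≠ 0 ∧
      S3 p.1 ((p.2 ^ 2 + t - 2) / p.1) t ≠ 0) ∪ ({0} ×ˢ univ)) ∪ ((univ ×ˢ {0}) ∪
      (univ.filter fun p : F × F => p.1 ≠ 0 ∧ S3 p.1 ((p.2 ^ 2 + t - 2) / p.1) t = 0)) := by
    intro p _
    simp only [mem_union, mem_filter, mem_univ, true_and, mem_product, mem_singleton, and_true]
    by_cases h0 : p.1 = 0
    · left; right; exact h0
    · by_cases h0' : p.2 = 0
      · right; left; exact h0'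
      · by_cases h2 : S3 p.1 ((p.2 ^ 2 + t - 2) / p.1) t = 0
        · right; right; exact ⟨h0, h2⟩
        · left; left; exact ⟨h0, h0', h2⟩
  have h2 : (univ.filter fun p : F × F => p.1 ≠ 0 ∧
      S3 p.1 ((p.2 ^ 2 + t - 2) / p.1) t = 0).card ≤ 4 * Fintype.card F := by
    apply card_le_fib _ (fun p : F × F => p.1)
    intro s
    by_cases hs : s = 0
    · rw [Finset.card_eq_zero.2]
      · omega
      · rw [Finset.filter_eq_empty_iff]
        intro p hp hps
        simp only [mem_filter, mem_univ, true_and] at hp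
        exact hp.1 (hps.trans hs)
    ·
      set V := univ.filter fun v : F => v ^ 2 + (-(s * t)) * v + (s ^ 2 + t ^ 2 - 4) = 0 with hV
      have hVc : V.card ≤ 2 := quad_card _ _
      have h3 : (({p ∈ (univ.filter fun p : F × F => p.1 ≠ 0 ∧
          S3 p.1 ((p.2 ^ 2 + t - 2) / p.1) t = 0) | p.1 = s})).card ≤ 2 * V.card := by
        apply Finset.card_le_mul_card_image_of_maps_to
          (f := fun p : F × F => (p.2 ^ 2 + t - 2) / s)
        · intro p hp
          simp only [mem_filter, mem_univ, true_and] at hp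
          obtain ⟨⟨_, hp2⟩, hp3⟩ := hp
          rw [hp3] at hp2
          simp only [hV, mem_filter, mem_univ, true_and]
          rw [← hp2, S3]
          ring
        · intro v _
          refine le_trans ?_ (quad_card (0 : F) (t - 2 - s * v))
          apply Finset.card_le_card_of_injOn (fun p : F × F => p.2)
          · intro p hp
            simp only [coe_filter, Set.mem_ofPred_eq, mem_filter, mem_univ, true_and] at hp ⊢
            have h4 := hp.2
            rw [div_eq_iff hs] at h4
            linear_combination h4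
          · intro p hp p' hp' hpp
            simp only [coe_filter, Set.mem_ofPred_eq, mem_filter, mem_univ, true_and] at hp hp'
            exact Prod.ext (hp.1.2.trans hp'.1.2.symm) hpp
      calc _ ≤ 2 * V.card := h3
        _ ≤ 4 := by omega
  have h3 := Finset.card_le_card h1
  have h4 := Finset.card_union_le ((univ.filter fun p : F × F => p.1 ≠ 0 ∧ p.2 ≠ 0 ∧
      S3 p.1 ((p.2 ^ 2 + t - 2) / p.1) t ≠ 0) ∪ ({0} ×ˢ univ)) ((univ ×ˢ {0}) ∪
      (univ.filter fun p : F × F => p.1 ≠ 0 ∧ S3 p.1 ((p.2 ^ 2 + t - 2) / p.1) t = 0))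
  have h5 := Finset.card_union_le (univ.filter fun p : F × F => p.1 ≠ 0 ∧ p.2 ≠ 0 ∧
      S3 p.1 ((p.2 ^ 2 + t - 2) / p.1) t ≠ 0) (({0} : Finset F) ×ˢ (univ : Finset F))
  have h6 := Finset.card_union_le ((univ : Finset F) ×ˢ ({0} : Finset F))
      (univ.filter fun p : F × F => p.1 ≠ 0 ∧ S3 p.1 ((p.2 ^ 2 + t - 2) / p.1) t = 0)
  rw [card_product, card_singleton, card_univ, one_mul] at h5
  rw [card_product, card_singleton, card_univ, mul_one] at h6
  rw [card_univ, Fintype.card_prod, ← pow_two] at h3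
  omega

lemma K08_many {F : Type} [Field F] [Fintype F] [DecidableEq F] (hq : 16 ≤ Fintype.card F)
    (X : SL(2, F)) (hX : ¬ Cen X) :
    Fintype.card F ^ 3 ≤ 4 * (univ.filter fun A : SL(2, F) =>
      ∃ w : F, w ≠ 0 ∧ tr (X * A ^ 2) + 2 = w ^ 2).card := by
  classical
  set t := tr X with ht
  set q := Fintype.card F with hqd
  set T : Finset (F × SL(2, F)) := univ.filter fun p : F × SL(2, F) =>
    p.1 ≠ 0 ∧ tr (X * p.2 ^ 2) + 2 = p.1 ^ 2 with hT
  set SA := univ.filter fun A : SL(2, F) =>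
      ∃ w : F, w ≠ 0 ∧ tr (X * A ^ 2) + 2 = w ^ 2 with hSA
  have h1 : T.card ≤ 2 * SA.card := by
    apply Finset.card_le_mul_card_image_of_maps_to (f := fun p : F × SL(2, F) => p.2)
    · intro p hp
      simp only [hT, mem_filter, mem_univ, true_and] at hp
      simp only [hSA, mem_filter, mem_univ, true_and]
      exact ⟨p.1, hp⟩
    · intro A _
      refine le_trans ?_ (quad_card (0 : F) (-(tr (X * A ^ 2) + 2)))
      apply Finset.card_le_card_of_injOn (fun p : F × SL(2, F) => p.1)
      · intro p hp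
        simp only [hT, coe_filter, Set.mem_ofPred_eq, mem_filter, mem_univ, true_and] at hp ⊢
        obtain ⟨⟨_, hp2⟩, hp3⟩ := hp
        rw [hp3] at hp2
        linear_combination -hp2
      · intro p hp p' hp' hpp
        simp only [coe_filter, Set.mem_ofPred_eq] at hp hp'
        exact Prod.ext hpp (hp.2.trans hp'.2.symm)
  set Gd := (univ.filter fun p : F × F => p.1 ≠ 0 ∧ p.2 ≠ 0 ∧
      S3 p.1 ((p.2 ^ 2 + t - 2) / p.1) t ≠ 0) with hGd
  have h2 : (q - 2) * Gd.card ≤ T.card := by
    set f : F × SL(2, F) → F × F := fun p => (tr p.2, p.1) with hf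
    have h3 : (q - 2) * Gd.card ≤ (T.filter fun p => f p ∈ Gd).card := by
      apply Finset.mul_card_image_le_card_of_maps_to (f := f)
      · intro p hp
        exact (Finset.mem_filter.1 hp).2
      · rintro ⟨s, w⟩ hsw
        have hsw' := hsw
        simp only [hGd, mem_filter, mem_univ, true_and] at hsw'
        obtain ⟨hs, hw, hS⟩ := hsw'
        refine le_trans (card_pair_ge X hX s ((w ^ 2 + t - 2) / s) hS) ?_
        apply Finset.card_le_card_of_injOn (fun Z : SL(2, F) => (w, Z⁻¹))
        · intro Z hZ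
          simp only [coe_filter, Set.mem_ofPred_eq, mem_univ, true_and] at hZ
          obtain ⟨hZ1, hZ2⟩ := hZ
          have h5 : f (w, Z⁻¹) = (s, w) := by
            simp only [hf, tr_inv, hZ1]
          simp only [coe_filter, Set.mem_ofPred_eq, mem_filter]
          refine ⟨⟨?_, ?_⟩, h5⟩
          · simp only [hT, mem_filter, mem_univ, true_and]
            refine ⟨hw, ?_⟩
            rw [K08_trace, tr_inv, hZ1, tr_mul_comm, hZ2, ← ht]
            field_simp
            ring
          · rw [h5]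
            exact hsw
        · intro Z _ Z' _ hZZ
          have := (Prod.mk.inj hZZ).2
          exact inv_injective this
    exact h3.trans (Finset.card_le_card (Finset.filter_subset _ _))
  have h3 := K08_good t
  rw [← hqd, ← hGd] at h3
  obtain ⟨r, hr⟩ : ∃ r, q = r + 16 := ⟨q - 16, by omega⟩
  have h4 : q - 2 = r + 14 := by omega
  rw [h4] at h2
  have h5 : q ^ 2 - 6 * q ≤ Gd.card := by omega
  have h6 : q ^ 2 - 6 * q = r ^ 2 + 26 * r + 160 := by
    rw [hr]
    have : (r + 16) ^ 2 = (r ^ 2 + 26 * r + 160) + 6 * (r + 16) := by ring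
    omega
  rw [h6] at h5
  have h7 : (r + 14) * (r ^ 2 + 26 * r + 160) ≤ 2 * SA.card :=
    (Nat.mul_le_mul_left _ h5).trans (h2.trans h1)
  rw [hr]
  nlinarith

theorem psl_n2 : ∃ C : ℝ, 1 ≤ C ∧
    ∀ (F : Type) [Field F] [Fintype F] [DecidableEq F] [Fintype PSL(2, F)] [DecidableEq PSL(2, F)],
      16 ≤ Fintype.card F → ∀ x : PSL(2, F), x ≠ 1 → (Fintype.card F : ℝ) ^ 3 ≤ C *
      (((univ : Finset (PSL(2, F) × PSL(2, F))).filter fun t =>
        x * (t.1 ^ 2 * t.2 ^ 2) = 1).card : ℝ) := by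
  refine ⟨8, by norm_num, ?_⟩
  intro F _ _ _ _ _ hq x hx
  obtain ⟨X, rfl⟩ := QuotientGroup.mk_surjective x
  have hX : ¬ Cen X := by
    intro h
    apply hx
    rw [QuotientGroup.eq_one_iff]
    exact (mem_center_iff' X).2 h
  have h1 := K08_many hq X hX
  set SA := univ.filter fun A : SL(2, F) =>
      ∃ w : F, w ≠ 0 ∧ tr (X * A ^ 2) + 2 = w ^ 2 with hSA
  have hB : ∀ A ∈ SA, ∃ B : SL(2, F), B ^ 2 = (X * A ^ 2)⁻¹ := by
    intro A hA
    simp only [hSA, mem_filter, mem_univ, true_and] at hA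
    obtain ⟨w, hw, hw2⟩ := hA
    exact K08_sqrt _ w hw (by rw [tr_inv]; exact hw2)
  choose! B hB using hB
  set R := ((univ : Finset (PSL(2, F) × PSL(2, F))).filter fun t =>
        (QuotientGroup.mk X : PSL(2, F)) * (t.1 ^ 2 * t.2 ^ 2) = 1) with hR
  have h2 : SA.card ≤ 2 * R.card := by
    apply Finset.card_le_mul_card_image_of_maps_to
      (f := fun A : SL(2, F) => ((QuotientGroup.mk A : PSL(2, F)), (QuotientGroup.mk (B A) : PSL(2, F))))
    · intro A hA
      simp only [hR, mem_filter, mem_univ, true_and]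
      have h3 : X * (A ^ 2 * (B A) ^ 2) = 1 := by
        rw [hB A hA, ← mul_assoc, mul_inv_cancel]
      have h4 := congrArg (QuotientGroup.mk : SL(2, F) → PSL(2, F)) h3
      exact h4
    · rintro ⟨a, b⟩ _
      obtain ⟨A0, rfl⟩ := QuotientGroup.mk_surjective a
      have h5 : (SA.filter fun A : SL(2, F) => ((QuotientGroup.mk A : PSL(2, F)),
          (QuotientGroup.mk (B A) : PSL(2, F))) = ((QuotientGroup.mk A0 : PSL(2, F)), b)) ⊆
          {A0, -A0} := by
        intro A hA
        rw [Finset.mem_filter] at hA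
        have h6 := (Prod.mk.inj hA.2).1
        have h7 := QuotientGroup.eq.1 h6.symm
        rw [mem_center_iff'] at h7
        rw [Finset.mem_insert, Finset.mem_singleton]
        rcases h7 with h7 | h7
        · left
          rw [inv_mul_eq_one] at h7
          exact h7.symm
        · right
          rw [inv_mul_eq_iff_eq_mul] at h7
          rw [h7]
          simp
      exact (Finset.card_le_card h5).trans Finset.card_le_two
  have h3 : Fintype.card F ^ 3 ≤ 8 * R.card := by omega
  exact_mod_cast h3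

end Pool.Agent.Helper669_gp.K08
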