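import Mathlib
import Pool.Agent.Helper669_gp.K05
import Pool.Agent.Helper669_gp.K06
import Pool.Agent.Helper669_gp.K07
import Pool.Agent.Helper669_gp.K08

/-!
The groups `PSL_2(q)` satisfy the list of facts `IFace`.
-/

namespace Pool.Agent.Helper669_gp

open scoped MatrixGroups
open Finset

theorem iface_psl (P : Finset ℕ) (hP : ∀ m ∈ P, 0 < m) : ∃ C : ℝ, 1 ≤ C ∧
    ∀ (F : Type) [Field F] [Fintype F] [DecidableEq F] [Fintype PSL(2, F)] [DecidableEq PSL(2, F)],
      16 ≤ Fintype.card F → IFace PSL(2, F) P (Real.sqrt (Fintype.card F)) C := by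
  obtain ⟨C₁, hC₁, h₁⟩ := K05.psl_basic P hP
  obtain ⟨C₂, hC₂, h₂⟩ := K06.psl_exc P hP
  obtain ⟨C₃, hC₃, h₃⟩ := K07.psl_gen P hP
  obtain ⟨C₄, hC₄, h₄⟩ := K08.psl_n2
  refine ⟨max (max C₁ C₂) (max C₃ C₄), le_trans hC₁ (le_trans (le_max_left _ _) (le_max_left _ _)),
    ?_⟩
  intro F _ _ _ _ _ hq
  set C := max (max C₁ C₂) (max C₃ C₄) with hC
  have c₁ : C₁ ≤ C := le_trans (le_max_left _ _) (le_max_left _ _)
  have c₂ : C₂ ≤ C := le_trans (le_max_right _ _) (le_max_left _ _)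
  have c₃ : C₃ ≤ C := le_trans (le_max_left _ _) (le_max_right _ _)
  have c₄ : C₄ ≤ C := le_trans (le_max_right _ _) (le_max_right _ _)
  have hqr : (0 : ℝ) ≤ (Fintype.card F : ℝ) := Nat.cast_nonneg _
  set q : ℝ := (Fintype.card F : ℝ) with hqdef
  set r := Real.sqrt q with hr
  have r2 : r ^ 2 = q := Real.sq_sqrt hqr
  have r4 : r ^ 4 = q ^ 2 := by rw [← r2]; ring
  have r6 : r ^ 6 = q ^ 3 := by rw [← r2]; ring
  have r10 : r ^ 10 = q ^ 5 := by rw [← r2]; ring
  have hr0 : 0 ≤ r := Real.sqrt_nonneg _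
  obtain ⟨b1, b2, b3, b4, b5, b6, b7, b8⟩ := h₁ F (by omega)
  obtain ⟨B, e0, e1, e2, e3, e4, e5, e6⟩ := h₂ F (by omega)
  obtain ⟨g1, g2, g3⟩ := h₃ F (by omega)
  have n1 := h₄ F hq
  have up : ∀ (x : ℝ) (c : ℝ) (y : ℝ), c ≤ C → 0 ≤ y → x ≤ c * y → x ≤ C * y :=
    fun x c y hc hy h => h.trans (mul_le_mul_of_nonneg_right hc hy)
  refine
    { one_le_r := ?_
      one_le_C := hC₁.trans c₁
      card_le := ?_
      le_card := ?_
      tor_le := ?_
      le_tor := ?_
      two_le := ?_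
      exc := ?_
      conj_le := ?_
      sqrt_le := ?_
      invol_le := ?_
      gen2 := ?_
      gen1 := ?_
      gen0 := ?_
      n2_le := ?_ }
  · rw [hr, Real.one_le_sqrt, hqdef]
    have : (16 : ℝ) ≤ (Fintype.card F : ℝ) := by exact_mod_cast hq
    linarith
  · rw [r6]; exact up _ _ _ c₁ (by positivity) b1
  · rw [r6]; exact up _ _ _ c₁ (Nat.cast_nonneg _) b2
  · intro m hm; rw [r4]; exact up _ _ _ c₁ (by positivity) (b3 m hm)
  · intro m hm hc; rw [r4]; exact up _ _ _ c₁ (Nat.cast_nonneg _) (b4 m hm hc)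
  · intro m hm n hn z hz; rw [r2]; exact up _ _ _ c₁ (by positivity) (b5 m hm n hn z hz)
  · refine ⟨B, e0, e1, ?_, ?_, ?_, ?_, ?_⟩
    · intro m hm z hz; rw [r2]; exact up _ _ _ c₂ (by positivity) (e2 m hm z hz)
    · intro m hm n hn hmc hnc z hz; rw [r2]
      exact up _ _ _ c₂ (Nat.cast_nonneg _) (e3 m hm n hn hmc hnc z hz)
    · rw [r10]; exact up _ _ _ c₂ (by positivity) e4
    · rw [r4]; exact up _ _ _ c₂ (by positivity) e5
    · rw [r10]; exact up _ _ _ c₂ (by positivity) e6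
  · intro y y' hy; rw [r2]; exact up _ _ _ c₁ (by positivity) (b6 y y' hy)
  · intro z hz; exact (b7 z hz).trans c₁
  · rw [r4]; exact up _ _ _ c₁ (by positivity) b8
  · intro m hm n hn; exact up _ _ _ c₃ (by positivity) (g1 m hm n hn)
  · intro m hm; exact up _ _ _ c₃ (by positivity) (g2 m hm)
  · exact up _ _ _ c₃ (by positivity) g3
  · intro x hx; rw [r6]; exact up _ _ _ c₄ (Nat.cast_nonneg _) (n1 x hx)

/-- `2` divides the order of `PSL_2(q)` -/
theorem two_ncoprime (F : Type) [Field F] [Fintype F] [Fintype PSL(2, F)] :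
    ¬ Nat.Coprime 2 (Fintype.card PSL(2, F)) := by
  intro h
  have h1 : K05.K05_pi (comp (0 : F)) ^ 2 = 1 := by
    rw [← map_pow, K05.K05_one_iff]
    right
    rw [pow_two]
    apply sl_ext
    · rw [mul00, neg00]; simp
    · rw [mul01, neg01]; simp
    · rw [mul10, neg10]; simp
    · rw [mul11, neg11]; simp
  have h2 : orderOf (K05.K05_pi (comp (0 : F))) ∣ 2 := orderOf_dvd_of_pow_eq_one h1
  have h3 : orderOf (K05.K05_pi (comp (0 : F))) ∣ Fintype.card PSL(2, F) := orderOf_dvd_card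
  have h4 : orderOf (K05.K05_pi (comp (0 : F))) = 1 :=
    Nat.eq_one_of_dvd_coprimes h h2 h3
  rw [orderOf_eq_one_iff, K05.K05_one_iff] at h4
  exact comp_not_cen 0 h4

/-- upper unipotent -/
def upU (F : Type) [Field F] : SL(2, F) := ⟨!![1, 1; 0, 1], by simp [Matrix.det_fin_two]⟩

/-- lower unipotent -/
def loU {F : Type} [Field F] (a : F) : SL(2, F) :=
  ⟨!![1, 0; a, 1], by simp [Matrix.det_fin_two]⟩

/-- `PSL_2(q)` is not commutative -/
theorem psl_nc (F : Type) [Field F] (hF : 4 ≤ Nat.card F) : ∃ x y : PSL(2, F), x * y ≠ y * x := by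
  classical
  obtain ⟨a, ha⟩ : ∃ a : F, a ≠ 0 ∧ a ≠ 1 := by
    have hfin : Finite F := by
      by_contra h
      rw [not_finite_iff_infinite] at h
      rw [Nat.card_eq_zero_of_infinite] at hF
      omega
    have : Fintype F := Fintype.ofFinite F
    by_contra hcon
    push Not at hcon
    have h1 : (univ : Finset F) ⊆ {0, 1} := by
      intro x _
      rw [mem_insert, mem_singleton]
      by_cases hx : x = 0
      · exact Or.inl hx
      · exact Or.inr (hcon x hx)
    have h2 := card_le_card h1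
    rw [card_univ] at h2
    rw [Nat.card_eq_fintype_card] at hF
    have h3 : ({0, 1} : Finset F).card ≤ 2 := card_le_two
    omega
  refine ⟨K05.K05_pi (upU F), K05.K05_pi (loU a), ?_⟩
  intro h
  rw [← map_mul, ← map_mul, K05.K05_eq_iff] at h
  have e00 : (upU F * loU a) 0 0 = 1 + a := by rw [mul00]; simp [upU, loU]
  have e00' : (loU a * upU F) 0 0 = 1 := by rw [mul00]; simp [upU, loU]
  have e01 : (upU F * loU a) 0 1 = 1 := by rw [mul01]; simp [upU, loU]
  have e01' : (loU a * upU F) 0 1 = 1 := by rw [mul01]; simp [upU, loU]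
  rcases h with h | h
  · have h1 := congrArg (fun M : SL(2, F) => M 0 0) h
    simp only [e00, e00'] at h1
    apply ha.1
    linear_combination h1
  · have h1 := congrArg (fun M : SL(2, F) => M 0 1) h
    have h2 := congrArg (fun M : SL(2, F) => M 0 0) h
    simp only [neg00, neg01, e00, e00', e01, e01'] at h1 h2
    apply ha.1
    linear_combination h2 - h1

end Pool.Agent.Helper669_gp
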