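import Mathlib
import Pool.Agent.Helper669_gp.Abs

namespace Pool.Agent.Helper669_gp.J01

open Finset

section J01

variable {G : Type} [Group G] [Fintype G] [DecidableEq G]

lemma J01_XS_card_cons (m : ℕ) (ms : List ℕ) :
    (XS G (m :: ms)).card = (tor G m).card * (XS G ms).card :=
  Finset.card_image₂ (fun _ _ _ _ h => by simpa using h) _ _

lemma J01_XS_card_nil : (XS G []).card = 1 := rfl

lemma J01_mem_cons {m : ℕ} {ms : List ℕ} {l : List G} :
    l ∈ XS G (m :: ms) ↔ ∃ x ∈ tor G m, ∃ l' ∈ XS G ms, x :: l' = l :=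
  Finset.mem_image₂

lemma J01_cntA_cons_le (m : ℕ) (ms : List ℕ) (z : G) :
    cntA G (m :: ms) z ≤ (XS G ms).card := by
  unfold cntA
  refine Finset.card_le_card_of_injOn List.tail ?_ ?_
  · intro l hl
    rw [Finset.mem_coe, Finset.mem_filter, J01_mem_cons] at hl
    obtain ⟨⟨x, -, l', hl', rfl⟩, -⟩ := hl
    simpa using hl'
  · intro l1 h1 l2 h2 h12
    rw [Finset.mem_coe, Finset.mem_filter, J01_mem_cons] at h1 h2
    obtain ⟨⟨x, -, l', -, rfl⟩, hz1⟩ := h1
    obtain ⟨⟨y, -, l'', -, rfl⟩, hz2⟩ := h2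
    simp only [List.tail_cons] at h12
    subst h12
    rw [List.prod_cons] at hz1 hz2
    have : x = y := mul_right_cancel (hz1.trans hz2.symm)
    rw [this]

lemma J01_cntA_cons_cons_le (m n : ℕ) (ms : List ℕ) (z : G) :
    cntA G (m :: n :: ms) z ≤
      ∑ l ∈ XS G ms, ((tor G m).filter fun x => x⁻¹ * (z * l.prod⁻¹) ∈ tor G n).card := by
  unfold cntA
  rw [← Finset.card_sigma]
  refine Finset.card_le_card_of_injOn (fun l => ⟨l.tail.tail, l.headD 1⟩) ?_ ?_
  · intro l hl
    rw [Finset.mem_coe, Finset.mem_filter, J01_mem_cons] at hl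
    obtain ⟨⟨x, hx, l1, hl1, rfl⟩, hz⟩ := hl
    rw [J01_mem_cons] at hl1
    obtain ⟨y, hy, l', hl', rfl⟩ := hl1
    rw [Finset.mem_coe, Finset.mem_sigma, Finset.mem_filter]
    refine ⟨by simpa using hl', by simpa using hx, ?_⟩
    simp only [List.tail_cons, List.headD_cons]
    rw [← hz, List.prod_cons, List.prod_cons]
    have : x⁻¹ * (x * (y * l'.prod) * l'.prod⁻¹) = y := by group
    rw [this]
    exact hy
  · intro l1 h1 l2 h2 h12
    rw [Finset.mem_coe, Finset.mem_filter, J01_mem_cons] at h1 h2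
    obtain ⟨⟨x, -, k1, hk1, rfl⟩, hz1⟩ := h1
    obtain ⟨⟨x', -, k2, hk2, rfl⟩, hz2⟩ := h2
    rw [J01_mem_cons] at hk1 hk2
    obtain ⟨y, -, l', -, rfl⟩ := hk1
    obtain ⟨y', -, l'', -, rfl⟩ := hk2
    simp only [List.tail_cons, List.headD_cons, Sigma.mk.injEq, heq_eq_eq] at h12
    obtain ⟨rfl, rfl⟩ := h12
    rw [List.prod_cons, List.prod_cons] at hz1 hz2
    have h3 : y * l'.prod = y' * l'.prod := mul_left_cancel (hz1.trans hz2.symm)
    have : y = y' := mul_right_cancel h3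
    rw [this]

lemma J01_bound {P : Finset ℕ} {r C : ℝ} (h : IFace G P r C) (m n : ℕ) (hm : m ∈ P) (hn : n ∈ P)
    (ms : List ℕ) (z : G) :
    (cntA G (m :: n :: ms) z : ℝ) ≤
      (XS G ms).card * (C * r ^ 2) + (cntA G ms z : ℝ) * (C * r ^ 4) := by
  have hr := h.one_le_r
  have hC := h.one_le_C
  have h1 : (cntA G (m :: n :: ms) z : ℝ) ≤ ∑ l ∈ XS G ms,
      (((tor G m).filter fun x => x⁻¹ * (z * l.prod⁻¹) ∈ tor G n).card : ℝ) := by
    exact_mod_cast J01_cntA_cons_cons_le m n ms z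
  refine h1.trans ?_
  have h2 : ∑ l ∈ XS G ms,
      (((tor G m).filter fun x => x⁻¹ * (z * l.prod⁻¹) ∈ tor G n).card : ℝ) ≤
      ∑ l ∈ XS G ms, (C * r ^ 2 + if l.prod = z then C * r ^ 4 else 0) := by
    refine Finset.sum_le_sum fun l _ => ?_
    by_cases hl : l.prod = z
    · rw [if_pos hl]
      have h3 : (((tor G m).filter fun x => x⁻¹ * (z * l.prod⁻¹) ∈ tor G n).card : ℝ) ≤
          ((tor G m).card : ℝ) := by exact_mod_cast Finset.card_filter_le _ _
      have h4 := h.tor_le m hm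
      have h5 : 0 ≤ C * r ^ 2 := by positivity
      linarith
    · rw [if_neg hl, add_zero]
      have hz : z * l.prod⁻¹ ≠ 1 := by
        intro h6
        exact hl (mul_inv_eq_one.mp h6).symm
      have := h.two_le m hm n hn (z * l.prod⁻¹) hz
      convert this using 3
  refine h2.trans (le_of_eq ?_)
  rw [Finset.sum_add_distrib, Finset.sum_const, nsmul_eq_mul, ← Finset.sum_filter,
    Finset.sum_const, nsmul_eq_mul]
  rfl

lemma J01_XS_card {P : Finset ℕ} {r C : ℝ} (h : IFace G P r C) (ms : List ℕ)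
    (hms : ∀ m ∈ ms, m ∈ P) : ((XS G ms).card : ℝ) ≤ C ^ ms.length * r ^ (4 * ms.length) := by
  have hr := h.one_le_r
  have hC := h.one_le_C
  induction ms with
  | nil => simp [XS]
  | cons m ms ih =>
    have h1 := ih fun k hk => hms k (List.mem_cons_of_mem _ hk)
    have h2 := h.tor_le m (hms m List.mem_cons_self)
    rw [J01_XS_card_cons, Nat.cast_mul, List.length_cons]
    calc ((tor G m).card : ℝ) * ((XS G ms).card : ℝ)
        ≤ (C * r ^ 4) * (C ^ ms.length * r ^ (4 * ms.length)) :=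
          mul_le_mul h2 h1 (Nat.cast_nonneg _) (by positivity)
      _ = C ^ (ms.length + 1) * r ^ (4 * (ms.length + 1)) := by ring

lemma J01_cntA {P : Finset ℕ} {r C : ℝ} (h : IFace G P r C) (ms : List ℕ)
    (hms : ∀ m ∈ ms, m ∈ P) (z : G) (hne : ms ≠ []) :
    (cntA G ms z : ℝ) ≤ C ^ (ms.length - 1) * r ^ (4 * (ms.length - 1)) := by
  cases ms with
  | nil => exact absurd rfl hne
  | cons m ms =>
    have h1 : (cntA G (m :: ms) z : ℝ) ≤ ((XS G ms).card : ℝ) := by
      exact_mod_cast J01_cntA_cons_le m ms z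
    have h2 := J01_XS_card h ms fun k hk => hms k (List.mem_cons_of_mem _ hk)
    simpa using h1.trans h2

end J01

theorem cntA_upper {G : Type} [Group G] [Fintype G] [DecidableEq G] {P : Finset ℕ} {r C : ℝ}
    (h : IFace G P r C) (ms : List ℕ) (hms : ∀ m ∈ ms, m ∈ P) :
    ((XS G ms).card : ℝ) ≤ C ^ ms.length * r ^ (4 * ms.length) ∧
    (∀ z : G, ms ≠ [] → (cntA G ms z : ℝ) ≤ C ^ (ms.length - 1) * r ^ (4 * (ms.length - 1))) ∧
    (∀ z : G, (3 ≤ ms.length ∨ (ms.length = 2 ∧ z ≠ 1)) →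
      (cntA G ms z : ℝ) ≤ (2 * C) ^ ms.length * r ^ (4 * ms.length - 6)) := by
  refine ⟨J01_XS_card h ms hms, fun z hne => J01_cntA h ms hms z hne, fun z hz => ?_⟩
  have hr := h.one_le_r
  have hC := h.one_le_C
  have hr0 : 0 ≤ r := by linarith
  have hC0 : 0 ≤ C := by linarith
  match ms, hms, hz with
  | [], _, hz => simp at hz
  | [m], _, hz => simp at hz
  | [m, n], hms, hz =>
    have hz1 : z ≠ 1 := by
      rcases hz with hz | hz
      · simp at hz
      · exact hz.2
    have h1 := J01_bound h m n (hms m (by simp)) (hms n (by simp)) [] z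
    have h2 : cntA G [] z = 0 := by
      unfold cntA
      rw [Finset.card_eq_zero, Finset.filter_eq_empty_iff]
      intro l hl
      rw [show XS G [] = {[]} from rfl, Finset.mem_singleton] at hl
      rw [hl, List.prod_nil]
      exact fun h => hz1 h.symm
    rw [h2, J01_XS_card_nil] at h1
    simp only [Nat.cast_one, one_mul, Nat.cast_zero, zero_mul, add_zero] at h1
    have h3 : C * r ^ 2 ≤ (2 * C) ^ 2 * r ^ 2 :=
      mul_le_mul_of_nonneg_right (by nlinarith) (by positivity)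
    simpa using h1.trans h3
  | m :: n :: a :: ms', hms, _ =>
    have hms2 : ∀ k ∈ a :: ms', k ∈ P := fun k hk => hms k (by simp at hk ⊢; tauto)
    have h1 := J01_bound h m n (hms m (by simp)) (hms n (by simp)) (a :: ms') z
    have h2 := J01_XS_card h (a :: ms') hms2
    have h3 := J01_cntA h (a :: ms') hms2 z (by simp)
    set k := ms'.length with hk
    have hl1 : (a :: ms').length = k + 1 := by simp [hk]
    have hl2 : (m :: n :: a :: ms').length = k + 3 := by simp [hk]
    rw [hl1] at h2 h3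
    rw [hl2]
    have e1 : k + 1 - 1 = k := by omega
    have e2 : 4 * (k + 3) - 6 = 4 * k + 6 := by omega
    rw [e1] at h3
    rw [e2]
    have h4 : ((XS G (a :: ms')).card : ℝ) * (C * r ^ 2) ≤ C ^ (k + 2) * r ^ (4 * k + 6) := by
      calc ((XS G (a :: ms')).card : ℝ) * (C * r ^ 2)
          ≤ (C ^ (k + 1) * r ^ (4 * (k + 1))) * (C * r ^ 2) :=
            mul_le_mul_of_nonneg_right h2 (by positivity)
        _ = C ^ (k + 2) * r ^ (4 * k + 6) := by ring
    have h5 : (cntA G (a :: ms') z : ℝ) * (C * r ^ 4) ≤ C ^ (k + 2) * r ^ (4 * k + 6) := by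
      calc (cntA G (a :: ms') z : ℝ) * (C * r ^ 4)
          ≤ (C ^ k * r ^ (4 * k)) * (C * r ^ 4) :=
            mul_le_mul_of_nonneg_right h3 (by positivity)
        _ = C ^ (k + 1) * r ^ (4 * k + 4) := by ring
        _ ≤ C ^ (k + 2) * r ^ (4 * k + 6) :=
            mul_le_mul (pow_le_pow_right₀ hC (by omega)) (pow_le_pow_right₀ hr (by omega))
              (by positivity) (by positivity)
    have h6 : 2 * C ^ (k + 2) ≤ (2 * C) ^ (k + 3) := by
      rw [mul_pow]
      have h7 : (2 : ℝ) ≤ 2 ^ (k + 3) := by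
        calc (2 : ℝ) = 2 ^ 1 := by norm_num
          _ ≤ 2 ^ (k + 3) := pow_le_pow_right₀ (by norm_num) (by omega)
      exact mul_le_mul h7 (pow_le_pow_right₀ hC (by omega)) (by positivity) (by positivity)
    calc (cntA G (m :: n :: a :: ms') z : ℝ)
        ≤ 2 * C ^ (k + 2) * r ^ (4 * k + 6) := by linarith
      _ ≤ (2 * C) ^ (k + 3) * r ^ (4 * k + 6) :=
          mul_le_mul_of_nonneg_right h6 (by positivity)

end Pool.Agent.Helper669_gp.J01
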