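import Mathlib
import Pool.Agent.Helper669_gp.Abs

namespace Pool.Agent.Helper669_gp.J02

open Finset

section J02

variable {G : Type} [Group G] [Fintype G] [DecidableEq G]

lemma j02_cnt_cons (m : ℕ) (ms : List ℕ) (z : G) :
    cntA G (m :: ms) z = ∑ x ∈ tor G m, cntA G ms (x⁻¹ * z) := by
  have e : (XS G (m :: ms)).filter (fun l => l.prod = z)
      = (tor G m).biUnion (fun x => ((XS G ms).filter (fun l => l.prod = x⁻¹ * z)).image
        (fun l => x :: l)) := by
    ext l
    simp only [XS, mem_filter, mem_image₂, mem_biUnion, mem_image]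
    constructor
    · rintro ⟨⟨x, hx, t, ht, rfl⟩, h2⟩
      rw [List.prod_cons] at h2
      exact ⟨x, hx, t, ⟨ht, by rw [← h2]; group⟩, rfl⟩
    · rintro ⟨x, hx, t, ⟨ht, h2⟩, rfl⟩
      refine ⟨⟨x, hx, t, ht, rfl⟩, ?_⟩
      rw [List.prod_cons, h2]; group
  unfold cntA
  rw [e, card_biUnion]
  · refine sum_congr rfl fun x _ => ?_
    exact card_image_of_injective _ (fun a b h => (List.cons.inj h).2)
  · intro x _ y _ hxy
    rw [Function.onFun, disjoint_left]
    intro l hl hl'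
    simp only [mem_image] at hl hl'
    obtain ⟨a, _, rfl⟩ := hl
    obtain ⟨b, _, hb⟩ := hl'
    exact hxy (List.cons.inj hb).1.symm

lemma j02_cnt_nil (z : G) : cntA G [] z = if z = 1 then 1 else 0 := by
  unfold cntA
  by_cases h : z = 1
  · subst h
    rw [if_pos rfl, XS, filter_singleton, if_pos List.prod_nil, card_singleton]
  · have : ((XS G []).filter fun l => l.prod = z) = ∅ := by
      ext l
      simp only [XS, mem_filter, mem_singleton, notMem_empty, iff_false, not_and]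
      rintro rfl h'
      exact h (by simpa using h'.symm)
    rw [this, if_neg h, card_empty]

lemma j02_cnt_one (n : ℕ) (z : G) : cntA G [n] z = if z ∈ tor G n then 1 else 0 := by
  rw [j02_cnt_cons]
  simp only [j02_cnt_nil]
  rw [sum_boole]
  have : (tor G n).filter (fun x => x⁻¹ * z = 1) = if z ∈ tor G n then {z} else ∅ := by
    ext x
    simp only [mem_filter]
    by_cases hz : z ∈ tor G n
    · rw [if_pos hz, mem_singleton]
      constructor
      · rintro ⟨_, h⟩; exact (inv_mul_eq_one.1 h)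
      · rintro rfl; exact ⟨hz, by group⟩
    · rw [if_neg hz]
      simp only [notMem_empty, iff_false, not_and]
      intro hx h
      exact hz ((inv_mul_eq_one.1 h) ▸ hx)
  rw [this]
  split_ifs <;> simp

lemma j02_cnt_two (m n : ℕ) (z : G) :
    cntA G [m, n] z = ((tor G m).filter fun x => x⁻¹ * z ∈ tor G n).card := by
  rw [j02_cnt_cons]
  simp only [j02_cnt_one]
  rw [sum_boole]
  simp

lemma j02_step {C r : ℝ} {m : ℕ} {ms : List ℕ} {z : G} (hC : 1 ≤ C)
    (good : Finset G) (hg : good ⊆ tor G m) (hcard : r ^ 4 ≤ 2 * C * (good.card : ℝ))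
    {e k : ℕ} (hr : 0 ≤ r)
    (hval : ∀ x ∈ good, r ^ e ≤ (2 * C) ^ k * (cntA G ms (x⁻¹ * z) : ℝ)) :
    r ^ (e + 4) ≤ (2 * C) ^ (k + 1) * (cntA G (m :: ms) z : ℝ) := by
  rw [j02_cnt_cons]
  have h1 : (good.card : ℝ) * r ^ e ≤ (2 * C) ^ k * ((∑ x ∈ tor G m, cntA G ms (x⁻¹ * z) : ℕ) : ℝ) := by
    calc (good.card : ℝ) * r ^ e = ∑ _x ∈ good, r ^ e := by rw [sum_const, nsmul_eq_mul]
      _ ≤ ∑ x ∈ good, (2 * C) ^ k * (cntA G ms (x⁻¹ * z) : ℝ) := sum_le_sum hval
      _ = (2 * C) ^ k * ∑ x ∈ good, (cntA G ms (x⁻¹ * z) : ℝ) := by rw [mul_sum]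
      _ ≤ (2 * C) ^ k * ∑ x ∈ tor G m, (cntA G ms (x⁻¹ * z) : ℝ) := by
          refine mul_le_mul_of_nonneg_left ?_ (by positivity)
          exact sum_le_sum_of_subset_of_nonneg hg fun _ _ _ => Nat.cast_nonneg _
      _ = _ := by push_cast; rfl
  calc r ^ (e + 4) = r ^ e * r ^ 4 := pow_add _ _ _
    _ ≤ r ^ e * (2 * C * (good.card : ℝ)) := mul_le_mul_of_nonneg_left hcard (by positivity)
    _ = 2 * C * ((good.card : ℝ) * r ^ e) := by ring
    _ ≤ 2 * C * ((2 * C) ^ k * ((∑ x ∈ tor G m, cntA G ms (x⁻¹ * z) : ℕ) : ℝ)) :=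
        mul_le_mul_of_nonneg_left h1 (by positivity)
    _ = _ := by ring

end J02

open scoped Classical in

theorem cntA_lower {G : Type} [Group G] [Fintype G] [DecidableEq G] {P : Finset ℕ} {r C : ℝ}
    (h : IFace G P r C) (hr : 2 * C ≤ r) :
    ∃ B : Finset G, 1 ∈ B ∧ (∀ z ∈ B, z⁻¹ ∈ B) ∧
    (((univ : Finset (G × G)).filter
      fun t => t.1 * t.2 * t.1⁻¹ * t.2⁻¹ ∈ B).card : ℝ) ≤ C * r ^ 10 ∧
    (((univ : Finset G).filter fun a => a ^ 2 ∈ B).card : ℝ) ≤ C * r ^ 4 ∧
    (((univ : Finset (G × G)).filter fun t => t.1 ^ 2 * t.2 ^ 2 ∈ B).card : ℝ) ≤ C * r ^ 10 ∧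
    (∀ ms : List ℕ, (∀ m ∈ ms, m ∈ P ∧ ¬ Nat.Coprime m (Fintype.card G)) → 2 ≤ ms.length →
      ∀ z : G, z ∉ B → r ^ (4 * ms.length - 6) ≤ (2 * C) ^ ms.length * (cntA G ms z : ℝ)) ∧
    (∀ ms : List ℕ, (∀ m ∈ ms, m ∈ P ∧ ¬ Nat.Coprime m (Fintype.card G)) → 4 ≤ ms.length →
      ∀ z : G, r ^ (4 * ms.length - 6) ≤ (2 * C) ^ ms.length * (cntA G ms z : ℝ)) := by
  obtain ⟨B, hB1, hBinv, hBle, hBlow, hB3, hB4, hB5⟩ := h.exc
  have hC := h.one_le_C
  have hr1 := h.one_le_r
  have hr0 : 0 ≤ r := by linarith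
  have hr2 : 4 * C ^ 2 ≤ r ^ 2 := by nlinarith

  have goodB : ∀ m, m ∈ P ∧ ¬ Nat.Coprime m (Fintype.card G) → ∀ z : G, z ≠ 1 →
      r ^ 4 ≤ 2 * C * (((tor G m).filter fun x => ¬ (x⁻¹ * z ∈ B)).card : ℝ) := by
    intro m hm z hz
    have h1 := h.le_tor m hm.1 hm.2
    have h2 := hBle m hm.1 z hz
    have h3 := card_filter_add_card_filter_not (s := tor G m) (fun x => x⁻¹ * z ∈ B)
    have h4 : (((tor G m).filter fun x => x⁻¹ * z ∈ B).card : ℝ)
        + (((tor G m).filter fun x => ¬ (x⁻¹ * z ∈ B)).card : ℝ) = ((tor G m).card : ℝ) := by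
      exact_mod_cast h3
    have h5 : C * (C * r ^ 2) * 2 ≤ r ^ 4 := by nlinarith [sq_nonneg r]
    nlinarith
  have good1 : ∀ m, m ∈ P ∧ ¬ Nat.Coprime m (Fintype.card G) → ∀ z : G,
      r ^ 4 ≤ 2 * C * (((tor G m).filter fun x => x⁻¹ * z ≠ 1).card : ℝ) := by
    intro m hm z
    have h1 := h.le_tor m hm.1 hm.2
    have h3 := card_filter_add_card_filter_not (s := tor G m) (fun x => x⁻¹ * z ≠ 1)
    have h2 : ((tor G m).filter fun x => ¬ (x⁻¹ * z ≠ 1)).card ≤ 1 := by
      rw [card_le_one]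
      intro a ha b hb
      simp only [mem_filter, not_not] at ha hb
      rw [inv_mul_eq_one.1 ha.2, inv_mul_eq_one.1 hb.2]
    have h4 : (((tor G m).filter fun x => x⁻¹ * z ≠ 1).card : ℝ)
        + (((tor G m).filter fun x => ¬ (x⁻¹ * z ≠ 1)).card : ℝ) = ((tor G m).card : ℝ) := by
      exact_mod_cast h3
    have h2' : (((tor G m).filter fun x => ¬ (x⁻¹ * z ≠ 1)).card : ℝ) ≤ 1 := by exact_mod_cast h2
    have h5 : 2 * C ≤ r ^ 4 := by
      have : r ≤ r ^ 4 := by
        have h6 : 1 ≤ r ^ 3 := one_le_pow₀ hr1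
        nlinarith
      linarith
    nlinarith

  have partA : ∀ ms : List ℕ, (∀ m ∈ ms, m ∈ P ∧ ¬ Nat.Coprime m (Fintype.card G)) →
      2 ≤ ms.length → ∀ z : G, z ∉ B →
      r ^ (4 * ms.length - 6) ≤ (2 * C) ^ ms.length * (cntA G ms z : ℝ) := by
    intro ms
    induction ms with
    | nil => intro _ hl; simp at hl
    | cons m ms ih =>
      intro hm hl z hz
      have hz1 : z ≠ 1 := fun h => hz (h ▸ hB1)
      have hm' : ∀ m ∈ ms, m ∈ P ∧ ¬ Nat.Coprime m (Fintype.card G) :=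
        fun a ha => hm a (List.mem_cons_of_mem _ ha)
      have hm0 := hm m List.mem_cons_self
      rcases Nat.lt_or_ge ms.length 2 with hlt | hge
      · match ms, hl, hlt, hm' with
        | [n], _, _, hm' =>
          have hn := hm' n List.mem_cons_self
          have h1 := hBlow m hm0.1 n hn.1 hm0.2 hn.2 z hz
          have h2 : (cntA G [m, n] z : ℝ)
              = (((tor G m).filter fun x => x⁻¹ * z ∈ tor G n).card : ℝ) := by
            rw [j02_cnt_two]
          simp only [List.length_cons, List.length_nil]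
          norm_num
          rw [h2]
          have h3 : (0 : ℝ) ≤ (((tor G m).filter fun x => x⁻¹ * z ∈ tor G n).card : ℝ) :=
            Nat.cast_nonneg _
          nlinarith
      · have h2 := j02_step (z := z) hC ((tor G m).filter fun x => ¬ (x⁻¹ * z ∈ B))
          (filter_subset _ _) (goodB m hm0 z hz1) (e := 4 * ms.length - 6) (k := ms.length) hr0
          (ms := ms) (fun x hx => ih hm' hge _ (mem_filter.1 hx).2)
        have e1 : 4 * (m :: ms).length - 6 = 4 * ms.length - 6 + 4 := by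
          rw [List.length_cons]; omega
        rw [e1, List.length_cons]
        exact h2

  have partB : ∀ ms : List ℕ, (∀ m ∈ ms, m ∈ P ∧ ¬ Nat.Coprime m (Fintype.card G)) →
      3 ≤ ms.length → ∀ z : G, z ≠ 1 →
      r ^ (4 * ms.length - 6) ≤ (2 * C) ^ ms.length * (cntA G ms z : ℝ) := by
    intro ms hm hl z hz1
    match ms, hm, hl with
    | m :: ms, hm, hl =>
      have hm' : ∀ m ∈ ms, m ∈ P ∧ ¬ Nat.Coprime m (Fintype.card G) :=
        fun a ha => hm a (List.mem_cons_of_mem _ ha)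
      have hm0 := hm m List.mem_cons_self
      rw [List.length_cons] at hl
      have h2 := j02_step (z := z) hC ((tor G m).filter fun x => ¬ (x⁻¹ * z ∈ B))
          (filter_subset _ _) (goodB m hm0 z hz1) (e := 4 * ms.length - 6) (k := ms.length) hr0
          (ms := ms) (fun x hx => partA ms hm' (by omega) _ (mem_filter.1 hx).2)
      have e1 : 4 * (m :: ms).length - 6 = 4 * ms.length - 6 + 4 := by
        rw [List.length_cons]; omega
      rw [e1, List.length_cons]
      exact h2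
  refine ⟨B, hB1, hBinv, ?_, ?_, ?_, partA, ?_⟩
  · convert hB3
  · convert hB4
  · convert hB5
  · intro ms hm hl z
    match ms, hm, hl with
    | m :: ms, hm, hl =>
      have hm' : ∀ m ∈ ms, m ∈ P ∧ ¬ Nat.Coprime m (Fintype.card G) :=
        fun a ha => hm a (List.mem_cons_of_mem _ ha)
      have hm0 := hm m List.mem_cons_self
      rw [List.length_cons] at hl
      have h2 := j02_step (z := z) hC ((tor G m).filter fun x => x⁻¹ * z ≠ 1)
          (filter_subset _ _) (good1 m hm0 z) (e := 4 * ms.length - 6) (k := ms.length) hr0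
          (ms := ms) (fun x hx => partB ms hm' (by omega) _ (mem_filter.1 hx).2)
      have e1 : 4 * (m :: ms).length - 6 = 4 * ms.length - 6 + 4 := by
        rw [List.length_cons]; omega
      rw [e1, List.length_cons]
      exact h2

end Pool.Agent.Helper669_gp.J02
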