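import Mathlib
import Pool.Agent.Helper669_gp.J01

namespace Pool.Agent.Helper669_gp.J03

open Pool.Agent.Helper669_gp.J01

open Finset

section helpers

variable {G : Type} [Group G] [Fintype G] [DecidableEq G]

theorem mem_XS_cons {m : ℕ} {ms : List ℕ} {l : List G} :
    l ∈ XS G (m :: ms) ↔ ∃ x ∈ tor G m, ∃ l' ∈ XS G ms, x :: l' = l := by
  rw [XS, Finset.mem_image₂]

theorem card_XS_cons (m : ℕ) (ms : List ℕ) :
    (XS G (m :: ms)).card = (tor G m).card * (XS G ms).card := by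
  rw [XS]
  refine Finset.card_image₂ ?_ _ _
  intro a b c d h
  exact List.cons.inj h

theorem one_mem_tor (m : ℕ) : (1 : G) ∈ tor G m := by
  rw [tor, Finset.mem_filter]
  exact ⟨Finset.mem_univ _, one_pow _⟩

theorem tor_card_pos (m : ℕ) : 0 < (tor G m).card :=
  Finset.card_pos.2 ⟨1, one_mem_tor m⟩

theorem XS_card_pos (ms : List ℕ) : 0 < (XS G ms).card := by
  induction ms with
  | nil => exact Finset.card_pos.2 ⟨[], by rw [XS]; exact Finset.mem_singleton_self _⟩
  | cons m ms ih =>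
    rw [card_XS_cons]
    exact Nat.mul_pos (tor_card_pos m) ih

theorem card_FPset (s : ℕ) (ms : List ℕ) :
    (FPset G s ms).card = (XS G ms).card * Fintype.card G ^ s := by
  rw [FPset, Finset.card_product, Finset.card_univ, Fintype.card_fun, Fintype.card_fin]

theorem closure_ne_of_subset {S T : Set G} (h : S ⊆ Subgroup.closure T)
    (hT : Subgroup.closure T ≠ ⊤) : Subgroup.closure S ≠ ⊤ := by
  intro h1
  apply hT
  rw [eq_top_iff, ← h1]
  exact (Subgroup.closure_le _).2 h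

end helpers

open scoped Classical in
theorem fp_a {G : Type} [Group G] [Fintype G] [DecidableEq G] {P : Finset ℕ} {r C : ℝ}
    (h : IFace G P r C) (s : ℕ) (ms : List ℕ) :
    (((FPset G (s + 2) ms).filter fun t => ¬ FPgen t).card : ℝ) * r ≤
      C ^ 3 * ((FPset G (s + 2) ms).card : ℝ) := by
  have hr : 0 < r := lt_of_lt_of_le one_pos h.one_le_r
  have hC : 0 < C := lt_of_lt_of_le one_pos h.one_le_C
  set Bad : Finset (G × G) := (univ : Finset (G × G)).filter
    fun t => Subgroup.closure {t.1, t.2} ≠ ⊤ with hBad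
  have h1 : ((FPset G (s + 2) ms).filter fun t => ¬ FPgen t).card ≤
      (XS G ms ×ˢ (Bad ×ˢ (univ : Finset (Fin s → G)))).card := by
    refine Finset.card_le_card_of_injOn
      (fun t => (t.1, ((t.2 0, t.2 1), fun i => t.2 i.succ.succ))) ?_ ?_
    · intro t ht
      rw [Finset.mem_coe, Finset.mem_filter, FPset, Finset.mem_product] at ht
      rw [Finset.mem_coe, Finset.mem_product, Finset.mem_product, hBad, Finset.mem_filter]
      refine ⟨ht.1.1, ⟨Finset.mem_univ _, ?_⟩, Finset.mem_univ _⟩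
      refine closure_ne_of_subset ?_ ht.2
      intro x hx
      rcases hx with rfl | hx
      · exact Subgroup.subset_closure (Or.inr ⟨0, rfl⟩)
      · rw [Set.mem_singleton_iff] at hx
        rw [hx]
        exact Subgroup.subset_closure (Or.inr ⟨1, rfl⟩)
    · intro t _ t' _ htt
      simp only [Prod.mk.injEq] at htt
      obtain ⟨h1, ⟨h2, h3⟩, h4⟩ := htt
      refine Prod.ext h1 ?_
      funext i
      refine Fin.cases h2 (fun i => ?_) i
      refine Fin.cases h3 (fun i => ?_) i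
      exact congrFun h4 i
  rw [Finset.card_product, Finset.card_product, Finset.card_univ, Fintype.card_fun,
    Fintype.card_fin] at h1
  have h2 : (Bad.card : ℝ) ≤ C * r ^ 11 := by
    have := h.gen0
    convert this using 3
  have h3 := h.le_card
  have h4 : (((FPset G (s + 2) ms).filter fun t => ¬ FPgen t).card : ℝ) ≤
      ((XS G ms).card : ℝ) * ((Bad.card : ℝ) * (Fintype.card G : ℝ) ^ s) := by
    exact_mod_cast h1
  rw [card_FPset]
  push_cast
  have hX : (0 : ℝ) ≤ ((XS G ms).card : ℝ) := Nat.cast_nonneg _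
  have hG : (0 : ℝ) ≤ (Fintype.card G : ℝ) := Nat.cast_nonneg _
  have h5 : r ^ 12 ≤ C ^ 2 * (Fintype.card G : ℝ) ^ 2 := by
    have := mul_le_mul h3 h3 (by positivity) (by positivity)
    calc r ^ 12 = r ^ 6 * r ^ 6 := by ring
      _ ≤ (C * (Fintype.card G : ℝ)) * (C * (Fintype.card G : ℝ)) := this
      _ = _ := by ring
  calc (((FPset G (s + 2) ms).filter fun t => ¬ FPgen t).card : ℝ) * r ≤
      (((XS G ms).card : ℝ) * ((Bad.card : ℝ) * (Fintype.card G : ℝ) ^ s)) * r :=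
        mul_le_mul_of_nonneg_right h4 hr.le
    _ ≤ (((XS G ms).card : ℝ) * ((C * r ^ 11) * (Fintype.card G : ℝ) ^ s)) * r := by
        refine mul_le_mul_of_nonneg_right ?_ hr.le
        refine mul_le_mul_of_nonneg_left ?_ hX
        exact mul_le_mul_of_nonneg_right h2 (by positivity)
    _ = (((XS G ms).card : ℝ) * C * (Fintype.card G : ℝ) ^ s) * r ^ 12 := by ring
    _ ≤ (((XS G ms).card : ℝ) * C * (Fintype.card G : ℝ) ^ s) *
        (C ^ 2 * (Fintype.card G : ℝ) ^ 2) := by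
        refine mul_le_mul_of_nonneg_left h5 (by positivity)
    _ = _ := by ring

open scoped Classical in
theorem fp_b {G : Type} [Group G] [Fintype G] [DecidableEq G] {P : Finset ℕ} {r C : ℝ}
    (h : IFace G P r C) (m : ℕ) (ms : List ℕ) (hm : m ∈ P)
    (hm' : ¬ Nat.Coprime m (Fintype.card G)) :
    (((FPset G 1 (m :: ms)).filter fun t => ¬ FPgen t).card : ℝ) * r ≤
      C ^ 3 * ((FPset G 1 (m :: ms)).card : ℝ) := by
  have hr : 0 < r := lt_of_lt_of_le one_pos h.one_le_r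
  have hC : 0 < C := lt_of_lt_of_le one_pos h.one_le_C
  set Bad : Finset (G × G) := (tor G m ×ˢ (univ : Finset G)).filter
    fun t => Subgroup.closure {t.1, t.2} ≠ ⊤ with hBad
  have h1 : ((FPset G 1 (m :: ms)).filter fun t => ¬ FPgen t).card ≤
      (Bad ×ˢ XS G ms).card := by
    refine Finset.card_le_card_of_injOn
      (fun t => ((t.1.headD 1, t.2 0), t.1.tail)) ?_ ?_
    · intro t ht
      rw [Finset.mem_coe, Finset.mem_filter, FPset, Finset.mem_product] at ht
      rw [Finset.mem_coe, Finset.mem_product, hBad, Finset.mem_filter, Finset.mem_product]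
      obtain ⟨⟨hX, -⟩, hgen⟩ := ht
      obtain ⟨x, hx, l', hl', hl⟩ := mem_XS_cons.1 hX
      have e1 : t.1.headD 1 = x := by rw [← hl]; rfl
      have e2 : t.1.tail = l' := by rw [← hl]; rfl
      simp only [e1, e2]
      refine ⟨⟨⟨hx, Finset.mem_univ _⟩, ?_⟩, hl'⟩
      refine closure_ne_of_subset ?_ hgen
      intro z hz
      rcases hz with rfl | hz
      · refine Subgroup.subset_closure (Or.inl ?_)
        rw [← hl]
        exact List.mem_cons_self
      · rw [Set.mem_singleton_iff] at hz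
        rw [hz]
        exact Subgroup.subset_closure (Or.inr ⟨0, rfl⟩)
    · intro t ht t' ht' htt
      rw [Finset.mem_coe, Finset.mem_filter, FPset, Finset.mem_product] at ht ht'
      obtain ⟨x, hx, l, hl, e⟩ := mem_XS_cons.1 ht.1.1
      obtain ⟨x', hx', l', hl', e'⟩ := mem_XS_cons.1 ht'.1.1
      simp only [Prod.mk.injEq] at htt
      rw [← e, ← e'] at htt
      obtain ⟨⟨h1, h2⟩, h3⟩ := htt
      refine Prod.ext ?_ ?_
      · rw [← e, ← e']
        have h1' : x = x' := h1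
        have h3' : l = l' := h3
        rw [h1', h3']
      · funext i
        have : i = 0 := Subsingleton.elim _ _
        rw [this]
        exact h2
  rw [Finset.card_product] at h1
  have h2 : (Bad.card : ℝ) ≤ C * r ^ 9 := by
    have := h.gen1 m hm
    convert this using 3
  have h3 := h.le_card
  have h4 : (((FPset G 1 (m :: ms)).filter fun t => ¬ FPgen t).card : ℝ) ≤
      (Bad.card : ℝ) * ((XS G ms).card : ℝ) := by
    exact_mod_cast h1
  have h6 := h.le_tor m hm hm'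
  rw [card_FPset, card_XS_cons, pow_one]
  push_cast
  have hX : (0 : ℝ) ≤ ((XS G ms).card : ℝ) := Nat.cast_nonneg _
  have hG : (0 : ℝ) ≤ (Fintype.card G : ℝ) := Nat.cast_nonneg _
  have h5 : r ^ 10 ≤ C ^ 2 * (((tor G m).card : ℝ) * (Fintype.card G : ℝ)) := by
    have := mul_le_mul h6 h3 (by positivity) (by positivity)
    calc r ^ 10 = r ^ 4 * r ^ 6 := by ring
      _ ≤ (C * ((tor G m).card : ℝ)) * (C * (Fintype.card G : ℝ)) := this
      _ = _ := by ring
  calc (((FPset G 1 (m :: ms)).filter fun t => ¬ FPgen t).card : ℝ) * r ≤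
      ((Bad.card : ℝ) * ((XS G ms).card : ℝ)) * r := mul_le_mul_of_nonneg_right h4 hr.le
    _ ≤ ((C * r ^ 9) * ((XS G ms).card : ℝ)) * r := by
        refine mul_le_mul_of_nonneg_right ?_ hr.le
        exact mul_le_mul_of_nonneg_right h2 hX
    _ = (C * ((XS G ms).card : ℝ)) * r ^ 10 := by ring
    _ ≤ (C * ((XS G ms).card : ℝ)) *
        (C ^ 2 * (((tor G m).card : ℝ) * (Fintype.card G : ℝ))) := by
        refine mul_le_mul_of_nonneg_left h5 (by positivity)
    _ = _ := by ring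

open scoped Classical in
theorem triple_count {G : Type} [Group G] [Fintype G] [DecidableEq G] {P : Finset ℕ} {r C : ℝ}
    (h : IFace G P r C) {m₁ m₂ m₃ : ℕ} (h1 : m₁ ∈ P) (h2 : m₂ ∈ P) (h3 : m₃ ∈ P) :
    (((tor G m₁ ×ˢ (tor G m₂ ×ˢ tor G m₃)).filter fun t =>
      Subgroup.closure {t.1, t.2.1 * t.2.2} ≠ ⊤).card : ℝ) ≤ 2 * C ^ 2 * r ^ 11 := by
  have hr : 0 < r := lt_of_lt_of_le one_pos h.one_le_r
  have hC : 0 < C := lt_of_lt_of_le one_pos h.one_le_C
  set T := (tor G m₁ ×ˢ (tor G m₂ ×ˢ tor G m₃)).filter fun t =>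
      Subgroup.closure {t.1, t.2.1 * t.2.2} ≠ ⊤ with hT
  set Bad : Finset (G × G) := (tor G m₁ ×ˢ (univ : Finset G)).filter
    fun t => Subgroup.closure {t.1, t.2} ≠ ⊤ with hBad
  have hBc : (Bad.card : ℝ) ≤ C * r ^ 9 := by
    have := h.gen1 m₁ h1
    convert this using 3

  have hsplit : T.card ≤ ∑ b ∈ Bad, ((tor G m₂).filter fun x => x⁻¹ * b.2 ∈ tor G m₃).card := by
    have hmap : ∀ t ∈ T, (t.1, t.2.1 * t.2.2) ∈ Bad := by
      intro t ht
      rw [hT, Finset.mem_filter, Finset.mem_product] at ht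
      rw [hBad, Finset.mem_filter, Finset.mem_product]
      exact ⟨⟨ht.1.1, Finset.mem_univ _⟩, ht.2⟩
    rw [Finset.card_eq_sum_card_fiberwise hmap]
    refine Finset.sum_le_sum fun b _ => ?_
    refine Finset.card_le_card_of_injOn (fun t => t.2.1) ?_ ?_
    · intro t ht
      rw [Finset.mem_coe, Finset.mem_filter, hT, Finset.mem_filter, Finset.mem_product,
        Finset.mem_product] at ht
      obtain ⟨⟨⟨-, h5, h6⟩, -⟩, h7⟩ := ht
      rw [Finset.mem_coe, Finset.mem_filter]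
      refine ⟨h5, ?_⟩
      rw [← h7]
      simpa using h6
    · intro t ht t' ht' htt
      rw [Finset.mem_coe, Finset.mem_filter] at ht ht'
      have e1 := ht.2.trans ht'.2.symm
      simp only [Prod.mk.injEq] at e1
      have htt' : t.2.1 = t'.2.1 := htt
      refine Prod.ext e1.1 (Prod.ext htt' ?_)
      have e2 := e1.2
      rw [htt'] at e2
      exact mul_left_cancel e2
  have hsum : (T.card : ℝ) ≤ ∑ b ∈ Bad,
      (((tor G m₂).filter fun x => x⁻¹ * b.2 ∈ tor G m₃).card : ℝ) := by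
    exact_mod_cast hsplit
  have hb : ∀ b ∈ Bad, (((tor G m₂).filter fun x => x⁻¹ * b.2 ∈ tor G m₃).card : ℝ) ≤
      C * r ^ 2 + (if b.2 = 1 then C * r ^ 4 else 0) := by
    intro b _
    by_cases hb1 : b.2 = 1
    · rw [if_pos hb1]
      have e1 : (((tor G m₂).filter fun x => x⁻¹ * b.2 ∈ tor G m₃).card : ℝ) ≤
          ((tor G m₂).card : ℝ) := by
        exact_mod_cast Finset.card_filter_le _ _
      have e2 := h.tor_le m₂ h2
      have e3 : 0 ≤ C * r ^ 2 := by positivity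
      linarith
    · rw [if_neg hb1, add_zero]
      have := h.two_le m₂ h2 m₃ h3 b.2 hb1
      convert this using 3
  have hone : ((Bad.filter fun b => b.2 = 1).card : ℝ) ≤ C * r ^ 4 := by
    have e1 : (Bad.filter fun b => b.2 = 1).card ≤ (tor G m₁).card := by
      refine Finset.card_le_card_of_injOn (fun b => b.1) ?_ ?_
      · intro b hb
        rw [Finset.mem_coe, Finset.mem_filter, hBad, Finset.mem_filter, Finset.mem_product] at hb
        exact hb.1.1.1
      · intro b hb b' hb' hbb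
        rw [Finset.mem_coe, Finset.mem_filter] at hb hb'
        exact Prod.ext hbb (hb.2.trans hb'.2.symm)
    have e2 : ((Bad.filter fun b => b.2 = 1).card : ℝ) ≤ ((tor G m₁).card : ℝ) := by
      exact_mod_cast e1
    exact e2.trans (h.tor_le m₁ h1)
  have hfin : ∑ b ∈ Bad, (C * r ^ 2 + (if b.2 = 1 then C * r ^ 4 else 0)) ≤
      (C * r ^ 9) * (C * r ^ 2) + (C * r ^ 4) * (C * r ^ 4) := by
    rw [Finset.sum_add_distrib, Finset.sum_const, nsmul_eq_mul, ← Finset.sum_filter,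
      Finset.sum_const, nsmul_eq_mul]
    refine add_le_add ?_ ?_
    · exact mul_le_mul_of_nonneg_right hBc (by positivity)
    · exact mul_le_mul_of_nonneg_right hone (by positivity)
  have h8 : r ^ 8 ≤ r ^ 11 := pow_le_pow_right₀ h.one_le_r (by norm_num)
  calc (T.card : ℝ) ≤ _ := hsum
    _ ≤ ∑ b ∈ Bad, (C * r ^ 2 + (if b.2 = 1 then C * r ^ 4 else 0)) := Finset.sum_le_sum hb
    _ ≤ (C * r ^ 9) * (C * r ^ 2) + (C * r ^ 4) * (C * r ^ 4) := hfin
    _ = C ^ 2 * r ^ 11 + C ^ 2 * r ^ 8 := by ring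
    _ ≤ C ^ 2 * r ^ 11 + C ^ 2 * r ^ 11 := by
        have : C ^ 2 * r ^ 8 ≤ C ^ 2 * r ^ 11 := mul_le_mul_of_nonneg_left h8 (by positivity)
        linarith
    _ = 2 * C ^ 2 * r ^ 11 := by ring

open scoped Classical in
theorem fp_c {G : Type} [Group G] [Fintype G] [DecidableEq G] {P : Finset ℕ} {r C : ℝ}
    (h : IFace G P r C) (m₁ m₂ m₃ : ℕ) (ms : List ℕ) (h1 : m₁ ∈ P) (h2 : m₂ ∈ P) (h3 : m₃ ∈ P)
    (h1' : ¬ Nat.Coprime m₁ (Fintype.card G)) (h2' : ¬ Nat.Coprime m₂ (Fintype.card G))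
    (h3' : ¬ Nat.Coprime m₃ (Fintype.card G)) :
    (((FPset G 0 (m₁ :: m₂ :: m₃ :: ms)).filter fun t => ¬ FPgen t).card : ℝ) * r ≤
      2 * C ^ 5 * ((FPset G 0 (m₁ :: m₂ :: m₃ :: ms)).card : ℝ) := by
  have hr : 0 < r := lt_of_lt_of_le one_pos h.one_le_r
  have hC : 0 < C := lt_of_lt_of_le one_pos h.one_le_C
  set T := (tor G m₁ ×ˢ (tor G m₂ ×ˢ tor G m₃)).filter fun t =>
      Subgroup.closure {t.1, t.2.1 * t.2.2} ≠ ⊤ with hT
  have hTc : (T.card : ℝ) ≤ 2 * C ^ 2 * r ^ 11 := triple_count h h1 h2 h3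
  have hle : ((FPset G 0 (m₁ :: m₂ :: m₃ :: ms)).filter fun t => ¬ FPgen t).card ≤
      (T ×ˢ XS G ms).card := by
    refine Finset.card_le_card_of_injOn
      (fun t => ((t.1.headD 1, t.1.tail.headD 1, t.1.tail.tail.headD 1), t.1.tail.tail.tail))
      ?_ ?_
    · intro t ht
      rw [Finset.mem_coe, Finset.mem_filter, FPset, Finset.mem_product] at ht
      obtain ⟨⟨hX, -⟩, hgen⟩ := ht
      obtain ⟨x₁, hx₁, l₁, hl₁, e₁⟩ := mem_XS_cons.1 hX
      obtain ⟨x₂, hx₂, l₂, hl₂, e₂⟩ := mem_XS_cons.1 hl₁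
      obtain ⟨x₃, hx₃, l₃, hl₃, e₃⟩ := mem_XS_cons.1 hl₂
      have hl : t.1 = x₁ :: x₂ :: x₃ :: l₃ := by rw [e₃, e₂, e₁]
      rw [Finset.mem_coe, Finset.mem_product, hT, Finset.mem_filter, Finset.mem_product,
        Finset.mem_product]
      simp only [hl, List.headD_cons, List.tail_cons]
      refine ⟨⟨⟨hx₁, hx₂, hx₃⟩, ?_⟩, hl₃⟩
      refine closure_ne_of_subset ?_ hgen
      have hmem : ∀ z ∈ t.1, z ∈ Subgroup.closure ({x | x ∈ t.1} ∪ Set.range t.2) :=
        fun z hz => Subgroup.subset_closure (Or.inl hz)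
      intro z hz
      rcases hz with rfl | hz
      · exact hmem _ (by rw [hl]; simp)
      · rw [Set.mem_singleton_iff] at hz
        rw [hz]
        exact mul_mem (hmem _ (by rw [hl]; simp)) (hmem _ (by rw [hl]; simp))
    · intro t ht t' ht' htt
      rw [Finset.mem_coe, Finset.mem_filter, FPset, Finset.mem_product] at ht ht'
      have hdec : ∀ l ∈ XS G (m₁ :: m₂ :: m₃ :: ms), ∃ x₁ x₂ x₃ l₃, l = x₁ :: x₂ :: x₃ :: l₃ := by
        intro l hl
        obtain ⟨x₁, hx₁, l₁, hl₁, e₁⟩ := mem_XS_cons.1 hl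
        obtain ⟨x₂, hx₂, l₂, hl₂, e₂⟩ := mem_XS_cons.1 hl₁
        obtain ⟨x₃, hx₃, l₃, hl₃, e₃⟩ := mem_XS_cons.1 hl₂
        exact ⟨x₁, x₂, x₃, l₃, by rw [e₃, e₂, e₁]⟩
      obtain ⟨a₁, a₂, a₃, a, ea⟩ := hdec _ ht.1.1
      obtain ⟨b₁, b₂, b₃, b, eb⟩ := hdec _ ht'.1.1
      simp only [ea, eb, List.headD_cons, List.tail_cons, Prod.mk.injEq] at htt
      obtain ⟨⟨q1, q2, q3⟩, q4⟩ := htt
      refine Prod.ext ?_ ?_
      · rw [ea, eb, q1, q2, q3, q4]
      · funext i
        exact Fin.elim0 i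
  rw [Finset.card_product] at hle
  have h4 : (((FPset G 0 (m₁ :: m₂ :: m₃ :: ms)).filter fun t => ¬ FPgen t).card : ℝ) ≤
      (T.card : ℝ) * ((XS G ms).card : ℝ) := by
    exact_mod_cast hle
  rw [card_FPset, card_XS_cons, card_XS_cons, card_XS_cons, pow_zero, mul_one]
  push_cast
  have hX : (0 : ℝ) ≤ ((XS G ms).card : ℝ) := Nat.cast_nonneg _
  have t1 := h.le_tor m₁ h1 h1'
  have t2 := h.le_tor m₂ h2 h2'
  have t3 := h.le_tor m₃ h3 h3'
  have h5 : r ^ 12 ≤ C ^ 3 * (((tor G m₁).card : ℝ) * (((tor G m₂).card : ℝ) *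
      ((tor G m₃).card : ℝ))) := by
    have e1 := mul_le_mul t2 t3 (by positivity) (by positivity)
    have e2 := mul_le_mul t1 e1 (by positivity) (by positivity)
    calc r ^ 12 = r ^ 4 * (r ^ 4 * r ^ 4) := by ring
      _ ≤ _ := e2
      _ = _ := by ring
  calc (((FPset G 0 (m₁ :: m₂ :: m₃ :: ms)).filter fun t => ¬ FPgen t).card : ℝ) * r ≤
      ((T.card : ℝ) * ((XS G ms).card : ℝ)) * r := mul_le_mul_of_nonneg_right h4 hr.le
    _ ≤ ((2 * C ^ 2 * r ^ 11) * ((XS G ms).card : ℝ)) * r := by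
        refine mul_le_mul_of_nonneg_right ?_ hr.le
        exact mul_le_mul_of_nonneg_right hTc hX
    _ = (2 * C ^ 2 * ((XS G ms).card : ℝ)) * r ^ 12 := by ring
    _ ≤ (2 * C ^ 2 * ((XS G ms).card : ℝ)) *
        (C ^ 3 * (((tor G m₁).card : ℝ) * (((tor G m₂).card : ℝ) *
      ((tor G m₃).card : ℝ)))) := mul_le_mul_of_nonneg_left h5 (by positivity)
    _ = _ := by ring

open scoped Classical in
theorem fp_d {G : Type} [Group G] [Fintype G] [DecidableEq G] {P : Finset ℕ} {r C : ℝ}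
    (h : IFace G P r C) (m n : ℕ) (h1 : m ∈ P) (h2 : n ∈ P)
    (h1' : ¬ Nat.Coprime m (Fintype.card G)) (h2' : ¬ Nat.Coprime n (Fintype.card G))
    (hodd : Odd m ∨ Odd n) :
    (((FPset G 0 [m, n]).filter fun t => ¬ FPgen t).card : ℝ) * r ≤
      2 * C ^ 3 * ((FPset G 0 [m, n]).card : ℝ) := by
  have hr : 0 < r := lt_of_lt_of_le one_pos h.one_le_r
  have hC : 0 < C := lt_of_lt_of_le one_pos h.one_le_C
  set T₁ := (tor G m ×ˢ tor G n).filter fun t =>
    Subgroup.closure {t.1, t.2} ≠ ⊤ ∧ ¬ (t.1 ^ 2 = 1 ∧ t.2 ^ 2 = 1) with hT₁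
  set T₂ := (tor G m ×ˢ tor G n).filter fun t => t.1 ^ 2 = 1 ∧ t.2 ^ 2 = 1 with hT₂
  have hT₁c : (T₁.card : ℝ) ≤ C * r ^ 7 := by
    have := h.gen2 m h1 n h2
    convert this using 3
  have hsq : ∀ (k : ℕ) (x : G), Odd k → x ∈ tor G k → x ^ 2 = 1 → x = 1 := by
    intro k x hk hx hx2
    rw [tor, Finset.mem_filter] at hx
    obtain ⟨q, rfl⟩ := hk
    have := hx.2
    rwa [pow_succ, pow_mul, hx2, one_pow, one_mul] at this
  have hT₂c : (T₂.card : ℝ) ≤ C * r ^ 4 := by
    rcases hodd with ho | ho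
    · have e1 : T₂.card ≤ (tor G n).card := by
        refine Finset.card_le_card_of_injOn (fun t => t.2) ?_ ?_
        · intro t ht
          rw [Finset.mem_coe, hT₂, Finset.mem_filter, Finset.mem_product] at ht
          exact ht.1.2
        · intro t ht t' ht' htt
          rw [Finset.mem_coe, hT₂, Finset.mem_filter, Finset.mem_product] at ht ht'
          exact Prod.ext ((hsq m _ ho ht.1.1 ht.2.1).trans (hsq m _ ho ht'.1.1 ht'.2.1).symm) htt
      have e2 : (T₂.card : ℝ) ≤ ((tor G n).card : ℝ) := by exact_mod_cast e1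
      exact e2.trans (h.tor_le n h2)
    · have e1 : T₂.card ≤ (tor G m).card := by
        refine Finset.card_le_card_of_injOn (fun t => t.1) ?_ ?_
        · intro t ht
          rw [Finset.mem_coe, hT₂, Finset.mem_filter, Finset.mem_product] at ht
          exact ht.1.1
        · intro t ht t' ht' htt
          rw [Finset.mem_coe, hT₂, Finset.mem_filter, Finset.mem_product] at ht ht'
          exact Prod.ext htt ((hsq n _ ho ht.1.2 ht.2.2).trans (hsq n _ ho ht'.1.2 ht'.2.2).symm)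
      have e2 : (T₂.card : ℝ) ≤ ((tor G m).card : ℝ) := by exact_mod_cast e1
      exact e2.trans (h.tor_le m h1)
  have hle : ((FPset G 0 [m, n]).filter fun t => ¬ FPgen t).card ≤ (T₁ ∪ T₂).card := by
    refine Finset.card_le_card_of_injOn
      (fun t => (t.1.headD 1, t.1.tail.headD 1)) ?_ ?_
    · intro t ht
      rw [Finset.mem_coe, Finset.mem_filter, FPset, Finset.mem_product] at ht
      obtain ⟨⟨hX, -⟩, hgen⟩ := ht
      obtain ⟨x₁, hx₁, l₁, hl₁, e₁⟩ := mem_XS_cons.1 hX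
      obtain ⟨x₂, hx₂, l₂, hl₂, e₂⟩ := mem_XS_cons.1 hl₁
      have hl₂' : l₂ = [] := by rw [XS, Finset.mem_singleton] at hl₂; exact hl₂
      have hl : t.1 = [x₁, x₂] := by rw [← e₁, ← e₂, hl₂']
      rw [Finset.mem_coe, Finset.mem_union, hT₁, hT₂, Finset.mem_filter, Finset.mem_filter,
        Finset.mem_product]
      simp only [hl, List.headD_cons, List.tail_cons]
      by_cases hc : x₁ ^ 2 = 1 ∧ x₂ ^ 2 = 1
      · exact Or.inr ⟨⟨hx₁, hx₂⟩, hc⟩
      · left
        refine ⟨⟨hx₁, hx₂⟩, ?_, hc⟩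
        refine closure_ne_of_subset ?_ hgen
        have hmem : ∀ z ∈ t.1, z ∈ Subgroup.closure ({x | x ∈ t.1} ∪ Set.range t.2) :=
          fun z hz => Subgroup.subset_closure (Or.inl hz)
        intro z hz
        rcases hz with rfl | hz
        · exact hmem _ (by rw [hl]; simp)
        · rw [Set.mem_singleton_iff] at hz
          rw [hz]
          exact hmem _ (by rw [hl]; simp)
    · intro t ht t' ht' htt
      rw [Finset.mem_coe, Finset.mem_filter, FPset, Finset.mem_product] at ht ht'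
      have hdec : ∀ l ∈ XS G [m, n], ∃ x₁ x₂, l = [x₁, x₂] := by
        intro l hl
        obtain ⟨x₁, hx₁, l₁, hl₁, e₁⟩ := mem_XS_cons.1 hl
        obtain ⟨x₂, hx₂, l₂, hl₂, e₂⟩ := mem_XS_cons.1 hl₁
        have hl₂' : l₂ = [] := by rw [XS, Finset.mem_singleton] at hl₂; exact hl₂
        exact ⟨x₁, x₂, by rw [← e₁, ← e₂, hl₂']⟩
      obtain ⟨a₁, a₂, ea⟩ := hdec _ ht.1.1
      obtain ⟨b₁, b₂, eb⟩ := hdec _ ht'.1.1
      simp only [ea, eb, List.headD_cons, List.tail_cons, Prod.mk.injEq] at htt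
      refine Prod.ext ?_ ?_
      · rw [ea, eb, htt.1, htt.2]
      · funext i
        exact Fin.elim0 i
  have h4 : (((FPset G 0 [m, n]).filter fun t => ¬ FPgen t).card : ℝ) ≤
      C * r ^ 7 + C * r ^ 4 := by
    have e1 : (((FPset G 0 [m, n]).filter fun t => ¬ FPgen t).card : ℝ) ≤
        (T₁.card : ℝ) + (T₂.card : ℝ) := by
      exact_mod_cast hle.trans (Finset.card_union_le _ _)
    linarith
  have hXnil : (XS G []).card = 1 := by rw [XS, Finset.card_singleton]
  rw [card_FPset, card_XS_cons, card_XS_cons, hXnil, pow_zero, mul_one, mul_one]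
  push_cast
  have t1 := h.le_tor m h1 h1'
  have t2 := h.le_tor n h2 h2'
  have h5 : r ^ 8 ≤ C ^ 2 * (((tor G m).card : ℝ) * ((tor G n).card : ℝ)) := by
    have e1 := mul_le_mul t1 t2 (by positivity) (by positivity)
    calc r ^ 8 = r ^ 4 * r ^ 4 := by ring
      _ ≤ _ := e1
      _ = _ := by ring
  have h6 : r ^ 5 ≤ r ^ 8 := pow_le_pow_right₀ h.one_le_r (by norm_num)
  calc (((FPset G 0 [m, n]).filter fun t => ¬ FPgen t).card : ℝ) * r ≤
      (C * r ^ 7 + C * r ^ 4) * r := mul_le_mul_of_nonneg_right h4 hr.le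
    _ = C * r ^ 8 + C * r ^ 5 := by ring
    _ ≤ C * r ^ 8 + C * r ^ 8 := by
        have : C * r ^ 5 ≤ C * r ^ 8 := mul_le_mul_of_nonneg_left h6 hC.le
        linarith
    _ = (2 * C) * r ^ 8 := by ring
    _ ≤ (2 * C) * (C ^ 2 * (((tor G m).card : ℝ) * ((tor G n).card : ℝ))) :=
        mul_le_mul_of_nonneg_left h5 (by positivity)
    _ = _ := by ring

open scoped Classical in
theorem fp_pos (C : ℝ) (s : ℕ) (ms : List ℕ) : ∃ K : ℝ, 0 < K ∧
    ∀ (G : Type) [Group G] [Fintype G] [DecidableEq G] (P : Finset ℕ) (r : ℝ),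
      IFace G P r C → 2 * C ≤ r → (∀ m ∈ ms, m ∈ P ∧ ¬ Nat.Coprime m (Fintype.card G)) →
      (2 ≤ s ∨ (s = 1 ∧ 1 ≤ ms.length) ∨ (s = 0 ∧ 3 ≤ ms.length) ∨ (s = 0 ∧ ms.length = 2 ∧ ∃ n ∈ ms, Odd n)) →
      0 < (FPset G s ms).card ∧
      (((FPset G s ms).filter fun t => ¬ FPgen t).card : ℝ) * r ≤
        K * ((FPset G s ms).card : ℝ) := by
  refine ⟨2 * (max C 1) ^ 5, by positivity, ?_⟩
  intro G _ _ _ P r h hr2 hms hcase
  have hmax : max C 1 = C := max_eq_left h.one_le_C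
  rw [hmax]
  have hC1 := h.one_le_C
  have h35 : C ^ 3 ≤ 2 * C ^ 5 := by
    have e1 : C ^ 3 ≤ C ^ 5 := pow_le_pow_right₀ hC1 (by norm_num)
    have e2 : 0 ≤ C ^ 5 := by positivity
    linarith
  have h35' : 2 * C ^ 3 ≤ 2 * C ^ 5 := by
    have e1 : C ^ 3 ≤ C ^ 5 := pow_le_pow_right₀ hC1 (by norm_num)
    linarith
  constructor
  · rw [card_FPset]
    exact Nat.mul_pos (XS_card_pos ms) (Nat.pow_pos Fintype.card_pos)
  · rcases hcase with hc | ⟨hc, hl⟩ | ⟨hc, hl⟩ | ⟨hc, hl, n, hn, hodd⟩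
    · obtain ⟨s', rfl⟩ : ∃ s', s = s' + 2 := ⟨s - 2, by omega⟩
      refine (fp_a h s' ms).trans ?_
      exact mul_le_mul_of_nonneg_right h35 (Nat.cast_nonneg _)
    · subst hc
      match ms, hms, hl with
      | m :: ms', hms, _ =>
        have hm := hms m List.mem_cons_self
        refine (fp_b h m ms' hm.1 hm.2).trans ?_
        exact mul_le_mul_of_nonneg_right h35 (Nat.cast_nonneg _)
    · subst hc
      match ms, hms, hl with
      | m₁ :: m₂ :: m₃ :: ms', hms, _ =>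
        have a1 := hms m₁ (by simp)
        have a2 := hms m₂ (by simp)
        have a3 := hms m₃ (by simp)
        exact fp_c h m₁ m₂ m₃ ms' a1.1 a2.1 a3.1 a1.2 a2.2 a3.2
    · subst hc
      match ms, hms, hl, hn with
      | [m₁, m₂], hms, _, hn =>
        have a1 := hms m₁ (by simp)
        have a2 := hms m₂ (by simp)
        refine (fp_d h m₁ m₂ a1.1 a2.1 a1.2 a2.2 ?_).trans ?_
        · rcases List.mem_pair.1 hn with h7 | h7
          · left; rw [← h7]; exact hodd
          · right; rw [← h7]; exact hodd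
        · exact mul_le_mul_of_nonneg_right h35' (Nat.cast_nonneg _)

end Pool.Agent.Helper669_gp.J03
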