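import Mathlib
import Pool.Agent.Helper669_gp.J01
import Pool.Agent.Helper669_gp.J02

namespace Pool.Agent.Helper669_gp.J04

open Pool.Agent.Helper669_gp.J01 Pool.Agent.Helper669_gp.J02

open Finset

section aux_o0

set_option linter.unusedSectionVars false

variable {G : Type} [Group G] [Fintype G] [DecidableEq G]

lemma aux_o0_mem_cons (m : ℕ) (ms : List ℕ) (l : List G) :
    l ∈ XS G (m :: ms) ↔ ∃ x ∈ tor G m, ∃ l' ∈ XS G ms, x :: l' = l := by
  simp only [XS, Finset.mem_image₂]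

lemma aux_o0_mem_append (A B : List ℕ) : ∀ l : List G, l ∈ XS G (A ++ B) →
    ∃ l₁ ∈ XS G A, ∃ l₂ ∈ XS G B, l = l₁ ++ l₂ := by
  induction A with
  | nil => intro l hl; exact ⟨[], by simp [XS], l, hl, rfl⟩
  | cons a A ih =>
    intro l hl
    rw [List.cons_append, aux_o0_mem_cons] at hl
    obtain ⟨x, hx, l', hl', rfl⟩ := hl
    obtain ⟨l₁, h1, l₂, h2, rfl⟩ := ih l' hl'
    exact ⟨x :: l₁, (aux_o0_mem_cons a A _).2 ⟨x, hx, l₁, h1, rfl⟩, l₂, h2, rfl⟩

open scoped Classical in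

noncomputable def aux_o0_Bd (A : List ℕ) : Finset (List G) :=
  (XS G A).filter fun l => Subgroup.closure {x | x ∈ l} ≠ ⊤

open scoped Classical in
lemma aux_o0_bad_le (A B : List ℕ) :
    (((O0set G (A ++ B)).filter fun t => ¬ O0gen t).card : ℝ) ≤
      ∑ l ∈ aux_o0_Bd A, (cntA G B (l.prod)⁻¹ : ℝ) := by
  have hsub : ((O0set G (A ++ B)).filter fun t => ¬ O0gen t) ⊆
      (aux_o0_Bd A).biUnion (fun l₁ => ((XS G B).filter fun l => l.prod = (l₁.prod)⁻¹).image (l₁ ++ ·)) := by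
    intro l hl
    rw [Finset.mem_filter, O0set, Finset.mem_filter] at hl
    obtain ⟨⟨hl1, hl2⟩, hl3⟩ := hl
    obtain ⟨l₁, h1, l₂, h2, rfl⟩ := aux_o0_mem_append A B l hl1
    rw [Finset.mem_biUnion]
    refine ⟨l₁, ?_, ?_⟩
    · rw [aux_o0_Bd, Finset.mem_filter]
      refine ⟨h1, fun hc => hl3 ?_⟩
      rw [O0gen, eq_top_iff, ← hc]
      apply Subgroup.closure_mono
      intro x hx
      exact List.mem_append_left _ hx
    · rw [Finset.mem_image]
      refine ⟨l₂, Finset.mem_filter.2 ⟨h2, ?_⟩, rfl⟩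
      rw [List.prod_append] at hl2
      exact eq_inv_of_mul_eq_one_right hl2
  have h1 := Finset.card_le_card hsub
  have h2 := h1.trans Finset.card_biUnion_le
  have h3 : ((∑ l₁ ∈ aux_o0_Bd A, (((XS G B).filter fun l => l.prod = (l₁.prod)⁻¹).image (l₁ ++ ·)).card : ℕ) : ℝ) ≤
      ∑ l ∈ aux_o0_Bd A, (cntA G B (l.prod)⁻¹ : ℝ) := by
    push_cast
    apply Finset.sum_le_sum
    intro l₁ _
    unfold cntA
    exact_mod_cast Finset.card_image_le
  exact le_trans (by exact_mod_cast h2) h3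

open scoped Classical in
lemma aux_o0_bad_le' (A B : List ℕ) :
    (((O0set G (A ++ B)).filter fun t => ¬ O0gen t).card : ℝ) ≤
      ∑ l ∈ aux_o0_Bd B, (cntA G A (l.prod)⁻¹ : ℝ) := by
  have hsub : ((O0set G (A ++ B)).filter fun t => ¬ O0gen t) ⊆
      (aux_o0_Bd B).biUnion (fun l₂ => ((XS G A).filter fun l => l.prod = (l₂.prod)⁻¹).image (· ++ l₂)) := by
    intro l hl
    rw [Finset.mem_filter, O0set, Finset.mem_filter] at hl
    obtain ⟨⟨hl1, hl2⟩, hl3⟩ := hl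
    obtain ⟨l₁, h1, l₂, h2, rfl⟩ := aux_o0_mem_append A B l hl1
    rw [Finset.mem_biUnion]
    refine ⟨l₂, ?_, ?_⟩
    · rw [aux_o0_Bd, Finset.mem_filter]
      refine ⟨h2, fun hc => hl3 ?_⟩
      rw [O0gen, eq_top_iff, ← hc]
      apply Subgroup.closure_mono
      intro x hx
      exact List.mem_append_right _ hx
    · rw [Finset.mem_image]
      refine ⟨l₁, Finset.mem_filter.2 ⟨h1, ?_⟩, rfl⟩
      rw [List.prod_append] at hl2
      exact eq_inv_of_mul_eq_one_left hl2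
  have h1 := Finset.card_le_card hsub
  have h2 := h1.trans Finset.card_biUnion_le
  have h3 : ((∑ l₂ ∈ aux_o0_Bd B, (((XS G A).filter fun l => l.prod = (l₂.prod)⁻¹).image (· ++ l₂)).card : ℕ) : ℝ) ≤
      ∑ l ∈ aux_o0_Bd B, (cntA G A (l.prod)⁻¹ : ℝ) := by
    push_cast
    apply Finset.sum_le_sum
    intro l₁ _
    unfold cntA
    exact_mod_cast Finset.card_image_le
  exact le_trans (by exact_mod_cast h2) h3

lemma aux_o0_sum {P : Finset ℕ} {r C : ℝ} (h : IFace G P r C) (A B : List ℕ)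
    (hB : ∀ m ∈ B, m ∈ P) (hB2 : 2 ≤ B.length) (N M : ℝ)
    (hN : ((aux_o0_Bd (G := G) A).card : ℝ) ≤ N) (hM : (cntA G A 1 : ℝ) ≤ M) :
    ∑ l ∈ aux_o0_Bd A, (cntA G B (l.prod)⁻¹ : ℝ) ≤
      N * ((2 * C) ^ B.length * r ^ (4 * B.length - 6)) +
        M * (C ^ (B.length - 1) * r ^ (4 * (B.length - 1))) := by
  classical
  have hC := h.one_le_C
  have hr := h.one_le_r
  obtain ⟨-, h2, h3⟩ := cntA_upper h B hB
  have hBne : B ≠ [] := by
    rintro rfl
    simp at hB2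
  set U : ℝ := (2 * C) ^ B.length * r ^ (4 * B.length - 6) with hU
  set W : ℝ := C ^ (B.length - 1) * r ^ (4 * (B.length - 1)) with hW
  have hU0 : 0 ≤ U := by positivity
  have hW0 : 0 ≤ W := by positivity
  have hterm : ∀ l ∈ aux_o0_Bd (G := G) A, (cntA G B (l.prod)⁻¹ : ℝ) ≤ U + (if l.prod = 1 then W else 0) := by
    intro l _
    split_ifs with hl
    · have := h2 (l.prod)⁻¹ hBne
      linarith
    · have := h3 (l.prod)⁻¹ (by
        rcases Nat.lt_or_ge 2 B.length with h4 | h4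
        · left; omega
        · right
          exact ⟨by omega, fun hc => hl (inv_eq_one.1 hc)⟩)
      linarith
  refine (Finset.sum_le_sum hterm).trans ?_
  rw [Finset.sum_add_distrib, Finset.sum_const, nsmul_eq_mul, ← Finset.sum_filter, Finset.sum_const, nsmul_eq_mul]
  have hsub : (((aux_o0_Bd (G := G) A).filter fun l => l.prod = 1).card : ℝ) ≤ cntA G A 1 := by
    unfold cntA
    exact_mod_cast Finset.card_le_card (Finset.filter_subset_filter _ (by
      unfold aux_o0_Bd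
      exact Finset.filter_subset _ _))
  have e1 := mul_le_mul_of_nonneg_right hN hU0
  have e2 := mul_le_mul_of_nonneg_right (hsub.trans hM) hW0
  linarith

lemma aux_o0_B3 {P : Finset ℕ} {r C : ℝ} (h : IFace G P r C) (m₁ m₂ m₃ : ℕ)
    (h1 : m₁ ∈ P) (h2 : m₂ ∈ P) (h3 : m₃ ∈ P) :
    ((aux_o0_Bd (G := G) [m₁, m₂, m₃]).card : ℝ) ≤ 2 * C ^ 2 * r ^ 11 := by
  classical
  have hC := h.one_le_C
  have hr := h.one_le_r
  set S : Finset (G × G) := ((tor G m₁ ×ˢ (univ : Finset G)).filter fun t =>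
    Subgroup.closure {t.1, t.2} ≠ ⊤) with hS
  have hScard : (S.card : ℝ) ≤ C * r ^ 9 := by
    have := h.gen1 m₁ h1
    convert this using 3
  set S' : Finset (G × G) := S.filter fun t => t.2 ≠ 1 with hS'
  have hsub : aux_o0_Bd (G := G) [m₁, m₂, m₃] ⊆
      (S'.biUnion fun t => ((tor G m₂).filter fun x => x⁻¹ * t.2 ∈ tor G m₃).image
        fun x => [t.1, x, x⁻¹ * t.2]) ∪
      (tor G m₁ ×ˢ tor G m₂).image fun t => [t.1, t.2, t.2⁻¹] := by
    intro l hl
    rw [aux_o0_Bd, Finset.mem_filter, aux_o0_mem_cons] at hl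
    obtain ⟨⟨x₁, hx₁, la, hla, rfl⟩, hcl⟩ := hl
    rw [aux_o0_mem_cons] at hla
    obtain ⟨x₂, hx₂, lb, hlb, rfl⟩ := hla
    rw [aux_o0_mem_cons] at hlb
    obtain ⟨x₃, hx₃, lc, hlc, rfl⟩ := hlb
    simp only [XS, Finset.mem_singleton] at hlc
    subst hlc
    rw [Finset.mem_union]
    by_cases hg : x₂ * x₃ = 1
    · right
      rw [Finset.mem_image]
      refine ⟨(x₁, x₂), Finset.mem_product.2 ⟨hx₁, hx₂⟩, ?_⟩
      simp only
      rw [eq_inv_of_mul_eq_one_right hg]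
    · left
      rw [Finset.mem_biUnion]
      refine ⟨(x₁, x₂ * x₃), ?_, ?_⟩
      · rw [hS', Finset.mem_filter, hS, Finset.mem_filter, Finset.mem_product]
        refine ⟨⟨⟨hx₁, Finset.mem_univ _⟩, fun hc => hcl ?_⟩, hg⟩
        rw [eq_top_iff, ← hc, Subgroup.closure_le]
        intro x hx
        simp only [Set.mem_insert_iff, Set.mem_singleton_iff] at hx
        rcases hx with rfl | rfl
        · exact Subgroup.subset_closure (by simp)
        · exact Subgroup.mul_mem _ (Subgroup.subset_closure (by simp)) (Subgroup.subset_closure (by simp))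
      · rw [Finset.mem_image]
        refine ⟨x₂, ?_, ?_⟩
        · rw [Finset.mem_filter]
          refine ⟨hx₂, ?_⟩
          simpa using hx₃
        · simp
  have hc1 := (Finset.card_le_card hsub).trans (Finset.card_union_le _ _)
  have hc2 : ((S'.biUnion fun t => ((tor G m₂).filter fun x => x⁻¹ * t.2 ∈ tor G m₃).image
        fun x => [t.1, x, x⁻¹ * t.2]).card : ℝ) ≤ S'.card * (C * r ^ 2) := by
    have e1 : ((S'.biUnion fun t => ((tor G m₂).filter fun x => x⁻¹ * t.2 ∈ tor G m₃).image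
        fun x => [t.1, x, x⁻¹ * t.2]).card : ℝ) ≤
        ∑ t ∈ S', ((((tor G m₂).filter fun x => x⁻¹ * t.2 ∈ tor G m₃).image
        fun x => [t.1, x, x⁻¹ * t.2]).card : ℝ) := by
      exact_mod_cast Finset.card_biUnion_le
    refine e1.trans ?_
    have e2 : ∀ t ∈ S', ((((tor G m₂).filter fun x => x⁻¹ * t.2 ∈ tor G m₃).image
        fun x => [t.1, x, x⁻¹ * t.2]).card : ℝ) ≤ C * r ^ 2 := by
      intro t ht
      have ht2 : t.2 ≠ 1 := (Finset.mem_filter.1 ht).2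
      have e3 := h.two_le m₂ h2 m₃ h3 t.2 ht2
      refine le_trans ?_ e3
      exact_mod_cast Finset.card_image_le
    refine (Finset.sum_le_sum e2).trans ?_
    rw [Finset.sum_const, nsmul_eq_mul]
  have hc3 : (((tor G m₁ ×ˢ tor G m₂).image fun t => [t.1, t.2, t.2⁻¹]).card : ℝ) ≤ (C * r ^ 4) * (C * r ^ 4) := by
    have e1 : (((tor G m₁ ×ˢ tor G m₂).image fun t => [t.1, t.2, t.2⁻¹]).card : ℝ) ≤
        ((tor G m₁).card : ℝ) * ((tor G m₂).card : ℝ) := by
      have : ((tor G m₁ ×ˢ tor G m₂).image fun t => [t.1, t.2, t.2⁻¹]).card ≤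
          (tor G m₁).card * (tor G m₂).card := by
        rw [← Finset.card_product]
        exact Finset.card_image_le
      exact_mod_cast this
    refine e1.trans ?_
    have e2 := h.tor_le m₁ h1
    have e3 := h.tor_le m₂ h2
    exact mul_le_mul e2 e3 (by positivity) (by positivity)
  have hS'card : (S'.card : ℝ) ≤ C * r ^ 9 := by
    refine le_trans ?_ hScard
    exact_mod_cast Finset.card_le_card (Finset.filter_subset _ _)
  have hc4 : ((aux_o0_Bd (G := G) [m₁, m₂, m₃]).card : ℝ) ≤ (C * r ^ 9) * (C * r ^ 2) + (C * r ^ 4) * (C * r ^ 4) := by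
    have e1 : ((aux_o0_Bd (G := G) [m₁, m₂, m₃]).card : ℝ) ≤
      ((S'.biUnion fun t => ((tor G m₂).filter fun x => x⁻¹ * t.2 ∈ tor G m₃).image
        fun x => [t.1, x, x⁻¹ * t.2]).card : ℝ) + (((tor G m₁ ×ˢ tor G m₂).image fun t => [t.1, t.2, t.2⁻¹]).card : ℝ) := by
      exact_mod_cast hc1
    have e2 : (S'.card : ℝ) * (C * r ^ 2) ≤ (C * r ^ 9) * (C * r ^ 2) :=
      mul_le_mul_of_nonneg_right hS'card (by positivity)
    linarith
  refine hc4.trans ?_
  have e5 : r ^ 8 ≤ r ^ 11 := pow_le_pow_right₀ hr (by norm_num)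
  have e6 : 0 ≤ C ^ 2 := by positivity
  nlinarith [mul_le_mul_of_nonneg_left e5 e6]

lemma aux_o0_odd (n : ℕ) (hn : Odd n) (x : G) (h1 : x ^ n = 1) (h2 : x ^ 2 = 1) : x = 1 := by
  obtain ⟨k, rfl⟩ := hn
  rw [pow_succ, pow_mul, h2, one_pow, one_mul] at h1
  exact h1

lemma aux_o0_B2 {P : Finset ℕ} {r C : ℝ} (h : IFace G P r C) (m₁ m₂ : ℕ)
    (h1 : m₁ ∈ P) (h2 : m₂ ∈ P) (hodd : Odd m₁ ∨ Odd m₂) :
    ((aux_o0_Bd (G := G) [m₁, m₂]).card : ℝ) ≤ 3 * C * r ^ 7 := by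
  classical
  have hC := h.one_le_C
  have hr := h.one_le_r
  set S : Finset (G × G) := ((tor G m₁ ×ˢ tor G m₂).filter fun t =>
    Subgroup.closure {t.1, t.2} ≠ ⊤ ∧ ¬ (t.1 ^ 2 = 1 ∧ t.2 ^ 2 = 1)) with hS
  have hScard : (S.card : ℝ) ≤ C * r ^ 7 := by
    have := h.gen2 m₁ h1 m₂ h2
    convert this using 3
  have hsub : aux_o0_Bd (G := G) [m₁, m₂] ⊆
      (S.image fun t => [t.1, t.2]) ∪ ((tor G m₂).image (fun x => [1, x]) ∪ (tor G m₁).image (fun x => [x, 1])) := by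
    intro l hl
    rw [aux_o0_Bd, Finset.mem_filter, aux_o0_mem_cons] at hl
    obtain ⟨⟨x₁, hx₁, la, hla, rfl⟩, hcl⟩ := hl
    rw [aux_o0_mem_cons] at hla
    obtain ⟨x₂, hx₂, lb, hlb, rfl⟩ := hla
    simp only [XS, Finset.mem_singleton] at hlb
    subst hlb
    rw [Finset.mem_union, Finset.mem_union]
    by_cases hg : x₁ ^ 2 = 1 ∧ x₂ ^ 2 = 1
    · right
      rcases hodd with ho | ho
      · left
        have hx1 : x₁ = 1 := aux_o0_odd m₁ ho x₁ (by simpa [tor] using hx₁) hg.1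
        rw [Finset.mem_image]
        exact ⟨x₂, hx₂, by rw [hx1]⟩
      · right
        have hx2 : x₂ = 1 := aux_o0_odd m₂ ho x₂ (by simpa [tor] using hx₂) hg.2
        rw [Finset.mem_image]
        exact ⟨x₁, hx₁, by rw [hx2]⟩
    · left
      rw [Finset.mem_image]
      refine ⟨(x₁, x₂), ?_, rfl⟩
      rw [hS, Finset.mem_filter, Finset.mem_product]
      refine ⟨⟨hx₁, hx₂⟩, ?_, hg⟩
      intro hc
      apply hcl
      rw [← hc]
      congr 1
      ext x
      simp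
  have hc1 := (Finset.card_le_card hsub).trans (Finset.card_union_le _ _)
  have hc1' := Finset.card_union_le ((tor G m₂).image (fun x => [1, x])) ((tor G m₁).image (fun x => [x, 1]))
  have hc2 : ((S.image fun t => [t.1, t.2]).card : ℝ) ≤ S.card := by exact_mod_cast Finset.card_image_le
  have hc3 : (((tor G m₂).image (fun x : G => [1, x])).card : ℝ) ≤ (tor G m₂).card := by
    exact_mod_cast Finset.card_image_le
  have hc4 : (((tor G m₁).image (fun x : G => [x, 1])).card : ℝ) ≤ (tor G m₁).card := by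
    exact_mod_cast Finset.card_image_le
  have e2 := h.tor_le m₁ h1
  have e3 := h.tor_le m₂ h2
  have e5 : r ^ 4 ≤ r ^ 7 := pow_le_pow_right₀ hr (by norm_num)
  have e6 : C * r ^ 4 ≤ C * r ^ 7 := mul_le_mul_of_nonneg_left e5 (by positivity)
  have hc5 : ((aux_o0_Bd (G := G) [m₁, m₂]).card : ℝ) ≤ ((S.image fun t => [t.1, t.2]).card : ℝ) +
      ((((tor G m₂).image (fun x : G => [1, x])).card : ℝ) + (((tor G m₁).image (fun x : G => [x, 1])).card : ℝ)) := by
    exact_mod_cast hc1.trans (Nat.add_le_add_left hc1' _)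
  linarith

open scoped Classical in
lemma aux_o0_caseA {P : Finset ℕ} {r C : ℝ} (h : IFace G P r C) (m₁ m₂ m₃ : ℕ) (B : List ℕ)
    (hA : ∀ m ∈ m₁ :: m₂ :: m₃ :: B, m ∈ P) (hB2 : 2 ≤ B.length) :
    (((O0set G (m₁ :: m₂ :: m₃ :: B)).filter fun t => ¬ O0gen t).card : ℝ) ≤
      (2 * C ^ 2 * (2 * C) ^ B.length + (2 * C) ^ 3 * C ^ (B.length - 1)) *
        r ^ (4 * B.length + 5) := by
  have hC := h.one_le_C
  have hr := h.one_le_r
  have h1 : m₁ ∈ P := hA _ (by simp)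
  have h2 : m₂ ∈ P := hA _ (by simp)
  have h3 : m₃ ∈ P := hA _ (by simp)
  have hB : ∀ m ∈ B, m ∈ P := fun m hm => hA m (by simp [hm])
  have e1 := aux_o0_bad_le (G := G) [m₁, m₂, m₃] B
  have hM := (cntA_upper h [m₁, m₂, m₃] (by
    intro m hm
    simp only [List.mem_cons, List.not_mem_nil, or_false] at hm
    rcases hm with rfl | rfl | rfl <;> assumption)).2.2 1 (Or.inl (by simp))
  have e2 := aux_o0_sum h [m₁, m₂, m₃] B hB hB2 _ _ (aux_o0_B3 h m₁ m₂ m₃ h1 h2 h3) hM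
  refine (e1.trans e2).trans ?_
  simp only [List.length_cons, List.length_nil]
  obtain ⟨j, hj⟩ : ∃ j, B.length = j + 2 := ⟨B.length - 2, by omega⟩
  rw [hj]
  have a1 : 4 * (j + 2) - 6 = 4 * j + 2 := by omega
  have a2 : 4 * (j + 2 - 1) = 4 * j + 4 := by omega
  have a3 : 4 * (0 + 1 + 1 + 1) - 6 = 6 := rfl
  have a4 : 4 * (j + 2) + 5 = 4 * j + 13 := by omega
  rw [a1, a2, a3, a4]
  have e5 : r ^ (4 * j + 10) ≤ r ^ (4 * j + 13) := pow_le_pow_right₀ hr (by omega)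
  have e6 : 0 ≤ (2 * C) ^ 3 * C ^ (j + 2 - 1) := by positivity
  have e7 := mul_le_mul_of_nonneg_left e5 e6
  calc 2 * C ^ 2 * r ^ 11 * ((2 * C) ^ (j + 2) * r ^ (4 * j + 2)) +
        (2 * C) ^ (0 + 1 + 1 + 1) * r ^ 6 * (C ^ (j + 2 - 1) * r ^ (4 * j + 4))
      = 2 * C ^ 2 * (2 * C) ^ (j + 2) * r ^ (4 * j + 13) + (2 * C) ^ 3 * C ^ (j + 2 - 1) * r ^ (4 * j + 10) := by
        ring
    _ ≤ _ := by rw [add_mul]; linarith

lemma aux_o0_caseB {P : Finset ℕ} {r C : ℝ} (h : IFace G P r C) (m₁ m₂ m₃ m₄ : ℕ)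
    (h1 : m₁ ∈ P) (h2 : m₂ ∈ P) (h3 : m₃ ∈ P) (h4 : m₄ ∈ P) (hodd : Odd m₁ ∨ Odd m₂) :
    ∑ l ∈ aux_o0_Bd (G := G) [m₁, m₂], (cntA G [m₃, m₄] (l.prod)⁻¹ : ℝ) ≤
      (12 * C ^ 3 + C ^ 2) * r ^ 9 := by
  have hC := h.one_le_C
  have hr := h.one_le_r
  have hM := (cntA_upper h [m₁, m₂] (by
    intro m hm
    simp only [List.mem_cons, List.not_mem_nil, or_false] at hm
    rcases hm with rfl | rfl <;> assumption)).2.1 1 (by simp)
  have e2 := aux_o0_sum h [m₁, m₂] [m₃, m₄] (by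
    intro m hm
    simp only [List.mem_cons, List.not_mem_nil, or_false] at hm
    rcases hm with rfl | rfl <;> assumption) (by simp) _ _ (aux_o0_B2 h m₁ m₂ h1 h2 hodd) hM
  refine e2.trans ?_
  simp only [List.length_cons, List.length_nil]
  have a1 : 4 * (0 + 1 + 1) - 6 = 2 := rfl
  have a2 : 4 * (0 + 1 + 1 - 1) = 4 := rfl
  have a3 : 0 + 1 + 1 - 1 = 1 := rfl
  rw [a1, a2, a3]
  have e5 : r ^ 8 ≤ r ^ 9 := pow_le_pow_right₀ hr (by omega)
  have e6 : 0 ≤ C ^ 2 := by positivity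
  have e7 := mul_le_mul_of_nonneg_left e5 e6
  calc 3 * C * r ^ 7 * ((2 * C) ^ (0 + 1 + 1) * r ^ 2) + C ^ 1 * r ^ 4 * (C ^ 1 * r ^ 4)
      = 12 * C ^ 3 * r ^ 9 + C ^ 2 * r ^ 8 := by ring
    _ ≤ _ := by linarith

open scoped Classical in
lemma aux_o0_fin {P : Finset ℕ} {r C : ℝ} (h : IFace G P r C) (hr2 : 2 * C ≤ r) (ms : List ℕ)
    (hms : ∀ m ∈ ms, m ∈ P ∧ ¬ Nat.Coprime m (Fintype.card G)) (h4 : 4 ≤ ms.length) (K₀ K : ℝ)
    (hK₀ : 0 ≤ K₀)
    (hK : K₀ * (2 * C) ^ ms.length ≤ K)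
    (hbad : (((O0set G ms).filter fun t => ¬ O0gen t).card : ℝ) ≤ K₀ * r ^ (4 * ms.length - 7)) :
    0 < (O0set G ms).card ∧
      (((O0set G ms).filter fun t => ¬ O0gen t).card : ℝ) * r ≤
        K * ((O0set G ms).card : ℝ) := by
  have hC := h.one_le_C
  have hr := h.one_le_r
  obtain ⟨B, -, -, -, -, -, -, hB⟩ := cntA_lower h hr2
  have hlow := hB ms hms h4 1
  have hT : (cntA G ms 1 : ℝ) = ((O0set G ms).card : ℝ) := rfl
  rw [hT] at hlow
  have hpos : (0 : ℝ) < ((O0set G ms).card : ℝ) := by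
    have e1 : (0 : ℝ) < r ^ (4 * ms.length - 6) := by positivity
    have e2 := lt_of_lt_of_le e1 hlow
    exact (pos_iff_pos_of_mul_pos e2).1 (by positivity)
  refine ⟨by exact_mod_cast hpos, ?_⟩
  have e1 : (((O0set G ms).filter fun t => ¬ O0gen t).card : ℝ) * r ≤ K₀ * r ^ (4 * ms.length - 6) := by
    have e2 := mul_le_mul_of_nonneg_right hbad (by linarith : 0 ≤ r)
    have e3 : K₀ * r ^ (4 * ms.length - 7) * r = K₀ * r ^ (4 * ms.length - 6) := by
      rw [mul_assoc, ← pow_succ]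
      congr 2
      omega
    linarith
  have e2 := mul_le_mul_of_nonneg_left hlow hK₀
  have e3 := mul_le_mul_of_nonneg_right hK hpos.le
  calc _ ≤ K₀ * r ^ (4 * ms.length - 6) := e1
    _ ≤ K₀ * ((2 * C) ^ ms.length * ((O0set G ms).card : ℝ)) := e2
    _ = K₀ * (2 * C) ^ ms.length * ((O0set G ms).card : ℝ) := by ring
    _ ≤ _ := e3

end aux_o0

open scoped Classical in
theorem o0_pos (C : ℝ) (ms : List ℕ) : ∃ K : ℝ, 0 < K ∧
    ∀ (G : Type) [Group G] [Fintype G] [DecidableEq G] (P : Finset ℕ) (r : ℝ),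
      IFace G P r C → 2 * C ≤ r → (∀ m ∈ ms, m ∈ P ∧ ¬ Nat.Coprime m (Fintype.card G)) →
      (5 ≤ ms.length ∨ (ms.length = 4 ∧ ∃ n ∈ ms, Odd n)) →
      0 < (O0set G ms).card ∧
      (((O0set G ms).filter fun t => ¬ O0gen t).card : ℝ) * r ≤
        K * ((O0set G ms).card : ℝ) := by
  by_cases hC : 1 ≤ C
  · set K₁ : ℝ := 2 * C ^ 2 * (2 * C) ^ (ms.length - 3) + (2 * C) ^ 3 * C ^ (ms.length - 3 - 1) with hK₁
    set K₂ : ℝ := 12 * C ^ 3 + C ^ 2 with hK₂
    have hK₁0 : 0 ≤ K₁ := by positivity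
    have hK₂0 : 0 < K₂ := by positivity
    have hpw : (0 : ℝ) < (2 * C) ^ ms.length := by positivity
    refine ⟨(K₁ + K₂) * (2 * C) ^ ms.length, by positivity, ?_⟩
    intro G _ _ _ P r h hr2 hms hcase
    rcases hcase with h5 | ⟨h4, n, hn, hodd⟩
    · apply aux_o0_fin h hr2 ms hms (by omega) K₁ _ hK₁0
      · exact mul_le_mul_of_nonneg_right (by linarith) hpw.le
      · match ms, hms, h5 with
        | m₁ :: m₂ :: m₃ :: B, hms, h5 =>
          have := aux_o0_caseA h m₁ m₂ m₃ B (fun m hm => (hms m hm).1) (by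
            simp only [List.length_cons] at h5
            omega)
          have a1 : 4 * (m₁ :: m₂ :: m₃ :: B).length - 7 = 4 * B.length + 5 := by
            simp only [List.length_cons]
            omega
          have a2 : (m₁ :: m₂ :: m₃ :: B).length - 3 = B.length := by
            simp only [List.length_cons]
            omega
          rw [a1, hK₁, a2]
          exact this
    · apply aux_o0_fin h hr2 ms hms (by omega) K₂ _ hK₂0.le
      · exact mul_le_mul_of_nonneg_right (by linarith) hpw.le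
      · match ms, hms, h4, hn with
        | [m₁, m₂, m₃, m₄], hms, h4, hn =>
          have g1 : m₁ ∈ P := (hms _ (by simp)).1
          have g2 : m₂ ∈ P := (hms _ (by simp)).1
          have g3 : m₃ ∈ P := (hms _ (by simp)).1
          have g4 : m₄ ∈ P := (hms _ (by simp)).1
          simp only [List.mem_cons, List.not_mem_nil, or_false] at hn
          have hor : (Odd m₁ ∨ Odd m₂) ∨ (Odd m₃ ∨ Odd m₄) := by
            rcases hn with rfl | rfl | rfl | rfl <;> tauto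
          rcases hor with ho | ho
          · exact (aux_o0_bad_le (G := G) [m₁, m₂] [m₃, m₄]).trans (aux_o0_caseB h m₁ m₂ m₃ m₄ g1 g2 g3 g4 ho)
          · exact (aux_o0_bad_le' (G := G) [m₁, m₂] [m₃, m₄]).trans (aux_o0_caseB h m₃ m₄ m₁ m₂ g3 g4 g1 g2 ho)
  · refine ⟨1, one_pos, ?_⟩
    intro G _ _ _ P r h
    exact absurd h.one_le_C hC

end Pool.Agent.Helper669_gp.J04
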