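import Mathlib
import Pool.Agent.Helper669_gp.J01
import Pool.Agent.Helper669_gp.J02

namespace Pool.Agent.Helper669_gp.J05

open Pool.Agent.Helper669_gp.J01 Pool.Agent.Helper669_gp.J02

open Finset

def o1cm {G : Type} [Group G] (p : G × G) : G := p.1 * p.2 * p.1⁻¹ * p.2⁻¹

theorem o1_fiber {G : Type} [Group G] [Fintype G] [DecidableEq G] (ms : List ℕ)
    (Q : G × G → Prop) [DecidablePred Q] :
    ((O1set G ms).filter (fun t => Q t.2)).card =
      ∑ p ∈ (univ : Finset (G × G)).filter Q, cntA G ms ((o1cm p)⁻¹) := by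
  classical
  rw [Finset.card_eq_sum_card_fiberwise (f := Prod.snd) (t := (univ : Finset (G × G)).filter Q)]
  · apply Finset.sum_congr rfl
    intro p hp
    have hQ : Q p := (Finset.mem_filter.1 hp).2
    unfold cntA
    rw [← Finset.card_map ⟨fun l : List G => (l, p), fun a b h => (Prod.ext_iff.1 h).1⟩]
    congr 1
    ext t
    simp only [Finset.mem_filter, O1set, Finset.mem_product, Finset.mem_univ, and_true,
      Finset.mem_map, Function.Embedding.coeFn_mk]
    constructor
    · rintro ⟨⟨⟨h1, h2⟩, _⟩, rfl⟩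
      refine ⟨t.1, ⟨h1, ?_⟩, rfl⟩
      exact eq_inv_of_mul_eq_one_left h2
    · rintro ⟨l, ⟨h1, h2⟩, rfl⟩
      refine ⟨⟨⟨h1, ?_⟩, hQ⟩, rfl⟩
      simp only [h2]
      exact inv_mul_cancel _
  · intro t ht
    simp only [Finset.coe_filter, Set.mem_ofPred_eq] at ht ⊢
    exact ⟨Finset.mem_univ _, ht.2⟩

theorem o1_one_mem_tor {G : Type} [Group G] [Fintype G] [DecidableEq G] (m : ℕ) :
    (1 : G) ∈ tor G m := by
  simp [tor]

theorem o1_triv {G : Type} [Group G] [Fintype G] [DecidableEq G] (ms : List ℕ) :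
    List.replicate ms.length (1 : G) ∈ XS G ms := by
  induction ms with
  | nil => simp [XS]
  | cons m ms ih =>
    simp only [XS, List.length_cons, List.replicate_succ]
    exact Finset.mem_image₂_of_mem (o1_one_mem_tor m) ih

theorem o1_card_pos {G : Type} [Group G] [Fintype G] [DecidableEq G] (ms : List ℕ) :
    0 < (O1set G ms).card := by
  rw [Finset.card_pos]
  refine ⟨(List.replicate ms.length 1, 1, 1), ?_⟩
  simp [O1set, o1_triv]

open scoped Classical in
theorem o1_comm_le {G : Type} [Group G] [Fintype G] [DecidableEq G] {P : Finset ℕ} {r C : ℝ}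
    (h : IFace G P r C) :
    (((univ : Finset (G × G)).filter fun p => o1cm p = 1).card : ℝ) ≤ 2 * C ^ 2 * r ^ 8 := by
  have hr := h.one_le_r
  have hC := h.one_le_C
  have h1 : ((univ : Finset (G × G)).filter fun p => o1cm p = 1).card =
      ∑ a : G, ((univ : Finset G).filter fun b => b * a * b⁻¹ = a).card := by
    rw [Finset.card_eq_sum_card_fiberwise (f := Prod.fst) (t := (univ : Finset G))]
    · apply Finset.sum_congr rfl
      intro a _
      rw [← Finset.card_map ⟨fun b : G => (a, b), fun x y h => (Prod.ext_iff.1 h).2⟩]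
      congr 1
      ext t
      simp only [Finset.mem_filter, Finset.mem_univ, true_and, Finset.mem_map,
        Function.Embedding.coeFn_mk, o1cm]
      constructor
      · rintro ⟨h1, rfl⟩
        refine ⟨t.2, ?_, rfl⟩
        have h2 : t.1 * t.2 * t.1⁻¹ = t.2 := by
          have := eq_inv_of_mul_eq_one_left h1
          simpa using this
        have h3 : t.1 * t.2 = t.2 * t.1 := by
          rw [mul_inv_eq_iff_eq_mul] at h2; exact h2
        rw [← h3]; group
      · rintro ⟨b, h1, rfl⟩
        refine ⟨?_, rfl⟩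
        simp only
        have h3 : b * a = a * b := by
          rw [mul_inv_eq_iff_eq_mul] at h1; exact h1
        rw [← h3]; group
    · intro _ _; simp
  rw [h1]
  push_cast
  have h2 : ∀ a : G, (((univ : Finset G).filter fun b => b * a * b⁻¹ = a).card : ℝ) ≤
      C * r ^ 2 + (if a = 1 then C * r ^ 6 else 0) := by
    intro a
    by_cases ha : a = 1
    · rw [if_pos ha]
      have h3 : (((univ : Finset G).filter fun b => b * a * b⁻¹ = a).card : ℝ) ≤
          (Fintype.card G : ℝ) := by
        exact_mod_cast Finset.card_le_univ _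
      have h4 := h.card_le
      have h5 : 0 ≤ C * r ^ 2 := by positivity
      linarith
    · rw [if_neg ha, add_zero]
      exact h.conj_le a a ha
  refine (Finset.sum_le_sum (fun a _ => h2 a)).trans ?_
  rw [Finset.sum_add_distrib, Finset.sum_const, Finset.sum_ite_eq' Finset.univ (1 : G)]
  simp only [Finset.card_univ, nsmul_eq_mul, Finset.mem_univ, if_true]
  have h3 : (Fintype.card G : ℝ) * (C * r ^ 2) ≤ (C * r ^ 6) * (C * r ^ 2) :=
    mul_le_mul_of_nonneg_right h.card_le (by positivity)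
  have h4 : C * r ^ 6 ≤ C ^ 2 * r ^ 8 := by
    have h5 : C * 1 ≤ C * C := mul_le_mul_of_nonneg_left hC (by positivity)
    have h6 : r ^ 6 ≤ r ^ 8 := pow_le_pow_right₀ hr (by norm_num)
    calc C * r ^ 6 = (C * 1) * r ^ 6 := by ring
      _ ≤ (C * C) * r ^ 8 := mul_le_mul h5 h6 (by positivity) (by positivity)
      _ = C ^ 2 * r ^ 8 := by ring
  have h5 : (C * r ^ 6) * (C * r ^ 2) = C ^ 2 * r ^ 8 := by ring
  linarith

open scoped Classical in
theorem o1_lower {G : Type} [Group G] [Fintype G] [DecidableEq G] {P : Finset ℕ} {r C : ℝ}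
    (h : IFace G P r C) (hr2 : 2 * C ≤ r) (hr3 : 2 * C ^ 3 ≤ r ^ 2) (ms : List ℕ)
    (hms : ∀ m ∈ ms, m ∈ P ∧ ¬ Nat.Coprime m (Fintype.card G)) (hk : 2 ≤ ms.length) :
    r ^ (4 * ms.length + 6) ≤ 2 * C ^ 2 * (2 * C) ^ ms.length * ((O1set G ms).card : ℝ) := by
  have hr := h.one_le_r
  have hC := h.one_le_C
  obtain ⟨B, hB1, hBinv, hBc, -, -, hlow, -⟩ := cntA_lower h hr2
  have htot : (O1set G ms).card = ∑ p ∈ (univ : Finset (G × G)).filter (fun _ => True),
      cntA G ms ((o1cm p)⁻¹) := by
    rw [← o1_fiber]; simp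
  have hge : ∑ p ∈ (univ : Finset (G × G)).filter (fun p => o1cm p ∉ B),
      cntA G ms ((o1cm p)⁻¹) ≤ (O1set G ms).card := by
    rw [htot]
    apply Finset.sum_le_sum_of_subset_of_nonneg
    · intro p hp
      simp
    · intros; exact Nat.zero_le _
  have hge' : ∑ p ∈ (univ : Finset (G × G)).filter (fun p => o1cm p ∉ B),
      (cntA G ms ((o1cm p)⁻¹) : ℝ) ≤ ((O1set G ms).card : ℝ) := by exact_mod_cast hge
  have hterm : ∀ p ∈ (univ : Finset (G × G)).filter (fun p => o1cm p ∉ B),
      r ^ (4 * ms.length - 6) ≤ (2 * C) ^ ms.length * (cntA G ms ((o1cm p)⁻¹) : ℝ) := by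
    intro p hp
    apply hlow ms hms hk
    intro hcon
    have := hBinv _ hcon
    rw [inv_inv] at this
    exact (Finset.mem_filter.1 hp).2 this
  have hsum := Finset.sum_le_sum hterm
  rw [Finset.sum_const, nsmul_eq_mul, ← Finset.mul_sum] at hsum

  have hnum : ((((univ : Finset (G × G)).filter (fun p => o1cm p ∉ B)).card : ℕ) : ℝ) =
      (Fintype.card G : ℝ) ^ 2 -
        (((univ : Finset (G × G)).filter (fun p => o1cm p ∈ B)).card : ℝ) := by
    have h1 := Finset.card_filter_add_card_filter_not (s := (univ : Finset (G × G)))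
      (fun p => o1cm p ∈ B)
    rw [Finset.card_univ, Fintype.card_prod] at h1
    have h2 : ((((univ : Finset (G × G)).filter (fun p => o1cm p ∈ B)).card : ℕ) : ℝ) +
      (((univ : Finset (G × G)).filter (fun p => o1cm p ∉ B)).card : ℝ) =
      (Fintype.card G : ℝ) * (Fintype.card G : ℝ) := by exact_mod_cast h1
    rw [pow_two]; linarith
  have hG0 : (0 : ℝ) ≤ Fintype.card G := by positivity
  have hBc' : (((univ : Finset (G × G)).filter (fun p => o1cm p ∈ B)).card : ℝ) ≤ C * r ^ 10 :=
    hBc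
  have hnum2 : r ^ 12 ≤ 2 * C ^ 2 *
      ((((univ : Finset (G × G)).filter (fun p => o1cm p ∉ B)).card : ℕ) : ℝ) := by
    rw [hnum]
    have h1 : (r ^ 6) ^ 2 ≤ (C * (Fintype.card G : ℝ)) ^ 2 :=
      pow_le_pow_left₀ (by positivity) h.le_card 2
    have h2 : 2 * C ^ 3 * r ^ 10 ≤ r ^ 2 * r ^ 10 :=
      mul_le_mul_of_nonneg_right hr3 (by positivity)
    have h3 : 2 * C ^ 2 * (((univ : Finset (G × G)).filter (fun p => o1cm p ∈ B)).card : ℝ) ≤
        2 * C ^ 2 * (C * r ^ 10) := mul_le_mul_of_nonneg_left hBc' (by positivity)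
    nlinarith
  have hexp : 4 * ms.length + 6 = 12 + (4 * ms.length - 6) := by omega
  rw [hexp, pow_add]
  calc r ^ 12 * r ^ (4 * ms.length - 6)
      ≤ (2 * C ^ 2 * ((((univ : Finset (G × G)).filter (fun p => o1cm p ∉ B)).card : ℕ) : ℝ))
          * r ^ (4 * ms.length - 6) :=
        mul_le_mul_of_nonneg_right hnum2 (by positivity)
    _ = 2 * C ^ 2 * (((((univ : Finset (G × G)).filter (fun p => o1cm p ∉ B)).card : ℕ) : ℝ)
          * r ^ (4 * ms.length - 6)) := by ring
    _ ≤ 2 * C ^ 2 * ((2 * C) ^ ms.length *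
          ∑ p ∈ (univ : Finset (G × G)).filter (fun p => o1cm p ∉ B),
            (cntA G ms ((o1cm p)⁻¹) : ℝ)) :=
        mul_le_mul_of_nonneg_left hsum (by positivity)
    _ ≤ 2 * C ^ 2 * ((2 * C) ^ ms.length * ((O1set G ms).card : ℝ)) := by
        apply mul_le_mul_of_nonneg_left _ (by positivity)
        exact mul_le_mul_of_nonneg_left hge' (by positivity)
    _ = _ := by ring

open scoped Classical in
theorem o1_bad {G : Type} [Group G] [Fintype G] [DecidableEq G] {P : Finset ℕ} {r C : ℝ}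
    (h : IFace G P r C) (ms : List ℕ)
    (hms : ∀ m ∈ ms, m ∈ P) (hk : 2 ≤ ms.length) :
    (((O1set G ms).filter fun t => ¬ O1gen t).card : ℝ) ≤
      (C * (2 * C) ^ ms.length + 2 * C ^ 2 * C ^ (ms.length - 1)) * r ^ (4 * ms.length + 5) := by
  have hr := h.one_le_r
  have hC := h.one_le_C
  obtain ⟨-, hup1, hup2⟩ := cntA_upper h ms hms
  have h1 : (((O1set G ms).filter fun t => ¬ O1gen t).card : ℝ) ≤
      (((O1set G ms).filter fun t => Subgroup.closure {t.2.1, t.2.2} ≠ ⊤).card : ℝ) := by
    norm_cast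
    apply Finset.card_le_card
    intro t ht
    rw [Finset.mem_filter] at ht ⊢
    refine ⟨ht.1, fun hcon => ht.2 ?_⟩
    unfold O1gen
    rw [eq_top_iff, ← hcon]
    apply Subgroup.closure_mono
    exact Set.subset_union_right
  refine h1.trans ?_
  have h2 := o1_fiber (G := G) ms (fun p : G × G => Subgroup.closure {p.1, p.2} ≠ ⊤)
  rw [h2]
  push_cast

  rw [← Finset.sum_filter_add_sum_filter_not _ (fun p : G × G => o1cm p = 1)]
  have hA : ∑ p ∈ ((univ : Finset (G × G)).filter
      (fun p : G × G => Subgroup.closure {p.1, p.2} ≠ ⊤)).filter (fun p => o1cm p = 1),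
      (cntA G ms ((o1cm p)⁻¹) : ℝ) ≤
      2 * C ^ 2 * C ^ (ms.length - 1) * r ^ (4 * ms.length + 5) := by
    have hne : ms ≠ [] := by
      rintro rfl; simp at hk
    have h3 : ∑ p ∈ ((univ : Finset (G × G)).filter
        (fun p : G × G => Subgroup.closure {p.1, p.2} ≠ ⊤)).filter (fun p => o1cm p = 1),
        (cntA G ms ((o1cm p)⁻¹) : ℝ) ≤
        ∑ p ∈ ((univ : Finset (G × G)).filter
        (fun p : G × G => Subgroup.closure {p.1, p.2} ≠ ⊤)).filter (fun p => o1cm p = 1),
        (C ^ (ms.length - 1) * r ^ (4 * (ms.length - 1))) :=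
      Finset.sum_le_sum (fun p _ => hup1 _ hne)
    refine h3.trans ?_
    rw [Finset.sum_const, nsmul_eq_mul]
    have h4 : ((((univ : Finset (G × G)).filter
        (fun p : G × G => Subgroup.closure {p.1, p.2} ≠ ⊤)).filter
        (fun p => o1cm p = 1)).card : ℝ) ≤ 2 * C ^ 2 * r ^ 8 := by
      refine le_trans ?_ (o1_comm_le h)
      norm_cast
      apply Finset.card_le_card
      intro p hp
      rw [Finset.mem_filter] at hp ⊢
      exact ⟨Finset.mem_univ _, hp.2⟩
    calc _ ≤ (2 * C ^ 2 * r ^ 8) * (C ^ (ms.length - 1) * r ^ (4 * (ms.length - 1))) :=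
          mul_le_mul_of_nonneg_right h4 (by positivity)
      _ = 2 * C ^ 2 * C ^ (ms.length - 1) * r ^ (8 + 4 * (ms.length - 1)) := by
          rw [pow_add]; ring
      _ ≤ _ := by
          apply mul_le_mul_of_nonneg_left _ (by positivity)
          apply pow_le_pow_right₀ hr
          omega
  have hB : ∑ p ∈ ((univ : Finset (G × G)).filter
      (fun p : G × G => Subgroup.closure {p.1, p.2} ≠ ⊤)).filter (fun p => ¬ o1cm p = 1),
      (cntA G ms ((o1cm p)⁻¹) : ℝ) ≤
      C * (2 * C) ^ ms.length * r ^ (4 * ms.length + 5) := by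
    have h3 : ∑ p ∈ ((univ : Finset (G × G)).filter
        (fun p : G × G => Subgroup.closure {p.1, p.2} ≠ ⊤)).filter (fun p => ¬ o1cm p = 1),
        (cntA G ms ((o1cm p)⁻¹) : ℝ) ≤
        ∑ p ∈ ((univ : Finset (G × G)).filter
        (fun p : G × G => Subgroup.closure {p.1, p.2} ≠ ⊤)).filter (fun p => ¬ o1cm p = 1),
        ((2 * C) ^ ms.length * r ^ (4 * ms.length - 6)) := by
      apply Finset.sum_le_sum
      intro p hp
      apply hup2
      rcases Nat.lt_or_ge 2 ms.length with h4 | h4
      · left; omega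
      · right
        refine ⟨by omega, ?_⟩
        rw [Ne, inv_eq_one]
        exact (Finset.mem_filter.1 hp).2
    refine h3.trans ?_
    rw [Finset.sum_const, nsmul_eq_mul]
    have h4 : ((((univ : Finset (G × G)).filter
        (fun p : G × G => Subgroup.closure {p.1, p.2} ≠ ⊤)).filter
        (fun p => ¬ o1cm p = 1)).card : ℝ) ≤ C * r ^ 11 := by
      refine le_trans ?_ h.gen0
      norm_cast
      apply Finset.card_le_card
      intro p hp
      exact (Finset.mem_filter.1 hp).1
    calc _ ≤ (C * r ^ 11) * ((2 * C) ^ ms.length * r ^ (4 * ms.length - 6)) :=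
          mul_le_mul_of_nonneg_right h4 (by positivity)
      _ = C * (2 * C) ^ ms.length * r ^ (11 + (4 * ms.length - 6)) := by
          rw [pow_add]; ring
      _ ≤ _ := by
          apply mul_le_mul_of_nonneg_left _ (by positivity)
          apply pow_le_pow_right₀ hr
          omega
  have := add_le_add hA hB
  refine this.trans (le_of_eq ?_)
  ring

open scoped Classical in
theorem o1_pos (C : ℝ) (ms : List ℕ) : ∃ K : ℝ, 0 < K ∧
    ∀ (G : Type) [Group G] [Fintype G] [DecidableEq G] (P : Finset ℕ) (r : ℝ),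
      IFace G P r C → 2 * C ≤ r → (∀ m ∈ ms, m ∈ P ∧ ¬ Nat.Coprime m (Fintype.card G)) →
      (2 ≤ ms.length) →
      0 < (O1set G ms).card ∧
      (((O1set G ms).filter fun t => ¬ O1gen t).card : ℝ) * r ≤
        K * ((O1set G ms).card : ℝ) := by
  by_cases hC : 1 ≤ C
  · refine ⟨2 * C ^ 3 + (C * (2 * C) ^ ms.length + 2 * C ^ 2 * C ^ (ms.length - 1)) *
      (2 * C ^ 2 * (2 * C) ^ ms.length), by positivity, ?_⟩
    intro G _ _ _ P r h hr2 hms hk
    have hpos := o1_card_pos (G := G) ms
    refine ⟨hpos, ?_⟩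
    have hr := h.one_le_r
    have htot0 : (0 : ℝ) < ((O1set G ms).card : ℝ) := by exact_mod_cast hpos
    by_cases hr3 : 2 * C ^ 3 ≤ r ^ 2
    · have h1 := o1_bad h ms (fun m hm => (hms m hm).1) hk
      have h2 := o1_lower h hr2 hr3 ms hms hk
      calc (((O1set G ms).filter fun t => ¬ O1gen t).card : ℝ) * r
          ≤ ((C * (2 * C) ^ ms.length + 2 * C ^ 2 * C ^ (ms.length - 1)) *
            r ^ (4 * ms.length + 5)) * r := mul_le_mul_of_nonneg_right h1 (by positivity)
        _ = (C * (2 * C) ^ ms.length + 2 * C ^ 2 * C ^ (ms.length - 1)) *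
            r ^ (4 * ms.length + 6) := by rw [pow_succ r (4 * ms.length + 5)]; ring
        _ ≤ (C * (2 * C) ^ ms.length + 2 * C ^ 2 * C ^ (ms.length - 1)) *
            (2 * C ^ 2 * (2 * C) ^ ms.length * ((O1set G ms).card : ℝ)) :=
            mul_le_mul_of_nonneg_left h2 (by positivity)
        _ ≤ _ := by
            have h3 : 0 ≤ 2 * C ^ 3 * ((O1set G ms).card : ℝ) := by positivity
            rw [add_mul]
            linarith
    · push Not at hr3
      have h1 : (((O1set G ms).filter fun t => ¬ O1gen t).card : ℝ) ≤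
          ((O1set G ms).card : ℝ) := by
        exact_mod_cast Finset.card_filter_le _ _
      have h2 : r ≤ 2 * C ^ 3 := by nlinarith
      calc (((O1set G ms).filter fun t => ¬ O1gen t).card : ℝ) * r
          ≤ ((O1set G ms).card : ℝ) * (2 * C ^ 3) :=
            mul_le_mul h1 h2 (by positivity) (by positivity)
        _ ≤ _ := by
            rw [mul_comm]
            apply mul_le_mul_of_nonneg_right _ htot0.le
            have : 0 ≤ (C * (2 * C) ^ ms.length + 2 * C ^ 2 * C ^ (ms.length - 1)) *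
              (2 * C ^ 2 * (2 * C) ^ ms.length) := by positivity
            linarith
  · refine ⟨1, one_pos, ?_⟩
    intro G _ _ _ P r h
    exact absurd h.one_le_C hC

end Pool.Agent.Helper669_gp.J05
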