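import Mathlib
import Pool.Agent.Helper669_gp.J01
import Pool.Agent.Helper669_gp.J02

namespace Pool.Agent.Helper669_gp.J06

open Pool.Agent.Helper669_gp.J01 Pool.Agent.Helper669_gp.J02

open Finset

theorem card_N1aux (G : Type) [Group G] [Fintype G] [DecidableEq G] (ms : List ℕ) :
    (N1set G ms).card = ∑ a : G, cntA G ms (a ^ 2)⁻¹ := by
  unfold N1set cntA
  rw [Finset.card_filter, Finset.sum_product_right]
  refine Finset.sum_congr rfl fun a _ => ?_
  rw [Finset.card_filter]
  refine Finset.sum_congr rfl fun l _ => ?_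
  simp only [mul_eq_one_iff_eq_inv]

theorem N1_loweraux {G : Type} [Group G] [Fintype G] [DecidableEq G] {P : Finset ℕ} {r C : ℝ}
    (h : IFace G P r C) (hr : 2 * C ≤ r) (ms : List ℕ)
    (hms : ∀ m ∈ ms, m ∈ P ∧ ¬ Nat.Coprime m (Fintype.card G)) (hk : 2 ≤ ms.length) :
    r ^ (4 * ms.length) ≤ (2 * C) ^ (ms.length + 1) * ((N1set G ms).card : ℝ) := by
  classical
  have hC := h.one_le_C
  have hr1 := h.one_le_r
  obtain ⟨B, -, hinv, -, hsq, -, hlow, -⟩ := cntA_lower h hr
  have hlow' := hlow ms hms hk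
  set S : Finset G := univ.filter fun a : G => a ^ 2 ∉ B with hS
  have hScard : ((S.card : ℕ) : ℝ) = (Fintype.card G : ℝ) -
      (((univ : Finset G).filter fun a => a ^ 2 ∈ B).card : ℝ) := by
    have h1 := Finset.card_filter_add_card_filter_not (s := (univ : Finset G))
      (fun a : G => a ^ 2 ∈ B)
    have h2 : ((((univ : Finset G).filter fun a => a ^ 2 ∈ B).card : ℕ) : ℝ) + (S.card : ℝ)
        = (Fintype.card G : ℝ) := by
      rw [hS]
      exact_mod_cast h1
    linarith
  have hS6 : r ^ 6 ≤ 2 * C * (S.card : ℝ) := by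
    have h1 := h.le_card
    have h2 : 4 * C ^ 2 ≤ r ^ 2 := by nlinarith
    have h3 : 2 * C * (C * r ^ 4) ≤ r ^ 6 := by
      have h4 : 0 ≤ r ^ 4 := by positivity
      have h5 : (2 * C ^ 2) * r ^ 4 ≤ r ^ 2 * r ^ 4 :=
        mul_le_mul_of_nonneg_right (by nlinarith) h4
      calc 2 * C * (C * r ^ 4) = (2 * C ^ 2) * r ^ 4 := by ring
        _ ≤ r ^ 2 * r ^ 4 := h5
        _ = r ^ 6 := by ring
    have h6 : 2 * C * (((univ : Finset G).filter fun a => a ^ 2 ∈ B).card : ℝ) ≤
        2 * C * (C * r ^ 4) := by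
      apply mul_le_mul_of_nonneg_left _ (by linarith)
      convert hsq
    rw [hScard, mul_sub]
    linarith
  have hsum : (S.card : ℝ) * r ^ (4 * ms.length - 6) ≤
      (2 * C) ^ ms.length * ((N1set G ms).card : ℝ) := by
    rw [card_N1aux, Nat.cast_sum, Finset.mul_sum]
    have h1 : ∑ a ∈ S, (2 * C) ^ ms.length * (cntA G ms (a ^ 2)⁻¹ : ℝ) ≤
        ∑ a : G, (2 * C) ^ ms.length * (cntA G ms (a ^ 2)⁻¹ : ℝ) := by
      apply Finset.sum_le_sum_of_subset_of_nonneg (Finset.subset_univ _)
      intro a _ _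
      positivity
    refine le_trans ?_ h1
    rw [← nsmul_eq_mul]
    apply Finset.card_nsmul_le_sum
    intro a ha
    apply hlow'
    intro hmem
    have h2 := hinv _ hmem
    rw [inv_inv] at h2
    exact (Finset.mem_filter.1 ha).2 h2
  have h7 : 4 * ms.length = 6 + (4 * ms.length - 6) := by omega
  calc r ^ (4 * ms.length) = r ^ 6 * r ^ (4 * ms.length - 6) := by
        rw [← pow_add, ← h7]
    _ ≤ (2 * C * (S.card : ℝ)) * r ^ (4 * ms.length - 6) :=
        mul_le_mul_of_nonneg_right hS6 (by positivity)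
    _ = 2 * C * ((S.card : ℝ) * r ^ (4 * ms.length - 6)) := by ring
    _ ≤ 2 * C * ((2 * C) ^ ms.length * ((N1set G ms).card : ℝ)) :=
        mul_le_mul_of_nonneg_left hsum (by linarith)
    _ = _ := by ring

theorem card_le_fiberaux {α β : Type} [DecidableEq β] (s : Finset α) (t : Finset β) (f : α → β)
    (hf : ∀ a ∈ s, f a ∈ t) (c : ℝ)
    (hc : ∀ b ∈ t, ((s.filter fun a => f a = b).card : ℝ) ≤ c) :
    (s.card : ℝ) ≤ t.card * c := by
  have h1 := Finset.card_eq_sum_card_fiberwise (s := s) (t := t) (f := f) hf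
  rw [h1, Nat.cast_sum, ← nsmul_eq_mul]
  exact Finset.sum_le_card_nsmul _ _ _ hc

open scoped Classical in
theorem triples_aux {G : Type} [Group G] [Fintype G] [DecidableEq G] {P : Finset ℕ} {r C : ℝ}
    (h : IFace G P r C) {m₁ m₂ m₃ : ℕ} (h1 : m₁ ∈ P) (h2 : m₂ ∈ P) (h3 : m₃ ∈ P) :
    (((tor G m₁ ×ˢ (tor G m₂ ×ˢ tor G m₃)).filter fun t =>
      Subgroup.closure {t.1, t.2.1 * t.2.2} ≠ ⊤).card : ℝ) ≤ 2 * C ^ 2 * r ^ 11 := by
  have hC := h.one_le_C
  have hr1 := h.one_le_r
  set T := ((tor G m₁ ×ˢ (tor G m₂ ×ˢ tor G m₃)).filter fun t =>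
      Subgroup.closure {t.1, t.2.1 * t.2.2} ≠ ⊤) with hT
  have hsplit := Finset.card_filter_add_card_filter_not (s := T) (fun t => t.2.1 * t.2.2 = 1)
  have hA : ((T.filter fun t => t.2.1 * t.2.2 = 1).card : ℝ) ≤ C ^ 2 * r ^ 11 := by
    have e1 : (T.filter fun t => t.2.1 * t.2.2 = 1).card ≤ (tor G m₁ ×ˢ tor G m₂).card := by
      apply Finset.card_le_card_of_injOn (fun t => (t.1, t.2.1))
      · intro t ht
        simp only [hT, Finset.coe_filter, Finset.mem_filter, Finset.mem_product, Set.mem_ofPred_eq]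
          at ht
        simp only [Finset.coe_product, Set.mem_prod, Finset.mem_coe]
        exact ⟨ht.1.1.1, ht.1.1.2.1⟩
      · rintro ⟨a, b, c⟩ ht ⟨a', b', c'⟩ ht' heq
        simp only [Finset.coe_filter, Finset.mem_filter, Set.mem_ofPred_eq] at ht ht'
        simp only [Prod.mk.injEq] at heq
        obtain ⟨rfl, rfl⟩ := heq
        have e2 := ht.2
        have e3 := ht'.2
        have : c = c' := by
          have := e2.trans e3.symm
          exact mul_left_cancel this
        rw [this]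
    have e2 : ((tor G m₁ ×ˢ tor G m₂).card : ℝ) ≤ (C * r ^ 4) * (C * r ^ 4) := by
      rw [Finset.card_product, Nat.cast_mul]
      exact mul_le_mul (h.tor_le _ h1) (h.tor_le _ h2) (Nat.cast_nonneg _) (by positivity)
    have e3 : (r : ℝ) ^ 8 ≤ r ^ 11 := pow_le_pow_right₀ hr1 (by norm_num)
    calc ((T.filter fun t => t.2.1 * t.2.2 = 1).card : ℝ) ≤ ((tor G m₁ ×ˢ tor G m₂).card : ℝ) := by
          exact_mod_cast e1
      _ ≤ (C * r ^ 4) * (C * r ^ 4) := e2
      _ = C ^ 2 * r ^ 8 := by ring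
      _ ≤ C ^ 2 * r ^ 11 := mul_le_mul_of_nonneg_left e3 (by positivity)
  have hB : ((T.filter fun t => ¬ t.2.1 * t.2.2 = 1).card : ℝ) ≤ C ^ 2 * r ^ 11 := by
    have e1 := card_le_fiberaux (T.filter fun t => ¬ t.2.1 * t.2.2 = 1)
      ((tor G m₁ ×ˢ (univ : Finset G)).filter fun t => Subgroup.closure {t.1, t.2} ≠ ⊤)
      (fun t => (t.1, t.2.1 * t.2.2)) (by
        intro t ht
        simp only [hT, Finset.mem_filter, Finset.mem_product] at ht
        simp only [Finset.mem_filter, Finset.mem_product, Finset.mem_univ, and_true]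
        exact ⟨ht.1.1.1, ht.1.2⟩) (C * r ^ 2) (by
        rintro ⟨x, g⟩ _
        by_cases hg : g = 1
        · have : ((T.filter fun t => ¬ t.2.1 * t.2.2 = 1).filter
              fun t => (t.1, t.2.1 * t.2.2) = (x, g)) = ∅ := by
            rw [Finset.filter_eq_empty_iff]
            intro t ht heq
            simp only [Prod.mk.injEq] at heq
            exact (Finset.mem_filter.1 ht).2 (heq.2.trans hg)
          rw [this]
          simp only [Finset.card_empty, Nat.cast_zero]
          positivity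
        · refine le_trans ?_ (h.two_le m₂ h2 m₃ h3 g hg)
          norm_cast
          apply Finset.card_le_card_of_injOn (fun t => t.2.1)
          · intro t ht
            simp only [hT, Finset.coe_filter, Finset.mem_filter, Finset.mem_product,
              Set.mem_ofPred_eq, Prod.mk.injEq] at ht
            simp only [Finset.coe_filter, Set.mem_ofPred_eq]
            refine ⟨ht.1.1.1.2.1, ?_⟩
            have e2 := ht.2.2
            have e3 : t.2.1⁻¹ * g = t.2.2 := by rw [← e2]; group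
            rw [e3]
            exact ht.1.1.1.2.2
          · rintro ⟨a, b, c⟩ ht ⟨a', b', c'⟩ ht' heq
            simp only [Finset.coe_filter, Finset.mem_filter, Set.mem_ofPred_eq, Prod.mk.injEq]
              at ht ht'
            simp only at heq
            subst heq
            have e2 : a = a' := ht.2.1.trans ht'.2.1.symm
            have e3 : b * c = b * c' := ht.2.2.trans ht'.2.2.symm
            rw [e2, mul_left_cancel e3])
    have e2 := h.gen1 m₁ h1
    calc ((T.filter fun t => ¬ t.2.1 * t.2.2 = 1).card : ℝ) ≤ _ := e1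
      _ ≤ (C * r ^ 9) * (C * r ^ 2) := mul_le_mul_of_nonneg_right e2 (by positivity)
      _ = C ^ 2 * r ^ 11 := by ring
  have hsplit' : (T.card : ℝ) = ((T.filter fun t => t.2.1 * t.2.2 = 1).card : ℝ) +
      ((T.filter fun t => ¬ t.2.1 * t.2.2 = 1).card : ℝ) := by exact_mod_cast hsplit.symm
  rw [hsplit']
  linarith

theorem badsplit_aux {G : Type} [Group G] [Fintype G] [DecidableEq G] {P : Finset ℕ} {r C : ℝ}
    (h : IFace G P r C) (Z : Finset (List G × G)) (L : Finset (List G)) (A : ℝ)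
    (hZ : ∀ t ∈ Z, t.1.prod * t.2 ^ 2 = 1) (hL : ∀ t ∈ Z, t.1.prod ≠ 1 → t.1 ∈ L)
    (hA : ((Z.filter fun t => t.1.prod = 1).card : ℝ) ≤ A) :
    (Z.card : ℝ) ≤ L.card * C + A := by
  have hC := h.one_le_C
  have hsplit := Finset.card_filter_add_card_filter_not (s := Z) (fun t => t.1.prod = 1)
  have hB : ((Z.filter fun t => ¬ t.1.prod = 1).card : ℝ) ≤ L.card * C := by
    apply card_le_fiberaux _ L (fun t => t.1)
    · intro t ht
      rw [Finset.mem_filter] at ht
      exact hL t ht.1 ht.2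
    · intro l _
      by_cases hl : l.prod = 1
      · have : ((Z.filter fun t => ¬ t.1.prod = 1).filter fun t => t.1 = l) = ∅ := by
          rw [Finset.filter_eq_empty_iff]
          intro t ht heq
          exact (Finset.mem_filter.1 ht).2 (by rw [heq]; exact hl)
        rw [this]
        simp only [Finset.card_empty, Nat.cast_zero]
        linarith
      · refine le_trans ?_ (h.sqrt_le (l.prod)⁻¹ (by simpa using hl))
        norm_cast
        apply Finset.card_le_card_of_injOn (fun t => t.2)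
        · intro t ht
          simp only [Finset.coe_filter, Finset.mem_filter, Set.mem_ofPred_eq] at ht
          simp only [Finset.coe_filter, Set.mem_ofPred_eq, Finset.mem_univ, true_and]
          have e1 := hZ t ht.1.1
          rw [ht.2] at e1
          exact (inv_eq_of_mul_eq_one_right e1).symm
        · rintro ⟨a, b⟩ ht ⟨a', b'⟩ ht' heq
          simp only [Finset.coe_filter, Finset.mem_filter, Set.mem_ofPred_eq] at ht ht'
          simp only at heq
          rw [heq, ht.2, ht'.2]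
  have hsplit' : (Z.card : ℝ) = ((Z.filter fun t => t.1.prod = 1).card : ℝ) +
      ((Z.filter fun t => ¬ t.1.prod = 1).card : ℝ) := by exact_mod_cast hsplit.symm
  rw [hsplit']
  linarith

theorem mem_XS_consaux (G : Type) [Group G] [Fintype G] [DecidableEq G] (m : ℕ) (ms : List ℕ)
    (l : List G) : l ∈ XS G (m :: ms) ↔ ∃ x ∈ tor G m, ∃ l' ∈ XS G ms, x :: l' = l := by
  rw [XS, Finset.mem_image₂]

theorem odd_oneaux {G : Type} [Group G] {m : ℕ} (hm : Odd m) {x : G} (h1 : x ^ m = 1)
    (h2 : x ^ 2 = 1) : x = 1 := by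
  obtain ⟨k, rfl⟩ := hm
  rw [pow_succ, pow_mul, h2, one_pow, one_mul] at h1
  exact h1

open scoped Classical in

theorem pairs1_aux {G : Type} [Group G] [Fintype G] [DecidableEq G] {P : Finset ℕ} {r C : ℝ}
    (h : IFace G P r C) {m n : ℕ} (hm : m ∈ P) (hn : n ∈ P) (ho : Odd m ∨ Odd n) :
    (((tor G m ×ˢ tor G n).filter fun t =>
      Subgroup.closure {t.1, t.2} ≠ ⊤).card : ℝ) ≤ C * r ^ 7 + C * r ^ 4 := by
  set D := ((tor G m ×ˢ tor G n).filter fun t => Subgroup.closure {t.1, t.2} ≠ ⊤) with hD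
  have hsplit := Finset.card_filter_add_card_filter_not (s := D)
    (fun t => t.1 ^ 2 = 1 ∧ t.2 ^ 2 = 1)
  have hA : ((D.filter fun t => ¬ (t.1 ^ 2 = 1 ∧ t.2 ^ 2 = 1)).card : ℝ) ≤ C * r ^ 7 := by
    refine le_trans ?_ (h.gen2 m hm n hn)
    norm_cast
    apply Finset.card_le_card
    intro t ht
    rw [Finset.mem_filter, hD, Finset.mem_filter] at ht
    rw [Finset.mem_filter]
    exact ⟨ht.1.1, ht.1.2, ht.2⟩
  have hB : ((D.filter fun t => t.1 ^ 2 = 1 ∧ t.2 ^ 2 = 1).card : ℝ) ≤ C * r ^ 4 := by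
    refine le_trans ?_ h.invol_le
    norm_cast
    rcases ho with ho | ho
    · apply Finset.card_le_card_of_injOn (fun t => t.2)
      · intro t ht
        simp only [Finset.coe_filter, Set.mem_ofPred_eq] at ht
        simp only [Finset.coe_filter, Set.mem_ofPred_eq, Finset.mem_univ, true_and]
        exact ht.2.2
      · rintro ⟨a, b⟩ ht ⟨a', b'⟩ ht' heq
        simp only [Finset.coe_filter, Finset.mem_filter, Set.mem_ofPred_eq, hD,
          Finset.mem_product, tor, Finset.mem_univ, true_and] at ht ht'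
        simp only at heq
        rw [heq, odd_oneaux ho ht.1.1.1 ht.2.1, odd_oneaux ho ht'.1.1.1 ht'.2.1]
    · apply Finset.card_le_card_of_injOn (fun t => t.1)
      · intro t ht
        simp only [Finset.coe_filter, Set.mem_ofPred_eq] at ht
        simp only [Finset.coe_filter, Set.mem_ofPred_eq, Finset.mem_univ, true_and]
        exact ht.2.1
      · rintro ⟨a, b⟩ ht ⟨a', b'⟩ ht' heq
        simp only [Finset.coe_filter, Finset.mem_filter, Set.mem_ofPred_eq, hD,
          Finset.mem_product, tor, Finset.mem_univ, true_and] at ht ht'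
        simp only at heq
        rw [heq, odd_oneaux ho ht.1.1.2 ht.2.2, odd_oneaux ho ht'.1.1.2 ht'.2.2]
  have hsplit' : (D.card : ℝ) = ((D.filter fun t => t.1 ^ 2 = 1 ∧ t.2 ^ 2 = 1).card : ℝ) +
      ((D.filter fun t => ¬ (t.1 ^ 2 = 1 ∧ t.2 ^ 2 = 1)).card : ℝ) := by
    exact_mod_cast hsplit.symm
  rw [hsplit']
  linarith

open scoped Classical in

theorem pairs2_aux {G : Type} [Group G] [Fintype G] [DecidableEq G] {P : Finset ℕ} {r C : ℝ}
    (h : IFace G P r C) {m n : ℕ} (hm : m ∈ P) (h2 : 2 ∈ P) (ho : Odd m ∨ Odd n) :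
    (((tor G m ×ˢ tor G 2).filter fun t => t.1 ∈ tor G n ∧
      Subgroup.closure {t.1, t.2} ≠ ⊤).card : ℝ) ≤ C * r ^ 7 + C * r ^ 4 := by
  set D := ((tor G m ×ˢ tor G 2).filter fun t => t.1 ∈ tor G n ∧
      Subgroup.closure {t.1, t.2} ≠ ⊤) with hD
  have hsplit := Finset.card_filter_add_card_filter_not (s := D)
    (fun t => t.1 ^ 2 = 1 ∧ t.2 ^ 2 = 1)
  have hA : ((D.filter fun t => ¬ (t.1 ^ 2 = 1 ∧ t.2 ^ 2 = 1)).card : ℝ) ≤ C * r ^ 7 := by
    refine le_trans ?_ (h.gen2 m hm 2 h2)
    norm_cast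
    apply Finset.card_le_card
    intro t ht
    rw [Finset.mem_filter, hD, Finset.mem_filter] at ht
    rw [Finset.mem_filter]
    exact ⟨ht.1.1, ht.1.2.2, ht.2⟩
  have hB : ((D.filter fun t => t.1 ^ 2 = 1 ∧ t.2 ^ 2 = 1).card : ℝ) ≤ C * r ^ 4 := by
    refine le_trans ?_ h.invol_le
    norm_cast
    apply Finset.card_le_card_of_injOn (fun t => t.2)
    · intro t ht
      simp only [Finset.coe_filter, Set.mem_ofPred_eq] at ht
      simp only [Finset.coe_filter, Set.mem_ofPred_eq, Finset.mem_univ, true_and]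
      exact ht.2.2
    · rintro ⟨a, b⟩ ht ⟨a', b'⟩ ht' heq
      simp only [Finset.coe_filter, Finset.mem_filter, Set.mem_ofPred_eq, hD,
        Finset.mem_product, tor, Finset.mem_univ, true_and] at ht ht'
      simp only at heq
      have e1 : a = 1 := by
        rcases ho with ho | ho
        · exact odd_oneaux ho ht.1.1.1 ht.2.1
        · exact odd_oneaux ho ht.1.2.1 ht.2.1
      have e2 : a' = 1 := by
        rcases ho with ho | ho
        · exact odd_oneaux ho ht'.1.1.1 ht'.2.1
        · exact odd_oneaux ho ht'.1.2.1 ht'.2.1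
      rw [heq, e1, e2]
  have hsplit' : (D.card : ℝ) = ((D.filter fun t => t.1 ^ 2 = 1 ∧ t.2 ^ 2 = 1).card : ℝ) +
      ((D.filter fun t => ¬ (t.1 ^ 2 = 1 ∧ t.2 ^ 2 = 1)).card : ℝ) := by
    exact_mod_cast hsplit.symm
  rw [hsplit']
  linarith

open scoped Classical in

theorem caseA_aux {G : Type} [Group G] [Fintype G] [DecidableEq G] {P : Finset ℕ} {r C : ℝ}
    (h : IFace G P r C) {m₁ m₂ m₃ : ℕ} (ms : List ℕ) (h1 : m₁ ∈ P) (h2 : m₂ ∈ P) (h3 : m₃ ∈ P)
    (hms : ∀ m ∈ ms, m ∈ P) :
    (((N1set G (m₁ :: m₂ :: m₃ :: ms)).filter fun t => ¬ N1gen t).card : ℝ) ≤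
      4 * (2 * C) ^ (ms.length + 4) * r ^ (4 * ms.length + 11) := by
  have hC := h.one_le_C
  have hr1 := h.one_le_r
  have hms' : ∀ m ∈ m₁ :: m₂ :: m₃ :: ms, m ∈ P := by
    intro m hm
    simp only [List.mem_cons] at hm
    rcases hm with rfl | rfl | rfl | hm
    · exact h1
    · exact h2
    · exact h3
    · exact hms m hm
  set T := ((tor G m₁ ×ˢ (tor G m₂ ×ˢ tor G m₃)).filter fun t =>
      Subgroup.closure {t.1, t.2.1 * t.2.2} ≠ ⊤) with hT
  set L : Finset (List G) := (T ×ˢ XS G ms).image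
    (fun t => t.1.1 :: t.1.2.1 :: t.1.2.2 :: t.2) with hL
  have key := badsplit_aux h ((N1set G (m₁ :: m₂ :: m₃ :: ms)).filter fun t => ¬ N1gen t) L
    (((2 * C) ^ (ms.length + 3) * r ^ (4 * (ms.length + 3) - 6)) * (C * r ^ 4))
    (by
      intro t ht
      rw [Finset.mem_filter, N1set, Finset.mem_filter] at ht
      exact ht.1.2)
    (by
      rintro ⟨l, a⟩ ht _
      rw [Finset.mem_filter, N1set, Finset.mem_filter, Finset.mem_product] at ht
      obtain ⟨⟨⟨hl, -⟩, -⟩, hgen⟩ := ht
      simp only at hl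
      rw [mem_XS_consaux] at hl
      obtain ⟨x1, hx1, l1, hl1, rfl⟩ := hl
      rw [mem_XS_consaux] at hl1
      obtain ⟨x2, hx2, l2, hl2, rfl⟩ := hl1
      rw [mem_XS_consaux] at hl2
      obtain ⟨x3, hx3, l3, hl3, rfl⟩ := hl2
      rw [hL, Finset.mem_image]
      refine ⟨((x1, x2, x3), l3), ?_, rfl⟩
      rw [Finset.mem_product]
      refine ⟨?_, hl3⟩
      rw [hT, Finset.mem_filter, Finset.mem_product, Finset.mem_product]
      refine ⟨⟨hx1, hx2, hx3⟩, fun htop => hgen ?_⟩
      unfold N1gen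
      rw [eq_top_iff, ← htop, Subgroup.closure_le]
      have e1 : x1 ∈ Subgroup.closure ({x | x ∈ x1 :: x2 :: x3 :: l3} ∪ {a} : Set G) :=
        Subgroup.subset_closure (Or.inl (by simp))
      have e2 : x2 ∈ Subgroup.closure ({x | x ∈ x1 :: x2 :: x3 :: l3} ∪ {a} : Set G) :=
        Subgroup.subset_closure (Or.inl (by simp))
      have e3 : x3 ∈ Subgroup.closure ({x | x ∈ x1 :: x2 :: x3 :: l3} ∪ {a} : Set G) :=
        Subgroup.subset_closure (Or.inl (by simp))
      rintro y (rfl | rfl)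
      · exact e1
      · exact mul_mem e2 e3)
    (by
      have e0 : ((((N1set G (m₁ :: m₂ :: m₃ :: ms)).filter fun t => ¬ N1gen t).filter
          fun t => t.1.prod = 1).card : ℝ) ≤ (cntA G (m₁ :: m₂ :: m₃ :: ms) 1 : ℝ) *
            (((univ : Finset G).filter fun a => a ^ 2 = 1).card : ℝ) := by
        unfold cntA
        rw [← Nat.cast_mul, ← Finset.card_product]
        norm_cast
        apply Finset.card_le_card
        intro t ht
        rw [Finset.mem_filter, Finset.mem_filter, N1set, Finset.mem_filter,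
          Finset.mem_product] at ht
        obtain ⟨⟨⟨⟨hl, -⟩, hp⟩, -⟩, hp1⟩ := ht
        rw [Finset.mem_product, Finset.mem_filter, Finset.mem_filter]
        refine ⟨⟨hl, hp1⟩, Finset.mem_univ _, ?_⟩
        rw [hp1, one_mul] at hp
        exact hp
      have e1 := (cntA_upper h (m₁ :: m₂ :: m₃ :: ms) hms').2.2 1 (Or.inl (by simp))
      simp only [List.length_cons] at e1
      refine e0.trans (mul_le_mul ?_ h.invol_le (Nat.cast_nonneg _) (by positivity))
      exact e1)
  have hLcard : (L.card : ℝ) ≤ (2 * C ^ 2 * r ^ 11) * (C ^ ms.length * r ^ (4 * ms.length)) := by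
    have e1 : L.card ≤ (T ×ˢ XS G ms).card := Finset.card_image_le
    rw [Finset.card_product] at e1
    have e2 : (L.card : ℝ) ≤ (T.card : ℝ) * ((XS G ms).card : ℝ) := by exact_mod_cast e1
    refine e2.trans (mul_le_mul ?_ (cntA_upper h ms hms).1 (Nat.cast_nonneg _) (by positivity))
    exact triples_aux h h1 h2 h3
  have e3 : 4 * (ms.length + 3) - 6 + 4 = 4 * ms.length + 10 := by omega
  have f1 : C ^ (ms.length + 3) ≤ (2 * C) ^ (ms.length + 4) := by
    calc C ^ (ms.length + 3) ≤ C ^ (ms.length + 4) := pow_le_pow_right₀ hC (by omega)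
      _ ≤ (2 * C) ^ (ms.length + 4) := pow_le_pow_left₀ (by linarith) (by linarith) _
  have f2 : (2 * C) ^ (ms.length + 3) * C ≤ (2 * C) ^ (ms.length + 4) := by
    rw [pow_succ (2 * C) (ms.length + 3)]
    exact mul_le_mul_of_nonneg_left (by linarith) (by positivity)
  have f3 : r ^ (4 * ms.length + 10) ≤ r ^ (4 * ms.length + 11) :=
    pow_le_pow_right₀ hr1 (by omega)
  have g1 : (L.card : ℝ) * C ≤ 2 * (2 * C) ^ (ms.length + 4) * r ^ (4 * ms.length + 11) := by
    calc (L.card : ℝ) * C ≤ ((2 * C ^ 2 * r ^ 11) * (C ^ ms.length * r ^ (4 * ms.length))) * C :=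
          mul_le_mul_of_nonneg_right hLcard (by linarith)
      _ = 2 * C ^ (ms.length + 3) * r ^ (4 * ms.length + 11) := by ring
      _ ≤ 2 * (2 * C) ^ (ms.length + 4) * r ^ (4 * ms.length + 11) := by
          apply mul_le_mul_of_nonneg_right _ (by positivity)
          linarith
  have g2 : ((2 * C) ^ (ms.length + 3) * r ^ (4 * (ms.length + 3) - 6)) * (C * r ^ 4) ≤
      (2 * C) ^ (ms.length + 4) * r ^ (4 * ms.length + 11) := by
    calc ((2 * C) ^ (ms.length + 3) * r ^ (4 * (ms.length + 3) - 6)) * (C * r ^ 4)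
        = ((2 * C) ^ (ms.length + 3) * C) * (r ^ (4 * (ms.length + 3) - 6) * r ^ 4) := by ring
      _ = ((2 * C) ^ (ms.length + 3) * C) * r ^ (4 * ms.length + 10) := by
          rw [← pow_add, e3]
      _ ≤ (2 * C) ^ (ms.length + 4) * r ^ (4 * ms.length + 11) :=
          mul_le_mul f2 f3 (by positivity) (by positivity)
  have g3 : 0 ≤ (2 * C) ^ (ms.length + 4) * r ^ (4 * ms.length + 11) := by positivity
  calc (((N1set G (m₁ :: m₂ :: m₃ :: ms)).filter fun t => ¬ N1gen t).card : ℝ)
      ≤ (L.card : ℝ) * C + ((2 * C) ^ (ms.length + 3) * r ^ (4 * (ms.length + 3) - 6)) *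
          (C * r ^ 4) := key
    _ ≤ 4 * (2 * C) ^ (ms.length + 4) * r ^ (4 * ms.length + 11) := by
        rw [mul_assoc 4]
        rw [mul_assoc 2] at g1
        linarith

open scoped Classical in

theorem caseB_aux {G : Type} [Group G] [Fintype G] [DecidableEq G] {P : Finset ℕ} {r C : ℝ}
    (h : IFace G P r C) {m n : ℕ} (hm : m ∈ P) (hn : n ∈ P) (h2 : 2 ∈ P) (ho : Odd m ∨ Odd n) :
    (((N1set G [m, n]).filter fun t => ¬ N1gen t).card : ℝ) ≤ 4 * (2 * C) ^ 3 * r ^ 7 := by
  have hC := h.one_le_C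
  have hr1 := h.one_le_r
  set D := ((tor G m ×ˢ tor G n).filter fun t => Subgroup.closure {t.1, t.2} ≠ ⊤) with hD
  set L : Finset (List G) := D.image (fun t => [t.1, t.2]) with hL
  have hmem : ∀ l : List G, l ∈ XS G [m, n] → ∃ x ∈ tor G m, ∃ y ∈ tor G n, l = [x, y] := by
    intro l hl
    rw [mem_XS_consaux] at hl
    obtain ⟨x1, hx1, l1, hl1, rfl⟩ := hl
    rw [mem_XS_consaux] at hl1
    obtain ⟨x2, hx2, l2, hl2, rfl⟩ := hl1
    rw [XS, Finset.mem_singleton] at hl2
    exact ⟨x1, hx1, x2, hx2, by rw [hl2]⟩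
  have key := badsplit_aux h ((N1set G [m, n]).filter fun t => ¬ N1gen t) L
    (C * r ^ 7 + C * r ^ 4)
    (by
      intro t ht
      rw [Finset.mem_filter, N1set, Finset.mem_filter] at ht
      exact ht.1.2)
    (by
      rintro ⟨l, a⟩ ht _
      rw [Finset.mem_filter, N1set, Finset.mem_filter, Finset.mem_product] at ht
      obtain ⟨⟨⟨hl, -⟩, -⟩, hgen⟩ := ht
      obtain ⟨x, hx, y, hy, rfl⟩ := hmem l hl
      rw [hL, Finset.mem_image]
      refine ⟨(x, y), ?_, rfl⟩
      rw [hD, Finset.mem_filter, Finset.mem_product]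
      refine ⟨⟨hx, hy⟩, fun htop => hgen ?_⟩
      unfold N1gen
      rw [eq_top_iff, ← htop, Subgroup.closure_le]
      rintro z (rfl | rfl)
      · exact Subgroup.subset_closure (Or.inl (by simp))
      · exact Subgroup.subset_closure (Or.inl (by simp)))
    (by
      refine le_trans ?_ (pairs2_aux h hm h2 ho)
      norm_cast
      apply Finset.card_le_card_of_injOn (fun t => (t.1.headD 1, t.2))
      · rintro ⟨l, a⟩ ht
        rw [Finset.mem_coe, Finset.mem_filter, Finset.mem_filter, N1set, Finset.mem_filter,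
          Finset.mem_product] at ht
        obtain ⟨⟨⟨⟨hl, -⟩, hp⟩, hgen⟩, hp1⟩ := ht
        obtain ⟨x, hx, y, hy, rfl⟩ := hmem l hl
        simp only [List.prod_cons, List.prod_nil, mul_one] at hp hp1
        rw [hp1, one_mul] at hp
        have hxy : y = x⁻¹ := (inv_eq_of_mul_eq_one_right hp1).symm
        rw [Finset.mem_coe, Finset.mem_filter, Finset.mem_product]
        simp only [List.headD_cons]
        refine ⟨⟨hx, ?_⟩, ?_, fun htop => hgen ?_⟩
        · simpa [tor] using hp
        · simp only [tor, Finset.mem_filter, Finset.mem_univ, true_and] at hy ⊢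
          rw [hxy, inv_pow, inv_eq_one] at hy
          exact hy
        · unfold N1gen
          rw [eq_top_iff, ← htop, Subgroup.closure_le]
          rintro z (rfl | rfl)
          · exact Subgroup.subset_closure (Or.inl (by simp))
          · exact Subgroup.subset_closure (Or.inr rfl)
      · rintro ⟨l, a⟩ ht ⟨l', a'⟩ ht' heq
        rw [Finset.mem_coe, Finset.mem_filter, Finset.mem_filter, N1set, Finset.mem_filter,
          Finset.mem_product] at ht ht'
        obtain ⟨⟨⟨⟨hl, -⟩, -⟩, -⟩, hp1⟩ := ht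
        obtain ⟨⟨⟨⟨hl', -⟩, -⟩, -⟩, hp1'⟩ := ht'
        obtain ⟨x, hx, y, hy, rfl⟩ := hmem l hl
        obtain ⟨x', hx', y', hy', rfl⟩ := hmem l' hl'
        simp only [List.prod_cons, List.prod_nil, mul_one] at hp1 hp1'
        simp only [List.headD_cons, Prod.mk.injEq] at heq
        obtain ⟨rfl, rfl⟩ := heq
        have : y = y' := mul_left_cancel (hp1.trans hp1'.symm)
        rw [this])
  have hLcard : (L.card : ℝ) ≤ C * r ^ 7 + C * r ^ 4 := by
    have e1 : L.card ≤ D.card := Finset.card_image_le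
    have e2 : (L.card : ℝ) ≤ (D.card : ℝ) := by exact_mod_cast e1
    exact e2.trans (pairs1_aux h hm hn ho)
  have f1 : r ^ 4 ≤ r ^ 7 := pow_le_pow_right₀ hr1 (by norm_num)
  have f2 : C * r ^ 7 + C * r ^ 4 ≤ 2 * C * r ^ 7 := by nlinarith
  calc (((N1set G [m, n]).filter fun t => ¬ N1gen t).card : ℝ)
      ≤ (L.card : ℝ) * C + (C * r ^ 7 + C * r ^ 4) := key
    _ ≤ (2 * C * r ^ 7) * C + 2 * C * r ^ 7 := by
        have := mul_le_mul_of_nonneg_right (hLcard.trans f2) (by linarith : (0 : ℝ) ≤ C)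
        linarith
    _ = (2 * C ^ 2 + 2 * C) * r ^ 7 := by ring
    _ ≤ (4 * (2 * C) ^ 3) * r ^ 7 := by
        apply mul_le_mul_of_nonneg_right _ (by positivity)
        nlinarith [mul_nonneg (by linarith : (0:ℝ) ≤ C) (by linarith : (0:ℝ) ≤ C - 1),
          mul_nonneg (mul_nonneg (by linarith : (0:ℝ) ≤ C) (by linarith : (0:ℝ) ≤ C))
            (by linarith : (0:ℝ) ≤ C - 1)]

open scoped Classical in
theorem n1_pos (C : ℝ) (ms : List ℕ) : ∃ K : ℝ, 0 < K ∧
    ∀ (G : Type) [Group G] [Fintype G] [DecidableEq G] (P : Finset ℕ) (r : ℝ),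
      IFace G P r C → 2 * C ≤ r → (∀ m ∈ ms, m ∈ P ∧ ¬ Nat.Coprime m (Fintype.card G)) →
      (2 ∈ P ∧ (3 ≤ ms.length ∨ (ms.length = 2 ∧ ∃ n ∈ ms, Odd n))) →
      0 < (N1set G ms).card ∧
      (((N1set G ms).filter fun t => ¬ N1gen t).card : ℝ) * r ≤
        K * ((N1set G ms).card : ℝ) := by
  by_cases hC1 : 1 ≤ C
  · refine ⟨4 * (2 * C) ^ (ms.length + 1) * (2 * C) ^ (ms.length + 1), by positivity, ?_⟩
    intro G _ _ _ P r h hr hms hcase
    have hr1 := h.one_le_r
    have hk : 2 ≤ ms.length := by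
      rcases hcase.2 with h3 | ⟨h3, -⟩ <;> omega
    have hlow := N1_loweraux h hr ms hms hk
    have hpos : 0 < ((N1set G ms).card : ℝ) := by
      by_contra hcon
      have h0 : ((N1set G ms).card : ℝ) ≤ 0 := not_lt.1 hcon
      have h1 : (2 * C) ^ (ms.length + 1) * ((N1set G ms).card : ℝ) ≤ 0 :=
        mul_nonpos_of_nonneg_of_nonpos (by positivity) h0
      have h2 : 0 < r ^ (4 * ms.length) := by positivity
      linarith
    refine ⟨by exact_mod_cast hpos, ?_⟩
    have hbad : (((N1set G ms).filter fun t => ¬ N1gen t).card : ℝ) ≤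
        4 * (2 * C) ^ (ms.length + 1) * r ^ (4 * ms.length - 1) := by
      rcases hcase.2 with h3 | ⟨h3, n, hn, hno⟩
      · match ms, h3, hms with
        | m₁ :: m₂ :: m₃ :: ms', _, hms =>
          have := caseA_aux h ms' (hms m₁ (by simp)).1 (hms m₂ (by simp)).1
            (hms m₃ (by simp)).1 (fun m hm => (hms m (by simp [hm])).1)
          have e1 : (m₁ :: m₂ :: m₃ :: ms').length + 1 = ms'.length + 4 := by simp
          have e2 : 4 * (m₁ :: m₂ :: m₃ :: ms').length - 1 = 4 * ms'.length + 11 := by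
            simp only [List.length_cons]; omega
          rw [e1, e2]
          exact this
      · match ms, h3, hms, hn with
        | [a, b], _, hms, hn =>
          have ho : Odd a ∨ Odd b := by
            simp only [List.mem_cons, List.not_mem_nil, or_false] at hn
            rcases hn with rfl | rfl
            · exact Or.inl hno
            · exact Or.inr hno
          exact caseB_aux h (hms a (by simp)).1 (hms b (by simp)).1 hcase.1 ho
    have e3 : 4 * ms.length = (4 * ms.length - 1) + 1 := by omega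
    calc (((N1set G ms).filter fun t => ¬ N1gen t).card : ℝ) * r
        ≤ (4 * (2 * C) ^ (ms.length + 1) * r ^ (4 * ms.length - 1)) * r :=
          mul_le_mul_of_nonneg_right hbad (by linarith)
      _ = 4 * (2 * C) ^ (ms.length + 1) * r ^ (4 * ms.length) := by
          rw [mul_assoc, ← pow_succ, ← e3]
      _ ≤ 4 * (2 * C) ^ (ms.length + 1) * ((2 * C) ^ (ms.length + 1) *
            ((N1set G ms).card : ℝ)) := mul_le_mul_of_nonneg_left hlow (by positivity)
      _ = _ := by ring
  · exact ⟨1, one_pos, fun G _ _ _ P r h => absurd h.one_le_C hC1⟩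

end Pool.Agent.Helper669_gp.J06
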