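import Mathlib
import Pool.Agent.Helper669_gp.J01
import Pool.Agent.Helper669_gp.J02

namespace Pool.Agent.Helper669_gp.J07

open Pool.Agent.Helper669_gp.J01 Pool.Agent.Helper669_gp.J02

open Finset

section N2aux

variable {G : Type} [Group G] [Fintype G] [DecidableEq G]

theorem n2_sum_XS_cons (m : ℕ) (ms : List ℕ) (f : List G → ℝ) :
    ∑ l ∈ XS G (m :: ms), f l = ∑ x ∈ tor G m, ∑ l ∈ XS G ms, f (x :: l) := by
  rw [XS, ← Finset.image_uncurry_product, Finset.sum_image, Finset.sum_product]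
  · rfl
  · rintro ⟨a, l⟩ _ ⟨b, l'⟩ _ h
    simpa using h

theorem n2_replicate_mem (ms : List ℕ) : List.replicate ms.length (1 : G) ∈ XS G ms := by
  induction ms with
  | nil => simp [XS]
  | cons m ms ih =>
    rw [XS, List.length_cons, List.replicate_succ]
    refine Finset.mem_image₂_of_mem ?_ ih
    simp [tor]

theorem n2_nonempty (ms : List ℕ) : 0 < (N2set G ms).card := by
  rw [Finset.card_pos]
  refine ⟨(List.replicate ms.length 1, 1, 1), ?_⟩
  rw [N2set, Finset.mem_filter, Finset.mem_product]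
  refine ⟨⟨n2_replicate_mem ms, Finset.mem_univ _⟩, ?_⟩
  simp

theorem n2_card_eq (ms : List ℕ) : ((N2set G ms).card : ℝ) =
    ∑ l ∈ XS G ms, ∑ t : G × G, (if l.prod * (t.1 ^ 2 * t.2 ^ 2) = 1 then (1 : ℝ) else 0) := by
  rw [N2set, Finset.card_filter, Finset.sum_product]
  push_cast
  rfl

theorem n2_card_eq' (ms : List ℕ) : ((N2set G ms).card : ℝ) =
    ∑ t : G × G, (cntA G ms (t.1 ^ 2 * t.2 ^ 2)⁻¹ : ℝ) := by
  rw [n2_card_eq, Finset.sum_comm]
  refine Finset.sum_congr rfl fun t _ => ?_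
  rw [cntA, Finset.card_filter]
  push_cast
  refine Finset.sum_congr rfl fun l _ => ?_
  simp only [mul_eq_one_iff_eq_inv]

theorem n2_lower {P : Finset ℕ} {r C : ℝ} (h : IFace G P r C) (hr : 2 * C ≤ r) (ms : List ℕ)
    (hms : ∀ m ∈ ms, m ∈ P ∧ ¬ Nat.Coprime m (Fintype.card G)) (hk : 1 ≤ ms.length) :
    r ^ (4 * ms.length + 6) ≤
      (2 * C ^ 2 * (2 * C) ^ ms.length + (2 * C ^ 3) ^ (2 * ms.length + 3)) *
        ((N2set G ms).card : ℝ) := by
  classical
  have hC := h.one_le_C
  have hr1 := h.one_le_r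
  have hT1 : (1 : ℝ) ≤ ((N2set G ms).card : ℝ) := by
    exact_mod_cast n2_nonempty (G := G) ms
  have hT0 : (0 : ℝ) ≤ ((N2set G ms).card : ℝ) := by positivity
  have hA0 : 0 ≤ 2 * C ^ 2 * (2 * C) ^ ms.length := by positivity
  have hB0 : 0 ≤ (2 * C ^ 3) ^ (2 * ms.length + 3) := by positivity
  rcases Nat.lt_or_ge 1 ms.length with hk2 | hk1
  ·
    by_cases hrC : 2 * C ^ 3 ≤ r ^ 2
    · obtain ⟨B, -, hBinv, -, -, hB3, hlow, -⟩ := cntA_lower h hr
      have hlow' := hlow ms hms hk2
      set M : ℝ := (2 * C) ^ ms.length with hM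
      have hM0 : 0 ≤ M := by positivity
      have key : ((Fintype.card G : ℝ) ^ 2 - C * r ^ 10) * r ^ (4 * ms.length - 6) ≤
          M * ((N2set G ms).card : ℝ) := by
        rw [n2_card_eq', Finset.mul_sum]
        have h1 : ∀ t : G × G, (if t.1 ^ 2 * t.2 ^ 2 ∈ B then 0 else r ^ (4 * ms.length - 6)) ≤
            M * (cntA G ms (t.1 ^ 2 * t.2 ^ 2)⁻¹ : ℝ) := by
          intro t
          split_ifs with ht
          · positivity
          · apply hlow'
            intro h2
            apply ht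
            have := hBinv _ h2
            rwa [inv_inv] at this
        refine le_trans ?_ (Finset.sum_le_sum fun t _ => h1 t)
        have h2 : ∑ t : G × G, (if t.1 ^ 2 * t.2 ^ 2 ∈ B then 0 else r ^ (4 * ms.length - 6)) =
            ((Fintype.card G : ℝ) ^ 2 - (((univ : Finset (G × G)).filter
              fun t => t.1 ^ 2 * t.2 ^ 2 ∈ B).card : ℝ)) * r ^ (4 * ms.length - 6) := by
          have h3 : ∀ t : G × G, (if t.1 ^ 2 * t.2 ^ 2 ∈ B then 0 else r ^ (4 * ms.length - 6)) =
              r ^ (4 * ms.length - 6) -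
                (if t.1 ^ 2 * t.2 ^ 2 ∈ B then (1 : ℝ) else 0) * r ^ (4 * ms.length - 6) := by
            intro t
            split_ifs <;> ring
          rw [Finset.sum_congr rfl fun t _ => h3 t, Finset.sum_sub_distrib, ← Finset.sum_mul,
            Finset.card_filter, Finset.sum_const, Finset.card_univ, Fintype.card_prod]
          push_cast
          rw [nsmul_eq_mul]
          push_cast
          ring
        rw [h2]
        apply mul_le_mul_of_nonneg_right _ (by positivity)
        linarith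
      have h4 : r ^ 12 ≤ C ^ 2 * (Fintype.card G : ℝ) ^ 2 := by
        have h5 := h.le_card
        have h6 : (r ^ 6) ^ 2 ≤ (C * (Fintype.card G : ℝ)) ^ 2 :=
          pow_le_pow_left₀ (by positivity) h5 2
        calc r ^ 12 = (r ^ 6) ^ 2 := by ring
          _ ≤ _ := h6
          _ = _ := by ring
      have h7 : r ^ 12 ≤ 2 * C ^ 2 * ((Fintype.card G : ℝ) ^ 2 - C * r ^ 10) := by
        have h8 : 2 * C ^ 3 * r ^ 10 ≤ r ^ 2 * r ^ 10 :=
          mul_le_mul_of_nonneg_right hrC (by positivity)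
        nlinarith [h8, h4]
      have h9 : r ^ (4 * ms.length + 6) = r ^ 12 * r ^ (4 * ms.length - 6) := by
        rw [← pow_add]; congr 1; omega
      rw [h9]
      calc r ^ 12 * r ^ (4 * ms.length - 6) ≤
            (2 * C ^ 2 * ((Fintype.card G : ℝ) ^ 2 - C * r ^ 10)) * r ^ (4 * ms.length - 6) :=
              mul_le_mul_of_nonneg_right h7 (by positivity)
        _ = 2 * C ^ 2 * (((Fintype.card G : ℝ) ^ 2 - C * r ^ 10) * r ^ (4 * ms.length - 6)) := by
              ring
        _ ≤ 2 * C ^ 2 * (M * ((N2set G ms).card : ℝ)) :=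
              mul_le_mul_of_nonneg_left key (by positivity)
        _ ≤ _ := by
              have := mul_nonneg hB0 hT0
              nlinarith [this]
    · push Not at hrC
      have h1 : r ^ (4 * ms.length + 6) ≤ (2 * C ^ 3) ^ (2 * ms.length + 3) := by
        have : r ^ (4 * ms.length + 6) = (r ^ 2) ^ (2 * ms.length + 3) := by
          rw [← pow_mul]; congr 1; ring
        rw [this]
        exact pow_le_pow_left₀ (by positivity) hrC.le _
      nlinarith [mul_nonneg hA0 hT0, mul_le_mul_of_nonneg_left hT1 hB0]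
  ·
    have hlen : ms.length = 1 := le_antisymm hk1 hk
    obtain ⟨m, rfl⟩ := List.length_eq_one_iff.1 hlen
    have hm := hms m (by simp)
    have htor := h.le_tor m hm.1 hm.2
    have hT : ((tor G m).card - 1 : ℝ) * r ^ 6 ≤ C * ((N2set G [m]).card : ℝ) := by
      rw [n2_card_eq, n2_sum_XS_cons, Finset.mul_sum]
      simp only [XS, Finset.sum_singleton, List.prod_cons, List.prod_nil, mul_one]
      have h1mem : (1 : G) ∈ tor G m := by simp [tor]
      have h2 : ((tor G m).card - 1 : ℝ) * r ^ 6 = ∑ x ∈ (tor G m).erase 1, r ^ 6 := by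
        rw [Finset.sum_const, nsmul_eq_mul, Finset.card_erase_of_mem h1mem, Nat.cast_sub, Nat.cast_one]
        exact Finset.card_pos.2 ⟨1, h1mem⟩
      rw [h2]
      refine le_trans (Finset.sum_le_sum (g := fun x => C * ∑ t : G × G,
        (if x * (t.1 ^ 2 * t.2 ^ 2) = 1 then (1 : ℝ) else 0)) ?_)
        (Finset.sum_le_sum_of_subset_of_nonneg (Finset.erase_subset _ _) ?_)
      · intro x hx
        have h3 := h.n2_le x (Finset.ne_of_mem_erase hx)
        rw [Finset.card_filter] at h3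
        push_cast at h3
        convert h3 using 6
      · intro x _ _
        apply mul_nonneg (by linarith)
        exact Finset.sum_nonneg fun t _ => by split_ifs <;> norm_num
    simp only [List.length_singleton, mul_one, pow_one]
    have hr4 : 2 * C ≤ r ^ 4 := by
      have : r ≤ r ^ 4 := le_self_pow₀ hr1 (by norm_num)
      linarith
    have h10 : r ^ 10 ≤ 2 * C ^ 2 * ((N2set G [m]).card : ℝ) := by
      have h11 : (C * ((tor G m).card : ℝ) - C) * r ^ 6 ≤ C ^ 2 * ((N2set G [m]).card : ℝ) := by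
        have := mul_le_mul_of_nonneg_left hT (by linarith : (0 : ℝ) ≤ C)
        calc (C * ((tor G m).card : ℝ) - C) * r ^ 6 = C * (((tor G m).card - 1 : ℝ) * r ^ 6) := by ring
          _ ≤ _ := this
          _ = _ := by ring
      have h12 : (r ^ 4 / 2) * r ^ 6 ≤ (C * ((tor G m).card : ℝ) - C) * r ^ 6 :=
        mul_le_mul_of_nonneg_right (by linarith) (by positivity)
      have h13 : r ^ 10 = 2 * ((r ^ 4 / 2) * r ^ 6) := by ring
      rw [h13]
      linarith
    have h14 : 2 * C ^ 2 * ((N2set G [m]).card : ℝ) ≤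
        2 * C ^ 2 * (2 * C) * ((N2set G [m]).card : ℝ) := by
      have h15 : 0 ≤ 2 * C ^ 2 * ((N2set G [m]).card : ℝ) := by positivity
      nlinarith [h15]
    have h16 : 0 ≤ (2 * C ^ 3) ^ (2 + 3) * ((N2set G [m]).card : ℝ) := by positivity
    calc r ^ (4 + 6) = r ^ 10 := by norm_num
      _ ≤ _ := h10
      _ ≤ _ := h14
      _ ≤ _ := by rw [add_mul]; linarith

theorem n2_sqrt_sum {P : Finset ℕ} {r C : ℝ} (h : IFace G P r C) (z : G) (hz : z ≠ 1) :
    ∑ b : G, (if b ^ 2 = z then (1 : ℝ) else 0) ≤ C := by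
  have h3 := h.sqrt_le z hz
  rw [Finset.card_filter] at h3
  push_cast at h3
  convert h3 using 3

theorem n2_invol_sum {P : Finset ℕ} {r C : ℝ} (h : IFace G P r C) :
    ∑ b : G, (if b ^ 2 = 1 then (1 : ℝ) else 0) ≤ C * r ^ 4 := by
  have h3 := h.invol_le
  rw [Finset.card_filter] at h3
  push_cast at h3
  convert h3 using 3

open scoped Classical in

theorem n2_bad {P : Finset ℕ} {r C : ℝ} (h : IFace G P r C) (ms : List ℕ)
    (hms : ∀ m ∈ ms, m ∈ P) (hk : 1 ≤ ms.length) :
    (((N2set G ms).filter fun t => ¬ O1gen t).card : ℝ) ≤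
      3 * C ^ (ms.length + 2) * r ^ (4 * ms.length + 5) := by
  have hC := h.one_le_C
  have hr1 := h.one_le_r
  have hC0 : (0 : ℝ) ≤ C := by linarith
  have hr0 : (0 : ℝ) ≤ r := by linarith
  obtain ⟨m, ms', rfl⟩ : ∃ m ms', ms = m :: ms' := by
    cases ms with
    | nil => simp at hk
    | cons m ms' => exact ⟨m, ms', rfl⟩
  have hm := hms m (by simp)
  have hms' : ∀ m ∈ ms', m ∈ P := fun m' hm' => hms m' (by simp [hm'])

  have e1 : (((N2set G (m :: ms')).filter fun t => ¬ O1gen t).card : ℝ) =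
      ∑ x ∈ tor G m, ∑ l ∈ XS G ms', ∑ a : G, ∑ b : G,
        (if (x :: l).prod * (a ^ 2 * b ^ 2) = 1 ∧ ¬ O1gen ((x :: l), a, b) then (1 : ℝ) else 0) := by
    rw [N2set, Finset.filter_filter, Finset.card_filter, Finset.sum_product]
    push_cast
    rw [n2_sum_XS_cons]
    refine Finset.sum_congr rfl fun x _ => Finset.sum_congr rfl fun l _ => ?_
    rw [← Finset.univ_product_univ, Finset.sum_product]

  have e2 : ∀ x : G, ∀ l : List G, ∀ a : G, ∑ b : G,
      (if (x :: l).prod * (a ^ 2 * b ^ 2) = 1 ∧ ¬ O1gen ((x :: l), a, b) then (1 : ℝ) else 0) ≤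
      (if Subgroup.closure {x, a} ≠ ⊤ then (1 : ℝ) else 0) * C +
      (if (x :: l).prod * a ^ 2 = 1 then (1 : ℝ) else 0) * (C * r ^ 4) := by
    intro x l a
    by_cases hz : (x :: l).prod * a ^ 2 = 1
    · rw [if_pos hz, one_mul]
      have h1 : ∑ b : G, (if (x :: l).prod * (a ^ 2 * b ^ 2) = 1 ∧ ¬ O1gen ((x :: l), a, b)
          then (1 : ℝ) else 0) ≤ ∑ b : G, (if b ^ 2 = 1 then (1 : ℝ) else 0) := by
        refine Finset.sum_le_sum fun b _ => ?_
        by_cases hb : b ^ 2 = 1
        · rw [if_pos hb]; split_ifs <;> norm_num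
        · rw [if_neg hb, if_neg]
          rintro ⟨h2, -⟩
          rw [← mul_assoc, hz, one_mul] at h2
          exact hb h2
      refine h1.trans ((n2_invol_sum h).trans ?_)
      have : 0 ≤ (if Subgroup.closure {x, a} ≠ ⊤ then (1 : ℝ) else 0) * C := by
        split_ifs <;> simp [hC0]
      linarith
    · rw [if_neg hz, zero_mul, add_zero]
      by_cases hcl : Subgroup.closure {x, a} = ⊤
      · rw [if_neg (not_not.2 hcl), zero_mul]
        apply le_of_eq
        refine Finset.sum_eq_zero fun b _ => ?_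
        rw [if_neg]
        rintro ⟨-, h2⟩
        apply h2
        rw [O1gen, eq_top_iff, ← hcl]
        apply Subgroup.closure_mono
        rintro y (rfl | hy)
        · left
          simp
        · rw [Set.mem_singleton_iff] at hy
          right
          simp [hy]
      · rw [if_pos hcl, one_mul]
        have h1 : ∑ b : G, (if (x :: l).prod * (a ^ 2 * b ^ 2) = 1 ∧ ¬ O1gen ((x :: l), a, b)
            then (1 : ℝ) else 0) ≤
            ∑ b : G, (if b ^ 2 = ((x :: l).prod * a ^ 2)⁻¹ then (1 : ℝ) else 0) := by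
          refine Finset.sum_le_sum fun b _ => ?_
          by_cases hb : b ^ 2 = ((x :: l).prod * a ^ 2)⁻¹
          · rw [if_pos hb]; split_ifs <;> norm_num
          · rw [if_neg hb, if_neg]
            rintro ⟨h2, -⟩
            rw [← mul_assoc] at h2
            exact hb (eq_inv_of_mul_eq_one_right h2)
        exact h1.trans (n2_sqrt_sum h _ (inv_ne_one.2 hz))
  obtain ⟨hXS', -, -⟩ := cntA_upper h ms' hms'
  obtain ⟨hXS, hcnt, -⟩ := cntA_upper h (m :: ms') hms
  have hcnt1 := hcnt 1 (by simp)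
  rw [List.length_cons] at hXS hcnt1 ⊢
  simp only [Nat.add_sub_cancel] at hcnt1
  set k := ms'.length with hkdef

  have f1 : ∑ x ∈ tor G m, ∑ l ∈ XS G ms', ∑ a : G,
      (if Subgroup.closure {x, a} ≠ ⊤ then (1 : ℝ) else 0) * C ≤
      C ^ k * r ^ (4 * k) * (C * r ^ 9 * C) := by
    have h1 : ∑ x ∈ tor G m, ∑ l ∈ XS G ms', ∑ a : G,
        (if Subgroup.closure {x, a} ≠ ⊤ then (1 : ℝ) else 0) * C =
        ((XS G ms').card : ℝ) * ((((tor G m ×ˢ (univ : Finset G)).filter fun t =>
          Subgroup.closure {t.1, t.2} ≠ ⊤).card : ℝ) * C) := by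
      rw [Finset.card_filter, Finset.sum_product]
      push_cast
      rw [Finset.sum_mul, Finset.mul_sum]
      refine Finset.sum_congr rfl fun x _ => ?_
      rw [Finset.sum_const, nsmul_eq_mul, Finset.sum_mul]
    rw [h1]
    have h2 := h.gen1 m hm
    apply mul_le_mul hXS' _ (by positivity) (by positivity)
    exact mul_le_mul_of_nonneg_right h2 hC0

  have f2 : ∑ x ∈ tor G m, ∑ l ∈ XS G ms', ∑ a : G,
      (if (x :: l).prod * a ^ 2 = 1 then (1 : ℝ) else 0) * (C * r ^ 4) ≤
      (C ^ (k + 1) * r ^ (4 * (k + 1)) * C + C ^ k * r ^ (4 * k) * (C * r ^ 4)) * (C * r ^ 4) := by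
    have h1 : ∑ x ∈ tor G m, ∑ l ∈ XS G ms', ∑ a : G,
        (if (x :: l).prod * a ^ 2 = 1 then (1 : ℝ) else 0) * (C * r ^ 4) =
        (∑ l ∈ XS G (m :: ms'), ∑ a : G, (if l.prod * a ^ 2 = 1 then (1 : ℝ) else 0)) *
          (C * r ^ 4) := by
      rw [n2_sum_XS_cons, Finset.sum_mul]
      refine Finset.sum_congr rfl fun x _ => ?_
      rw [Finset.sum_mul]
      refine Finset.sum_congr rfl fun l _ => ?_
      rw [Finset.sum_mul]
    rw [h1]
    apply mul_le_mul_of_nonneg_right _ (by positivity)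
    have h2 : ∀ l : List G, ∑ a : G, (if l.prod * a ^ 2 = 1 then (1 : ℝ) else 0) ≤
        C + (if l.prod = 1 then (1 : ℝ) else 0) * (C * r ^ 4) := by
      intro l
      by_cases hl : l.prod = 1
      · rw [if_pos hl, one_mul]
        have := n2_invol_sum h
        have h3 : ∑ a : G, (if l.prod * a ^ 2 = 1 then (1 : ℝ) else 0) =
            ∑ b : G, (if b ^ 2 = 1 then (1 : ℝ) else 0) := by
          refine Finset.sum_congr rfl fun b _ => ?_
          rw [hl, one_mul]
        rw [h3]; linarith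
      · rw [if_neg hl, zero_mul, add_zero]
        have := n2_sqrt_sum h (l.prod⁻¹) (inv_ne_one.2 hl)
        refine le_trans (le_of_eq ?_) this
        refine Finset.sum_congr rfl fun b _ => ?_
        have : (l.prod * b ^ 2 = 1) ↔ (b ^ 2 = l.prod⁻¹) :=
          ⟨fun h => eq_inv_of_mul_eq_one_right h, fun h => by rw [h, mul_inv_cancel]⟩
        simp only [this]
    refine (Finset.sum_le_sum fun l _ => h2 l).trans ?_
    rw [Finset.sum_add_distrib, Finset.sum_const, nsmul_eq_mul, ← Finset.sum_mul]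
    have h4 : ∑ l ∈ XS G (m :: ms'), (if l.prod = 1 then (1 : ℝ) else 0) =
        (cntA G (m :: ms') 1 : ℝ) := by
      rw [cntA, Finset.card_filter]
      push_cast
      rfl
    rw [h4]
    apply add_le_add
    · exact mul_le_mul_of_nonneg_right hXS hC0
    · exact mul_le_mul_of_nonneg_right hcnt1 (by positivity)
  rw [e1]
  have g1 : ∑ x ∈ tor G m, ∑ l ∈ XS G ms', ∑ a : G, ∑ b : G,
        (if (x :: l).prod * (a ^ 2 * b ^ 2) = 1 ∧ ¬ O1gen ((x :: l), a, b) then (1 : ℝ) else 0) ≤
      C ^ k * r ^ (4 * k) * (C * r ^ 9 * C) +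
      (C ^ (k + 1) * r ^ (4 * (k + 1)) * C + C ^ k * r ^ (4 * k) * (C * r ^ 4)) * (C * r ^ 4) := by
    refine le_trans (Finset.sum_le_sum fun x _ => Finset.sum_le_sum fun l _ =>
      Finset.sum_le_sum fun a _ => e2 x l a) ?_
    simp only [Finset.sum_add_distrib]
    exact add_le_add f1 f2
  refine g1.trans ?_
  have hCk : (0 : ℝ) ≤ C ^ k := by positivity
  have q1 : C ^ k * r ^ (4 * k) * (C * r ^ 9 * C) ≤ C ^ (k + 1 + 2) * r ^ (4 * (k + 1) + 5) := by
    have : C ^ (k + 1 + 2) * r ^ (4 * (k + 1) + 5) =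
        C * (C ^ k * r ^ (4 * k) * (C * r ^ 9 * C)) := by ring
    rw [this]
    exact le_mul_of_one_le_left (by positivity) hC
  have q2 : C ^ (k + 1) * r ^ (4 * (k + 1)) * C * (C * r ^ 4) ≤
      C ^ (k + 1 + 2) * r ^ (4 * (k + 1) + 5) := by
    have : C ^ (k + 1 + 2) * r ^ (4 * (k + 1) + 5) =
        r * (C ^ (k + 1) * r ^ (4 * (k + 1)) * C * (C * r ^ 4)) := by ring
    rw [this]
    exact le_mul_of_one_le_left (by positivity) hr1
  have q3 : C ^ k * r ^ (4 * k) * (C * r ^ 4) * (C * r ^ 4) ≤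
      C ^ (k + 1 + 2) * r ^ (4 * (k + 1) + 5) := by
    have : C ^ (k + 1 + 2) * r ^ (4 * (k + 1) + 5) =
        (C * r) * (C ^ k * r ^ (4 * k) * (C * r ^ 4) * (C * r ^ 4)) := by ring
    rw [this]
    exact le_mul_of_one_le_left (by positivity) (one_le_mul_of_one_le_of_one_le hC hr1)
  have q4 : (C ^ (k + 1) * r ^ (4 * (k + 1)) * C + C ^ k * r ^ (4 * k) * (C * r ^ 4)) * (C * r ^ 4) =
      C ^ (k + 1) * r ^ (4 * (k + 1)) * C * (C * r ^ 4) +
      C ^ k * r ^ (4 * k) * (C * r ^ 4) * (C * r ^ 4) := by ring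
  rw [q4]
  have q5 : 3 * C ^ (k + 1 + 2) * r ^ (4 * (k + 1) + 5) =
    3 * (C ^ (k + 1 + 2) * r ^ (4 * (k + 1) + 5)) := by ring
  rw [q5]
  linarith

end N2aux

open scoped Classical in
theorem n2_pos (C : ℝ) (ms : List ℕ) : ∃ K : ℝ, 0 < K ∧
    ∀ (G : Type) [Group G] [Fintype G] [DecidableEq G] (P : Finset ℕ) (r : ℝ),
      IFace G P r C → 2 * C ≤ r → (∀ m ∈ ms, m ∈ P ∧ ¬ Nat.Coprime m (Fintype.card G)) →
      (1 ≤ ms.length) →
      0 < (N2set G ms).card ∧
      (((N2set G ms).filter fun t => ¬ O1gen t).card : ℝ) * r ≤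
        K * ((N2set G ms).card : ℝ) := by
  by_cases hC : 1 ≤ C
  · have hC0 : 0 < C := by linarith
    refine ⟨3 * C ^ (ms.length + 2) *
      (2 * C ^ 2 * (2 * C) ^ ms.length + (2 * C ^ 3) ^ (2 * ms.length + 3)), by positivity, ?_⟩
    intro G _ _ _ P r h hr hms hk
    refine ⟨n2_nonempty ms, ?_⟩
    have hr1 := h.one_le_r
    have h1 := n2_bad h ms (fun m hm => (hms m hm).1) hk
    have h2 := n2_lower h hr ms hms hk
    calc (((N2set G ms).filter fun t => ¬ O1gen t).card : ℝ) * r ≤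
          3 * C ^ (ms.length + 2) * r ^ (4 * ms.length + 5) * r :=
            mul_le_mul_of_nonneg_right h1 (by linarith)
      _ = 3 * C ^ (ms.length + 2) * r ^ (4 * ms.length + 6) := by ring
      _ ≤ 3 * C ^ (ms.length + 2) *
          ((2 * C ^ 2 * (2 * C) ^ ms.length + (2 * C ^ 3) ^ (2 * ms.length + 3)) *
          ((N2set G ms).card : ℝ)) := mul_le_mul_of_nonneg_left h2 (by positivity)
      _ = _ := by ring
  · exact ⟨1, one_pos, fun G _ _ _ P r h => absurd h.one_le_C hC⟩

end Pool.Agent.Helper669_gp.J07
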