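import Mathlib

namespace Pool.Agent.Helper669_gp.J08

lemma aux_sf_comm {G : Type} [Group G] (S : Set G) (h : ∀ a ∈ S, ∀ b ∈ S, a * b = b * a)
    (hS : Subgroup.closure S = ⊤) : ∀ a b : G, a * b = b * a := by
  have h1 : Subgroup.closure S ≤ Subgroup.centralizer S := by
    rw [Subgroup.closure_le]
    intro a ha
    rw [SetLike.mem_coe, Subgroup.mem_centralizer_iff]
    intro b hb
    exact h b hb a ha
  have h2 : Subgroup.closure S ≤ Subgroup.center G := by
    rw [Subgroup.closure_le]
    intro a ha
    rw [SetLike.mem_coe, Subgroup.mem_center_iff]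
    intro g
    have hg : g ∈ Subgroup.centralizer S := h1 (by rw [hS]; exact Subgroup.mem_top g)
    rw [Subgroup.mem_centralizer_iff] at hg
    exact (hg a ha).symm
  intro a b
  have hb : b ∈ Subgroup.center G := h2 (by rw [hS]; exact Subgroup.mem_top b)
  rw [Subgroup.mem_center_iff] at hb
  exact hb a

lemma aux_sf_normal {G : Type} [Group G] (S T : Set G) (hS : Subgroup.closure S = ⊤)
    (h1 : ∀ s ∈ S, ∀ t ∈ T, s * t * s⁻¹ ∈ Subgroup.closure T)
    (h2 : ∀ s ∈ S, ∀ t ∈ T, s⁻¹ * t * s ∈ Subgroup.closure T) :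
    (Subgroup.closure T).Normal := by
  have e1 : ∀ s ∈ S, ∀ n ∈ Subgroup.closure T, s * n * s⁻¹ ∈ Subgroup.closure T := by
    intro s hs n hn
    have : Subgroup.closure T ≤ (Subgroup.closure T).comap (MulAut.conj s).toMonoidHom := by
      rw [Subgroup.closure_le]
      intro t ht
      exact h1 s hs t ht
    exact this hn
  have e2 : ∀ s ∈ S, ∀ n ∈ Subgroup.closure T, s⁻¹ * n * s ∈ Subgroup.closure T := by
    intro s hs n hn
    have : Subgroup.closure T ≤ (Subgroup.closure T).comap (MulAut.conj s⁻¹).toMonoidHom := by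
      rw [Subgroup.closure_le]
      intro t ht
      show s⁻¹ * t * s⁻¹⁻¹ ∈ Subgroup.closure T
      rw [inv_inv]
      exact h2 s hs t ht
    have h := this hn
    have h' : s⁻¹ * n * s⁻¹⁻¹ ∈ Subgroup.closure T := h
    rwa [inv_inv] at h'
  have h3 : Subgroup.closure S ≤ Subgroup.normalizer (Subgroup.closure T : Set G) := by
    rw [Subgroup.closure_le]
    intro s hs
    rw [SetLike.mem_coe, Subgroup.mem_normalizer_iff]
    intro n
    constructor
    · exact e1 s hs n
    · intro hn
      have h5 := e2 s hs _ hn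
      have e : s⁻¹ * (s * n * s⁻¹) * s = n := by group
      rwa [e] at h5
  rw [hS] at h3
  constructor
  intro n hn g
  have hg := h3 (Subgroup.mem_top g)
  rw [Subgroup.mem_normalizer_iff] at hg
  exact (hg n).1 hn

lemma aux_sf_one {G : Type} [Group G] (hnc : ∃ a b : G, a * b ≠ b * a) (x : G) :
    Subgroup.closure {x} ≠ ⊤ := by
  intro h
  obtain ⟨a, b, hab⟩ := hnc
  refine hab (aux_sf_comm {x} ?_ h a b)
  rintro a rfl b rfl
  rfl

lemma aux_sf_sub {G : Type} [Group G] {S T : Set G} (h : S ⊆ Subgroup.closure T)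
    (hS : Subgroup.closure S = ⊤) : Subgroup.closure T = ⊤ := by
  rw [eq_top_iff, ← hS, Subgroup.closure_le]
  exact h

theorem simple_facts {G : Type} [Group G] [IsSimpleGroup G] (hnc : ∃ a b : G, a * b ≠ b * a) :
    (∀ x : G, Subgroup.closure {x} ≠ ⊤) ∧
    (∀ x y : G, x * y = y * x → Subgroup.closure {x, y} ≠ ⊤) ∧
    (∀ x y : G, x ^ 2 = 1 → y ^ 2 = 1 → Subgroup.closure {x, y} ≠ ⊤) ∧
    (∀ x y z w : G, x ^ 2 = 1 → y ^ 2 = 1 → z ^ 2 = 1 → w ^ 2 = 1 → x * y * z * w = 1 →
      Subgroup.closure {x, y, z, w} ≠ ⊤) ∧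
    (∀ a b : G, a ^ 2 * b ^ 2 = 1 → Subgroup.closure {a, b} ≠ ⊤) := by
  have inv2 : ∀ x : G, x ^ 2 = 1 → x⁻¹ = x := by
    intro x hx
    rw [inv_eq_iff_mul_eq_one, ← pow_two, hx]
  refine ⟨aux_sf_one hnc, ?_, ?_, ?_, ?_⟩
  · intro x y hxy h
    obtain ⟨a, b, hab⟩ := hnc
    refine hab (aux_sf_comm {x, y} ?_ h a b)
    rintro a (rfl | rfl) b (rfl | rfl)
    · rfl
    · exact hxy
    · exact hxy.symm
    · rfl
  · intro x y hx hy h
    have hx' := inv2 x hx
    have hy' := inv2 y hy
    have hxx : x * x = 1 := by rw [← pow_two, hx]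
    have hyy : y * y = 1 := by rw [← pow_two, hy]
    have hinv : y * x ∈ Subgroup.closure {x * y} := by
      have : (x * y)⁻¹ ∈ Subgroup.closure {x * y} :=
        inv_mem (Subgroup.subset_closure rfl)
      rwa [mul_inv_rev, hx', hy'] at this
    have hN : (Subgroup.closure {x * y}).Normal := by
      apply aux_sf_normal {x, y} {x * y} h
      · rintro s (rfl | rfl) t rfl
        · rw [hx', ← mul_assoc, hxx, one_mul]; exact hinv
        · rw [hy', mul_assoc, mul_assoc, hyy, mul_one]; exact hinv
      · rintro s (rfl | rfl) t rfl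
        · rw [hx', ← mul_assoc, hxx, one_mul]; exact hinv
        · rw [hy', mul_assoc, mul_assoc, hyy, mul_one]; exact hinv
    rcases IsSimpleGroup.eq_bot_or_eq_top_of_normal _ hN with h1 | h1
    · have h2 : x * y = 1 := by
        have : x * y ∈ Subgroup.closure {x * y} := Subgroup.subset_closure rfl
        rw [h1, Subgroup.mem_bot] at this
        exact this
      have h3 : y = x := by
        rw [← hx']; exact eq_inv_of_mul_eq_one_right h2
      refine aux_sf_one hnc x (aux_sf_sub ?_ h)
      rintro s (rfl | rfl)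
      · exact Subgroup.subset_closure rfl
      · rw [h3]; exact Subgroup.subset_closure rfl
    · exact aux_sf_one hnc _ h1
  · intro x y z w hx hy hz hw hprod h
    have hx' := inv2 x hx
    have hy' := inv2 y hy
    have hz' := inv2 z hz
    have hw' := inv2 w hw
    have hxx : x * x = 1 := by rw [← pow_two, hx]
    have hyy : y * y = 1 := by rw [← pow_two, hy]
    have hzz : z * z = 1 := by rw [← pow_two, hz]
    have hwe : w = x * y * z := by
      rw [← hw']
      exact (eq_inv_of_mul_eq_one_left hprod).symm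
    have hrel : x * y * z = z * y * x := by
      have h1 : (x * y * z)⁻¹ = x * y * z := by rw [← hwe, hw']
      rw [mul_inv_rev, mul_inv_rev, hx', hy', hz', ← mul_assoc] at h1
      exact h1.symm
    have h3 : Subgroup.closure {x, y, z} = (⊤ : Subgroup G) := by
      refine aux_sf_sub ?_ h
      have hxm : x ∈ Subgroup.closure ({x, y, z} : Set G) := Subgroup.subset_closure (by simp)
      have hym : y ∈ Subgroup.closure ({x, y, z} : Set G) := Subgroup.subset_closure (by simp)
      have hzm : z ∈ Subgroup.closure ({x, y, z} : Set G) := Subgroup.subset_closure (by simp)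
      rintro s (rfl | rfl | rfl | rfl)
      · exact hxm
      · exact hym
      · exact hzm
      · rw [hwe]; exact mul_mem (mul_mem hxm hym) hzm
    have m1 : x * y ∈ Subgroup.closure ({x * y, y * z} : Set G) :=
      Subgroup.subset_closure (by simp)
    have m2 : y * z ∈ Subgroup.closure ({x * y, y * z} : Set G) :=
      Subgroup.subset_closure (by simp)
    have i1 : y * x ∈ Subgroup.closure ({x * y, y * z} : Set G) := by
      have := inv_mem m1
      rwa [mul_inv_rev, hx', hy'] at this
    have i2 : z * y ∈ Subgroup.closure ({x * y, y * z} : Set G) := by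
      have := inv_mem m2
      rwa [mul_inv_rev, hy', hz'] at this

    have c1 : x * (x * y) * x = y * x := by rw [← mul_assoc, hxx, one_mul]
    have c2 : x * (y * z) * x = z * y := by
      rw [← mul_assoc, hrel, mul_assoc, hxx, mul_one]
    have c3 : y * (x * y) * y = y * x := by rw [mul_assoc, mul_assoc, hyy, mul_one]
    have c4 : y * (y * z) * y = z * y := by rw [← mul_assoc, hyy, one_mul]
    have c5 : z * (x * y) * z = y * x := by
      rw [mul_assoc, hrel, ← mul_assoc, ← mul_assoc, hzz, one_mul]
    have c6 : z * (y * z) * z = z * y := by rw [mul_assoc, mul_assoc, hzz, mul_one]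
    have hN : (Subgroup.closure ({x * y, y * z} : Set G)).Normal := by
      apply aux_sf_normal {x, y, z} {x * y, y * z} h3
      · rintro s (rfl | rfl | rfl) t (rfl | rfl)
        · rw [hx', c1]; exact i1
        · rw [hx', c2]; exact i2
        · rw [hy', c3]; exact i1
        · rw [hy', c4]; exact i2
        · rw [hz', c5]; exact i1
        · rw [hz', c6]; exact i2
      · rintro s (rfl | rfl | rfl) t (rfl | rfl)
        · rw [hx', c1]; exact i1
        · rw [hx', c2]; exact i2
        · rw [hy', c3]; exact i1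
        · rw [hy', c4]; exact i2
        · rw [hz', c5]; exact i1
        · rw [hz', c6]; exact i2
    rcases IsSimpleGroup.eq_bot_or_eq_top_of_normal _ hN with h1 | h1
    · have e1 : x * y = 1 := by
        rw [h1, Subgroup.mem_bot] at m1; exact m1
      have e2 : y * z = 1 := by
        rw [h1, Subgroup.mem_bot] at m2; exact m2
      have e3 : y = x := by
        rw [← hx']; exact eq_inv_of_mul_eq_one_right e1
      have e4 : z = x := by
        rw [← e3, ← hy']; exact eq_inv_of_mul_eq_one_right e2
      refine aux_sf_one hnc x (aux_sf_sub ?_ h3)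
      rintro s (rfl | rfl | rfl)
      · exact Subgroup.subset_closure rfl
      · rw [e3]; exact Subgroup.subset_closure rfl
      · rw [e4]; exact Subgroup.subset_closure rfl
    · obtain ⟨a, b, hab⟩ := hnc
      have hc : x * y * (y * z) = y * z * (x * y) := by
        have l : x * y * (y * z) = x * z := by
          rw [mul_assoc, ← mul_assoc y y z, hyy, one_mul]
        have r : y * z * (x * y) = x * z := by
          have : z * (x * y) = y * x * z := by
            have h5 := congrArg (· * z) c5
            simp only [mul_assoc, hzz, mul_one] at h5 ⊢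
            exact h5
          rw [mul_assoc, this, ← mul_assoc, ← mul_assoc, hyy, one_mul]
        rw [l, r]
      refine hab (aux_sf_comm _ ?_ h1 a b)
      rintro a (rfl | rfl) b (rfl | rfl)
      · rfl
      · exact hc
      · exact hc.symm
      · rfl
  · intro a b hab h
    have hrel : a * a * (b * b) = 1 := by rw [← pow_two, ← pow_two, hab]
    have hrel2 : b * b * (a * a) = 1 := by
      have h1 : b * b = (a * a)⁻¹ := eq_inv_of_mul_eq_one_right hrel
      rw [h1, inv_mul_cancel]
    have m : a * b ∈ Subgroup.closure ({a * b} : Set G) := Subgroup.subset_closure rfl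
    have c1 : a * (a * b) * a⁻¹ = (a * b)⁻¹ := by
      rw [eq_comm, inv_eq_iff_mul_eq_one]
      calc a * b * (a * (a * b) * a⁻¹) = a * (b * ((a * a) * (b * b)) * b⁻¹) * a⁻¹ := by group
        _ = 1 := by rw [hrel]; group
    have c2 : a⁻¹ * (a * b) * a = (a * b)⁻¹ := by
      rw [eq_comm, inv_eq_iff_mul_eq_one]
      calc a * b * (a⁻¹ * (a * b) * a) = a * ((b * b) * (a * a)) * a⁻¹ := by group
        _ = 1 := by rw [hrel2]; group
    have c3 : b * (a * b) * b⁻¹ = (a * b)⁻¹ := by
      have : b * (a * b) * b⁻¹ = a⁻¹ * (a * b) * a := by group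
      rw [this, c2]
    have c4 : b⁻¹ * (a * b) * b = (a * b)⁻¹ := by
      have : b⁻¹ * (a * b) * b = (a * b)⁻¹ * (a * (a * b) * a⁻¹) * (a * b) := by group
      rw [this, c1]; group
    have hN : (Subgroup.closure ({a * b} : Set G)).Normal := by
      apply aux_sf_normal {a, b} {a * b} h
      · rintro s (rfl | rfl) t rfl
        · rw [c1]; exact inv_mem m
        · rw [c3]; exact inv_mem m
      · rintro s (rfl | rfl) t rfl
        · rw [c2]; exact inv_mem m
        · rw [c4]; exact inv_mem m
    rcases IsSimpleGroup.eq_bot_or_eq_top_of_normal _ hN with h1 | h1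
    · rw [h1, Subgroup.mem_bot] at m
      have hb : b = a⁻¹ := eq_inv_of_mul_eq_one_right m
      refine aux_sf_one hnc a (aux_sf_sub ?_ h)
      rintro s (rfl | rfl)
      · exact Subgroup.subset_closure rfl
      · rw [hb]; exact inv_mem (Subgroup.subset_closure rfl)
    · exact aux_sf_one hnc _ h1

end Pool.Agent.Helper669_gp.J08
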