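import Mathlib
import Pool.Agent.Helper669_gp.Defs
import Pool.Agent.Helper669_gp.Fam
import Pool.Agent.Helper669_gp.J01
import Pool.Agent.Helper669_gp.J02
import Pool.Agent.Helper669_gp.J08

namespace Pool.Agent.Helper669_gp.J09

open Pool.Agent.Helper669_gp.J01 Pool.Agent.Helper669_gp.J02 Pool.Agent.Helper669_gp.J08

open Finset

def NegCond (kind : Kind) (genus s : ℕ) (ms : List ℕ) : Prop :=
  match kind, genus, s with
  | Kind.oriented, 0, 0 => ms.length ≤ 2 ∨ (ms.length = 4 ∧ ∀ n ∈ ms, Even n)
  | Kind.oriented, 0, 1 => ms.length ≤ 1 ∨ (ms.length = 2 ∧ ∀ n ∈ ms, Even n)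
  | Kind.oriented, 0, 2 => ms.length = 0
  | Kind.oriented, 1, 0 => ms.length = 0
  | Kind.nonoriented, 1, 0 => ms.length ≤ 1 ∨ (ms.length = 2 ∧ ∀ n ∈ ms, Even n)
  | Kind.nonoriented, 1, 1 => ms.length = 0
  | Kind.nonoriented, 2, 0 => ms.length = 0
  | _, _, _ => False

lemma aux_all_bad {α : Type} (S : Finset α) (p : α → Prop) [DecidablePred p]
    (h : ∀ t ∈ S, ¬ p t) :
    (1 : ℝ) * (S.card : ℝ) ≤ ((S.filter fun t => ¬ p t).card : ℝ) := by
  rw [Finset.filter_true_of_mem h, one_mul]

section aux

variable {G : Type} [Group G] [Fintype G] [DecidableEq G]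

lemma aux_XS_length (ms : List ℕ) : ∀ l ∈ XS G ms, l.length = ms.length := by
  induction ms with
  | nil => intro l hl; simp only [XS, mem_singleton] at hl; simp [hl]
  | cons m ms ih =>
    intro l hl
    simp only [XS, mem_image₂] at hl
    obtain ⟨x, _, l', hl', rfl⟩ := hl
    simp [ih l' hl']

lemma aux_tor_even {m : ℕ} (hm : Even m) : tor G 2 ⊆ tor G m := by
  intro x hx
  simp only [tor, mem_filter, mem_univ, true_and] at hx ⊢
  obtain ⟨k, rfl⟩ := hm
  rw [← two_mul, pow_mul, hx, one_pow]

lemma aux_XS_even (ms : List ℕ) (h : ∀ n ∈ ms, Even n) :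
    XS G (List.replicate ms.length 2) ⊆ XS G ms := by
  induction ms with
  | nil => exact Finset.Subset.refl _
  | cons m ms ih =>
    rw [List.length_cons, List.replicate_succ]
    simp only [XS]
    exact Finset.image₂_subset (aux_tor_even (h m (by simp)))
      (ih fun n hn => h n (by simp [hn]))

lemma aux_XS_two (a b : ℕ) (l : List G) :
    l ∈ XS G [a, b] ↔ ∃ x ∈ tor G a, ∃ y ∈ tor G b, l = [x, y] := by
  simp only [XS, mem_image₂, mem_singleton]
  constructor
  · rintro ⟨x, hx, _, ⟨y, hy, _, rfl, rfl⟩, rfl⟩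
    exact ⟨x, hx, y, hy, rfl⟩
  · rintro ⟨x, hx, y, hy, rfl⟩
    exact ⟨x, hx, [y], ⟨y, hy, [], rfl, rfl⟩, rfl⟩

lemma aux_card_XS_two (a b : ℕ) : (XS G [a, b]).card = (tor G a).card * (tor G b).card := by
  rw [← Finset.card_product]
  symm
  apply Finset.card_bij (fun t _ => [t.1, t.2])
  · rintro ⟨x, y⟩ hxy
    rw [Finset.mem_product] at hxy
    rw [aux_XS_two]
    exact ⟨x, hxy.1, y, hxy.2, rfl⟩
  · rintro ⟨x, y⟩ _ ⟨x', y'⟩ _ h
    simpa using h
  · intro l hl
    rw [aux_XS_two] at hl
    obtain ⟨x, hx, y, hy, rfl⟩ := hl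
    exact ⟨(x, y), Finset.mem_product.2 ⟨hx, hy⟩, rfl⟩

lemma aux_XS_four (a b c d : ℕ) (l : List G) (hl : l ∈ XS G [a, b, c, d]) :
    ∃ x ∈ tor G a, ∃ y ∈ tor G b, ∃ z ∈ tor G c, ∃ w ∈ tor G d, l = [x, y, z, w] := by
  simp only [XS, mem_image₂, mem_singleton] at hl
  obtain ⟨x, hx, _, ⟨y, hy, _, ⟨z, hz, _, ⟨w, hw, _, rfl, rfl⟩, rfl⟩, rfl⟩, rfl⟩ := hl
  exact ⟨x, hx, y, hy, z, hz, w, hw, rfl⟩

lemma aux_set_nil : {x : G | x ∈ ([] : List G)} = ∅ := by ext; simp

lemma aux_set_one (a : G) : {x : G | x ∈ [a]} = {a} := by ext; simp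

lemma aux_set_two (a b : G) : {x : G | x ∈ [a, b]} = {a, b} := by ext; simp

lemma aux_set_four (a b c d : G) : {x : G | x ∈ [a, b, c, d]} = {a, b, c, d} := by ext; simp

lemma aux_clos_empty [IsSimpleGroup G] : Subgroup.closure (∅ : Set G) ≠ ⊤ := by
  rw [Subgroup.closure_empty]
  exact bot_ne_top

end aux

theorem neg_abs (C : ℝ) (kind : Kind) (genus s : ℕ) (ms : List ℕ) : ∃ c : ℝ, 0 < c ∧
    ∀ (G : Type) [Group G] [Fintype G] [DecidableEq G] (P : Finset ℕ) (r : ℝ),
      IFace G P r C → 2 * C ≤ r → 2 ∈ P → ¬ Nat.Coprime 2 (Fintype.card G) → IsSimpleGroup G →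
      (∃ a b : G, a * b ≠ b * a) → (∀ m ∈ ms, m ∈ P ∧ ¬ Nat.Coprime m (Fintype.card G)) →
      NegCond kind genus s ms →
      c * (totC kind genus s G ms : ℝ) ≤ (badC kind genus s G ms : ℝ) := by
  classical
  by_cases hC : 1 ≤ C
  swap
  · exact ⟨1, one_pos, fun G _ _ _ P r h => absurd h.one_le_C hC⟩
  have hC0 : 0 < C := lt_of_lt_of_le one_pos hC
  by_cases hN : NegCond kind genus s ms
  swap
  · exact ⟨1, one_pos, fun G _ _ _ P r _ _ _ _ _ _ _ h => absurd h hN⟩
  unfold NegCond at hN
  split at hN
  ·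
    rcases hN with hN | ⟨hN, hev⟩
    · refine ⟨1, one_pos, ?_⟩
      intro G _ _ _ P r h hr h2P h2 hsimp hnc hms _
      obtain ⟨f1, f2, f3, f4, f5⟩ := simple_facts (G := G) hnc
      apply aux_all_bad
      intro l hl
      have hlen := aux_XS_length ms l (Finset.mem_filter.1 hl).1
      have hprod := (Finset.mem_filter.1 hl).2
      unfold O0gen
      have : l.length = 0 ∨ l.length = 1 ∨ l.length = 2 := by omega
      rcases this with h0 | h0 | h0
      · rw [List.length_eq_zero_iff] at h0
        subst h0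
        rw [aux_set_nil]
        exact aux_clos_empty
      · rw [List.length_eq_one_iff] at h0
        obtain ⟨x, rfl⟩ := h0
        rw [aux_set_one]
        exact f1 x
      · rw [List.length_eq_two] at h0
        obtain ⟨x, y, rfl⟩ := h0
        rw [aux_set_two]
        apply f2
        have hxy : x * y = 1 := by simpa using hprod
        rw [hxy, mul_eq_one_iff_eq_inv.1 hxy, mul_inv_cancel]
    · refine ⟨1 / (2 * C) ^ 8, by positivity, ?_⟩
      intro G _ _ _ P r h hr h2P h2 hsimp hnc hms _
      obtain ⟨f1, f2, f3, f4, f5⟩ := simple_facts (G := G) hnc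
      show 1 / (2 * C) ^ 8 * ((O0set G ms).card : ℝ) ≤
        (((O0set G ms).filter fun t => ¬ O0gen t).card : ℝ)
      obtain ⟨B, _, _, _, _, _, _, hlow⟩ := cntA_lower h hr
      have h1 := hlow [2, 2, 2, 2] (by
        intro m hm
        simp only [List.mem_cons, List.not_mem_nil, or_false, or_self] at hm
        subst hm
        exact ⟨h2P, h2⟩) (by simp) 1
      have h2' := (cntA_upper h ms (fun m hm => (hms m hm).1)).2.2 1 (Or.inl (by omega))
      rw [hN] at h2'
      have h3 : cntA G [2, 2, 2, 2] (1 : G) ≤ ((O0set G ms).filter fun t => ¬ O0gen t).card := by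
        unfold cntA
        apply Finset.card_le_card
        intro l hl
        rw [Finset.mem_filter] at hl
        have hsub := aux_XS_even (G := G) ms hev
        rw [hN] at hsub
        rw [Finset.mem_filter]
        refine ⟨Finset.mem_filter.2 ⟨hsub hl.1, hl.2⟩, ?_⟩
        obtain ⟨x, hx, y, hy, z, hz, w, hw, rfl⟩ := aux_XS_four 2 2 2 2 l hl.1
        unfold O0gen
        rw [aux_set_four]
        simp only [tor, mem_filter, mem_univ, true_and] at hx hy hz hw
        apply f4 x y z w hx hy hz hw
        have := hl.2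
        simp only [List.prod_cons, List.prod_nil, mul_one] at this
        rw [← this]
        group
      have h3' : (cntA G [2, 2, 2, 2] (1 : G) : ℝ) ≤
          (((O0set G ms).filter fun t => ¬ O0gen t).card : ℝ) := by exact_mod_cast h3
      refine le_trans ?_ h3'
      have h4 : (O0set G ms).card = cntA G ms 1 := rfl
      rw [h4]
      have hlen4 : ([2, 2, 2, 2] : List ℕ).length = 4 := rfl
      rw [hlen4] at h1
      rw [div_mul_eq_mul_div, div_le_iff₀ (by positivity), one_mul]
      calc (cntA G ms (1 : G) : ℝ) ≤ (2 * C) ^ 4 * r ^ (4 * 4 - 6) := h2'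
        _ ≤ (2 * C) ^ 4 * ((2 * C) ^ 4 * (cntA G [2, 2, 2, 2] (1 : G) : ℝ)) := by
            gcongr
        _ = (cntA G [2, 2, 2, 2] (1 : G) : ℝ) * (2 * C) ^ 8 := by ring
  ·
    rcases hN with hN | ⟨hN, hev⟩
    · refine ⟨1, one_pos, ?_⟩
      intro G _ _ _ P r h hr h2P h2 hsimp hnc hms _
      obtain ⟨f1, f2, f3, f4, f5⟩ := simple_facts (G := G) hnc
      apply aux_all_bad
      rintro ⟨l, f⟩ hl
      have hlen := aux_XS_length ms l (Finset.mem_product.1 hl).1
      unfold FPgen
      rw [Set.range_eq_empty, Set.union_empty]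
      have : l.length = 0 ∨ l.length = 1 := by omega
      rcases this with h0 | h0
      · rw [List.length_eq_zero_iff] at h0
        subst h0
        rw [aux_set_nil]
        exact aux_clos_empty
      · rw [List.length_eq_one_iff] at h0
        obtain ⟨x, rfl⟩ := h0
        rw [aux_set_one]
        exact f1 x
    · refine ⟨1 / C ^ 4, by positivity, ?_⟩
      intro G _ _ _ P r h hr h2P h2 hsimp hnc hms _
      obtain ⟨f1, f2, f3, f4, f5⟩ := simple_facts (G := G) hnc
      have hr0 : 0 ≤ r := le_trans zero_le_one h.one_le_r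
      show 1 / C ^ 4 * ((FPset G 0 ms).card : ℝ) ≤
        (((FPset G 0 ms).filter fun t => ¬ FPgen t).card : ℝ)
      have h1 := (cntA_upper h ms (fun m hm => (hms m hm).1)).1
      rw [hN] at h1
      have h3 : (tor G 2).card * (tor G 2).card ≤
          ((FPset G 0 ms).filter fun t => ¬ FPgen t).card := by
        rw [← aux_card_XS_two]
        have h4 : (XS G [2, 2]).card = (XS G [2, 2] ×ˢ (univ : Finset (Fin 0 → G))).card := by
          rw [Finset.card_product]; simp
        rw [h4]
        apply Finset.card_le_card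
        rintro ⟨l, f⟩ hl
        rw [Finset.mem_product] at hl
        have hsub := aux_XS_even (G := G) ms hev
        rw [hN] at hsub
        rw [Finset.mem_filter]
        refine ⟨Finset.mem_product.2 ⟨hsub hl.1, hl.2⟩, ?_⟩
        obtain ⟨x, hx, y, hy, h5⟩ := (aux_XS_two 2 2 l).1 hl.1
        subst h5
        unfold FPgen
        rw [Set.range_eq_empty, Set.union_empty, aux_set_two]
        simp only [tor, mem_filter, mem_univ, true_and] at hx hy
        exact f3 x y hx hy
      have h3' : ((tor G 2).card : ℝ) * ((tor G 2).card : ℝ) ≤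
          (((FPset G 0 ms).filter fun t => ¬ FPgen t).card : ℝ) := by exact_mod_cast h3
      refine le_trans ?_ h3'
      have h4 : (FPset G 0 ms).card = (XS G ms).card := by
        unfold FPset
        rw [Finset.card_product]; simp
      rw [h4]
      have h5 := h.le_tor 2 h2P h2
      rw [div_mul_eq_mul_div, div_le_iff₀ (by positivity), one_mul]
      calc ((XS G ms).card : ℝ) ≤ C ^ 2 * r ^ (4 * 2) := h1
        _ = C ^ 2 * (r ^ 4 * r ^ 4) := by ring
        _ ≤ C ^ 2 * ((C * ((tor G 2).card : ℝ)) * (C * ((tor G 2).card : ℝ))) := by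
            gcongr
        _ = ((tor G 2).card : ℝ) * ((tor G 2).card : ℝ) * C ^ 4 := by ring
  ·
    refine ⟨1, one_pos, ?_⟩
    intro G _ _ _ P r h hr h2P h2 hsimp hnc hms _
    obtain ⟨f1, f2, f3, f4, f5⟩ := simple_facts (G := G) hnc
    apply aux_all_bad
    rintro ⟨l, f⟩ hl
    have hlen := aux_XS_length ms l (Finset.mem_product.1 hl).1
    rw [hN, List.length_eq_zero_iff] at hlen
    subst hlen
    unfold FPgen
    rw [aux_set_nil, Set.empty_union]
    have : Set.range f = {f 0} := by
      ext x
      simp only [Set.mem_range, Set.mem_singleton_iff]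
      constructor
      · rintro ⟨i, rfl⟩
        rw [Subsingleton.elim i 0]
      · rintro rfl
        exact ⟨0, rfl⟩
    show ¬ Subgroup.closure (Set.range f) = ⊤
    rw [this]
    exact f1 _
  ·
    refine ⟨1, one_pos, ?_⟩
    intro G _ _ _ P r h hr h2P h2 hsimp hnc hms _
    obtain ⟨f1, f2, f3, f4, f5⟩ := simple_facts (G := G) hnc
    apply aux_all_bad
    rintro ⟨l, a, b⟩ hl
    have hl1 := (Finset.mem_filter.1 hl).1
    have hl2 := (Finset.mem_filter.1 hl).2
    have hlen := aux_XS_length ms l (Finset.mem_product.1 hl1).1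
    rw [hN, List.length_eq_zero_iff] at hlen
    subst hlen
    unfold O1gen
    rw [aux_set_nil, Set.empty_union]
    apply f2
    simp only [List.prod_nil, one_mul] at hl2
    rw [mul_inv_eq_one, mul_inv_eq_iff_eq_mul] at hl2
    exact hl2
  ·
    rcases hN with hN | ⟨hN, hev⟩
    · refine ⟨1, one_pos, ?_⟩
      intro G _ _ _ P r h hr h2P h2 hsimp hnc hms _
      obtain ⟨f1, f2, f3, f4, f5⟩ := simple_facts (G := G) hnc
      apply aux_all_bad
      rintro ⟨l, a⟩ hl
      have hl1 := (Finset.mem_filter.1 hl).1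
      have hl2 := (Finset.mem_filter.1 hl).2
      have hlen := aux_XS_length ms l (Finset.mem_product.1 hl1).1
      unfold N1gen
      have : l.length = 0 ∨ l.length = 1 := by omega
      rcases this with h0 | h0
      · rw [List.length_eq_zero_iff] at h0
        subst h0
        rw [aux_set_nil, Set.empty_union]
        exact f1 a
      · rw [List.length_eq_one_iff] at h0
        obtain ⟨x, rfl⟩ := h0
        rw [aux_set_one, Set.singleton_union]
        apply f2
        simp only [List.prod_cons, List.prod_nil, mul_one] at hl2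
        rw [mul_eq_one_iff_eq_inv.1 hl2]
        group
    · refine ⟨1 / (2 * C ^ 5), by positivity, ?_⟩
      intro G _ _ _ P r h hr h2P h2 hsimp hnc hms _
      obtain ⟨f1, f2, f3, f4, f5⟩ := simple_facts (G := G) hnc
      have hr0 : 0 ≤ r := le_trans zero_le_one h.one_le_r
      show 1 / (2 * C ^ 5) * ((N1set G ms).card : ℝ) ≤
        (((N1set G ms).filter fun t => ¬ N1gen t).card : ℝ)
      have h1 := (cntA_upper h ms (fun m hm => (hms m hm).1)).1
      have h1' := (cntA_upper h ms (fun m hm => (hms m hm).1)).2.1 1 (by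
        rintro rfl; simp at hN)
      rw [hN] at h1 h1'
      have h3 : (tor G 2).card * (tor G 2).card ≤
          ((N1set G ms).filter fun t => ¬ N1gen t).card := by
        rw [← Finset.card_product]
        apply Finset.card_le_card_of_injOn (fun t => ([t.1, t.1], t.2))
        · rintro ⟨x, a⟩ hxa
          rw [Finset.mem_coe, Finset.mem_product] at hxa
          have hx := hxa.1
          have ha := hxa.2
          have hsub := aux_XS_even (G := G) ms hev
          rw [hN] at hsub
          have hmem : [x, x] ∈ XS G ms := hsub ((aux_XS_two 2 2 [x, x]).2 ⟨x, hx, x, hx, rfl⟩)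
          simp only [tor, mem_filter, mem_univ, true_and] at hx ha
          rw [Finset.mem_coe, Finset.mem_filter]
          refine ⟨Finset.mem_filter.2 ⟨Finset.mem_product.2 ⟨hmem, mem_univ _⟩, ?_⟩, ?_⟩
          · simp only [List.prod_cons, List.prod_nil, mul_one]
            rw [ha, ← pow_two, hx, one_mul]
          · unfold N1gen
            have : ({y | y ∈ [x, x]} ∪ {a} : Set G) = {x, a} := by ext; simp [or_comm]
            show ¬ Subgroup.closure ({y | y ∈ [x, x]} ∪ {a} : Set G) = ⊤
            rw [this]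
            exact f3 x a hx ha
        · rintro ⟨x, a⟩ _ ⟨x', a'⟩ _ hh
          simpa using hh
      have h3' : ((tor G 2).card : ℝ) * ((tor G 2).card : ℝ) ≤
          (((N1set G ms).filter fun t => ¬ N1gen t).card : ℝ) := by exact_mod_cast h3
      refine le_trans ?_ h3'
      have h5 := h.le_tor 2 h2P h2
      have h6 : ((N1set G ms).card : ℝ) ≤ C * ((XS G ms).card : ℝ) +
          C * r ^ 4 * (cntA G ms (1 : G) : ℝ) := by
        have e1 : (N1set G ms).card =
            ∑ l ∈ XS G ms, ((univ : Finset G).filter fun a => l.prod * a ^ 2 = 1).card := by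
          unfold N1set
          rw [Finset.card_filter, Finset.sum_product]
          refine Finset.sum_congr rfl fun l _ => ?_
          rw [Finset.card_filter]
        have e2 : (cntA G ms (1 : G) : ℝ) = ∑ l ∈ XS G ms, if l.prod = 1 then (1 : ℝ) else 0 := by
          unfold cntA
          rw [Finset.card_filter]
          push_cast
          rfl
        rw [e1, e2, Finset.mul_sum]
        push_cast
        rw [← nsmul_eq_mul', ← Finset.sum_const, ← Finset.sum_add_distrib]
        apply Finset.sum_le_sum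
        intro l _
        by_cases hl : l.prod = 1
        · rw [if_pos hl, hl]
          have := h.invol_le
          simp only [one_mul, mul_one]
          linarith
        · rw [if_neg hl]
          have h7 := h.sqrt_le (l.prod)⁻¹ (by rwa [ne_eq, inv_eq_one])
          have h8 : ((univ : Finset G).filter fun a => l.prod * a ^ 2 = 1) =
              ((univ : Finset G).filter fun a => a ^ 2 = (l.prod)⁻¹) := by
            ext a
            simp only [mem_filter, mem_univ, true_and]
            rw [mul_eq_one_iff_inv_eq]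
            exact eq_comm
          rw [h8, mul_zero, add_zero]
          exact h7
      rw [div_mul_eq_mul_div, div_le_iff₀ (by positivity), one_mul]
      calc ((N1set G ms).card : ℝ) ≤ C * ((XS G ms).card : ℝ) +
          C * r ^ 4 * (cntA G ms (1 : G) : ℝ) := h6
        _ ≤ C * (C ^ 2 * r ^ (4 * 2)) + C * r ^ 4 * (C ^ (2 - 1) * r ^ (4 * (2 - 1))) := by
            gcongr
        _ = (C ^ 3 + C ^ 2) * (r ^ 4 * r ^ 4) := by norm_num; ring
        _ ≤ (C ^ 3 + C ^ 3) * ((C * ((tor G 2).card : ℝ)) * (C * ((tor G 2).card : ℝ))) := by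
            have : C ^ 2 ≤ C ^ 3 := pow_le_pow_right₀ hC (by norm_num)
            gcongr
        _ = ((tor G 2).card : ℝ) * ((tor G 2).card : ℝ) * (2 * C ^ 5) := by ring
  ·
    refine ⟨1, one_pos, ?_⟩
    intro G _ _ _ P r h hr h2P h2 hsimp hnc hms _
    obtain ⟨f1, f2, f3, f4, f5⟩ := simple_facts (G := G) hnc
    apply aux_all_bad
    rintro ⟨l, f⟩ hl
    change Fin 1 → G at f
    have hlen := aux_XS_length ms l (Finset.mem_product.1 hl).1
    rw [hN, List.length_eq_zero_iff] at hlen
    subst hlen
    unfold FPgen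
    rw [aux_set_nil, Set.empty_union]
    have : Set.range f = {f 0} := by
      ext x
      simp only [Set.mem_range, Set.mem_singleton_iff]
      constructor
      · rintro ⟨i, rfl⟩
        rw [Subsingleton.elim i 0]
      · rintro rfl
        exact ⟨0, rfl⟩
    show ¬ Subgroup.closure (Set.range f) = ⊤
    rw [this]
    exact f1 _
  ·
    refine ⟨1, one_pos, ?_⟩
    intro G _ _ _ P r h hr h2P h2 hsimp hnc hms _
    obtain ⟨f1, f2, f3, f4, f5⟩ := simple_facts (G := G) hnc
    apply aux_all_bad
    rintro ⟨l, a, b⟩ hl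
    have hl1 := (Finset.mem_filter.1 hl).1
    have hl2 := (Finset.mem_filter.1 hl).2
    have hlen := aux_XS_length ms l (Finset.mem_product.1 hl1).1
    rw [hN, List.length_eq_zero_iff] at hlen
    subst hlen
    unfold O1gen
    rw [aux_set_nil, Set.empty_union]
    apply f5
    simpa only [List.prod_nil, one_mul] using hl2
  · exact hN.elim

end Pool.Agent.Helper669_gp.J09
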