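import Mathlib
import Pool.Agent.Helper669_gp.Defs
import Pool.Agent.Helper669_gp.Fam

namespace Pool.Agent.Helper669_gp.J10

open Finset

section general

variable {X G : Type} [Group G]

theorem hom_surj_iff {R : Set (FreeGroup X)} (φ : PresentedGroup R →* G) :
    Function.Surjective φ ↔
      Subgroup.closure (Set.range (fun x => φ (PresentedGroup.of x))) = ⊤ := by
  rw [← MonoidHom.range_eq_top, MonoidHom.range_eq_map, ← PresentedGroup.closure_range_of R,
    MonoidHom.map_closure, ← Set.range_comp]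
  rfl

theorem hom_rel {R : Set (FreeGroup X)} (φ : PresentedGroup R →* G) (r : FreeGroup X)
    (hr : r ∈ R) : FreeGroup.lift (fun x => φ (PresentedGroup.of x)) r = 1 := by
  have h : FreeGroup.lift (fun x => φ (PresentedGroup.of x)) = φ.comp (PresentedGroup.mk R) := by
    ext x
    rw [FreeGroup.lift_apply_of]
    rfl
  rw [h, MonoidHom.comp_apply, PresentedGroup.one_of_mem hr, map_one]

open scoped Classical in
theorem epiProb_of {R : Set (FreeGroup X)} {α : Type} (T : Finset α) (gen : α → Prop)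
    (F : (X → G) → α)
    (h1 : ∀ v : X → G, (∀ r ∈ R, FreeGroup.lift v r = 1) → F v ∈ T)
    (h2 : ∀ t ∈ T, ∃ v : X → G, (∀ r ∈ R, FreeGroup.lift v r = 1) ∧ F v = t)
    (h3 : ∀ v w : X → G, (∀ r ∈ R, FreeGroup.lift v r = 1) → (∀ r ∈ R, FreeGroup.lift w r = 1) →
      F v = F w → v = w)
    (h4 : ∀ v : X → G, (∀ r ∈ R, FreeGroup.lift v r = 1) →
      (Subgroup.closure (Set.range v) = ⊤ ↔ gen (F v))) :
    0 < T.card ∧ epiProb (PresentedGroup R) G =
      1 - ((T.filter fun t => ¬ gen t).card : ℝ) / (T.card : ℝ) := by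
  have hpos : 0 < T.card := Finset.card_pos.2 ⟨F (fun x => (1 : PresentedGroup R →* G)
    (PresentedGroup.of x)), h1 _ (hom_rel _)⟩
  refine ⟨hpos, ?_⟩
  have hinj : ∀ φ ψ : PresentedGroup R →* G, F (fun x => φ (PresentedGroup.of x)) =
      F (fun x => ψ (PresentedGroup.of x)) → φ = ψ := by
    intro φ ψ h
    exact PresentedGroup.ext fun x => congrFun (h3 _ _ (hom_rel φ) (hom_rel ψ) h) x
  have hsur : ∀ t ∈ T, ∃ φ : PresentedGroup R →* G, F (fun x => φ (PresentedGroup.of x)) = t := by
    intro t ht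
    obtain ⟨v, hv, hvt⟩ := h2 t ht
    refine ⟨PresentedGroup.toGroup hv, ?_⟩
    rw [← hvt]
    congr 1
    funext x
    exact PresentedGroup.toGroup.of hv
  have c1 : Nat.card (PresentedGroup R →* G) = T.card := by
    rw [← Fintype.card_coe T, ← Nat.card_eq_fintype_card]
    refine Nat.card_congr (Equiv.ofBijective
      (fun φ => (⟨F (fun x => φ (PresentedGroup.of x)), h1 _ (hom_rel φ)⟩ : T)) ⟨?_, ?_⟩)
    · intro φ ψ h
      exact hinj φ ψ (congrArg Subtype.val h)
    · rintro ⟨t, ht⟩
      obtain ⟨φ, hφ⟩ := hsur t ht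
      exact ⟨φ, Subtype.ext hφ⟩
  have c2 : Nat.card {φ : PresentedGroup R →* G // Function.Surjective φ}
      = (T.filter gen).card := by
    rw [← Fintype.card_coe (T.filter gen), ← Nat.card_eq_fintype_card]
    refine Nat.card_congr (Equiv.ofBijective
      (fun φ => (⟨F (fun x => φ.1 (PresentedGroup.of x)), Finset.mem_filter.2
        ⟨h1 _ (hom_rel φ.1), (h4 _ (hom_rel φ.1)).1 ((hom_surj_iff φ.1).1 φ.2)⟩⟩ :
          (T.filter gen : Finset α))) ⟨?_, ?_⟩)
    · intro φ ψ h
      exact Subtype.ext (hinj φ.1 ψ.1 (congrArg Subtype.val h))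
    · rintro ⟨t, ht⟩
      obtain ⟨ht1, ht2⟩ := Finset.mem_filter.1 ht
      obtain ⟨φ, hφ⟩ := hsur t ht1
      refine ⟨⟨φ, ?_⟩, Subtype.ext hφ⟩
      rw [hom_surj_iff, h4 _ (hom_rel φ), hφ]
      exact ht2
  have c3 := Finset.card_filter_add_card_filter_not (s := T) gen
  have hT : (T.card : ℝ) ≠ 0 := by exact_mod_cast hpos.ne'
  unfold epiProb
  rw [c1, c2, eq_sub_iff_add_eq, ← add_div, ← Nat.cast_add, c3, div_self hT]

end general

section lists

variable {G : Type} [Group G] [Fintype G] [DecidableEq G]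

theorem mem_tor (m : ℕ) (x : G) : x ∈ tor G m ↔ x ^ m = 1 := by
  simp [tor]

theorem mem_XS_ofFn {d : ℕ} (m : Fin d → ℕ) (x : Fin d → G) :
    List.ofFn x ∈ XS G (List.ofFn m) ↔ ∀ i, x i ^ m i = 1 := by
  induction d with
  | zero => simp [XS]
  | succ d ih =>
    rw [List.ofFn_succ, List.ofFn_succ, XS, Finset.mem_image₂]
    constructor
    · rintro ⟨a, ha, l, hl, h⟩
      rw [List.cons.injEq] at h
      rw [h.1, mem_tor] at ha
      rw [h.2, ih] at hl
      exact Fin.cases ha hl
    · intro h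
      exact ⟨x 0, (mem_tor _ _).2 (h 0), _, (ih _ _).2 fun i => h i.succ, rfl⟩

theorem exists_of_mem_XS {d : ℕ} (m : Fin d → ℕ) (l : List G) (h : l ∈ XS G (List.ofFn m)) :
    ∃ x : Fin d → G, List.ofFn x = l := by
  induction d generalizing l with
  | zero =>
    have : l = [] := by simpa [XS] using h
    exact ⟨Fin.elim0, by rw [this]; simp⟩
  | succ d ih =>
    rw [List.ofFn_succ, XS, Finset.mem_image₂] at h
    obtain ⟨a, ha, l', hl', rfl⟩ := h
    obtain ⟨x, rfl⟩ := ih _ l' hl'
    refine ⟨Fin.cons a x, ?_⟩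
    rw [List.ofFn_succ]
    simp

theorem mem_ofFn_set {d : ℕ} (x : Fin d → G) : {z | z ∈ List.ofFn x} = Set.range x := by
  ext z
  simp [List.mem_ofFn]

end lists

section rels

variable {G : Type} [Group G]

theorem oRels_iff {g d s : ℕ} (m : Fin d → ℕ) (v : OGen g d s → G) :
    (∀ r ∈ oRels g m s, FreeGroup.lift v r = 1) ↔
      (∀ i, v (OGen.x i) ^ m i = 1) ∧
      (List.ofFn fun i => v (OGen.x i)).prod * (List.ofFn fun j => v (OGen.y j)).prod *
        (List.ofFn fun k => v (OGen.a k) * v (OGen.b k) * (v (OGen.a k))⁻¹ *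
          (v (OGen.b k))⁻¹).prod = 1 := by
  unfold oRels
  constructor
  · intro h
    refine ⟨fun i => ?_, ?_⟩
    · have := h _ (Or.inl ⟨i, rfl⟩)
      simpa only [map_pow, FreeGroup.lift_apply_of] using this
    · have := h _ (Or.inr rfl)
      simpa only [map_mul, map_list_prod, List.map_ofFn, Function.comp_def, map_inv,
        FreeGroup.lift_apply_of] using this
  · rintro ⟨h1, h2⟩ r (⟨i, rfl⟩ | hr)
    · simpa only [map_pow, FreeGroup.lift_apply_of] using h1 i
    · rw [Set.mem_singleton_iff] at hr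
      subst hr
      simpa only [map_mul, map_list_prod, List.map_ofFn, Function.comp_def, map_inv,
        FreeGroup.lift_apply_of] using h2

theorem nRels_iff {g d s : ℕ} (m : Fin d → ℕ) (v : NGen g d s → G) :
    (∀ r ∈ nRels g m s, FreeGroup.lift v r = 1) ↔
      (∀ i, v (NGen.x i) ^ m i = 1) ∧
      (List.ofFn fun i => v (NGen.x i)).prod * (List.ofFn fun j => v (NGen.y j)).prod *
        (List.ofFn fun k => v (NGen.a k) ^ 2).prod = 1 := by
  unfold nRels
  constructor
  · intro h
    refine ⟨fun i => ?_, ?_⟩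
    · have := h _ (Or.inl ⟨i, rfl⟩)
      simpa only [map_pow, FreeGroup.lift_apply_of] using this
    · have := h _ (Or.inr rfl)
      simpa only [map_mul, map_list_prod, List.map_ofFn, Function.comp_def, map_pow,
        FreeGroup.lift_apply_of] using this
  · rintro ⟨h1, h2⟩ r (⟨i, rfl⟩ | hr)
    · simpa only [map_pow, FreeGroup.lift_apply_of] using h1 i
    · rw [Set.mem_singleton_iff] at hr
      subst hr
      simpa only [map_mul, map_list_prod, List.map_ofFn, Function.comp_def, map_pow,
        FreeGroup.lift_apply_of] using h2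

end rels

section cases

variable {G : Type} [Group G] [Fintype G] [DecidableEq G]

theorem y0_of {P y Y W : G} (h : P * (y * Y) * W = 1) : y = P⁻¹ * (Y * W)⁻¹ := by
  have h1 : (P * y) * (Y * W) = 1 := by rw [← h]; group
  rw [mul_eq_one_iff_eq_inv] at h1
  rw [← h1]; group

theorem rangeO {g d s : ℕ} (v : OGen g d s → G) : Set.range v =
    (Set.range fun i => v (OGen.x i)) ∪ (Set.range fun j => v (OGen.y j)) ∪
      ((Set.range fun k => v (OGen.a k)) ∪ (Set.range fun k => v (OGen.b k))) := by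
  ext z
  constructor
  · rintro ⟨t, rfl⟩
    cases t with
    | a k => exact Or.inr (Or.inl ⟨k, rfl⟩)
    | b k => exact Or.inr (Or.inr ⟨k, rfl⟩)
    | x i => exact Or.inl (Or.inl ⟨i, rfl⟩)
    | y j => exact Or.inl (Or.inr ⟨j, rfl⟩)
  · rintro ((⟨i, rfl⟩ | ⟨i, rfl⟩) | (⟨i, rfl⟩ | ⟨i, rfl⟩))
    · exact ⟨_, rfl⟩
    · exact ⟨_, rfl⟩
    · exact ⟨_, rfl⟩
    · exact ⟨_, rfl⟩

theorem rangeN {g d s : ℕ} (v : NGen g d s → G) : Set.range v =
    (Set.range fun i => v (NGen.x i)) ∪ (Set.range fun j => v (NGen.y j)) ∪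
      (Set.range fun k => v (NGen.a k)) := by
  ext z
  constructor
  · rintro ⟨t, rfl⟩
    cases t with
    | a k => exact Or.inr ⟨k, rfl⟩
    | x i => exact Or.inl (Or.inl ⟨i, rfl⟩)
    | y j => exact Or.inl (Or.inr ⟨j, rfl⟩)
  · rintro ((⟨i, rfl⟩ | ⟨i, rfl⟩) | ⟨i, rfl⟩)
    · exact ⟨_, rfl⟩
    · exact ⟨_, rfl⟩
    · exact ⟨_, rfl⟩

theorem prod_mem_cl {n : ℕ} (f : Fin n → G) (K : Subgroup G) (h : ∀ i, f i ∈ K) :
    (List.ofFn f).prod ∈ K := by
  refine Subgroup.list_prod_mem K fun z hz => ?_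
  rw [List.mem_ofFn] at hz
  obtain ⟨i, rfl⟩ := hz
  exact h i

open scoped Classical in

theorem caseO {g d s r : ℕ} (m : Fin d → ℕ) (e : Fin r ≃ Fin s ⊕ (Fin g ⊕ Fin g)) :
    0 < (FPset G r (List.ofFn m)).card ∧
    epiProb (PresentedGroup (oRels g m (s + 1))) G =
      1 - (((FPset G r (List.ofFn m)).filter fun t => ¬ FPgen t).card : ℝ) /
        ((FPset G r (List.ofFn m)).card : ℝ) := by
  refine epiProb_of (FPset G r (List.ofFn m)) FPgen
    (fun v => (List.ofFn fun i => v (OGen.x i), fun i => Sum.elim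
      (fun j : Fin s => v (OGen.y j.succ)) (Sum.elim (fun k => v (OGen.a k))
        (fun k => v (OGen.b k))) (e i))) ?_ ?_ ?_ ?_
  · intro v hv
    rw [oRels_iff] at hv
    exact Finset.mem_product.2 ⟨(mem_XS_ofFn m _).2 hv.1, Finset.mem_univ _⟩
  · rintro ⟨l, u⟩ ht
    have hl : l ∈ XS G (List.ofFn m) := (Finset.mem_product.1 ht).1
    obtain ⟨x, rfl⟩ := exists_of_mem_XS m l hl
    rw [mem_XS_ofFn] at hl
    let u' : Fin s ⊕ (Fin g ⊕ Fin g) → G := fun i => u (e.symm i)
    let P := (List.ofFn x).prod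
    let Y := (List.ofFn fun j => u' (Sum.inl j)).prod
    let W := (List.ofFn fun k => u' (Sum.inr (Sum.inl k)) * u' (Sum.inr (Sum.inr k)) *
      (u' (Sum.inr (Sum.inl k)))⁻¹ * (u' (Sum.inr (Sum.inr k)))⁻¹).prod
    let v : OGen g d (s + 1) → G := fun t => match t with
      | OGen.a k => u' (Sum.inr (Sum.inl k))
      | OGen.b k => u' (Sum.inr (Sum.inr k))
      | OGen.x i => x i
      | OGen.y j => Fin.cons (α := fun _ => G) (P⁻¹ * (Y * W)⁻¹) (fun j => u' (Sum.inl j)) j
    refine ⟨v, ?_, ?_⟩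
    · rw [oRels_iff]
      refine ⟨hl, ?_⟩
      rw [List.ofFn_succ (f := fun j => v (OGen.y j)), List.prod_cons]
      change P * ((P⁻¹ * (Y * W)⁻¹) * Y) * W = 1
      group
    · refine Prod.ext rfl (funext fun i => ?_)
      change Sum.elim (fun j : Fin s => u' (Sum.inl j)) (Sum.elim
        (fun k => u' (Sum.inr (Sum.inl k))) (fun k => u' (Sum.inr (Sum.inr k)))) (e i) = u i
      have key : ∀ t, Sum.elim (fun j : Fin s => u' (Sum.inl j)) (Sum.elim
        (fun k => u' (Sum.inr (Sum.inl k))) (fun k => u' (Sum.inr (Sum.inr k)))) t = u' t := by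
        rintro (j | k | k) <;> rfl
      rw [key]
      change u (e.symm (e i)) = u i
      rw [Equiv.symm_apply_apply]
  · intro v w hv hw h
    rw [oRels_iff] at hv hw
    rw [Prod.mk.injEq] at h
    obtain ⟨h1, h2⟩ := h
    have hx : ∀ i, v (OGen.x i) = w (OGen.x i) := fun i => congrFun (List.ofFn_injective h1) i
    have hu : ∀ t, Sum.elim (fun j : Fin s => v (OGen.y j.succ)) (Sum.elim (fun k => v (OGen.a k))
        (fun k => v (OGen.b k))) t = Sum.elim (fun j : Fin s => w (OGen.y j.succ))
        (Sum.elim (fun k => w (OGen.a k)) (fun k => w (OGen.b k))) t := by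
      intro t
      have := congrFun h2 (e.symm t)
      rwa [Equiv.apply_symm_apply] at this
    have hy : ∀ j : Fin s, v (OGen.y j.succ) = w (OGen.y j.succ) := fun j => hu (Sum.inl j)
    have ha : ∀ k, v (OGen.a k) = w (OGen.a k) := fun k => hu (Sum.inr (Sum.inl k))
    have hb : ∀ k, v (OGen.b k) = w (OGen.b k) := fun k => hu (Sum.inr (Sum.inr k))
    have hy0 : v (OGen.y 0) = w (OGen.y 0) := by
      have e1 := hv.2
      have e2 := hw.2
      rw [List.ofFn_succ (f := fun j => v (OGen.y j)), List.prod_cons] at e1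
      rw [List.ofFn_succ (f := fun j => w (OGen.y j)), List.prod_cons] at e2
      rw [y0_of e1, y0_of e2]
      simp only [hx, hy, ha, hb]
    funext t
    cases t with
    | a k => exact ha k
    | b k => exact hb k
    | x i => exact hx i
    | y j => exact Fin.cases hy0 hy j
  · intro v hv
    rw [oRels_iff] at hv
    unfold FPgen
    have hle : Set.range v ⊆ (Subgroup.closure ({x | x ∈ List.ofFn fun i => v (OGen.x i)} ∪
        Set.range (fun i => Sum.elim (fun j : Fin s => v (OGen.y j.succ))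
          (Sum.elim (fun k => v (OGen.a k)) (fun k => v (OGen.b k))) (e i))) : Set G) := by
      set K := Subgroup.closure ({x | x ∈ List.ofFn fun i => v (OGen.x i)} ∪
        Set.range (fun i => Sum.elim (fun j : Fin s => v (OGen.y j.succ))
          (Sum.elim (fun k => v (OGen.a k)) (fun k => v (OGen.b k))) (e i))) with hK
      have hx : ∀ i, v (OGen.x i) ∈ K := fun i => Subgroup.subset_closure
        (Or.inl (List.mem_ofFn.2 ⟨i, rfl⟩))
      have hu : ∀ t, Sum.elim (fun j : Fin s => v (OGen.y j.succ)) (Sum.elim (fun k => v (OGen.a k))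
        (fun k => v (OGen.b k))) t ∈ K := fun t => Subgroup.subset_closure
        (Or.inr ⟨e.symm t, by beta_reduce; rw [Equiv.apply_symm_apply]⟩)
      have hy : ∀ j : Fin s, v (OGen.y j.succ) ∈ K := fun j => hu (Sum.inl j)
      have ha : ∀ k, v (OGen.a k) ∈ K := fun k => hu (Sum.inr (Sum.inl k))
      have hb : ∀ k, v (OGen.b k) ∈ K := fun k => hu (Sum.inr (Sum.inr k))
      have hy0 : v (OGen.y 0) ∈ K := by
        have e1 := hv.2
        rw [List.ofFn_succ (f := fun j => v (OGen.y j)), List.prod_cons] at e1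
        rw [y0_of e1]
        refine mul_mem (inv_mem (prod_mem_cl _ _ hx)) (inv_mem (mul_mem (prod_mem_cl _ _ hy)
          (prod_mem_cl _ _ fun k => ?_)))
        exact mul_mem (mul_mem (mul_mem (ha k) (hb k)) (inv_mem (ha k))) (inv_mem (hb k))
      rintro _ ⟨t, rfl⟩
      cases t with
      | a k => exact ha k
      | b k => exact hb k
      | x i => exact hx i
      | y j => exact Fin.cases hy0 hy j
    have hge : ({x | x ∈ List.ofFn fun i => v (OGen.x i)} ∪
        Set.range (fun i => Sum.elim (fun j : Fin s => v (OGen.y j.succ))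
          (Sum.elim (fun k => v (OGen.a k)) (fun k => v (OGen.b k))) (e i))) ⊆
        (Subgroup.closure (Set.range v) : Set G) := by
      rintro z (hz | ⟨i, rfl⟩)
      · obtain ⟨i, rfl⟩ := List.mem_ofFn.1 hz
        exact Subgroup.subset_closure ⟨_, rfl⟩
      · beta_reduce
        rcases e i with j | k | k
        · exact Subgroup.subset_closure ⟨_, rfl⟩
        · exact Subgroup.subset_closure ⟨_, rfl⟩
        · exact Subgroup.subset_closure ⟨_, rfl⟩
    have : Subgroup.closure (Set.range v) = Subgroup.closure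
        ({x | x ∈ List.ofFn fun i => v (OGen.x i)} ∪
        Set.range (fun i => Sum.elim (fun j : Fin s => v (OGen.y j.succ))
          (Sum.elim (fun k => v (OGen.a k)) (fun k => v (OGen.b k))) (e i))) :=
      le_antisymm ((Subgroup.closure_le _).2 hle) ((Subgroup.closure_le _).2 hge)
    rw [this]

open scoped Classical in

theorem caseN {g d s r : ℕ} (m : Fin d → ℕ) (e : Fin r ≃ Fin s ⊕ Fin g) :
    0 < (FPset G r (List.ofFn m)).card ∧
    epiProb (PresentedGroup (nRels g m (s + 1))) G =
      1 - (((FPset G r (List.ofFn m)).filter fun t => ¬ FPgen t).card : ℝ) /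
        ((FPset G r (List.ofFn m)).card : ℝ) := by
  refine epiProb_of (FPset G r (List.ofFn m)) FPgen
    (fun v => (List.ofFn fun i => v (NGen.x i), fun i => Sum.elim
      (fun j : Fin s => v (NGen.y j.succ)) (fun k => v (NGen.a k)) (e i))) ?_ ?_ ?_ ?_
  · intro v hv
    rw [nRels_iff] at hv
    exact Finset.mem_product.2 ⟨(mem_XS_ofFn m _).2 hv.1, Finset.mem_univ _⟩
  · rintro ⟨l, u⟩ ht
    have hl : l ∈ XS G (List.ofFn m) := (Finset.mem_product.1 ht).1
    obtain ⟨x, rfl⟩ := exists_of_mem_XS m l hl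
    rw [mem_XS_ofFn] at hl
    let u' : Fin s ⊕ Fin g → G := fun i => u (e.symm i)
    let P := (List.ofFn x).prod
    let Y := (List.ofFn fun j => u' (Sum.inl j)).prod
    let W := (List.ofFn fun k => u' (Sum.inr k) ^ 2).prod
    let v : NGen g d (s + 1) → G := fun t => match t with
      | NGen.a k => u' (Sum.inr k)
      | NGen.x i => x i
      | NGen.y j => Fin.cons (α := fun _ => G) (P⁻¹ * (Y * W)⁻¹) (fun j => u' (Sum.inl j)) j
    refine ⟨v, ?_, ?_⟩
    · rw [nRels_iff]
      refine ⟨hl, ?_⟩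
      rw [List.ofFn_succ (f := fun j => v (NGen.y j)), List.prod_cons]
      change P * ((P⁻¹ * (Y * W)⁻¹) * Y) * W = 1
      group
    · refine Prod.ext rfl (funext fun i => ?_)
      change Sum.elim (fun j : Fin s => u' (Sum.inl j)) (fun k => u' (Sum.inr k)) (e i) = u i
      have key : ∀ t, Sum.elim (fun j : Fin s => u' (Sum.inl j)) (fun k => u' (Sum.inr k)) t
          = u' t := by
        rintro (j | k) <;> rfl
      rw [key]
      change u (e.symm (e i)) = u i
      rw [Equiv.symm_apply_apply]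
  · intro v w hv hw h
    rw [nRels_iff] at hv hw
    rw [Prod.mk.injEq] at h
    obtain ⟨h1, h2⟩ := h
    have hx : ∀ i, v (NGen.x i) = w (NGen.x i) := fun i => congrFun (List.ofFn_injective h1) i
    have hu : ∀ t, Sum.elim (fun j : Fin s => v (NGen.y j.succ)) (fun k => v (NGen.a k)) t
        = Sum.elim (fun j : Fin s => w (NGen.y j.succ)) (fun k => w (NGen.a k)) t := by
      intro t
      have := congrFun h2 (e.symm t)
      rwa [Equiv.apply_symm_apply] at this
    have hy : ∀ j : Fin s, v (NGen.y j.succ) = w (NGen.y j.succ) := fun j => hu (Sum.inl j)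
    have ha : ∀ k, v (NGen.a k) = w (NGen.a k) := fun k => hu (Sum.inr k)
    have hy0 : v (NGen.y 0) = w (NGen.y 0) := by
      have e1 := hv.2
      have e2 := hw.2
      rw [List.ofFn_succ (f := fun j => v (NGen.y j)), List.prod_cons] at e1
      rw [List.ofFn_succ (f := fun j => w (NGen.y j)), List.prod_cons] at e2
      rw [y0_of e1, y0_of e2]
      simp only [hx, hy, ha]
    funext t
    cases t with
    | a k => exact ha k
    | x i => exact hx i
    | y j => exact Fin.cases hy0 hy j
  · intro v hv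
    rw [nRels_iff] at hv
    unfold FPgen
    have hle : Set.range v ⊆ (Subgroup.closure ({x | x ∈ List.ofFn fun i => v (NGen.x i)} ∪
        Set.range (fun i => Sum.elim (fun j : Fin s => v (NGen.y j.succ))
          (fun k => v (NGen.a k)) (e i))) : Set G) := by
      set K := Subgroup.closure ({x | x ∈ List.ofFn fun i => v (NGen.x i)} ∪
        Set.range (fun i => Sum.elim (fun j : Fin s => v (NGen.y j.succ))
          (fun k => v (NGen.a k)) (e i))) with hK
      have hx : ∀ i, v (NGen.x i) ∈ K := fun i => Subgroup.subset_closure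
        (Or.inl (List.mem_ofFn.2 ⟨i, rfl⟩))
      have hu : ∀ t, Sum.elim (fun j : Fin s => v (NGen.y j.succ)) (fun k => v (NGen.a k)) t ∈ K :=
        fun t => Subgroup.subset_closure
        (Or.inr ⟨e.symm t, by beta_reduce; rw [Equiv.apply_symm_apply]⟩)
      have hy : ∀ j : Fin s, v (NGen.y j.succ) ∈ K := fun j => hu (Sum.inl j)
      have ha : ∀ k, v (NGen.a k) ∈ K := fun k => hu (Sum.inr k)
      have hy0 : v (NGen.y 0) ∈ K := by
        have e1 := hv.2
        rw [List.ofFn_succ (f := fun j => v (NGen.y j)), List.prod_cons] at e1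
        rw [y0_of e1]
        exact mul_mem (inv_mem (prod_mem_cl _ _ hx)) (inv_mem (mul_mem (prod_mem_cl _ _ hy)
          (prod_mem_cl _ _ fun k => pow_mem (ha k) 2)))
      rintro _ ⟨t, rfl⟩
      cases t with
      | a k => exact ha k
      | x i => exact hx i
      | y j => exact Fin.cases hy0 hy j
    have hge : ({x | x ∈ List.ofFn fun i => v (NGen.x i)} ∪
        Set.range (fun i => Sum.elim (fun j : Fin s => v (NGen.y j.succ))
          (fun k => v (NGen.a k)) (e i))) ⊆
        (Subgroup.closure (Set.range v) : Set G) := by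
      rintro z (hz | ⟨i, rfl⟩)
      · obtain ⟨i, rfl⟩ := List.mem_ofFn.1 hz
        exact Subgroup.subset_closure ⟨_, rfl⟩
      · beta_reduce
        rcases e i with j | k
        · exact Subgroup.subset_closure ⟨_, rfl⟩
        · exact Subgroup.subset_closure ⟨_, rfl⟩
    have : Subgroup.closure (Set.range v) = Subgroup.closure
        ({x | x ∈ List.ofFn fun i => v (NGen.x i)} ∪
        Set.range (fun i => Sum.elim (fun j : Fin s => v (NGen.y j.succ))
          (fun k => v (NGen.a k)) (e i))) :=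
      le_antisymm ((Subgroup.closure_le _).2 hle) ((Subgroup.closure_le _).2 hge)
    rw [this]

open scoped Classical in
theorem caseO0 {d : ℕ} (m : Fin d → ℕ) :
    0 < (O0set G (List.ofFn m)).card ∧
    epiProb (PresentedGroup (oRels 0 m 0)) G =
      1 - (((O0set G (List.ofFn m)).filter fun t => ¬ O0gen t).card : ℝ) /
        ((O0set G (List.ofFn m)).card : ℝ) := by
  refine epiProb_of (O0set G (List.ofFn m)) O0gen
    (fun v => List.ofFn fun i => v (OGen.x i)) ?_ ?_ ?_ ?_
  · intro v hv
    rw [oRels_iff] at hv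
    refine Finset.mem_filter.2 ⟨(mem_XS_ofFn m _).2 hv.1, ?_⟩
    simpa using hv.2
  · intro l ht
    obtain ⟨hl, hp⟩ := Finset.mem_filter.1 ht
    obtain ⟨x, rfl⟩ := exists_of_mem_XS m l hl
    rw [mem_XS_ofFn] at hl
    let v : OGen 0 d 0 → G := fun t => match t with
      | OGen.a k => k.elim0
      | OGen.b k => k.elim0
      | OGen.x i => x i
      | OGen.y j => j.elim0
    refine ⟨v, ?_, rfl⟩
    rw [oRels_iff]
    refine ⟨hl, ?_⟩
    have : (List.ofFn fun i => v (OGen.x i)).prod = 1 := hp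
    simp [this]
  · intro v w hv hw h
    funext t
    cases t with
    | a k => exact k.elim0
    | b k => exact k.elim0
    | x i => exact congrFun (List.ofFn_injective h) i
    | y j => exact j.elim0
  · intro v hv
    unfold O0gen
    rw [mem_ofFn_set, rangeO]
    simp

open scoped Classical in
theorem caseO1 {d : ℕ} (m : Fin d → ℕ) :
    0 < (O1set G (List.ofFn m)).card ∧
    epiProb (PresentedGroup (oRels 1 m 0)) G =
      1 - (((O1set G (List.ofFn m)).filter fun t => ¬ O1gen t).card : ℝ) /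
        ((O1set G (List.ofFn m)).card : ℝ) := by
  refine epiProb_of (O1set G (List.ofFn m)) O1gen
    (fun v => (List.ofFn fun i => v (OGen.x i), v (OGen.a 0), v (OGen.b 0))) ?_ ?_ ?_ ?_
  · intro v hv
    rw [oRels_iff] at hv
    refine Finset.mem_filter.2 ⟨Finset.mem_product.2 ⟨(mem_XS_ofFn m _).2 hv.1,
      Finset.mem_univ _⟩, ?_⟩
    simpa using hv.2
  · rintro ⟨l, a, b⟩ ht
    obtain ⟨hl', hp⟩ := Finset.mem_filter.1 ht
    have hl := (Finset.mem_product.1 hl').1
    obtain ⟨x, rfl⟩ := exists_of_mem_XS m l hl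
    rw [mem_XS_ofFn] at hl
    let v : OGen 1 d 0 → G := fun t => match t with
      | OGen.a _ => a
      | OGen.b _ => b
      | OGen.x i => x i
      | OGen.y j => j.elim0
    refine ⟨v, ?_, rfl⟩
    rw [oRels_iff]
    refine ⟨hl, ?_⟩
    have h1 : (List.ofFn fun i => v (OGen.x i)).prod * (a * b * a⁻¹ * b⁻¹) = 1 := hp
    have h2 : (List.ofFn fun k => v (OGen.a k) * v (OGen.b k) * (v (OGen.a k))⁻¹ *
          (v (OGen.b k))⁻¹).prod = a * b * a⁻¹ * b⁻¹ := by
      rw [List.ofFn_succ]
      simp [v]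
    rw [h2]
    simpa using h1
  · intro v w hv hw h
    rw [Prod.mk.injEq, Prod.mk.injEq] at h
    funext t
    cases t with
    | a k => rw [Subsingleton.elim k 0]; exact h.2.1
    | b k => rw [Subsingleton.elim k 0]; exact h.2.2
    | x i => exact congrFun (List.ofFn_injective h.1) i
    | y j => exact j.elim0
  · intro v hv
    unfold O1gen
    have e1 : (Set.range fun k : Fin 1 => v (OGen.a k)) = {v (OGen.a 0)} := by
      ext z; simp [eq_comm]
    have e2 : (Set.range fun k : Fin 1 => v (OGen.b k)) = {v (OGen.b 0)} := by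
      ext z; simp [eq_comm]
    have e3 : (Set.range fun k : Fin 0 => v (OGen.y k)) = ∅ := by simp
    rw [mem_ofFn_set, rangeO, e1, e2, e3, Set.union_empty, Set.singleton_union]

open scoped Classical in
theorem caseN1 {d : ℕ} (m : Fin d → ℕ) :
    0 < (N1set G (List.ofFn m)).card ∧
    epiProb (PresentedGroup (nRels 1 m 0)) G =
      1 - (((N1set G (List.ofFn m)).filter fun t => ¬ N1gen t).card : ℝ) /
        ((N1set G (List.ofFn m)).card : ℝ) := by
  refine epiProb_of (N1set G (List.ofFn m)) N1gen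
    (fun v => (List.ofFn fun i => v (NGen.x i), v (NGen.a 0))) ?_ ?_ ?_ ?_
  · intro v hv
    rw [nRels_iff] at hv
    refine Finset.mem_filter.2 ⟨Finset.mem_product.2 ⟨(mem_XS_ofFn m _).2 hv.1,
      Finset.mem_univ _⟩, ?_⟩
    simpa using hv.2
  · rintro ⟨l, a⟩ ht
    obtain ⟨hl', hp⟩ := Finset.mem_filter.1 ht
    have hl := (Finset.mem_product.1 hl').1
    obtain ⟨x, rfl⟩ := exists_of_mem_XS m l hl
    rw [mem_XS_ofFn] at hl
    let v : NGen 1 d 0 → G := fun t => match t with
      | NGen.a _ => a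
      | NGen.x i => x i
      | NGen.y j => j.elim0
    refine ⟨v, ?_, rfl⟩
    rw [nRels_iff]
    refine ⟨hl, ?_⟩
    have h1 : (List.ofFn fun i => v (NGen.x i)).prod * a ^ 2 = 1 := hp
    have h2 : (List.ofFn fun k => v (NGen.a k) ^ 2).prod = a ^ 2 := by
      rw [List.ofFn_succ]
      simp [v]
    rw [h2]
    simpa using h1
  · intro v w hv hw h
    rw [Prod.mk.injEq] at h
    funext t
    cases t with
    | a k => rw [Subsingleton.elim k 0]; exact h.2
    | x i => exact congrFun (List.ofFn_injective h.1) i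
    | y j => exact j.elim0
  · intro v hv
    unfold N1gen
    have e1 : (Set.range fun k : Fin 1 => v (NGen.a k)) = {v (NGen.a 0)} := by
      ext z; simp [eq_comm]
    have e3 : (Set.range fun k : Fin 0 => v (NGen.y k)) = ∅ := by simp
    rw [mem_ofFn_set, rangeN, e1, e3, Set.union_empty]

open scoped Classical in
theorem caseN2 {d : ℕ} (m : Fin d → ℕ) :
    0 < (N2set G (List.ofFn m)).card ∧
    epiProb (PresentedGroup (nRels 2 m 0)) G =
      1 - (((N2set G (List.ofFn m)).filter fun t => ¬ O1gen t).card : ℝ) /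
        ((N2set G (List.ofFn m)).card : ℝ) := by
  refine epiProb_of (N2set G (List.ofFn m)) O1gen
    (fun v => (List.ofFn fun i => v (NGen.x i), v (NGen.a 0), v (NGen.a 1))) ?_ ?_ ?_ ?_
  · intro v hv
    rw [nRels_iff] at hv
    refine Finset.mem_filter.2 ⟨Finset.mem_product.2 ⟨(mem_XS_ofFn m _).2 hv.1,
      Finset.mem_univ _⟩, ?_⟩
    simpa using hv.2
  · rintro ⟨l, a, b⟩ ht
    obtain ⟨hl', hp⟩ := Finset.mem_filter.1 ht
    have hl := (Finset.mem_product.1 hl').1
    obtain ⟨x, rfl⟩ := exists_of_mem_XS m l hl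
    rw [mem_XS_ofFn] at hl
    let v : NGen 2 d 0 → G := fun t => match t with
      | NGen.a k => if k = 0 then a else b
      | NGen.x i => x i
      | NGen.y j => j.elim0
    refine ⟨v, ?_, rfl⟩
    rw [nRels_iff]
    refine ⟨hl, ?_⟩
    have h1 : (List.ofFn fun i => v (NGen.x i)).prod * (a ^ 2 * b ^ 2) = 1 := hp
    have h2 : (List.ofFn fun k => v (NGen.a k) ^ 2).prod = a ^ 2 * b ^ 2 := by
      rw [List.ofFn_succ, List.ofFn_succ]
      simp [v]
    rw [h2]
    simpa using h1
  · intro v w hv hw h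
    rw [Prod.mk.injEq, Prod.mk.injEq] at h
    funext t
    cases t with
    | a k =>
      fin_cases k
      · exact h.2.1
      · exact h.2.2
    | x i => exact congrFun (List.ofFn_injective h.1) i
    | y j => exact j.elim0
  · intro v hv
    unfold O1gen
    have e1 : (Set.range fun k : Fin 2 => v (NGen.a k)) = {v (NGen.a 0), v (NGen.a 1)} := by
      ext z; simp [eq_comm]
    have e3 : (Set.range fun k : Fin 0 => v (NGen.y k)) = ∅ := by simp
    rw [mem_ofFn_set, rangeN, e1, e3, Set.union_empty]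

end cases

theorem epiProb_eq (kind : Kind) (genus d : ℕ) (m : Fin d → ℕ) (s : ℕ) (h : InRange kind genus)
    (G : Type) [Group G] [Fintype G] [DecidableEq G] :
    0 < totC kind genus s G (List.ofFn m) ∧
    epiProb (Signature.Grp ⟨kind, genus, d, m, s⟩) G =
      1 - (badC kind genus s G (List.ofFn m) : ℝ) / (totC kind genus s G (List.ofFn m) : ℝ) := by
  rcases h with ⟨rfl, rfl | rfl⟩ | ⟨rfl, rfl | rfl⟩
  · cases s with
    | zero => exact caseO0 m
    | succ s => exact caseO m (Fintype.equivOfCardEq (by simp))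
  · cases s with
    | zero => exact caseO1 m
    | succ s => exact caseO m (Fintype.equivOfCardEq (by simp))
  · cases s with
    | zero => exact caseN1 m
    | succ s => exact caseN m (Fintype.equivOfCardEq (by simp))
  · cases s with
    | zero => exact caseN2 m
    | succ s => exact caseN m (Fintype.equivOfCardEq (by simp))

end Pool.Agent.Helper669_gp.J10
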