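import Mathlib
import Pool.Agent.Helper669_gp.Defs
import Pool.Agent.Helper669_gp.Fam

namespace Pool.Agent.Helper669_gp.J11

open Finset

section FilterEffAux

variable {G : Type} [Group G] [Fintype G] [DecidableEq G]

theorem fe_tor_eq {m : ℕ} (h : Nat.Coprime m (Fintype.card G)) : tor G m = {1} := by
  ext x
  rw [tor, Finset.mem_filter, Finset.mem_singleton]
  constructor
  · rintro ⟨-, hx⟩
    have h1 : orderOf x ∣ m := orderOf_dvd_of_pow_eq_one hx
    have h2 : orderOf x ∣ Fintype.card G := orderOf_dvd_card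
    have h3 := Nat.dvd_gcd h1 h2
    rw [Nat.Coprime] at h
    rw [h] at h3
    exact orderOf_eq_one_iff.1 (Nat.dvd_one.1 h3)
  · rintro rfl
    exact ⟨Finset.mem_univ _, one_pow m⟩

theorem fe_sum_XS_cons (m : ℕ) (ms : List ℕ) (f : List G → ℕ) :
    ∑ l ∈ XS G (m :: ms), f l = ∑ x ∈ tor G m, ∑ l ∈ XS G ms, f (x :: l) := by
  rw [XS, ← Finset.image_uncurry_product, Finset.sum_image, Finset.sum_product]
  · rfl
  · rintro ⟨a, l⟩ _ ⟨b, l'⟩ _ h
    simpa using h

theorem fe_closure_cons (x : G) (l : List G) :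
    Subgroup.closure {y | y ∈ x :: l} = Subgroup.closure {x} ⊔ Subgroup.closure {y | y ∈ l} := by
  rw [← Subgroup.closure_union]
  congr 1
  ext y
  simp

theorem fe_sum (ms : List ℕ) : ∀ F : G → Subgroup G → ℕ,
    ∑ l ∈ XS G ms, F l.prod (Subgroup.closure {x | x ∈ l}) =
      ∑ l ∈ XS G (ms.filter fun k => ¬ Nat.Coprime k (Fintype.card G)),
        F l.prod (Subgroup.closure {x | x ∈ l}) := by
  induction ms with
  | nil => intro F; rfl
  | cons m ms ih =>
    intro F
    rw [fe_sum_XS_cons]
    by_cases hm : Nat.Coprime m (Fintype.card G)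
    · rw [List.filter_cons_of_neg (by simpa using hm), fe_tor_eq hm, Finset.sum_singleton, ← ih F]
      refine Finset.sum_congr rfl fun l _ => ?_
      rw [List.prod_cons, one_mul, fe_closure_cons, Subgroup.closure_singleton_one, bot_sup_eq]
    · rw [List.filter_cons_of_pos (by simpa using hm), fe_sum_XS_cons]
      refine Finset.sum_congr rfl fun x _ => ?_
      have := ih (fun p H => F (x * p) (Subgroup.closure {x} ⊔ H))
      simp only [List.prod_cons, fe_closure_cons]
      exact this

theorem fe_gen {β : Type*} [Fintype β] (ms : List ℕ) (p : List G × β → Prop) [DecidablePred p]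
    (q : G → Subgroup G → β → Prop)
    (hq : ∀ (l : List G) (b : β), p (l, b) ↔ q l.prod (Subgroup.closure {x | x ∈ l}) b) :
    ((XS G ms ×ˢ (univ : Finset β)).filter p).card =
      ((XS G (ms.filter fun k => ¬ Nat.Coprime k (Fintype.card G)) ×ˢ
        (univ : Finset β)).filter p).card := by
  classical
  rw [Finset.card_filter, Finset.card_filter, Finset.sum_product, Finset.sum_product]
  have h1 : ∀ l : List G, ∑ b : β, (if p (l, b) then 1 else 0) =
      ∑ b : β, (if q l.prod (Subgroup.closure {x | x ∈ l}) b then 1 else 0) := by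
    intro l
    refine Finset.sum_congr rfl fun b _ => ?_
    simp only [hq]
  simp only [h1]
  exact fe_sum ms (fun P H => ∑ b : β, (if q P H b then 1 else 0))

theorem fe_gen' (ms : List ℕ) (p : List G → Prop) [DecidablePred p]
    (q : G → Subgroup G → Prop)
    (hq : ∀ (l : List G), p l ↔ q l.prod (Subgroup.closure {x | x ∈ l})) :
    ((XS G ms).filter p).card =
      ((XS G (ms.filter fun k => ¬ Nat.Coprime k (Fintype.card G))).filter p).card := by
  classical
  rw [Finset.card_filter, Finset.card_filter]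
  have h1 : ∀ l : List G, (if p l then 1 else 0) =
      (if q l.prod (Subgroup.closure {x | x ∈ l}) then 1 else 0) := by
    intro l
    simp only [hq]
  simp only [h1]
  exact fe_sum ms (fun P H => (if q P H then 1 else 0))

theorem fe_FP_tot (r : ℕ) (ms : List ℕ) : (FPset G r ms).card =
    (FPset G r (ms.filter fun k => ¬ Nat.Coprime k (Fintype.card G))).card := by
  have := fe_gen (G := G) (β := Fin r → G) ms (fun _ => True) (fun _ _ _ => True)
    (fun _ _ => Iff.rfl)
  rw [Finset.filter_true, Finset.filter_true] at this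
  exact this

open scoped Classical in
theorem fe_FP_bad (r : ℕ) (ms : List ℕ) : ((FPset G r ms).filter fun t => ¬ FPgen t).card =
    ((FPset G r (ms.filter fun k => ¬ Nat.Coprime k (Fintype.card G))).filter
      fun t => ¬ FPgen t).card := by
  refine fe_gen (G := G) (β := Fin r → G) ms _
    (fun _ H b => ¬ (H ⊔ Subgroup.closure (Set.range b) = ⊤)) (fun l b => ?_)
  rw [FPgen, Subgroup.closure_union]

end FilterEffAux

theorem filter_eff (kind : Kind) (genus s : ℕ) (G : Type) [Group G] [Fintype G] [DecidableEq G]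
    (ms : List ℕ) :
    totC kind genus s G ms =
      totC kind genus s G (ms.filter fun k => ¬ Nat.Coprime k (Fintype.card G)) ∧
    badC kind genus s G ms =
      badC kind genus s G (ms.filter fun k => ¬ Nat.Coprime k (Fintype.card G)) := by
  classical
  match kind, genus, s with
  | Kind.oriented, 0, 0 =>
    refine ⟨?_, ?_⟩
    · exact fe_gen' ms _ (fun p _ => p = 1) (fun l => Iff.rfl)
    · change ((O0set G ms).filter fun t => ¬ O0gen t).card =
        ((O0set G (ms.filter fun k => ¬ Nat.Coprime k (Fintype.card G))).filter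
          fun t => ¬ O0gen t).card
      rw [O0set, O0set, Finset.filter_filter, Finset.filter_filter]
      exact fe_gen' ms _ (fun p H => p = 1 ∧ ¬ (H = ⊤)) (fun l => Iff.rfl)
  | Kind.oriented, 0, s + 1 => exact ⟨fe_FP_tot s ms, fe_FP_bad s ms⟩
  | Kind.oriented, 1, 0 =>
    refine ⟨?_, ?_⟩
    · exact fe_gen ms _ (fun p _ (t : G × G) => p * (t.1 * t.2 * t.1⁻¹ * t.2⁻¹) = 1)
        (fun l t => Iff.rfl)
    · change ((O1set G ms).filter fun t => ¬ O1gen t).card =
        ((O1set G (ms.filter fun k => ¬ Nat.Coprime k (Fintype.card G))).filter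
          fun t => ¬ O1gen t).card
      rw [O1set, O1set, Finset.filter_filter, Finset.filter_filter]
      refine fe_gen ms _ (fun p H (t : G × G) => p * (t.1 * t.2 * t.1⁻¹ * t.2⁻¹) = 1 ∧
        ¬ (H ⊔ Subgroup.closure {t.1, t.2} = ⊤)) (fun l t => ?_)
      rw [O1gen, Subgroup.closure_union]
  | Kind.oriented, 1, s + 1 => exact ⟨fe_FP_tot (s + 2) ms, fe_FP_bad (s + 2) ms⟩
  | Kind.oriented, g + 2, s => exact ⟨rfl, rfl⟩
  | Kind.nonoriented, 0, s => exact ⟨rfl, rfl⟩
  | Kind.nonoriented, 1, 0 =>
    refine ⟨?_, ?_⟩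
    · exact fe_gen ms _ (fun p _ (t : G) => p * t ^ 2 = 1) (fun l t => Iff.rfl)
    · change ((N1set G ms).filter fun t => ¬ N1gen t).card =
        ((N1set G (ms.filter fun k => ¬ Nat.Coprime k (Fintype.card G))).filter
          fun t => ¬ N1gen t).card
      rw [N1set, N1set, Finset.filter_filter, Finset.filter_filter]
      refine fe_gen ms _ (fun p H (t : G) => p * t ^ 2 = 1 ∧
        ¬ (H ⊔ Subgroup.closure {t} = ⊤)) (fun l t => ?_)
      rw [N1gen, Subgroup.closure_union]
  | Kind.nonoriented, 1, s + 1 => exact ⟨fe_FP_tot (s + 1) ms, fe_FP_bad (s + 1) ms⟩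
  | Kind.nonoriented, 2, 0 =>
    refine ⟨?_, ?_⟩
    · exact fe_gen ms _ (fun p _ (t : G × G) => p * (t.1 ^ 2 * t.2 ^ 2) = 1) (fun l t => Iff.rfl)
    · change ((N2set G ms).filter fun t => ¬ O1gen t).card =
        ((N2set G (ms.filter fun k => ¬ Nat.Coprime k (Fintype.card G))).filter
          fun t => ¬ O1gen t).card
      rw [N2set, N2set, Finset.filter_filter, Finset.filter_filter]
      refine fe_gen ms _ (fun p H (t : G × G) => p * (t.1 ^ 2 * t.2 ^ 2) = 1 ∧
        ¬ (H ⊔ Subgroup.closure {t.1, t.2} = ⊤)) (fun l t => ?_)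
      rw [O1gen, Subgroup.closure_union]
  | Kind.nonoriented, 2, s + 1 => exact ⟨fe_FP_tot (s + 2) ms, fe_FP_bad (s + 2) ms⟩
  | Kind.nonoriented, g + 3, s => exact ⟨rfl, rfl⟩

end Pool.Agent.Helper669_gp.J11
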