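import Mathlib
import Pool.Agent.Helper669_gp.Defs
import Pool.Agent.Helper669_gp.Fam

namespace Pool.Agent.Helper669_gp.J12

open scoped MatrixGroups

theorem epiProb_congr (Γ : Type) [Group Γ] {G H : Type} [Group G] [Group H] (e : G ≃* H) :
    epiProb Γ G = epiProb Γ H := by
  let E : (Γ →* G) ≃ (Γ →* H) :=
    { toFun := fun φ => e.toMonoidHom.comp φ
      invFun := fun φ => e.symm.toMonoidHom.comp φ
      left_inv := fun φ => by ext x; simp
      right_inv := fun φ => by ext x; simp }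
  have h1 : Nat.card (Γ →* G) = Nat.card (Γ →* H) := Nat.card_congr E
  have h2 : Nat.card {φ : Γ →* G // Function.Surjective φ} =
      Nat.card {φ : Γ →* H // Function.Surjective φ} := by
    refine Nat.card_congr (E.subtypeEquiv ?_)
    intro φ
    constructor
    · intro h
      exact e.surjective.comp h
    · intro h y
      obtain ⟨x, hx⟩ := h (e y)
      exact ⟨x, e.injective hx⟩
  unfold epiProb
  rw [h1, h2]

open Classical in

noncomputable def table (n : ℕ) (G : GrpCat.{0}) : Fin n → Fin n → Fin n :=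
  if h : Nonempty (G ≃ Fin n) then fun i j => h.some (h.some.symm i * h.some.symm j)
  else fun i _ => i

theorem table_iso {n : ℕ} {G H : GrpCat.{0}} (hG : Nonempty (G ≃ Fin n))
    (hH : Nonempty (H ≃ Fin n)) (h : table n G = table n H) : Nonempty (G ≃* H) := by
  classical
  unfold table at h
  rw [dif_pos hG, dif_pos hH] at h
  refine ⟨{ toEquiv := hG.some.trans hH.some.symm, map_mul' := ?_ }⟩
  intro x y
  have h1 := congrFun (congrFun h (hG.some x)) (hG.some y)
  simp only [Equiv.symm_apply_apply] at h1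
  show hH.some.symm (hG.some (x * y)) = hH.some.symm (hG.some x) * hH.some.symm (hG.some y)
  rw [h1, Equiv.symm_apply_apply]

theorem finite_of_card_eq (S : Set GrpCat.{0})
    (hiso : ∀ G ∈ S, ∀ H ∈ S, Nonempty (G ≃* H) → G = H) (n : ℕ) :
    {G ∈ S | Nonempty (G ≃ Fin n)}.Finite := by
  refine Set.Finite.of_finite_image (f := table n) (Set.toFinite _) ?_
  rintro G ⟨hG, hG'⟩ H ⟨hH, hH'⟩ h
  exact hiso G hG H hH (table_iso hG' hH' h)

theorem finite_of_card_le (S : Set GrpCat.{0})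
    (hiso : ∀ G ∈ S, ∀ H ∈ S, Nonempty (G ≃* H) → G = H) (M : ℕ) :
    {G ∈ S | Finite G ∧ Nat.card G ≤ M}.Finite := by
  have h : {G ∈ S | Finite G ∧ Nat.card G ≤ M} ⊆
      ⋃ n ∈ Set.Iic M, {G ∈ S | Nonempty (G ≃ Fin n)} := by
    rintro G ⟨hG, hf, hM⟩
    have := hf
    simp only [Set.mem_iUnion]
    exact ⟨Nat.card G, hM, hG, ⟨Finite.equivFin G⟩⟩
  exact ((Set.finite_Iic M).biUnion fun n _ => finite_of_card_eq S hiso n).subset h

theorem psl_finite (F : Type) [Field F] [Finite F] :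
    Finite PSL(2, F) ∧ Nat.card PSL(2, F) ≤ Nat.card F ^ 4 := by
  have hm : Finite (Matrix (Fin 2) (Fin 2) F) := inferInstanceAs (Finite (Fin 2 → Fin 2 → F))
  have hsl : Finite (Matrix.SpecialLinearGroup (Fin 2) F) :=
    Finite.of_injective (fun A => (A : Matrix (Fin 2) (Fin 2) F)) Subtype.val_injective
  have hsurj : Function.Surjective
      (QuotientGroup.mk : Matrix.SpecialLinearGroup (Fin 2) F → PSL(2, F)) :=
    QuotientGroup.mk_surjective
  have h1 : Finite PSL(2, F) := Finite.of_surjective _ hsurj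
  refine ⟨h1, ?_⟩
  have h2 : Nat.card PSL(2, F) ≤ Nat.card (Matrix.SpecialLinearGroup (Fin 2) F) :=
    Nat.card_le_card_of_surjective _ hsurj
  have h3 : Nat.card (Matrix.SpecialLinearGroup (Fin 2) F) ≤
      Nat.card (Matrix (Fin 2) (Fin 2) F) :=
    Nat.card_le_card_of_injective (fun A => (A : Matrix (Fin 2) (Fin 2) F)) Subtype.val_injective
  have h4 : Nat.card (Matrix (Fin 2) (Fin 2) F) = Nat.card F ^ 4 := by
    show Nat.card (Fin 2 → Fin 2 → F) = _
    rw [Nat.card_pi]
    simp only [Nat.card_pi, Finset.prod_const, Finset.card_univ, Fintype.card_fin]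
    ring
  omega

theorem small_finite (S : Set GrpCat.{0})
    (hiso : ∀ G ∈ S, ∀ H ∈ S, Nonempty (G ≃* H) → G = H) (N : ℕ) :
    {G ∈ S | ∃ (F : Type) (_ : Field F), Finite F ∧ Nat.card F < N ∧
      Nonempty (G ≃* PSL(2, F))}.Finite := by
  refine (finite_of_card_le S hiso (N ^ 4)).subset ?_
  rintro G ⟨hG, F, _, hF, hN, ⟨e⟩⟩
  have := hF
  obtain ⟨h1, h2⟩ := psl_finite F
  refine ⟨hG, Finite.of_equiv _ e.symm.toEquiv, ?_⟩
  rw [Nat.card_congr e.toEquiv]
  exact h2.trans (Nat.pow_le_pow_left hN.le 4)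

theorem final_of_uniform (σ : Signature)
    (hpos : ∀ ε : ℝ, 0 < ε → ∃ N : ℕ, ∀ (F : Type) [Field F] [Finite F], N ≤ Nat.card F →
      Cond σ.kind σ.genus σ.s (Nat.card F) (σ.eff (Nat.card PSL(2, F))) →
      1 - ε < epiProb σ.Grp PSL(2, F))
    (hneg : ∃ c : ℝ, 0 < c ∧ ∃ N : ℕ, ∀ (F : Type) [Field F] [Finite F], N ≤ Nat.card F →
      ¬ Cond σ.kind σ.genus σ.s (Nat.card F) (σ.eff (Nat.card PSL(2, F))) →
      epiProb σ.Grp PSL(2, F) ≤ 1 - c)
    (S : Set GrpCat.{0}) (hiso : ∀ G ∈ S, ∀ H ∈ S, Nonempty (G ≃* H) → G = H)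
    (hS : ∀ G ∈ S, ∃ (F : Type) (_ : Field F), Finite F ∧ Nonempty (G ≃* PSL(2, F))) :
    IsGood σ.Grp S ↔
      {G ∈ S | ¬ ∀ (F : Type) (_ : Field F), Finite F → Nonempty (G ≃* PSL(2, F)) →
        Cond σ.kind σ.genus σ.s (Nat.card F) (σ.eff (Nat.card G))}.Finite := by
  constructor
  · intro hgood
    obtain ⟨c, hc, N, hN⟩ := hneg
    refine ((hgood c hc).union (small_finite S hiso N)).subset ?_
    rintro G ⟨hG, hbad⟩
    push Not at hbad
    obtain ⟨F, _, hF, ⟨e⟩, hcond⟩ := hbad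
    have := hF
    by_cases hcard : Nat.card F < N
    · exact Or.inr ⟨hG, F, _, hF, hcard, ⟨e⟩⟩
    · left
      refine ⟨hG, ?_⟩
      rw [Nat.card_congr e.toEquiv] at hcond
      have := hN F (by omega) hcond
      rw [epiProb_congr σ.Grp e]
      exact not_lt.2 this
  · intro hfin ε hε
    obtain ⟨N, hN⟩ := hpos ε hε
    refine (hfin.union (small_finite S hiso N)).subset ?_
    rintro G ⟨hG, hbad⟩
    by_cases hall : ∀ (F : Type) (_ : Field F), Finite F → Nonempty (G ≃* PSL(2, F)) →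
        Cond σ.kind σ.genus σ.s (Nat.card F) (σ.eff (Nat.card G))
    · right
      obtain ⟨F, _, hF, ⟨e⟩⟩ := hS G hG
      have := hF
      by_cases hcard : Nat.card F < N
      · exact ⟨hG, F, _, hF, hcard, ⟨e⟩⟩
      · exfalso
        have hcond := hall F _ hF ⟨e⟩
        rw [Nat.card_congr e.toEquiv] at hcond
        have := hN F (by omega) hcond
        rw [epiProb_congr σ.Grp e] at hbad
        exact hbad this
    · exact Or.inl ⟨hG, hall⟩

end Pool.Agent.Helper669_gp.J12
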