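import Mathlib
import Pool.Agent.Helper669_gp.Tr

namespace Pool.Agent.Helper669_gp.J13

open scoped MatrixGroups

namespace SP

abbrev E := ℤ × ℤ

abbrev Q := E × E × E × E

def eM (c : ℤ) (p q : E) : E :=
  (p.1 * q.1 + c * (p.2 * q.2), p.1 * q.2 + p.2 * q.1 + c * (p.2 * q.2))

def qM (c : ℤ) (p q : Q) : Q :=
  (eM c p.1 q.1 - eM c p.2.1 q.2.1 - eM c p.2.2.1 q.2.2.1 - eM c p.2.2.2 q.2.2.2,
   eM c p.1 q.2.1 + eM c p.2.1 q.1 + eM c p.2.2.1 q.2.2.2 - eM c p.2.2.2 q.2.2.1,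
   eM c p.1 q.2.2.1 - eM c p.2.1 q.2.2.2 + eM c p.2.2.1 q.1 + eM c p.2.2.2 q.2.1,
   eM c p.1 q.2.2.2 + eM c p.2.1 q.2.2.1 - eM c p.2.2.1 q.2.1 + eM c p.2.2.2 q.1)

def dbl (p : Q) : Q := (p.1 + p.1, p.2.1 + p.2.1, p.2.2.1 + p.2.2.1, p.2.2.2 + p.2.2.2)

def hE (p : E) : E := (p.1 / 2, p.2 / 2)

def qH (c : ℤ) (p q : Q) : Q :=
  (hE (qM c p q).1, hE (qM c p q).2.1, hE (qM c p q).2.2.1, hE (qM c p q).2.2.2)

def q1 : Q := ((2, 0), (0, 0), (0, 0), (0, 0))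

def qm1 : Q := ((-2, 0), (0, 0), (0, 0), (0, 0))

def qN (c : ℤ) (p : Q) : E :=
  eM c p.1 p.1 + eM c p.2.1 p.2.1 + eM c p.2.2.1 p.2.2.1 + eM c p.2.2.2 p.2.2.2

def sE (c : ℤ) (p q r : E) : E :=
  eM c p p + eM c q q + eM c r r - eM c (eM c p q) r - (4, 0)

def nE (c : ℤ) (p : E) : ℤ := p.1 * p.1 + c * (p.1 * p.2) - c * (p.2 * p.2)

def clo (c : ℤ) (L : List Q) (s : Q) : Bool :=
  L.all (fun g => L.contains (qH c g s) && (dbl (qH c g s) == qM c g s))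

def pw (f : Q → Q) : ℕ → Q
  | 0 => q1
  | n + 1 => f (pw f n)

def chk (c : ℤ) (L : List Q) (a b : Q) (k₁ k₂ k₃ : ℕ) : Bool :=
  decide (L.length ≤ 120) && L.contains q1 && L.contains a &&
    (qN c a == (4, 0)) && (qN c b == (4, 0)) &&
    ((pw (fun g => qH c g a) k₁ == q1) || (pw (fun g => qH c g a) k₁ == qm1)) &&
    ((pw (fun g => qH c g b) k₂ == q1) || (pw (fun g => qH c g b) k₂ == qm1)) &&
    ((pw (fun g => qH c (qH c g a) b) k₃ == q1) || (pw (fun g => qH c (qH c g a) b) k₃ == qm1)) &&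
    ((30 : ℤ) ^ 4 % nE c (sE c a.1 b.1 (qH c a b).1) == 0)

def TL : List Q := [
  ((-2, 0), (0, 0), (0, 0), (0, 0)),
  ((-1, 0), (-1, 0), (-1, 0), (-1, 0)),
  ((-1, 0), (-1, 0), (-1, 0), (1, 0)),
  ((-1, 0), (-1, 0), (1, 0), (-1, 0)),
  ((-1, 0), (-1, 0), (1, 0), (1, 0)),
  ((-1, 0), (1, 0), (-1, 0), (-1, 0)),
  ((-1, 0), (1, 0), (-1, 0), (1, 0)),
  ((-1, 0), (1, 0), (1, 0), (-1, 0)),
  ((-1, 0), (1, 0), (1, 0), (1, 0)),
  ((0, 0), (-2, 0), (0, 0), (0, 0)),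
  ((0, 0), (0, 0), (-2, 0), (0, 0)),
  ((0, 0), (0, 0), (0, 0), (-2, 0)),
  ((0, 0), (0, 0), (0, 0), (2, 0)),
  ((0, 0), (0, 0), (2, 0), (0, 0)),
  ((0, 0), (2, 0), (0, 0), (0, 0)),
  ((1, 0), (-1, 0), (-1, 0), (-1, 0)),
  ((1, 0), (-1, 0), (-1, 0), (1, 0)),
  ((1, 0), (-1, 0), (1, 0), (-1, 0)),
  ((1, 0), (-1, 0), (1, 0), (1, 0)),
  ((1, 0), (1, 0), (-1, 0), (-1, 0)),
  ((1, 0), (1, 0), (-1, 0), (1, 0)),
  ((1, 0), (1, 0), (1, 0), (-1, 0)),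
  ((1, 0), (1, 0), (1, 0), (1, 0)),
  ((2, 0), (0, 0), (0, 0), (0, 0))]

def IL0 : List Q := [
  ((-2, 0), (0, 0), (0, 0), (0, 0)),
  ((-1, 0), (-1, 0), (-1, 0), (-1, 0)),
  ((-1, 0), (-1, 0), (-1, 0), (1, 0)),
  ((-1, 0), (-1, 0), (1, 0), (-1, 0)),
  ((-1, 0), (-1, 0), (1, 0), (1, 0)),
  ((-1, 0), (-1, 1), (0, 0), (0, -1)),
  ((-1, 0), (-1, 1), (0, 0), (0, 1)),
  ((-1, 0), (0, -1), (-1, 1), (0, 0)),
  ((-1, 0), (0, -1), (1, -1), (0, 0)),
  ((-1, 0), (0, 0), (0, -1), (-1, 1)),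
  ((-1, 0), (0, 0), (0, -1), (1, -1)),
  ((-1, 0), (0, 0), (0, 1), (-1, 1)),
  ((-1, 0), (0, 0), (0, 1), (1, -1)),
  ((-1, 0), (0, 1), (-1, 1), (0, 0)),
  ((-1, 0), (0, 1), (1, -1), (0, 0)),
  ((-1, 0), (1, -1), (0, 0), (0, -1)),
  ((-1, 0), (1, -1), (0, 0), (0, 1)),
  ((-1, 0), (1, 0), (-1, 0), (-1, 0)),
  ((-1, 0), (1, 0), (-1, 0), (1, 0)),
  ((-1, 0), (1, 0), (1, 0), (-1, 0)),
  ((-1, 0), (1, 0), (1, 0), (1, 0)),
  ((-1, 1), (-1, 0), (0, -1), (0, 0)),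
  ((-1, 1), (-1, 0), (0, 1), (0, 0)),
  ((-1, 1), (0, -1), (0, 0), (-1, 0))]

def IL1 : List Q := [
  ((-1, 1), (0, -1), (0, 0), (1, 0)),
  ((-1, 1), (0, 0), (-1, 0), (0, -1)),
  ((-1, 1), (0, 0), (-1, 0), (0, 1)),
  ((-1, 1), (0, 0), (1, 0), (0, -1)),
  ((-1, 1), (0, 0), (1, 0), (0, 1)),
  ((-1, 1), (0, 1), (0, 0), (-1, 0)),
  ((-1, 1), (0, 1), (0, 0), (1, 0)),
  ((-1, 1), (1, 0), (0, -1), (0, 0)),
  ((-1, 1), (1, 0), (0, 1), (0, 0)),
  ((0, -1), (-1, 0), (0, 0), (-1, 1)),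
  ((0, -1), (-1, 0), (0, 0), (1, -1)),
  ((0, -1), (-1, 1), (-1, 0), (0, 0)),
  ((0, -1), (-1, 1), (1, 0), (0, 0)),
  ((0, -1), (0, 0), (-1, 1), (-1, 0)),
  ((0, -1), (0, 0), (-1, 1), (1, 0)),
  ((0, -1), (0, 0), (1, -1), (-1, 0)),
  ((0, -1), (0, 0), (1, -1), (1, 0)),
  ((0, -1), (1, -1), (-1, 0), (0, 0)),
  ((0, -1), (1, -1), (1, 0), (0, 0)),
  ((0, -1), (1, 0), (0, 0), (-1, 1)),
  ((0, -1), (1, 0), (0, 0), (1, -1)),
  ((0, 0), (-2, 0), (0, 0), (0, 0)),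
  ((0, 0), (-1, 0), (-1, 1), (0, -1)),
  ((0, 0), (-1, 0), (-1, 1), (0, 1))]

def IL2 : List Q := [
  ((0, 0), (-1, 0), (1, -1), (0, -1)),
  ((0, 0), (-1, 0), (1, -1), (0, 1)),
  ((0, 0), (-1, 1), (0, -1), (-1, 0)),
  ((0, 0), (-1, 1), (0, -1), (1, 0)),
  ((0, 0), (-1, 1), (0, 1), (-1, 0)),
  ((0, 0), (-1, 1), (0, 1), (1, 0)),
  ((0, 0), (0, -1), (-1, 0), (-1, 1)),
  ((0, 0), (0, -1), (-1, 0), (1, -1)),
  ((0, 0), (0, -1), (1, 0), (-1, 1)),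
  ((0, 0), (0, -1), (1, 0), (1, -1)),
  ((0, 0), (0, 0), (-2, 0), (0, 0)),
  ((0, 0), (0, 0), (0, 0), (-2, 0)),
  ((0, 0), (0, 0), (0, 0), (2, 0)),
  ((0, 0), (0, 0), (2, 0), (0, 0)),
  ((0, 0), (0, 1), (-1, 0), (-1, 1)),
  ((0, 0), (0, 1), (-1, 0), (1, -1)),
  ((0, 0), (0, 1), (1, 0), (-1, 1)),
  ((0, 0), (0, 1), (1, 0), (1, -1)),
  ((0, 0), (1, -1), (0, -1), (-1, 0)),
  ((0, 0), (1, -1), (0, -1), (1, 0)),
  ((0, 0), (1, -1), (0, 1), (-1, 0)),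
  ((0, 0), (1, -1), (0, 1), (1, 0)),
  ((0, 0), (1, 0), (-1, 1), (0, -1)),
  ((0, 0), (1, 0), (-1, 1), (0, 1))]

def IL3 : List Q := [
  ((0, 0), (1, 0), (1, -1), (0, -1)),
  ((0, 0), (1, 0), (1, -1), (0, 1)),
  ((0, 0), (2, 0), (0, 0), (0, 0)),
  ((0, 1), (-1, 0), (0, 0), (-1, 1)),
  ((0, 1), (-1, 0), (0, 0), (1, -1)),
  ((0, 1), (-1, 1), (-1, 0), (0, 0)),
  ((0, 1), (-1, 1), (1, 0), (0, 0)),
  ((0, 1), (0, 0), (-1, 1), (-1, 0)),
  ((0, 1), (0, 0), (-1, 1), (1, 0)),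
  ((0, 1), (0, 0), (1, -1), (-1, 0)),
  ((0, 1), (0, 0), (1, -1), (1, 0)),
  ((0, 1), (1, -1), (-1, 0), (0, 0)),
  ((0, 1), (1, -1), (1, 0), (0, 0)),
  ((0, 1), (1, 0), (0, 0), (-1, 1)),
  ((0, 1), (1, 0), (0, 0), (1, -1)),
  ((1, -1), (-1, 0), (0, -1), (0, 0)),
  ((1, -1), (-1, 0), (0, 1), (0, 0)),
  ((1, -1), (0, -1), (0, 0), (-1, 0)),
  ((1, -1), (0, -1), (0, 0), (1, 0)),
  ((1, -1), (0, 0), (-1, 0), (0, -1)),
  ((1, -1), (0, 0), (-1, 0), (0, 1)),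
  ((1, -1), (0, 0), (1, 0), (0, -1)),
  ((1, -1), (0, 0), (1, 0), (0, 1)),
  ((1, -1), (0, 1), (0, 0), (-1, 0))]

def IL4 : List Q := [
  ((1, -1), (0, 1), (0, 0), (1, 0)),
  ((1, -1), (1, 0), (0, -1), (0, 0)),
  ((1, -1), (1, 0), (0, 1), (0, 0)),
  ((1, 0), (-1, 0), (-1, 0), (-1, 0)),
  ((1, 0), (-1, 0), (-1, 0), (1, 0)),
  ((1, 0), (-1, 0), (1, 0), (-1, 0)),
  ((1, 0), (-1, 0), (1, 0), (1, 0)),
  ((1, 0), (-1, 1), (0, 0), (0, -1)),
  ((1, 0), (-1, 1), (0, 0), (0, 1)),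
  ((1, 0), (0, -1), (-1, 1), (0, 0)),
  ((1, 0), (0, -1), (1, -1), (0, 0)),
  ((1, 0), (0, 0), (0, -1), (-1, 1)),
  ((1, 0), (0, 0), (0, -1), (1, -1)),
  ((1, 0), (0, 0), (0, 1), (-1, 1)),
  ((1, 0), (0, 0), (0, 1), (1, -1)),
  ((1, 0), (0, 1), (-1, 1), (0, 0)),
  ((1, 0), (0, 1), (1, -1), (0, 0)),
  ((1, 0), (1, -1), (0, 0), (0, -1)),
  ((1, 0), (1, -1), (0, 0), (0, 1)),
  ((1, 0), (1, 0), (-1, 0), (-1, 0)),
  ((1, 0), (1, 0), (-1, 0), (1, 0)),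
  ((1, 0), (1, 0), (1, 0), (-1, 0)),
  ((1, 0), (1, 0), (1, 0), (1, 0)),
  ((2, 0), (0, 0), (0, 0), (0, 0))]

def IL : List Q := IL0 ++ (IL1 ++ (IL2 ++ (IL3 ++ IL4)))

def d0 : Q := ((0, 0), (-2, 0), (0, 0), (0, 0))

def d1 : Q := ((1, 0), (-1, 1), (0, 0), (0, -1))

def d2 : Q := ((-1, 0), (-1, 1), (0, 0), (0, 1))

def d3 : Q := ((0, -1), (1, -1), (-1, 0), (0, 0))

def d4 : Q := ((1, -1), (0, -1), (0, 0), (-1, 0))

def d5 : Q := ((-1, 1), (1, 0), (0, -1), (0, 0))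

def u0 : Q := ((-1, 0), (-1, 0), (-1, 0), (-1, 0))

def u1 : Q := ((-1, 0), (-1, 0), (-1, 0), (1, 0))

def u2 : Q := ((-1, 0), (-1, 0), (1, 0), (-1, 0))

def u3 : Q := ((0, 0), (-2, 0), (0, 0), (0, 0))

section field

variable {F : Type} [Field F] (c : ℤ) (x y t : F)

def ev (p : E) : F := (p.1 : F) + (p.2 : F) * t

theorem ev_add (p q : E) : ev t (p + q) = ev t p + ev t q := by
  simp only [ev, Prod.fst_add, Prod.snd_add]; push_cast; ring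

theorem ev_sub (p q : E) : ev t (p - q) = ev t p - ev t q := by
  simp only [ev, Prod.fst_sub, Prod.snd_sub]; push_cast; ring

theorem ev_neg (p : E) : ev t (-p) = - ev t p := by
  simp only [ev, Prod.fst_neg, Prod.snd_neg]; push_cast; ring

variable (ht : t ^ 2 = c * t + c)

include ht in

theorem ev_mul (p q : E) : ev t (eM c p q) = ev t p * ev t q := by
  simp only [ev, eM]; push_cast
  linear_combination (-(p.2 : F) * q.2) * ht

def mat (p : Q) : Matrix (Fin 2) (Fin 2) F :=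
  !![(ev t p.1 + ev t p.2.1 * x - ev t p.2.2.2 * y) / 2,
    (ev t p.2.1 * y + ev t p.2.2.1 + ev t p.2.2.2 * x) / 2;
    (ev t p.2.1 * y - ev t p.2.2.1 + ev t p.2.2.2 * x) / 2,
    (ev t p.1 - ev t p.2.1 * x + ev t p.2.2.2 * y) / 2]

variable (hxy : x ^ 2 + y ^ 2 = -1) (h2 : (2 : F) ≠ 0)

include h2 ht hxy in

theorem mat_mul (p q h : Q) (hh : dbl h = qM c p q) :
    mat x y t p * mat x y t q = mat x y t h := by
  have e1 : ev t h.1 + ev t h.1 = ev t p.1 * ev t q.1 - ev t p.2.1 * ev t q.2.1 -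
      ev t p.2.2.1 * ev t q.2.2.1 - ev t p.2.2.2 * ev t q.2.2.2 := by
    have := congrArg (fun u : Q => ev t u.1) hh
    simp only [dbl, qM, ev_add, ev_sub, ev_mul c t ht] at this
    exact this
  have e2 : ev t h.2.1 + ev t h.2.1 = ev t p.1 * ev t q.2.1 + ev t p.2.1 * ev t q.1 +
      ev t p.2.2.1 * ev t q.2.2.2 - ev t p.2.2.2 * ev t q.2.2.1 := by
    have := congrArg (fun u : Q => ev t u.2.1) hh
    simp only [dbl, qM, ev_add, ev_sub, ev_mul c t ht] at this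
    exact this
  have e3 : ev t h.2.2.1 + ev t h.2.2.1 = ev t p.1 * ev t q.2.2.1 - ev t p.2.1 * ev t q.2.2.2 +
      ev t p.2.2.1 * ev t q.1 + ev t p.2.2.2 * ev t q.2.1 := by
    have := congrArg (fun u : Q => ev t u.2.2.1) hh
    simp only [dbl, qM, ev_add, ev_sub, ev_mul c t ht] at this
    exact this
  have e4 : ev t h.2.2.2 + ev t h.2.2.2 = ev t p.1 * ev t q.2.2.2 + ev t p.2.1 * ev t q.2.2.1 -
      ev t p.2.2.1 * ev t q.2.1 + ev t p.2.2.2 * ev t q.1 := by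
    have := congrArg (fun u : Q => ev t u.2.2.2) hh
    simp only [dbl, qM, ev_add, ev_sub, ev_mul c t ht] at this
    exact this
  ext i j
  fin_cases i <;> fin_cases j <;>
    simp only [mat, Matrix.mul_apply, Fin.sum_univ_two, Fin.zero_eta, Fin.mk_one, Fin.isValue,
      Matrix.of_apply, Matrix.cons_val', Matrix.cons_val_zero, Matrix.cons_val_one,
      Matrix.cons_val_fin_one]
  · field_simp
    linear_combination (ev t p.2.1 * ev t q.2.1 + ev t p.2.2.2 * ev t q.2.2.2) * hxy - e1 - x * e2 + y * e4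
  · field_simp
    linear_combination (ev t p.2.1 * ev t q.2.2.2 - ev t p.2.2.2 * ev t q.2.1) * hxy - y * e2 - e3 - x * e4
  · field_simp
    linear_combination (-(ev t p.2.1 * ev t q.2.2.2 - ev t p.2.2.2 * ev t q.2.1)) * hxy - y * e2 + e3 - x * e4
  · field_simp
    linear_combination (ev t p.2.1 * ev t q.2.1 + ev t p.2.2.2 * ev t q.2.2.2) * hxy - e1 + x * e2 - y * e4

include ht hxy h2 in

theorem mat_det (p : Q) (hp : qN c p = (4, 0)) : (mat x y t p).det = 1 := by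
  have e : ev t p.1 * ev t p.1 + ev t p.2.1 * ev t p.2.1 + ev t p.2.2.1 * ev t p.2.2.1 +
      ev t p.2.2.2 * ev t p.2.2.2 = 4 := by
    have := congrArg (fun u : E => ev t u) hp
    simp only [qN, ev_add, ev_mul c t ht] at this
    rw [this]
    simp [ev]
  rw [mat, Matrix.det_fin_two_of]
  field_simp
  linear_combination e - (ev t p.2.1 ^ 2 + ev t p.2.2.2 ^ 2) * hxy

include h2 in

theorem mat_q1 : mat x y t q1 = 1 := by
  ext i j
  fin_cases i <;> fin_cases j <;> simp [mat, q1, ev, h2]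

include h2 in

theorem mat_qm1 : mat x y t qm1 = -1 := by
  ext i j
  fin_cases i <;> fin_cases j <;> simp [mat, qm1, ev, h2]

include h2 in

theorem tr_mat (A : SL(2, F)) (p : Q) (hA : (A : Matrix (Fin 2) (Fin 2) F) = mat x y t p) :
    tr A = ev t p.1 := by
  unfold tr
  have e0 : A 0 0 = mat x y t p 0 0 := by rw [← hA]
  have e1 : A 1 1 = mat x y t p 1 1 := by rw [← hA]
  rw [e0, e1]
  simp only [mat, Matrix.of_apply, Matrix.cons_val', Matrix.cons_val_zero, Matrix.cons_val_one,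
      Matrix.cons_val_fin_one]
  field_simp
  ring

include h2 in

theorem cen_of (A : SL(2, F)) (p : Q) (hA : (A : Matrix (Fin 2) (Fin 2) F) = mat x y t p)
    (hp : p = q1 ∨ p = qm1) : Cen A := by
  rcases hp with rfl | rfl
  · left
    apply Subtype.ext
    rw [hA, mat_q1 x y t h2]; rfl
  · right
    apply Subtype.ext
    rw [hA, mat_qm1 x y t h2]
    simp

include ht in

theorem S3_ne (h3 : (3 : F) ≠ 0) (h5 : (5 : F) ≠ 0) (h2 : (2 : F) ≠ 0) (p q r : E)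
    (h : (30 : ℤ) ^ 4 % nE c (sE c p q r) = 0) : S3 (ev t p) (ev t q) (ev t r) ≠ 0 := by
  have e : ev t (sE c p q r) = S3 (ev t p) (ev t q) (ev t r) := by
    simp only [sE, ev_sub, ev_add, ev_mul c t ht, S3]
    have : ev t ((4, 0) : E) = (4 : F) := by simp [ev]
    rw [this]; ring
  rw [← e]
  intro h0
  set s := sE c p q r with hs
  have hn : ((nE c s : ℤ) : F) = ev t s * ((s.1 : F) + c * s.2 - s.2 * t) := by
    simp only [nE, ev]
    push_cast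
    linear_combination ((s.2 : F) ^ 2) * ht
  rw [h0, zero_mul] at hn
  obtain ⟨m, hm⟩ := Int.dvd_of_emod_eq_zero h
  have h30 : (2 * 3 * 5 : F) ^ 4 = 0 := by
    have h1 : (2 * 3 * 5 : F) ^ 4 = (((30 : ℤ) ^ 4 : ℤ) : F) := by norm_num
    rw [h1, hm]
    push_cast
    rw [hn, zero_mul]
  exact pow_ne_zero 4 (mul_ne_zero (mul_ne_zero h2 h3) h5) h30

include ht hxy h2 in

theorem sound [Fintype F] (h3 : (3 : F) ≠ 0) (h5 : (5 : F) ≠ 0) (L : List Q) (a b : Q)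
    (k₁ k₂ k₃ : ℕ)
    (hca : clo c L a = true) (hcb : clo c L b = true) (h : chk c L a b k₁ k₂ k₃ = true) :
    ∃ A B : SL(2, F), Cen (A ^ k₁) ∧ Cen (B ^ k₂) ∧ Cen ((A * B) ^ k₃) ∧
      S3 (tr A) (tr B) (tr (A * B)) ≠ 0 ∧ Nat.card (Subgroup.closure {A, B}) ≤ 120 := by
  classical
  simp only [chk, Bool.and_eq_true, Bool.or_eq_true, decide_eq_true_eq, beq_iff_eq,
    List.contains_iff_mem] at h
  obtain ⟨⟨⟨⟨⟨⟨⟨⟨hlen, hq1⟩, haL⟩, hNa⟩, hNb⟩, hp1⟩, hp2⟩, hp3⟩, hS⟩ := h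
  have hclo : ∀ s, clo c L s = true → ∀ g ∈ L, qH c g s ∈ L ∧
      mat x y t g * mat x y t s = mat x y t (qH c g s) := by
    intro s hs g hg
    simp only [clo, List.all_eq_true, Bool.and_eq_true, beq_iff_eq, List.contains_iff_mem] at hs
    obtain ⟨h1, h2'⟩ := hs g hg
    exact ⟨h1, mat_mul c x y t ht hxy h2 g s _ h2'⟩
  let A : SL(2, F) := ⟨mat x y t a, mat_det c x y t ht hxy h2 a hNa⟩
  let B : SL(2, F) := ⟨mat x y t b, mat_det c x y t ht hxy h2 b hNb⟩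
  have hA : (A : Matrix (Fin 2) (Fin 2) F) = mat x y t a := rfl
  have hB : (B : Matrix (Fin 2) (Fin 2) F) = mat x y t b := rfl
  have hpw : ∀ (f : Q → Q) (S : SL(2, F)) (hf : ∀ g ∈ L, f g ∈ L ∧
      mat x y t g * (S : Matrix (Fin 2) (Fin 2) F) = mat x y t (f g)) (k : ℕ),
      pw f k ∈ L ∧ ((S ^ k : SL(2, F)) : Matrix (Fin 2) (Fin 2) F) = mat x y t (pw f k) := by
    intro f S hf k
    induction k with
    | zero => exact ⟨hq1, by rw [pow_zero, pw, mat_q1 x y t h2]; rfl⟩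
    | succ n ih =>
      obtain ⟨i1, i2⟩ := ih
      obtain ⟨j1, j2⟩ := hf _ i1
      refine ⟨j1, ?_⟩
      rw [pow_succ, Matrix.SpecialLinearGroup.coe_mul, i2, j2]
      rfl
  have hfA := fun g hg => hclo a hca g hg
  have hfB := fun g hg => hclo b hcb g hg
  have hfAB : ∀ g ∈ L, qH c (qH c g a) b ∈ L ∧
      mat x y t g * ((A * B : SL(2, F)) : Matrix (Fin 2) (Fin 2) F) =
        mat x y t (qH c (qH c g a) b) := by
    intro g hg
    obtain ⟨i1, i2⟩ := hclo a hca g hg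
    obtain ⟨j1, j2⟩ := hclo b hcb _ i1
    refine ⟨j1, ?_⟩
    rw [Matrix.SpecialLinearGroup.coe_mul, ← mul_assoc, hA, hB, i2, j2]
  have hAB : ((A * B : SL(2, F)) : Matrix (Fin 2) (Fin 2) F) = mat x y t (qH c a b) := by
    rw [Matrix.SpecialLinearGroup.coe_mul, hA, hB]
    exact (hclo b hcb a haL).2
  refine ⟨A, B, ?_, ?_, ?_, ?_, ?_⟩
  · exact cen_of x y t h2 _ _ (hpw _ A hfA k₁).2 hp1
  · exact cen_of x y t h2 _ _ (hpw _ B hfB k₂).2 hp2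
  · exact cen_of x y t h2 _ _ (hpw _ (A * B) hfAB k₃).2 hp3
  · rw [tr_mat x y t h2 A a hA, tr_mat x y t h2 B b hB, tr_mat x y t h2 _ _ hAB]
    exact S3_ne c t ht h3 h5 h2 _ _ _ hS
  · have hmem : ∀ g ∈ Subgroup.closure ({A, B} : Set SL(2, F)),
        ∃ p ∈ L, (g : Matrix (Fin 2) (Fin 2) F) = mat x y t p := by
      intro g hg
      rw [← Subgroup.mem_toSubmonoid, Subgroup.closure_toSubmonoid_of_finite] at hg
      induction hg using Submonoid.closure_induction_right with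
      | one => exact ⟨q1, hq1, by rw [mat_q1 x y t h2]; rfl⟩
      | mul_right g hg s hs ih =>
        obtain ⟨p, hp, hgp⟩ := ih
        rcases hs with rfl | rfl
        · obtain ⟨i1, i2⟩ := hclo a hca p hp
          exact ⟨_, i1, by rw [Matrix.SpecialLinearGroup.coe_mul, hgp, hA, i2]⟩
        · obtain ⟨i1, i2⟩ := hclo b hcb p hp
          exact ⟨_, i1, by rw [Matrix.SpecialLinearGroup.coe_mul, hgp, hB, i2]⟩
    let f : Subgroup.closure ({A, B} : Set SL(2, F)) → (L.map (mat x y t)).toFinset :=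
      fun g => ⟨(g.1 : Matrix (Fin 2) (Fin 2) F), by
        obtain ⟨p, hp, hgp⟩ := hmem g.1 g.2
        rw [List.mem_toFinset, hgp]
        exact List.mem_map_of_mem hp⟩
    have hf : Function.Injective f := by
      intro g g' hgg
      have h1 := Subtype.ext_iff.mp hgg
      exact Subtype.ext (Subtype.ext h1)
    calc Nat.card (Subgroup.closure ({A, B} : Set SL(2, F)))
        ≤ Nat.card (L.map (mat x y t)).toFinset := Nat.card_le_card_of_injective f hf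
      _ = (L.map (mat x y t)).toFinset.card := by rw [Nat.card_eq_fintype_card, Fintype.card_coe]
      _ ≤ (L.map (mat x y t)).length := List.toFinset_card_le _
      _ = L.length := by simp
      _ ≤ 120 := hlen

end field

theorem cd0 : clo 1 IL d0 = true := by decide +kernel

theorem cd1 : clo 1 IL d1 = true := by decide +kernel

theorem cd2 : clo 1 IL d2 = true := by decide +kernel

theorem cd3 : clo 1 IL d3 = true := by decide +kernel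

theorem cd4 : clo 1 IL d4 = true := by decide +kernel

theorem cd5 : clo 1 IL d5 = true := by decide +kernel

theorem cu0 : clo 0 TL u0 = true := by decide +kernel

theorem cu1 : clo 0 TL u1 = true := by decide +kernel

theorem cu2 : clo 0 TL u2 = true := by decide +kernel

theorem cu3 : clo 0 TL u3 = true := by decide +kernel

theorem c235 : chk 1 IL d0 d1 2 3 5 = true := by decide +kernel

theorem c255 : chk 1 IL d0 d3 2 5 5 = true := by decide +kernel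

theorem c253 : chk 1 IL d0 d5 2 5 3 = true := by decide +kernel

theorem c325 : chk 1 IL d1 d0 3 2 5 = true := by decide +kernel

theorem c335 : chk 1 IL d1 d2 3 3 5 = true := by decide +kernel

theorem c355 : chk 1 IL d1 d3 3 5 5 = true := by decide +kernel

theorem c352 : chk 1 IL d1 d5 3 5 2 = true := by decide +kernel

theorem c353 : chk 1 IL d2 d3 3 5 3 = true := by decide +kernel

theorem c525 : chk 1 IL d3 d0 5 2 5 = true := by decide +kernel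

theorem c535 : chk 1 IL d3 d1 5 3 5 = true := by decide +kernel

theorem c533 : chk 1 IL d3 d2 5 3 3 = true := by decide +kernel

theorem c552 : chk 1 IL d3 d4 5 5 2 = true := by decide +kernel

theorem c553 : chk 1 IL d3 d5 5 5 3 = true := by decide +kernel

theorem c555 : chk 1 IL d4 d5 5 5 5 = true := by decide +kernel

theorem c523 : chk 1 IL d5 d0 5 2 3 = true := by decide +kernel

theorem c532 : chk 1 IL d5 d1 5 3 2 = true := by decide +kernel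

theorem c233 : chk 0 TL u3 u0 2 3 3 = true := by decide +kernel

theorem c323 : chk 0 TL u0 u3 3 2 3 = true := by decide +kernel

theorem c332 : chk 0 TL u0 u1 3 3 2 = true := by decide +kernel

theorem c333 : chk 0 TL u1 u2 3 3 3 = true := by decide +kernel

theorem exists_xy (F : Type) [Field F] [Fintype F] : ∃ x y : F, x ^ 2 + y ^ 2 = -1 := by
  obtain ⟨p, hp⟩ := CharP.exists F
  have : Fact p.Prime := ⟨CharP.char_is_prime F p⟩
  obtain ⟨a, b, h⟩ := CharP.sq_add_sq F p (-1)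
  exact ⟨a, b, by rw [h]; simp⟩

theorem z5a : ∀ z : ZMod 5, z ^ 2 = 1 → z = 1 ∨ z = -1 := by decide

theorem z5b : ∀ z : ZMod 5, z = 0 ∨ z = 1 ∨ z = -1 → IsSquare z := by decide

theorem z5c : ∀ (e : ℤ) (q : ZMod 5), (e = 0 ∨ e = 1 ∨ e = -1) → (q = 1 ∨ q = -1) →
    (e : ZMod 5) * q = 0 ∨ (e : ZMod 5) * q = 1 ∨ (e : ZMod 5) * q = -1 := by
  rintro e q (rfl | rfl | rfl) (rfl | rfl) <;> simp

theorem exists_t (F : Type) [Field F] [Fintype F] (h2 : (2 : F) ≠ 0) (_h5 : (5 : F) ≠ 0)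
    (h : 5 ∣ Fintype.card F ^ 2 - 1) : ∃ t : F, t ^ 2 = t + 1 := by
  have hr : ringChar F ≠ 2 := by
    intro h'
    apply h2
    have := CharP.cast_eq_zero F (ringChar F)
    rw [h'] at this
    exact_mod_cast this
  have : Fact (Nat.Prime 5) := ⟨by norm_num⟩
  have hsq : IsSquare (((5 : ℕ)) : F) := by
    rw [FiniteField.isSquare_odd_prime_iff hr (by norm_num)]
    have hq : ((Fintype.card F : ℕ) : ZMod 5) = 1 ∨ ((Fintype.card F : ℕ) : ZMod 5) = -1 := by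
      have h1 : ((Fintype.card F ^ 2 - 1 : ℕ) : ZMod 5) = 0 := by
        rwa [ZMod.natCast_eq_zero_iff]
      rw [Nat.cast_sub (Nat.one_le_pow _ _ Fintype.card_pos)] at h1
      push_cast at h1
      have h2 := sub_eq_zero.mp h1
      exact z5a _ h2
    have hchi : ∀ u : ZMod 4, ZMod.χ₄ u = 0 ∨ ZMod.χ₄ u = 1 ∨ ZMod.χ₄ u = -1 := by decide
    rw [Ne, quadraticChar_neg_one_iff_not_isSquare, not_not]
    exact z5b _ (z5c _ _ (hchi _) hq)
  obtain ⟨s, hs⟩ := hsq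
  refine ⟨(1 + s) / 2, ?_⟩
  field_simp
  push_cast at hs
  linear_combination (-1 : F) * hs

end SP

theorem small_pair (F : Type) [Field F] [Fintype F] (h2 : (2 : F) ≠ 0) (h3 : (3 : F) ≠ 0)
    (h5 : (5 : F) ≠ 0) (k₁ k₂ k₃ : ℕ) (hk₁ : k₁ = 2 ∨ k₁ = 3 ∨ k₁ = 5)
    (hk₂ : k₂ = 2 ∨ k₂ = 3 ∨ k₂ = 5) (hk₃ : k₃ = 2 ∨ k₃ = 3 ∨ k₃ = 5)
    (hodd : (Odd k₁ ∨ Odd k₂) ∧ (Odd k₁ ∨ Odd k₃) ∧ (Odd k₂ ∨ Odd k₃))
    (hfive : (k₁ = 5 ∨ k₂ = 5 ∨ k₃ = 5) → 5 ∣ Fintype.card F ^ 2 - 1) :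
    ∃ A B : SL(2, F), Cen (A ^ k₁) ∧ Cen (B ^ k₂) ∧ Cen ((A * B) ^ k₃) ∧
      S3 (tr A) (tr B) (tr (A * B)) ≠ 0 ∧ Nat.card (Subgroup.closure {A, B}) ≤ 120 := by
  obtain ⟨x, y, hxy⟩ := SP.exists_xy F
  have n2 : ¬ Odd 2 := by decide
  have ht0 : (0 : F) ^ 2 = ((0 : ℤ) : F) * 0 + ((0 : ℤ) : F) := by simp
  by_cases hf : k₁ = 5 ∨ k₂ = 5 ∨ k₃ = 5
  · obtain ⟨t, ht'⟩ := SP.exists_t F h2 h5 (hfive hf)
    have ht : t ^ 2 = ((1 : ℤ) : F) * t + ((1 : ℤ) : F) := by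
      rw [ht']; simp
    rcases hk₁ with rfl | rfl | rfl <;> rcases hk₂ with rfl | rfl | rfl <;>
      rcases hk₃ with rfl | rfl | rfl
    · exact absurd hodd (by decide)
    · exact absurd hodd (by decide)
    · exact absurd hodd (by decide)
    · exact absurd hodd (by decide)
    · exact absurd hf (by decide)
    · exact SP.sound _ x y t ht hxy h2 h3 h5 _ _ _ _ _ _ SP.cd0 SP.cd1 SP.c235
    · exact absurd hodd (by decide)
    · exact SP.sound _ x y t ht hxy h2 h3 h5 _ _ _ _ _ _ SP.cd0 SP.cd5 SP.c253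
    · exact SP.sound _ x y t ht hxy h2 h3 h5 _ _ _ _ _ _ SP.cd0 SP.cd3 SP.c255
    · exact absurd hodd (by decide)
    · exact absurd hf (by decide)
    · exact SP.sound _ x y t ht hxy h2 h3 h5 _ _ _ _ _ _ SP.cd1 SP.cd0 SP.c325
    · exact absurd hf (by decide)
    · exact absurd hf (by decide)
    · exact SP.sound _ x y t ht hxy h2 h3 h5 _ _ _ _ _ _ SP.cd1 SP.cd2 SP.c335
    · exact SP.sound _ x y t ht hxy h2 h3 h5 _ _ _ _ _ _ SP.cd1 SP.cd5 SP.c352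
    · exact SP.sound _ x y t ht hxy h2 h3 h5 _ _ _ _ _ _ SP.cd2 SP.cd3 SP.c353
    · exact SP.sound _ x y t ht hxy h2 h3 h5 _ _ _ _ _ _ SP.cd1 SP.cd3 SP.c355
    · exact absurd hodd (by decide)
    · exact SP.sound _ x y t ht hxy h2 h3 h5 _ _ _ _ _ _ SP.cd5 SP.cd0 SP.c523
    · exact SP.sound _ x y t ht hxy h2 h3 h5 _ _ _ _ _ _ SP.cd3 SP.cd0 SP.c525
    · exact SP.sound _ x y t ht hxy h2 h3 h5 _ _ _ _ _ _ SP.cd5 SP.cd1 SP.c532
    · exact SP.sound _ x y t ht hxy h2 h3 h5 _ _ _ _ _ _ SP.cd3 SP.cd2 SP.c533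
    · exact SP.sound _ x y t ht hxy h2 h3 h5 _ _ _ _ _ _ SP.cd3 SP.cd1 SP.c535
    · exact SP.sound _ x y t ht hxy h2 h3 h5 _ _ _ _ _ _ SP.cd3 SP.cd4 SP.c552
    · exact SP.sound _ x y t ht hxy h2 h3 h5 _ _ _ _ _ _ SP.cd3 SP.cd5 SP.c553
    · exact SP.sound _ x y t ht hxy h2 h3 h5 _ _ _ _ _ _ SP.cd4 SP.cd5 SP.c555
  · rcases hk₁ with rfl | rfl | rfl <;> rcases hk₂ with rfl | rfl | rfl <;>
      rcases hk₃ with rfl | rfl | rfl
    · exact absurd hodd (by decide)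
    · exact absurd hodd (by decide)
    · exact absurd hodd (by decide)
    · exact absurd hodd (by decide)
    · exact SP.sound _ x y 0 ht0 hxy h2 h3 h5 _ _ _ _ _ _ SP.cu3 SP.cu0 SP.c233
    · exact absurd hf (by decide)
    · exact absurd hodd (by decide)
    · exact absurd hf (by decide)
    · exact absurd hf (by decide)
    · exact absurd hodd (by decide)
    · exact SP.sound _ x y 0 ht0 hxy h2 h3 h5 _ _ _ _ _ _ SP.cu0 SP.cu3 SP.c323
    · exact absurd hf (by decide)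
    · exact SP.sound _ x y 0 ht0 hxy h2 h3 h5 _ _ _ _ _ _ SP.cu0 SP.cu1 SP.c332
    · exact SP.sound _ x y 0 ht0 hxy h2 h3 h5 _ _ _ _ _ _ SP.cu1 SP.cu2 SP.c333
    · exact absurd hf (by decide)
    · exact absurd hf (by decide)
    · exact absurd hf (by decide)
    · exact absurd hf (by decide)
    · exact absurd hodd (by decide)
    · exact absurd hf (by decide)
    · exact absurd hf (by decide)
    · exact absurd hf (by decide)
    · exact absurd hf (by decide)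
    · exact absurd hf (by decide)
    · exact absurd hf (by decide)
    · exact absurd hf (by decide)
    · exact absurd hf (by decide)

end Pool.Agent.Helper669_gp.J13
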