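import Mathlib
import Pool.Agent.Helper669_gp.Low2
import Pool.Agent.Helper669_gp.Pts
import Pool.Agent.Helper669_gp.Abs
import Pool.Agent.Helper669_gp.Xi
import Pool.Agent.Helper669_gp.K01
import Pool.Agent.Helper669_gp.K02
import Pool.Agent.Helper669_gp.K03

namespace Pool.Agent.Helper669_gp.K09

open Pool.Agent.Helper669_gp.K01 Pool.Agent.Helper669_gp.K02 Pool.Agent.Helper669_gp.K03

open scoped MatrixGroups

open Finset

section K09

set_option linter.unusedSectionVars false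

variable {F : Type} [Field F]

lemma K09_cen_inv (X : SL(2, F)) : Cen X⁻¹ ↔ Cen X := by
  unfold Cen
  constructor
  · rintro (h | h)
    · left; rwa [inv_eq_one] at h
    · right
      have := congrArg (fun Y : SL(2, F) => Y⁻¹) h
      simpa using this
  · rintro (rfl | rfl)
    · left; simp
    · right
      rw [inv_eq_iff_mul_eq_one]
      simp

lemma K09_pow (X : SL(2, F)) (h : tr X = 2) (n : ℕ) :
    (X ^ n) 0 0 = 1 + n * (X 0 0 - 1) ∧ (X ^ n) 0 1 = n * X 0 1 ∧
    (X ^ n) 1 0 = n * X 1 0 ∧ (X ^ n) 1 1 = 1 + n * (X 1 1 - 1) := by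
  have hd := det_eq X
  rw [tr] at h
  induction n with
  | zero => simp
  | succ n ih =>
    obtain ⟨h1, h2, h3, h4⟩ := ih
    have e11 : X 1 1 = 2 - X 0 0 := by linear_combination h
    rw [e11] at hd h4
    rw [pow_succ]
    simp only [mul00, mul01, mul10, mul11, h1, h2, h3, h4, e11]
    push_cast
    refine ⟨?_, ?_, ?_, ?_⟩
    · linear_combination -(n : F) * hd
    · ring
    · ring
    · linear_combination -(n : F) * hd

lemma K09_uni (X : SL(2, F)) (h : tr X = 2) (m : ℕ) (hm : (m : F) ≠ 0) (hc : Cen (X ^ m)) :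
    Cen X := by
  obtain ⟨h1, h2, h3, h4⟩ := K09_pow X h m
  rw [cen_iff] at hc ⊢
  rw [h1, h2, h3, h4] at hc
  obtain ⟨c1, c2, c3⟩ := hc
  refine ⟨(mul_eq_zero.1 c1).resolve_left hm, (mul_eq_zero.1 c2).resolve_left hm, ?_⟩
  have : (m : F) * (X 0 0 - X 1 1) = 0 := by linear_combination c3
  exact sub_eq_zero.1 ((mul_eq_zero.1 this).resolve_left hm)

lemma K09_p (X : SL(2, F)) (h : tr X = 2) (p : ℕ) (hp : (p : F) = 0) : X ^ p = 1 := by
  obtain ⟨h1, h2, h3, h4⟩ := K09_pow X h p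
  rw [hp] at h1 h2 h3 h4
  refine sl_ext ?_ ?_ ?_ ?_
  · rw [h1]; simp
  · rw [h2]; simp
  · rw [h3]; simp
  · rw [h4]; simp

lemma K09_cen_of_tr (X Z : SL(2, F)) (hX : ¬ Cen X) (hZ : ¬ Cen Z) (h : tr Z = tr X) (m : ℕ)
    (hm : Cen (X ^ m)) : Cen (Z ^ m) := by
  obtain ⟨P, hP⟩ := exists_cj X hX
  obtain ⟨Q, hQ⟩ := exists_cj Z hZ
  rw [← cen_cj Q, map_pow, hQ, h, ← hP, ← map_pow, cen_cj]
  exact hm

lemma K09_not_cen (B : SL(2, F)) (hB : (tr B) ^ 2 ≠ 4) : ¬ Cen B := by
  rintro (rfl | rfl)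
  · apply hB; rw [tr_one]; norm_num
  · apply hB; rw [tr_neg, tr_one]; norm_num

variable [Fintype F] [DecidableEq F]

lemma K09_prod {α β : Type} [Fintype α] [Fintype β] (P : α → β → Prop)
    [∀ a, DecidablePred (P a)] [DecidablePred fun t : α × β => P t.1 t.2] :
    (univ.filter fun t : α × β => P t.1 t.2).card = ∑ a, (univ.filter fun b => P a b).card := by
  simp only [Finset.card_filter]
  rw [Fintype.sum_prod_type]
  refine Finset.sum_congr rfl fun a _ => Finset.sum_congr rfl fun b _ => ?_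
  congr

lemma K09_prod' {α β : Type} [Fintype α] [Fintype β] (P : α → β → Prop)
    [∀ b, DecidablePred (fun a => P a b)] [DecidablePred fun t : α × β => P t.1 t.2] :
    (univ.filter fun t : α × β => P t.1 t.2).card = ∑ b, (univ.filter fun a => P a b).card := by
  simp only [Finset.card_filter]
  rw [Fintype.sum_prod_type_right]
  refine Finset.sum_congr rfl fun a _ => Finset.sum_congr rfl fun b _ => ?_
  congr

lemma K09_low1 (t : F) (ht : t ^ 2 ≠ 4) (Z : SL(2, F)) (hZ : tr Z = t) (s : F) (hs : s ^ 2 ≠ 4)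
    (hs2 : s ^ 2 ≠ t + 2) :
    (Fintype.card F - 2) * (Fintype.card F - 2) ≤
    (univ.filter fun p : SL(2, F) × SL(2, F) =>
      p.1 * p.2 * p.1⁻¹ * p.2⁻¹ = Z ∧ tr p.1 = s).card := by
  have hZc : ¬ Cen Z := K09_not_cen Z (by rw [hZ]; exact ht)
  have hS : S3 s s (tr Z) ≠ 0 := by
    rw [hZ]
    have e : S3 s s t = (t - 2) * (t + 2 - s ^ 2) := by rw [S3]; ring
    rw [e]
    refine mul_ne_zero ?_ ?_
    · intro h
      apply ht
      have : t = 2 := by linear_combination h
      rw [this]; norm_num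
    · intro h
      apply hs2
      linear_combination -h
  have h1 := card_pair_ge Z hZc s s hS
  rw [K09_prod (fun A B : SL(2, F) => A * B * A⁻¹ * B⁻¹ = Z ∧ tr A = s)]
  have h2 : ∀ A ∈ (univ.filter fun X : SL(2, F) => tr X = s ∧ tr (X⁻¹ * Z) = s),
      Fintype.card F - 2 ≤ (univ.filter fun B : SL(2, F) => A * B * A⁻¹ * B⁻¹ = Z ∧ tr A = s).card := by
    intro A hA
    simp only [mem_filter, mem_univ, true_and] at hA
    have h3 := card_conj_ge A⁻¹ (A⁻¹ * Z) (by rw [tr_inv, hA.1]; exact hs) (by rw [tr_inv, hA.1, hA.2])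
    refine h3.trans (Finset.card_le_card ?_)
    intro B hB
    simp only [mem_filter, mem_univ, true_and] at hB ⊢
    refine ⟨?_, hA.1⟩
    rw [mul_assoc A B, mul_assoc A, hB, mul_inv_cancel_left]
  calc (Fintype.card F - 2) * (Fintype.card F - 2)
      ≤ (univ.filter fun X : SL(2, F) => tr X = s ∧ tr (X⁻¹ * Z) = s).card * (Fintype.card F - 2) :=
        Nat.mul_le_mul_right _ h1
    _ = ∑ _A ∈ (univ.filter fun X : SL(2, F) => tr X = s ∧ tr (X⁻¹ * Z) = s),
          (Fintype.card F - 2) := by rw [Finset.sum_const, smul_eq_mul]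
    _ ≤ ∑ A ∈ (univ.filter fun X : SL(2, F) => tr X = s ∧ tr (X⁻¹ * Z) = s),
          (univ.filter fun B : SL(2, F) => A * B * A⁻¹ * B⁻¹ = Z ∧ tr A = s).card :=
        Finset.sum_le_sum h2
    _ ≤ _ := Finset.sum_le_sum_of_subset (Finset.subset_univ _)

lemma K09_low2 (t : F) (ht : t ^ 2 ≠ 4) (Z : SL(2, F)) (hZ : tr Z = t) :
    (Fintype.card F - 4) * ((Fintype.card F - 2) * (Fintype.card F - 2)) ≤
    (univ.filter fun p : SL(2, F) × SL(2, F) => p.1 * p.2 * p.1⁻¹ * p.2⁻¹ = Z).card := by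
  rw [Finset.card_eq_sum_card_fiberwise (f := fun p : SL(2, F) × SL(2, F) => tr p.1) (t := univ)
    (fun _ _ => mem_univ _)]
  have hcard : Fintype.card F - 4 ≤ (univ.filter fun s : F => s ^ 2 ≠ 4 ∧ s ^ 2 ≠ t + 2).card := by
    have h1 := quad_card (0 : F) (-4 : F)
    have h3 := quad_card (0 : F) (-(t + 2) : F)
    have h2 := Finset.card_filter_add_card_filter_not (s := (univ : Finset F))
      (fun s : F => s ^ 2 ≠ 4 ∧ s ^ 2 ≠ t + 2)
    have h4 : (univ.filter fun s : F => ¬ (s ^ 2 ≠ 4 ∧ s ^ 2 ≠ t + 2)).card ≤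
        (univ.filter fun y : F => y ^ 2 + 0 * y + (-4) = 0).card +
        (univ.filter fun y : F => y ^ 2 + 0 * y + (-(t + 2)) = 0).card := by
      refine le_trans (Finset.card_le_card ?_) (Finset.card_union_le _ _)
      intro s hs
      simp only [mem_filter, mem_univ, true_and, mem_union] at hs ⊢
      by_cases h5 : s ^ 2 = 4
      · left; linear_combination h5
      · right
        by_contra h6
        apply hs
        refine ⟨h5, fun h7 => h6 ?_⟩
        linear_combination h7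
    rw [card_univ] at h2
    omega
  calc (Fintype.card F - 4) * ((Fintype.card F - 2) * (Fintype.card F - 2))
      ≤ (univ.filter fun s : F => s ^ 2 ≠ 4 ∧ s ^ 2 ≠ t + 2).card *
        ((Fintype.card F - 2) * (Fintype.card F - 2)) := Nat.mul_le_mul_right _ hcard
    _ = ∑ _s ∈ (univ.filter fun s : F => s ^ 2 ≠ 4 ∧ s ^ 2 ≠ t + 2),
          ((Fintype.card F - 2) * (Fintype.card F - 2)) := by rw [Finset.sum_const, smul_eq_mul]
    _ ≤ ∑ s ∈ (univ.filter fun s : F => s ^ 2 ≠ 4 ∧ s ^ 2 ≠ t + 2),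
        ((univ.filter fun p : SL(2, F) × SL(2, F) => p.1 * p.2 * p.1⁻¹ * p.2⁻¹ = Z).filter
          fun p => tr p.1 = s).card := by
        apply Finset.sum_le_sum
        intro s hs
        simp only [mem_filter, mem_univ, true_and] at hs
        rw [Finset.filter_filter]
        exact K09_low1 t ht Z hZ s hs.1 hs.2
    _ ≤ _ := Finset.sum_le_sum_of_subset (Finset.subset_univ _)

lemma K09_low3 (X : SL(2, F)) (ht : (tr X) ^ 2 ≠ 4) (m : ℕ) (hX : Cen (X ^ m)) :
    (Fintype.card F * (Fintype.card F - 1)) *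
      ((Fintype.card F - 4) * ((Fintype.card F - 2) * (Fintype.card F - 2))) ≤
    (univ.filter fun p : SL(2, F) × SL(2, F) => Cen ((p.1 * p.2 * p.1⁻¹ * p.2⁻¹) ^ m)).card := by
  rw [Finset.card_eq_sum_card_fiberwise
    (f := fun p : SL(2, F) × SL(2, F) => p.1 * p.2 * p.1⁻¹ * p.2⁻¹) (t := univ)
    (fun _ _ => mem_univ _)]
  calc _ ≤ (univ.filter fun B : SL(2, F) => tr B = tr X ∧ ¬ Cen B).card *
        ((Fintype.card F - 4) * ((Fintype.card F - 2) * (Fintype.card F - 2))) :=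
        Nat.mul_le_mul_right _ (card_tr_ge (tr X))
    _ = ∑ _Z ∈ (univ.filter fun B : SL(2, F) => tr B = tr X ∧ ¬ Cen B),
          ((Fintype.card F - 4) * ((Fintype.card F - 2) * (Fintype.card F - 2))) := by
        rw [Finset.sum_const, smul_eq_mul]
    _ ≤ ∑ Z ∈ (univ.filter fun B : SL(2, F) => tr B = tr X ∧ ¬ Cen B),
        ((univ.filter fun p : SL(2, F) × SL(2, F) => Cen ((p.1 * p.2 * p.1⁻¹ * p.2⁻¹) ^ m)).filter
          fun p => p.1 * p.2 * p.1⁻¹ * p.2⁻¹ = Z).card := by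
        apply Finset.sum_le_sum
        intro Z hZ
        simp only [mem_filter, mem_univ, true_and] at hZ
        refine (K09_low2 (tr X) ht Z hZ.1).trans (Finset.card_le_card ?_)
        intro p hp
        simp only [mem_filter, mem_univ, true_and] at hp ⊢
        refine ⟨?_, hp⟩
        rw [hp]
        exact K09_cen_of_tr X Z (K09_not_cen X ht) hZ.2 hZ.1 m hX
    _ ≤ _ := Finset.sum_le_sum_of_subset (Finset.subset_univ _)

open scoped Classical in

lemma K09_fib (A : SL(2, F)) (hA : ¬ Cen A) (m : ℕ) (hm : 0 < m) :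
    (univ.filter fun B : SL(2, F) => Cen ((A * B * A⁻¹ * B⁻¹) ^ m)).card ≤
      (2 * Fintype.card F) * (2 * m * (2 * Fintype.card F)) := by
  have hA' : ¬ Cen A⁻¹ := fun h => hA ((K09_cen_inv A).1 h)
  have h1 : (univ.filter fun B : SL(2, F) => Cen ((A * B * A⁻¹ * B⁻¹) ^ m)).card ≤
      (2 * Fintype.card F) * (univ.filter fun Y : SL(2, F) => tr Y = tr A ∧
        ∃ X : SL(2, F), tr X = tr (A * Y) ∧ Cen (X ^ m)).card := by
    apply Finset.card_le_mul_card_image_of_maps_to (f := fun B : SL(2, F) => B * A⁻¹ * B⁻¹)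
    · intro B hB
      simp only [mem_filter, mem_univ, true_and] at hB ⊢
      refine ⟨by rw [tr_conj, tr_inv], A * B * A⁻¹ * B⁻¹, ?_, hB⟩
      simp only [mul_assoc]
    · intro Y _
      refine le_trans (Finset.card_le_card ?_) (card_conj_le A⁻¹ Y hA')
      intro B hB
      simp only [mem_filter, mem_univ, true_and] at hB ⊢
      exact hB.2
  have h2 : (univ.filter fun Y : SL(2, F) => tr Y = tr A ∧
        ∃ X : SL(2, F), tr X = tr (A * Y) ∧ Cen (X ^ m)).card ≤
      (2 * Fintype.card F) * (univ.filter fun t : F => ∃ X : SL(2, F), tr X = t ∧ Cen (X ^ m)).card := by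
    apply Finset.card_le_mul_card_image_of_maps_to (f := fun Y : SL(2, F) => tr (A * Y))
    · intro Y hY
      simp only [mem_filter, mem_univ, true_and] at hY ⊢
      exact hY.2
    · intro u _
      refine le_trans (Finset.card_le_card ?_) (card_two A hA (tr A) u)
      intro Y hY
      simp only [mem_filter, mem_univ, true_and] at hY ⊢
      exact ⟨hY.1.1, hY.2⟩
  have h3 := tset_card F m hm
  calc _ ≤ _ := h1
    _ ≤ (2 * Fintype.card F) * ((2 * Fintype.card F) * (2 * m)) :=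
        Nat.mul_le_mul_left _ (h2.trans (Nat.mul_le_mul_left _ h3))
    _ = _ := by ring

open scoped Classical in
lemma K09_fib' (B : SL(2, F)) (hB : ¬ Cen B) (m : ℕ) (hm : 0 < m) :
    (univ.filter fun A : SL(2, F) => Cen ((A * B * A⁻¹ * B⁻¹) ^ m)).card ≤
      (2 * Fintype.card F) * (2 * m * (2 * Fintype.card F)) := by
  refine le_trans (Finset.card_le_card ?_) (K09_fib B hB m hm)
  intro A hA
  simp only [mem_filter, mem_univ, true_and] at hA ⊢
  have e : B * A * B⁻¹ * A⁻¹ = (A * B * A⁻¹ * B⁻¹)⁻¹ := by group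
  rw [e, inv_pow, K09_cen_inv]
  exact hA

lemma K09_E1 : (univ.filter fun p : SL(2, F) × SL(2, F) =>
    Cen (p.1 * p.2 * p.1⁻¹ * p.2⁻¹)).card ≤
    2 * (2 * Fintype.card F ^ 3) + (2 * Fintype.card F ^ 3) * (4 * Fintype.card F) := by
  rw [K09_prod (fun A B : SL(2, F) => Cen (A * B * A⁻¹ * B⁻¹))]
  rw [← Finset.sum_filter_add_sum_filter_not univ (fun A : SL(2, F) => Cen A)]
  apply Nat.add_le_add
  · calc _ ≤ ∑ _A ∈ univ.filter (fun A : SL(2, F) => Cen A), (2 * Fintype.card F ^ 3) := by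
          apply Finset.sum_le_sum
          intro A _
          refine (Finset.card_le_univ _).trans card_sl_le
      _ = (univ.filter (fun A : SL(2, F) => Cen A)).card * (2 * Fintype.card F ^ 3) := by
          rw [Finset.sum_const, smul_eq_mul]
      _ ≤ 2 * (2 * Fintype.card F ^ 3) := by
          apply Nat.mul_le_mul_right
          refine le_trans (Finset.card_le_card (t := {1, -1}) ?_) (Finset.card_le_two)
          intro A hA
          simp only [mem_filter, mem_univ, true_and] at hA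
          rcases hA with h | h
          · simp [h]
          · simp [h]
  · calc _ ≤ ∑ _A ∈ univ.filter (fun A : SL(2, F) => ¬ Cen A), (4 * Fintype.card F) := by
          apply Finset.sum_le_sum
          intro A hA
          simp only [mem_filter, mem_univ, true_and] at hA
          have hA' : ¬ Cen A⁻¹ := fun h => hA ((K09_cen_inv A).1 h)
          have h1 := card_conj_le A⁻¹ A⁻¹ hA'
          have h2 := card_conj_le A⁻¹ (-A⁻¹) hA'
          have h3 : (univ.filter fun B : SL(2, F) => Cen (A * B * A⁻¹ * B⁻¹)).card ≤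
              (univ.filter fun B : SL(2, F) => B * A⁻¹ * B⁻¹ = A⁻¹).card +
              (univ.filter fun B : SL(2, F) => B * A⁻¹ * B⁻¹ = -A⁻¹).card := by
            refine le_trans (Finset.card_le_card ?_) (Finset.card_union_le _ _)
            intro B hB
            simp only [mem_filter, mem_univ, true_and, mem_union] at hB ⊢
            rcases hB with h | h
            · left
              have e : B * A⁻¹ * B⁻¹ = A⁻¹ * (A * B * A⁻¹ * B⁻¹) := by group
              rw [e, h, mul_one]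
            · right
              have e : B * A⁻¹ * B⁻¹ = A⁻¹ * (A * B * A⁻¹ * B⁻¹) := by group
              rw [e, h, mul_neg, mul_one]
          omega
      _ = (univ.filter (fun A : SL(2, F) => ¬ Cen A)).card * (4 * Fintype.card F) := by
          rw [Finset.sum_const, smul_eq_mul]
      _ ≤ (2 * Fintype.card F ^ 3) * (4 * Fintype.card F) := by
          apply Nat.mul_le_mul_right
          exact (Finset.card_le_univ _).trans card_sl_le

lemma K09_E2 (m : ℕ) (hm : 0 < m) : (univ.filter fun p : SL(2, F) × SL(2, F) =>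
    tr p.2 = 0 ∧ ¬ Cen p.2 ∧ Cen ((p.1 * p.2 * p.1⁻¹ * p.2⁻¹) ^ m)).card ≤
    (2 * Fintype.card F * Fintype.card F) *
      ((2 * Fintype.card F) * (2 * m * (2 * Fintype.card F))) := by
  classical
  rw [K09_prod' (fun A B : SL(2, F) => tr B = 0 ∧ ¬ Cen B ∧ Cen ((A * B * A⁻¹ * B⁻¹) ^ m))]
  calc _ ≤ ∑ B : SL(2, F), (if tr B = 0 then ((2 * Fintype.card F) * (2 * m * (2 * Fintype.card F)))
          else 0) := by
        apply Finset.sum_le_sum
        intro B _
        by_cases hB : tr B = 0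
        · rw [if_pos hB]
          by_cases hBc : Cen B
          · rw [Finset.card_eq_zero.2]
            · exact Nat.zero_le _
            · apply Finset.filter_eq_empty_iff.2
              intro A _ h
              exact h.2.1 hBc
          · refine le_trans (Finset.card_le_card ?_) (K09_fib' B hBc m hm)
            intro A hA
            simp only [mem_filter, mem_univ, true_and] at hA ⊢
            exact hA.2.2
        · rw [if_neg hB]
          apply le_of_eq
          rw [Finset.card_eq_zero]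
          apply Finset.filter_eq_empty_iff.2
          intro A _ h
          exact hB h.1
    _ = (univ.filter fun B : SL(2, F) => tr B = 0).card *
          ((2 * Fintype.card F) * (2 * m * (2 * Fintype.card F))) := by
        rw [← Finset.sum_filter, Finset.sum_const, smul_eq_mul]
    _ ≤ _ := Nat.mul_le_mul_right _ (card_tr_le 0)

open scoped Classical in
lemma K09_E3 (m : ℕ) (hm : 0 < m) : (univ.filter fun p : SL(2, F) × SL(2, F) =>
    IsXi F (tr p.1) ∧ ¬ Cen p.1 ∧ Cen ((p.1 * p.2 * p.1⁻¹ * p.2⁻¹) ^ m)).card ≤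
    (2 * Fintype.card F * Fintype.card F * (univ.filter fun t : F => IsXi F t).card) *
      ((2 * Fintype.card F) * (2 * m * (2 * Fintype.card F))) := by
  rw [K09_prod (fun A B : SL(2, F) => IsXi F (tr A) ∧ ¬ Cen A ∧ Cen ((A * B * A⁻¹ * B⁻¹) ^ m))]
  calc _ ≤ ∑ A : SL(2, F), (if IsXi F (tr A) then ((2 * Fintype.card F) * (2 * m * (2 * Fintype.card F)))
          else 0) := by
        apply Finset.sum_le_sum
        intro A _
        by_cases hA : IsXi F (tr A)
        · rw [if_pos hA]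
          by_cases hAc : Cen A
          · rw [Finset.card_eq_zero.2]
            · exact Nat.zero_le _
            · apply Finset.filter_eq_empty_iff.2
              intro B _ h
              exact h.2.1 hAc
          · refine le_trans (Finset.card_le_card ?_) (K09_fib A hAc m hm)
            intro B hB
            simp only [mem_filter, mem_univ, true_and] at hB ⊢
            exact hB.2.2
        · rw [if_neg hA]
          apply le_of_eq
          rw [Finset.card_eq_zero]
          apply Finset.filter_eq_empty_iff.2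
          intro B _ h
          exact hA h.1
    _ = (univ.filter fun A : SL(2, F) => IsXi F (tr A)).card *
          ((2 * Fintype.card F) * (2 * m * (2 * Fintype.card F))) := by
        rw [← Finset.sum_filter, Finset.sum_const, smul_eq_mul]
    _ ≤ _ := by
        apply Nat.mul_le_mul_right
        apply Finset.card_le_mul_card_image_of_maps_to (f := fun A : SL(2, F) => tr A)
        · intro A hA
          simp only [mem_filter, mem_univ, true_and] at hA ⊢
          exact hA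
        · intro u _
          refine le_trans (Finset.card_le_card ?_) (card_tr_le u)
          intro A hA
          simp only [mem_filter, mem_univ, true_and] at hA ⊢
          exact hA.2

open scoped Classical in

lemma K09_bad (m : ℕ) (hm : 0 < m) (hmF : (m : F) ≠ 0) :
    (univ.filter fun p : SL(2, F) × SL(2, F) =>
      Cen ((p.1 * p.2 * p.1⁻¹ * p.2⁻¹) ^ m) ∧ Subgroup.closure {p.1, p.2, -1} ≠ ⊤).card ≤
    (2 * (2 * Fintype.card F ^ 3) + (2 * Fintype.card F ^ 3) * (4 * Fintype.card F)) +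
    ((2 * Fintype.card F * Fintype.card F) *
      ((2 * Fintype.card F) * (2 * m * (2 * Fintype.card F))) +
    (2 * Fintype.card F * Fintype.card F * (univ.filter fun t : F => IsXi F t).card) *
      ((2 * Fintype.card F) * (2 * m * (2 * Fintype.card F)))) := by
  refine le_trans ?_ (Nat.add_le_add (K09_E1 (F := F))
    (Nat.add_le_add (K09_E2 (F := F) m hm) (K09_E3 (F := F) m hm)))
  refine le_trans ?_ (Nat.add_le_add_left (Finset.card_union_le _ _) _)
  refine le_trans (Finset.card_le_card ?_) (Finset.card_union_le _ _)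
  rintro ⟨A, B⟩ hp
  simp only [mem_filter, mem_univ, true_and, mem_union] at hp ⊢
  obtain ⟨hc, hg⟩ := hp
  by_cases h1 : Cen (A * B * A⁻¹ * B⁻¹)
  · exact Or.inl h1
  · right
    have hA : ¬ Cen A := by
      rintro (rfl | rfl)
      · apply h1; left; simp
      · apply h1; left; simp
    have hB : ¬ Cen B := by
      rintro (rfl | rfl)
      · apply h1; left; simp
      · apply h1; left; simp
    rcases gen_crit F A B hg with h | h | h
    · exfalso
      have hf := fricke A B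
      rw [h] at hf
      exact h1 (K09_uni _ (by linear_combination hf) m hmF hc)
    · rcases h with h | h | h
      · right
        exact ⟨Or.inl h.1, hA, hc⟩
      · right
        exact ⟨Or.inl h.1, hA, hc⟩
      · left
        exact ⟨h.1, hB, hc⟩
    · right
      exact ⟨h A (Subgroup.subset_closure (by simp)), hA, hc⟩

lemma K09_t (X : SL(2, F)) (r : ℕ) (hr : r.Prime) (hrq : Nat.Coprime r (Fintype.card F))
    (ho : orderOf (QuotientGroup.mk' (Subgroup.center SL(2, F)) X) = r) : (tr X) ^ 2 ≠ 4 := by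
  intro h
  set π := QuotientGroup.mk' (Subgroup.center SL(2, F)) with hπ
  obtain ⟨n, hp, hn⟩ := FiniteField.card F (ringChar F)
  have hp0 : ((ringChar F : ℕ) : F) = 0 := ringChar.Nat.cast_ringChar
  have hkey : π X ^ (ringChar F) = 1 := by
    have h' : (tr X - 2) * (tr X + 2) = 0 := by linear_combination h
    rcases mul_eq_zero.1 h' with h2 | h2
    · rw [← map_pow, K09_p X (by linear_combination h2) _ hp0, map_one]
    · have h3 := K09_p (-X) (by rw [tr_neg]; linear_combination -h2) _ hp0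
      have h4 : π X = π (-X) := by
        rw [hπ, QuotientGroup.mk'_apply, QuotientGroup.mk'_apply, QuotientGroup.eq,
          mem_center_iff']
        right
        simp
      rw [h4, ← map_pow, h3, map_one]
  have h5 : r ∣ ringChar F := by
    rw [← ho]
    exact orderOf_dvd_of_pow_eq_one hkey
  have h6 : r = ringChar F := (Nat.prime_dvd_prime_iff_eq hr hp).1 h5
  have h7 : r ∣ Fintype.card F := by
    rw [hn, h6]
    exact dvd_pow_self _ n.ne_zero
  have h8 := Nat.Coprime.eq_one_of_dvd hrq h7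
  exact hr.one_lt.ne' h8

def K09_pi (F : Type) [Field F] : SL(2, F) →* PSL(2, F) :=
  QuotientGroup.mk' (Subgroup.center SL(2, F))

lemma K09_pi_surj : Function.Surjective (K09_pi F) := QuotientGroup.mk'_surjective _

lemma K09_pi_eq (A B : SL(2, F)) : K09_pi F A = K09_pi F B ↔ B = A ∨ B = -A := by
  unfold K09_pi
  rw [QuotientGroup.mk'_apply, QuotientGroup.mk'_apply, QuotientGroup.eq, mem_center_iff']
  unfold Cen
  constructor
  · rintro (h | h)
    · left
      rw [inv_mul_eq_one] at h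
      exact h.symm
    · right
      rw [inv_mul_eq_iff_eq_mul] at h
      rw [h, mul_neg, mul_one]
  · rintro (rfl | rfl)
    · left; simp
    · right; simp

lemma K09_pi_one (A : SL(2, F)) : K09_pi F A = 1 ↔ Cen A := by
  unfold K09_pi
  rw [QuotientGroup.mk'_apply, QuotientGroup.eq_one_iff, mem_center_iff']

lemma K09_gen (A B : SL(2, F)) (h : Subgroup.closure {A, B, -1} = ⊤) :
    Subgroup.closure {K09_pi F A, K09_pi F B} = ⊤ := by
  have h1 : Subgroup.map (K09_pi F) (Subgroup.closure {A, B, -1}) = ⊤ := by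
    rw [h, ← MonoidHom.range_eq_map]
    exact MonoidHom.range_eq_top.2 K09_pi_surj
  rw [MonoidHom.map_closure] at h1
  rw [eq_top_iff, ← h1, Subgroup.closure_le]
  rintro _ ⟨X, hX, rfl⟩
  simp only [Set.mem_insert_iff, Set.mem_singleton_iff] at hX
  rcases hX with rfl | rfl | rfl
  · exact Subgroup.subset_closure (by simp)
  · exact Subgroup.subset_closure (by simp)
  · have : K09_pi F (-1) = 1 := (K09_pi_one _).2 (Or.inr rfl)
    rw [this]
    exact Subgroup.one_mem _

lemma K09_XS (G : Type) [Group G] [Fintype G] [DecidableEq G] (m : ℕ) (l : List G) :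
    l ∈ XS G [m] ↔ ∃ x, x ^ m = 1 ∧ l = [x] := by
  simp only [XS, Finset.mem_image₂, tor, mem_filter, mem_univ, true_and, mem_singleton]
  constructor
  · rintro ⟨x, hx, _, rfl, rfl⟩
    exact ⟨x, hx, rfl⟩
  · rintro ⟨x, hx, rfl⟩
    exact ⟨x, hx, [], rfl, rfl⟩

lemma K09_tot (G : Type) [Group G] [Fintype G] [DecidableEq G] (m : ℕ) :
    (univ.filter fun t : G × G => (t.1 * t.2 * t.1⁻¹ * t.2⁻¹) ^ m = 1).card ≤
      (O1set G [m]).card := by
  apply Finset.card_le_card_of_injOn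
    (fun t : G × G => (([(t.1 * t.2 * t.1⁻¹ * t.2⁻¹)⁻¹], t.1, t.2) : List G × G × G))
  · intro t ht
    simp only [coe_filter, mem_univ, true_and] at ht
    have ht' : (t.1 * t.2 * t.1⁻¹ * t.2⁻¹) ^ m = 1 := ht
    rw [Finset.mem_coe, O1set, mem_filter, mem_product, K09_XS]
    refine ⟨⟨⟨_, ?_, rfl⟩, mem_univ _⟩, ?_⟩
    · rw [inv_pow, ht', inv_one]
    · simp only [List.prod_singleton, inv_mul_cancel]
  · intro t _ t' _ h
    simp only [Prod.mk.injEq] at h
    exact Prod.ext h.2.1 h.2.2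

open scoped Classical in
lemma K09_tbad (G : Type) [Group G] [Fintype G] [DecidableEq G] (m : ℕ) :
    ((O1set G [m]).filter fun t => ¬ O1gen t).card ≤
    (univ.filter fun t : G × G => (t.1 * t.2 * t.1⁻¹ * t.2⁻¹) ^ m = 1 ∧
      Subgroup.closure {t.1, t.2} ≠ ⊤).card := by
  have key : ∀ t ∈ O1set G [m], (t.2.1 * t.2.2 * t.2.1⁻¹ * t.2.2⁻¹) ^ m = 1 ∧
      t.1 = [(t.2.1 * t.2.2 * t.2.1⁻¹ * t.2.2⁻¹)⁻¹] := by
    intro t ht
    rw [O1set, mem_filter, mem_product, K09_XS] at ht
    obtain ⟨⟨⟨x, hx, hl⟩, -⟩, hp⟩ := ht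
    rw [hl, List.prod_singleton] at hp
    have hx' : x = (t.2.1 * t.2.2 * t.2.1⁻¹ * t.2.2⁻¹)⁻¹ := eq_inv_of_mul_eq_one_left hp
    refine ⟨?_, by rw [hl, hx']⟩
    rw [hx', inv_pow, inv_eq_one] at hx
    exact hx
  apply Finset.card_le_card_of_injOn (fun t : List G × G × G => t.2)
  · intro t ht
    rw [Finset.mem_coe, mem_filter] at ht
    obtain ⟨h1, h2⟩ := ht
    rw [Finset.mem_coe, mem_filter]
    refine ⟨mem_univ _, (key t h1).1, ?_⟩
    intro h3
    apply h2
    unfold O1gen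
    rw [eq_top_iff, ← h3]
    exact Subgroup.closure_mono Set.subset_union_right
  · intro t ht t' ht' h
    rw [Finset.mem_coe, mem_filter] at ht ht'
    have e : t.2 = t'.2 := h
    refine Prod.ext ?_ e
    rw [(key t ht.1).2, (key t' ht'.1).2, e]

lemma K09_four [Fintype PSL(2, F)] [DecidableEq PSL(2, F)] (m : ℕ) :
    (univ.filter fun p : SL(2, F) × SL(2, F) => Cen ((p.1 * p.2 * p.1⁻¹ * p.2⁻¹) ^ m)).card ≤
    4 * (univ.filter fun t : PSL(2, F) × PSL(2, F) =>
      (t.1 * t.2 * t.1⁻¹ * t.2⁻¹) ^ m = 1).card := by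
  apply Finset.card_le_mul_card_image_of_maps_to
    (f := fun p : SL(2, F) × SL(2, F) => (K09_pi F p.1, K09_pi F p.2))
  · intro p hp
    simp only [mem_filter, mem_univ, true_and] at hp ⊢
    rw [← K09_pi_one] at hp
    simpa only [map_pow, map_mul, map_inv] using hp
  · rintro ⟨a, b⟩ _
    obtain ⟨A, rfl⟩ := K09_pi_surj a
    obtain ⟨B, rfl⟩ := K09_pi_surj b
    have hs : ((univ.filter fun p : SL(2, F) × SL(2, F) =>
        Cen ((p.1 * p.2 * p.1⁻¹ * p.2⁻¹) ^ m)).filter
        fun p => (K09_pi F p.1, K09_pi F p.2) = (K09_pi F A, K09_pi F B)) ⊆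
        ({A, -A} : Finset SL(2, F)) ×ˢ ({B, -B} : Finset SL(2, F)) := by
      intro p hp
      simp only [mem_filter, mem_univ, true_and, Prod.mk.injEq] at hp
      have h1 := (K09_pi_eq A p.1).1 hp.2.1.symm
      have h2 := (K09_pi_eq B p.2).1 hp.2.2.symm
      simp only [mem_product, mem_insert, mem_singleton]
      exact ⟨h1, h2⟩
    refine (Finset.card_le_card hs).trans ?_
    rw [card_product]
    calc _ ≤ 2 * 2 := Nat.mul_le_mul Finset.card_le_two Finset.card_le_two
      _ = 4 := rfl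

open scoped Classical in
lemma K09_lift [Fintype PSL(2, F)] (m : ℕ) :
    (univ.filter fun t : PSL(2, F) × PSL(2, F) => (t.1 * t.2 * t.1⁻¹ * t.2⁻¹) ^ m = 1 ∧
      Subgroup.closure {t.1, t.2} ≠ ⊤).card ≤
    (univ.filter fun p : SL(2, F) × SL(2, F) =>
      Cen ((p.1 * p.2 * p.1⁻¹ * p.2⁻¹) ^ m) ∧ Subgroup.closure {p.1, p.2, -1} ≠ ⊤).card := by
  apply Finset.card_le_card_of_surjOn
    (fun p : SL(2, F) × SL(2, F) => (K09_pi F p.1, K09_pi F p.2))
  rintro ⟨a, b⟩ ht
  rw [Finset.mem_coe, mem_filter] at ht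
  obtain ⟨-, h1, h2⟩ := ht
  obtain ⟨A, rfl⟩ := K09_pi_surj a
  obtain ⟨B, rfl⟩ := K09_pi_surj b
  refine ⟨(A, B), ?_, rfl⟩
  rw [Finset.mem_coe, mem_filter]
  refine ⟨mem_univ _, ?_, fun h3 => h2 (K09_gen A B h3)⟩
  rw [← K09_pi_one]
  simpa only [map_pow, map_mul, map_inv] using h1

open scoped Classical in
lemma K09_main (m : ℕ) (hm : 0 < m) [Fintype PSL(2, F)] [DecidableEq PSL(2, F)]
    (hN : 8 ≤ Fintype.card F) (hmG : ¬ Nat.Coprime m (Fintype.card PSL(2, F)))
    (hmq : Nat.Coprime m (Fintype.card F)) :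
    0 < (O1set PSL(2, F) [m]).card ∧
      (((O1set PSL(2, F) [m]).filter fun t => ¬ O1gen t).card : ℝ) *
        Real.sqrt (Fintype.card F) ≤ (64 * (12 + 7776 * (m : ℝ))) *
          ((O1set PSL(2, F) [m]).card : ℝ) := by

  obtain ⟨r, hr, hrm, hrG⟩ := Nat.Prime.not_coprime_iff_dvd.1 hmG
  have : Fact r.Prime := ⟨hr⟩
  obtain ⟨g, hg⟩ := exists_prime_orderOf_dvd_card r hrG
  obtain ⟨X, rfl⟩ := K09_pi_surj g
  have ht : (tr X) ^ 2 ≠ 4 := K09_t X r hr (Nat.Coprime.coprime_dvd_left hrm hmq) hg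
  have hXm : Cen (X ^ m) := by
    rw [← K09_pi_one, map_pow]
    exact orderOf_dvd_iff_pow_eq_one.1 (hg ▸ hrm)
  have hmF : (m : F) ≠ 0 := by
    intro h0
    obtain ⟨n, hp, hn⟩ := FiniteField.card F (ringChar F)
    have h1 : ringChar F ∣ m := (ringChar.spec F m).1 h0
    have h2 : ringChar F ∣ Fintype.card F := by
      rw [hn]
      exact dvd_pow_self _ n.ne_zero
    have h3 := Nat.dvd_gcd h1 h2
    rw [hmq] at h3
    exact hp.one_lt.ne' (Nat.dvd_one.1 h3)
  set Q := Fintype.card F with hQ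
  have l1 := K09_low3 X ht m hXm
  rw [← hQ] at l1
  have l2 := K09_four (F := F) m
  have l3 := K09_tot PSL(2, F) m
  set O := (O1set PSL(2, F) [m]).card with hO
  have l4 : Q ^ 5 ≤ 16 * ((Q * (Q - 1)) * ((Q - 4) * ((Q - 2) * (Q - 2)))) := by
    have a1 : Q ≤ 2 * (Q - 1) := by omega
    have a2 : Q ≤ 2 * (Q - 4) := by omega
    have a3 : Q ≤ 2 * (Q - 2) := by omega
    calc Q ^ 5 = (Q * Q) * (Q * (Q * Q)) := by ring
      _ ≤ (Q * (2 * (Q - 1))) * ((2 * (Q - 4)) * ((2 * (Q - 2)) * (2 * (Q - 2)))) := by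
        apply Nat.mul_le_mul (Nat.mul_le_mul_left _ a1)
        exact Nat.mul_le_mul a2 (Nat.mul_le_mul a3 a3)
      _ = _ := by ring
  have l5 : Q ^ 5 ≤ 64 * O := by
    calc Q ^ 5 ≤ _ := l4
      _ ≤ 16 * (4 * O) := Nat.mul_le_mul_left _ (l1.trans (l2.trans (Nat.mul_le_mul_left _ l3)))
      _ = 64 * O := by ring
  have hQ0 : 0 < Q := by omega
  have hO0 : 0 < O := by
    by_contra h
    have h' : O = 0 := by omega
    rw [h', mul_zero] at l5
    have := pow_pos hQ0 5
    omega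
  refine ⟨hO0, ?_⟩
  have b1 := K09_tbad PSL(2, F) m
  have b2 := K09_lift (F := F) m
  have b3 := K09_bad (F := F) m hm hmF
  rw [← hQ] at b3
  have b4 := xi_card F
  rw [← hQ] at b4
  set x := (univ.filter fun t : F => IsXi F t).card with hx
  set b := ((O1set PSL(2, F) [m]).filter fun t => ¬ O1gen t).card with hb
  have b5 : b ≤ (2 * (2 * Q ^ 3) + (2 * Q ^ 3) * (4 * Q)) +
    ((2 * Q * Q) * ((2 * Q) * (2 * m * (2 * Q))) +
    (2 * Q * Q * x) * ((2 * Q) * (2 * m * (2 * Q)))) := by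
    refine le_trans (le_trans b1 (le_trans (Finset.card_le_card ?_) b2)) b3
    intro t ht
    simp only [mem_filter, mem_univ, true_and] at ht ⊢
    exact ht
  set s := Real.sqrt (Q : ℝ) with hs
  have hq0 : (0 : ℝ) ≤ (Q : ℝ) := Nat.cast_nonneg _
  have hs2 : s * s = (Q : ℝ) := Real.mul_self_sqrt hq0
  have hq1 : (1 : ℝ) ≤ (Q : ℝ) := by exact_mod_cast hQ0
  have hs1 : 1 ≤ s := by
    rw [hs]
    exact Real.one_le_sqrt.2 hq1
  have hs0 : 0 ≤ s := by linarith
  have hsq : s ≤ (Q : ℝ) := by nlinarith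
  have b6 : (b : ℝ) ≤ (4 * (Q : ℝ) ^ 3 + 8 * (Q : ℝ) ^ 4 + 16 * m * (Q : ℝ) ^ 4 +
      16 * m * (Q : ℝ) ^ 4 * (481 + 4 * s)) := by
    have c1 : (b : ℝ) ≤ ((2 * (2 * Q ^ 3) + (2 * Q ^ 3) * (4 * Q)) +
      ((2 * Q * Q) * ((2 * Q) * (2 * m * (2 * Q))) +
      (2 * Q * Q * x) * ((2 * Q) * (2 * m * (2 * Q)))) : ℕ) := by exact_mod_cast b5
    push_cast at c1
    have c2 : 16 * (m : ℝ) * (Q : ℝ) ^ 4 * x ≤ 16 * m * (Q : ℝ) ^ 4 * (481 + 4 * s) :=
      mul_le_mul_of_nonneg_left b4 (by positivity)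
    refine c1.trans ?_
    have e : 2 * (2 * (Q : ℝ) ^ 3) + 2 * (Q : ℝ) ^ 3 * (4 * Q) +
      (2 * Q * Q * (2 * Q * (2 * m * (2 * Q))) + 2 * Q * Q * x * (2 * Q * (2 * m * (2 * Q)))) =
      4 * (Q : ℝ) ^ 3 + 8 * (Q : ℝ) ^ 4 + 16 * m * (Q : ℝ) ^ 4 + 16 * (m : ℝ) * (Q : ℝ) ^ 4 * x := by
      ring
    rw [e]
    linarith
  have b7 : (b : ℝ) * s ≤ (12 + 7776 * (m : ℝ)) * (Q : ℝ) ^ 5 := by
    have m0 : (0 : ℝ) ≤ (m : ℝ) := Nat.cast_nonneg _
    have d1 : (Q : ℝ) ^ 3 * s ≤ (Q : ℝ) ^ 5 := by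
      have : (Q : ℝ) ^ 3 * s ≤ (Q : ℝ) ^ 3 * (Q : ℝ) ^ 2 :=
        mul_le_mul_of_nonneg_left (by nlinarith) (by positivity)
      calc _ ≤ _ := this
        _ = _ := by ring
    have d2 : (Q : ℝ) ^ 4 * s ≤ (Q : ℝ) ^ 5 := by
      have : (Q : ℝ) ^ 4 * s ≤ (Q : ℝ) ^ 4 * (Q : ℝ) :=
        mul_le_mul_of_nonneg_left hsq (by positivity)
      calc _ ≤ _ := this
        _ = _ := by ring
    have d3 : (m : ℝ) * ((Q : ℝ) ^ 4 * s) ≤ (m : ℝ) * (Q : ℝ) ^ 5 :=
      mul_le_mul_of_nonneg_left d2 m0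
    calc (b : ℝ) * s ≤ (4 * (Q : ℝ) ^ 3 + 8 * (Q : ℝ) ^ 4 + 16 * m * (Q : ℝ) ^ 4 +
          16 * m * (Q : ℝ) ^ 4 * (481 + 4 * s)) * s := mul_le_mul_of_nonneg_right b6 hs0
      _ = 4 * ((Q : ℝ) ^ 3 * s) + 8 * ((Q : ℝ) ^ 4 * s) + 7712 * ((m : ℝ) * ((Q : ℝ) ^ 4 * s)) +
          64 * (m : ℝ) * (Q : ℝ) ^ 4 * (s * s) := by ring
      _ ≤ 4 * (Q : ℝ) ^ 5 + 8 * (Q : ℝ) ^ 5 + 7712 * ((m : ℝ) * (Q : ℝ) ^ 5) +
          64 * (m : ℝ) * (Q : ℝ) ^ 4 * (s * s) := by linarith
      _ = _ := by rw [hs2]; ring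
  have l6 : (Q : ℝ) ^ 5 ≤ 64 * (O : ℝ) := by exact_mod_cast l5
  calc (b : ℝ) * s ≤ (12 + 7776 * (m : ℝ)) * (Q : ℝ) ^ 5 := b7
    _ ≤ (12 + 7776 * (m : ℝ)) * (64 * (O : ℝ)) := mul_le_mul_of_nonneg_left l6 (by positivity)
    _ = _ := by ring

end K09

open scoped Classical in

theorem o1_one_pos (m : ℕ) (hm : 0 < m) : ∃ K : ℝ, 0 < K ∧ ∃ N : ℕ,
    ∀ (F : Type) [Field F] [Fintype F] [DecidableEq F] [Fintype PSL(2, F)] [DecidableEq PSL(2, F)],
      N ≤ Fintype.card F → ¬ Nat.Coprime m (Fintype.card PSL(2, F)) →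
      Nat.Coprime m (Fintype.card F) →
      0 < (O1set PSL(2, F) [m]).card ∧
      (((O1set PSL(2, F) [m]).filter fun t => ¬ O1gen t).card : ℝ) *
        Real.sqrt (Fintype.card F) ≤ K * ((O1set PSL(2, F) [m]).card : ℝ) := by
  refine ⟨64 * (12 + 7776 * (m : ℝ)), by positivity, 8, ?_⟩
  intro F _ _ _ _ _ hN hmG hmq
  exact K09_main m hm hN hmG hmq

end Pool.Agent.Helper669_gp.K09
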