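import Mathlib
import Pool.Agent.Helper669_gp.Low2
import Pool.Agent.Helper669_gp.Pts
import Pool.Agent.Helper669_gp.Abs
import Pool.Agent.Helper669_gp.K01

namespace Pool.Agent.Helper669_gp.K10

open Pool.Agent.Helper669_gp.K01

open scoped MatrixGroups

open Finset

section K10

variable {F : Type} [Field F]

def K10_fix (c : F) (A : SL(2, F)) : Prop := A 1 0 + A 1 1 * c = (A 0 0 + A 0 1 * c) * c

def K10_H (c : F) : Subgroup SL(2, F) where
  carrier := {A | K10_fix c A}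
  one_mem' := by
    show K10_fix c 1
    simp [K10_fix]
  mul_mem' := by
    intro A B hA hB
    have hA' : A 1 0 + A 1 1 * c = (A 0 0 + A 0 1 * c) * c := hA
    have hB' : B 1 0 + B 1 1 * c = (B 0 0 + B 0 1 * c) * c := hB
    show (A * B) 1 0 + (A * B) 1 1 * c = ((A * B) 0 0 + (A * B) 0 1 * c) * c
    simp only [mul00, mul01, mul10, mul11]
    linear_combination A 1 1 * hB' + (B 0 0 + B 0 1 * c) * hA' - A 0 1 * c * hB'
  inv_mem' := by
    intro A hA
    have hA' : A 1 0 + A 1 1 * c = (A 0 0 + A 0 1 * c) * c := hA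
    show A⁻¹ 1 0 + A⁻¹ 1 1 * c = (A⁻¹ 0 0 + A⁻¹ 0 1 * c) * c
    simp only [inv00, inv01, inv10, inv11]
    linear_combination -hA'

lemma K10_mem (c : F) (A : SL(2, F)) :
    A ∈ K10_H c ↔ A 1 0 + A 1 1 * c = (A 0 0 + A 0 1 * c) * c := Iff.rfl

lemma K10_neg (c : F) (A : SL(2, F)) (h : A ∈ K10_H c) : -A ∈ K10_H c := by
  rw [K10_mem] at h ⊢
  simp only [neg00, neg01, neg10, neg11]
  linear_combination -h

lemma K10_comm (c : F) (A B : SL(2, F)) (hA : A ∈ K10_H c) (hB : B ∈ K10_H c) :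
    (A * B * A⁻¹ * B⁻¹) 0 0 + (A * B * A⁻¹ * B⁻¹) 0 1 * c = 1 := by
  have h : ∀ X Y : SL(2, F), Y ∈ K10_H c →
      (X * Y) 0 0 + (X * Y) 0 1 * c = (X 0 0 + X 0 1 * c) * (Y 0 0 + Y 0 1 * c) := by
    intro X Y hY
    rw [K10_mem] at hY
    simp only [mul00, mul01]
    linear_combination X 0 1 * hY
  have hinv : ∀ X : SL(2, F), X ∈ K10_H c →
      (X 0 0 + X 0 1 * c) * (X⁻¹ 0 0 + X⁻¹ 0 1 * c) = 1 := by
    intro X hX
    rw [← h X X⁻¹ ((K10_H c).inv_mem hX), mul_inv_cancel, one00, one01]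
    ring
  rw [h _ _ ((K10_H c).inv_mem hB), h _ _ ((K10_H c).inv_mem hA), h _ _ hB]
  linear_combination (B 0 0 + B 0 1 * c) * (B⁻¹ 0 0 + B⁻¹ 0 1 * c) * hinv A hA + hinv B hB

lemma K10_pow (c : F) (C : SL(2, F)) (hC : C ∈ K10_H c) (h1 : C 0 0 + C 0 1 * c = 1) (n : ℕ) :
    (C ^ n) 0 0 = 1 - n * C 0 1 * c ∧ (C ^ n) 0 1 = n * C 0 1 ∧
      (C ^ n) 1 0 = - (n * C 0 1 * c ^ 2) ∧ (C ^ n) 1 1 = 1 + n * C 0 1 * c := by
  rw [K10_mem] at hC
  have hd := det_eq C
  have h00 : C 0 0 = 1 - C 0 1 * c := by linear_combination h1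
  have h11 : C 1 1 = 1 + C 0 1 * c := by
    linear_combination hd - C 1 1 * h1 + C 0 1 * hC + C 0 1 * c * h1
  have h10 : C 1 0 = - (C 0 1 * c ^ 2) := by
    linear_combination hC + c * h1 - c * h11
  induction n with
  | zero => simp
  | succ n ih =>
    obtain ⟨i00, i01, i10, i11⟩ := ih
    rw [pow_succ]
    simp only [mul00, mul01, mul10, mul11]
    rw [i00, i01, i10, i11, h00, h10, h11]
    push_cast
    refine ⟨by ring, by ring, by ring, by ring⟩

lemma K10_pow_one (c : F) (A B : SL(2, F)) (hA : A ∈ K10_H c) (hB : B ∈ K10_H c) (m : ℕ)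
    (hm : (m : F) = 0) : (A * B * A⁻¹ * B⁻¹) ^ m = 1 := by
  have hC : A * B * A⁻¹ * B⁻¹ ∈ K10_H c :=
    (K10_H c).mul_mem ((K10_H c).mul_mem ((K10_H c).mul_mem hA hB) ((K10_H c).inv_mem hA))
      ((K10_H c).inv_mem hB)
  obtain ⟨h00, h01, h10, h11⟩ := K10_pow c _ hC (K10_comm c A B hA hB) m
  refine sl_ext ?_ ?_ ?_ ?_
  · rw [h00, hm, one00]; ring
  · rw [h01, hm, one01]; ring
  · rw [h10, hm, one10]; ring
  · rw [h11, hm, one11]; ring

lemma K10_H_ne_top (c : F) : K10_H c ≠ ⊤ := by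
  intro h
  let L : SL(2, F) := ⟨!![1, 0; 1, 1], by simp [Matrix.det_fin_two]⟩
  have hL : L ∈ K10_H c := by rw [h]; trivial
  rw [K10_mem] at hL
  have e00 : L 0 0 = 1 := rfl
  have e01 : L 0 1 = 0 := rfl
  have e10 : L 1 0 = 1 := rfl
  have e11 : L 1 1 = 1 := rfl
  rw [e00, e01, e10, e11] at hL
  apply one_ne_zero (α := F)
  linear_combination hL

lemma K10_center_le (c : F) : Subgroup.center SL(2, F) ≤ K10_H c := by
  intro A hA
  rw [mem_center_iff'] at hA
  rcases hA with rfl | rfl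
  · exact (K10_H c).one_mem
  · exact K10_neg c 1 (K10_H c).one_mem

lemma K10_not_gen (c : F) (A B : SL(2, F)) (hA : A ∈ K10_H c) (hB : B ∈ K10_H c)
    (x : PSL(2, F)) (hx : x = ((A * B * A⁻¹ * B⁻¹ : SL(2, F)) : PSL(2, F))⁻¹) :
    ¬ O1gen (([x], (A : PSL(2, F)), (B : PSL(2, F))) : List PSL(2, F) × PSL(2, F) × PSL(2, F)) := by
  intro h
  apply K10_H_ne_top c
  have hle : (⊤ : Subgroup PSL(2, F)) ≤
      (K10_H c).map (QuotientGroup.mk' (Subgroup.center SL(2, F))) := by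
    rw [O1gen] at h
    rw [← h, Subgroup.closure_le]
    rintro y (hy | hy)
    · have hy' : y = x := by simpa using hy
      rw [hy', hx]
      refine ⟨(A * B * A⁻¹ * B⁻¹)⁻¹, (K10_H c).inv_mem ?_, rfl⟩
      exact (K10_H c).mul_mem ((K10_H c).mul_mem ((K10_H c).mul_mem hA hB) ((K10_H c).inv_mem hA))
        ((K10_H c).inv_mem hB)
    · rcases hy with rfl | hy
      · exact ⟨A, hA, rfl⟩
      · rw [Set.mem_singleton_iff] at hy
        rw [hy]
        exact ⟨B, hB, rfl⟩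
  rw [eq_top_iff]
  intro X _
  obtain ⟨Y, hY, hYX⟩ := hle (Subgroup.mem_top ((X : SL(2, F)) : PSL(2, F)))
  have hYX' : ((Y : SL(2, F)) : PSL(2, F)) = ((X : SL(2, F)) : PSL(2, F)) := hYX
  rw [QuotientGroup.eq] at hYX'
  have := (K10_H c).mul_mem hY (K10_center_le c hYX')
  rwa [mul_inv_cancel_left] at this

def K10_V (c : F) (α : Fˣ) (β : F) : SL(2, F) :=
  ⟨!![(α : F) - β * c, β; c * α - c ^ 2 * β - c * ((α⁻¹ : Fˣ) : F), c * β + ((α⁻¹ : Fˣ) : F)], by
    rw [Matrix.det_fin_two_of]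
    have h : (α : F) * ((α⁻¹ : Fˣ) : F) = 1 := by simp
    linear_combination h⟩

lemma K10_V00 (c : F) (α : Fˣ) (β : F) : K10_V c α β 0 0 = (α : F) - β * c := rfl

lemma K10_V01 (c : F) (α : Fˣ) (β : F) : K10_V c α β 0 1 = β := rfl

lemma K10_V10 (c : F) (α : Fˣ) (β : F) :
    K10_V c α β 1 0 = c * α - c ^ 2 * β - c * ((α⁻¹ : Fˣ) : F) := rfl

lemma K10_V11 (c : F) (α : Fˣ) (β : F) : K10_V c α β 1 1 = c * β + ((α⁻¹ : Fˣ) : F) := rfl

lemma K10_V_mem (c : F) (α : Fˣ) (β : F) : K10_V c α β ∈ K10_H c := by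
  rw [K10_mem, K10_V00, K10_V01, K10_V10, K10_V11]
  ring

lemma K10_V_inj (c : F) (α α' : Fˣ) (β β' : F) (h : K10_V c α β = K10_V c α' β') :
    α = α' ∧ β = β' := by
  have h00 := congrArg (fun A : SL(2, F) => A 0 0) h
  have h01 := congrArg (fun A : SL(2, F) => A 0 1) h
  simp only [K10_V00, K10_V01] at h00 h01
  refine ⟨?_, h01⟩
  apply Units.ext
  rw [h01] at h00
  linear_combination h00

lemma K10_mk_eq (A B : SL(2, F)) (h : (A : PSL(2, F)) = (B : PSL(2, F))) : A = B ∨ A = -B := by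
  rw [QuotientGroup.eq, mem_center_iff'] at h
  rcases h with h | h
  · left
    exact (inv_mul_eq_one.mp h)
  · right
    have : A * (A⁻¹ * B) = A * -1 := by rw [h]
    rw [mul_inv_cancel_left] at this
    rw [this]
    simp

end K10

section K10c

variable {F : Type} [Field F] [Fintype F] [DecidableEq F]

open scoped Classical in
lemma K10_upper (m : ℕ) (hm : 0 < m) [Fintype PSL(2, F)] [DecidableEq PSL(2, F)] :
    (O1set PSL(2, F) [m]).card ≤
      2 * Fintype.card SL(2, F) + 8 * m * Fintype.card F ^ 2 * Fintype.card SL(2, F) := by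
  set q := Fintype.card F with hq
  let T : Finset F := univ.filter fun t : F => ∃ X : SL(2, F), tr X = t ∧ Cen (X ^ m)
  have hT : T.card ≤ 2 * m := tset_card F m hm
  let P : Finset (SL(2, F) × SL(2, F)) :=
    univ.filter fun t => Cen ((t.1 * t.2 * t.1⁻¹ * t.2⁻¹) ^ m)

  have h1 : (O1set PSL(2, F) [m]).card ≤ P.card := by
    apply Finset.card_le_card_of_surjOn
      (fun t : SL(2, F) × SL(2, F) =>
        (([((t.1 * t.2 * t.1⁻¹ * t.2⁻¹ : SL(2, F)) : PSL(2, F))⁻¹], (t.1 : PSL(2, F)),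
          (t.2 : PSL(2, F))) : List PSL(2, F) × PSL(2, F) × PSL(2, F)))
    rintro ⟨l, a, b⟩ ht
    rw [mem_coe, O1set, mem_filter, mem_product] at ht
    obtain ⟨⟨hl, -⟩, hp⟩ := ht
    simp only [XS, Finset.mem_image₂, mem_singleton, tor, mem_filter, mem_univ, true_and] at hl
    obtain ⟨x, hx, y, rfl, rfl⟩ := hl
    obtain ⟨A, rfl⟩ := QuotientGroup.mk_surjective a
    obtain ⟨B, rfl⟩ := QuotientGroup.mk_surjective b
    simp only [List.prod_cons, List.prod_nil, mul_one] at hp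
    have hx' : x = ((A * B * A⁻¹ * B⁻¹ : SL(2, F)) : PSL(2, F))⁻¹ :=
      eq_inv_of_mul_eq_one_left hp
    refine ⟨(A, B), ?_, ?_⟩
    · rw [mem_coe, mem_filter]
      refine ⟨mem_univ _, ?_⟩
      rw [← mem_center_iff', ← QuotientGroup.eq_one_iff]
      have : (((A * B * A⁻¹ * B⁻¹ : SL(2, F)) : PSL(2, F))) = x⁻¹ := by rw [hx', inv_inv]
      rw [QuotientGroup.mk_pow, this, inv_pow, hx, inv_one]
    · simp only
      rw [← hx']
  refine le_trans h1 ?_

  have hsplit : P ⊆ ((univ.filter fun A : SL(2, F) => Cen A) ×ˢ univ) ∪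
      (P.filter fun t => ¬ Cen t.1) := by
    intro t ht
    by_cases hc : Cen t.1
    · apply mem_union_left
      rw [mem_product]
      exact ⟨by rw [mem_filter]; exact ⟨mem_univ _, hc⟩, mem_univ _⟩
    · apply mem_union_right
      rw [mem_filter]
      exact ⟨ht, hc⟩
  refine le_trans (Finset.card_le_card hsplit) (le_trans (Finset.card_union_le _ _) ?_)
  apply Nat.add_le_add
  · rw [card_product, card_univ]
    apply Nat.mul_le_mul_right
    have : (univ.filter fun A : SL(2, F) => Cen A) ⊆ {1, -1} := by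
      intro A hA
      rw [mem_filter] at hA
      rw [mem_insert, mem_singleton]
      exact hA.2
    exact le_trans (Finset.card_le_card this) (Finset.card_le_two)
  ·
    have hA : ∀ A : SL(2, F), ¬ Cen A →
        (univ.filter fun B : SL(2, F) => Cen ((A * B * A⁻¹ * B⁻¹) ^ m)).card ≤
          (2 * q) * ((2 * q) * (2 * m)) := by
      intro A hA
      have hA' : ¬ Cen A⁻¹ := by
        rintro (h | h)
        · exact hA (Or.inl (by rw [← inv_inv A, h, inv_one]))
        · exact hA (Or.inr (by rw [← inv_inv A, h]; simp))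
      let Ys : Finset SL(2, F) := univ.filter fun Y => tr Y = tr A ∧ tr (A * Y) ∈ T
      have hYs : Ys.card ≤ (2 * q) * (2 * m) := by
        have h2 : Ys.card ≤ (2 * q) * T.card := by
          apply Finset.card_le_mul_card_image_of_maps_to (f := fun Y : SL(2, F) => tr (A * Y))
          · intro Y hY
            rw [mem_filter] at hY
            exact hY.2.2
          · intro u _
            refine le_trans (Finset.card_le_card ?_) (card_two A hA (tr A) u)
            intro Y hY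
            rw [mem_filter, mem_filter] at hY
            rw [mem_filter]
            exact ⟨mem_univ _, hY.1.2.1, hY.2⟩
        exact le_trans h2 (Nat.mul_le_mul_left _ hT)
      refine le_trans (b := (2 * q) * Ys.card) ?_ (Nat.mul_le_mul_left _ hYs)
      apply Finset.card_le_mul_card_image_of_maps_to (f := fun B : SL(2, F) => B * A⁻¹ * B⁻¹)
      · intro B hB
        rw [mem_filter] at hB
        rw [mem_filter]
        refine ⟨mem_univ _, ?_, ?_⟩
        · rw [tr_conj, tr_inv]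
        · rw [mem_filter]
          refine ⟨mem_univ _, A * B * A⁻¹ * B⁻¹, by simp only [mul_assoc], hB.2⟩
      · intro Y _
        refine le_trans (Finset.card_le_card ?_) (card_conj_le A⁻¹ Y hA')
        intro B hB
        rw [mem_filter, mem_filter] at hB
        rw [mem_filter]
        exact ⟨mem_univ _, hB.2⟩
    have h3 : (P.filter fun t => ¬ Cen t.1).card ≤
        ((2 * q) * ((2 * q) * (2 * m))) * (univ : Finset SL(2, F)).card := by
      apply Finset.card_le_mul_card_image_of_maps_to (f := Prod.fst)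
      · intro _ _; exact mem_univ _
      · intro A _
        by_cases hc : Cen A
        · have : ((P.filter fun t => ¬ Cen t.1).filter fun t => t.1 = A) = ∅ := by
            rw [Finset.filter_eq_empty_iff]
            intro t ht hA'
            rw [mem_filter] at ht
            exact ht.2 (hA' ▸ hc)
          rw [this]
          exact Nat.zero_le _
        · refine le_trans ?_ (hA A hc)
          apply Finset.card_le_card_of_injOn Prod.snd
          · intro t ht
            rw [mem_coe, mem_filter, mem_filter, mem_filter] at ht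
            rw [mem_coe, mem_filter]
            refine ⟨mem_univ _, ?_⟩
            have := ht.1.1.2
            rwa [ht.2] at this
          · intro t ht t' ht' h
            rw [mem_coe, mem_filter] at ht ht'
            exact Prod.ext (by rw [ht.2, ht'.2]) h
    rw [card_univ] at h3
    refine le_trans h3 (le_of_eq ?_)
    ring

open scoped Classical in

lemma K10_quad (c₀ : F) (α : Fˣ) (β : F) (hβ : β ≠ 0) :
    (univ.filter fun c : F => K10_V c₀ α β ∈ K10_H c).card ≤ 2 := by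
  refine le_trans ?_ (quad_card ((((α : F) - β * c₀) - (c₀ * β + ((α⁻¹ : Fˣ) : F))) / β)
    (-((c₀ * α - c₀ ^ 2 * β - c₀ * ((α⁻¹ : Fˣ) : F))) / β))
  apply Finset.card_le_card
  intro c hc
  rw [mem_filter] at hc ⊢
  refine ⟨mem_univ _, ?_⟩
  have h := hc.2
  rw [K10_mem, K10_V00, K10_V01, K10_V10, K10_V11] at h
  field_simp
  linear_combination -h

open scoped Classical in
lemma K10_lower (m : ℕ) (hm : (m : F) = 0) [Fintype PSL(2, F)] [DecidableEq PSL(2, F)] :
    Fintype.card F * ((Fintype.card F - 1) * ((Fintype.card F - 1) *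
      ((Fintype.card F - 1) * Fintype.card F))) ≤
      8 * ((O1set PSL(2, F) [m]).filter fun t => ¬ O1gen t).card := by
  let S : Finset (F × Fˣ × F × Fˣ × F) :=
    univ ×ˢ (univ ×ˢ ((univ.erase 0) ×ˢ (univ ×ˢ univ)))
  have hS : S.card = Fintype.card F * ((Fintype.card F - 1) * ((Fintype.card F - 1) *
      ((Fintype.card F - 1) * Fintype.card F))) := by
    simp only [S, card_product, card_univ, Finset.card_erase_of_mem (mem_univ _),
      Fintype.card_units]
  rw [← hS]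
  apply Finset.card_le_mul_card_image_of_maps_to
    (f := fun t : F × Fˣ × F × Fˣ × F =>
      (([((K10_V t.1 t.2.1 t.2.2.1 * K10_V t.1 t.2.2.2.1 t.2.2.2.2 * (K10_V t.1 t.2.1 t.2.2.1)⁻¹ *
          (K10_V t.1 t.2.2.2.1 t.2.2.2.2)⁻¹ : SL(2, F)) : PSL(2, F))⁻¹],
        (K10_V t.1 t.2.1 t.2.2.1 : PSL(2, F)), (K10_V t.1 t.2.2.2.1 t.2.2.2.2 : PSL(2, F))) :
          List PSL(2, F) × PSL(2, F) × PSL(2, F)))
  · rintro ⟨c, α, β, γ, δ⟩ _
    rw [mem_filter]
    have hA := K10_V_mem c α β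
    have hB := K10_V_mem c γ δ
    refine ⟨?_, K10_not_gen c _ _ hA hB _ rfl⟩
    rw [O1set, mem_filter, mem_product]
    refine ⟨⟨?_, mem_univ _⟩, ?_⟩
    · simp only [XS, Finset.mem_image₂, mem_singleton, tor, mem_filter, mem_univ, true_and]
      refine ⟨_, ?_, [], rfl, rfl⟩
      rw [inv_pow, ← QuotientGroup.mk_pow, K10_pow_one c _ _ hA hB m hm]
      simp
    · simp only [List.prod_cons, List.prod_nil, mul_one]
      exact inv_mul_cancel _
  · rintro ⟨l, a, b⟩ _

    by_cases hne : (S.filter fun t : F × Fˣ × F × Fˣ × F =>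
      (([((K10_V t.1 t.2.1 t.2.2.1 * K10_V t.1 t.2.2.2.1 t.2.2.2.2 * (K10_V t.1 t.2.1 t.2.2.1)⁻¹ *
          (K10_V t.1 t.2.2.2.1 t.2.2.2.2)⁻¹ : SL(2, F)) : PSL(2, F))⁻¹],
        (K10_V t.1 t.2.1 t.2.2.1 : PSL(2, F)), (K10_V t.1 t.2.2.2.1 t.2.2.2.2 : PSL(2, F))) :
          List PSL(2, F) × PSL(2, F) × PSL(2, F)) = (l, a, b)).Nonempty
    · obtain ⟨⟨c₀, α₀, β₀, γ₀, δ₀⟩, h₀⟩ := hne
      rw [mem_filter] at h₀
      obtain ⟨hS₀, h₀⟩ := h₀
      simp only [Prod.mk.injEq] at h₀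
      have hβ₀ : β₀ ≠ 0 := by
        simp only [S, mem_product, mem_erase, mem_univ, and_true, true_and] at hS₀
        exact hS₀
      have hcard : ((univ.filter fun c : F => K10_V c₀ α₀ β₀ ∈ K10_H c) ×ˢ
          (({K10_V c₀ α₀ β₀, -K10_V c₀ α₀ β₀} : Finset SL(2, F)) ×ˢ
            ({K10_V c₀ γ₀ δ₀, -K10_V c₀ γ₀ δ₀} : Finset SL(2, F)))).card ≤ 8 := by
        rw [card_product, card_product]
        exact Nat.mul_le_mul (K10_quad c₀ α₀ β₀ hβ₀)
              (Nat.mul_le_mul Finset.card_le_two Finset.card_le_two)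
      refine le_trans ?_ hcard
      apply Finset.card_le_card_of_injOn (fun t : F × Fˣ × F × Fˣ × F =>
        ((t.1, K10_V t.1 t.2.1 t.2.2.1, K10_V t.1 t.2.2.2.1 t.2.2.2.2) :
          F × SL(2, F) × SL(2, F)))
      · rintro ⟨c, α, β, γ, δ⟩ ht
        rw [mem_coe, mem_filter] at ht
        obtain ⟨-, ht⟩ := ht
        simp only [Prod.mk.injEq] at ht
        have hA : K10_V c α β = K10_V c₀ α₀ β₀ ∨ K10_V c α β = -K10_V c₀ α₀ β₀ :=
          K10_mk_eq _ _ (by rw [ht.2.1, h₀.2.1])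
        have hB : K10_V c γ δ = K10_V c₀ γ₀ δ₀ ∨ K10_V c γ δ = -K10_V c₀ γ₀ δ₀ :=
          K10_mk_eq _ _ (by rw [ht.2.2, h₀.2.2])
        rw [mem_coe, mem_product, mem_product, mem_filter]
        refine ⟨⟨mem_univ _, ?_⟩, ?_, ?_⟩
        · have hm' := K10_V_mem c α β
          rcases hA with h | h
          · rw [h] at hm'; exact hm'
          · rw [h] at hm'
            have := K10_neg c _ hm'
            rwa [neg_neg] at this
        · simp only [mem_insert, mem_singleton]; exact hA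
        · simp only [mem_insert, mem_singleton]; exact hB
      · rintro ⟨c, α, β, γ, δ⟩ _ ⟨c', α', β', γ', δ'⟩ _ h
        simp only [Prod.mk.injEq] at h
        obtain ⟨rfl, h1, h2⟩ := h
        obtain ⟨rfl, rfl⟩ := K10_V_inj c _ _ _ _ h1
        obtain ⟨rfl, rfl⟩ := K10_V_inj c _ _ _ _ h2
        rfl
    · rw [Finset.not_nonempty_iff_eq_empty] at hne
      rw [hne]
      simp

omit [DecidableEq F] in
lemma K10_cast (m : ℕ) (h : ¬ Nat.Coprime m (Fintype.card F)) : (m : F) = 0 := by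
  obtain ⟨n, hp, hn⟩ := FiniteField.card F (ringChar F)
  rw [hn] at h
  rw [ringChar.spec]
  by_contra hnd
  apply h
  exact Nat.Coprime.pow_right _ ((Nat.Prime.coprime_iff_not_dvd hp).mpr hnd).symm

end K10c

open scoped Classical in

theorem o1_one_neg (m : ℕ) (hm : 0 < m) : ∃ c : ℝ, 0 < c ∧ ∃ N : ℕ,
    ∀ (F : Type) [Field F] [Fintype F] [DecidableEq F] [Fintype PSL(2, F)] [DecidableEq PSL(2, F)],
      N ≤ Fintype.card F → ¬ Nat.Coprime m (Fintype.card F) →
      c * ((O1set PSL(2, F) [m]).card : ℝ) ≤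
        (((O1set PSL(2, F) [m]).filter fun t => ¬ O1gen t).card : ℝ) := by
  have hm' : (0 : ℝ) < m := by exact_mod_cast hm
  refine ⟨1 / (64 * (4 + 16 * m)), by positivity, 2, ?_⟩
  intro F _ _ _ _ _ hq hcop
  have hup := K10_upper (F := F) m hm
  have hlo := K10_lower (F := F) m (K10_cast m hcop)
  have hsl := card_sl_le (F := F)
  set q := Fintype.card F with hqd
  obtain ⟨r, hr⟩ : ∃ r, q = r + 1 := ⟨q - 1, by omega⟩
  have hr1 : 1 ≤ r := by omega
  have hup' : ((O1set PSL(2, F) [m]).card : ℝ) ≤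
      2 * (Fintype.card SL(2, F) : ℝ) + 8 * m * (q : ℝ) ^ 2 * (Fintype.card SL(2, F) : ℝ) := by
    exact_mod_cast hup
  have hsl' : (Fintype.card SL(2, F) : ℝ) ≤ 2 * (q : ℝ) ^ 3 := by exact_mod_cast hsl
  have hqr : (q : ℝ) = r + 1 := by rw [hr]; push_cast; ring
  have hr1' : (1 : ℝ) ≤ r := by exact_mod_cast hr1
  have hlo' : (q : ℝ) * (r * (r * (r * q))) ≤
      8 * ((((O1set PSL(2, F) [m]).filter fun t => ¬ O1gen t).card : ℕ) : ℝ) := by
    have : q - 1 = r := by omega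
    rw [this] at hlo
    exact_mod_cast hlo

  have hq2 : (q : ℝ) ≤ 2 * r := by rw [hqr]; linarith
  have hq0 : (0 : ℝ) ≤ q := by positivity
  have hq1 : (1 : ℝ) ≤ q := by rw [hqr]; linarith
  have hq3 : (q : ℝ) ^ 3 ≤ 8 * (r : ℝ) ^ 3 := by
    calc (q : ℝ) ^ 3 ≤ (2 * r) ^ 3 := pow_le_pow_left₀ hq0 hq2 3
      _ = 8 * (r : ℝ) ^ 3 := by ring
  have h5 : (q : ℝ) ^ 5 ≤ 64 * ((((O1set PSL(2, F) [m]).filter fun t => ¬ O1gen t).card : ℕ) : ℝ) := by
    calc (q : ℝ) ^ 5 = (q : ℝ) ^ 2 * (q : ℝ) ^ 3 := by ring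
      _ ≤ (q : ℝ) ^ 2 * (8 * (r : ℝ) ^ 3) := by
        apply mul_le_mul_of_nonneg_left hq3 (by positivity)
      _ = 8 * ((q : ℝ) * (r * (r * (r * q)))) := by ring
      _ ≤ 8 * (8 * ((((O1set PSL(2, F) [m]).filter fun t => ¬ O1gen t).card : ℕ) : ℝ)) := by
        apply mul_le_mul_of_nonneg_left hlo' (by norm_num)
      _ = _ := by ring
  have h6 : ((O1set PSL(2, F) [m]).card : ℝ) ≤ (4 + 16 * m) * (q : ℝ) ^ 5 := by
    have hq35 : (q : ℝ) ^ 3 ≤ (q : ℝ) ^ 5 := pow_le_pow_right₀ hq1 (by norm_num)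
    calc ((O1set PSL(2, F) [m]).card : ℝ) ≤ 2 * (Fintype.card SL(2, F) : ℝ) +
          8 * m * (q : ℝ) ^ 2 * (Fintype.card SL(2, F) : ℝ) := hup'
      _ ≤ 2 * (2 * (q : ℝ) ^ 3) + 8 * m * (q : ℝ) ^ 2 * (2 * (q : ℝ) ^ 3) := by
        apply add_le_add
        · apply mul_le_mul_of_nonneg_left hsl' (by norm_num)
        · apply mul_le_mul_of_nonneg_left hsl' (by positivity)
      _ ≤ 2 * (2 * (q : ℝ) ^ 5) + 8 * m * (q : ℝ) ^ 2 * (2 * (q : ℝ) ^ 3) := by
        linarith
      _ = _ := by ring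
  have hpos : (0 : ℝ) < 64 * (4 + 16 * m) := by positivity
  rw [div_mul_eq_mul_div, one_mul, div_le_iff₀ hpos]
  calc ((O1set PSL(2, F) [m]).card : ℝ) ≤ (4 + 16 * m) * (q : ℝ) ^ 5 := h6
    _ ≤ (4 + 16 * m) * (64 * ((((O1set PSL(2, F) [m]).filter fun t => ¬ O1gen t).card : ℕ) : ℝ)) := by
      apply mul_le_mul_of_nonneg_left h5 (by positivity)
    _ = _ := by ring

end Pool.Agent.Helper669_gp.K10
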