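import Mathlib
import Pool.Agent.Helper669_gp.Tr

namespace Pool.Agent.Helper669_gp.L03

open scoped MatrixGroups

open Finset

def L03_In {F : Type} [Field F] (R : Subring F) (X Y Z : SL(2, F)) : Prop :=
  ∃ r0 ∈ R, ∃ r1 ∈ R, ∃ r2 ∈ R, ∃ r3 ∈ R,
    Z 0 0 = r0 + r1 * X 0 0 + r2 * Y 0 0 + r3 * (X * Y) 0 0 ∧
    Z 0 1 = r1 * X 0 1 + r2 * Y 0 1 + r3 * (X * Y) 0 1 ∧
    Z 1 0 = r1 * X 1 0 + r2 * Y 1 0 + r3 * (X * Y) 1 0 ∧
    Z 1 1 = r0 + r1 * X 1 1 + r2 * Y 1 1 + r3 * (X * Y) 1 1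

lemma L03_mulX {F : Type} [Field F] (R : Subring F) (X Y Z : SL(2, F)) (hX : tr X ∈ R)
    (h : L03_In R X Y Z) : L03_In R X Y (X * Z) := by
  obtain ⟨r0, h0, r1, h1, r2, h2, r3, h3, e00, e01, e10, e11⟩ := h
  have hx := det_eq X
  refine ⟨-r1, R.neg_mem h1, r0 + r1 * tr X, R.add_mem h0 (R.mul_mem h1 hX), -r3,
    R.neg_mem h3, r2 + r3 * tr X, R.add_mem h2 (R.mul_mem h3 hX), ?_, ?_, ?_, ?_⟩
  · simp only [mul00, mul10, mul01, mul11, tr] at *
    rw [e00, e10]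
    linear_combination (-r1 - r3 * Y 0 0) * hx
  · simp only [mul00, mul10, mul01, mul11, tr] at *
    rw [e01, e11]
    linear_combination (- r3 * Y 0 1) * hx
  · simp only [mul00, mul10, mul01, mul11, tr] at *
    rw [e00, e10]
    linear_combination (- r3 * Y 1 0) * hx
  · simp only [mul00, mul10, mul01, mul11, tr] at *
    rw [e01, e11]
    linear_combination (-r1 - r3 * Y 1 1) * hx

lemma L03_mulY {F : Type} [Field F] (R : Subring F) (X Y Z : SL(2, F)) (hX : tr X ∈ R)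
    (hY : tr Y ∈ R) (hXY : tr (X * Y) ∈ R)
    (h : L03_In R X Y Z) : L03_In R X Y (Y * Z) := by
  obtain ⟨r0, h0, r1, h1, r2, h2, r3, h3, e00, e01, e10, e11⟩ := h
  have hx := det_eq X
  have hy := det_eq Y
  refine ⟨r1 * (tr (X * Y) - tr X * tr Y) - r2 - r3 * tr X, ?_, r1 * tr Y + r3, ?_,
    r0 + r1 * tr X + r2 * tr Y + r3 * tr (X * Y), ?_, -r1, R.neg_mem h1, ?_, ?_, ?_, ?_⟩
  · exact R.sub_mem (R.sub_mem (R.mul_mem h1 (R.sub_mem hXY (R.mul_mem hX hY))) h2)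
      (R.mul_mem h3 hX)
  · exact R.add_mem (R.mul_mem h1 hY) h3
  · exact R.add_mem (R.add_mem (R.add_mem h0 (R.mul_mem h1 hX)) (R.mul_mem h2 hY))
      (R.mul_mem h3 hXY)
  · simp only [mul00, mul10, mul01, mul11, tr] at *
    rw [e00, e10]
    linear_combination (-r2 - r3 * X 1 1) * hy
  · simp only [mul00, mul10, mul01, mul11, tr] at *
    rw [e01, e11]
    linear_combination (r3 * X 0 1) * hy
  · simp only [mul00, mul10, mul01, mul11, tr] at *
    rw [e00, e10]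
    linear_combination (r3 * X 1 0) * hy
  · simp only [mul00, mul10, mul01, mul11, tr] at *
    rw [e01, e11]
    linear_combination (-r2 - r3 * X 0 0) * hy

lemma L03_inv {F : Type} [Field F] (R : Subring F) (X Y W Z : SL(2, F)) (hW : tr W ∈ R)
    (h : L03_In R X Y Z) (h' : L03_In R X Y (W * Z)) : L03_In R X Y (W⁻¹ * Z) := by
  obtain ⟨r0, h0, r1, h1, r2, h2, r3, h3, e00, e01, e10, e11⟩ := h
  obtain ⟨s0, k0, s1, k1, s2, k2, s3, k3, f00, f01, f10, f11⟩ := h'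
  refine ⟨tr W * r0 - s0, R.sub_mem (R.mul_mem hW h0) k0,
    tr W * r1 - s1, R.sub_mem (R.mul_mem hW h1) k1,
    tr W * r2 - s2, R.sub_mem (R.mul_mem hW h2) k2,
    tr W * r3 - s3, R.sub_mem (R.mul_mem hW h3) k3, ?_, ?_, ?_, ?_⟩
  · have : (W⁻¹ * Z) 0 0 = tr W * Z 0 0 - (W * Z) 0 0 := by
      simp only [mul00, inv00, inv01, tr]; ring
    rw [this, e00, f00]; ring
  · have : (W⁻¹ * Z) 0 1 = tr W * Z 0 1 - (W * Z) 0 1 := by
      simp only [mul01, inv00, inv01, tr]; ring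
    rw [this, e01, f01]; ring
  · have : (W⁻¹ * Z) 1 0 = tr W * Z 1 0 - (W * Z) 1 0 := by
      simp only [mul10, inv10, inv11, tr]; ring
    rw [this, e10, f10]; ring
  · have : (W⁻¹ * Z) 1 1 = tr W * Z 1 1 - (W * Z) 1 1 := by
      simp only [mul11, inv10, inv11, tr]; ring
    rw [this, e11, f11]; ring

lemma L03_neg {F : Type} [Field F] (R : Subring F) (X Y Z : SL(2, F))
    (h : L03_In R X Y Z) : L03_In R X Y (-1 * Z) := by
  obtain ⟨r0, h0, r1, h1, r2, h2, r3, h3, e00, e01, e10, e11⟩ := h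
  refine ⟨-r0, R.neg_mem h0, -r1, R.neg_mem h1, -r2, R.neg_mem h2, -r3, R.neg_mem h3,
    ?_, ?_, ?_, ?_⟩
  · rw [mul00, neg00, neg01, one00, one01, e00]; ring
  · rw [mul01, neg00, neg01, one00, one01, e01]; ring
  · rw [mul10, neg10, neg11, one10, one11, e10]; ring
  · rw [mul11, neg10, neg11, one10, one11, e11]; ring

theorem trace_closed (F : Type) [Field F] (R : Subring F) (X Y : SL(2, F)) (hX : tr X ∈ R)
    (hY : tr Y ∈ R) (hXY : tr (X * Y) ∈ R) :
    ∀ Z ∈ Subgroup.closure {X, Y, -1}, tr Z ∈ R := by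
  have main : ∀ Z ∈ Subgroup.closure {X, Y, -1}, L03_In R X Y Z := by
    intro Z hZ
    induction hZ using Subgroup.closure_induction_left with
    | one =>
      refine ⟨1, R.one_mem, 0, R.zero_mem, 0, R.zero_mem, 0, R.zero_mem, ?_, ?_, ?_, ?_⟩
      · rw [one00]; ring
      · rw [one01]; ring
      · rw [one10]; ring
      · rw [one11]; ring
    | mul_left x hx y hy ih =>
      rcases hx with rfl | rfl | rfl
      · exact L03_mulX R _ Y y hX ih
      · exact L03_mulY R X _ y hX hY hXY ih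
      · exact L03_neg R X Y y ih
    | inv_mul_cancel x hx y hy ih =>
      rcases hx with rfl | rfl | rfl
      · exact L03_inv R _ Y _ y hX ih (L03_mulX R _ Y y hX ih)
      · exact L03_inv R X _ _ y hY ih (L03_mulY R X _ y hX hY hXY ih)
      · rw [inv_neg_one]
        exact L03_neg R X Y y ih
  intro Z hZ
  obtain ⟨r0, h0, r1, h1, r2, h2, r3, h3, e00, e01, e10, e11⟩ := main Z hZ
  have : tr Z = r0 + r0 + r1 * tr X + r2 * tr Y + r3 * tr (X * Y) := by
    unfold tr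
    rw [e00, e11]
    ring
  rw [this]
  exact R.add_mem (R.add_mem (R.add_mem (R.add_mem h0 h0) (R.mul_mem h1 hX)) (R.mul_mem h2 hY))
    (R.mul_mem h3 hXY)

end Pool.Agent.Helper669_gp.L03
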