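import Mathlib
import Pool.Agent.Helper669_gp.Low2
import Pool.Agent.Helper669_gp.Pts
import Pool.Agent.Helper669_gp.Abs
import Pool.Agent.Helper669_gp.Defs
import Pool.Agent.Helper669_gp.K01
import Pool.Agent.Helper669_gp.L03

namespace Pool.Agent.Helper669_gp.L02

open Pool.Agent.Helper669_gp.K01 Pool.Agent.Helper669_gp.L03

open scoped MatrixGroups

open Finset

theorem L02_nt {p f D r : ℕ} (hp : p.Prime) (hr : r.Prime) (hD : (r - 1) ∣ D) (hf : 0 < f)
    (hdiv : r ∣ ((p ^ f) ^ 2 - 1) * ((p ^ f) ^ 2 - p ^ f)) :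
    r ∣ p ^ (Nat.gcd f D) * ((p ^ (Nat.gcd f D)) ^ 2 - 1) := by
  have hg : 0 < Nat.gcd f D := Nat.gcd_pos_of_pos_left _ hf
  by_cases hrp : r = p
  · subst hrp
    exact Dvd.dvd.mul_right (dvd_pow_self r hg.ne') _
  · have : Fact r.Prime := ⟨hr⟩
    apply Dvd.dvd.mul_left
    have hnd : ¬ r ∣ p := fun h => hrp ((Nat.prime_dvd_prime_iff_eq hr hp).1 h)
    have hndk : ∀ k, ¬ r ∣ p ^ k := fun k h => hnd (hr.dvd_of_dvd_pow h)
    have h1 : r ∣ (p ^ f) ^ 2 - 1 := by
      rcases (Nat.Prime.dvd_mul hr).1 hdiv with h | h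
      · exact h
      · have h2 : (p ^ f) ^ 2 - p ^ f = p ^ f * (p ^ f - 1) := by
          rw [Nat.mul_sub, mul_one, pow_two]
        rw [h2] at h
        rcases (Nat.Prime.dvd_mul hr).1 h with h | h
        · exact absurd h (hndk f)
        · have h3 : (p ^ f) ^ 2 - 1 = (p ^ f + 1) * (p ^ f - 1) := by
            have := Nat.sq_sub_sq (p ^ f) 1
            simpa using this
          rw [h3]
          exact Dvd.dvd.mul_left h _
    have hz : ∀ k, r ∣ p ^ k - 1 ↔ ((p : ZMod r)) ^ k = 1 := by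
      intro k
      have h1k : 1 ≤ p ^ k := Nat.one_le_pow _ _ hp.pos
      rw [← ZMod.natCast_eq_zero_iff, Nat.cast_sub h1k]
      push_cast
      exact sub_eq_zero
    rw [← pow_mul] at h1 ⊢
    rw [hz] at h1 ⊢
    have hp0 : (p : ZMod r) ≠ 0 := by
      rw [Ne, ZMod.natCast_eq_zero_iff]; exact hnd
    have h2 : (p : ZMod r) ^ (D * 2) = 1 := by
      obtain ⟨k, hk⟩ := hD
      rw [hk, mul_assoc, pow_mul, ZMod.pow_card_sub_one_eq_one hp0, one_pow]
    have h3 : (p : ZMod r) ^ (Nat.gcd (f * 2) (D * 2)) = 1 := pow_gcd_eq_one.2 ⟨h1, h2⟩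
    rwa [Nat.gcd_mul_right] at h3

theorem L02_card_dvd (F : Type) [Field F] [Fintype F] [DecidableEq F] [Fintype PSL(2, F)] :
    Fintype.card PSL(2, F) ∣
      ((Fintype.card F) ^ 2 - 1) * ((Fintype.card F) ^ 2 - Fintype.card F) := by
  have h1 : Nat.card PSL(2, F) ∣ Nat.card SL(2, F) := Subgroup.card_quotient_dvd_card _
  have h2 : Nat.card SL(2, F) ∣ Nat.card (GL (Fin 2) F) :=
    Subgroup.card_dvd_of_injective _ Matrix.SpecialLinearGroup.toGL_injective
  have h3 := Matrix.card_GL_field (𝔽 := F) 2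
  rw [Fin.prod_univ_two] at h3
  simp only [Fin.val_zero, pow_zero, Fin.val_one, pow_one] at h3
  rw [← Nat.card_eq_fintype_card (α := PSL(2, F)), ← h3]
  exact h1.trans h2

theorem L02_frob {K : Type} [Field K] {p : ℕ} [CharP K p] (hp : p.Prime) {N D : ℕ} (hN : 0 < N)
    (hD : ∀ m, 0 < m → m ≤ N → m ∣ D) (x : K) (hx : x ^ N = 1) : x ^ (p ^ D) = x := by
  have : Fact p.Prime := ⟨hp⟩
  obtain ⟨m, hm⟩ : ∃ m, m = orderOf x := ⟨_, rfl⟩
  have hmN : m ∣ N := hm ▸ orderOf_dvd_of_pow_eq_one hx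
  have hm0 : 0 < m := Nat.pos_of_dvd_of_pos hmN hN
  have hmle : m ≤ N := Nat.le_of_dvd hN hmN
  have hcop : Nat.Coprime p m := by
    rw [Nat.Prime.coprime_iff_not_dvd hp]
    rintro ⟨k, hk⟩
    have h1 : (x ^ k) ^ p = 1 := by
      rw [← pow_mul, mul_comm, ← hk, hm, pow_orderOf_eq_one]
    have h2 : x ^ k = 1 := by
      have h3 : (x ^ k - 1) ^ p = 0 := by
        rw [sub_pow_char, h1, one_pow, sub_self]
      exact sub_eq_zero.1 (pow_eq_zero_iff hp.ne_zero |>.1 h3)
    have h4 : m ∣ k := hm ▸ orderOf_dvd_of_pow_eq_one h2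
    have hk0 : 0 < k := Nat.pos_of_ne_zero (by rintro rfl; omega)
    have h5 := Nat.le_of_dvd hk0 h4
    have h7 : 2 * k ≤ p * k := Nat.mul_le_mul_right k hp.two_le
    rw [← hk] at h7
    omega
  have h1 : p ^ (Nat.totient m) ≡ 1 [MOD m] := Nat.ModEq.pow_totient hcop
  have h2 : Nat.totient m ∣ D :=
    hD _ (Nat.totient_pos.2 hm0) ((Nat.totient_le m).trans hmle)
  obtain ⟨k, hk⟩ := h2
  have h3 : p ^ D ≡ 1 [MOD m] := by
    rw [hk, pow_mul]
    simpa using h1.pow k
  have h4 : x ^ (p ^ D % m) = x ^ (p ^ D) := by rw [hm]; exact pow_mod_orderOf x _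
  have h5 : x ^ (1 % m) = x ^ 1 := by rw [hm]; exact pow_mod_orderOf x _
  have h6 : p ^ D % m = 1 % m := h3
  rw [← h4, h6, h5, pow_one]

section

variable {F : Type} [Field F] (K : Type) [Field K] [DecidableEq K] [Algebra F K]

theorem L02_exists_fix [IsAlgClosed K] (A : SL(2, F)) : ∃ x : OnePoint K, act K A x = x := by
  by_cases hA : Cen A
  · exact ⟨OnePoint.infty, (act_infty K A).2 ((cen_iff A).1 hA).2.1⟩
  · by_cases ht : (tr A) ^ 2 = 4
    · obtain ⟨x, hx⟩ := fix_unip K A hA ht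
      exact ⟨x, (hx x).2 rfl⟩
    · obtain ⟨x, x', -, hx⟩ := fix_semi K A ht
      exact ⟨x, (hx x).2 (Or.inl rfl)⟩

theorem L02_ev_pow (A : SL(2, F)) (x : OnePoint K) (hA : act K A x = x) (n : ℕ) :
    act K (A ^ n) x = x ∧ ev K (A ^ n) x = (ev K A x) ^ n := by
  induction n with
  | zero => rw [pow_zero, pow_zero]; exact ⟨act_one K x, ev_one K x⟩
  | succ n ih =>
    rw [pow_succ, pow_succ]
    refine ⟨by rw [act_mul, hA, ih.1], ?_⟩
    rw [ev_mul K _ _ x ih.1 hA, ih.2]

theorem L02_ev_root (A : SL(2, F)) (x : OnePoint K) (hA : act K A x = x) (n : ℕ)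
    (hc : Cen (A ^ n)) : (ev K A x) ^ (n * 2) = 1 := by
  have h := (L02_ev_pow K A x hA n).2
  rw [pow_mul, ← h]
  rcases hc with hc | hc
  · rw [hc, ev_one, one_pow]
  · rw [hc, ev_neg_one]; ring

theorem L02_tr_eq (A : SL(2, F)) (x : OnePoint K) (hA : act K A x = x) :
    algebraMap F K (tr A) = ev K A x + (ev K A x)⁻¹ := by
  have h := ev_char K A x hA
  have hne := ev_ne_zero K A x hA
  field_simp
  linear_combination -h

end

theorem L02_tr_frob {F : Type} [Field F] {p : ℕ} [CharP F p] (hp : p.Prime) {n D : ℕ} (hn : 0 < n)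
    (hD : ∀ m, 0 < m → m ≤ n * 2 → m ∣ D) (A : SL(2, F)) (hc : Cen (A ^ n)) :
    (tr A) ^ (p ^ D) = tr A := by
  classical
  have : Fact p.Prime := ⟨hp⟩
  let K := AlgebraicClosure F
  have : CharP K p := charP_of_injective_algebraMap (algebraMap F K).injective p
  obtain ⟨x, hx⟩ := L02_exists_fix K A
  have h1 := L02_ev_root K A x hx n hc
  have h2 := L02_tr_eq K A x hx
  have h3 := L02_frob hp (by omega) hD _ h1
  have h4 : ((ev K A x)⁻¹) ^ (p ^ D) = (ev K A x)⁻¹ := by rw [inv_pow, h3]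
  apply (algebraMap F K).injective
  rw [map_pow, h2, add_pow_char_pow, h3, h4]

theorem tri_small (a b c M : ℕ) (ha : 0 < a) (hb : 0 < b) (hc : 0 < c) : ∃ N : ℕ,
    ∀ (F : Type) [Field F] [Fintype F] [DecidableEq F] [Fintype PSL(2, F)] [DecidableEq PSL(2, F)],
      N ≤ Fintype.card F → (∃ p : ℕ, p.Prime ∧ p ∣ Fintype.card F ∧ p ≤ M) →
      ¬ Nat.Coprime a (Fintype.card PSL(2, F)) →
      ¬ Nat.Coprime b (Fintype.card PSL(2, F)) → ¬ Nat.Coprime c (Fintype.card PSL(2, F)) →
      ¬ TriCond (Fintype.card F) a b c ∧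
      ∀ t ∈ O0set PSL(2, F) [a, b, c], ¬ O0gen t := by
  set P : ℕ := 2 * a * b * c with hP
  set D : ℕ := P.factorial with hDdef
  have hbc : 0 < b * c := Nat.mul_pos hb hc
  have hac : 0 < a * c := Nat.mul_pos ha hc
  have hab : 0 < a * b := Nat.mul_pos ha hb
  have haP : a * 2 ≤ P := by
    have : P = a * 2 * (b * c) := by rw [hP]; ring
    rw [this]; exact Nat.le_mul_of_pos_right _ hbc
  have hbP : b * 2 ≤ P := by
    have : P = b * 2 * (a * c) := by rw [hP]; ring
    rw [this]; exact Nat.le_mul_of_pos_right _ hac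
  have hcP : c * 2 ≤ P := by
    have : P = c * 2 * (a * b) := by rw [hP]; ring
    rw [this]; exact Nat.le_mul_of_pos_right _ hab
  have hD : ∀ m, 0 < m → m ≤ P → m ∣ D := fun m h1 h2 => Nat.dvd_factorial h1 h2
  have hD0 : 0 < D := Nat.factorial_pos _
  refine ⟨M ^ D + 1, ?_⟩
  intro F _ _ _ _ _ hN hpM hca hcb hcc
  obtain ⟨p, hp, hpq, hpM⟩ := hpM

  obtain ⟨p', hp'⟩ := CharP.exists F
  obtain ⟨f', hp'p, hcard'⟩ := FiniteField.card F p'
  have hpp' : p = p' := by
    rw [hcard'] at hpq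
    exact (Nat.prime_dvd_prime_iff_eq hp hp'p).1 (hp.dvd_of_dvd_pow hpq)
  subst hpp'
  set f : ℕ := (f' : ℕ) with hf
  have hf0 : 0 < f := f'.pos
  have hfD : D < f := by
    by_contra hcon
    rw [not_lt] at hcon
    have h1 : p ^ f ≤ M ^ D :=
      (Nat.pow_le_pow_right hp.pos hcon).trans (Nat.pow_le_pow_left hpM D)
    rw [hcard'] at hN
    omega
  constructor
  ·
    intro htri
    set g : ℕ := Nat.gcd f D with hg
    have hg0 : 0 < g := Nat.gcd_pos_of_pos_left _ hf0
    have hgD : g ≤ D := Nat.le_of_dvd hD0 (Nat.gcd_dvd_right _ _)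
    obtain ⟨j, hj⟩ : g ∣ f := Nat.gcd_dvd_left _ _
    have hj1 : 1 < j := by
      by_contra hcon
      rw [not_lt] at hcon
      have : f ≤ g := by
        calc f = g * j := hj
          _ ≤ g * 1 := Nat.mul_le_mul_left _ hcon
          _ = g := mul_one g
      omega
    have key : ∀ e : ℕ, 0 < e → e ≤ P → ¬ Nat.Coprime e (Fintype.card PSL(2, F)) →
        ¬ Nat.Coprime e (p ^ g * ((p ^ g) ^ 2 - 1)) := by
      intro e h0 heP hco
      rw [Nat.Prime.not_coprime_iff_dvd] at hco ⊢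
      obtain ⟨r, hr, hre, hrc⟩ := hco
      refine ⟨r, hr, hre, ?_⟩
      apply L02_nt hp hr _ hf0
      · have := L02_card_dvd F
        rw [hcard'] at this
        exact hrc.trans this
      · have h1 := Nat.le_of_dvd h0 hre
        have h2 := hr.two_le
        exact hD _ (by omega) (by omega)
    rcases htri.subfield (p ^ g) j hj1 (by rw [hcard', ← pow_mul, ← hj]) with h | h | h
    · exact key a ha (by omega) hca h
    · exact key b hb (by omega) hcb h
    · exact key c hc (by omega) hcc h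
  ·
    intro t ht hgen
    rw [O0set, Finset.mem_filter] at ht
    obtain ⟨htX, hprod⟩ := ht
    simp only [XS, Finset.mem_image₂, tor, Finset.mem_filter, Finset.mem_univ, true_and,
      Finset.mem_singleton] at htX
    obtain ⟨x, hx, l1, ⟨y, hy, l2, ⟨z, hz, l3, rfl, rfl⟩, rfl⟩, rfl⟩ := htX
    simp only [List.prod_cons, List.prod_nil, mul_one] at hprod
    obtain ⟨X, rfl⟩ := QuotientGroup.mk_surjective x
    obtain ⟨Y, rfl⟩ := QuotientGroup.mk_surjective y
    have hXc : Cen (X ^ a) := by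
      rw [← mem_center_iff', ← QuotientGroup.eq_one_iff]
      exact hx
    have hYc : Cen (Y ^ b) := by
      rw [← mem_center_iff', ← QuotientGroup.eq_one_iff]
      exact hy
    have hz' : z = ((X * Y : SL(2, F)) : PSL(2, F))⁻¹ := by
      rw [← mul_assoc] at hprod
      exact eq_inv_of_mul_eq_one_right hprod
    have hXYc : Cen ((X * Y) ^ c) := by
      rw [← mem_center_iff', ← QuotientGroup.eq_one_iff]
      rw [hz', inv_pow, inv_eq_one] at hz
      exact hz
    have : Fact p.Prime := ⟨hp⟩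
    let R : Subring F := RingHom.eqLocus (iterateFrobenius F p D) (RingHom.id F)
    have hRmem : ∀ t : F, t ∈ R ↔ t ^ (p ^ D) = t := fun t => Iff.rfl
    have hRX : tr X ∈ R := (hRmem _).2 (L02_tr_frob hp ha
      (fun m h1 h2 => hD m h1 (by omega)) X hXc)
    have hRY : tr Y ∈ R := (hRmem _).2 (L02_tr_frob hp hb
      (fun m h1 h2 => hD m h1 (by omega)) Y hYc)
    have hRXY : tr (X * Y) ∈ R := (hRmem _).2 (L02_tr_frob hp hc
      (fun m h1 h2 => hD m h1 (by omega)) (X * Y) hXYc)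
    have hcl := trace_closed F R X Y hRX hRY hRXY

    have hRne : ∃ t : F, t ∉ R := by
      by_contra hcon
      push Not at hcon
      have h1 : ∀ t : F, t ^ (p ^ D) = t := fun t => (hRmem t).1 (hcon t)
      have hpD : 1 < p ^ D := Nat.one_lt_pow hD0.ne' hp.one_lt
      have h2 : Fintype.card F ≤ p ^ D := by
        have hne : (Polynomial.X ^ (p ^ D) - Polynomial.X : Polynomial F) ≠ 0 :=
          FiniteField.X_pow_card_sub_X_ne_zero F hpD
        have h3 : (Finset.univ : Finset F).val ≤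
            (Polynomial.X ^ (p ^ D) - Polynomial.X : Polynomial F).roots := by
          rw [Finset.val_le_iff_val_subset]
          intro t _
          rw [Polynomial.mem_roots hne, Polynomial.IsRoot.def, Polynomial.eval_sub,
            Polynomial.eval_pow, Polynomial.eval_X, h1, sub_self]
        have h4 := Multiset.card_le_card h3
        have h5 := Polynomial.card_roots' (Polynomial.X ^ (p ^ D) - Polynomial.X : Polynomial F)
        rw [FiniteField.X_pow_card_sub_X_natDegree_eq F hpD] at h5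
        exact h4.trans h5
      rw [hcard'] at h2
      exact absurd h2 (not_le.2 (Nat.pow_lt_pow_right hp.one_lt hfD))
    obtain ⟨t, ht⟩ := hRne

    have hmap : ((comp t : SL(2, F)) : PSL(2, F)) ∈
        (Subgroup.closure {X, Y, -1}).map (QuotientGroup.mk' (Subgroup.center SL(2, F))) := by
      have htop : (Subgroup.closure {X, Y, -1}).map
          (QuotientGroup.mk' (Subgroup.center SL(2, F))) = ⊤ := by
        rw [eq_top_iff, ← hgen, Subgroup.closure_le]
        have hXm : X ∈ Subgroup.closure {X, Y, -1} := Subgroup.subset_closure (by simp)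
        have hYm : Y ∈ Subgroup.closure {X, Y, -1} := Subgroup.subset_closure (by simp)
        intro u hu
        simp only [Set.mem_ofPred_eq, List.mem_cons, List.not_mem_nil, or_false] at hu
        rcases hu with rfl | rfl | rfl
        · exact ⟨X, hXm, rfl⟩
        · exact ⟨Y, hYm, rfl⟩
        · exact ⟨(X * Y)⁻¹, inv_mem (mul_mem hXm hYm), by rw [hz']; rfl⟩
      rw [htop]
      trivial
    obtain ⟨Z, hZ, hZt⟩ := hmap
    have hZt' : (Z : PSL(2, F)) = ((comp t : SL(2, F)) : PSL(2, F)) := hZt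
    rw [QuotientGroup.eq, mem_center_iff'] at hZt'
    have hm1 : (-1 : SL(2, F)) ∈ Subgroup.closure {X, Y, -1} :=
      Subgroup.subset_closure (by simp)
    have hcomp : comp t ∈ Subgroup.closure {X, Y, -1} := by
      have h1 : comp t = Z * (Z⁻¹ * comp t) := by group
      rw [h1]
      rcases hZt' with h | h
      · rw [h, mul_one]; exact hZ
      · rw [h]; exact mul_mem hZ hm1
    have := hcl _ hcomp
    rw [tr_comp] at this
    exact ht this

end Pool.Agent.Helper669_gp.L02
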