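import Mathlib
import Pool.Agent.Helper669_gp.Low2

namespace Pool.Agent.Helper669_gp.L04

open scoped MatrixGroups

open Finset

open scoped Classical in

theorem tri_count (F : Type) [Field F] [Fintype F] [DecidableEq F] (t₁ t₂ t₃ : F)
    (h : S3 t₁ t₂ t₃ ≠ 0) :
    Fintype.card F * (Fintype.card F - 1) * (Fintype.card F - 2) ≤
      (univ.filter fun t : SL(2, F) × SL(2, F) =>
        tr t.1 = t₁ ∧ tr t.2 = t₂ ∧ tr (t.1 * t.2) = t₃ ∧ ¬ Cen t.1 ∧ ¬ Cen t.2 ∧
          ¬ Cen (t.1 * t.2)).card := by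
  set Tgt := (univ.filter fun t : SL(2, F) × SL(2, F) =>
        tr t.1 = t₁ ∧ tr t.2 = t₂ ∧ tr (t.1 * t.2) = t₃ ∧ ¬ Cen t.1 ∧ ¬ Cen t.2 ∧
          ¬ Cen (t.1 * t.2)) with hTgt
  set ZS := (univ.filter fun B : SL(2, F) => tr B = t₃ ∧ ¬ Cen B) with hZS
  have hZ : Fintype.card F * (Fintype.card F - 1) ≤ ZS.card := by
    refine le_trans (card_tr_ge t₃) (Finset.card_le_card ?_)
    intro B hB
    rw [hZS]
    simp only [mem_filter, mem_univ, true_and] at hB ⊢
    exact hB
  have hfib : ∀ Z ∈ ZS, Fintype.card F - 2 ≤ (Tgt.filter fun t => t.1 * t.2 = Z).card := by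
    intro Z hZm
    rw [hZS] at hZm
    simp only [mem_filter, mem_univ, true_and] at hZm
    obtain ⟨hZt, hZc⟩ := hZm
    have h' : S3 t₁ t₂ (tr Z) ≠ 0 := by rw [hZt]; exact h
    refine le_trans (card_pair_ge Z hZc t₁ t₂ h') ?_
    apply Finset.card_le_card_of_injOn (fun X => (X, X⁻¹ * Z))
    · intro X hX
      simp only [coe_filter, Set.mem_ofPred_eq, mem_univ, true_and] at hX
      have hnc := S3_ne_of Z X t₁ t₂ h' hX.1 hX.2
      obtain ⟨hXc, -⟩ := not_cen_of Z X hnc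
      rw [Finset.mem_coe, mem_filter, hTgt, mem_filter]
      have hXZ : X * (X⁻¹ * Z) = Z := by group
      refine ⟨⟨mem_univ _, hX.1, hX.2, ?_, hXc, ?_, ?_⟩, hXZ⟩
      · show tr (X * (X⁻¹ * Z)) = t₃
        rw [hXZ, hZt]
      · show ¬ Cen (X⁻¹ * Z)
        rintro (hc | hc)
        · apply hnc
          have : Z = X := by
            calc Z = X * (X⁻¹ * Z) := hXZ.symm
              _ = X := by rw [hc, mul_one]
          rw [this]
        · apply hnc
          have : Z = X * (-1) := by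
            calc Z = X * (X⁻¹ * Z) := hXZ.symm
              _ = X * (-1) := by rw [hc]
          rw [this]
          simp
      · show ¬ Cen (X * (X⁻¹ * Z))
        rw [hXZ]
        exact hZc
    · intro A _ B _ hAB
      exact congrArg Prod.fst hAB
  have hmaps : ∀ t ∈ Tgt, t.1 * t.2 ∈ ZS := by
    intro t ht
    rw [hTgt, mem_filter] at ht
    rw [hZS, mem_filter]
    exact ⟨mem_univ _, ht.2.2.2.1, ht.2.2.2.2.2.2⟩
  rw [Finset.card_eq_sum_card_fiberwise (f := fun t : SL(2, F) × SL(2, F) => t.1 * t.2) hmaps]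
  calc Fintype.card F * (Fintype.card F - 1) * (Fintype.card F - 2)
      ≤ ZS.card * (Fintype.card F - 2) := Nat.mul_le_mul_right _ hZ
    _ = ∑ _Z ∈ ZS, (Fintype.card F - 2) := by rw [Finset.sum_const, smul_eq_mul]
    _ ≤ _ := Finset.sum_le_sum hfib

end Pool.Agent.Helper669_gp.L04
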