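import Mathlib
import Pool.Agent.Helper669_gp.Low2
import Pool.Agent.Helper669_gp.Pts

namespace Pool.Agent.Helper669_gp.L05

open scoped MatrixGroups

open Finset

section L05

lemma L05_pow {K : Type} [Field K] (M : Matrix (Fin 2) (Fin 2) K) (l l' : K) (hll : l * l' = 1)
    (hM : M * M = (l + l') • M - 1) (n : ℕ) :
    (l - l') • M ^ (n + 1) = (l ^ (n + 1) - l' ^ (n + 1)) • M - (l ^ n - l' ^ n) • 1 := by
  induction n with
  | zero => simp
  | succ n ih =>
    have e : (l ^ (n + 1) - l' ^ (n + 1)) * (l + l') - (l ^ n - l' ^ n) =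
        l ^ (n + 2) - l' ^ (n + 2) := by
      linear_combination (l ^ n - l' ^ n) * hll
    calc (l - l') • M ^ (n + 1 + 1) = ((l - l') • M ^ (n + 1)) * M := by
          rw [smul_mul_assoc, ← pow_succ]
      _ = ((l ^ (n + 1) - l' ^ (n + 1)) • M - (l ^ n - l' ^ n) • 1) * M := by rw [ih]
      _ = (l ^ (n + 1) - l' ^ (n + 1)) • (M * M) - (l ^ n - l' ^ n) • M := by
          rw [sub_mul, smul_mul_assoc, smul_mul_assoc, one_mul]
      _ = (l ^ (n + 1) - l' ^ (n + 1)) • ((l + l') • M - 1) - (l ^ n - l' ^ n) • M := by rw [hM]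
      _ = (l ^ (n + 1 + 1) - l' ^ (n + 1 + 1)) • M - (l ^ (n + 1) - l' ^ (n + 1)) • 1 := by
          rw [show n + 1 + 1 = n + 2 from rfl, ← e, sub_smul ((l ^ (n + 1) - l' ^ (n + 1)) * (l + l')),
            mul_smul, smul_sub]
          abel

lemma L05_cen {F : Type} [Field F] (K : Type) [Field K] [Algebra F K] (X : SL(2, F)) (l : K)
    (r : ℕ) (hr : 0 < r) (hl0 : l ≠ 0) (ht : algebraMap F K (tr X) = l + l⁻¹) (hl2 : l ^ 2 ≠ 1)
    (hlr : (l ^ 2) ^ r = 1) : Cen (X ^ r) := by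
  obtain ⟨n, rfl⟩ : ∃ n, r = n + 1 := ⟨r - 1, by omega⟩
  set M : Matrix (Fin 2) (Fin 2) K := X.1.map (algebraMap F K) with hMd
  have hd := congrArg (algebraMap F K) (det_eq X)
  simp only [map_sub, map_mul, map_one] at hd
  have htr : algebraMap F K (X 0 0) + algebraMap F K (X 1 1) = l + l⁻¹ := by
    rw [← ht, tr, map_add]
  have hM : M * M = (l + l⁻¹) • M - 1 := by
    rw [← htr]
    ext i j
    fin_cases i <;> fin_cases j <;>
      simp [M, Matrix.mul_apply]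
    · linear_combination -hd
    · ring
    · ring
    · linear_combination -hd
  have hpow : (X ^ (n + 1)).1.map (algebraMap F K) = M ^ (n + 1) := by
    rw [hMd, Matrix.SpecialLinearGroup.coe_pow, Matrix.map_pow]
  have h := L05_pow M l l⁻¹ (mul_inv_cancel₀ hl0) hM n
  have hz : l ^ (n + 1) - l⁻¹ ^ (n + 1) = 0 := by
    have h1 : l ^ (n + 1) * l ^ (n + 1) = 1 := by
      rw [← pow_add, ← hlr, ← pow_mul]; congr 1; omega
    rw [inv_pow, sub_eq_zero]
    exact eq_inv_of_mul_eq_one_left h1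
  rw [hz, zero_smul, zero_sub, ← hpow] at h
  have hne : l - l⁻¹ ≠ 0 := by
    intro h1
    apply hl2
    have h2 : l = l⁻¹ := sub_eq_zero.mp h1
    rw [pow_two]
    nth_rewrite 2 [h2]
    exact mul_inv_cancel₀ hl0
  have hinj : Function.Injective (algebraMap F K) := (algebraMap F K).injective
  rw [cen_iff]
  refine ⟨?_, ?_, ?_⟩
  · have h1 := congrFun (congrFun h 0) 1
    simp only [Matrix.smul_apply, Matrix.map_apply, Matrix.neg_apply, smul_eq_mul,
      Matrix.one_apply_ne (show (0 : Fin 2) ≠ 1 by decide), mul_zero, neg_zero] at h1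
    exact hinj (by rw [map_zero]; exact (mul_eq_zero.mp h1).resolve_left hne)
  · have h1 := congrFun (congrFun h 1) 0
    simp only [Matrix.smul_apply, Matrix.map_apply, Matrix.neg_apply, smul_eq_mul,
      Matrix.one_apply_ne (show (1 : Fin 2) ≠ 0 by decide), mul_zero, neg_zero] at h1
    exact hinj (by rw [map_zero]; exact (mul_eq_zero.mp h1).resolve_left hne)
  · have h1 := congrFun (congrFun h 0) 0
    have h2 := congrFun (congrFun h 1) 1
    simp only [Matrix.smul_apply, Matrix.map_apply, Matrix.neg_apply, smul_eq_mul,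
      Matrix.one_apply_eq, mul_one] at h1 h2
    exact hinj (mul_left_cancel₀ hne (h1.trans h2.symm))

lemma L05_range {F : Type} [Field F] [Fintype F] (K : Type) [Field K] [Algebra F K] (x : K)
    (hx : x ^ Fintype.card F = x) : ∃ t : F, algebraMap F K t = x := by
  classical
  by_contra hcon
  have hq : 1 < Fintype.card F := Fintype.one_lt_card
  set P : Polynomial K := Polynomial.X ^ Fintype.card F - Polynomial.X with hP
  have hP0 : P ≠ 0 := FiniteField.X_pow_card_sub_X_ne_zero K hq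
  apply hP0
  refine Polynomial.eq_zero_of_natDegree_lt_card_of_eval_eq_zero' P
    (insert x (univ.image (algebraMap F K))) ?_ ?_
  · intro y hy
    rw [mem_insert, mem_image] at hy
    simp only [hP, Polynomial.eval_sub, Polynomial.eval_pow, Polynomial.eval_X]
    rcases hy with rfl | ⟨t, -, rfl⟩
    · rw [hx, sub_self]
    · rw [← map_pow, FiniteField.pow_card, sub_self]
  · rw [card_insert_of_notMem, card_image_of_injective _ (algebraMap F K).injective, card_univ, hP,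
      FiniteField.X_pow_card_sub_X_natDegree_eq K hq]
    · omega
    · intro hy
      rw [mem_image] at hy
      obtain ⟨t, -, ht⟩ := hy
      exact hcon ⟨t, ht⟩

lemma L05_sq {K : Type} [Field K] (l : K) (hl : l ≠ 0) :
    (l + l⁻¹) ^ 2 = l ^ 2 + 2 + (l ^ 2)⁻¹ := by
  field_simp
  ring

lemma L05_not {K : Type} [Field K] (h2 : (2 : K) ≠ 0) (l₁ l₂ : K) (r₁ r₂ : ℕ) (hl₁ : l₁ ≠ 0)
    (hl₂ : l₂ ≠ 0) (hr₁ : r₁.Prime) (hr₂ : r₂.Prime) (hp₁ : IsPrimitiveRoot (l₁ ^ 2) r₁)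
    (hp₂ : IsPrimitiveRoot (l₂ ^ 2) r₂) : (l₁ + l₁⁻¹) ^ 2 + (l₂ + l₂⁻¹) ^ 2 ≠ 4 := by
  intro h
  rw [L05_sq l₁ hl₁, L05_sq l₂ hl₂] at h
  set m₁ := l₁ ^ 2 with hm₁
  set m₂ := l₂ ^ 2 with hm₂
  have hm₁0 : m₁ ≠ 0 := pow_ne_zero 2 hl₁
  have hm₂0 : m₂ ≠ 0 := pow_ne_zero 2 hl₂
  have hn₁ : m₁ ≠ 1 := hp₁.ne_one hr₁.one_lt
  have hn₂ : m₂ ≠ 1 := hp₂.ne_one hr₂.one_lt
  have hf : (m₁ + m₂) * (m₁ * m₂ + 1) = 0 := by
    have e1 : m₁ * m₁⁻¹ = 1 := mul_inv_cancel₀ hm₁0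
    have e2 : m₂ * m₂⁻¹ = 1 := mul_inv_cancel₀ hm₂0
    linear_combination (m₁ * m₂) * h - m₂ * e1 - m₁ * e2
  have hneg : (-1 : K) ≠ 1 := by
    intro h1
    apply h2
    linear_combination -h1
  by_cases h22 : r₂ = 2
  · rw [h22] at hp₂
    have e := hp₂.eq_neg_one_of_two_right
    rw [e] at hf
    apply hn₁
    have hf' : (m₁ - 1) ^ 2 = 0 := by linear_combination -hf
    exact sub_eq_zero.mp ((pow_eq_zero_iff two_ne_zero).mp hf')
  · by_cases h12 : r₁ = 2
    · rw [h12] at hp₁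
      have e := hp₁.eq_neg_one_of_two_right
      rw [e] at hf
      apply hn₂
      have hf' : (m₂ - 1) ^ 2 = 0 := by linear_combination -hf
      exact sub_eq_zero.mp ((pow_eq_zero_iff two_ne_zero).mp hf')
    · have ho : Odd (r₁ * r₂) := (hr₁.odd_of_ne_two h12).mul (hr₂.odd_of_ne_two h22)
      have f1 : m₁ ^ (r₁ * r₂) = 1 := by rw [pow_mul, hp₁.pow_eq_one, one_pow]
      have f2 : m₂ ^ (r₁ * r₂) = 1 := by rw [mul_comm, pow_mul, hp₂.pow_eq_one, one_pow]
      rcases mul_eq_zero.mp hf with h3 | h3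
      · have h4 : m₁ = -m₂ := by linear_combination h3
        rw [h4, ho.neg_pow, f2] at f1
        exact hneg f1
      · have h4 : m₁ * m₂ = -1 := by linear_combination h3
        have h5 : (m₁ * m₂) ^ (r₁ * r₂) = 1 := by rw [mul_pow, f1, f2, one_mul]
        rw [h4, ho.neg_one_pow] at h5
        exact hneg h5

lemma L05_exists (F : Type) [Field F] [Fintype F] (K : Type) [Field K] [Algebra F K]
    [IsAlgClosed K] (h2 : (2 : F) ≠ 0) (v j r : ℕ) (hj : 0 < j) (hq : Fintype.card F = v ^ j)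
    (hr : r.Prime) (h : r ∣ v ^ 2 - 1) :
    ∃ (l : K) (t : F), l ≠ 0 ∧ IsPrimitiveRoot (l ^ 2) r ∧ algebraMap F K t = l + l⁻¹ ∧
      t ^ v = t := by
  obtain ⟨p, hp⟩ := CharP.exists F
  obtain ⟨n, hpp, hn⟩ := FiniteField.card F p
  have : Fact p.Prime := ⟨hpp⟩
  have hpK : CharP K p := charP_of_injective_algebraMap (algebraMap F K).injective p
  have hp2 : p ≠ 2 := by
    rintro rfl
    exact h2 (by exact_mod_cast CharP.cast_eq_zero F 2)
  have hvp : v ∣ p ^ (n : ℕ) := by rw [← hn, hq]; exact dvd_pow_self v hj.ne'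
  obtain ⟨k, -, hk⟩ := (Nat.dvd_prime_pow hpp).1 hvp
  have hv1 : v ≠ 1 := by
    rintro rfl
    rw [one_pow] at hq
    have := Fintype.one_lt_card (α := F)
    omega
  have hk0 : k ≠ 0 := by
    rintro rfl
    exact hv1 (by rw [hk, pow_zero])
  have hpv : p ∣ v := by rw [hk]; exact dvd_pow_self p hk0
  have hv0 : v ≠ 0 := by
    rw [hk]; exact pow_ne_zero _ hpp.ne_zero
  have hrp : r ≠ p := by
    rintro rfl
    have h1 : r ∣ v ^ 2 := dvd_pow hpv two_ne_zero
    have h3 : 1 ≤ v ^ 2 := Nat.one_le_pow _ _ (Nat.pos_of_ne_zero hv0)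
    have h4 : r ∣ 1 := by
      have := (Nat.dvd_sub h1 h)
      rwa [Nat.sub_sub_self h3] at this
    exact hr.one_lt.ne' (Nat.dvd_one.mp h4)
  by_cases hr2 : r = 2
  · obtain ⟨l, hl⟩ := IsAlgClosed.exists_pow_nat_eq (-1 : K) (n := 2) two_pos
    have hl0 : l ≠ 0 := by
      rintro rfl
      simp at hl
    refine ⟨l, 0, hl0, ?_, ?_, zero_pow hv0⟩
    · rw [hl, hr2]; exact IsPrimitiveRoot.neg_one p hp2
    · rw [map_zero]
      have : l⁻¹ = -l := by
        rw [inv_eq_iff_eq_inv, eq_comm, inv_eq_of_mul_eq_one_right]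
        linear_combination -hl
      rw [this]; ring
  · have hrK : (r : K) ≠ 0 := by
      intro h0
      have := (CharP.cast_eq_zero_iff K p r).1 h0
      exact hrp ((Nat.prime_dvd_prime_iff_eq hpp hr).1 this).symm
    have : NeZero (r : K) := ⟨hrK⟩
    obtain ⟨l, hl⟩ := HasEnoughRootsOfUnity.exists_primitiveRoot K r
    have hl0 : l ≠ 0 := hl.ne_zero hr.ne_zero
    have hodd : Odd r := hr.odd_of_ne_two hr2
    have hlv : l ^ v = l ∨ l ^ v = l⁻¹ := by
      have h3 : v ^ 2 - 1 = (v + 1) * (v - 1) := by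
        have := Nat.sq_sub_sq v 1
        simpa using this
      rw [h3] at h
      rcases (hr.dvd_mul).1 h with h4 | h4
      · right
        have h5 : l ^ (v + 1) = 1 := (hl.pow_eq_one_iff_dvd _).2 h4
        rw [pow_succ] at h5
        exact eq_inv_of_mul_eq_one_left h5
      · left
        have h5 : l ^ (v - 1) = 1 := (hl.pow_eq_one_iff_dvd _).2 h4
        have h6 : v = (v - 1) + 1 := by omega
        rw [h6, pow_succ, h5, one_mul]
    have htv : (l + l⁻¹) ^ v = l + l⁻¹ := by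
      have h3 : (l + l⁻¹) ^ v = l ^ v + l⁻¹ ^ v := by
        rw [hk]; exact add_pow_char_pow l l⁻¹ p k
      rw [h3, inv_pow]
      rcases hlv with h4 | h4
      · rw [h4]
      · rw [h4, inv_inv, add_comm]
    have htq : ∀ i, (l + l⁻¹) ^ (v ^ i) = l + l⁻¹ := by
      intro i
      induction i with
      | zero => simp
      | succ i ih => rw [pow_succ, pow_mul, ih, htv]
    obtain ⟨t, ht⟩ := L05_range K (l + l⁻¹) (by rw [hq]; exact htq j)
    refine ⟨l, t, hl0, hl.pow_of_coprime 2 (Nat.coprime_two_left.2 hodd), ht, ?_⟩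
    apply (algebraMap F K).injective
    rw [map_pow, ht, htv]

end L05

theorem sign_choice (F : Type) [Field F] [Fintype F] [DecidableEq F] (h2 : (2 : F) ≠ 0)
    (v j r₁ r₂ r₃ : ℕ) (hj : 0 < j) (hq : Fintype.card F = v ^ j)
    (hr₁ : r₁.Prime) (hr₂ : r₂.Prime) (hr₃ : r₃.Prime)
    (h₁ : r₁ ∣ v ^ 2 - 1) (h₂ : r₂ ∣ v ^ 2 - 1) (h₃ : r₃ ∣ v ^ 2 - 1) :
    ∃ t₁ t₂ t₃ : F, t₁ ^ v = t₁ ∧ t₂ ^ v = t₂ ∧ t₃ ^ v = t₃ ∧ S3 t₁ t₂ t₃ ≠ 0 ∧
      (∀ X : SL(2, F), tr X = t₁ → ¬ Cen X → Cen (X ^ r₁)) ∧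
      (∀ X : SL(2, F), tr X = t₂ → ¬ Cen X → Cen (X ^ r₂)) ∧
      (∀ X : SL(2, F), tr X = t₃ → ¬ Cen X → Cen (X ^ r₃)) := by
  set K := AlgebraicClosure F with hK
  have h2K : (2 : K) ≠ 0 := by
    intro h
    apply h2
    apply (algebraMap F K).injective
    rw [map_ofNat, map_zero]
    exact h
  obtain ⟨l₁, t₁, a₁, b₁, c₁, d₁⟩ := L05_exists F K h2 v j r₁ hj hq hr₁ h₁
  obtain ⟨l₂, t₂, a₂, b₂, c₂, d₂⟩ := L05_exists F K h2 v j r₂ hj hq hr₂ h₂
  obtain ⟨l₃, t₃, a₃, b₃, c₃, d₃⟩ := L05_exists F K h2 v j r₃ hj hq hr₃ h₃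
  have cen : ∀ (l : K) (t : F) (r : ℕ), l ≠ 0 → r.Prime → IsPrimitiveRoot (l ^ 2) r →
      algebraMap F K t = l + l⁻¹ → ∀ X : SL(2, F), tr X = t → ¬ Cen X → Cen (X ^ r) := by
    intro l t r hl hr hp ht X hX _
    exact L05_cen K X l r hr.pos hl (by rw [hX]; exact ht) (hp.ne_one hr.one_lt) hp.pow_eq_one
  by_cases hS : S3 t₁ t₂ t₃ = 0
  · refine ⟨t₁, t₂, -t₃, d₁, d₂, ?_, ?_, cen l₁ t₁ r₁ a₁ hr₁ b₁ c₁, cen l₂ t₂ r₂ a₂ hr₂ b₂ c₂, ?_⟩
    · have hodd : Odd v := by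
        by_contra hev
        rw [Nat.not_odd_iff_even] at hev
        have h4 : Even (Fintype.card F) := by
          rw [hq]; exact hev.pow_of_ne_zero hj.ne'
        have h5 : ((Fintype.card F : ℕ) : F) = 0 := FiniteField.cast_card_eq_zero F
        obtain ⟨p, hp⟩ := CharP.exists F
        obtain ⟨n, hpp, hn⟩ := FiniteField.card F p
        rw [hn] at h4
        have h6 : p = 2 := by
          by_contra hne
          have h7 : Odd (p ^ (n : ℕ)) := (hpp.odd_of_ne_two hne).pow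
          exact (Nat.not_even_iff_odd.2 h7) h4
        subst h6
        exact h2 (by exact_mod_cast CharP.cast_eq_zero F 2)
      rw [hodd.neg_pow, d₃]
    · intro hS'
      have e0 : 2 * (t₁ * t₂ * t₃) = 0 := by
        unfold S3 at hS hS'
        linear_combination hS' - hS
      have e1 : t₁ * t₂ * t₃ = 0 := (mul_eq_zero.mp e0).resolve_left h2
      have e2 : t₁ ^ 2 + t₂ ^ 2 + t₃ ^ 2 = 4 := by
        unfold S3 at hS
        linear_combination hS + e1
      have e3 : (algebraMap F K t₁) ^ 2 + (algebraMap F K t₂) ^ 2 + (algebraMap F K t₃) ^ 2 =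
          4 := by
        have := congrArg (algebraMap F K) e2
        simpa only [map_add, map_pow, map_ofNat] using this
      rcases mul_eq_zero.mp e1 with e4 | e4
      · rcases mul_eq_zero.mp e4 with e5 | e5
        · rw [e5, map_zero] at e3
          refine L05_not h2K l₂ l₃ r₂ r₃ a₂ a₃ hr₂ hr₃ b₂ b₃ ?_
          rw [← c₂, ← c₃]
          linear_combination e3
        · rw [e5, map_zero] at e3
          refine L05_not h2K l₁ l₃ r₁ r₃ a₁ a₃ hr₁ hr₃ b₁ b₃ ?_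
          rw [← c₁, ← c₃]
          linear_combination e3
      · rw [e4, map_zero] at e3
        refine L05_not h2K l₁ l₂ r₁ r₂ a₁ a₂ hr₁ hr₂ b₁ b₂ ?_
        rw [← c₁, ← c₂]
        linear_combination e3
    · refine cen (-l₃) (-t₃) r₃ (neg_ne_zero.2 a₃) hr₃ (by rw [neg_sq]; exact b₃) ?_
      rw [map_neg, c₃, inv_neg]
      ring
  · exact ⟨t₁, t₂, t₃, d₁, d₂, d₃, hS, cen l₁ t₁ r₁ a₁ hr₁ b₁ c₁, cen l₂ t₂ r₂ a₂ hr₂ b₂ c₂,
      cen l₃ t₃ r₃ a₃ hr₃ b₃ c₃⟩

end Pool.Agent.Helper669_gp.L05
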