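import Mathlib
import Pool.Agent.Helper669_gp.Low2
import Pool.Agent.Helper669_gp.Pts
import Pool.Agent.Helper669_gp.Abs
import Pool.Agent.Helper669_gp.Defs
import Pool.Agent.Helper669_gp.L04

namespace Pool.Agent.Helper669_gp.L06

open Pool.Agent.Helper669_gp.L04

open scoped MatrixGroups

open Finset

section L06

variable {F : Type} [Field F]

abbrev L06_mk (A : SL(2, F)) : PSL(2, F) := QuotientGroup.mk A

lemma L06_mk_eq_one (A : SL(2, F)) : L06_mk A = 1 ↔ Cen A := by
  rw [← mem_center_iff' A]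
  exact QuotientGroup.eq_one_iff A

lemma L06_mk_pow (A : SL(2, F)) (n : ℕ) : L06_mk A ^ n = 1 ↔ Cen (A ^ n) := by
  rw [← L06_mk_eq_one]
  rfl

lemma L06_mk_eq (A B : SL(2, F)) (h : L06_mk A = L06_mk B) : B = A ∨ B = -A := by
  have h1 : A⁻¹ * B ∈ Subgroup.center SL(2, F) := QuotientGroup.eq.mp h
  rw [mem_center_iff'] at h1
  rcases h1 with h1 | h1
  · left
    exact (inv_mul_eq_one.mp h1).symm
  · right
    have : B = A * (-1) := by rw [← h1]; group
    rw [this]; simp

lemma L06_sq (A : SL(2, F)) (h : tr A = 0) : A ^ 2 = -1 := by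
  have hd := det_eq A
  rw [tr] at h
  rw [pow_two]
  refine sl_ext ?_ ?_ ?_ ?_ <;> simp only [mul00, mul01, mul10, mul11, neg00, neg01, neg10, neg11,
    one00, one01, one10, one11]
  · linear_combination (A 0 0) * h - hd
  · linear_combination (A 0 1) * h
  · linear_combination (A 1 0) * h
  · linear_combination (A 1 1) * h - hd

lemma L06_mk_sq (A : SL(2, F)) (h : tr A = 0) : L06_mk A ^ 2 = 1 := by
  rw [L06_mk_pow, L06_sq A h]
  right; rfl

lemma L06_mk_even (A : SL(2, F)) (h : tr A = 0) (m : ℕ) (hm : ¬ Odd m) : L06_mk A ^ m = 1 := by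
  rw [Nat.not_odd_iff_even] at hm
  obtain ⟨k, hk⟩ := hm
  rw [hk, ← two_mul, pow_mul, L06_mk_sq A h, one_pow]

lemma L06_pow_of_tr (A B : SL(2, F)) (hA : ¬ Cen A) (hB : ¬ Cen B) (h : tr A = tr B) (m : ℕ)
    (hm : L06_mk A ^ m = 1) : L06_mk B ^ m = 1 := by
  rw [L06_mk_pow] at hm ⊢
  obtain ⟨P, hP⟩ := exists_cj A hA
  obtain ⟨Q, hQ⟩ := exists_cj B hB
  rw [← cen_cj Q, map_pow, hQ, ← h, ← hP, ← map_pow, cen_cj]
  exact hm

lemma L06_unip (p : ℕ) [Fact p.Prime] [CharP F p] (A : SL(2, F)) (h : tr A = 2) : A ^ p = 1 := by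
  have hd := det_eq A
  have h2 : (A.1 - 1) ^ 2 = 0 := by
    rw [tr] at h
    ext i j
    rw [pow_two, Matrix.mul_apply, Fin.sum_univ_two]
    fin_cases i <;> fin_cases j <;> simp [Matrix.sub_apply]
    · linear_combination (A 0 0) * h - hd
    · linear_combination (A 0 1) * h
    · linear_combination (A 1 0) * h
    · linear_combination (A 1 1) * h - hd
  have hp : (A.1 - 1) ^ p = A.1 ^ p - 1 ^ p :=
    sub_pow_char_of_commute p (Commute.one_right _)
  have h3 : (A.1 - 1) ^ p = 0 := by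
    obtain ⟨k, hk⟩ := Nat.exists_eq_add_of_le (Fact.out : p.Prime).two_le
    rw [hk, pow_add, h2, zero_mul]
  rw [h3, one_pow] at hp
  apply Subtype.ext
  have : (A ^ p).1 = A.1 ^ p := by
    exact Matrix.SpecialLinearGroup.coe_pow A p
  rw [this]
  exact (sub_eq_zero.mp hp.symm)

lemma L06_exists_t [Fintype F] [DecidableEq F] [Fintype PSL(2, F)] (m : ℕ) (hm : 0 < m)
    (hp : ∀ p : ℕ, p.Prime → p ∣ Fintype.card F → m < p)
    (hc : ¬ Nat.Coprime m (Fintype.card PSL(2, F))) :
    ∃ t : F, S3 0 0 t ≠ 0 ∧ ∀ B : SL(2, F), ¬ Cen B → tr B = t → L06_mk B ^ m = 1 := by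
  classical
  obtain ⟨r, hr, hr1, hr2⟩ := Nat.Prime.not_coprime_iff_dvd.mp hc
  have : Fact r.Prime := ⟨hr⟩
  obtain ⟨z, hz⟩ := exists_prime_orderOf_dvd_card r hr2
  obtain ⟨Z, rfl⟩ := QuotientGroup.mk_surjective z
  have hZr : L06_mk Z ^ r = 1 := by
    rw [← hz]; exact pow_orderOf_eq_one _
  have hZm : L06_mk Z ^ m = 1 := by
    obtain ⟨k, rfl⟩ := hr1
    rw [pow_mul, hZr, one_pow]
  have hZ1 : ¬ Cen Z := by
    rw [← L06_mk_eq_one]
    intro h
    have : orderOf (L06_mk Z) = 1 := by rw [h, orderOf_one]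
    rw [hz] at this
    exact hr.one_lt.ne' this
  obtain ⟨n, hpp, hcard⟩ := FiniteField.card F (ringChar F)
  set p := ringChar F with hpdef
  have : Fact p.Prime := ⟨hpp⟩
  have : CharP F p := ringChar.charP F
  have hmp : m < p := hp p hpp (by rw [hcard]; exact dvd_pow_self _ n.pos.ne')
  have hrp : ¬ L06_mk Z ^ p = 1 := by
    intro h
    have h1 : orderOf (L06_mk Z) ∣ p := orderOf_dvd_of_pow_eq_one h
    rw [hz] at h1
    have h2 : r = p := (Nat.prime_dvd_prime_iff_eq hr hpp).mp h1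
    have h3 := Nat.le_of_dvd hm hr1
    omega
  refine ⟨tr Z, ?_, ?_⟩
  · intro h
    rw [S3] at h
    have h1 : (tr Z - 2) * (tr Z + 2) = 0 := by linear_combination h
    rcases mul_eq_zero.mp h1 with h2 | h2
    · have h3 := L06_unip p Z (by linear_combination h2)
      apply hrp
      rw [L06_mk_pow, h3]
      left; rfl
    · have h3 := L06_unip p (-Z) (by rw [tr_neg]; linear_combination -h2)
      apply hrp
      rw [L06_mk_pow]
      rcases Nat.even_or_odd p with he | ho
      · rw [he.neg_pow] at h3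
        left; exact h3
      · rw [ho.neg_pow] at h3
        right; rw [← h3]; simp
  · intro B hB hB'
    exact L06_pow_of_tr Z B hZ1 hB hB'.symm m hZm

lemma L06_not_comm (h2 : (2 : F) ≠ 0) : ∃ x y : PSL(2, F), x * y ≠ y * x := by
  let A : SL(2, F) := ⟨!![1, 1; 0, 1], by simp [Matrix.det_fin_two]⟩
  let B : SL(2, F) := ⟨!![1, 0; 1, 1], by simp [Matrix.det_fin_two]⟩
  have a00 : A 0 0 = 1 := rfl
  have a01 : A 0 1 = 1 := rfl
  have a10 : A 1 0 = 0 := rfl
  have a11 : A 1 1 = 1 := rfl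
  have b00 : B 0 0 = 1 := rfl
  have b01 : B 0 1 = 0 := rfl
  have b10 : B 1 0 = 1 := rfl
  have b11 : B 1 1 = 1 := rfl
  refine ⟨L06_mk A, L06_mk B, ?_⟩
  intro h
  have h' : L06_mk (A * B) = L06_mk (B * A) := h
  rcases L06_mk_eq _ _ h' with h1 | h1
  · have e := congrArg (fun M : SL(2, F) => M 0 0) h1
    simp only [mul00, a00, a01, a10, b00, b01, b10] at e
    apply one_ne_zero (α := F)
    linear_combination -e
  · have e := congrArg (fun M : SL(2, F) => M 0 1) h1
    simp only [mul01, neg01, a00, a01, a11, b00, b01, b11] at e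
    apply h2
    linear_combination e

lemma L06_dihedral {G : Type} [Group G] [IsSimpleGroup G] (hnc : ∃ u v : G, u * v ≠ v * u)
    (x y : G) (hx : x ^ 2 = 1) (hy : y ^ 2 = 1) : Subgroup.closure {x, y} ≠ ⊤ := by
  intro htop
  have hx' : x⁻¹ = x := by
    rw [inv_eq_iff_mul_eq_one, ← pow_two, hx]
  have hy' : y⁻¹ = y := by
    rw [inv_eq_iff_mul_eq_one, ← pow_two, hy]
  have hxx : x * x = 1 := by rw [← pow_two, hx]
  have hyy : y * y = 1 := by rw [← pow_two, hy]

  have hcyc : ∀ g : G, Subgroup.zpowers g ≠ ⊤ := by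
    intro g hg
    obtain ⟨u, v, huv⟩ := hnc
    obtain ⟨i, hi⟩ := Subgroup.mem_zpowers_iff.mp (hg ▸ Subgroup.mem_top u : u ∈ Subgroup.zpowers g)
    obtain ⟨j, hj⟩ := Subgroup.mem_zpowers_iff.mp (hg ▸ Subgroup.mem_top v : v ∈ Subgroup.zpowers g)
    apply huv
    rw [← hi, ← hj, ← zpow_add, ← zpow_add, add_comm]
  have hn : (Subgroup.zpowers (x * y)).Normal := by
    rw [← Subgroup.normalizer_eq_top_iff, eq_top_iff, ← htop, Subgroup.closure_le]
    have hinv : (x * y)⁻¹ = y * x := by rw [mul_inv_rev, hx', hy']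
    have key : ∀ g : G, g * (x * y) * g⁻¹ = (x * y)⁻¹ → g⁻¹ = g →
        g ∈ Subgroup.normalizer (Subgroup.zpowers (x * y) : Set G) := by
      intro g hg hgg
      rw [Subgroup.mem_normalizer_iff]
      intro h
      have hpow : ∀ k : ℤ, g * (x * y) ^ k * g⁻¹ = (x * y) ^ (-k) := by
        intro k
        rw [← conj_zpow, hg, inv_zpow, zpow_neg]
      constructor
      · intro hh
        obtain ⟨k, rfl⟩ := Subgroup.mem_zpowers_iff.mp hh
        rw [hpow]
        exact Subgroup.zpow_mem _ (Subgroup.mem_zpowers _) _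
      · intro hh
        obtain ⟨k, hk⟩ := Subgroup.mem_zpowers_iff.mp hh
        have : h = g * (x * y) ^ k * g⁻¹ := by
          rw [hk]
          rw [hgg]
          have hgg' : g * g = 1 := by
            nth_rewrite 1 [← hgg]
            exact inv_mul_cancel g
          calc h = (g * g) * h * (g * g) := by rw [hgg']; simp
            _ = _ := by group
        rw [this, hpow]
        exact Subgroup.zpow_mem _ (Subgroup.mem_zpowers _) _
    intro g hg
    rcases hg with rfl | hg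
    · apply key _ _ hx'
      rw [hinv, hx', ← mul_assoc, hxx, one_mul]
    · rw [Set.mem_singleton_iff] at hg
      subst hg
      apply key _ _ hy'
      rw [hinv, mul_assoc, mul_assoc, mul_inv_cancel, mul_one]
  rcases hn.eq_bot_or_eq_top with h | h
  · rw [Subgroup.zpowers_eq_bot] at h
    have hyx : y = x := by
      calc y = (x * x) * y := by rw [hxx, one_mul]
        _ = x * (x * y) := by group
        _ = x := by rw [h, mul_one]
    apply hcyc x
    rw [← htop, hyx, Subgroup.zpowers_eq_closure]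
    simp
  · exact hcyc _ h

lemma L06_fib (S : Finset (SL(2, F) × SL(2, F))) [DecidableEq F]
    (h : ∀ u ∈ S, ∀ v ∈ S, L06_mk u.1 = L06_mk v.1 ∧ L06_mk u.2 = L06_mk v.2) : S.card ≤ 4 := by
  rcases S.eq_empty_or_nonempty with rfl | ⟨u₀, hu₀⟩
  · simp
  · have hsub : S ⊆ {(u₀.1, u₀.2), (u₀.1, -u₀.2), (-u₀.1, u₀.2), (-u₀.1, -u₀.2)} := by
      intro u hu
      obtain ⟨e1, e2⟩ := h u₀ hu₀ u hu
      have e1' := L06_mk_eq _ _ e1
      have e2' := L06_mk_eq _ _ e2
      obtain ⟨u1, u2⟩ := u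
      simp only at e1' e2'
      rcases e1' with rfl | rfl <;> rcases e2' with rfl | rfl <;> simp
    refine le_trans (Finset.card_le_card hsub) ?_
    exact Finset.card_le_four

lemma L06_card_le [DecidableEq F] (S : Finset (SL(2, F) × SL(2, F))) (T : Finset (List PSL(2, F)))
    (g : PSL(2, F) → PSL(2, F) → List PSL(2, F))
    (hg : ∀ x y x' y', g x y = g x' y' → x = x' ∧ y = y')
    (hST : ∀ u ∈ S, g (L06_mk u.1) (L06_mk u.2) ∈ T) : S.card ≤ 4 * T.card := by
  classical
  apply Finset.card_le_mul_card_image_of_maps_to (f := fun u => g (L06_mk u.1) (L06_mk u.2))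
  · intro u hu
    exact hST u hu
  · intro l _
    apply L06_fib
    intro u hu v hv
    rw [mem_filter] at hu hv
    exact hg _ _ _ _ (hu.2.trans hv.2.symm)

end L06

open scoped Classical in

theorem tri_neg_T1 (a b c : ℕ) (ha : 0 < a) (hb : 0 < b) (hc : 0 < c) : ∃ C : ℝ, 0 < C ∧
    ∀ (F : Type) [Field F] [Fintype F] [DecidableEq F] [Fintype PSL(2, F)] [DecidableEq PSL(2, F)],
      7 ≤ Fintype.card F →
      (∀ p : ℕ, p.Prime → p ∣ Fintype.card F → a < p ∧ b < p ∧ c < p ∧ 5 < p) →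
      ¬ Nat.Coprime a (Fintype.card PSL(2, F)) →
      ¬ Nat.Coprime b (Fintype.card PSL(2, F)) → ¬ Nat.Coprime c (Fintype.card PSL(2, F)) →
      ¬ ((Odd a ∨ Odd b) ∧ (Odd a ∨ Odd c) ∧ (Odd b ∨ Odd c)) →
      (Fintype.card F : ℝ) ^ 3 ≤ C * (((O0set PSL(2, F) [a, b, c]).filter fun t => ¬ O0gen t).card : ℝ) := by
  refine ⟨8, by norm_num, ?_⟩
  intro F _ _ _ _ _ hq hp ha' hb' hc' hodd
  have h2 : (2 : F) ≠ 0 := by
    intro h
    obtain ⟨n, hpp, hcard⟩ := FiniteField.card F (ringChar F)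
    have h5 := (hp (ringChar F) hpp (by rw [hcard]; exact dvd_pow_self _ n.pos.ne')).2.2.2
    have h6 : ringChar F ∣ 2 := ringChar.dvd (by exact_mod_cast h)
    have := Nat.le_of_dvd (by norm_num) h6
    omega
  have : IsSimpleGroup PSL(2, F) :=
    Matrix.ProjectiveSpecialLinearGroup.rank_two_simple (by rw [Nat.card_eq_fintype_card]; omega)

  have main : ∀ (t : F), S3 0 0 t ≠ 0 → ∀ g : PSL(2, F) → PSL(2, F) → List PSL(2, F),
      (∀ x y x' y', g x y = g x' y' → x = x' ∧ y = y') →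
      (∀ X Y : SL(2, F), tr X = 0 → tr Y = 0 → tr (X * Y) = t → ¬ Cen (X * Y) →
        g (L06_mk X) (L06_mk Y) ∈ ((O0set PSL(2, F) [a, b, c]).filter fun t => ¬ O0gen t)) →
      (Fintype.card F : ℝ) ^ 3 ≤
        8 * (((O0set PSL(2, F) [a, b, c]).filter fun t => ¬ O0gen t).card : ℝ) := by
    intro t ht g hg hmem
    have h1 := tri_count F 0 0 t ht
    set S := (univ.filter fun t' : SL(2, F) × SL(2, F) =>
        tr t'.1 = 0 ∧ tr t'.2 = 0 ∧ tr (t'.1 * t'.2) = t ∧ ¬ Cen t'.1 ∧ ¬ Cen t'.2 ∧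
          ¬ Cen (t'.1 * t'.2)) with hS
    set T := ((O0set PSL(2, F) [a, b, c]).filter fun t => ¬ O0gen t) with hT
    have h3 : S.card ≤ 4 * T.card := by
      apply L06_card_le S T g hg
      intro u hu
      rw [hS, mem_filter] at hu
      exact hmem u.1 u.2 hu.2.1 hu.2.2.1 hu.2.2.2.1 hu.2.2.2.2.2.2
    have h4 : Fintype.card F * (Fintype.card F - 1) * (Fintype.card F - 2) ≤ 4 * T.card :=
      h1.trans h3
    have h5 : ((Fintype.card F : ℝ) * (Fintype.card F - 1) * (Fintype.card F - 2)) ≤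
        4 * (T.card : ℝ) := by
      have h6 : ((Fintype.card F * (Fintype.card F - 1) * (Fintype.card F - 2) : ℕ) : ℝ) ≤
        ((4 * T.card : ℕ) : ℝ) := by exact_mod_cast h4
      push_cast [Nat.cast_sub (show 1 ≤ Fintype.card F by omega),
        Nat.cast_sub (show 2 ≤ Fintype.card F by omega)] at h6
      exact h6
    have hq' : (7 : ℝ) ≤ Fintype.card F := by exact_mod_cast hq
    nlinarith [mul_nonneg (by linarith : (0 : ℝ) ≤ Fintype.card F)
      (by nlinarith : (0 : ℝ) ≤ (Fintype.card F : ℝ) ^ 2 - 6 * Fintype.card F + 4)]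

  have hgen : ∀ (X Y : SL(2, F)) (l : List PSL(2, F)), tr X = 0 → tr Y = 0 →
      (∀ z ∈ l, z ∈ Subgroup.closure {L06_mk X, L06_mk Y}) → ¬ O0gen l := by
    intro X Y l hX hY hl hgen
    apply L06_dihedral (L06_not_comm h2) (L06_mk X) (L06_mk Y) (L06_mk_sq X hX) (L06_mk_sq Y hY)
    rw [eq_top_iff]
    rw [O0gen] at hgen
    rw [← hgen, Subgroup.closure_le]
    intro z hz
    exact hl z hz
  have hO0 : ∀ x y z : PSL(2, F), x ^ a = 1 → y ^ b = 1 → z ^ c = 1 → x * y * z = 1 →
      [x, y, z] ∈ O0set PSL(2, F) [a, b, c] := by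
    intro x y z hx hy hz hxyz
    rw [O0set, mem_filter]
    refine ⟨?_, by simpa [mul_assoc] using hxyz⟩
    simp only [XS, tor, mem_image₂, mem_filter, mem_univ, true_and, mem_singleton]
    exact ⟨x, hx, [y, z], ⟨y, hy, [z], ⟨z, hz, [], rfl, rfl⟩, rfl⟩, rfl⟩
  have hcases : (¬ Odd a ∧ ¬ Odd b) ∨ (¬ Odd a ∧ ¬ Odd c) ∨ (¬ Odd b ∧ ¬ Odd c) := by tauto
  rcases hcases with ⟨h, h'⟩ | ⟨h, h'⟩ | ⟨h, h'⟩
  · obtain ⟨t, ht, htt⟩ := L06_exists_t (F := F) c hc (fun p hp1 hp2 => (hp p hp1 hp2).2.2.1) hc'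
    apply main t ht (fun x y => [x, y, (x * y)⁻¹])
    · intro x y x' y' h
      simp only [List.cons.injEq] at h
      exact ⟨h.1, h.2.1⟩
    · intro X Y hX hY hXY hcen
      rw [mem_filter]
      refine ⟨hO0 _ _ _ (L06_mk_even X hX a h) (L06_mk_even Y hY b h') ?_ (by group), ?_⟩
      · rw [inv_pow, inv_eq_one]
        exact htt _ hcen hXY
      · apply hgen X Y _ hX hY
        have m1 : L06_mk X ∈ Subgroup.closure {L06_mk X, L06_mk Y} :=
          Subgroup.subset_closure (by simp)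
        have m2 : L06_mk Y ∈ Subgroup.closure {L06_mk X, L06_mk Y} :=
          Subgroup.subset_closure (by simp)
        intro z hz
        simp only [List.mem_cons, List.not_mem_nil, or_false] at hz
        rcases hz with rfl | rfl | rfl
        · exact m1
        · exact m2
        · exact Subgroup.inv_mem _ (Subgroup.mul_mem _ m1 m2)
  · obtain ⟨t, ht, htt⟩ := L06_exists_t (F := F) b hb (fun p hp1 hp2 => (hp p hp1 hp2).2.1) hb'
    apply main t ht (fun x y => [x, (y * x)⁻¹, y])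
    · intro x y x' y' h
      simp only [List.cons.injEq] at h
      exact ⟨h.1, h.2.2.1⟩
    · intro X Y hX hY hXY hcen
      have hcen' : ¬ Cen (Y * X) := by
        intro h1
        apply hcen
        rw [← L06_mk_eq_one] at h1 ⊢
        have h2 : L06_mk Y * L06_mk X = 1 := h1
        show L06_mk X * L06_mk Y = 1
        exact mul_eq_one_comm.mp h2
      rw [mem_filter]
      refine ⟨hO0 _ _ _ (L06_mk_even X hX a h) ?_ (L06_mk_even Y hY c h') (by group), ?_⟩
      · rw [inv_pow, inv_eq_one]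
        exact htt _ hcen' (by rw [tr_mul_comm]; exact hXY)
      · apply hgen X Y _ hX hY
        have m1 : L06_mk X ∈ Subgroup.closure {L06_mk X, L06_mk Y} :=
          Subgroup.subset_closure (by simp)
        have m2 : L06_mk Y ∈ Subgroup.closure {L06_mk X, L06_mk Y} :=
          Subgroup.subset_closure (by simp)
        intro z hz
        simp only [List.mem_cons, List.not_mem_nil, or_false] at hz
        rcases hz with rfl | rfl | rfl
        · exact m1
        · exact Subgroup.inv_mem _ (Subgroup.mul_mem _ m2 m1)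
        · exact m2
  · obtain ⟨t, ht, htt⟩ := L06_exists_t (F := F) a ha (fun p hp1 hp2 => (hp p hp1 hp2).1) ha'
    apply main t ht (fun x y => [(x * y)⁻¹, x, y])
    · intro x y x' y' h
      simp only [List.cons.injEq] at h
      exact ⟨h.2.1, h.2.2.1⟩
    · intro X Y hX hY hXY hcen
      rw [mem_filter]
      refine ⟨hO0 _ _ _ ?_ (L06_mk_even X hX b h) (L06_mk_even Y hY c h') (by group), ?_⟩
      · rw [inv_pow, inv_eq_one]
        exact htt _ hcen hXY
      · apply hgen X Y _ hX hY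
        have m1 : L06_mk X ∈ Subgroup.closure {L06_mk X, L06_mk Y} :=
          Subgroup.subset_closure (by simp)
        have m2 : L06_mk Y ∈ Subgroup.closure {L06_mk X, L06_mk Y} :=
          Subgroup.subset_closure (by simp)
        intro z hz
        simp only [List.mem_cons, List.not_mem_nil, or_false] at hz
        rcases hz with rfl | rfl | rfl
        · exact Subgroup.inv_mem _ (Subgroup.mul_mem _ m1 m2)
        · exact m1
        · exact m2

end Pool.Agent.Helper669_gp.L06
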