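import Mathlib
import Pool.Agent.Helper669_gp.Low2
import Pool.Agent.Helper669_gp.Pts
import Pool.Agent.Helper669_gp.Abs
import Pool.Agent.Helper669_gp.Defs

namespace Pool.Agent.Helper669_gp.L07

open scoped MatrixGroups

open Finset

lemma L07_units {G : Type} [CommGroup G] [Fintype G] (l l' : ℕ) (hl : l.Prime) (hl' : l'.Prime)
    (h2 : l ≠ 2) (h2' : l' ≠ 2) (hd : l ∣ Fintype.card G) (hd' : l' ∣ Fintype.card G)
    (a b c : ℕ) (h1a : l ∣ a) (h1b : l ∣ b) (h3b : l' ∣ b) (h3c : l' ∣ c) :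
    ∃ x y z : G, x ^ a = 1 ∧ y ^ b = 1 ∧ z ^ c = 1 ∧ x * y * z = 1 ∧ x ^ 4 ≠ 1 ∧ y ^ 4 ≠ 1 ∧
      z ^ 4 ≠ 1 := by
  have nd : ∀ (r k : ℕ), r.Prime → r ≠ 2 → r ∣ 2 ^ k → False := by
    intro r k hr hr2 h
    exact hr2 ((Nat.prime_dvd_prime_iff_eq hr Nat.prime_two).1 (hr.dvd_of_dvd_pow h))
  have hfl : Fact l.Prime := ⟨hl⟩
  have hfl' : Fact l'.Prime := ⟨hl'⟩
  obtain ⟨u, hu⟩ := exists_prime_orderOf_dvd_card l hd
  have hu4 : u ^ 4 ≠ 1 := by
    intro h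
    have := orderOf_dvd_of_pow_eq_one h
    rw [hu] at this
    exact nd l 2 hl h2 this
  by_cases hll : l = l'
  · subst hll
    refine ⟨u, u, (u ^ 2)⁻¹, ?_, ?_, ?_, ?_, hu4, hu4, ?_⟩
    · exact orderOf_dvd_iff_pow_eq_one.1 (by rw [hu]; exact h1a)
    · exact orderOf_dvd_iff_pow_eq_one.1 (by rw [hu]; exact h1b)
    · have huc : u ^ c = 1 := orderOf_dvd_iff_pow_eq_one.1 (by rw [hu]; exact h3c)
      rw [inv_pow, inv_eq_one, ← pow_mul, mul_comm, pow_mul, huc, one_pow]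
    · group
    · rw [inv_pow, ne_eq, inv_eq_one, ← pow_mul]
      intro h
      have := orderOf_dvd_of_pow_eq_one h
      rw [hu] at this
      exact nd l 3 hl h2 this
  · obtain ⟨v, hv⟩ := exists_prime_orderOf_dvd_card l' hd'
    have hv4 : v ^ 4 ≠ 1 := by
      intro h
      have := orderOf_dvd_of_pow_eq_one h
      rw [hv] at this
      exact nd l' 2 hl' h2' this
    refine ⟨u, (u * v)⁻¹, v, ?_, ?_, ?_, ?_, hu4, ?_, hv4⟩
    · exact orderOf_dvd_iff_pow_eq_one.1 (by rw [hu]; exact h1a)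
    · rw [inv_pow, inv_eq_one, mul_pow, orderOf_dvd_iff_pow_eq_one.1 (by rw [hu]; exact h1b),
        orderOf_dvd_iff_pow_eq_one.1 (by rw [hv]; exact h3b), one_mul]
    · exact orderOf_dvd_iff_pow_eq_one.1 (by rw [hv]; exact h3c)
    · rw [mul_inv_rev, mul_comm v⁻¹ u⁻¹, ← mul_assoc, mul_inv_cancel, one_mul, inv_mul_cancel]
    · rw [inv_pow, ne_eq, inv_eq_one, mul_pow]
      intro h
      have h5 : v ^ (4 * l) = 1 := by
        have h6 : (u ^ 4 * v ^ 4) ^ l = 1 := by rw [h, one_pow]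
        have hul : u ^ l = 1 := orderOf_dvd_iff_pow_eq_one.1 (by rw [hu])
        rw [mul_pow, ← pow_mul, ← pow_mul, mul_comm 4 l, pow_mul u l 4, hul, one_pow,
          one_mul] at h6
        rw [mul_comm 4 l]
        exact h6
      have h7 := orderOf_dvd_of_pow_eq_one h5
      rw [hv] at h7
      rcases hl'.dvd_mul.1 h7 with h8 | h8
      · exact nd l' 2 hl' h2' h8
      · exact hll ((Nat.prime_dvd_prime_iff_eq hl' hl).1 h8).symm

section

variable {F : Type} [Field F]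

def L07_ut (m : Fˣ) (s : F) : SL(2, F) :=
  ⟨!![(m : F), s; 0, ((m⁻¹ : Fˣ) : F)], by rw [Matrix.det_fin_two_of]; simp⟩

@[simp] lemma L07_ut00 (m : Fˣ) (s : F) : L07_ut m s 0 0 = (m : F) := rfl

@[simp] lemma L07_ut01 (m : Fˣ) (s : F) : L07_ut m s 0 1 = s := rfl

@[simp] lemma L07_ut10 (m : Fˣ) (s : F) : L07_ut m s 1 0 = 0 := rfl

@[simp] lemma L07_ut11 (m : Fˣ) (s : F) : L07_ut m s 1 1 = ((m⁻¹ : Fˣ) : F) := rfl

def L07_lt (c : F) : SL(2, F) := ⟨!![1, 0; c, 1], by rw [Matrix.det_fin_two_of]; simp⟩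

@[simp] lemma L07_lt00 (c : F) : L07_lt c 0 0 = 1 := rfl

@[simp] lemma L07_lt01 (c : F) : L07_lt c 0 1 = 0 := rfl

@[simp] lemma L07_lt10 (c : F) : L07_lt c 1 0 = c := rfl

@[simp] lemma L07_lt11 (c : F) : L07_lt c 1 1 = 1 := rfl

lemma L07_ut_mul (m n : Fˣ) (s t : F) :
    L07_ut m s * L07_ut n t = L07_ut (m * n) (m * t + s * ((n⁻¹ : Fˣ) : F)) := by
  refine sl_ext ?_ ?_ ?_ ?_
  · simp
  · simp
  · simp
  · simp [mul_comm]

lemma L07_ut_zero_pow (m : Fˣ) (n : ℕ) : L07_ut m 0 ^ n = L07_ut (m ^ n) 0 := by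
  induction n with
  | zero =>
    refine sl_ext ?_ ?_ ?_ ?_ <;> simp
  | succ n ih =>
    rw [pow_succ, ih, L07_ut_mul, pow_succ]
    simp

lemma L07_ut_one : L07_ut (1 : Fˣ) 0 = (1 : SL(2, F)) := by
  refine sl_ext ?_ ?_ ?_ ?_ <;> simp

lemma L07_ut_pow (m : Fˣ) (s : F) (hm : m ^ 2 ≠ 1) (n : ℕ) (hn : m ^ n = 1) :
    L07_ut m s ^ n = 1 := by
  have hne : ((m⁻¹ : Fˣ) : F) - m ≠ 0 := by
    intro h
    apply hm
    have h1 : m⁻¹ = m := Units.ext (sub_eq_zero.1 h)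
    rw [pow_two]
    nth_rewrite 1 [← h1]
    rw [inv_mul_cancel]
  have e : L07_ut m s = L07_ut 1 (s / (((m⁻¹ : Fˣ) : F) - m)) * L07_ut m 0 *
      (L07_ut 1 (s / (((m⁻¹ : Fˣ) : F) - m)))⁻¹ := by
    rw [eq_mul_inv_iff_mul_eq, L07_ut_mul, L07_ut_mul]
    have e2 : (m : F) * (s / (((m⁻¹ : Fˣ) : F) - m)) + s * (((1 : Fˣ)⁻¹ : Fˣ) : F) =
        ((1 : Fˣ) : F) * 0 + s / (((m⁻¹ : Fˣ) : F) - m) * ((m⁻¹ : Fˣ) : F) := by
      rw [inv_one, Units.val_one, mul_one, mul_zero, zero_add]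
      generalize hd : ((m⁻¹ : Fˣ) : F) - m = d at hne
      have : ((m⁻¹ : Fˣ) : F) = d + m := by rw [← hd]; ring
      rw [this]
      field_simp
      ring
    rw [e2, mul_one, one_mul]
  rw [e, conj_pow, L07_ut_zero_pow, hn, L07_ut_one, mul_one, mul_inv_cancel]

def L07_X (m : Fˣ) (c s : F) : SL(2, F) := L07_lt c * L07_ut m s * (L07_lt c)⁻¹

lemma L07_X00 (m : Fˣ) (c s : F) : L07_X m c s 0 0 = m - s * c := by
  simp [L07_X, sub_eq_add_neg]

lemma L07_X01 (m : Fˣ) (c s : F) : L07_X m c s 0 1 = s := by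
  simp [L07_X]

lemma L07_X11 (m : Fˣ) (c s : F) : L07_X m c s 1 1 = c * s + ((m⁻¹ : Fˣ) : F) := by
  simp [L07_X]

lemma L07_trX (m : Fˣ) (c s : F) : tr (L07_X m c s) = m + ((m⁻¹ : Fˣ) : F) := by
  rw [tr, L07_X00, L07_X11]; ring

lemma L07_X_pow (m : Fˣ) (c s : F) (hm : m ^ 2 ≠ 1) (n : ℕ) (hn : m ^ n = 1) :
    L07_X m c s ^ n = 1 := by
  rw [L07_X, conj_pow, L07_ut_pow m s hm n hn, mul_one, mul_inv_cancel]

lemma L07_X_mul (m n : Fˣ) (c s t : F) :
    L07_X m c s * L07_X n c t = L07_X (m * n) c (m * t + s * ((n⁻¹ : Fˣ) : F)) := by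
  rw [L07_X, L07_X, L07_X, ← L07_ut_mul]
  group

def L07_B : Subgroup SL(2, F) where
  carrier := {A | A 1 0 = 0}
  mul_mem' := by
    intro A B hA hB
    simp only [Set.mem_ofPred_eq] at hA hB ⊢
    rw [mul10, hA, hB]; simp
  one_mem' := by simp
  inv_mem' := by
    intro A hA
    simp only [Set.mem_ofPred_eq] at hA ⊢
    rw [inv10, hA, neg_zero]

lemma L07_mem_B (A : SL(2, F)) : A ∈ L07_B ↔ A 1 0 = 0 := Iff.rfl

def L07_Bc (c : F) : Subgroup SL(2, F) := L07_B.comap (MulAut.conj (L07_lt c)⁻¹).toMonoidHom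

lemma L07_mem_Bc (c : F) (A : SL(2, F)) :
    A ∈ L07_Bc c ↔ ((L07_lt c)⁻¹ * A * L07_lt c) 1 0 = 0 := by
  rw [L07_Bc, Subgroup.mem_comap, L07_mem_B]
  simp only [MulEquiv.toMonoidHom_eq_coe, MonoidHom.coe_coe, MulAut.conj_apply, inv_inv]

lemma L07_X_mem (m : Fˣ) (c s : F) : L07_X m c s ∈ L07_Bc c := by
  rw [L07_mem_Bc, L07_X]
  have : (L07_lt c)⁻¹ * (L07_lt c * L07_ut m s * (L07_lt c)⁻¹) * L07_lt c = L07_ut m s := by group
  rw [this, L07_ut10]

def L07_pi : SL(2, F) →* PSL(2, F) := QuotientGroup.mk' (Subgroup.center SL(2, F))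

lemma L07_pi_eq (A B : SL(2, F)) (h : L07_pi A = L07_pi B) : B = A ∨ B = -A := by
  have h1 : A⁻¹ * B ∈ Subgroup.center SL(2, F) := QuotientGroup.eq.1 h
  rw [mem_center_iff'] at h1
  rcases h1 with h1 | h1
  · left
    rw [inv_mul_eq_one] at h1
    exact h1.symm
  · right
    have h2 : B = A * (A⁻¹ * B) := by group
    rw [h2, h1]
    simp

lemma L07_not_top (c : F) : (L07_Bc c).map (L07_pi (F := F)) ≠ ⊤ := by
  intro htop
  have h1 : L07_pi (L07_lt c * comp 0 * (L07_lt c)⁻¹) ∈ (L07_Bc c).map (L07_pi (F := F)) := by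
    rw [htop]; exact Subgroup.mem_top _
  obtain ⟨A, hA, hA2⟩ := h1
  have hA3 : A ∈ L07_Bc c := hA
  rw [L07_mem_Bc] at hA3
  rcases L07_pi_eq _ _ hA2 with h | h
  · have h4 : (L07_lt c)⁻¹ * A * L07_lt c = comp 0 := by
      rw [← h]; group
    rw [h4, comp10] at hA3
    exact one_ne_zero hA3
  · have h4 : (L07_lt c)⁻¹ * A * L07_lt c = - comp 0 := by
      have h5 : A = L07_lt c * (-comp 0) * (L07_lt c)⁻¹ := by
        rw [← neg_neg A, ← h]
        simp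
      rw [h5]; group
    rw [h4, neg10, comp10] at hA3
    exact one_ne_zero (neg_eq_zero.1 hA3)

lemma L07_trX_ne (h2 : (2 : F) ≠ 0) (m : Fˣ) (hm : m ^ 4 ≠ 1) (c s c' s' : F)
    (h : L07_pi (L07_X m c s) = L07_pi (L07_X m c' s')) : L07_X m c' s' = L07_X m c s := by
  rcases L07_pi_eq _ _ h with h | h
  · exact h
  · exfalso
    have h1 := congrArg tr h
    rw [tr_neg, L07_trX, L07_trX] at h1
    have h3 : (2 : F) * ((m : F) + ((m⁻¹ : Fˣ) : F)) = 0 := by linear_combination h1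
    have h4 := (mul_eq_zero.1 h3).resolve_left h2
    have h5 : (m : F) * ((m⁻¹ : Fˣ) : F) = 1 := by simp
    have h6 : (m : F) ^ 2 = -1 := by linear_combination (m : F) * h4 - h5
    apply hm
    apply Units.ext
    rw [Units.val_pow_eq_pow_val, Units.val_one]
    have : (m : F) ^ 4 = ((m : F) ^ 2) ^ 2 := by ring
    rw [this, h6]
    ring

end

open scoped Classical in
lemma L07_main {F : Type} [Field F] [Fintype F] [DecidableEq F] [Fintype PSL(2, F)]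
    [DecidableEq PSL(2, F)] (h2 : (2 : F) ≠ 0) (a b c : ℕ) (x y z : Fˣ) (hx : x ^ a = 1)
    (hy : y ^ b = 1) (hz : z ^ c = 1) (hxyz : x * y * z = 1) (hx4 : x ^ 4 ≠ 1) (hy4 : y ^ 4 ≠ 1)
    (hz4 : z ^ 4 ≠ 1) :
    Fintype.card F * ((Fintype.card F - 1) * Fintype.card F) ≤
      ((O0set PSL(2, F) [a, b, c]).filter fun t => ¬ O0gen t).card := by
  have sq : ∀ m : Fˣ, m ^ 4 ≠ 1 → m ^ 2 ≠ 1 := by
    intro m hm h
    apply hm
    rw [show 4 = 2 * 2 from rfl, pow_mul, h, one_pow]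
  have hcard : Fintype.card F * ((Fintype.card F - 1) * Fintype.card F) =
      ((univ : Finset F) ×ˢ (((univ : Finset F).erase 0) ×ˢ (univ : Finset F))).card := by
    rw [card_product, card_product, card_erase_of_mem (mem_univ _), card_univ]
  rw [hcard]
  apply Finset.card_le_card_of_injOn (fun p : F × F × F =>
    [L07_pi (L07_X x p.1 p.2.1), L07_pi (L07_X y p.1 p.2.2),
      (L07_pi (L07_X x p.1 p.2.1) * L07_pi (L07_X y p.1 p.2.2))⁻¹])
  · rintro ⟨d, s, t⟩ _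
    simp only [coe_filter, Set.mem_ofPred_eq]
    have hX : L07_X x d s ^ a = 1 := L07_X_pow x d s (sq x hx4) a hx
    have hY : L07_X y d t ^ b = 1 := L07_X_pow y d t (sq y hy4) b hy
    have hxy : x * y = z⁻¹ := eq_inv_of_mul_eq_one_left hxyz
    have hZ : (L07_X x d s * L07_X y d t) ^ c = 1 := by
      rw [L07_X_mul]
      apply L07_X_pow
      · rw [hxy, inv_pow, ne_eq, inv_eq_one]
        exact sq z hz4
      · rw [hxy, inv_pow, hz, inv_one]
    constructor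
    · rw [O0set, mem_filter]
      constructor
      · simp only [XS, mem_image₂, tor, mem_filter, mem_univ, true_and, mem_singleton]
        refine ⟨_, ?_, _, ⟨_, ?_, _, ⟨_, ?_, [], rfl, rfl⟩, rfl⟩, rfl⟩
        · rw [← map_pow, hX, map_one]
        · rw [← map_pow, hY, map_one]
        · rw [← map_mul, ← map_inv, ← map_pow, inv_pow, hZ, inv_one, map_one]
      · simp only [List.prod_cons, List.prod_nil, mul_one]
        group
    · intro hgen
      apply L07_not_top d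
      rw [eq_top_iff, ← hgen, Subgroup.closure_le]
      have m1 : L07_pi (L07_X x d s) ∈ (L07_Bc d).map (L07_pi (F := F)) :=
        ⟨_, L07_X_mem x d s, rfl⟩
      have m2 : L07_pi (L07_X y d t) ∈ (L07_Bc d).map (L07_pi (F := F)) :=
        ⟨_, L07_X_mem y d t, rfl⟩
      intro w hw
      simp only [List.mem_cons, List.not_mem_nil, or_false, Set.mem_ofPred_eq] at hw
      rcases hw with rfl | rfl | rfl
      · exact m1
      · exact m2
      · exact Subgroup.inv_mem _ (Subgroup.mul_mem _ m1 m2)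
  · rintro ⟨d, s, t⟩ hp ⟨d', s', t'⟩ hp' heq
    simp only [coe_product, coe_univ, coe_erase, Set.mem_prod, Set.mem_univ, true_and,
      Set.mem_sdiff, Set.mem_singleton_iff, and_true] at hp hp'
    simp only [List.cons.injEq, and_true] at heq
    obtain ⟨e1, e2, -⟩ := heq
    have f1 := L07_trX_ne h2 x hx4 _ _ _ _ e1
    have f2 := L07_trX_ne h2 y hy4 _ _ _ _ e2
    have g1 : s' = s := by
      have := congrArg (fun A : SL(2, F) => A 0 1) f1
      simpa only [L07_X01] using this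
    have g2 : t' = t := by
      have := congrArg (fun A : SL(2, F) => A 0 1) f2
      simpa only [L07_X01] using this
    have g3 : d' = d := by
      have := congrArg (fun A : SL(2, F) => A 0 0) f1
      simp only [L07_X00] at this
      rw [g1] at this
      have h5 : s * (d' - d) = 0 := by linear_combination -this
      exact sub_eq_zero.1 ((mul_eq_zero.1 h5).resolve_left hp)
    rw [g1, g2, g3]

open scoped Classical in

theorem tri_neg_T3 (a b c : ℕ) (ha : 0 < a) (hb : 0 < b) (hc : 0 < c) : ∃ C : ℝ, 0 < C ∧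
    ∀ (F : Type) [Field F] [Fintype F] [DecidableEq F] [Fintype PSL(2, F)] [DecidableEq PSL(2, F)],
      7 ≤ Fintype.card F →
      (∀ p : ℕ, p.Prime → p ∣ Fintype.card F → a < p ∧ b < p ∧ c < p ∧ 5 < p) →
      ¬ Nat.Coprime a (Fintype.card PSL(2, F)) →
      ¬ Nat.Coprime b (Fintype.card PSL(2, F)) → ¬ Nat.Coprime c (Fintype.card PSL(2, F)) →
      (Odd a ∨ Odd b) ∧ (Odd a ∨ Odd c) ∧ (Odd b ∨ Odd c) →
      ¬ ((Nat.Coprime (Nat.gcd a b) (Fintype.card F - 1) ∧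
          Nat.Coprime (Nat.gcd a c) (Fintype.card F - 1)) ∨
        (Nat.Coprime (Nat.gcd a b) (Fintype.card F - 1) ∧
          Nat.Coprime (Nat.gcd b c) (Fintype.card F - 1)) ∨
        (Nat.Coprime (Nat.gcd a c) (Fintype.card F - 1) ∧
          Nat.Coprime (Nat.gcd b c) (Fintype.card F - 1))) →
      (Fintype.card F : ℝ) ^ 3 ≤ C * (((O0set PSL(2, F) [a, b, c]).filter fun t => ¬ O0gen t).card : ℝ) := by
  refine ⟨2, by norm_num, ?_⟩
  intro F _ _ _ _ _ h7 hp _ _ _ hodd hnot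
  have h2 : (2 : F) ≠ 0 := by
    obtain ⟨p, hchar⟩ := CharP.exists F
    obtain ⟨n, hpp, hn⟩ := FiniteField.card F p
    have hdvd : p ∣ Fintype.card F := by
      rw [hn]; exact dvd_pow_self p n.pos.ne'
    have h5 := (hp p hpp hdvd).2.2.2
    intro h0
    have h6 : ((2 : ℕ) : F) = 0 := by exact_mod_cast h0
    rw [CharP.cast_eq_zero_iff F p] at h6
    have := Nat.le_of_dvd (by norm_num) h6
    omega
  have hcu : Fintype.card Fˣ = Fintype.card F - 1 := Fintype.card_units F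
  have pr : ∀ m n : ℕ, (Odd m ∨ Odd n) → ¬ Nat.Coprime (Nat.gcd m n) (Fintype.card F - 1) →
      ∃ l : ℕ, l.Prime ∧ l ≠ 2 ∧ l ∣ Fintype.card Fˣ ∧ l ∣ m ∧ l ∣ n := by
    intro m n hmn hco
    obtain ⟨l, hl, hl1, hl2⟩ := Nat.Prime.not_coprime_iff_dvd.1 hco
    have hm := hl1.trans (Nat.gcd_dvd_left m n)
    have hn := hl1.trans (Nat.gcd_dvd_right m n)
    refine ⟨l, hl, ?_, by rw [hcu]; exact hl2, hm, hn⟩
    rintro rfl
    rcases hmn with h | h
    · exact (Nat.not_even_iff_odd.2 h) (even_iff_two_dvd.2 hm)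
    · exact (Nat.not_even_iff_odd.2 h) (even_iff_two_dvd.2 hn)
  have key : ∃ x y z : Fˣ, x ^ a = 1 ∧ y ^ b = 1 ∧ z ^ c = 1 ∧ x * y * z = 1 ∧ x ^ 4 ≠ 1 ∧
      y ^ 4 ≠ 1 ∧ z ^ 4 ≠ 1 := by
    by_cases h1 : Nat.Coprime (Nat.gcd a b) (Fintype.card F - 1)
    · have h3 : ¬ Nat.Coprime (Nat.gcd a c) (Fintype.card F - 1) := fun h => hnot (Or.inl ⟨h1, h⟩)
      have h4 : ¬ Nat.Coprime (Nat.gcd b c) (Fintype.card F - 1) :=
        fun h => hnot (Or.inr (Or.inl ⟨h1, h⟩))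
      obtain ⟨l, hl, hl2, hlc, hla, hlb⟩ := pr a c hodd.2.1 h3
      obtain ⟨l', hl', hl2', hlc', hla', hlb'⟩ := pr b c hodd.2.2 h4
      obtain ⟨x, y, z, k1, k2, k3, k4, k5, k6, k7⟩ :=
        L07_units (G := Fˣ) l l' hl hl' hl2 hl2' hlc hlc' a c b hla hlb hlb' hla'
      exact ⟨x, z, y, k1, k3, k2, by rw [mul_assoc, mul_comm z y, ← mul_assoc]; exact k4, k5, k7,
        k6⟩
    · obtain ⟨l, hl, hl2, hlc, hla, hlb⟩ := pr a b hodd.1 h1
      by_cases h3 : Nat.Coprime (Nat.gcd a c) (Fintype.card F - 1)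
      · have h4 : ¬ Nat.Coprime (Nat.gcd b c) (Fintype.card F - 1) :=
          fun h => hnot (Or.inr (Or.inr ⟨h3, h⟩))
        obtain ⟨l', hl', hl2', hlc', hla', hlb'⟩ := pr b c hodd.2.2 h4
        exact L07_units (G := Fˣ) l l' hl hl' hl2 hl2' hlc hlc' a b c hla hlb hla' hlb'
      · obtain ⟨l', hl', hl2', hlc', hla', hlb'⟩ := pr a c hodd.2.1 h3
        obtain ⟨x, y, z, k1, k2, k3, k4, k5, k6, k7⟩ :=
          L07_units (G := Fˣ) l l' hl hl' hl2 hl2' hlc hlc' b a c hlb hla hla' hlb'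
        exact ⟨y, x, z, k2, k1, k3, by rw [mul_comm y x]; exact k4, k6, k5, k7⟩
  obtain ⟨x, y, z, k1, k2, k3, k4, k5, k6, k7⟩ := key
  have hmain := L07_main h2 a b c x y z k1 k2 k3 k4 k5 k6 k7
  have hmain' : ((Fintype.card F * ((Fintype.card F - 1) * Fintype.card F) : ℕ) : ℝ) ≤
      (((O0set PSL(2, F) [a, b, c]).filter fun t => ¬ O0gen t).card : ℝ) := by
    exact_mod_cast hmain
  have hq : (7 : ℝ) ≤ (Fintype.card F : ℝ) := by exact_mod_cast h7
  rw [Nat.cast_mul, Nat.cast_mul, Nat.cast_sub (by omega), Nat.cast_one] at hmain'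
  have h8 : (Fintype.card F : ℝ) ^ 3 ≤
      2 * ((Fintype.card F : ℝ) * (((Fintype.card F : ℝ) - 1) * (Fintype.card F : ℝ))) := by
    have h9 : 0 ≤ (Fintype.card F : ℝ) ^ 2 := by positivity
    nlinarith
  linarith

end Pool.Agent.Helper669_gp.L07
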