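import Mathlib
import Pool.Agent.Helper669_gp.Low2
import Pool.Agent.Helper669_gp.Pts
import Pool.Agent.Helper669_gp.Abs
import Pool.Agent.Helper669_gp.Defs
import Pool.Agent.Helper669_gp.L03
import Pool.Agent.Helper669_gp.L04
import Pool.Agent.Helper669_gp.L05

namespace Pool.Agent.Helper669_gp.L08

open Pool.Agent.Helper669_gp.L03 Pool.Agent.Helper669_gp.L04 Pool.Agent.Helper669_gp.L05

open scoped MatrixGroups

open Finset

lemma L08_subring (F : Type) [Field F] [Fintype F] (v j : ℕ) (hj : 1 < j)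
    (hq : Fintype.card F = v ^ j) :
    ∃ R : Subring F, (∀ t : F, t ∈ R ↔ t ^ v = t) ∧ ∃ t : F, t ∉ R := by
  classical
  obtain ⟨p, hp, n, hpp, hn⟩ := FiniteField.card' F
  have hv : v ∣ p ^ (n : ℕ) := by
    rw [← hn, hq]
    exact dvd_pow_self v (by omega)
  obtain ⟨m, -, hm⟩ := (Nat.dvd_prime_pow hpp).1 hv
  have : Fact p.Prime := ⟨hpp⟩
  have : ExpChar F p := ExpChar.prime hpp
  have hR : ∀ t : F, t ∈ (iterateFrobenius F p m).eqLocus (RingHom.id F) ↔ t ^ v = t := by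
    intro t
    rw [hm]
    exact Iff.rfl
  refine ⟨(iterateFrobenius F p m).eqLocus (RingHom.id F), hR, ?_⟩
  by_contra hcon
  push Not at hcon
  have hall : ∀ t : F, t ^ v = t := fun t => (hR t).1 (hcon t)
  have hqgt : 1 < Fintype.card F := Fintype.one_lt_card
  have hv2 : 2 ≤ v := by
    by_contra h
    have : v = 0 ∨ v = 1 := by omega
    rcases this with h | h
    · rw [h, zero_pow (by omega)] at hq; omega
    · rw [h, one_pow] at hq; omega

  obtain ⟨g, hg⟩ := IsCyclic.exists_generator (α := Fˣ)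
  have h1 : orderOf g = Fintype.card Fˣ := orderOf_eq_card_of_forall_mem_zpowers hg |>.trans
    Nat.card_eq_fintype_card
  have h2 : g ^ (v - 1) = 1 := by
    have h3 : g ^ v = g := by
      ext
      push_cast
      exact hall g
    have h4 : g ^ (v - 1) * g = 1 * g := by
      rw [← pow_succ, Nat.sub_add_cancel (by omega), h3, one_mul]
    exact mul_right_cancel h4
  have h3 := orderOf_dvd_of_pow_eq_one h2
  rw [h1, Fintype.card_units] at h3
  have h4 := Nat.le_of_dvd (by omega) h3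
  have h5 : v ^ 2 ≤ v ^ j := Nat.pow_le_pow_right (by omega) (by omega)
  have h6 : v < v ^ 2 := by nlinarith
  omega

lemma L08_prime (a v q j : ℕ) (ha : 0 < a) (hj : 0 < j) (hq : q = v ^ j)
    (hp : ∀ p : ℕ, p.Prime → p ∣ q → a < p)
    (h : ¬ Nat.Coprime a (v * (v ^ 2 - 1))) : ∃ r : ℕ, r.Prime ∧ r ∣ a ∧ r ∣ v ^ 2 - 1 := by
  obtain ⟨r, hr, h1, h2⟩ := Nat.Prime.not_coprime_iff_dvd.1 h
  refine ⟨r, hr, h1, ?_⟩
  rcases (Nat.Prime.dvd_mul hr).1 h2 with h3 | h3
  · exfalso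
    have h4 : r ∣ q := by
      rw [hq]
      exact h3.trans (dvd_pow_self v (by omega))
    have h5 := hp r hr h4
    have h6 := Nat.le_of_dvd ha h1
    omega
  · exact h3

lemma L08_pow (F : Type) [Field F] (X : SL(2, F)) (r a : ℕ) (h : Cen (X ^ r)) (hr : r ∣ a) :
    ((QuotientGroup.mk X : PSL(2, F)) : PSL(2, F)) ^ a = 1 := by
  obtain ⟨k, rfl⟩ := hr
  rw [pow_mul]
  have : (QuotientGroup.mk X : PSL(2, F)) ^ r = 1 := by
    rw [← QuotientGroup.mk_pow]
    rw [QuotientGroup.eq_one_iff]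
    exact (mem_center_iff' _).2 h
  rw [this, one_pow]

lemma L08_mk_eq (F : Type) [Field F] (X Y : SL(2, F))
    (h : (QuotientGroup.mk X : PSL(2, F)) = QuotientGroup.mk Y) : X = Y ∨ X = -Y := by
  rw [QuotientGroup.eq] at h
  rcases (mem_center_iff' _).1 h with h | h
  · left
    exact inv_mul_eq_one.1 h
  · right
    have h1 : Y = X * (-1) := by rw [← h]; group
    rw [h1]; simp

lemma L08_nongen (F : Type) [Field F] (R : Subring F) (t : F) (ht : t ∉ R) (X Y : SL(2, F))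
    (hX : tr X ∈ R) (hY : tr Y ∈ R) (hXY : tr (X * Y) ∈ R) :
    ¬ O0gen ([(QuotientGroup.mk X : PSL(2, F)), QuotientGroup.mk Y,
      (QuotientGroup.mk (X * Y) : PSL(2, F))⁻¹] : List PSL(2, F)) := by
  intro h
  unfold O0gen at h
  have htr := trace_closed F R X Y hX hY hXY
  have hXm : X ∈ Subgroup.closure {X, Y, -1} := Subgroup.subset_closure (by simp)
  have hYm : Y ∈ Subgroup.closure {X, Y, -1} := Subgroup.subset_closure (by simp)
  have h1m : (-1 : SL(2, F)) ∈ Subgroup.closure {X, Y, -1} := Subgroup.subset_closure (by simp)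
  have hle : Subgroup.closure {x : PSL(2, F) | x ∈ ([(QuotientGroup.mk X : PSL(2, F)),
      QuotientGroup.mk Y, (QuotientGroup.mk (X * Y) : PSL(2, F))⁻¹] : List PSL(2, F))} ≤
      (Subgroup.closure {X, Y, -1}).map (QuotientGroup.mk' (Subgroup.center SL(2, F))) := by
    rw [Subgroup.closure_le]
    intro z hz
    have hz' : z ∈ ([(QuotientGroup.mk X : PSL(2, F)),
      QuotientGroup.mk Y, (QuotientGroup.mk (X * Y) : PSL(2, F))⁻¹] : List PSL(2, F)) := hz
    simp only [List.mem_cons, List.not_mem_nil, or_false] at hz'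
    rcases hz' with rfl | rfl | rfl
    · exact ⟨X, hXm, rfl⟩
    · exact ⟨Y, hYm, rfl⟩
    · exact ⟨(X * Y)⁻¹, Subgroup.inv_mem _ (Subgroup.mul_mem _ hXm hYm), rfl⟩
  rw [h] at hle
  obtain ⟨g, hg, hg'⟩ := hle (Subgroup.mem_top (QuotientGroup.mk (comp t) : PSL(2, F)))
  have hg2 : (QuotientGroup.mk (comp t) : PSL(2, F)) = QuotientGroup.mk g := hg'.symm
  have hmem : comp t ∈ Subgroup.closure {X, Y, -1} := by
    rcases L08_mk_eq F _ _ hg2 with h1 | h1
    · rw [h1]; exact hg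
    · rw [h1]
      have : -g = (-1) * g := by simp
      rw [this]
      exact Subgroup.mul_mem _ h1m hg
  have := htr _ hmem
  rw [tr_comp] at this
  exact ht this

lemma L08_mem (G : Type) [Group G] [Fintype G] [DecidableEq G] (a b c : ℕ) (x y z : G)
    (hx : x ^ a = 1) (hy : y ^ b = 1) (hz : z ^ c = 1) (h : x * y * z = 1) :
    [x, y, z] ∈ O0set G [a, b, c] := by
  unfold O0set
  rw [mem_filter]
  refine ⟨?_, by simpa [mul_assoc] using h⟩
  simp only [XS]
  refine mem_image₂_of_mem ?_ (mem_image₂_of_mem ?_ (mem_image₂_of_mem ?_ (mem_singleton_self _)))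
  · simpa [tor] using hx
  · simpa [tor] using hy
  · simpa [tor] using hz

open scoped Classical in

theorem tri_neg_T4 (a b c : ℕ) (ha : 0 < a) (hb : 0 < b) (hc : 0 < c) : ∃ C : ℝ, 0 < C ∧
    ∀ (F : Type) [Field F] [Fintype F] [DecidableEq F] [Fintype PSL(2, F)] [DecidableEq PSL(2, F)],
      7 ≤ Fintype.card F →
      (∀ p : ℕ, p.Prime → p ∣ Fintype.card F → a < p ∧ b < p ∧ c < p ∧ 5 < p) →
      ¬ Nat.Coprime a (Fintype.card PSL(2, F)) →
      ¬ Nat.Coprime b (Fintype.card PSL(2, F)) → ¬ Nat.Coprime c (Fintype.card PSL(2, F)) →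
      ¬ (∀ v j : ℕ, 1 < j → Fintype.card F = v ^ j →
        Nat.Coprime a (v * (v ^ 2 - 1)) ∨ Nat.Coprime b (v * (v ^ 2 - 1)) ∨
          Nat.Coprime c (v * (v ^ 2 - 1))) →
      (Fintype.card F : ℝ) ^ 3 ≤ C * (((O0set PSL(2, F) [a, b, c]).filter fun t => ¬ O0gen t).card : ℝ) := by
  refine ⟨8, by norm_num, ?_⟩
  intro F _ _ _ _ _ hq7 hp _ _ _ hneg
  push Not at hneg
  obtain ⟨v, j, hj, hq, hna, hnb, hnc⟩ := hneg
  obtain ⟨r₁, hr₁, h1a, h1v⟩ := L08_prime a v _ j ha (by omega) hq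
    (fun p hpp hpd => (hp p hpp hpd).1) hna
  obtain ⟨r₂, hr₂, h2a, h2v⟩ := L08_prime b v _ j hb (by omega) hq
    (fun p hpp hpd => (hp p hpp hpd).2.1) hnb
  obtain ⟨r₃, hr₃, h3a, h3v⟩ := L08_prime c v _ j hc (by omega) hq
    (fun p hpp hpd => (hp p hpp hpd).2.2.1) hnc
  have h2 : (2 : F) ≠ 0 := by
    intro h20
    obtain ⟨p, hpc, n, hpp, hn⟩ := FiniteField.card' F
    have h5 := (hp p hpp (by rw [hn]; exact dvd_pow_self p n.ne_zero)).2.2.2
    have h6 : ((2 : ℕ) : F) = 0 := by exact_mod_cast h20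
    rw [CharP.cast_eq_zero_iff F p] at h6
    have := Nat.le_of_dvd (by norm_num) h6
    omega
  obtain ⟨t₁, t₂, t₃, ht₁, ht₂, ht₃, hS, hc₁, hc₂, hc₃⟩ := sign_choice F h2 v j r₁ r₂ r₃
    (by omega) hq hr₁ hr₂ hr₃ h1v h2v h3v
  obtain ⟨R, hR, t, ht⟩ := L08_subring F v j hj hq
  have hcount := tri_count F t₁ t₂ t₃ hS
  set S := univ.filter fun t : SL(2, F) × SL(2, F) =>
        tr t.1 = t₁ ∧ tr t.2 = t₂ ∧ tr (t.1 * t.2) = t₃ ∧ ¬ Cen t.1 ∧ ¬ Cen t.2 ∧
          ¬ Cen (t.1 * t.2) with hSdef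
  let f : SL(2, F) × SL(2, F) → List PSL(2, F) := fun t =>
    [(QuotientGroup.mk t.1 : PSL(2, F)), QuotientGroup.mk t.2,
      (QuotientGroup.mk (t.1 * t.2) : PSL(2, F))⁻¹]
  have hfib : ∀ l ∈ S.image f, (S.filter fun x => f x = l).card ≤ 4 := by
    intro l hl
    obtain ⟨⟨X₀, Y₀⟩, -, rfl⟩ := mem_image.1 hl
    have hsub : (S.filter fun x => f x = f (X₀, Y₀)) ⊆
        ({X₀, -X₀} : Finset SL(2, F)) ×ˢ ({Y₀, -Y₀} : Finset SL(2, F)) := by
      intro x hx
      have hx2 := (mem_filter.1 hx).2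
      simp only [f, List.cons.injEq, and_true] at hx2
      rw [mem_product]
      have e1 := L08_mk_eq F _ _ hx2.1
      have e2 := L08_mk_eq F _ _ hx2.2.1
      simp only [mem_insert, mem_singleton]
      exact ⟨e1, e2⟩
    refine (card_le_card hsub).trans ?_
    rw [card_product]
    have e1 := card_le_two (a := X₀) (b := -X₀)
    have e2 := card_le_two (a := Y₀) (b := -Y₀)
    nlinarith
  have hle := card_le_mul_card_image S 4 hfib
  have himg : S.image f ⊆ (O0set PSL(2, F) [a, b, c]).filter fun t => ¬ O0gen t := by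
    intro l hl
    obtain ⟨⟨X, Y⟩, hXY, rfl⟩ := mem_image.1 hl
    rw [hSdef, mem_filter] at hXY
    obtain ⟨-, hX, hY, hXYt, hXc, hYc, hXYc⟩ := hXY
    simp only at hX hY hXYt hXc hYc hXYc
    rw [mem_filter]
    refine ⟨?_, ?_⟩
    · apply L08_mem
      · exact L08_pow F X r₁ a (hc₁ X hX hXc) h1a
      · exact L08_pow F Y r₂ b (hc₂ Y hY hYc) h2a
      · rw [inv_pow, L08_pow F (X * Y) r₃ c (hc₃ _ hXYt hXYc) h3a, inv_one]
      · simp only [QuotientGroup.mk_mul]
        group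
    · apply L08_nongen F R t ht X Y
      · rw [hX, hR]; exact ht₁
      · rw [hY, hR]; exact ht₂
      · rw [hXYt, hR]; exact ht₃
  have hle2 := card_le_card himg
  have hmain : Fintype.card F * (Fintype.card F - 1) * (Fintype.card F - 2) ≤
      4 * ((O0set PSL(2, F) [a, b, c]).filter fun t => ¬ O0gen t).card := by
    calc _ ≤ S.card := hcount
      _ ≤ 4 * (S.image f).card := hle
      _ ≤ _ := Nat.mul_le_mul_left 4 hle2
  have hmain' : (Fintype.card F : ℝ) * ((Fintype.card F : ℝ) - 1) * ((Fintype.card F : ℝ) - 2) ≤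
      4 * (((O0set PSL(2, F) [a, b, c]).filter fun t => ¬ O0gen t).card : ℝ) := by
    have h1 : ((Fintype.card F - 1 : ℕ) : ℝ) = (Fintype.card F : ℝ) - 1 := by
      rw [Nat.cast_sub (by omega)]; simp
    have h2 : ((Fintype.card F - 2 : ℕ) : ℝ) = (Fintype.card F : ℝ) - 2 := by
      rw [Nat.cast_sub (by omega)]; simp
    rw [← h1, ← h2]
    exact_mod_cast hmain
  have hq7' : (7 : ℝ) ≤ Fintype.card F := by exact_mod_cast hq7
  generalize (((O0set PSL(2, F) [a, b, c]).filter fun t => ¬ O0gen t).card : ℝ) = N at hmain'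
  generalize (Fintype.card F : ℝ) = q at hmain' hq7'
  nlinarith [mul_nonneg (by linarith : (0 : ℝ) ≤ q) (sub_nonneg.2 hq7'), sq_nonneg (q - 7),
    mul_nonneg (mul_nonneg (by linarith : (0 : ℝ) ≤ q) (by linarith : (0 : ℝ) ≤ q))
      (sub_nonneg.2 hq7')]

end Pool.Agent.Helper669_gp.L08
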