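import Mathlib
import Pool.Agent.Helper669_gp.Low2
import Pool.Agent.Helper669_gp.Pts
import Pool.Agent.Helper669_gp.Abs
import Pool.Agent.Helper669_gp.Defs
import Pool.Agent.Helper669_gp.J13

namespace Pool.Agent.Helper669_gp.L09

open Pool.Agent.Helper669_gp.J13

open scoped MatrixGroups

open Finset

lemma L09_par1 {F : Type} [Field F] {x y z v1 v2 v3 : F} (hu : ¬ (x = 0 ∧ y = 0 ∧ z = 0))
    (h1 : v1 * y = v2 * x) (h2 : v1 * z = v3 * x) (h3 : v2 * z = v3 * y) :
    ∃ s : F, v1 = s * x ∧ v2 = s * y ∧ v3 = s * z := by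
  by_cases hx : x = 0
  · by_cases hy : y = 0
    · have hz : z ≠ 0 := fun hz => hu ⟨hx, hy, hz⟩
      refine ⟨v3 / z, ?_, ?_, ?_⟩
      · apply mul_right_cancel₀ hz
        rw [h2]; field_simp
      · apply mul_right_cancel₀ hz
        rw [h3]; field_simp
      · field_simp
    · refine ⟨v2 / y, ?_, ?_, ?_⟩
      · apply mul_right_cancel₀ hy
        rw [h1]; field_simp
      · field_simp
      · apply mul_right_cancel₀ hy
        rw [← h3]; field_simp
  · refine ⟨v1 / x, ?_, ?_, ?_⟩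
    · field_simp
    · apply mul_right_cancel₀ hx
      rw [← h1]; field_simp
    · apply mul_right_cancel₀ hx
      rw [← h2]; field_simp

lemma L09_comm {F : Type} [Field F] (A B h : SL(2, F)) (hh : ¬ Cen h) (hA : h * A = A * h)
    (hB : h * B = B * h) : A * B = B * A := by
  have key : ∀ X : SL(2, F), h * X = X * h → ∃ s : F, X 0 1 = s * h 0 1 ∧ X 1 0 = s * h 1 0 ∧
      X 0 0 - X 1 1 = s * (h 0 0 - h 1 1) := by
    intro X hX
    have a00 := congrArg (fun A : SL(2, F) => A 0 0) hX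
    have a01 := congrArg (fun A : SL(2, F) => A 0 1) hX
    have a10 := congrArg (fun A : SL(2, F) => A 1 0) hX
    simp only [mul00, mul10, mul01, mul11] at a00 a01 a10
    apply L09_par1
    · rintro ⟨e1, e2, e3⟩
      apply hh
      rw [cen_iff]
      exact ⟨e1, e2, by linear_combination e3⟩
    · linear_combination -a00
    · linear_combination a01
    · linear_combination -a10
  obtain ⟨s, s1, s2, s3⟩ := key A hA
  obtain ⟨t, t1, t2, t3⟩ := key B hB
  have c1 : A 0 1 * B 1 0 = A 1 0 * B 0 1 := by rw [s1, s2, t1, t2]; ring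
  have c2 : (A 0 0 - A 1 1) * B 0 1 = A 0 1 * (B 0 0 - B 1 1) := by rw [s1, s3, t1, t3]; ring
  have c3 : (A 0 0 - A 1 1) * B 1 0 = A 1 0 * (B 0 0 - B 1 1) := by rw [s2, s3, t2, t3]; ring
  refine sl_ext ?_ ?_ ?_ ?_
  · simp only [mul00]; linear_combination c1
  · simp only [mul01]; linear_combination c2
  · simp only [mul10]; linear_combination -c3
  · simp only [mul11]; linear_combination -c1

lemma L09_cen {F : Type} [Field F] (A B h : SL(2, F)) (hS : S3 (tr A) (tr B) (tr (A * B)) ≠ 0)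
    (hA : h * A = A * h) (hB : h * B = B * h) : Cen h := by
  by_contra hh
  have hc := L09_comm A B h hh hA hB
  apply hS
  rw [← fricke]
  have h1 : A * B * A⁻¹ * B⁻¹ = 1 := by rw [hc]; group
  rw [h1, tr_one]; ring

lemma L09_fib2 {F : Type} [Field F] [Fintype F] [DecidableEq F] (A B A' B' : SL(2, F))
    (hS : S3 (tr A) (tr B) (tr (A * B)) ≠ 0) :
    (univ.filter fun g : SL(2, F) => g * A * g⁻¹ = A' ∧ g * B * g⁻¹ = B').card ≤ 2 := by
  by_cases hne : (univ.filter fun g : SL(2, F) => g * A * g⁻¹ = A' ∧ g * B * g⁻¹ = B').Nonempty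
  · obtain ⟨g₀, hg₀⟩ := hne
    simp only [mem_filter, mem_univ, true_and] at hg₀
    refine le_trans (card_le_card (t := {g₀, -g₀}) ?_) card_le_two
    intro g hg
    simp only [mem_filter, mem_univ, true_and] at hg
    have key : ∀ X : SL(2, F), g * X * g⁻¹ = g₀ * X * g₀⁻¹ → (g₀⁻¹ * g) * X = X * (g₀⁻¹ * g) := by
      intro X hX
      calc (g₀⁻¹ * g) * X = g₀⁻¹ * (g * X * g⁻¹) * g := by group
        _ = g₀⁻¹ * (g₀ * X * g₀⁻¹) * g := by rw [hX]
        _ = X * (g₀⁻¹ * g) := by group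
    have hc : Cen (g₀⁻¹ * g) := L09_cen A B _ hS (key A (hg.1.trans hg₀.1.symm))
      (key B (hg.2.trans hg₀.2.symm))
    simp only [mem_insert, mem_singleton]
    rcases hc with hc | hc
    · left; exact (inv_mul_eq_one.mp hc).symm
    · right
      rw [inv_mul_eq_iff_eq_mul] at hc
      rw [hc]; simp
  · rw [Finset.not_nonempty_iff_eq_empty.mp hne]; simp

lemma L09_mk {F : Type} [Field F] (X Y : SL(2, F))
    (h : (QuotientGroup.mk X : PSL(2, F)) = QuotientGroup.mk Y) : X = Y ∨ X = -Y := by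
  rw [QuotientGroup.eq, mem_center_iff'] at h
  rcases h with h | h
  · left; exact inv_mul_eq_one.mp h
  · right
    rw [inv_mul_eq_iff_eq_mul] at h
    rw [h]; simp

lemma L09_fib8 {F : Type} [Field F] [Fintype F] [DecidableEq F] [DecidableEq PSL(2, F)]
    (A B : SL(2, F)) (x y : PSL(2, F)) (hS : S3 (tr A) (tr B) (tr (A * B)) ≠ 0) :
    (univ.filter fun g : SL(2, F) => (QuotientGroup.mk (g * A * g⁻¹) : PSL(2, F)) = x ∧
      (QuotientGroup.mk (g * B * g⁻¹) : PSL(2, F)) = y).card ≤ 8 := by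
  obtain ⟨X, rfl⟩ := QuotientGroup.mk_surjective x
  obtain ⟨Y, rfl⟩ := QuotientGroup.mk_surjective y
  have hsub : (univ.filter fun g : SL(2, F) =>
      (QuotientGroup.mk (g * A * g⁻¹) : PSL(2, F)) = QuotientGroup.mk X ∧
      (QuotientGroup.mk (g * B * g⁻¹) : PSL(2, F)) = QuotientGroup.mk Y) ⊆
      ((univ.filter fun g : SL(2, F) => g * A * g⁻¹ = X ∧ g * B * g⁻¹ = Y) ∪
       (univ.filter fun g : SL(2, F) => g * A * g⁻¹ = X ∧ g * B * g⁻¹ = -Y)) ∪
      ((univ.filter fun g : SL(2, F) => g * A * g⁻¹ = -X ∧ g * B * g⁻¹ = Y) ∪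
       (univ.filter fun g : SL(2, F) => g * A * g⁻¹ = -X ∧ g * B * g⁻¹ = -Y)) := by
    intro g hg
    simp only [mem_filter, mem_univ, true_and, mem_union] at hg ⊢
    rcases L09_mk _ _ hg.1 with h1 | h1 <;> rcases L09_mk _ _ hg.2 with h2 | h2
    · exact Or.inl (Or.inl ⟨h1, h2⟩)
    · exact Or.inl (Or.inr ⟨h1, h2⟩)
    · exact Or.inr (Or.inl ⟨h1, h2⟩)
    · exact Or.inr (Or.inr ⟨h1, h2⟩)
  refine (card_le_card hsub).trans ?_
  refine (card_union_le _ _).trans ?_
  have e1 := (card_union_le (univ.filter fun g : SL(2, F) => g * A * g⁻¹ = X ∧ g * B * g⁻¹ = Y)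
    (univ.filter fun g : SL(2, F) => g * A * g⁻¹ = X ∧ g * B * g⁻¹ = -Y))
  have e2 := (card_union_le (univ.filter fun g : SL(2, F) => g * A * g⁻¹ = -X ∧ g * B * g⁻¹ = Y)
    (univ.filter fun g : SL(2, F) => g * A * g⁻¹ = -X ∧ g * B * g⁻¹ = -Y))
  have f1 := L09_fib2 A B X Y hS
  have f2 := L09_fib2 A B X (-Y) hS
  have f3 := L09_fib2 A B (-X) Y hS
  have f4 := L09_fib2 A B (-X) (-Y) hS
  omega

lemma L09_card_psl {F : Type} [Field F] [Fintype F] [DecidableEq F] [Fintype PSL(2, F)] :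
    Fintype.card SL(2, F) ≤ 2 * Fintype.card PSL(2, F) := by
  classical
  rw [← card_univ (α := SL(2, F)), ← card_univ (α := PSL(2, F))]
  apply Finset.card_le_mul_card_image_of_maps_to
    (f := fun g : SL(2, F) => (QuotientGroup.mk g : PSL(2, F))) (fun _ _ => mem_univ _)
  intro x _
  obtain ⟨X, rfl⟩ := QuotientGroup.mk_surjective x
  refine le_trans (card_le_card (t := {X, -X}) ?_) card_le_two
  intro g hg
  simp only [mem_filter, mem_univ, true_and] at hg
  simp only [mem_insert, mem_singleton]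
  exact L09_mk _ _ hg

lemma L09_prime_choice (q a : ℕ) (hq : ∀ p : ℕ, p.Prime → p ∣ q → 5 < p)
    (ha : ¬ Nat.Coprime a (Nat.gcd 30 (q * (q ^ 2 - 1)))) :
    ∃ k, (k = 2 ∨ k = 3 ∨ k = 5) ∧ k ∣ a ∧ (k = 5 → 5 ∣ q ^ 2 - 1) := by
  rw [Nat.Prime.not_coprime_iff_dvd] at ha
  obtain ⟨k, hkp, hka, hkg⟩ := ha
  have hk30 : k ∣ 30 := hkg.trans (Nat.gcd_dvd_left _ _)
  have hkq : k ∣ q * (q ^ 2 - 1) := hkg.trans (Nat.gcd_dvd_right _ _)
  refine ⟨k, ?_, hka, ?_⟩
  · have h30 : (30 : ℕ) = 2 * (3 * 5) := by norm_num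
    rw [h30] at hk30
    rcases (Nat.Prime.dvd_mul hkp).mp hk30 with h | h
    · left; exact (Nat.prime_dvd_prime_iff_eq hkp Nat.prime_two).mp h
    · rcases (Nat.Prime.dvd_mul hkp).mp h with h | h
      · right; left; exact (Nat.prime_dvd_prime_iff_eq hkp Nat.prime_three).mp h
      · right; right; exact (Nat.prime_dvd_prime_iff_eq hkp Nat.prime_five).mp h
  · rintro rfl
    rcases (Nat.Prime.dvd_mul hkp).mp hkq with h | h
    · exact absurd (hq 5 hkp h) (lt_irrefl _)
    · exact h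

lemma L09_cast_ne {F : Type} [Field F] [Fintype F] (k : ℕ) (hk : k.Prime) (hk5 : k ≤ 5)
    (hq : ∀ p : ℕ, p.Prime → p ∣ Fintype.card F → 5 < p) : (k : F) ≠ 0 := by
  intro h0
  obtain ⟨n, hp, hn⟩ := FiniteField.card F (ringChar F)
  have hdvd : ringChar F ∣ k := (ringChar.spec F k).mp h0
  have heq : ringChar F = k := (Nat.prime_dvd_prime_iff_eq hp hk).mp hdvd
  have h1 : ringChar F ∣ Fintype.card F := by
    rw [hn]
    exact dvd_pow_self _ n.2.ne'
  have := hq _ hp h1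
  omega

lemma L09_pow {F : Type} [Field F] (A g : SL(2, F)) (k a : ℕ) (hk : Cen (A ^ k)) (hka : k ∣ a) :
    (QuotientGroup.mk (g * A * g⁻¹) : PSL(2, F)) ^ a = 1 := by
  obtain ⟨m, rfl⟩ := hka
  have h1 : (g * A * g⁻¹) ^ k = A ^ k := by
    rw [conj_pow]
    have hc := (mem_center_iff' _).mpr hk
    rw [Subgroup.mem_center_iff] at hc
    rw [hc g]
    group
  rw [pow_mul, ← QuotientGroup.mk_pow, h1]
  have : (QuotientGroup.mk (A ^ k) : PSL(2, F)) = 1 := by
    rw [QuotientGroup.eq_one_iff, mem_center_iff']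
    exact hk
  rw [this, one_pow]

open scoped Classical in

theorem tri_neg_T2 (a b c : ℕ) (ha : 0 < a) (hb : 0 < b) (hc : 0 < c) : ∃ C : ℝ, 0 < C ∧
    ∀ (F : Type) [Field F] [Fintype F] [DecidableEq F] [Fintype PSL(2, F)] [DecidableEq PSL(2, F)],
      7 ≤ Fintype.card F →
      (∀ p : ℕ, p.Prime → p ∣ Fintype.card F → a < p ∧ b < p ∧ c < p ∧ 5 < p) →
      ¬ Nat.Coprime a (Fintype.card PSL(2, F)) →
      ¬ Nat.Coprime b (Fintype.card PSL(2, F)) → ¬ Nat.Coprime c (Fintype.card PSL(2, F)) →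
      (Odd a ∨ Odd b) ∧ (Odd a ∨ Odd c) ∧ (Odd b ∨ Odd c) →
      ¬ (Nat.Coprime a (Nat.gcd 30 (Fintype.card F * (Fintype.card F ^ 2 - 1))) ∨
        Nat.Coprime b (Nat.gcd 30 (Fintype.card F * (Fintype.card F ^ 2 - 1))) ∨
        Nat.Coprime c (Nat.gcd 30 (Fintype.card F * (Fintype.card F ^ 2 - 1)))) →
      (Fintype.card F : ℝ) ^ 3 ≤ C * (((O0set PSL(2, F) [a, b, c]).filter fun t => ¬ O0gen t).card : ℝ) := by
  refine ⟨16, by norm_num, ?_⟩
  intro F _ _ _ _ _ hq hp _ _ _ hodd hcop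
  have hq5 : ∀ p : ℕ, p.Prime → p ∣ Fintype.card F → 5 < p := fun p h1 h2 => (hp p h1 h2).2.2.2
  push Not at hcop
  obtain ⟨k₁, hk₁, hk₁a, hk₁5⟩ := L09_prime_choice _ a hq5 hcop.1
  obtain ⟨k₂, hk₂, hk₂b, hk₂5⟩ := L09_prime_choice _ b hq5 hcop.2.1
  obtain ⟨k₃, hk₃, hk₃c, hk₃5⟩ := L09_prime_choice _ c hq5 hcop.2.2
  have h2 : (2 : F) ≠ 0 := by
    have := L09_cast_ne (F := F) 2 Nat.prime_two (by norm_num) hq5
    exact_mod_cast this
  have h3 : (3 : F) ≠ 0 := by
    have := L09_cast_ne (F := F) 3 Nat.prime_three (by norm_num) hq5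
    exact_mod_cast this
  have h5 : (5 : F) ≠ 0 := by
    have := L09_cast_ne (F := F) 5 Nat.prime_five (by norm_num) hq5
    exact_mod_cast this
  obtain ⟨A, B, hA, hB, hAB, hS, hcard⟩ := small_pair F h2 h3 h5 k₁ k₂ k₃ hk₁ hk₂ hk₃
    ⟨hodd.1.imp (fun h => h.of_dvd_nat hk₁a) (fun h => h.of_dvd_nat hk₂b),
      hodd.2.1.imp (fun h => h.of_dvd_nat hk₁a) (fun h => h.of_dvd_nat hk₃c),
      hodd.2.2.imp (fun h => h.of_dvd_nat hk₂b) (fun h => h.of_dvd_nat hk₃c)⟩
    (by rintro (h | h | h)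
        · exact hk₁5 h
        · exact hk₂5 h
        · exact hk₃5 h)

  have hsl := card_sl_ge (F := F)
  have hpsl := L09_card_psl (F := F)
  have hpsl120 : 120 < Fintype.card PSL(2, F) := by
    have h1 : 7 * (7 * (7 - 1)) ≤ Fintype.card F * (Fintype.card F * (Fintype.card F - 1)) := by
      gcongr
    omega

  set Φ : SL(2, F) → List PSL(2, F) := fun g =>
    [(QuotientGroup.mk (g * A * g⁻¹) : PSL(2, F)), QuotientGroup.mk (g * B * g⁻¹),
      QuotientGroup.mk (g * (A * B) * g⁻¹)⁻¹] with hΦ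
  have hmaps : ∀ g ∈ (univ : Finset SL(2, F)),
      Φ g ∈ (O0set PSL(2, F) [a, b, c]).filter fun t => ¬ O0gen t := by
    intro g _
    rw [mem_filter]
    constructor
    · unfold O0set
      rw [mem_filter]
      constructor
      · simp only [XS, mem_image₂, tor, mem_filter, mem_univ, true_and, mem_singleton]
        refine ⟨_, L09_pow A g k₁ a hA hk₁a, _, ⟨_, L09_pow B g k₂ b hB hk₂b, _,
          ⟨(QuotientGroup.mk (g * (A * B) * g⁻¹)⁻¹ : PSL(2, F)), ?_, [], rfl, rfl⟩, rfl⟩, rfl⟩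
        rw [QuotientGroup.mk_inv, inv_pow, L09_pow (A * B) g k₃ c hAB hk₃c, inv_one]
      · simp only [hΦ, List.prod_cons, List.prod_nil, mul_one]
        rw [← QuotientGroup.mk_mul, ← QuotientGroup.mk_mul]
        have : g * A * g⁻¹ * (g * B * g⁻¹ * (g * (A * B) * g⁻¹)⁻¹) = 1 := by group
        rw [this]; rfl
    · intro hgen
      unfold O0gen at hgen
      set f : SL(2, F) →* PSL(2, F) :=
        (QuotientGroup.mk' (Subgroup.center SL(2, F))).comp (MulAut.conj g).toMonoidHom with hf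
      have hfX : ∀ X : SL(2, F), f X = QuotientGroup.mk (g * X * g⁻¹) := fun X => rfl
      have hle : (⊤ : Subgroup PSL(2, F)) ≤ (Subgroup.closure {A, B}).map f := by
        rw [← hgen, Subgroup.closure_le]
        intro x hx
        have hAm : A ∈ Subgroup.closure ({A, B} : Set SL(2, F)) :=
          Subgroup.subset_closure (by simp)
        have hBm : B ∈ Subgroup.closure ({A, B} : Set SL(2, F)) :=
          Subgroup.subset_closure (by simp)
        simp only [hΦ, Set.mem_ofPred_eq, List.mem_cons, List.not_mem_nil, or_false] at hx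
        rcases hx with rfl | rfl | rfl
        · exact ⟨A, hAm, hfX A⟩
        · exact ⟨B, hBm, hfX B⟩
        · refine ⟨(A * B)⁻¹, inv_mem (mul_mem hAm hBm), ?_⟩
          rw [map_inv, hfX, QuotientGroup.mk_inv]
      have hc1 : Nat.card (⊤ : Subgroup PSL(2, F)) ≤
          Nat.card ((Subgroup.closure {A, B}).map f) := Subgroup.card_le_of_le hle
      have hc2 : Nat.card ((Subgroup.closure {A, B}).map f) ≤
          Nat.card (Subgroup.closure ({A, B} : Set SL(2, F))) :=
        Nat.card_le_card_of_surjective _ ((f.subgroupMap_surjective (Subgroup.closure {A, B})))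
      rw [Subgroup.card_top, Nat.card_eq_fintype_card] at hc1
      omega
  have hfib : ∀ t ∈ (O0set PSL(2, F) [a, b, c]).filter fun t => ¬ O0gen t,
      (univ.filter fun g : SL(2, F) => Φ g = t).card ≤ 8 := by
    intro t _
    by_cases hne : (univ.filter fun g : SL(2, F) => Φ g = t).Nonempty
    · obtain ⟨g₀, hg₀⟩ := hne
      simp only [mem_filter, mem_univ, true_and] at hg₀
      refine le_trans (card_le_card ?_) (L09_fib8 A B (QuotientGroup.mk (g₀ * A * g₀⁻¹))
        (QuotientGroup.mk (g₀ * B * g₀⁻¹)) hS)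
      intro g hg
      simp only [mem_filter, mem_univ, true_and] at hg ⊢
      rw [← hg₀] at hg
      simp only [hΦ, List.cons.injEq] at hg
      exact ⟨hg.1, hg.2.1⟩
    · rw [Finset.not_nonempty_iff_eq_empty.mp hne]; simp
  have hmain := Finset.card_le_mul_card_image_of_maps_to hmaps 8 hfib
  rw [card_univ] at hmain
  have hq1 : Fintype.card F ≤ 2 * (Fintype.card F - 1) := by omega
  have hfin : Fintype.card F ^ 3 ≤
      16 * ((O0set PSL(2, F) [a, b, c]).filter fun t => ¬ O0gen t).card := by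
    calc Fintype.card F ^ 3 = Fintype.card F * (Fintype.card F * Fintype.card F) := by ring
      _ ≤ Fintype.card F * (Fintype.card F * (2 * (Fintype.card F - 1))) := by gcongr
      _ = 2 * (Fintype.card F * (Fintype.card F * (Fintype.card F - 1))) := by ring
      _ ≤ 2 * (8 * ((O0set PSL(2, F) [a, b, c]).filter fun t => ¬ O0gen t).card) :=
        Nat.mul_le_mul_left _ (hsl.trans hmain)
      _ = _ := by ring
  exact_mod_cast hfin

end Pool.Agent.Helper669_gp.L09
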