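import Mathlib
import Pool.Agent.Helper669_gp.Low2
import Pool.Agent.Helper669_gp.Pts
import Pool.Agent.Helper669_gp.Abs
import Pool.Agent.Helper669_gp.Defs
import Pool.Agent.Helper669_gp.L04
import Pool.Agent.Helper669_gp.L05

namespace Pool.Agent.Helper669_gp.L10

open Pool.Agent.Helper669_gp.L04 Pool.Agent.Helper669_gp.L05

open scoped MatrixGroups

open Finset

section

variable {F : Type} [Field F] [Fintype F] [DecidableEq F]

lemma K190_card_ge : Fintype.card F * (Fintype.card F ^ 2 - 1) ≤ Fintype.card SL(2, F) := by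
  classical
  have hT : (((univ : Finset (F × F)).erase (0, 0)) ×ˢ (univ : Finset F)).card =
      Fintype.card F * (Fintype.card F ^ 2 - 1) := by
    rw [card_product, Finset.card_erase_of_mem (mem_univ _), card_univ, Fintype.card_prod, pow_two,
      card_univ, mul_comm]
  rw [← hT, ← card_univ (α := SL(2, F))]
  let f : (F × F) × F → SL(2, F) := fun p =>
    if h : p.1.1 ≠ 0 then ⟨!![p.1.1, p.2; p.1.2, (1 + p.2 * p.1.2) / p.1.1], by
      rw [Matrix.det_fin_two_of]; field_simp; ring⟩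
    else if h' : p.1.2 ≠ 0 then ⟨!![0, -1 / p.1.2; p.1.2, p.2], by
      rw [Matrix.det_fin_two_of]; field_simp; ring⟩ else (1 : SL(2, F))
  have hf1 : ∀ p : (F × F) × F, p.1.1 ≠ 0 →
      f p 0 0 = p.1.1 ∧ f p 1 0 = p.1.2 ∧ f p 0 1 = p.2 := by
    intro p h
    have e : f p = ⟨!![p.1.1, p.2; p.1.2, (1 + p.2 * p.1.2) / p.1.1], by
      rw [Matrix.det_fin_two_of]; field_simp; ring⟩ := dif_pos h
    rw [e]; exact ⟨rfl, rfl, rfl⟩
  have hf2 : ∀ p : (F × F) × F, ¬ p.1.1 ≠ 0 → p.1.2 ≠ 0 →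
      f p 0 0 = 0 ∧ f p 1 0 = p.1.2 ∧ f p 1 1 = p.2 := by
    intro p h h'
    have e : f p = ⟨!![0, -1 / p.1.2; p.1.2, p.2], by
      rw [Matrix.det_fin_two_of]; field_simp; ring⟩ := (dif_neg h).trans (dif_pos h')
    rw [e]; exact ⟨rfl, rfl, rfl⟩
  apply Finset.card_le_card_of_injOn f
  · intro _ _; exact Finset.mem_coe.2 (mem_univ _)
  · rintro ⟨⟨a, c⟩, t⟩ hp ⟨⟨a', c'⟩, t'⟩ hp' h
    simp only [coe_product, Set.mem_prod, coe_univ, Set.mem_univ, and_true, mem_coe, mem_erase,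
      ne_eq, Prod.mk.injEq, mem_univ] at hp hp'
    by_cases ha : a ≠ 0
    · obtain ⟨h1, h2, h3⟩ := hf1 ((a, c), t) ha
      by_cases ha' : a' ≠ 0
      · obtain ⟨h1', h2', h3'⟩ := hf1 ((a', c'), t') ha'
        rw [h] at h1 h2 h3
        simp only [Prod.mk.injEq]
        exact ⟨⟨h1.symm.trans h1', h2.symm.trans h2'⟩, h3.symm.trans h3'⟩
      · have hc' : c' ≠ 0 := fun h0 => hp' ⟨not_not.1 ha', h0⟩
        obtain ⟨h1', -, -⟩ := hf2 ((a', c'), t') ha' hc'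
        rw [h] at h1
        exact absurd (h1.symm.trans h1') ha
    · have hc : c ≠ 0 := fun h0 => hp ⟨not_not.1 ha, h0⟩
      obtain ⟨h1, h2, h3⟩ := hf2 ((a, c), t) ha hc
      by_cases ha' : a' ≠ 0
      · obtain ⟨h1', -, -⟩ := hf1 ((a', c'), t') ha'
        rw [h] at h1
        exact absurd (h1'.symm.trans h1) ha'
      · have hc' : c' ≠ 0 := fun h0 => hp' ⟨not_not.1 ha', h0⟩
        obtain ⟨h1', h2', h3'⟩ := hf2 ((a', c'), t') ha' hc'
        rw [h] at h1 h2 h3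
        simp only [Prod.mk.injEq]
        exact ⟨⟨(not_not.1 ha).trans (not_not.1 ha').symm, h2.symm.trans h2'⟩, h3.symm.trans h3'⟩

lemma K190_card : Fintype.card SL(2, F) = Fintype.card F * (Fintype.card F ^ 2 - 1) :=
  le_antisymm card_sl_le' K190_card_ge

lemma K190_card_psl [Fintype PSL(2, F)] : Fintype.card PSL(2, F) ∣ Fintype.card SL(2, F) := by
  rw [← Nat.card_eq_fintype_card, ← Nat.card_eq_fintype_card]
  exact Subgroup.card_quotient_dvd_card _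

def K190_pi (F : Type) [Field F] : SL(2, F) →* PSL(2, F) :=
  QuotientGroup.mk' (Subgroup.center SL(2, F))

lemma K190_pi_one (X : SL(2, F)) (h : Cen X) : K190_pi F X = 1 := by
  rw [← mem_center_iff'] at h
  exact (QuotientGroup.eq_one_iff X).2 h

lemma K190_pi_eq (X Y : SL(2, F)) (h : K190_pi F X = K190_pi F Y) : X = Y ∨ X = -Y := by
  have h1 : X⁻¹ * Y ∈ Subgroup.center SL(2, F) := QuotientGroup.eq.1 h
  rw [mem_center_iff'] at h1
  rcases h1 with h1 | h1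
  · left
    rw [inv_mul_eq_one] at h1
    exact h1
  · right
    rw [inv_mul_eq_iff_eq_mul] at h1
    rw [h1]; simp

lemma K190_prime {a : ℕ} (ha : 0 < a) [Fintype PSL(2, F)]
    (hp : ∀ p : ℕ, p.Prime → p ∣ Fintype.card F → a < p)
    (h : ¬ Nat.Coprime a (Fintype.card PSL(2, F))) :
    ∃ r : ℕ, r.Prime ∧ r ∣ a ∧ r ∣ Fintype.card F ^ 2 - 1 := by
  obtain ⟨r, hr, hra, hrG⟩ := Nat.Prime.not_coprime_iff_dvd.1 h
  refine ⟨r, hr, hra, ?_⟩
  have h1 : r ∣ Fintype.card F * (Fintype.card F ^ 2 - 1) := by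
    rw [← K190_card]; exact hrG.trans K190_card_psl
  rcases (Nat.Prime.dvd_mul hr).1 h1 with h2 | h2
  · have h3 := hp r hr h2
    have h4 := Nat.le_of_dvd ha hra
    omega
  · exact h2

lemma K190_two (h : ∀ p : ℕ, p.Prime → p ∣ Fintype.card F → 5 < p) : (2 : F) ≠ 0 := by
  intro h2
  have h1 : addOrderOf (1 : F) ∣ 2 := by
    apply addOrderOf_dvd_of_nsmul_eq_zero
    rw [nsmul_eq_mul, mul_one]
    exact_mod_cast h2
  have h3 : addOrderOf (1 : F) ≠ 1 := by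
    rw [Ne, AddMonoid.addOrderOf_eq_one_iff]
    exact one_ne_zero
  have h4 : addOrderOf (1 : F) = 2 := ((Nat.dvd_prime Nat.prime_two).1 h1).resolve_left h3
  have h5 : 2 ∣ Fintype.card F := h4 ▸ addOrderOf_dvd_card
  have := h 2 Nat.prime_two h5
  omega

end

open scoped Classical in

theorem tri_total (a b c : ℕ) (ha : 0 < a) (hb : 0 < b) (hc : 0 < c) : ∃ C : ℝ, 0 < C ∧
    ∀ (F : Type) [Field F] [Fintype F] [DecidableEq F] [Fintype PSL(2, F)] [DecidableEq PSL(2, F)],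
      7 ≤ Fintype.card F →
      (∀ p : ℕ, p.Prime → p ∣ Fintype.card F → a < p ∧ b < p ∧ c < p ∧ 5 < p) →
      ¬ Nat.Coprime a (Fintype.card PSL(2, F)) →
      ¬ Nat.Coprime b (Fintype.card PSL(2, F)) → ¬ Nat.Coprime c (Fintype.card PSL(2, F)) →

       (Fintype.card F : ℝ) ^ 3 ≤ C * ((O0set PSL(2, F) [a, b, c]).card : ℝ) := by
  refine ⟨8, by norm_num, ?_⟩
  intro F _ _ _ _ _ hq hp hna hnb hnc
  obtain ⟨r₁, hr₁, hr₁a, h₁⟩ := K190_prime ha (fun p h1 h2 => (hp p h1 h2).1) hna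
  obtain ⟨r₂, hr₂, hr₂b, h₂⟩ := K190_prime hb (fun p h1 h2 => (hp p h1 h2).2.1) hnb
  obtain ⟨r₃, hr₃, hr₃c, h₃⟩ := K190_prime hc (fun p h1 h2 => (hp p h1 h2).2.2.1) hnc
  have h2 : (2 : F) ≠ 0 := K190_two fun p h1 h2 => (hp p h1 h2).2.2.2
  obtain ⟨t₁, t₂, t₃, -, -, -, hS, hc₁, hc₂, hc₃⟩ := sign_choice F h2 (Fintype.card F) 1 r₁ r₂ r₃
    one_pos (pow_one _).symm hr₁ hr₂ hr₃ h₁ h₂ h₃
  have hcount := tri_count F t₁ t₂ t₃ hS
  set S := univ.filter fun t : SL(2, F) × SL(2, F) =>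
        tr t.1 = t₁ ∧ tr t.2 = t₂ ∧ tr (t.1 * t.2) = t₃ ∧ ¬ Cen t.1 ∧ ¬ Cen t.2 ∧
          ¬ Cen (t.1 * t.2) with hSdef
  let g : SL(2, F) × SL(2, F) → List PSL(2, F) := fun t =>
    [K190_pi F t.1, K190_pi F t.2, (K190_pi F t.1 * K190_pi F t.2)⁻¹]
  have hpow : ∀ (X : SL(2, F)) (r m : ℕ), Cen (X ^ r) → r ∣ m → K190_pi F X ^ m = 1 := by
    rintro X r m hX ⟨k, rfl⟩
    rw [pow_mul, ← map_pow, K190_pi_one _ hX, one_pow]
  have himg : S.image g ⊆ O0set PSL(2, F) [a, b, c] := by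
    intro l hl
    obtain ⟨⟨X, Y⟩, hXY, rfl⟩ := Finset.mem_image.1 hl
    rw [hSdef, Finset.mem_filter] at hXY
    obtain ⟨-, k1, k2, k3, n1, n2, n3⟩ := hXY
    have mt : ∀ (m : ℕ) (x : PSL(2, F)), x ^ m = 1 → x ∈ tor PSL(2, F) m := fun m x hx =>
      Finset.mem_filter.2 ⟨Finset.mem_univ _, hx⟩
    refine Finset.mem_filter.2 ⟨?_, ?_⟩
    · refine Finset.mem_image₂.2 ⟨_, mt a _ (hpow X r₁ a (hc₁ X k1 n1) hr₁a), _, ?_, rfl⟩
      refine Finset.mem_image₂.2 ⟨_, mt b _ (hpow Y r₂ b (hc₂ Y k2 n2) hr₂b), _, ?_, rfl⟩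
      refine Finset.mem_image₂.2 ⟨_, mt c _ ?_, _, Finset.mem_singleton_self _, rfl⟩
      rw [inv_pow, ← map_mul, hpow (X * Y) r₃ c (hc₃ (X * Y) k3 n3) hr₃c, inv_one]
    · simp [g]
  have hfib : ∀ l ∈ S.image g, (S.filter fun t => g t = l).card ≤ 4 := by
    intro l hl
    obtain ⟨⟨X₀, Y₀⟩, -, rfl⟩ := Finset.mem_image.1 hl
    have hsub : (S.filter fun t => g t = g (X₀, Y₀)) ⊆
        ({X₀, -X₀} : Finset SL(2, F)) ×ˢ ({Y₀, -Y₀} : Finset SL(2, F)) := by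
      rintro ⟨X, Y⟩ hXY
      have h1 := (Finset.mem_filter.1 hXY).2
      simp only [g, List.cons.injEq, and_true] at h1
      rw [Finset.mem_product, Finset.mem_insert, Finset.mem_singleton, Finset.mem_insert,
        Finset.mem_singleton]
      exact ⟨K190_pi_eq _ _ h1.1, K190_pi_eq _ _ h1.2.1⟩
    refine le_trans (Finset.card_le_card hsub) ?_
    rw [Finset.card_product]
    calc _ ≤ 2 * 2 := Nat.mul_le_mul Finset.card_le_two Finset.card_le_two
      _ = 4 := by norm_num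
  have h4 := Finset.card_le_mul_card_image S 4 hfib
  have h5 := Finset.card_le_card himg
  have h6 : Fintype.card F * (Fintype.card F - 1) * (Fintype.card F - 2) ≤
      4 * (O0set PSL(2, F) [a, b, c]).card := le_trans hcount (le_trans h4 (by omega))
  obtain ⟨m, hm⟩ : ∃ m, Fintype.card F = m + 2 := ⟨Fintype.card F - 2, by omega⟩
  rw [hm] at h6 hq ⊢
  have h7 : (m + 2) * (m + 1) * m ≤ 4 * (O0set PSL(2, F) [a, b, c]).card := by
    simpa using h6
  have h8 : (m + 2) ^ 3 ≤ 2 * ((m + 2) * (m + 1) * m) := by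
    have h9 : (m + 2) ^ 2 ≤ 2 * ((m + 1) * m) := by nlinarith
    calc (m + 2) ^ 3 = (m + 2) * (m + 2) ^ 2 := by ring
      _ ≤ (m + 2) * (2 * ((m + 1) * m)) := Nat.mul_le_mul_left _ h9
      _ = _ := by ring
  have h10 : (m + 2) ^ 3 ≤ 8 * (O0set PSL(2, F) [a, b, c]).card := by omega
  exact_mod_cast h10

end Pool.Agent.Helper669_gp.L10
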