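import Mathlib
import Pool.Agent.Helper669_gp.Low2
import Pool.Agent.Helper669_gp.Pts
import Pool.Agent.Helper669_gp.Abs
import Pool.Agent.Helper669_gp.Defs
import Pool.Agent.Helper669_gp.Dick4
import Pool.Agent.Helper669_gp.K01

set_option linter.unusedSectionVars false

namespace Pool.Agent.Helper669_gp.L11

open Pool.Agent.Helper669_gp.K01

open scoped MatrixGroups

open Finset

section L11a

variable {F : Type} [Field F]

lemma L11_cen_mul {A B : SL(2, F)} (hA : Cen A) (hB : Cen B) : Cen (A * B) := by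
  rw [← mem_center_iff'] at *
  exact Subgroup.mul_mem _ hA hB

lemma L11_cen_inv {A : SL(2, F)} (hA : Cen A) : Cen A⁻¹ := by
  rw [← mem_center_iff'] at *
  exact Subgroup.inv_mem _ hA

lemma L11_cen_pow {A : SL(2, F)} (hA : Cen A) (n : ℕ) : Cen (A ^ n) := by
  rw [← mem_center_iff'] at *
  exact Subgroup.pow_mem _ hA n

lemma L11_cen_comm {A : SL(2, F)} (hA : Cen A) (B : SL(2, F)) : A * B = B * A := by
  rw [← mem_center_iff', Subgroup.mem_center_iff] at hA
  exact (hA B).symm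

lemma L11_pow_unip (X : SL(2, F)) (s : F) (hs : s ^ 2 = 1) (ht : tr X = 2 * s) (n : ℕ) :
    (X ^ n) 0 1 = n * s ^ (n + 1) * X 0 1 ∧ (X ^ n) 1 0 = n * s ^ (n + 1) * X 1 0 ∧
    (X ^ n) 0 0 = n * s ^ (n + 1) * X 0 0 - (n - 1) * s ^ n ∧
    (X ^ n) 1 1 = n * s ^ (n + 1) * X 1 1 - (n - 1) * s ^ n := by
  have hd := det_eq X
  rw [tr] at ht
  induction n with
  | zero => simp
  | succ n ih =>
    obtain ⟨h01, h10, h00, h11⟩ := ih
    have e1 : s ^ (n + 1) = s ^ n * s := pow_succ _ _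
    have e2 : s ^ (n + 1 + 1) = s ^ n := by rw [pow_succ, pow_succ, mul_assoc, ← sq, hs, mul_one]
    rw [pow_succ, mul01, mul10, mul00, mul11, h01, h10, h00, h11, e2, e1]
    push_cast
    refine ⟨?_, ?_, ?_, ?_⟩
    · linear_combination (n * s ^ n * s * X 0 1) * ht + (2 * n * s ^ n * X 0 1) * hs
    · linear_combination (n * s ^ n * s * X 1 0) * ht + (2 * n * s ^ n * X 1 0) * hs
    · linear_combination (n * s ^ n * s * X 0 0) * ht + (2 * n * s ^ n * X 0 0) * hs
        - (n * s ^ n * s) * hd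
    · linear_combination (n * s ^ n * s * X 1 1) * ht + (2 * n * s ^ n * X 1 1) * hs
        - (n * s ^ n * s) * hd

lemma L11_unip (h2 : (2 : F) ≠ 0) (X : SL(2, F)) (h4 : (tr X) ^ 2 = 4) (hX : ¬ Cen X) (n : ℕ)
    (hn : Cen (X ^ n)) : (n : F) = 0 := by
  by_contra hn0
  have hs : (tr X / 2) ^ 2 = 1 := by
    have h5 : (2 : F) ^ 2 ≠ 0 := pow_ne_zero _ h2
    rw [div_pow, h4, div_eq_one_iff_eq h5]
    norm_num
  have ht : tr X = 2 * (tr X / 2) := by field_simp
  obtain ⟨h01, h10, h00, h11⟩ := L11_pow_unip X _ hs ht n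
  rw [cen_iff] at hn
  set s := tr X / 2
  have hs0 : s ≠ 0 := by
    intro h
    rw [h] at hs
    simp at hs
  have hc : (n : F) * s ^ (n + 1) ≠ 0 := mul_ne_zero hn0 (pow_ne_zero _ hs0)
  apply hX
  rw [cen_iff]
  rw [h01, h10, h00, h11] at hn
  refine ⟨(mul_eq_zero.1 hn.1).resolve_left hc, (mul_eq_zero.1 hn.2.1).resolve_left hc, ?_⟩
  apply mul_left_cancel₀ hc
  linear_combination hn.2.2

lemma L11_even (X : SL(2, F)) (hX : ¬ Cen X) (h2 : Cen (X ^ 2)) (n : ℕ) (hn : Cen (X ^ n)) :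
    ¬ Odd n := by
  rintro ⟨k, rfl⟩
  apply hX
  have h1 : X = X ^ (2 * k + 1) * ((X ^ 2) ^ k)⁻¹ := by
    rw [← pow_mul, pow_succ', mul_assoc, mul_inv_cancel, mul_one]
  rw [h1]
  exact L11_cen_mul hn (L11_cen_inv (L11_cen_pow h2 k))

lemma L11_par (X Y : SL(2, F)) (hX : ¬ Cen X) (h : X * Y = Y * X) :
    ∃ w : F, Y 1 0 = w * X 1 0 ∧ Y 0 1 = w * X 0 1 ∧ Y 1 1 - Y 0 0 = w * (X 1 1 - X 0 0) := by
  have h00 : (X * Y) 0 0 = (Y * X) 0 0 := by rw [h]
  have h01 : (X * Y) 0 1 = (Y * X) 0 1 := by rw [h]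
  have h10 : (X * Y) 1 0 = (Y * X) 1 0 := by rw [h]
  rw [mul00, mul00] at h00
  rw [mul01, mul01] at h01
  rw [mul10, mul10] at h10
  rw [cen_iff] at hX
  by_cases c1 : X 1 0 = 0
  · by_cases c2 : X 0 1 = 0
    · have c3 : X 1 1 - X 0 0 ≠ 0 := by
        intro hc
        exact hX ⟨c2, c1, (sub_eq_zero.1 hc).symm⟩
      refine ⟨(Y 1 1 - Y 0 0) / (X 1 1 - X 0 0), ?_, ?_, ?_⟩
      · rw [c1, mul_zero]
        apply (mul_eq_zero.1 (_ : (X 1 1 - X 0 0) * Y 1 0 = 0)).resolve_left c3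
        linear_combination h10 + (Y 1 1 - Y 0 0) * c1
      · rw [c2, mul_zero]
        apply (mul_eq_zero.1 (_ : (X 1 1 - X 0 0) * Y 0 1 = 0)).resolve_left c3
        linear_combination -h01 + (Y 1 1 - Y 0 0) * c2
      · field_simp
    · refine ⟨Y 0 1 / X 0 1, ?_, ?_, ?_⟩
      · field_simp
        linear_combination h00
      · field_simp
      · field_simp
        linear_combination h01
  · refine ⟨Y 1 0 / X 1 0, ?_, ?_, ?_⟩
    · field_simp
    · field_simp
      linear_combination -h00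
    · field_simp
      linear_combination -h10

end L11a

section L11b

variable {F : Type} [Field F] (K : Type) [Field K] [DecidableEq K] [Algebra F K]

lemma L11_act_pow (A : SL(2, F)) (x : OnePoint K) (hA : act K A x = x) (n : ℕ) :
    act K (A ^ n) x = x := by
  induction n with
  | zero => rw [pow_zero, act_one]
  | succ n ih => rw [pow_succ, act_mul, hA, ih]

lemma L11_ev_pow (A : SL(2, F)) (x : OnePoint K) (hA : act K A x = x) (n : ℕ) :
    ev K (A ^ n) x = (ev K A x) ^ n := by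
  induction n with
  | zero => rw [pow_zero, pow_zero, ev_one]
  | succ n ih => rw [pow_succ, ev_mul K _ _ x (L11_act_pow K A x hA n) hA, ih, pow_succ]

lemma L11_ev_cen (A : SL(2, F)) (x : OnePoint K) (hA : Cen A) : (ev K A x) ^ 2 = 1 := by
  rcases hA with rfl | rfl
  · rw [ev_one, one_pow]
  · rw [ev_neg_one]
    ring

lemma L11_mu_pow (A : SL(2, F)) (x : OnePoint K) (hA : act K A x = x) (n : ℕ) (hn : Cen (A ^ n)) :
    ((ev K A x) ^ 2) ^ n = 1 := by
  rw [← pow_mul, mul_comm, pow_mul, ← L11_ev_pow K A x hA, L11_ev_cen K _ x hn]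

lemma L11_par_fix (X Y : SL(2, F)) (hX : ¬ Cen X) (h : X * Y = Y * X) (x : OnePoint K)
    (hx : act K X x = x) : act K Y x = x := by
  obtain ⟨w, h10, h01, hd⟩ := L11_par X Y hX h
  induction x using OnePoint.rec with
  | infty =>
    rw [act_infty] at hx ⊢
    rw [h10, hx, mul_zero]
  | coe k =>
    rw [act_coe] at hx ⊢
    rw [← map_sub, hd, h10, h01]
    simp only [map_mul, map_sub]
    linear_combination (algebraMap F K w) * hx

lemma L11_three [IsAlgClosed K] (A : SL(2, F)) (x y z : OnePoint K) (hxy : x ≠ y) (hxz : x ≠ z)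
    (hyz : y ≠ z) (hx : act K A x = x) (hy : act K A y = y) (hz : act K A z = z) : Cen A := by
  by_contra hA
  by_cases ht : (tr A) ^ 2 = 4
  · obtain ⟨u, hu⟩ := fix_unip K A hA ht
    exact hxy (((hu x).1 hx).trans ((hu y).1 hy).symm)
  · obtain ⟨u, u', -, hu⟩ := fix_semi K A ht
    rcases (hu x).1 hx with h1 | h1 <;> rcases (hu y).1 hy with h2 | h2 <;>
      rcases (hu z).1 hz with h3 | h3
    · exact hxy (h1.trans h2.symm)
    · exact hxy (h1.trans h2.symm)
    · exact hxz (h1.trans h3.symm)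
    · exact hyz (h2.trans h3.symm)
    · exact hyz (h2.trans h3.symm)
    · exact hxz (h1.trans h3.symm)
    · exact hxy (h1.trans h2.symm)
    · exact hxy (h1.trans h2.symm)

lemma L11_exists_fix [IsAlgClosed K] (A : SL(2, F)) (hA : ¬ Cen A) : ∃ x : OnePoint K, act K A x = x := by
  by_cases ht : (tr A) ^ 2 = 4
  · obtain ⟨u, hu⟩ := fix_unip K A hA ht
    exact ⟨u, (hu u).2 rfl⟩
  · obtain ⟨u, u', -, hu⟩ := fix_semi K A ht
    exact ⟨u, (hu u).2 (Or.inl rfl)⟩

lemma L11_swap [IsAlgClosed K] (A : SL(2, F)) (hA : ¬ Cen A) (x y : OnePoint K) (hxy : x ≠ y)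
    (h1 : act K A x = y) (h2 : act K A y = x) : Cen (A ^ 2) := by
  obtain ⟨z, hz⟩ := L11_exists_fix K A hA
  have hxz : x ≠ z := by
    rintro rfl
    exact hxy (hz.symm.trans h1)
  have hyz : y ≠ z := by
    rintro rfl
    exact hxy (h2.symm.trans hz)
  refine L11_three K _ x y z hxy hxz hyz ?_ ?_ ?_
  · rw [sq, act_mul, h1, h2]
  · rw [sq, act_mul, h2, h1]
  · rw [sq, act_mul, hz, hz]

lemma L11_irr (A B : SL(2, F)) (k : K) (hk : ∀ w : F, algebraMap F K w ≠ k)
    (hA : act K A (k : OnePoint K) = k) (hB : act K B (k : OnePoint K) = k)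
    (h : ev K A (k : OnePoint K) = ev K B (k : OnePoint K)) : A = B := by
  rw [act_coe] at hA hB
  rw [ev_coe, ev_coe] at h
  have key : ∀ u v : F, algebraMap F K u * k + algebraMap F K v = 0 → u = 0 ∧ v = 0 := by
    intro u v huv
    by_cases hu : u = 0
    · refine ⟨hu, ?_⟩
      rw [hu, map_zero, zero_mul, zero_add] at huv
      exact (map_eq_zero _).1 huv
    · exfalso
      apply hk (-v / u)
      rw [map_div₀, map_neg, div_eq_iff ((map_ne_zero _).2 hu)]
      linear_combination -huv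
  obtain ⟨h1, h2⟩ := key (A 1 0 - B 1 0) (A 1 1 - B 1 1) (by
    rw [map_sub, map_sub]
    linear_combination h)
  have h1' : A 1 0 = B 1 0 := sub_eq_zero.1 h1
  have h2' : A 1 1 = B 1 1 := sub_eq_zero.1 h2
  obtain ⟨h3, h4⟩ := key (A 0 0 - B 0 0) (A 0 1 - B 0 1) (by
    rw [map_sub, map_sub]
    rw [h1', h2'] at hA
    linear_combination hB - hA)
  exact sl_ext (sub_eq_zero.1 h3) (sub_eq_zero.1 h4) h1' h2'

lemma L11_inj [IsAlgClosed K] (h2 : (2 : F) ≠ 0) (x x' : OnePoint K) (hxx : x ≠ x')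
    (Y Y' : SL(2, F)) (h1 : act K Y x = x) (h1' : act K Y x' = x') (h3 : act K Y' x = x)
    (h3' : act K Y' x' = x') (h : ev K Y x = ev K Y' x) : Y = Y' := by
  set W := Y⁻¹ * Y' with hW
  have hYW : Y' = Y * W := by rw [hW, mul_inv_cancel_left]
  have hinv : ∀ z, act K Y z = z → act K Y⁻¹ z = z := fun z hz => (act_inv_eq K Y z z).2 hz.symm
  have hWx : act K W x = x := by rw [hW, act_mul, h3, hinv x h1]
  have hWx' : act K W x' = x' := by rw [hW, act_mul, h3', hinv x' h1']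
  have hev : ev K W x = 1 := by
    have h4 := ev_mul K Y W x h1 hWx
    rw [← hYW, ← h] at h4
    have h5 := ev_ne_zero K Y x h1
    have : ev K Y x * ev K W x = ev K Y x * 1 := by rw [mul_one]; exact h4.symm
    exact mul_left_cancel₀ h5 this
  have htr := (ev_eq_one_iff K W x hWx).1 hev
  have hcen : Cen W := by
    by_contra hcon
    obtain ⟨u, hu⟩ := fix_unip K W hcon (by rw [htr]; norm_num)
    exact hxx (((hu x).1 hWx).trans ((hu x').1 hWx').symm)
  rcases hcen with h4 | h4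
  · rw [hYW, h4, mul_one]
  · exfalso
    rw [h4, ev_neg_one] at hev
    apply h2
    apply (algebraMap F K).injective
    rw [map_ofNat, map_zero]
    linear_combination -hev

end L11b

lemma L11_arith {M : Type} [CommMonoid M] (m1 m2 m3 : M) (h : m1 * m2 * m3 = 1) (a b c n : ℕ)
    (h1 : m1 ^ a = 1) (h2 : m2 ^ b = 1) (h3 : m3 ^ c = 1) (n1 : m1 ^ n = 1) (n2 : m2 ^ n = 1)
    (n3 : m3 ^ n = 1) (hab : Nat.Coprime (Nat.gcd a b) n) (hac : Nat.Coprime (Nat.gcd a c) n) :
    m1 = 1 := by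
  rw [← orderOf_eq_one_iff]
  have d1 : orderOf m1 ∣ Nat.gcd a n :=
    Nat.dvd_gcd (orderOf_dvd_of_pow_eq_one h1) (orderOf_dvd_of_pow_eq_one n1)
  have d2 : orderOf m2 ∣ Nat.gcd b n :=
    Nat.dvd_gcd (orderOf_dvd_of_pow_eq_one h2) (orderOf_dvd_of_pow_eq_one n2)
  have d3 : orderOf m3 ∣ Nat.gcd c n :=
    Nat.dvd_gcd (orderOf_dvd_of_pow_eq_one h3) (orderOf_dvd_of_pow_eq_one n3)
  set β := Nat.gcd b n
  set γ := Nat.gcd c n
  have e1 : m1 ^ (β * γ) = 1 := by
    have h4 : (m1 * m2 * m3) ^ (β * γ) = m1 ^ (β * γ) * m2 ^ (β * γ) * m3 ^ (β * γ) := by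
      rw [mul_pow, mul_pow]
    have h5 : m2 ^ (β * γ) = 1 := by
      rw [pow_mul, orderOf_dvd_iff_pow_eq_one.1 d2, one_pow]
    have h6 : m3 ^ (β * γ) = 1 := by
      rw [mul_comm, pow_mul, orderOf_dvd_iff_pow_eq_one.1 d3, one_pow]
    rw [h, one_pow, h5, h6, mul_one, mul_one] at h4
    exact h4.symm
  have d4 : orderOf m1 ∣ β * γ := orderOf_dvd_of_pow_eq_one e1
  have cop1 : Nat.Coprime (Nat.gcd a n) β := by
    have h7 : Nat.gcd (Nat.gcd a n) β ∣ Nat.gcd (Nat.gcd a b) n :=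
      Nat.dvd_gcd (Nat.dvd_gcd ((Nat.gcd_dvd_left _ _).trans (Nat.gcd_dvd_left _ _))
        ((Nat.gcd_dvd_right _ _).trans (Nat.gcd_dvd_left _ _)))
        ((Nat.gcd_dvd_left _ _).trans (Nat.gcd_dvd_right _ _))
    rw [Nat.Coprime] at hab
    rw [hab] at h7
    exact Nat.dvd_one.1 h7
  have cop2 : Nat.Coprime (Nat.gcd a n) γ := by
    have h7 : Nat.gcd (Nat.gcd a n) γ ∣ Nat.gcd (Nat.gcd a c) n :=
      Nat.dvd_gcd (Nat.dvd_gcd ((Nat.gcd_dvd_left _ _).trans (Nat.gcd_dvd_left _ _))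
        ((Nat.gcd_dvd_right _ _).trans (Nat.gcd_dvd_left _ _)))
        ((Nat.gcd_dvd_left _ _).trans (Nat.gcd_dvd_right _ _))
    rw [Nat.Coprime] at hac
    rw [hac] at h7
    exact Nat.dvd_one.1 h7
  have cop : Nat.Coprime (Nat.gcd a n) (β * γ) := Nat.Coprime.mul_right cop1 cop2
  exact Nat.dvd_one.1 (by
    have := Nat.dvd_gcd d1 d4
    rwa [cop] at this)

section L11c

variable (F : Type) [Field F] [Fintype F] [DecidableEq F]

lemma L11_card_sl : Fintype.card SL(2, F) = Fintype.card F * (Fintype.card F ^ 2 - 1) := by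
  classical
  apply le_antisymm card_sl_le'
  have hGL := Matrix.card_GL_field (𝔽 := F) 2
  rw [Fin.prod_univ_two] at hGL
  simp only [Fin.val_zero, Fin.val_one, pow_zero, pow_one] at hGL
  have hq : 1 < Fintype.card F := Fintype.one_lt_card

  let f : GL (Fin 2) F → SL(2, F) × Fˣ := fun g =>
    (⟨!![g.1 0 0 / g.1.det, g.1 0 1; g.1 1 0 / g.1.det, g.1 1 1], by
      have hd : g.1.det ≠ 0 := by
        intro h
        have := (Matrix.isUnit_iff_isUnit_det g.1).1 g.isUnit
        rw [h] at this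
        exact not_isUnit_zero this
      rw [Matrix.det_fin_two_of]
      rw [div_mul_eq_mul_div, mul_div_assoc', ← sub_div, div_eq_one_iff_eq hd, Matrix.det_fin_two]⟩,
      Matrix.GeneralLinearGroup.det g)
  have hf : Function.Injective f := by
    intro g g' h
    have h1 := congrArg (fun z => (z.1 : Matrix (Fin 2) (Fin 2) F)) h
    have h2 := congrArg (fun z => (z.2 : F)) h
    simp only [f] at h1 h2
    have hd : g.1.det = g'.1.det := h2
    have hd0 : g'.1.det ≠ 0 := by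
      intro h
      have := (Matrix.isUnit_iff_isUnit_det g'.1).1 g'.isUnit
      rw [h] at this
      exact not_isUnit_zero this
    rw [hd] at h1
    have e00 := congrFun (congrFun h1 0) 0
    have e01 := congrFun (congrFun h1 0) 1
    have e10 := congrFun (congrFun h1 1) 0
    have e11 := congrFun (congrFun h1 1) 1
    simp at e00 e01 e10 e11
    rw [div_left_inj' hd0] at e00 e10
    apply Units.ext
    ext i j
    fin_cases i <;> fin_cases j
    · exact e00
    · exact e01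
    · exact e10
    · exact e11
  have hle := Fintype.card_le_of_injective f hf
  rw [Fintype.card_prod, Fintype.card_units, ← Nat.card_eq_fintype_card (α := GL (Fin 2) F), hGL] at hle
  have e : (Fintype.card F ^ 2 - 1) * (Fintype.card F ^ 2 - Fintype.card F) =
      Fintype.card F * (Fintype.card F ^ 2 - 1) * (Fintype.card F - 1) := by
    have : Fintype.card F ^ 2 - Fintype.card F = Fintype.card F * (Fintype.card F - 1) := by
      rw [sq, Nat.mul_sub, mul_one]
    rw [this]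
    ring
  rw [e] at hle
  exact Nat.le_of_mul_le_mul_right hle (by omega)

variable {F}

lemma L11_cast_ne (n : ℕ) (hn0 : 0 < n)
    (hn : ∀ p : ℕ, p.Prime → p ∣ Fintype.card F → n < p) : (n : F) ≠ 0 := by
  intro h
  have hp := CharP.char_is_prime F (ringChar F)
  have h1 : ringChar F ∣ n := (ringChar.spec F n).1 h
  obtain ⟨k, -, hk⟩ := FiniteField.card F (ringChar F)
  have h2 := hn _ hp (by rw [hk]; exact dvd_pow_self _ k.ne_zero)
  exact absurd (Nat.le_of_dvd hn0 h1) (not_le.2 h2)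

lemma L11_prime (X : SL(2, F)) (hX : ¬ Cen X) (a N : ℕ) (ha : Cen (X ^ a))
    (hN : ∀ r : ℕ, r.Prime → r ∣ orderOf X → r ∣ N) : ¬ Nat.Coprime a N := by
  let π : SL(2, F) →* PSL(2, F) := QuotientGroup.mk' _
  have hker : ∀ Z : SL(2, F), π Z = 1 ↔ Cen Z := by
    intro Z
    rw [← mem_center_iff']
    exact QuotientGroup.eq_one_iff Z
  have h1 : orderOf (π X) ≠ 1 := by
    rw [Ne, orderOf_eq_one_iff, hker]
    exact hX
  have h2 : orderOf (π X) ∣ a := by
    apply orderOf_dvd_of_pow_eq_one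
    rw [← map_pow, hker]
    exact ha
  obtain ⟨r, hr, hr1⟩ := Nat.exists_prime_and_dvd h1
  have h3 : r ∣ N := hN r hr (hr1.trans (orderOf_map_dvd π X))
  intro hcop
  have h4 : r ∣ Nat.gcd a N := Nat.dvd_gcd (hr1.trans h2) h3
  rw [hcop] at h4
  exact hr.one_lt.ne' (Nat.dvd_one.1 h4)

end L11c

open scoped OnePoint in
lemma L11_rat {F : Type} [Field F] [Fintype F] (K : Type) [Field K] [DecidableEq K] [Algebra F K]
    (A : SL(2, F)) (P : OnePoint K)
    (hP : P = ∞ ∨ ∃ w : F, P = ((algebraMap F K w : K) : OnePoint K)) (hA : act K A P = P) :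
    ((ev K A P) ^ 2) ^ (Fintype.card F - 1) = 1 := by
  have h0 := ev_ne_zero K A P hA
  obtain ⟨u, hu⟩ : ∃ u : F, ev K A P = algebraMap F K u := by
    rcases hP with rfl | ⟨w, rfl⟩
    · exact ⟨_, rfl⟩
    · refine ⟨A 1 0 * w + A 1 1, ?_⟩
      rw [ev_coe, map_add, map_mul]
  have hu0 : u ≠ 0 := by
    rintro rfl
    rw [map_zero] at hu
    exact h0 hu
  rw [hu, ← map_pow, ← map_pow, FiniteField.pow_card_sub_one_eq_one _ (pow_ne_zero _ hu0), map_one]

section L11d

variable {F : Type} [Field F] [Fintype F] [DecidableEq F]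

lemma L11_noncen {X Y : SL(2, F)} (hXY : X * Y ≠ Y * X) :
    ¬ Cen X ∧ ¬ Cen Y ∧ ¬ Cen (X * Y) := by
  refine ⟨fun h => hXY (L11_cen_comm h Y), fun h => hXY (L11_cen_comm h X).symm, fun h => ?_⟩
  apply hXY
  have h1 := L11_cen_comm h X
  have h2 : X * (Y * X) = X * (X * Y) := by rw [← mul_assoc]; exact h1
  exact (mul_left_cancel h2).symm

open scoped OnePoint in
lemma L11_case1 (K : Type) [Field K] [DecidableEq K] [Algebra F K]
    {a b c : ℕ} (h2 : (2 : F) ≠ 0) (ha : (a : F) ≠ 0) (hb : (b : F) ≠ 0) (hc : (c : F) ≠ 0)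
    (hT : (Nat.Coprime (Nat.gcd a b) (Fintype.card F - 1) ∧
        Nat.Coprime (Nat.gcd a c) (Fintype.card F - 1)) ∨
      (Nat.Coprime (Nat.gcd a b) (Fintype.card F - 1) ∧
        Nat.Coprime (Nat.gcd b c) (Fintype.card F - 1)) ∨
      (Nat.Coprime (Nat.gcd a c) (Fintype.card F - 1) ∧
        Nat.Coprime (Nat.gcd b c) (Fintype.card F - 1)))
    {X Y : SL(2, F)} (hXa : Cen (X ^ a)) (hYb : Cen (Y ^ b)) (hZc : Cen ((X * Y) ^ c))
    (hXY : X * Y ≠ Y * X) (P : OnePoint K) (hX : act K X P = P) (hY : act K Y P = P) : False := by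
  obtain ⟨nX, nY, nZ⟩ := L11_noncen hXY
  have hZ : act K (X * Y) P = P := by rw [act_mul, hY, hX]
  have key : ∀ (A : SL(2, F)) (n : ℕ), ¬ Cen A → act K A P = P → Cen (A ^ n) → (n : F) ≠ 0 →
      (ev K A P) ^ 2 ≠ 1 := by
    intro A n nA hA hAn hn h
    exact hn (L11_unip h2 A ((ev_sq_iff K A P hA).1 h) nA n hAn)
  have kX := key X a nX hX hXa ha
  have kY := key Y b nY hY hYb hb
  have kZ := key (X * Y) c nZ hZ hZc hc
  have hrat : P = ∞ ∨ ∃ w : F, P = ((algebraMap F K w : K) : OnePoint K) := by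
    by_contra hcon
    push Not at hcon
    obtain ⟨h1, h3⟩ := hcon
    induction P using OnePoint.rec with
    | infty => exact h1 rfl
    | coe k =>
      have hZ' : act K (Y * X) (k : OnePoint K) = k := by rw [act_mul, hX, hY]
      apply hXY
      refine L11_irr K _ _ k (fun w hw => h3 w (by rw [hw])) hZ hZ' ?_
      rw [ev_mul K X Y _ hX hY, ev_mul K Y X _ hY hX, mul_comm]
  have rX := L11_rat K X P hrat hX
  have rY := L11_rat K Y P hrat hY
  have rZ := L11_rat K (X * Y) P hrat hZ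
  have pX := L11_mu_pow K X P hX a hXa
  have pY := L11_mu_pow K Y P hY b hYb
  have pZ := L11_mu_pow K (X * Y) P hZ c hZc
  have hz0 := ev_ne_zero K (X * Y) P hZ
  have hprod : ev K X P ^ 2 * ev K Y P ^ 2 * (ev K (X * Y) P ^ 2)⁻¹ = 1 := by
    rw [← mul_pow, ← ev_mul K X Y P hX hY, mul_inv_cancel₀ (pow_ne_zero _ hz0)]
  have rZ' : ((ev K (X * Y) P ^ 2)⁻¹) ^ (Fintype.card F - 1) = 1 := by rw [inv_pow, rZ, inv_one]
  have pZ' : ((ev K (X * Y) P ^ 2)⁻¹) ^ c = 1 := by rw [inv_pow, pZ, inv_one]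
  rcases hT with ⟨t1, t2⟩ | ⟨t1, t2⟩ | ⟨t1, t2⟩
  · exact kX (L11_arith _ _ _ hprod a b c _ pX pY pZ' rX rY rZ' t1 t2)
  · refine kY (L11_arith _ _ _ (by rw [mul_comm (ev K Y P ^ 2)]; exact hprod) b a c _ pY pX pZ'
      rY rX rZ' ?_ t2)
    rwa [Nat.gcd_comm]
  · have h5 : (ev K (X * Y) P ^ 2)⁻¹ = 1 := by
      refine L11_arith _ (ev K X P ^ 2) (ev K Y P ^ 2) ?_ c a b _ pZ' pX pY rZ' rX rY ?_ ?_
      · rw [mul_comm (ev K (X * Y) P ^ 2)⁻¹, mul_assoc, mul_comm _ (ev K Y P ^ 2), ← mul_assoc]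
        exact hprod
      · rwa [Nat.gcd_comm]
      · rwa [Nat.gcd_comm]
    exact kZ (inv_eq_one.1 h5)

lemma L11_main {a b c : ℕ} (ha0 : 0 < a) (hb0 : 0 < b) (hc0 : 0 < c)
    (hp : ∀ p : ℕ, p.Prime → p ∣ Fintype.card F → a < p ∧ b < p ∧ c < p ∧ 5 < p)
    (hT : TriCond (Fintype.card F) a b c) {X Y : SL(2, F)} (hXa : Cen (X ^ a))
    (hYb : Cen (Y ^ b)) (hZc : Cen ((X * Y) ^ c))
    (hgen : Subgroup.closure {X, Y, -1} ≠ ⊤) : X * Y = Y * X := by
  classical
  by_contra hXY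
  obtain ⟨nX, nY, nZ⟩ := L11_noncen hXY
  have ha : (a : F) ≠ 0 := L11_cast_ne a ha0 fun p h1 h2 => (hp p h1 h2).1
  have hb : (b : F) ≠ 0 := L11_cast_ne b hb0 fun p h1 h2 => (hp p h1 h2).2.1
  have hc : (c : F) ≠ 0 := L11_cast_ne c hc0 fun p h1 h2 => (hp p h1 h2).2.2.1
  have h2 : (2 : F) ≠ 0 := by
    have := L11_cast_ne (F := F) 2 (by norm_num) fun p h1 h2 => by
      have := (hp p h1 h2).2.2.2
      omega
    exact_mod_cast this
  set H := Subgroup.closure ({X, Y, -1} : Set SL(2, F)) with hH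
  have hXH : X ∈ H := Subgroup.subset_closure (by simp)
  have hYH : Y ∈ H := Subgroup.subset_closure (by simp)
  have h1H : (-1 : SL(2, F)) ∈ H := Subgroup.subset_closure (by simp)
  have hZH : X * Y ∈ H := H.mul_mem hXH hYH
  rcases dickson F (AlgebraicClosure F) H h1H with ⟨P, hP⟩ | ⟨P, Q, hPQ, hP⟩ | h240 |
      ⟨v, j, e, hv, hj, hq, he, hcard, -⟩ | htop
  · exact L11_case1 (AlgebraicClosure F) h2 ha hb hc hT.torus hXa hYb hZc hXY P (hP X hXH)
      (hP Y hYH)
  · obtain ⟨o1, o2, o3⟩ := hT.odd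
    rcases hP X hXH with ⟨x1, x2⟩ | ⟨x1, x2⟩ <;> rcases hP Y hYH with ⟨y1, y2⟩ | ⟨y1, y2⟩
    · exact L11_case1 (AlgebraicClosure F) h2 ha hb hc hT.torus hXa hYb hZc hXY P x1 y1
    · have e1 := L11_even Y nY (L11_swap _ Y nY P Q hPQ y1 y2) b hYb
      have e2 := L11_even (X * Y) nZ (L11_swap _ (X * Y) nZ P Q hPQ (by rw [act_mul, y1, x2])
        (by rw [act_mul, y2, x1])) c hZc
      tauto
    · have e1 := L11_even X nX (L11_swap _ X nX P Q hPQ x1 x2) a hXa
      have e2 := L11_even (X * Y) nZ (L11_swap _ (X * Y) nZ P Q hPQ (by rw [act_mul, y1, x1])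
        (by rw [act_mul, y2, x2])) c hZc
      tauto
    · have e1 := L11_even X nX (L11_swap _ X nX P Q hPQ x1 x2) a hXa
      have e2 := L11_even Y nY (L11_swap _ Y nY P Q hPQ y1 y2) b hYb
      tauto
  · have key : ∀ (A : SL(2, F)) (n : ℕ), A ∈ H → ¬ Cen A → Cen (A ^ n) →
        ¬ Nat.Coprime n (Nat.gcd 30 (Fintype.card F * (Fintype.card F ^ 2 - 1))) := by
      intro A n hA nA hAn
      refine L11_prime A nA n _ hAn ?_
      intro r hr hrA
      apply Nat.dvd_gcd
      · have h3 : r ∣ 30 * 2 ^ 3 := by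
          have : orderOf A ∣ Nat.card H := Subgroup.orderOf_dvd_natCard H hA
          exact (hrA.trans this).trans h240
        rcases (Nat.Prime.dvd_mul hr).1 h3 with h4 | h4
        · exact h4
        · exact (hr.dvd_of_dvd_pow h4).trans (by norm_num)
      · rw [← L11_card_sl]
        exact hrA.trans orderOf_dvd_card
    rcases hT.thirty with h3 | h3 | h3
    · exact key X a hXH nX hXa h3
    · exact key Y b hYH nY hYb h3
    · exact key (X * Y) c hZH nZ hZc h3
  · have key : ∀ (A : SL(2, F)) (n : ℕ), A ∈ H → ¬ Cen A → Cen (A ^ n) →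
        ¬ Nat.Coprime n (v * (v ^ 2 - 1)) := by
      intro A n hA nA hAn
      refine L11_prime A nA n _ hAn ?_
      intro r hr hrA
      have hvv : v * (v ^ 2 - 1) = v * (v + 1) * (v - 1) := by
        have : v ^ 2 - 1 = (v + 1) * (v - 1) := by
          have := Nat.sq_sub_sq v 1
          simpa using this
        rw [this, mul_assoc]
      have h3 : orderOf A ∣ Nat.card H := Subgroup.orderOf_dvd_natCard H hA
      have h4 := hrA.trans h3
      have h5 : v * (v + 1) * e ∣ v * (v ^ 2 - 1) := by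
        rw [hvv]
        exact Nat.mul_dvd_mul_left _ he
      rcases hcard with h6 | h6
      · rw [h6] at h4
        exact h4.trans h5
      · rw [h6] at h4
        rcases (Nat.Prime.dvd_mul hr).1 h4 with h7 | h7
        · rw [hvv]
          exact h7.trans (Dvd.dvd.mul_right (Nat.even_mul_succ_self v).two_dvd _)
        · exact h7.trans h5
    rcases hT.subfield v j hj hq with h3 | h3 | h3
    · exact key X a hXH nX hXa h3
    · exact key Y b hYH nY hYb h3
    · exact key (X * Y) c hZH nZ hZc h3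
  · exact hgen htop

end L11d

section L11e

variable {F : Type} [Field F] [Fintype F] [DecidableEq F]

open scoped Classical in
lemma L11_cnt1 (b : ℕ) (hb : 0 < b) : (univ.filter fun Y : SL(2, F) => Cen (Y ^ b)).card ≤
    2 * Fintype.card F * Fintype.card F * (2 * b) := by
  refine (Finset.card_le_mul_card_image (f := tr) _ (2 * Fintype.card F * Fintype.card F) ?_).trans
    (Nat.mul_le_mul_left _ ?_)
  · intro t _
    refine le_trans (Finset.card_le_card ?_) (card_tr_le t)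
    intro B hB
    simp only [mem_filter, mem_univ, true_and] at hB ⊢
    exact hB.2
  · refine le_trans (Finset.card_le_card ?_) (tset_card F b hb)
    intro t ht
    simp only [mem_image, mem_filter, mem_univ, true_and] at ht ⊢
    obtain ⟨X, hX, hXt⟩ := ht
    exact ⟨X, hXt, hX⟩

open scoped Classical in
lemma L11_cnt2 (h2 : (2 : F) ≠ 0) (a b : ℕ) (ha : (a : F) ≠ 0) (hb : 0 < b) (X : SL(2, F))
    (hX : ¬ Cen X) (hXa : Cen (X ^ a)) :
    (univ.filter fun Y : SL(2, F) => X * Y = Y * X ∧ Cen (Y ^ b)).card ≤ 2 * b := by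
  have ht : (tr X) ^ 2 ≠ 4 := fun h => ha (L11_unip h2 X h hX a hXa)
  obtain ⟨x, x', hxx, hfix⟩ := fix_semi (AlgebraicClosure F) X ht
  have hx := (hfix x).2 (Or.inl rfl)
  have hx' := (hfix x').2 (Or.inr rfl)
  have hle : ((Polynomial.nthRoots (2 * b) (1 : AlgebraicClosure F)).toFinset).card ≤ 2 * b :=
    (Multiset.toFinset_card_le _).trans (Polynomial.card_nthRoots _ _)
  refine le_trans (Finset.card_le_card_of_injOn (fun Y => ev (AlgebraicClosure F) Y x) ?_ ?_) hle
  · intro Y hY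
    simp only [coe_filter, mem_univ, true_and, Set.mem_ofPred_eq] at hY
    simp only [Multiset.mem_toFinset, Finset.mem_coe]
    rw [Polynomial.mem_nthRoots (by omega)]
    have hYx := L11_par_fix (AlgebraicClosure F) X Y hX hY.1 x hx
    have := L11_mu_pow (AlgebraicClosure F) Y x hYx b hY.2
    rwa [← pow_mul] at this
  · intro Y hY Y' hY' h
    simp only [coe_filter, mem_univ, true_and, Set.mem_ofPred_eq] at hY hY'
    exact L11_inj (AlgebraicClosure F) h2 x x' hxx Y Y'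
      (L11_par_fix _ X Y hX hY.1 x hx) (L11_par_fix _ X Y hX hY.1 x' hx')
      (L11_par_fix _ X Y' hX hY'.1 x hx) (L11_par_fix _ X Y' hX hY'.1 x' hx') h

open scoped Classical in
lemma L11_cnt (h2 : (2 : F) ≠ 0) (a b : ℕ) (ha : (a : F) ≠ 0) (ha0 : 0 < a) (hb : 0 < b) :
    (univ.filter fun t : SL(2, F) × SL(2, F) =>
      t.1 * t.2 = t.2 * t.1 ∧ Cen (t.1 ^ a) ∧ Cen (t.2 ^ b)).card ≤
    (8 * b + 8 * a * b) * Fintype.card F ^ 2 := by
  set q := Fintype.card F with hq
  have hsub : (univ.filter fun t : SL(2, F) × SL(2, F) =>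
      t.1 * t.2 = t.2 * t.1 ∧ Cen (t.1 ^ a) ∧ Cen (t.2 ^ b)) ⊆
      (({1, -1} : Finset SL(2, F)) ×ˢ (univ.filter fun Y : SL(2, F) => Cen (Y ^ b))) ∪
      (univ.filter fun t : SL(2, F) × SL(2, F) => (¬ Cen t.1 ∧ Cen (t.1 ^ a)) ∧
        (t.1 * t.2 = t.2 * t.1 ∧ Cen (t.2 ^ b))) := by
    intro t ht
    simp only [mem_filter, mem_univ, true_and, mem_union, mem_product, mem_insert,
      mem_singleton] at ht ⊢
    by_cases h : Cen t.1
    · exact Or.inl ⟨h, ht.2.2⟩
    · exact Or.inr ⟨⟨h, ht.2.1⟩, ht.1, ht.2.2⟩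
  refine (Finset.card_le_card hsub).trans ((Finset.card_union_le _ _).trans ?_)
  have h3 : (({1, -1} : Finset SL(2, F)) ×ˢ (univ.filter fun Y : SL(2, F) => Cen (Y ^ b))).card ≤
      2 * (2 * q * q * (2 * b)) := by
    rw [Finset.card_product]
    exact Nat.mul_le_mul Finset.card_le_two (L11_cnt1 b hb)
  have h4 : (univ.filter fun t : SL(2, F) × SL(2, F) => (¬ Cen t.1 ∧ Cen (t.1 ^ a)) ∧
        (t.1 * t.2 = t.2 * t.1 ∧ Cen (t.2 ^ b))).card ≤ (2 * b) * (2 * q * q * (2 * a)) := by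
    refine (Finset.card_le_mul_card_image (f := Prod.fst) _ (2 * b) ?_).trans
      (Nat.mul_le_mul_left _ ?_)
    · intro X hX
      simp only [mem_image, mem_filter, mem_univ, true_and] at hX
      obtain ⟨t, ⟨⟨h5, h6⟩, -⟩, rfl⟩ := hX
      refine le_trans ?_ (L11_cnt2 h2 a b ha hb t.1 h5 h6)
      apply Finset.card_le_card_of_injOn Prod.snd
      · intro s hs
        simp only [coe_filter, mem_filter, mem_univ, true_and, Set.mem_ofPred_eq] at hs ⊢
        rw [← hs.2]
        exact hs.1.2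
      · intro s hs s' hs' h
        simp only [coe_filter, mem_filter, mem_univ, true_and, Set.mem_ofPred_eq] at hs hs'
        exact Prod.ext (hs.2.trans hs'.2.symm) h
    · refine le_trans (Finset.card_le_card ?_) (L11_cnt1 a ha0)
      intro X hX
      simp only [mem_image, mem_filter, mem_univ, true_and] at hX ⊢
      obtain ⟨t, ⟨⟨-, h6⟩, -⟩, rfl⟩ := hX
      exact h6
  calc _ ≤ 2 * (2 * q * q * (2 * b)) + (2 * b) * (2 * q * q * (2 * a)) := add_le_add h3 h4
    _ = (8 * b + 8 * a * b) * q ^ 2 := by ring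

end L11e

open scoped Classical in

theorem tri_bad (a b c : ℕ) (ha : 0 < a) (hb : 0 < b) (hc : 0 < c) : ∃ C : ℝ, 0 < C ∧
    ∀ (F : Type) [Field F] [Fintype F] [DecidableEq F] [Fintype PSL(2, F)] [DecidableEq PSL(2, F)],
      7 ≤ Fintype.card F →
      (∀ p : ℕ, p.Prime → p ∣ Fintype.card F → a < p ∧ b < p ∧ c < p ∧ 5 < p) →
      ¬ Nat.Coprime a (Fintype.card PSL(2, F)) →
      ¬ Nat.Coprime b (Fintype.card PSL(2, F)) → ¬ Nat.Coprime c (Fintype.card PSL(2, F)) →
      TriCond (Fintype.card F) a b c →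
      (((O0set PSL(2, F) [a, b, c]).filter fun t => ¬ O0gen t).card : ℝ) ≤ C * (Fintype.card F : ℝ) ^ 2 := by
  refine ⟨8 * b + 8 * a * b, by positivity, ?_⟩
  intro F _ _ _ _ _ _ hp _ _ _ hT
  have h2 : (2 : F) ≠ 0 := by
    have := L11_cast_ne (F := F) 2 (by norm_num) fun p h1 h2 => by
      have := (hp p h1 h2).2.2.2
      omega
    exact_mod_cast this
  have haF : (a : F) ≠ 0 := L11_cast_ne a ha fun p h1 h2 => (hp p h1 h2).1
  let π : SL(2, F) →* PSL(2, F) := QuotientGroup.mk' _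
  have hπ : Function.Surjective π := QuotientGroup.mk'_surjective _
  have hker : ∀ Z : SL(2, F), π Z = 1 ↔ Cen Z := by
    intro Z
    rw [← mem_center_iff']
    exact QuotientGroup.eq_one_iff Z
  have hsub : ((O0set PSL(2, F) [a, b, c]).filter fun t => ¬ O0gen t) ⊆
      (univ.filter fun t : SL(2, F) × SL(2, F) =>
        t.1 * t.2 = t.2 * t.1 ∧ Cen (t.1 ^ a) ∧ Cen (t.2 ^ b)).image
        (fun t => [π t.1, π t.2, (π t.1 * π t.2)⁻¹]) := by
    intro l hl
    rw [mem_filter, O0set, mem_filter] at hl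
    obtain ⟨⟨hl, hprod⟩, hgen⟩ := hl
    simp only [XS, Finset.mem_image₂, tor, mem_filter, mem_univ, true_and, mem_singleton] at hl
    obtain ⟨x, hx, l1, ⟨y, hy, l2, ⟨z, hz, l3, hl3, rfl⟩, rfl⟩, rfl⟩ := hl
    subst hl3
    simp only [List.prod_cons, List.prod_nil, mul_one] at hprod
    have hz' : z = (x * y)⁻¹ := by
      rw [← mul_assoc] at hprod
      exact (inv_eq_of_mul_eq_one_right hprod).symm
    obtain ⟨X, rfl⟩ := hπ x
    obtain ⟨Y, rfl⟩ := hπ y
    have hXa : Cen (X ^ a) := by rw [← hker, map_pow]; exact hx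
    have hYb : Cen (Y ^ b) := by rw [← hker, map_pow]; exact hy
    have hZc : Cen ((X * Y) ^ c) := by
      rw [← hker, map_pow, map_mul]
      rw [hz', inv_pow] at hz
      exact inv_eq_one.1 hz
    rw [mem_image]
    refine ⟨(X, Y), ?_, by rw [hz']⟩
    rw [mem_filter]
    refine ⟨mem_univ _, ?_, hXa, hYb⟩
    apply L11_main ha hb hc hp hT hXa hYb hZc
    intro htop
    apply hgen
    unfold O0gen
    rw [eq_top_iff]
    intro g _
    obtain ⟨A, rfl⟩ := hπ g
    have hA : A ∈ Subgroup.closure ({X, Y, -1} : Set SL(2, F)) := by rw [htop]; trivial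
    induction hA using Subgroup.closure_induction with
    | mem A hA =>
      rcases hA with rfl | rfl | rfl
      · exact Subgroup.subset_closure (by simp)
      · exact Subgroup.subset_closure (by simp)
      · have : π (-1) = 1 := (hker _).2 (Or.inr rfl)
        rw [this]
        exact Subgroup.one_mem _
    | one => rw [map_one]; exact Subgroup.one_mem _
    | mul A B _ _ hA hB => rw [map_mul]; exact Subgroup.mul_mem _ (hA trivial) (hB trivial)
    | inv A _ hA => rw [map_inv]; exact Subgroup.inv_mem _ (hA trivial)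
  have hle := (Finset.card_le_card hsub).trans
    (Finset.card_image_le.trans (L11_cnt h2 a b haF ha hb))
  have : (((O0set PSL(2, F) [a, b, c]).filter fun t => ¬ O0gen t).card : ℝ) ≤
      (((8 * b + 8 * a * b) * Fintype.card F ^ 2 : ℕ) : ℝ) := by exact_mod_cast hle
  refine this.trans (le_of_eq ?_)
  push_cast
  ring

end Pool.Agent.Helper669_gp.L11
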