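import Mathlib
import Pool.Agent.Helper669_gp.Ifc
import Pool.Agent.Helper669_gp.J01
import Pool.Agent.Helper669_gp.L02
import Pool.Agent.Helper669_gp.L06
import Pool.Agent.Helper669_gp.L07
import Pool.Agent.Helper669_gp.L08
import Pool.Agent.Helper669_gp.L09
import Pool.Agent.Helper669_gp.L10
import Pool.Agent.Helper669_gp.L11
import Pool.Agent.Helper669_gp.Fam

/-!
Three periods, genus zero: uniform estimates.
-/

namespace Pool.Agent.Helper669_gp

open scoped MatrixGroups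
open Finset

/-- all primes dividing `q` are large, or one of them is small -/
lemma big_or_small (a b c q : ℕ) :
    (∃ p : ℕ, p.Prime ∧ p ∣ q ∧ p ≤ a + b + c + 5) ∨
    (∀ p : ℕ, p.Prime → p ∣ q → a < p ∧ b < p ∧ c < p ∧ 5 < p) := by
  by_cases h : ∃ p : ℕ, p.Prime ∧ p ∣ q ∧ p ≤ a + b + c + 5
  · exact Or.inl h
  · right
    intro p hp hpq
    have : ¬ p ≤ a + b + c + 5 := fun h' => h ⟨p, hp, hpq, h'⟩
    omega

theorem tri_upos (a b c : ℕ) (ha : 0 < a) (hb : 0 < b) (hc : 0 < c) (ε : ℝ) (hε : 0 < ε) :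
    ∃ N : ℕ, ∀ (F : Type) [Field F] [Fintype F] [DecidableEq F] [Fintype PSL(2, F)]
      [DecidableEq PSL(2, F)], N ≤ Fintype.card F →
      ¬ Nat.Coprime a (Fintype.card PSL(2, F)) →
      ¬ Nat.Coprime b (Fintype.card PSL(2, F)) → ¬ Nat.Coprime c (Fintype.card PSL(2, F)) →
      TriCond (Fintype.card F) a b c → 0 < totC Kind.oriented 0 0 PSL(2, F) [a, b, c] →
      (badC Kind.oriented 0 0 PSL(2, F) [a, b, c] : ℝ) <
        ε * (totC Kind.oriented 0 0 PSL(2, F) [a, b, c] : ℝ) := by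
  obtain ⟨N₁, h₁⟩ := L02.tri_small a b c (a + b + c + 5) ha hb hc
  obtain ⟨C₁, hC₁, h₂⟩ := L10.tri_total a b c ha hb hc
  obtain ⟨C₂, hC₂, h₃⟩ := L11.tri_bad a b c ha hb hc
  refine ⟨max (max N₁ 7) (⌈C₁ * C₂ / ε⌉₊ + 1), ?_⟩
  intro F _ _ _ _ _ hN h5 h6 h7 hT htot
  have hN1 : N₁ ≤ Fintype.card F := le_trans (le_trans (le_max_left _ _) (le_max_left _ _)) hN
  have hN7 : 7 ≤ Fintype.card F := le_trans (le_trans (le_max_right _ _) (le_max_left _ _)) hN
  have hNc : ⌈C₁ * C₂ / ε⌉₊ + 1 ≤ Fintype.card F := le_trans (le_max_right _ _) hN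
  rcases big_or_small a b c (Fintype.card F) with hs | hs
  · exact absurd hT (h₁ F hN1 hs h5 h6 h7).1
  · have h8 := h₂ F hN7 hs h5 h6 h7
    have h9 : (badC Kind.oriented 0 0 PSL(2, F) [a, b, c] : ℝ) ≤ C₂ * (Fintype.card F : ℝ) ^ 2 :=
      h₃ F hN7 hs h5 h6 h7 hT
    have htot' : (0 : ℝ) < (totC Kind.oriented 0 0 PSL(2, F) [a, b, c] : ℝ) := by
      exact_mod_cast htot
    have h8' : (Fintype.card F : ℝ) ^ 3 ≤
        C₁ * (totC Kind.oriented 0 0 PSL(2, F) [a, b, c] : ℝ) := h8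
    set tot : ℝ := (totC Kind.oriented 0 0 PSL(2, F) [a, b, c] : ℝ)
    set bad : ℝ := (badC Kind.oriented 0 0 PSL(2, F) [a, b, c] : ℝ)
    have hq : C₁ * C₂ / ε < (Fintype.card F : ℝ) := by
      have h2 := Nat.le_ceil (C₁ * C₂ / ε)
      have h3 : ((⌈C₁ * C₂ / ε⌉₊ + 1 : ℕ) : ℝ) ≤ (Fintype.card F : ℝ) := by exact_mod_cast hNc
      push_cast at h3
      linarith
    set q : ℝ := (Fintype.card F : ℝ)
    have hq0 : 0 < q := lt_trans (by positivity) hq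
    rw [div_lt_iff₀ hε] at hq
    -- bad * q ≤ C₂ q^3 ≤ C₁ C₂ tot < ε q tot
    have h10 : bad * q < ε * tot * q := by
      calc bad * q ≤ C₂ * q ^ 2 * q := mul_le_mul_of_nonneg_right h9 hq0.le
        _ = C₂ * q ^ 3 := by ring
        _ ≤ C₂ * (C₁ * tot) := mul_le_mul_of_nonneg_left h8' hC₂.le
        _ = (C₁ * C₂) * tot := by ring
        _ < (q * ε) * tot := mul_lt_mul_of_pos_right hq htot'
        _ = ε * tot * q := by ring
    exact lt_of_mul_lt_mul_right h10 hq0.le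

theorem tri_uneg (a b c : ℕ) (ha : 0 < a) (hb : 0 < b) (hc : 0 < c) : ∃ k : ℝ, 0 < k ∧
    ∃ N : ℕ, ∀ (F : Type) [Field F] [Fintype F] [DecidableEq F] [Fintype PSL(2, F)]
      [DecidableEq PSL(2, F)], N ≤ Fintype.card F →
      ¬ Nat.Coprime a (Fintype.card PSL(2, F)) →
      ¬ Nat.Coprime b (Fintype.card PSL(2, F)) → ¬ Nat.Coprime c (Fintype.card PSL(2, F)) →
      ¬ TriCond (Fintype.card F) a b c →
      k * (totC Kind.oriented 0 0 PSL(2, F) [a, b, c] : ℝ) ≤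
        (badC Kind.oriented 0 0 PSL(2, F) [a, b, c] : ℝ) := by
  obtain ⟨N₁, h₁⟩ := L02.tri_small a b c (a + b + c + 5) ha hb hc
  obtain ⟨C₁, hC₁, h₂⟩ := L06.tri_neg_T1 a b c ha hb hc
  obtain ⟨C₂, hC₂, h₃⟩ := L09.tri_neg_T2 a b c ha hb hc
  obtain ⟨C₃, hC₃, h₄⟩ := L07.tri_neg_T3 a b c ha hb hc
  obtain ⟨C₄, hC₄, h₅⟩ := L08.tri_neg_T4 a b c ha hb hc
  obtain ⟨C₀, hC₀, h₀⟩ := iface_psl {a, b, c} (by
    intro m hm
    simp only [mem_insert, mem_singleton] at hm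
    rcases hm with rfl | rfl | rfl <;> assumption)
  have hD : 0 < (2 * C₀) ^ 3 * (C₁ + C₂ + C₃ + C₄) + 1 := by positivity
  refine ⟨((2 * C₀) ^ 3 * (C₁ + C₂ + C₃ + C₄) + 1)⁻¹, inv_pos.mpr hD, max N₁ 16, ?_⟩
  intro F _ _ _ _ _ hN h5 h6 h7 hT
  have hN1 : N₁ ≤ Fintype.card F := le_trans (le_max_left _ _) hN
  have hN16 : 16 ≤ Fintype.card F := le_trans (le_max_right _ _) hN
  rw [inv_mul_le_iff₀ hD]
  rcases big_or_small a b c (Fintype.card F) with hs | hs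
  · -- all tuples are bad
    have h8 := (h₁ F hN1 hs h5 h6 h7).2
    have h9 : badC Kind.oriented 0 0 PSL(2, F) [a, b, c] =
        totC Kind.oriented 0 0 PSL(2, F) [a, b, c] := by
      classical
      change (Finset.filter (fun t => ¬ O0gen t) (O0set PSL(2, F) [a, b, c])).card =
        (O0set PSL(2, F) [a, b, c]).card
      rw [Finset.filter_true_of_mem h8]
    rw [h9]
    have h10 : (0 : ℝ) ≤ (totC Kind.oriented 0 0 PSL(2, F) [a, b, c] : ℝ) := Nat.cast_nonneg _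
    have h11 : 0 ≤ (2 * C₀) ^ 3 * (C₁ + C₂ + C₃ + C₄) := by positivity
    nlinarith [mul_nonneg h11 h10]
  · have hI := h₀ F hN16
    have hup := (J01.cntA_upper hI [a, b, c] (by
      intro m hm
      simp only [List.mem_cons, List.not_mem_nil, or_false] at hm
      simp only [mem_insert, mem_singleton]; exact hm)).2.2 1 (Or.inl (by simp))
    have hr : Real.sqrt (Fintype.card F) ^ 6 = (Fintype.card F : ℝ) ^ 3 := by
      have : Real.sqrt (Fintype.card F) ^ 2 = (Fintype.card F : ℝ) :=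
        Real.sq_sqrt (Nat.cast_nonneg _)
      calc Real.sqrt (Fintype.card F) ^ 6 = (Real.sqrt (Fintype.card F) ^ 2) ^ 3 := by ring
        _ = (Fintype.card F : ℝ) ^ 3 := by rw [this]
    have hup' : (totC Kind.oriented 0 0 PSL(2, F) [a, b, c] : ℝ) ≤
        (2 * C₀) ^ 3 * (Fintype.card F : ℝ) ^ 3 := by
      have h1 : [a, b, c].length = 3 := rfl
      rw [h1, show 4 * 3 - 6 = 6 from rfl, hr] at hup
      exact hup
    have hbad0 : (0 : ℝ) ≤ (badC Kind.oriented 0 0 PSL(2, F) [a, b, c] : ℝ) := Nat.cast_nonneg _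
    -- `q ^ 3 ≤ (C₁ + C₂ + C₃ + C₄) bad`
    have key : (Fintype.card F : ℝ) ^ 3 ≤
        (C₁ + C₂ + C₃ + C₄) * (badC Kind.oriented 0 0 PSL(2, F) [a, b, c] : ℝ) := by
      have up : ∀ c' : ℝ, c' ≤ C₁ + C₂ + C₃ + C₄ → (Fintype.card F : ℝ) ^ 3 ≤
          c' * (badC Kind.oriented 0 0 PSL(2, F) [a, b, c] : ℝ) → (Fintype.card F : ℝ) ^ 3 ≤
          (C₁ + C₂ + C₃ + C₄) * (badC Kind.oriented 0 0 PSL(2, F) [a, b, c] : ℝ) :=
        fun c' hc' h => h.trans (mul_le_mul_of_nonneg_right hc' hbad0)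
      by_cases t1 : (Odd a ∨ Odd b) ∧ (Odd a ∨ Odd c) ∧ (Odd b ∨ Odd c)
      · by_cases t2 : Nat.Coprime a (Nat.gcd 30 (Fintype.card F * (Fintype.card F ^ 2 - 1))) ∨
            Nat.Coprime b (Nat.gcd 30 (Fintype.card F * (Fintype.card F ^ 2 - 1))) ∨
            Nat.Coprime c (Nat.gcd 30 (Fintype.card F * (Fintype.card F ^ 2 - 1)))
        · by_cases t3 : (Nat.Coprime (Nat.gcd a b) (Fintype.card F - 1) ∧
              Nat.Coprime (Nat.gcd a c) (Fintype.card F - 1)) ∨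
            (Nat.Coprime (Nat.gcd a b) (Fintype.card F - 1) ∧
              Nat.Coprime (Nat.gcd b c) (Fintype.card F - 1)) ∨
            (Nat.Coprime (Nat.gcd a c) (Fintype.card F - 1) ∧
              Nat.Coprime (Nat.gcd b c) (Fintype.card F - 1))
          · have t4 : ¬ (∀ v j : ℕ, 1 < j → Fintype.card F = v ^ j →
                Nat.Coprime a (v * (v ^ 2 - 1)) ∨ Nat.Coprime b (v * (v ^ 2 - 1)) ∨
                  Nat.Coprime c (v * (v ^ 2 - 1))) := fun h => hT ⟨t1, t2, t3, h⟩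
            exact up C₄ (by linarith) (h₅ F (by omega) hs h5 h6 h7 t4)
          · exact up C₃ (by linarith) (h₄ F (by omega) hs h5 h6 h7 t1 t3)
        · exact up C₂ (by linarith) (h₃ F (by omega) hs h5 h6 h7 t1 t2)
      · exact up C₁ (by linarith) (h₂ F (by omega) hs h5 h6 h7 t1)
    calc (totC Kind.oriented 0 0 PSL(2, F) [a, b, c] : ℝ)
        ≤ (2 * C₀) ^ 3 * (Fintype.card F : ℝ) ^ 3 := hup'
      _ ≤ (2 * C₀) ^ 3 * ((C₁ + C₂ + C₃ + C₄) *
          (badC Kind.oriented 0 0 PSL(2, F) [a, b, c] : ℝ)) :=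
        mul_le_mul_of_nonneg_left key (by positivity)
      _ ≤ ((2 * C₀) ^ 3 * (C₁ + C₂ + C₃ + C₄) + 1) *
          (badC Kind.oriented 0 0 PSL(2, F) [a, b, c] : ℝ) := by nlinarith

end Pool.Agent.Helper669_gp
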