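import Mathlib
import Pool.Agent.Helper669_gp.Ifc
import Pool.Agent.Helper669_gp.J03
import Pool.Agent.Helper669_gp.J04
import Pool.Agent.Helper669_gp.J05
import Pool.Agent.Helper669_gp.J06
import Pool.Agent.Helper669_gp.J07
import Pool.Agent.Helper669_gp.J09
import Pool.Agent.Helper669_gp.K09
import Pool.Agent.Helper669_gp.K10
import Pool.Agent.Helper669_gp.Tri

/-!
Uniform estimates over all finite fields for a fixed list of periods.
-/

namespace Pool.Agent.Helper669_gp

open scoped MatrixGroups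
open Finset

lemma close_pos (bad tot q : ℕ) (K ε : ℝ) (hK : 0 < K) (hε : 0 < ε)
    (hq : ⌈(K / ε) ^ 2⌉₊ + 1 ≤ q) (htot : 0 < tot)
    (h : (bad : ℝ) * Real.sqrt q ≤ K * tot) : (bad : ℝ) < ε * tot := by
  have h1 : (K / ε) ^ 2 < q := by
    have h2 := Nat.le_ceil ((K / ε) ^ 2)
    have h3 : ((⌈(K / ε) ^ 2⌉₊ + 1 : ℕ) : ℝ) ≤ (q : ℝ) := by exact_mod_cast hq
    push_cast at h3
    linarith
  have h4 : K / ε < Real.sqrt q := Real.lt_sqrt_of_sq_lt h1
  have h5 : 0 < Real.sqrt q := lt_trans (by positivity) h4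
  have h6 : K < ε * Real.sqrt q := by
    rw [div_lt_iff₀ hε] at h4
    linarith
  have h7 : (0 : ℝ) < tot := by exact_mod_cast htot
  have h8 : (bad : ℝ) * Real.sqrt q < ε * tot * Real.sqrt q := by
    calc (bad : ℝ) * Real.sqrt q ≤ K * tot := h
      _ < (ε * Real.sqrt q) * tot := mul_lt_mul_of_pos_right h6 h7
      _ = ε * tot * Real.sqrt q := by ring
  exact lt_of_mul_lt_mul_right h8 h5.le

lemma abs_to_psl (ms : List ℕ) (hms : ∀ m ∈ ms, 0 < m) : ∃ C : ℝ, ∃ N : ℕ,
    ∀ (F : Type) [Field F] [Fintype F] [DecidableEq F] [Fintype PSL(2, F)] [DecidableEq PSL(2, F)],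
      N ≤ Fintype.card F →
      IFace PSL(2, F) (insert 2 ms.toFinset) (Real.sqrt (Fintype.card F)) C ∧
      2 * C ≤ Real.sqrt (Fintype.card F) ∧ 16 ≤ Fintype.card F := by
  obtain ⟨C, hC, h⟩ := iface_psl (insert 2 ms.toFinset) (by
    intro m hm
    rw [mem_insert, List.mem_toFinset] at hm
    rcases hm with rfl | hm
    · norm_num
    · exact hms m hm)
  refine ⟨C, max 16 ⌈(2 * C) ^ 2⌉₊, ?_⟩
  intro F _ _ _ _ _ hN
  have h16 : 16 ≤ Fintype.card F := le_trans (le_max_left _ _) hN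
  refine ⟨h F h16, ?_, h16⟩
  apply Real.le_sqrt_of_sq_le
  have h2 := Nat.le_ceil ((2 * C) ^ 2)
  have h3 : ((⌈(2 * C) ^ 2⌉₊ : ℕ) : ℝ) ≤ (Fintype.card F : ℝ) := by
    exact_mod_cast le_trans (le_max_right _ _) hN
  linarith

/-- uniform positive statement -/
def UPos (kind : Kind) (genus s : ℕ) (ms : List ℕ) (ε : ℝ) (N : ℕ) : Prop :=
  ∀ (F : Type) [Field F] [Fintype F] [DecidableEq F] [Fintype PSL(2, F)] [DecidableEq PSL(2, F)],
    N ≤ Fintype.card F → (∀ m ∈ ms, ¬ Nat.Coprime m (Fintype.card PSL(2, F))) →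
    Cond kind genus s (Fintype.card F) ms → 0 < totC kind genus s PSL(2, F) ms →
    (badC kind genus s PSL(2, F) ms : ℝ) < ε * (totC kind genus s PSL(2, F) ms : ℝ)

/-- uniform negative statement -/
def UNeg (kind : Kind) (genus s : ℕ) (ms : List ℕ) (c : ℝ) (N : ℕ) : Prop :=
  ∀ (F : Type) [Field F] [Fintype F] [DecidableEq F] [Fintype PSL(2, F)] [DecidableEq PSL(2, F)],
    N ≤ Fintype.card F → (∀ m ∈ ms, ¬ Nat.Coprime m (Fintype.card PSL(2, F))) →
    ¬ Cond kind genus s (Fintype.card F) ms →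
    c * (totC kind genus s PSL(2, F) ms : ℝ) ≤ (badC kind genus s PSL(2, F) ms : ℝ)

open scoped Classical in
lemma upos_fp (kind : Kind) (genus s s' : ℕ) (ms : List ℕ) (hms : ∀ m ∈ ms, 0 < m) (ε : ℝ)
    (hε : 0 < ε)
    (h1 : ∀ (G : Type) [Group G] [Fintype G] [DecidableEq G],
      totC kind genus s G ms = (FPset G s' ms).card)
    (h2 : ∀ (G : Type) [Group G] [Fintype G] [DecidableEq G], badC kind genus s G ms =
      ((FPset G s' ms).filter fun t => ¬ FPgen t).card)
    (h3 : ∀ q, Cond kind genus s q ms → (2 ≤ s' ∨ (s' = 1 ∧ 1 ≤ ms.length) ∨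
      (s' = 0 ∧ 3 ≤ ms.length) ∨ (s' = 0 ∧ ms.length = 2 ∧ ∃ n ∈ ms, Odd n))) :
    ∃ N, UPos kind genus s ms ε N := by
  obtain ⟨C, N₀, hC⟩ := abs_to_psl ms hms
  obtain ⟨K, hK, h⟩ := J03.fp_pos C s' ms
  refine ⟨max N₀ (⌈(K / ε) ^ 2⌉₊ + 1), ?_⟩
  intro F _ _ _ _ _ hN heff hcond htot
  obtain ⟨hI, h2C, -⟩ := hC F (le_trans (le_max_left _ _) hN)
  have h4 := h PSL(2, F) _ _ hI h2C (fun m hm => ⟨by
    rw [mem_insert, List.mem_toFinset]; exact Or.inr hm, heff m hm⟩) (h3 _ hcond)
  rw [h2 PSL(2, F), h1 PSL(2, F)]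
  rw [h1 PSL(2, F)] at htot
  exact close_pos _ _ _ K ε hK hε (le_trans (le_max_right _ _) hN) htot h4.2

theorem upos (kind : Kind) (genus s : ℕ) (ms : List ℕ) (hR : InRange kind genus)
    (hms : ∀ m ∈ ms, 0 < m) (ε : ℝ) (hε : 0 < ε) : ∃ N, UPos kind genus s ms ε N := by
  rcases hR with ⟨rfl, rfl | rfl⟩ | ⟨rfl, rfl | rfl⟩
  · -- oriented, genus 0
    rcases s with _ | s
    · by_cases hlen : ms.length = 3
      · obtain ⟨a, b, c, rfl⟩ := List.length_eq_three.mp hlen
        obtain ⟨N, hN⟩ := tri_upos a b c (hms a (by simp)) (hms b (by simp)) (hms c (by simp)) ε hε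
        refine ⟨N, ?_⟩
        intro F _ _ _ _ _ hNF heff hcond htot
        have hT : TriCond (Fintype.card F) a b c := by
          rcases hcond with h | h | ⟨a', b', c', he, hT⟩
          · simp at h
          · simp at h
          · simp only [List.cons.injEq, and_true] at he
            obtain ⟨rfl, rfl, rfl⟩ := he
            exact hT
        exact hN F hNF (heff a (by simp)) (heff b (by simp)) (heff c (by simp)) hT htot
      · obtain ⟨C, N₀, hC⟩ := abs_to_psl ms hms
        obtain ⟨K, hK, h⟩ := J04.o0_pos C ms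
        refine ⟨max N₀ (⌈(K / ε) ^ 2⌉₊ + 1), ?_⟩
        intro F _ _ _ _ _ hN heff hcond htot
        obtain ⟨hI, h2C, -⟩ := hC F (le_trans (le_max_left _ _) hN)
        have h4 := h PSL(2, F) _ _ hI h2C (fun m hm => ⟨by
          rw [mem_insert, List.mem_toFinset]; exact Or.inr hm, heff m hm⟩) (by
            rcases hcond with h | h | ⟨a, b, c, rfl, -⟩
            · exact Or.inl h
            · exact Or.inr h
            · exact absurd rfl hlen)
        exact close_pos _ _ _ K ε hK hε (le_trans (le_max_right _ _) hN) htot h4.2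
    · apply upos_fp Kind.oriented 0 (s + 1) s ms hms ε hε (fun G _ _ _ => rfl)
        (fun G _ _ _ => rfl)
      intro q hq
      rcases s with _ | _ | s
      · rcases hq with h | h
        · exact Or.inr (Or.inr (Or.inl ⟨rfl, h⟩))
        · exact Or.inr (Or.inr (Or.inr ⟨rfl, h⟩))
      · exact Or.inr (Or.inl ⟨rfl, hq⟩)
      · left; omega
  · -- oriented, genus 1
    rcases s with _ | s
    · by_cases hlen : ms.length = 1
      · obtain ⟨n, rfl⟩ := List.length_eq_one_iff.mp hlen
        obtain ⟨K, hK, N₀, h⟩ := K09.o1_one_pos n (hms n (by simp))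
        refine ⟨max N₀ (⌈(K / ε) ^ 2⌉₊ + 1), ?_⟩
        intro F _ _ _ _ _ hN heff hcond htot
        have hco : Nat.Coprime n (Fintype.card F) := by
          rcases hcond with h | h
          · simp at h
          · exact h.2 n (by simp)
        have h4 := h F (le_trans (le_max_left _ _) hN) (heff n (by simp)) hco
        exact close_pos _ _ _ K ε hK hε (le_trans (le_max_right _ _) hN) htot h4.2
      · obtain ⟨C, N₀, hC⟩ := abs_to_psl ms hms
        obtain ⟨K, hK, h⟩ := J05.o1_pos C ms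
        refine ⟨max N₀ (⌈(K / ε) ^ 2⌉₊ + 1), ?_⟩
        intro F _ _ _ _ _ hN heff hcond htot
        obtain ⟨hI, h2C, -⟩ := hC F (le_trans (le_max_left _ _) hN)
        have h4 := h PSL(2, F) _ _ hI h2C (fun m hm => ⟨by
          rw [mem_insert, List.mem_toFinset]; exact Or.inr hm, heff m hm⟩) (by
            rcases hcond with h | h
            · exact h
            · exact absurd h.1 hlen)
        exact close_pos _ _ _ K ε hK hε (le_trans (le_max_right _ _) hN) htot h4.2
    · apply upos_fp Kind.oriented 1 (s + 1) (s + 2) ms hms ε hε (fun G _ _ _ => rfl)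
        (fun G _ _ _ => rfl)
      intro q hq
      left; omega
  · -- non-oriented, genus 1
    rcases s with _ | s
    · obtain ⟨C, N₀, hC⟩ := abs_to_psl ms hms
      obtain ⟨K, hK, h⟩ := J06.n1_pos C ms
      refine ⟨max N₀ (⌈(K / ε) ^ 2⌉₊ + 1), ?_⟩
      intro F _ _ _ _ _ hN heff hcond htot
      obtain ⟨hI, h2C, -⟩ := hC F (le_trans (le_max_left _ _) hN)
      have h4 := h PSL(2, F) _ _ hI h2C (fun m hm => ⟨by
        rw [mem_insert, List.mem_toFinset]; exact Or.inr hm, heff m hm⟩) ⟨by simp, hcond⟩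
      exact close_pos _ _ _ K ε hK hε (le_trans (le_max_right _ _) hN) htot h4.2
    · apply upos_fp Kind.nonoriented 1 (s + 1) (s + 1) ms hms ε hε (fun G _ _ _ => rfl)
        (fun G _ _ _ => rfl)
      intro q hq
      rcases s with _ | s
      · exact Or.inr (Or.inl ⟨rfl, hq⟩)
      · left; omega
  · -- non-oriented, genus 2
    rcases s with _ | s
    · obtain ⟨C, N₀, hC⟩ := abs_to_psl ms hms
      obtain ⟨K, hK, h⟩ := J07.n2_pos C ms
      refine ⟨max N₀ (⌈(K / ε) ^ 2⌉₊ + 1), ?_⟩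
      intro F _ _ _ _ _ hN heff hcond htot
      obtain ⟨hI, h2C, -⟩ := hC F (le_trans (le_max_left _ _) hN)
      have h4 := h PSL(2, F) _ _ hI h2C (fun m hm => ⟨by
        rw [mem_insert, List.mem_toFinset]; exact Or.inr hm, heff m hm⟩) hcond
      exact close_pos _ _ _ K ε hK hε (le_trans (le_max_right _ _) hN) htot h4.2
    · apply upos_fp Kind.nonoriented 2 (s + 1) (s + 2) ms hms ε hε (fun G _ _ _ => rfl)
        (fun G _ _ _ => rfl)
      intro q hq
      left; omega

lemma uneg_abs (kind : Kind) (genus s : ℕ) (ms : List ℕ) (hms : ∀ m ∈ ms, 0 < m)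
    (h3 : ∀ q, ¬ Cond kind genus s q ms → J09.NegCond kind genus s ms) :
    ∃ c : ℝ, 0 < c ∧ ∃ N, UNeg kind genus s ms c N := by
  obtain ⟨C, N₀, hC⟩ := abs_to_psl ms hms
  obtain ⟨c, hc, h⟩ := J09.neg_abs C kind genus s ms
  refine ⟨c, hc, N₀, ?_⟩
  intro F _ _ _ _ _ hN heff hcond
  obtain ⟨hI, h2C, h16⟩ := hC F hN
  have h4 : 4 ≤ Nat.card F := by rw [Nat.card_eq_fintype_card]; omega
  exact h PSL(2, F) _ _ hI h2C (by simp) (two_ncoprime F)
    (Matrix.ProjectiveSpecialLinearGroup.rank_two_simple h4) (psl_nc F h4)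
    (fun m hm => ⟨by rw [mem_insert, List.mem_toFinset]; exact Or.inr hm, heff m hm⟩)
    (h3 _ hcond)

theorem uneg (kind : Kind) (genus s : ℕ) (ms : List ℕ) (hR : InRange kind genus)
    (hms : ∀ m ∈ ms, 0 < m) : ∃ c : ℝ, 0 < c ∧ ∃ N, UNeg kind genus s ms c N := by
  have hodd : (¬ ∃ n ∈ ms, Odd n) → ∀ n ∈ ms, Even n := by
    intro h n hn
    rw [← Nat.not_odd_iff_even]
    exact fun h' => h ⟨n, hn, h'⟩
  rcases hR with ⟨rfl, rfl | rfl⟩ | ⟨rfl, rfl | rfl⟩
  · rcases s with _ | s
    · by_cases hlen : ms.length = 3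
      · obtain ⟨a, b, c, rfl⟩ := List.length_eq_three.mp hlen
        obtain ⟨k, hk, N, hN⟩ :=
          tri_uneg a b c (hms a (by simp)) (hms b (by simp)) (hms c (by simp))
        refine ⟨k, hk, N, ?_⟩
        intro F _ _ _ _ _ hNF heff hcond
        refine hN F hNF (heff a (by simp)) (heff b (by simp)) (heff c (by simp)) ?_
        intro hT
        exact hcond (Or.inr (Or.inr ⟨a, b, c, rfl, hT⟩))
      · apply uneg_abs _ _ _ _ hms
        intro q hq
        have h1 : ¬ 5 ≤ ms.length := fun h => hq (Or.inl h)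
        have h2 : ¬ (ms.length = 4 ∧ ∃ n ∈ ms, Odd n) := fun h => hq (Or.inr (Or.inl h))
        by_cases h4 : ms.length = 4
        · right
          exact ⟨h4, hodd fun h => h2 ⟨h4, h⟩⟩
        · left; omega
    · rcases s with _ | _ | s
      · apply uneg_abs _ _ _ _ hms
        intro q hq
        have h1 : ¬ 3 ≤ ms.length := fun h => hq (Or.inl h)
        have h2 : ¬ (ms.length = 2 ∧ ∃ n ∈ ms, Odd n) := fun h => hq (Or.inr h)
        by_cases h4 : ms.length = 2
        · right
          exact ⟨h4, hodd fun h => h2 ⟨h4, h⟩⟩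
        · left; omega
      · apply uneg_abs _ _ _ _ hms
        intro q hq
        have h1 : ¬ 1 ≤ ms.length := hq
        change ms.length = 0
        omega
      · apply uneg_abs _ _ _ _ hms
        intro q hq
        exact absurd trivial hq
  · rcases s with _ | s
    · by_cases hlen : ms.length = 1
      · obtain ⟨n, rfl⟩ := List.length_eq_one_iff.mp hlen
        obtain ⟨k, hk, N, hN⟩ := K10.o1_one_neg n (hms n (by simp))
        refine ⟨k, hk, N, ?_⟩
        intro F _ _ _ _ _ hNF heff hcond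
        refine hN F hNF ?_
        intro hT
        apply hcond
        right
        exact ⟨rfl, by simpa using hT⟩
      · apply uneg_abs _ _ _ _ hms
        intro q hq
        have h1 : ¬ 2 ≤ ms.length := fun h => hq (Or.inl h)
        change ms.length = 0
        omega
    · apply uneg_abs _ _ _ _ hms
      intro q hq
      exact absurd trivial hq
  · rcases s with _ | s
    · apply uneg_abs _ _ _ _ hms
      intro q hq
      have h1 : ¬ 3 ≤ ms.length := fun h => hq (Or.inl h)
      have h2 : ¬ (ms.length = 2 ∧ ∃ n ∈ ms, Odd n) := fun h => hq (Or.inr h)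
      by_cases h4 : ms.length = 2
      · right
        exact ⟨h4, hodd fun h => h2 ⟨h4, h⟩⟩
      · left; omega
    · rcases s with _ | s
      · apply uneg_abs _ _ _ _ hms
        intro q hq
        have h1 : ¬ 1 ≤ ms.length := hq
        change ms.length = 0
        omega
      · apply uneg_abs _ _ _ _ hms
        intro q hq
        exact absurd trivial hq
  · rcases s with _ | s
    · apply uneg_abs _ _ _ _ hms
      intro q hq
      have h1 : ¬ 1 ≤ ms.length := hq
      change ms.length = 0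
      omega
    · apply uneg_abs _ _ _ _ hms
      intro q hq
      exact absurd trivial hq

/-- a common threshold for finitely many conditions -/
lemma common {α : Type} (Q : α → ℕ → Prop) (mono : ∀ a N N', N ≤ N' → Q a N → Q a N')
    (l : List α) (h : ∀ a ∈ l, ∃ N, Q a N) : ∃ N, ∀ a ∈ l, Q a N := by
  induction l with
  | nil => exact ⟨0, by simp⟩
  | cons a l ih =>
    obtain ⟨N₁, h₁⟩ := h a (by simp)
    obtain ⟨N₂, h₂⟩ := ih (fun b hb => h b (List.mem_cons_of_mem _ hb))
    refine ⟨max N₁ N₂, ?_⟩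
    intro b hb
    rcases List.mem_cons.mp hb with rfl | hb
    · exact mono _ _ _ (le_max_left _ _) h₁
    · exact mono _ _ _ (le_max_right _ _) (h₂ b hb)

lemma common' {α : Type} (Q : α → ℝ → ℕ → Prop)
    (mono : ∀ a c c' N N', 0 < c' → c' ≤ c → N ≤ N' → Q a c N → Q a c' N')
    (l : List α) (h : ∀ a ∈ l, ∃ c : ℝ, 0 < c ∧ ∃ N, Q a c N) :
    ∃ c : ℝ, 0 < c ∧ ∃ N, ∀ a ∈ l, Q a c N := by
  induction l with
  | nil => exact ⟨1, one_pos, 0, by simp⟩
  | cons a l ih =>
    obtain ⟨c₁, hc₁, N₁, h₁⟩ := h a (by simp)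
    obtain ⟨c₂, hc₂, N₂, h₂⟩ := ih (fun b hb => h b (List.mem_cons_of_mem _ hb))
    have hc : 0 < min c₁ c₂ := lt_min hc₁ hc₂
    refine ⟨min c₁ c₂, hc, max N₁ N₂, ?_⟩
    intro b hb
    rcases List.mem_cons.mp hb with rfl | hb
    · exact mono _ _ _ _ _ hc (min_le_left _ _) (le_max_left _ _) h₁
    · exact mono _ _ _ _ _ hc (min_le_right _ _) (le_max_right _ _) (h₂ b hb)

end Pool.Agent.Helper669_gp
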