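import Mathlib
import Pool.Agent.Helper669_gp.Uni
import Pool.Agent.Helper669_gp.J10
import Pool.Agent.Helper669_gp.J11
import Pool.Agent.Helper669_gp.J12

/-!
Complete classification of the good pairs `(Γ, S)`, where `Γ` is a Fuchsian group which is oriented
of genus `0` or `1` or non-oriented of genus `1` or `2`, and `S` is a set of pairwise
non-isomorphic finite simple groups of the form `PSL_2(q)`.
-/

namespace Pool.Agent.Helper669_gp

open scoped MatrixGroups

/-- Let `Γ` be a Fuchsian group, oriented of genus `0` or `1` or non-oriented of genus `1` or `2`,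
and let `S` be a set of pairwise non-isomorphic groups `PSL_2(q)` (they are simple for `q > 3`).
Then `(Γ, S)` is good if and only if the arithmetic condition `Cond` on `Γ` and `q` holds for all
but finitely many members `PSL_2(q)` of `S`. -/
theorem main (σ : Signature)
    (hσ : (σ.kind = Kind.oriented ∧ (σ.genus = 0 ∨ σ.genus = 1)) ∨
      (σ.kind = Kind.nonoriented ∧ (σ.genus = 1 ∨ σ.genus = 2)))
    (hm : ∀ i, 2 ≤ σ.m i)
    (S : Set GrpCat.{0})
    (hiso : ∀ G ∈ S, ∀ H ∈ S, Nonempty (G ≃* H) → G = H)
    (hS : ∀ G ∈ S, ∃ (F : Type) (_ : Field F), Finite F ∧ Nonempty (G ≃* PSL(2, F))) :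
    IsGood σ.Grp S ↔
      {G ∈ S | ¬ ∀ (F : Type) (_ : Field F), Finite F → Nonempty (G ≃* PSL(2, F)) →
        Cond σ.kind σ.genus σ.s (Nat.card F) (σ.eff (Nat.card G))}.Finite := by
  obtain ⟨kind, genus, d, m, s⟩ := σ
  have hR : InRange kind genus := hσ
  have hms : ∀ ms ∈ (List.ofFn m).sublists, ∀ n ∈ ms, 0 < n := by
    intro ms hms n hn
    rw [List.mem_sublists] at hms
    have h1 := hms.subset hn
    rw [List.mem_ofFn'] at h1
    obtain ⟨i, rfl⟩ := h1
    have := hm i
    simp only at this
    omega
  apply J12.final_of_uniform ⟨kind, genus, d, m, s⟩ ?_ ?_ S hiso hS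
  · intro ε hε
    obtain ⟨N, hN⟩ := common (fun ms N => UPos kind genus s ms ε N)
      (fun ms N N' hNN h F _ _ _ _ _ h1 => h F (hNN.trans h1)) (List.ofFn m).sublists
      (fun ms h => upos kind genus s ms hR (hms ms h) ε hε)
    refine ⟨N, ?_⟩
    intro F _ _ hNF hcond
    classical
    have : Fintype F := Fintype.ofFinite F
    have : Fintype PSL(2, F) := Fintype.ofFinite _
    obtain ⟨htot, hepi⟩ := J10.epiProb_eq kind genus d m s hR PSL(2, F)
    obtain ⟨h1, h2⟩ := J11.filter_eff kind genus s PSL(2, F) (List.ofFn m)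
    rw [hepi]
    rw [Nat.card_eq_fintype_card] at hNF
    have hc : Cond kind genus s (Fintype.card F)
        ((List.ofFn m).filter fun k => ¬ Nat.Coprime k (Fintype.card PSL(2, F))) := by
      simpa only [Signature.eff, Nat.card_eq_fintype_card] using hcond
    rw [h1] at htot ⊢
    rw [h2]
    have h3 := hN _ (List.mem_sublists.mpr List.filter_sublist) F hNF (by
      intro k hk
      rw [List.mem_filter] at hk
      simpa using hk.2) hc htot
    have h4 : (0 : ℝ) < (totC kind genus s PSL(2, F)
      ((List.ofFn m).filter fun k => ¬ Nat.Coprime k (Fintype.card PSL(2, F))) : ℝ) := by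
      exact_mod_cast htot
    have h5 := (div_lt_iff₀ h4).mpr h3
    linarith
  · obtain ⟨c, hc, N, hN⟩ := common' (fun ms c N => UNeg kind genus s ms c N)
      (fun ms c c' N N' _ hcc hNN h F _ _ _ _ _ h1 h2 h3 =>
        (mul_le_mul_of_nonneg_right hcc (Nat.cast_nonneg _)).trans (h F (hNN.trans h1) h2 h3))
      (List.ofFn m).sublists
      (fun ms h => uneg kind genus s ms hR (hms ms h))
    refine ⟨c, hc, N, ?_⟩
    intro F _ _ hNF hcond
    classical
    have : Fintype F := Fintype.ofFinite F
    have : Fintype PSL(2, F) := Fintype.ofFinite _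
    obtain ⟨htot, hepi⟩ := J10.epiProb_eq kind genus d m s hR PSL(2, F)
    obtain ⟨h1, h2⟩ := J11.filter_eff kind genus s PSL(2, F) (List.ofFn m)
    rw [hepi]
    rw [Nat.card_eq_fintype_card] at hNF
    have hc : ¬ Cond kind genus s (Fintype.card F)
        ((List.ofFn m).filter fun k => ¬ Nat.Coprime k (Fintype.card PSL(2, F))) := by
      simpa only [Signature.eff, Nat.card_eq_fintype_card] using hcond
    rw [h1] at htot ⊢
    rw [h2]
    have h3 := hN _ (List.mem_sublists.mpr List.filter_sublist) F hNF (by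
      intro k hk
      rw [List.mem_filter] at hk
      simpa using hk.2) hc
    have h4 : (0 : ℝ) < (totC kind genus s PSL(2, F)
      ((List.ofFn m).filter fun k => ¬ Nat.Coprime k (Fintype.card PSL(2, F))) : ℝ) := by
      exact_mod_cast htot
    have h5 := (le_div_iff₀ h4).mpr h3
    linarith

end Pool.Agent.Helper669_gp
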