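import Mathlib
import Pool.Agent.Helper669_gp.Defs
import Pool.Agent.Helper669_gp.Fam

/-!
The two descriptions of the presentations and of the criterion agree.
-/

namespace Pool.Agent.Helper669_gp

open scoped MatrixGroups

/-- the probability depends only on the isomorphism type of the source -/
theorem epiProb_source {Γ Δ : Type} [Group Γ] [Group Δ] (e : Γ ≃* Δ) (G : Type) [Group G] :
    epiProb Γ G = epiProb Δ G := by
  let E : (Γ →* G) ≃ (Δ →* G) :=
    { toFun := fun φ => φ.comp e.symm.toMonoidHom
      invFun := fun φ => φ.comp e.toMonoidHom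
      left_inv := fun φ => by ext x; simp
      right_inv := fun φ => by ext x; simp }
  have h1 : Nat.card (Γ →* G) = Nat.card (Δ →* G) := Nat.card_congr E
  have h2 : Nat.card {φ : Γ →* G // Function.Surjective φ} =
      Nat.card {φ : Δ →* G // Function.Surjective φ} := by
    refine Nat.card_congr (E.subtypeEquiv ?_)
    intro φ
    constructor
    · intro h
      exact h.comp e.symm.surjective
    · intro h y
      obtain ⟨x, hx⟩ := h y
      exact ⟨e.symm x, hx⟩
  unfold epiProb
  rw [h1, h2]

theorem isGood_source {Γ Δ : Type} [Group Γ] [Group Δ] (e : Γ ≃* Δ) (S : Set GrpCat.{0}) :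
    IsGood Γ S ↔ IsGood Δ S := by
  unfold IsGood
  have h : ∀ G : GrpCat.{0}, epiProb Γ G = epiProb Δ G := fun G => epiProb_source e G
  simp only [h]

/-- relabelling of the generators, oriented case -/
def genO (g d s : ℕ) : Gen true g d s ≃ OGen g d s where
  toFun
    | Gen.a k => OGen.a k
    | Gen.b _ k => OGen.b k
    | Gen.x i => OGen.x i
    | Gen.y j => OGen.y j
  invFun
    | OGen.a k => Gen.a k
    | OGen.b k => Gen.b rfl k
    | OGen.x i => Gen.x i
    | OGen.y j => Gen.y j
  left_inv t := by cases t <;> rfl
  right_inv t := by cases t <;> rfl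

/-- relabelling of the generators, non-oriented case -/
def genN (g d s : ℕ) : Gen false g d s ≃ NGen g d s where
  toFun
    | Gen.a k => NGen.a k
    | Gen.b h k => absurd h (by decide)
    | Gen.x i => NGen.x i
    | Gen.y j => NGen.y j
  invFun
    | NGen.a k => Gen.a k
    | NGen.x i => Gen.x i
    | NGen.y j => Gen.y j
  left_inv t := by
    cases t with
    | a k => rfl
    | b h k => exact absurd h (by decide)
    | x i => rfl
    | y j => rfl
  right_inv t := by cases t <;> rfl

lemma map_prod_ofFn {α β : Type} (f : FreeGroup α →* FreeGroup β) {n : ℕ}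
    (u : Fin n → FreeGroup α) : f (List.ofFn u).prod = (List.ofFn fun i => f (u i)).prod := by
  rw [map_list_prod, List.map_ofFn]; rfl

lemma image_rels_true (g : ℕ) {d : ℕ} (m : Fin d → ℕ) (s : ℕ) :
    FreeGroup.freeGroupCongr (genO g d s) '' rels true g m s = oRels g m s := by
  rw [rels, oRels, Set.image_union, Set.image_singleton, ← Set.range_comp]
  refine congrArg₂ (· ∪ ·) (congrArg Set.range (funext fun i => ?_)) ?_
  · simp only [Function.comp_apply, map_pow]
    rfl
  rw [Set.singleton_eq_singleton_iff, map_mul, map_mul]
  have e1 : FreeGroup.freeGroupCongr (genO g d s) (List.ofFn fun i : Fin d =>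
      FreeGroup.of (Gen.x (oriented := true) (g := g) (s := s) i)).prod =
      (List.ofFn fun i : Fin d => FreeGroup.of (OGen.x (g := g) (s := s) i)).prod := by
    have := map_prod_ofFn (FreeGroup.freeGroupCongr (genO g d s)).toMonoidHom
      (fun i : Fin d => FreeGroup.of (Gen.x (oriented := true) (g := g) (s := s) i))
    exact this
  have e2 : FreeGroup.freeGroupCongr (genO g d s) (List.ofFn fun j : Fin s =>
      FreeGroup.of (Gen.y (oriented := true) (g := g) (d := d) j)).prod =
      (List.ofFn fun j : Fin s => FreeGroup.of (OGen.y (g := g) (d := d) j)).prod := by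
    have := map_prod_ofFn (FreeGroup.freeGroupCongr (genO g d s)).toMonoidHom
      (fun j : Fin s => FreeGroup.of (Gen.y (oriented := true) (g := g) (d := d) j))
    exact this
  rw [e1, e2]
  congr 1
  have e3 := map_prod_ofFn (FreeGroup.freeGroupCongr (genO g d s)).toMonoidHom
    (fun k : Fin g => if h : true = true then
        FreeGroup.of (Gen.a (oriented := true) (d := d) (s := s) k) * FreeGroup.of (Gen.b h k) *
          (FreeGroup.of (Gen.a k))⁻¹ * (FreeGroup.of (Gen.b h k))⁻¹
        else FreeGroup.of (Gen.a k) ^ 2)
  refine e3.trans ?_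
  congr 1

lemma image_rels_false (g : ℕ) {d : ℕ} (m : Fin d → ℕ) (s : ℕ) :
    FreeGroup.freeGroupCongr (genN g d s) '' rels false g m s = nRels g m s := by
  rw [rels, nRels, Set.image_union, Set.image_singleton, ← Set.range_comp]
  refine congrArg₂ (· ∪ ·) (congrArg Set.range (funext fun i => ?_)) ?_
  · simp only [Function.comp_apply, map_pow]
    rfl
  rw [Set.singleton_eq_singleton_iff, map_mul, map_mul]
  have e1 : FreeGroup.freeGroupCongr (genN g d s) (List.ofFn fun i : Fin d =>
      FreeGroup.of (Gen.x (oriented := false) (g := g) (s := s) i)).prod =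
      (List.ofFn fun i : Fin d => FreeGroup.of (NGen.x (g := g) (s := s) i)).prod := by
    have := map_prod_ofFn (FreeGroup.freeGroupCongr (genN g d s)).toMonoidHom
      (fun i : Fin d => FreeGroup.of (Gen.x (oriented := false) (g := g) (s := s) i))
    exact this
  have e2 : FreeGroup.freeGroupCongr (genN g d s) (List.ofFn fun j : Fin s =>
      FreeGroup.of (Gen.y (oriented := false) (g := g) (d := d) j)).prod =
      (List.ofFn fun j : Fin s => FreeGroup.of (NGen.y (g := g) (d := d) j)).prod := by
    have := map_prod_ofFn (FreeGroup.freeGroupCongr (genN g d s)).toMonoidHom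
      (fun j : Fin s => FreeGroup.of (Gen.y (oriented := false) (g := g) (d := d) j))
    exact this
  rw [e1, e2]
  congr 1
  have e3 := map_prod_ofFn (FreeGroup.freeGroupCongr (genN g d s)).toMonoidHom
    (fun k : Fin g => if h : false = true then
        FreeGroup.of (Gen.a (oriented := false) (d := d) (s := s) k) * FreeGroup.of (Gen.b h k) *
          (FreeGroup.of (Gen.a k))⁻¹ * (FreeGroup.of (Gen.b h k))⁻¹
        else FreeGroup.of (Gen.a k) ^ 2)
  refine e3.trans ?_
  congr 1

/-- the kind as an element of `Kind` -/
def toKind (oriented : Bool) : Kind := if oriented then Kind.oriented else Kind.nonoriented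

theorem isGood_iff (oriented : Bool) (g : ℕ) {d : ℕ} (m : Fin d → ℕ) (s : ℕ)
    (S : Set GrpCat.{0}) :
    IsGood (FuchsianGroup oriented g m s) S ↔
      IsGood (Signature.Grp ⟨toKind oriented, g, d, m, s⟩) S := by
  cases oriented with
  | true =>
    have e := PresentedGroup.equivPresentedGroup (rels true g m s) (genO g d s)
    rw [image_rels_true] at e
    exact isGood_source e S
  | false =>
    have e := PresentedGroup.equivPresentedGroup (rels false g m s) (genN g d s)
    rw [image_rels_false] at e
    exact isGood_source e S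

theorem crit_iff (oriented : Bool) (g s q : ℕ) (ms : List ℕ)
    (hR : (oriented = true ∧ (g = 0 ∨ g = 1)) ∨ (oriented = false ∧ (g = 1 ∨ g = 2))) :
    Crit oriented g s q ms ↔ Cond (toKind oriented) g s q ms := by
  rcases hR with ⟨rfl, rfl | rfl⟩ | ⟨rfl, rfl | rfl⟩
  · rcases s with _ | _ | _ | s <;> simp [Crit, toKind, Cond]
  · rcases s with _ | s <;> simp [Crit, toKind, Cond]
  · rcases s with _ | _ | s <;> simp [Crit, toKind, Cond]
  · rcases s with _ | s <;> simp [Crit, toKind, Cond]

end Pool.Agent.Helper669_gp
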